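import Pool.Agent.Lib.FL.Fin79

/-! From the open region `0 < x`, `0 < y < 1` to the closed unit square. -/

namespace Pool.Agent.Lib.US.H79

open Finset Pool.Agent.Lib.helper82 Pool.Agent.Lib.MP_b67cc8_lc Pool.Agent.Lib.FL
open Pool.Agent.Lib.FL.H5
open Pool.Agent.Lib.MP_dec383_lc (UN)

/-- the target of the project -/
def St_US : Prop := ∀ x y : ℚ, 0 < x → x < 1 → 0 < y → y < 1 →
  ∀ (α : Type) [Enc α] (m k : α → ℕ) (ρ : α → Finset ℕ → ℕ) (ok : α → Prop),
    Fam m ρ ok → UN k → MS k ok fun a => A80.tut (m a) (ρ a) x y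

section
variable {ι κ : Type} [DecidableEq ι] [DecidableEq κ] {ρ : Finset ι → ℕ}

/-- the random cluster form of the Tutte sum -/
def SS (E : Finset ι) (ρ : Finset ι → ℕ) (q v : ℚ) : ℚ :=
  ∑ A ∈ E.powerset, q ^ (ρ E - ρ A) * v ^ A.card

lemma tut_q (h : IsRk ρ) (E : Finset ι) (x y : ℚ) :
    (y - 1) ^ ρ E * tut E ρ x y = SS E ρ ((x - 1) * (y - 1)) (y - 1) := by
  rw [tut, SS, mul_sum]
  refine sum_congr rfl fun A hA => ?_
  obtain ⟨a, ha⟩ := Nat.exists_eq_add_of_le (h.mono A E (mem_powerset.1 hA))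
  obtain ⟨b, hb⟩ := Nat.exists_eq_add_of_le (h.le_card A)
  rw [ha, hb, Nat.add_sub_cancel_left, Nat.add_sub_cancel_left, mul_pow]
  ring

lemma sum_par (f : κ → ι) (Φ : Finset ι → ℚ) (v : ℚ) (E' : Finset κ) :
    ∑ A ∈ E'.powerset, Φ (A.image f) * v ^ A.card =
      ∑ S ∈ (E'.image f).powerset, Φ S * ∏ e ∈ S, ((1 + v) ^ (fib f E' e).card - 1) := by
  have h : ∀ x ∈ E', f x ∈ E'.image f := fun x hx => mem_image_of_mem f hx
  have h1 := sum_group f (fun _ B => ∏ _x ∈ B, v) (fun _ B => B.Nonempty) Φ _ E' h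
  refine Eq.trans (sum_congr rfl fun A hA => ?_) (h1.trans (sum_congr rfl fun S hS => ?_))
  · have hA' := mem_powerset.1 hA
    have e1 : ((E'.image f).filter fun e => (fib f A e).Nonempty) = A.image f := by
      ext e
      simp only [mem_filter, mem_image, fib, Finset.Nonempty]
      exact ⟨fun h2 => h2.2, fun ⟨x, h2, h3⟩ => ⟨⟨x, hA' h2, h3⟩, x, h2, h3⟩⟩
    rw [e1, ← prod_fib f (fun x hx => h x (hA' hx)) fun _ => v, prod_const]
  · have e1 : ∀ e ∈ E'.image f, (∑ B ∈ (fib f E' e).powerset,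
        if (B.Nonempty ↔ e ∈ S) then ∏ _x ∈ B, v else 0) =
        if e ∈ S then (1 + v) ^ (fib f E' e).card - 1 else 1 := fun e _ => by
      have e2 : ∀ B : Finset κ, (if B.Nonempty then ∏ _x ∈ B, v else 0) =
          ∏ _x ∈ B, v - if B = ∅ then 1 else 0 := fun B => by
        rcases B.eq_empty_or_nonempty with rfl | hB
        · simp
        · simp [hB, hB.ne_empty]
      by_cases he : e ∈ S
      · simp only [he, iff_true, if_true, e2, sum_sub_distrib, ← prod_one_add]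
        simp
      · simp only [he, iff_false, if_false, not_nonempty_iff_eq_empty]
        rw [sum_ite_eq']; simp
    rw [prod_congr rfl e1, prod_ite_mem, inter_eq_right.2 (mem_powerset.1 hS)]

lemma SS_thick (ρ : Finset ℕ → ℕ) (m : ℕ) {j : ℕ} (hj : 0 < j) (q v : ℚ) :
    par (· / j) ρ (range (m * j)) = ρ (range m) ∧
    SS (range (m * j)) (par (· / j) ρ) q v = SS (range m) ρ q ((1 + v) ^ j - 1) := by
  have e : (range (m * j)).image (· / j) = range m := by
    ext e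
    simp only [mem_image, mem_range]
    exact ⟨fun ⟨s, h1, h2⟩ => h2 ▸ (Nat.div_lt_iff_lt_mul hj).2 h1, fun h =>
      ⟨e * j, Nat.mul_lt_mul_of_pos_right h hj, Nat.mul_div_cancel _ hj⟩⟩
  refine ⟨by rw [par, e], ?_⟩
  have h1 := sum_par (· / j) (fun S => q ^ (ρ (range m) - ρ S)) v (range (m * j))
  simp only [SS, par, e] at h1 ⊢
  rw [h1]
  refine sum_congr rfl fun S hS => ?_
  rw [← prod_const]
  congr 1
  refine prod_congr rfl fun a ha => ?_
  have h2 := mem_range.1 (mem_powerset.1 hS ha)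
  have : fib (· / j) (range (m * j)) a = Ico (a * j) (a * j + j) := by
    ext s
    simp only [fib, mem_filter, mem_range, mem_Ico, Nat.div_eq_iff hj]
    have := Nat.mul_le_mul_right j (Nat.succ_le_of_lt h2)
    rw [Nat.succ_mul] at this
    omega
  rw [this, Nat.card_Ico, Nat.add_sub_cancel_left]

omit [DecidableEq ι] in
lemma SS_lip (E : Finset ι) (ρ : Finset ι → ℕ) {q δ : ℚ} (q0 : 0 ≤ q) (q1 : q ≤ 1) (d0 : 0 ≤ δ)
    (d1 : δ ≤ 1) : |SS E ρ q (δ - 1) - SS E ρ q (-1)| ≤ 2 ^ E.card * (E.card * δ) := by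
  rw [SS, SS, ← sum_sub_distrib]
  refine (abs_sum_le_sum_abs _ _).trans ((sum_le_card_nsmul _ _ (E.card * δ) fun A hA => ?_).trans
    (by simp))
  have h1 : (A.card : ℚ) ≤ E.card := by exact_mod_cast card_le_card (mem_powerset.1 hA)
  have h2 := one_add_mul_le_pow (a := -δ) (by linarith) A.card
  have h3 : (1 + -δ) ^ A.card ≤ 1 := pow_le_one₀ (by linarith) (by linarith)
  have h4 : q ^ (ρ E - ρ A) ≤ 1 := pow_le_one₀ q0 q1
  rw [← mul_sub, show δ - 1 = -1 * (1 + -δ) by ring, mul_pow, ← mul_sub_one, abs_mul, abs_mul,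
    abs_neg_one_pow, one_mul, abs_of_nonneg (pow_nonneg q0 _), abs_of_nonpos (by linarith)]
  nlinarith [pow_nonneg q0 (ρ E - ρ A)]

/-- the value at `(1 - q, 0)` of the contraction of `K` -/
def WW (ρ : Finset ι → ℕ) (q : ℚ) (K E : Finset ι) : ℚ :=
  (-1) ^ (ρ (K ∪ E) - ρ K) * ∑ A ∈ E.powerset, q ^ (ρ (K ∪ E) - ρ (K ∪ A)) * (-1) ^ A.card

lemma WW_loop (h : IsRk ρ) (q : ℚ) {K E : Finset ι} {e : ι} (he : e ∈ E)
    (hl : ρ (insert e K) = ρ K) : WW ρ q K E = 0 := by
  rw [WW, ← insert_erase he, sum_powerset_insert (notMem_erase _ _), ← sum_add_distrib,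
    sum_eq_zero fun A hA => ?_, mul_zero]
  have h1 := h.dim K (K ∪ A) e subset_union_left
  have h2 := h.le_ins (K ∪ A) e
  rw [card_insert_of_notMem fun h' => notMem_erase _ _ (mem_powerset.1 hA h'), union_insert _ _ A,
    show ρ (insert e (K ∪ A)) = ρ (K ∪ A) by omega]
  ring

lemma WW_ge (h : IsRk ρ) {q : ℚ} (q1 : q ≤ 1) (E : Finset ι) : ∀ K : Finset ι,
    (∀ e ∈ E, ρ (insert e K) ≠ ρ K) → (1 - q) ^ (ρ (K ∪ E) - ρ K) ≤ WW ρ q K E := by
  induction E using Finset.induction_on with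
  | empty => intro K _; simp [WW]
  | insert e E he ih =>
    intro K hK
    have a1 := ih K fun f hf => hK f (mem_insert_of_mem hf)
    have a2 : 0 ≤ WW ρ q (insert e K) E := by
      by_cases h1 : ∀ f ∈ E, ρ (insert f (insert e K)) ≠ ρ (insert e K)
      · exact (pow_nonneg (by linarith) _).trans (ih _ h1)
      · simp only [not_forall, not_not] at h1
        obtain ⟨f, h1, h2⟩ := h1
        exact (WW_loop h q h1 h2).ge
    have b0 := hK e (mem_insert_self _ _)
    have b1 := h.ins (K ∪ E) e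
    have b2 := h.le_ins (K ∪ E) e
    have b3 := h.ins K e
    have b4 := h.le_ins K e
    have b6 := h.mono K (K ∪ E) subset_union_left
    have b7 := h.mono (insert e K) (insert e (K ∪ E)) (insert_subset_insert _ subset_union_left)
    have c1 : WW ρ q K (insert e E) = (-1) ^ (ρ (insert e (K ∪ E)) - ρ K) * ∑ A ∈ E.powerset,
        q ^ (ρ (insert e (K ∪ E)) - ρ (K ∪ A)) * (-1) ^ A.card + WW ρ q (insert e K) E := by
      rw [WW, WW, sum_powerset_insert he, mul_add, union_insert, insert_union,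
        show ρ (insert e (K ∪ E)) - ρ K = ρ (insert e (K ∪ E)) - ρ (insert e K) + 1 by omega]
      congr 1
      rw [mul_sum, mul_sum]
      refine sum_congr rfl fun A hA => ?_
      rw [card_insert_of_notMem fun h' => he (mem_powerset.1 hA h'), union_insert, insert_union]
      ring
    rw [c1, union_insert]
    by_cases d2 : ρ (insert e (K ∪ E)) = ρ (K ∪ E)
    · rw [d2]
      exact le_add_of_le_of_nonneg a1 a2
    · have d3 : WW ρ q (insert e K) E = WW ρ q K E := by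
        rw [WW, WW, insert_union, show ρ (insert e (K ∪ E)) - ρ (insert e K) = ρ (K ∪ E) - ρ K by
          omega]
        congr 1
        refine sum_congr rfl fun A hA => ?_
        have h1 := h.dim (K ∪ A) (K ∪ E) e (union_subset_union_right (mem_powerset.1 hA))
        have h2 := h.ins (K ∪ A) e
        rw [insert_union, show ρ (insert e (K ∪ E)) - ρ (insert e (K ∪ A)) =
          ρ (K ∪ E) - ρ (K ∪ A) by omega]
      have d4 : ∑ A ∈ E.powerset, q ^ (ρ (insert e (K ∪ E)) - ρ (K ∪ A)) * (-1) ^ A.card =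
          q * ∑ A ∈ E.powerset, q ^ (ρ (K ∪ E) - ρ (K ∪ A)) * (-1) ^ A.card := by
        rw [mul_sum]
        refine sum_congr rfl fun A hA => ?_
        have h1 := h.mono (K ∪ A) (K ∪ E) (union_subset_union_right (mem_powerset.1 hA))
        rw [show ρ (insert e (K ∪ E)) - ρ (K ∪ A) = ρ (K ∪ E) - ρ (K ∪ A) + 1 by omega]
        ring
      rw [d3, d4, show ρ (insert e (K ∪ E)) - ρ K = ρ (K ∪ E) - ρ K + 1 by omega]
      have := mul_le_mul_of_nonneg_right a1 (sub_nonneg.2 q1)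
      rw [WW] at this ⊢
      rw [pow_succ, pow_succ]
      linarith

lemma tut_x0 (h : IsRk ρ) (E : Finset ι) (x : ℚ) :
    tut E ρ x 0 = (-1) ^ ρ E * SS E ρ (1 - x) (-1) ∧ tut E ρ x 0 = WW ρ (1 - x) ∅ E := by
  have h1 := tut_q h E x 0
  rw [zero_sub, show (x - 1) * -1 = 1 - x by ring] at h1
  have h2 : tut E ρ x 0 = (-1) ^ ρ E * SS E ρ (1 - x) (-1) := by
    rw [← h1, ← mul_assoc, ← mul_pow]; simp
  exact ⟨h2, by rw [h2]; simp [WW, SS, h.emp]⟩

end

variable {α : Type} [Enc α] {m k : α → ℕ} {ρ : α → Finset ℕ → ℕ} {ok : α → Prop}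

lemma fam_thick (h : Fam m ρ ok) {j : α → ℕ} (hj : UN j) (j0 : ∀ a, 0 < j a) :
    Fam (fun a => m a * j a) (fun a => par (· / j a) (ρ a)) ok := by
  obtain ⟨hm, O, hO, h⟩ := h
  refine ⟨hm.mul hj, fun a L => O a (L.map fun e => min (m a * j a) e / j a),
    PT.comp hO (PT.pair PT.fst' (PT.map (F := fun (p : α × List ℕ) (e : ℕ) =>
      min (m p.1 * j p.1) e / j p.1) PT.snd' ((((hm.mul hj).comp (PT.fst PT.fst')).min
        PT.snd').div (PT.comp hj.pt (PT.fst PT.fst'))).pt)),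
    fun a ha => ⟨((of64 (h a ha).1).par _).to64, fun L hL => ?_⟩⟩
  beta_reduce
  rw [List.map_congr_left fun e he => by rw [min_eq_right (hL e he).le],
    (h a ha).2 _ fun e he => by
      obtain ⟨s, h1, rfl⟩ := List.mem_map.1 he
      exact (Nat.div_lt_iff_lt_mul (j0 a)).2 (hL s h1), par]
  congr 1
  ext e
  simp

lemma ms_near {f f' : α → ℚ} (h : MS (fun a => 2 * k a) ok f')
    (e : ∀ a, ok a → 0 < k a → |f' a - f a| ≤ f a / (8 * k a)) : MS k ok f := by
  obtain ⟨A, L, hA, hL, h⟩ := h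
  refine ⟨A, L, hA, hL, fun a ha hk l hl => ?_⟩
  obtain ⟨h1, h2⟩ := h a ha (Nat.mul_pos two_pos hk) l hl
  refine ⟨h1, ?_⟩
  have k1 : (1 : ℝ) ≤ k a := by exact_mod_cast hk
  have e1 : |(f' a : ℝ) - f a| ≤ f a / (8 * k a) := by exact_mod_cast e a ha hk
  have f0 : (0 : ℝ) ≤ f a / (8 * k a) := (abs_nonneg _).trans e1
  have f1 : (0 : ℝ) ≤ f a := by
    rwa [le_div_iff₀ (by positivity), zero_mul] at f0
  have f2 : (f a : ℝ) / (8 * k a) ≤ f a / 8 :=
    div_le_div_of_nonneg_left f1 (by norm_num) (by linarith)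
  have f3 : |(f' a : ℝ)| ≤ 9 / 8 * f a := by
    have := abs_le.1 e1
    rw [abs_le]
    constructor <;> linarith
  have h3 := Ex_sq_add l (fun x => ((A a x).1 : ℝ) / (A a x).2 - f' a) (fun _ => (f' a : ℝ) - f a)
    (a := 9 / 8 * f a / (4 * k a)) (by positivity) f0 (h2.trans (by
      push_cast
      rw [div_pow, show (4 * (k a : ℝ)) ^ 2 = 4 * (2 * k a) ^ 2 by ring, ← sq_abs]
      gcongr)) (by rw [Ex_const, ← sq_abs]; gcongr)
  refine le_trans (le_of_eq (Ex_congr fun x _ => by ring)) (h3.trans ?_)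
  rw [show 9 / 8 * (f a : ℝ) / (4 * k a) + f a / (8 * k a) = 13 / 16 * (f a / (2 * k a)) by
    field_simp; ring, show (f a : ℝ) ^ 2 / (4 * k a ^ 2) = (f a / (2 * k a)) ^ 2 by ring, mul_pow]
  nlinarith [sq_nonneg ((f a : ℝ) / (2 * k a))]

lemma ms_ite {f : α → ℚ} {c : α → Bool} (hc : PT c) (n : ℕ)
    (h : MS k (fun a => ok a ∧ c a = false) f) (e : ∀ a, ok a → c a = true → f a = n) :
    MS k ok f := by
  obtain ⟨A, L, hA, hL, h⟩ := h
  refine ⟨fun a x => cond (c a) (n, 1) (A a x), L, PT.cond (PT.comp hc PT.fst') (PT.const _) hA,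
    hL, fun a ha hk l hl => ?_⟩
  cases h1 : c a
  · simpa only [h1, cond_false] using h a ⟨ha, h1⟩ hk l hl
  · simp only [h1, cond_true, e a ha h1]
    refine ⟨fun _ => one_pos, ?_⟩
    rw [Ex_const]
    simp only [Nat.cast_one, div_one, Rat.cast_natCast, sub_self]
    rw [zero_pow two_ne_zero]
    positivity

lemma fam_mono (h : Fam m ρ ok) {ok' : α → Prop} (e : ∀ a, ok' a → ok a) : Fam m ρ ok' := by
  obtain ⟨hm, O, hO, h⟩ := h
  exact ⟨hm, O, hO, fun a ha => h a (e a ha)⟩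

theorem ms_x0 (H : St_US) {x : ℚ} (x0 : 0 < x) (x1 : x < 1) (h : Fam m ρ ok) (hk : UN k) :
    MS k ok fun a => A80.tut (m a) (ρ a) x 0 := by
  obtain ⟨r, hr, hr'⟩ := h.rk
  obtain ⟨hm, O, hO, h5⟩ := h.un
  have hO' : ∀ a, ok a → ∀ e < m a, O a [e] = ρ a (insert e ∅) := fun a ha e he => by
    rw [(h5 a ha).2 _ (by simpa using he)]
    simp
  refine ms_ite (c := fun a => (List.range (m a)).any fun e => decide (O a [e] = 0))
    (PT.any (P := fun a e => decide (O a [e] = 0)) hm.range (PT.eq (hO.comp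
      (PT.pair PT.fst' (PT.cons PT.snd' (PT.const [])))).pt (PT.const 0))) 0 ?_ fun a ha hc => ?_
  swap
  · simp only [List.any_eq_true, List.mem_range, decide_eq_true_eq] at hc
    obtain ⟨e, h1, h2⟩ := hc
    rw [A80.tut, ← tut, (tut_x0 (h5 a ha).1 _ x).2, Nat.cast_zero]
    exact WW_loop (h5 a ha).1 _ (mem_range.2 h1) (by rw [← hO' a ha e h1, h2, (h5 a ha).1.emp])
  obtain ⟨c, hc⟩ := pow_unbounded_of_one_lt (2 / x) (one_lt_two (α := ℚ))
  have y1 : 0 < 1 - x / 2 := by linarith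
  obtain ⟨p, q, q0, ep⟩ := exists_frac y1.le
  have hj : UN fun a => (c + 1) * m a + k a + 3 := (((UN.const _).mul hm).add hk).add (UN.const 3)
  have h2 := (H (x / 2 / (1 - x / 2)) (x / 2) (by positivity) (by rw [div_lt_one y1]; linarith)
    (by positivity) (by linarith) α _ _ _ _ (fam_thick h hj fun _ => by omega)
    ((UN.const 2).mul hk)).smul (f' := fun a => (-1) ^ ρ a (range (m a)) * SS (range (m a)) (ρ a)
      (1 - x) ((x / 2) ^ ((c + 1) * m a + k a + 3) - 1)) (ptPow p hr) (ptPow q hr)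
      (fun _ _ => by positivity) fun a ha => by
        obtain ⟨e1, e2⟩ := SS_thick (ρ a) (m a) (j := (c + 1) * m a + k a + 3) (by omega) (1 - x)
          (x / 2 - 1)
        have e3 := tut_q ((h5 a ha).1.par (· / ((c + 1) * m a + k a + 3)))
          (range (m a * ((c + 1) * m a + k a + 3))) (x / 2 / (1 - x / 2)) (x / 2)
        rw [e1, show (x / 2 / (1 - x / 2) - 1) * (x / 2 - 1) = 1 - x by
          have := div_mul_cancel₀ (x / 2) y1.ne'
          linear_combination -this, e2,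
          add_sub_cancel] at e3
        rw [← e3, hr' a ha, Nat.cast_pow, Nat.cast_pow, ← div_pow, ← ep, ← mul_assoc, ← mul_pow]
        congr 2
        ring
  obtain ⟨A, L, hA, hL, h2⟩ := h2
  refine ms_near ⟨A, L, hA, hL, fun a ha => h2 a ha.1⟩ fun a ⟨ha, hc'⟩ k0 => ?_
  obtain ⟨e1, e2⟩ := tut_x0 (h5 a ha).1 (range (m a)) x
  have e3 := WW_ge (h5 a ha).1 (q := 1 - x) (by linarith) (range (m a)) ∅ fun e he h3 => by
    have := List.any_eq_false.1 hc' e (List.mem_range.2 (mem_range.1 he))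
    rw [hO' a ha e (mem_range.1 he), h3, (h5 a ha).1.emp] at this
    simp at this
  rw [← e2, sub_sub_cancel, empty_union, (h5 a ha).1.emp, Nat.sub_zero] at e3
  have e4 : x ^ m a ≤ tut (range (m a)) (ρ a) x 0 := le_trans (pow_le_pow_of_le_one x0.le x1.le
    (by simpa using (h5 a ha).1.le_card (range (m a)))) e3
  have d1 : (x / 2) ^ ((c + 1) * m a + k a + 3) ≤ (1 / 2) ^ ((c + 1) * m a + k a + 3) :=
    pow_le_pow_left₀ (by positivity) (by linarith) _
  have e5 := SS_lip (range (m a)) (ρ a) (q := 1 - x) (by linarith) (by linarith)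
    (by positivity) (d1.trans (pow_le_one₀ (by norm_num) (by norm_num)))
  rw [A80.tut, ← tut]
  refine le_trans ?_ (div_le_div_of_nonneg_right e4 (by positivity))
  rw [e1, ← mul_sub, abs_mul, abs_neg_one_pow, one_mul]
  refine e5.trans ?_
  rw [card_range, le_div_iff₀ (by positivity)]
  have m1 : (m a : ℚ) ≤ 2 ^ m a := by exact_mod_cast Nat.lt_two_pow_self.le
  have k1 : (k a : ℚ) ≤ 2 ^ k a := by exact_mod_cast Nat.lt_two_pow_self.le
  have x2 : (2 : ℚ) ^ m a ≤ (2 ^ c) ^ m a * x ^ m a := by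
    rw [← mul_pow]
    exact pow_le_pow_left₀ (by norm_num) ((div_le_iff₀ x0).1 hc.le) _
  calc 2 ^ m a * (m a * (x / 2) ^ ((c + 1) * m a + k a + 3)) * (8 * (k a : ℚ))
      ≤ (2 ^ c) ^ m a * x ^ m a * (2 ^ m a * (1 / 2) ^ ((c + 1) * m a + k a + 3)) *
        (8 * 2 ^ k a) := by gcongr
    _ = x ^ m a := by
      rw [one_div_pow, ← pow_mul]
      field_simp
      ring

theorem ms_sq (H : St_US) {x y : ℚ} (x0 : 0 ≤ x) (x1 : x < 1) (y0 : 0 ≤ y) (y1 : y < 1)
    (h : Fam m ρ ok) (hk : UN k) : MS k ok fun a => A80.tut (m a) (ρ a) x y := by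
  obtain ⟨hm, _, -, h5⟩ := h.un
  rcases x0.eq_or_lt with rfl | x0 <;> rcases y0.eq_or_lt with rfl | y0
  · refine ms_ite (c := fun a => decide (m a = 0)) (PT.eq hm.pt (PT.const 0)) 1
      (ms_ite (c := fun _ => true) (PT.const _) 0 ⟨fun _ _ => (0, 1), fun _ => 0, PT.const _,
        UN.const 0, fun a ha => by simp at ha⟩ fun a ha _ => ?_) fun a ha hc => ?_
    · rw [A80.tut, ← tut, (tut_x0 (h5 a ha.1).1 _ _).1, SS]
      simp only [sub_zero, one_pow, one_mul]
      have := sum_powerset_neg_one_pow_card_of_nonempty (x := range (m a))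
        (nonempty_range_iff.2 (by simpa using ha.2))
      have h2 : ∑ A ∈ (range (m a)).powerset, (-1 : ℚ) ^ A.card = 0 := by exact_mod_cast this
      rw [h2]
      simp
    · simp only [decide_eq_true_eq] at hc
      simp [A80.tut, hc]
  · refine (ms_x0 H y0 y1 h.dual hk).smul (PT.const 1) (PT.const 1) (fun _ _ => one_pos)
      fun z hz => ?_
    rw [A80.tut, A80.tut, ← tut, ← tut, tut_dual (h5 z hz).1]
    simp
  · exact ms_x0 H x0 x1 h hk
  · exact H x y x0 x1 y0 y1 α m k ρ ok h hk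

theorem fpr_sq (H : St_US) {x y : ℚ} (x0 : 0 ≤ x) (x1 : x < 1) (y0 : 0 ≤ y) (y1 : y < 1)
    {r : ℕ → List (ℕ × ℕ) → ℕ} (hr : ∀ n A, (∀ e ∈ A, e.1 < n ∧ e.2 < n) → r n A = rk id A) :
    FL.H79.FPR fun n E => (E.sublists.map fun A =>
      (x - 1) ^ (r n E - r n A) * (y - 1) ^ (A.length - r n A)).sum := by
  refine FL.H79.fpr_of_ms (ms_sq (α := (ℕ × List (ℕ × ℕ)) × List Bool) H x0 x1 y0 y1
    (H10.fam_graph (PT.snd PT.fst') fun _ => True) (UN.length PT.snd')) fun n E q hE =>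
      ⟨trivial, ?_⟩
  exact (H10.tutte_eq E (r n) (fun A hA => hr n A fun e he => hE e (hA he)) x y).symm

end Pool.Agent.Lib.US.H79
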