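import Pool.Agent.Lib.US.Api

/-! Statements of the abstract layer. -/

namespace Pool.Agent.Lib.US

open Finset

/-- a generic functional in which the constraints of `H` dominate -/
def St_GP : Prop := ∀ (ι X V : Type) [DecidableEq ι] [AddCommGroup V] [Module ℝ V]
  (S : Sys ι X V), S.Ax → ∀ H ⊆ S.Cc, ∃ p, S.GoodP p ∧ ∀ c ∈ H, ∑ d ∈ S.Cc \ H, p d < p c

/-- genericity, size and integrality of the slacks -/
def St_GEN : Prop := ∀ (ι X V : Type) [DecidableEq ι] [AddCommGroup V] [Module ℝ V]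
  (S : Sys ι X V), S.Ax → ∀ θ : ι → ℝ, (S.SGen θ → S.Gen θ) ∧ ∀ σ T, S.IsB σ T → ∀ d ∈ S.Cn,
    d ∉ T → |S.sl θ σ T d| ≤ ∑ c ∈ S.Cc, |θ c| ∧
      ((∀ c, ∃ n : ℤ, θ c = n) → ∃ n : ℤ, S.sl θ σ T d = n)

open Classical in
/-- the planar Minkowski inequality -/
def St_POLY : Prop := ∀ (ι X V : Type) [DecidableEq ι] [Inhabited X] [AddCommGroup V] [Module ℝ V]
  (S : Sys ι X V), S.Ax → ∀ θ p, S.Gen θ → S.GoodP p → ∀ σ Φ U,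
    0 ≤ ∑ x ∈ (S.Cn.powerset ×ˢ S.Cn ×ˢ S.Cn).filter fun x => S.Vx θ σ x.1 ∧ x.2.1 ∈ x.1 ∧
        x.2.2 ∈ x.1 ∧ x.2.1 ≠ x.2.2 ∧ (x.1.erase x.2.1).erase x.2.2 = Φ,
      (S.slope θ U σ x.1 x.2.1 * S.slope θ U σ x.1 x.2.2 -
        S.ph p σ x.1 x.2.2 / S.ph p σ x.1 x.2.1 * S.slope θ U σ x.1 x.2.1 ^ 2)

open Classical in
/-- solvability of the Laplace equation on a finite network -/
def St_EXT : Prop := ∀ (δ N : Type) (D : Finset δ) (rev : δ → δ) (src : δ → N) (c : δ → ℝ)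
  (I : Finset N) (h G0 : N → ℝ), (∀ d ∈ D, rev d ∈ D ∧ rev (rev d) = d ∧ c (rev d) = c d ∧ 0 < c d) →
  (∀ ψ : N → ℝ, (∀ s, s ∉ I → ψ s = 0) → (∀ d ∈ D, ψ (src (rev d)) = ψ (src d)) →
    ∑ s ∈ I, ψ s * h s = 0) →
  ∃ G : N → ℝ, (∀ s, s ∉ I → G s = G0 s) ∧
    ∀ s ∈ I, ∑ d ∈ D.filter fun d => src d = s, c d * (G s - G (src (rev d))) = h s

/-- extension to the faces of codimension two: the weighted mean over the wall edges -/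
def St_EXT2 : Prop := ∀ (ι X V : Type) [DecidableEq ι] [Inhabited X] [AddCommGroup V] [Module ℝ V]
  (S : Sys ι X V), S.Ax → ∀ θ, S.Gen θ → ∀ U : (ι → X) × Finset ι → ℝ, ∃ U' : (ι → X) × Finset ι → ℝ,
    (∀ s : (ι → X) × Finset ι, (s.2 ∩ S.Kw).card ≤ 1 → U' s = U s) ∧
    ∀ σ T k l, S.Vx θ σ T → k ≠ l → T ∩ S.Kw = {k, l} → ∑ τ ∈ S.Nb2 k l σ,
      (S.nu τ l * S.slope θ U' τ T k + S.nu τ k * S.slope θ U' τ T l) = 0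

/-- the corner terms at the vertices on two walls -/
def St_COR2 : Prop := ∀ (ι X V : Type) [DecidableEq ι] [Inhabited X] [AddCommGroup V] [Module ℝ V]
  (S : Sys ι X V), S.Ax → ∀ θ p, S.GoodP p → ∀ U σ T k l, S.Vx θ σ T → k ≠ l →
    T ∩ S.Kw = {k, l} → ∑ τ ∈ S.Nb2 k l σ,
      (S.nu τ l * S.slope θ U τ T k + S.nu τ k * S.slope θ U τ T l) = 0 →
    ∑ τ ∈ S.Nb2 k l σ, (2 * S.slope θ U τ T k * S.slope θ U τ T l -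
      S.ph p τ T l / S.ph p τ T k * S.slope θ U τ T k ^ 2 -
      S.ph p τ T k / S.ph p τ T l * S.slope θ U τ T l ^ 2) ≤ 0

/-- the energy as a sum over darts (Euler relation) -/
def St_EUL : Prop := ∀ (ι X V : Type) [DecidableEq ι] [Inhabited X] [AddCommGroup V] [Module ℝ V]
  (S : Sys ι X V), S.Ax → ∀ θ b p, S.Gen θ → S.Cost θ b → S.GoodP p → ∀ U,
    S.En θ b U = ∑ d ∈ S.Dt θ 0, S.om b (d.1.2.erase d.2) * S.slope θ U d.1.1 d.1.2 d.2 ^ 2 *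
      ((∑ e ∈ d.1.2 ∩ S.Cc, b e * S.ph p d.1.1 d.1.2 e) / S.ph p d.1.1 d.1.2 d.2)

/-- the Bochner inequality -/
def St_BOCH : Prop := ∀ (ι X V : Type) [DecidableEq ι] [Inhabited X] [AddCommGroup V] [Module ℝ V]
  (S : Sys ι X V), S.Ax → ∀ θ b, S.Gen θ → S.Cost θ b → ∀ U, S.Kir θ U →
    S.En θ b U ≤ ∑ v ∈ S.Tm θ, S.om b v.2 * (∑ c ∈ v.2, b c * S.slope θ U v.1 v.2 c) ^ 2

/-- the Poincare inequality -/
def St_POINC : Prop := ∀ (ι X V : Type) [DecidableEq ι] [Inhabited X] [AddCommGroup V]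
  [Module ℝ V] (S : Sys ι X V), S.Ax → ∀ θ b, S.Gen θ → S.Cost θ b → S.Conn θ → ∀ F,
    ∑ v ∈ S.Tm θ, S.om b v.2 * F v = 0 → ∑ v ∈ S.Tm θ, S.om b v.2 * F v ^ 2 ≤ S.En θ b F

/-- connectivity by descent; every node on a wall has a bounded dart -/
def St_CONN : Prop := ∀ (ι X V : Type) [DecidableEq ι] [Inhabited X] [AddCommGroup V]
  [Module ℝ V] (S : Sys ι X V), S.Ax → ∀ θ p, S.Gen θ → S.GoodP p →
    (∀ σ T k, S.Vx θ σ T → T ∩ S.Kw = {k} → ∃ τ ∈ S.Nb k σ, (S.cand τ T k).Nonempty) ∧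
    ((∀ v ∈ S.Tm θ, ∀ v' ∈ S.Tm θ, (∀ c ∈ v.2, 0 < S.ph p v.1 v.2 c) →
      (∀ c ∈ v'.2, 0 < S.ph p v'.1 v'.2 c) → v = v') → S.Conn θ)

/-- the exchange lemma: one threshold changes -/
def St_INV : Prop := ∀ (ι X V : Type) [DecidableEq ι] [AddCommGroup V] [Module ℝ V]
  (S : Sys ι X V), S.Ax → ∀ θ θ' a, S.Gen θ → S.Gen θ' → S.Cost (fun _ => 0) a →
    ∀ c ∈ S.Cc, (∀ d, d ≠ c → θ' d = θ d) → S.Zs θ a = S.Zs θ' a

/-- the partition function does not depend on the thresholds -/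
def St_INV2 : Prop := ∀ (ι X V : Type) [DecidableEq ι] [AddCommGroup V] [Module ℝ V]
  (S : Sys ι X V), S.Ax → ∀ θ θ' a, S.SGen θ → S.SGen θ' → S.Cost (fun _ => 0) a →
    S.Zs θ a = S.Zs θ' a

/-- the number of vertices on one wall -/
def St_CNT1 : Prop := ∀ (ι X V : Type) [DecidableEq ι] [AddCommGroup V] [Module ℝ V]
  (S : Sys ι X V), S.Ax → ∀ θ, S.Gen θ → ∀ (a : ι → ℝ) (A : ℝ), 0 ≤ A →
    (∀ c ∈ S.Cc, 0 < a c ∧ a c ≤ A) → ∑ v ∈ S.VJ θ 1, S.om a v.2 ≤ 2 * S.B ^ 3 * A * S.Zs θ a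

/-- the number of vertices on two walls -/
def St_CNT2 : Prop := ∀ (ι X V : Type) [DecidableEq ι] [AddCommGroup V] [Module ℝ V]
  (S : Sys ι X V), S.Ax → ∀ θ, S.Gen θ → ∀ (a : ι → ℝ) (A : ℝ), 0 ≤ A →
    (∀ c ∈ S.Cc, 0 < a c ∧ a c ≤ A) →
      ∑ v ∈ S.VJ θ 2, S.om a v.2 ≤ 2 * S.B ^ 5 * A * ∑ v ∈ S.VJ θ 1, S.om a v.2

/-- the total conductance is small on average over integer thresholds -/
def St_SWEEP : Prop := ∀ (ι X V : Type) [DecidableEq ι] [AddCommGroup V] [Module ℝ V]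
  (S : Sys ι X V), S.Ax → ∀ (a : ι → ℝ) (A0 A Z : ℝ), 0 < A0 → A0 ≤ A →
    (∀ c ∈ S.Cc, A0 ≤ a c ∧ a c ≤ A) → (∀ θ, S.SGen θ → S.Zs θ a ≤ Z) → 0 ≤ Z → ∀ K : ℕ,
    ∃ F : ι → (ι → ℝ) → ℝ, (∀ c θ, 0 ≤ F c θ) ∧
      (∀ θ : ι → ℕ, (∀ c, θ c < 2 ^ K) → S.SGen (fun c => θ c) →
        ∑ d ∈ S.Db (fun c => θ c) 0, S.om a (d.1.2.erase d.2) / S.len (fun c => θ c) d.1.1 d.1.2 d.2 ≤
          ∑ c ∈ S.Cc, F c fun c => θ c) ∧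
      ∀ c ∈ S.Cc, ∀ θ : ι → ℕ, ∑ t ∈ range (2 ^ K), F c (fun d => (Function.update θ c t d : ℕ)) ≤
        20 * S.B ^ 12 * (K + 1) * A * (A / A0) * Z

/-- comparison: weights `a` of the walk against the costs `a + θ` -/
def St_CMP : Prop := ∀ (ι X V : Type) [DecidableEq ι] [Inhabited X] [AddCommGroup V]
  [Module ℝ V] (S : Sys ι X V), S.Ax → ∀ θ a, S.Gen θ → S.Cost (fun _ => 0) a → S.Conn θ →
    (∀ c ∈ S.Cc, 0 ≤ θ c ∧ 2 * S.B * θ c ≤ a c) → ∀ F,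
    ∑ v ∈ S.Tm θ, S.om a v.2 * F v = 0 → ∑ v ∈ S.Tm θ, S.om a v.2 * F v ^ 2 ≤ 2 * S.En θ a F

end Pool.Agent.Lib.US
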