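import Pool.Agent.Lib.US.PT72
import Pool.Agent.Lib.US.Blue

/-! Random thresholds read from a bit string. -/

namespace Pool.Agent.US.Tick72

open Finset Pool.Agent.Lib.helper82 Pool.Agent.Lib.MP_b67cc8_lc Pool.Agent.FL.Mix28
open Pool.Agent.Lib.MP_dec383_lc (UN)
open Pool.Agent.Lib.FL.A80.PTc Pool.Agent.Lib.US

variable {ι : Type}

/-- the threshold of `c` is the block number `ix c` of `K` bits -/
def env (K : ℕ) (ix : ι → ℕ) (x : List Bool) (c : ι) : ℕ := ofB ((x.drop (K * ix c)).take K)

theorem ofB_lt' (l : List Bool) : ofB l < 2 ^ l.length := by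
  induction l with
  | nil => simp [ofB]
  | cons b l ih =>
    change Nat.bit b (ofB l) < _
    rw [Nat.bit_val, List.length_cons, pow_succ]
    cases b <;> simp <;> omega

theorem env_lt (K : ℕ) (ix : ι → ℕ) (x : List Bool) (c : ι) : env K ix x c < 2 ^ K :=
  (ofB_lt' _).trans_le (Nat.pow_le_pow_right two_pos (List.length_take_le _ _))

section pt
open PT
variable {α : Type} [Enc α]

theorem drop_pt {x : α → List Bool} {i : α → ℕ} (hx : PT x) (hi : PT i) :
    PT fun a => (x a).drop (i a) :=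
  (snd (un_split ((UN.length hx).min hi) hx)).congr fun a => by
    rcases le_total (x a).length (i a) with h | h
    · simp [min_eq_left h, List.drop_eq_nil_of_le h]
    · rw [min_eq_right h]

theorem env_pt {K : α → ℕ} {ix : α → ι → ℕ} {x : α → List Bool} {c : α → ι} (hK : UN K)
    (hi : PT fun a => ix a (c a)) (hx : PT x) : PT fun a => env (K a) (ix a) (x a) (c a) :=
  ofB_pt (fst (un_split hK (drop_pt hx (mul hK.pt hi))))

end pt

variable [DecidableEq ι] {K n : ℕ} {ix : ι → ℕ}

theorem env_upd {c : ι} (h : ∀ d, ix d = ix c → d = c) {x y : List Bool} (z : List Bool)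
    (hx : x.length = K * ix c) (hy : y.length = K) :
    env K ix (x ++ (y ++ z)) =
      Function.update (env K ix (x ++ (List.replicate K false ++ z))) c (ofB y) := by
  funext d
  by_cases hd : d = c
  · subst hd
    rw [Function.update_self, env, List.drop_left' hx, List.take_left' hy]
  · rw [Function.update_of_ne hd, env, env]
    rcases lt_or_gt_of_ne (show ix d ≠ ix c from fun e => hd (h d e)) with l | l
    · have := Nat.mul_le_mul_left K (Nat.succ_le_of_lt l)
      rw [Nat.mul_succ] at this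
      rw [List.drop_append_of_le_length (by omega), List.drop_append_of_le_length (by omega),
        List.take_append_of_le_length (by rw [List.length_drop]; omega),
        List.take_append_of_le_length (by rw [List.length_drop]; omega)]
    · have := Nat.mul_le_mul_left K (Nat.succ_le_of_lt l)
      rw [Nat.mul_succ] at this
      obtain ⟨w, hw⟩ := Nat.exists_eq_add_of_le this
      have e : ∀ y : List Bool, y.length = K →
          (x ++ (y ++ z)).drop (K * ix c + K + w) = z.drop w := fun y hy => by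
        rw [← List.append_assoc, ← List.drop_drop, List.drop_left' (by simp [hx, hy])]
      rw [hw, e _ hy, e _ List.length_replicate]

/-- averaging over one block -/
theorem Ex_update {c : ι} (hc : ix c < n) (h : ∀ d, ix d = ix c → d = c) (F : (ι → ℕ) → ℝ) {M : ℝ}
    (hM : ∀ θ, ∑ t ∈ range (2 ^ K), F (Function.update θ c t) ≤ M) :
    Ex (K * n) (fun x => F (env K ix x)) ≤ M / 2 ^ K := by
  obtain ⟨r, rfl⟩ := Nat.exists_eq_add_of_lt hc
  rw [show K * (ix c + r + 1) = K * ix c + (K + K * r) by ring, Ex_append,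
    ← Ex_const (K * ix c) (M / _)]
  refine Ex_mono fun x hx => ?_
  rw [Ex_append, Ex_congr fun y hy => Ex_congr fun z _ => congrArg F (env_upd h z hx hy),
    Ex_ofB K fun t => Ex (K * r) fun z => F (Function.update
      (env K ix (x ++ (List.replicate K false ++ z))) c t), ← Ex_finsum]
  refine div_le_div_of_nonneg_right ?_ (by positivity)
  rw [← Ex_const (K * r) M]
  exact Ex_mono fun z _ => hM _

theorem Ex_blocks {Cc : Finset ι} (hix : ∀ c ∈ Cc, ix c < n ∧ ∀ d, ix d = ix c → d = c)
    (G : (ι → ℕ) → ℝ) (F : ι → (ι → ℕ) → ℝ) {M : ℝ}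
    (h1 : ∀ θ, (∀ c, θ c < 2 ^ K) → G θ ≤ ∑ c ∈ Cc, F c θ)
    (h2 : ∀ c ∈ Cc, ∀ θ, ∑ t ∈ range (2 ^ K), F c (Function.update θ c t) ≤ M) :
    Ex (K * n) (fun x => G (env K ix x)) ≤ Cc.card * (M / 2 ^ K) := by
  refine (Ex_mono fun x _ => h1 _ (env_lt K ix x)).trans ?_
  rw [Ex_finsum, ← nsmul_eq_mul, ← sum_const]
  exact sum_le_sum fun c hc => Ex_update (hix c hc).1 (hix c hc).2 (F c) (h2 c hc)

variable {X V : Type} [AddCommGroup V] [Module ℝ V] (S : Sys ι X V)

open Classical in
/-- random thresholds are generic -/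
theorem Ex_sgen (hix : ∀ c ∈ S.Cc, ix c < n ∧ ∀ d, ix d = ix c → d = c) :
    Ex (K * n) (fun x => if S.SGen (fun c => env K ix x c) then 0 else 1) ≤
      4 ^ S.Cc.card / 2 ^ K := by
  let κ : Finset ι × Finset ι → ι → ℝ := fun p c =>
    (if c ∈ p.1 then 1 else 0) - if c ∈ p.2 then 1 else 0
  let F : Finset ι × Finset ι → (ι → ℕ) → ℝ := fun p θ =>
    if (∃ c ∈ S.Cc, κ p c ≠ 0) ∧ ∑ c ∈ S.Cc, κ p c * θ c = 0 then 1 else 0
  have F0 : ∀ p θ, 0 ≤ F p θ := fun p θ => by simp only [F]; split_ifs <;> norm_num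
  refine (Ex_mono (g := fun x => ∑ p ∈ S.Cc.powerset ×ˢ S.Cc.powerset, F p (env K ix x))
    fun x _ => ?_).trans ?_
  · split_ifs with h
    · exact sum_nonneg fun p _ => F0 p _
    · simp only [Sys.SGen, not_forall, not_not] at h
      obtain ⟨k, k1, ⟨c, hc, k2⟩, k3⟩ := h
      have e : ∀ d ∈ S.Cc, κ (S.Cc.filter (k · = 1), S.Cc.filter (k · = -1)) d = k d := fun d hd => by
        have := abs_le.1 (k1 d)
        have : k d = 1 ∨ k d = 0 ∨ k d = -1 := by omega
        rcases this with h | h | h <;> simp [κ, hd, h]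
      refine le_trans (le_of_eq ?_) (single_le_sum (fun p _ => F0 p _)
        (show (S.Cc.filter (k · = 1), S.Cc.filter (k · = -1)) ∈ _ by simp))
      refine (if_pos ⟨⟨c, hc, by rw [e c hc]; exact_mod_cast k2⟩, ?_⟩).symm
      rw [← k3]
      exact sum_congr rfl fun d hd => by rw [e d hd]
  · rw [Ex_finsum]
    refine (sum_le_sum (g := fun _ => 1 / 2 ^ K) fun p _ => ?_).trans (le_of_eq ?_)
    · by_cases h : ∃ c ∈ S.Cc, κ p c ≠ 0
      · obtain ⟨c, hc, k⟩ := h
        refine Ex_update (hix c hc).1 (hix c hc).2 (F p) fun θ => ?_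
        simp only [F]
        rw [sum_boole, Nat.cast_le_one, card_le_one]
        intro s hs t ht
        have e : ∀ u : ℕ, ∑ d ∈ S.Cc, κ p d * (Function.update θ c u d : ℕ) =
            κ p c * u + ∑ d ∈ S.Cc.erase c, κ p d * θ d := fun u => by
          rw [← add_sum_erase _ _ hc, Function.update_self]
          congr 1
          exact sum_congr rfl fun d hd => by rw [Function.update_of_ne (ne_of_mem_erase hd)]
        have a1 := (mem_filter.1 hs).2.2
        have a2 := (mem_filter.1 ht).2.2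
        rw [e] at a1 a2
        exact_mod_cast mul_left_cancel₀ k (show κ p c * s = κ p c * t by linarith)
      · simp only [F, h, false_and, if_false, Ex_const]
        positivity
    · rw [sum_const, card_product, card_powerset, nsmul_eq_mul]
      push_cast
      rw [← mul_pow]
      norm_num [div_eq_mul_inv]

open Classical in
/-- the average total conductance -/
theorem Ex_sweep (h : St_SWEEP) (hS : S.Ax)
    (hix : ∀ c ∈ S.Cc, ix c < n ∧ ∀ d, ix d = ix c → d = c) {a : ι → ℝ} {A0 A Z : ℝ} (h0 : 0 < A0)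
    (h1 : A0 ≤ A) (ha : ∀ c ∈ S.Cc, A0 ≤ a c ∧ a c ≤ A) (hZ : ∀ θ, S.SGen θ → S.Zs θ a ≤ Z)
    (Z0 : 0 ≤ Z) :
    Ex (K * n) (fun x => if S.SGen (fun c => env K ix x c) then
      ∑ d ∈ S.Db (fun c => env K ix x c) 0, S.om a (d.1.2.erase d.2) /
        S.len (fun c => env K ix x c) d.1.1 d.1.2 d.2 else 0) ≤
      S.Cc.card * (20 * S.B ^ 12 * (K + 1) * A * (A / A0) * Z / 2 ^ K) := by
  obtain ⟨F, F0, F1, F2⟩ := h ι X V S hS a A0 A Z h0 h1 ha hZ Z0 K
  refine Ex_blocks hix (fun θ => if S.SGen (fun c => θ c) then ∑ d ∈ S.Db (fun c => θ c) 0,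
    S.om a (d.1.2.erase d.2) / S.len (fun c => θ c) d.1.1 d.1.2 d.2 else 0)
    (fun c θ => F c fun d => θ d) (fun θ hθ => ?_) F2
  split_ifs with hg
  exacts [F1 θ hθ hg, sum_nonneg fun c _ => F0 _ _]

end Pool.Agent.US.Tick72
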