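import Pool.Agent.Lib.US.Defs

/-! Basic lemmas: frames, pivots, change of sheet, opposite darts. -/

namespace Pool.Agent.Lib.US.Sys

open Finset

variable {ι X V : Type} [DecidableEq ι] [Inhabited X] [AddCommGroup V] [Module ℝ V]
  {S : Sys ι X V} {θ : ι → ℝ} {σ τ : ι → X} {T : Finset ι} {y y' : ι → V} {c d e k l : ι}

omit [Inhabited X] in
theorem mem_Cn : c ∈ S.Cn ↔ c ∈ S.Kw ∨ c ∈ S.Cc := mem_union

omit [Inhabited X] [DecidableEq ι] in
theorem mem_Nb : τ ∈ S.Nb k σ ↔ τ ∈ S.Ch ∧ ∀ j, j ≠ k → τ j = σ j := by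
  classical
  unfold Nb; convert mem_filter

omit [Inhabited X] [DecidableEq ι] in
theorem mem_Nb2 : τ ∈ S.Nb2 k l σ ↔ τ ∈ S.Ch ∧ ∀ j, j ≠ k → j ≠ l → τ j = σ j := by
  classical
  unfold Nb2; convert mem_filter

omit [Inhabited X] [DecidableEq ι] in
theorem self_Nb (h : σ ∈ S.Ch) : σ ∈ S.Nb k σ := mem_Nb.2 ⟨h, fun _ _ => rfl⟩

omit [Inhabited X] [DecidableEq ι] in
theorem self_Nb2 (h : σ ∈ S.Ch) : σ ∈ S.Nb2 k l σ := mem_Nb2.2 ⟨h, fun _ _ _ => rfl⟩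

omit [Inhabited X] [DecidableEq ι] in
theorem Nb_eq (h : τ ∈ S.Nb k σ) : S.Nb k τ = S.Nb k σ := by
  ext ρ
  simp only [mem_Nb] at h ⊢
  exact ⟨fun h' => ⟨h'.1, fun j hj => (h'.2 j hj).trans (h.2 j hj)⟩,
    fun h' => ⟨h'.1, fun j hj => (h'.2 j hj).trans (h.2 j hj).symm⟩⟩

omit [Inhabited X] [DecidableEq ι] in
theorem Nb2_eq (h : τ ∈ S.Nb2 k l σ) : S.Nb2 k l τ = S.Nb2 k l σ := by
  ext ρ
  simp only [mem_Nb2] at h ⊢
  exact ⟨fun h' => ⟨h'.1, fun j hj hl => (h'.2 j hj hl).trans (h.2 j hj hl)⟩,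
    fun h' => ⟨h'.1, fun j hj hl => (h'.2 j hj hl).trans (h.2 j hj hl).symm⟩⟩

omit [Inhabited X] [DecidableEq ι] in
theorem Nb2_comm : S.Nb2 k l σ = S.Nb2 l k σ := by
  ext ρ
  simp only [mem_Nb2]
  exact ⟨fun h => ⟨h.1, fun j a b => h.2 j b a⟩, fun h => ⟨h.1, fun j a b => h.2 j b a⟩⟩

omit [Inhabited X] [DecidableEq ι] in
theorem Nb_sub_Nb2 (h : τ ∈ S.Nb2 k l σ) : S.Nb k τ ⊆ S.Nb2 k l σ := fun ρ h' => by
  simp only [mem_Nb, mem_Nb2] at h h' ⊢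
  exact ⟨h'.1, fun j a b => (h'.2 j a).trans (h.2 j a b)⟩

omit [Inhabited X] in
theorem Frame.uniq (h : S.Frame σ T y) (h' : S.Frame σ T y') (hc : c ∈ T) : y c = y' c := by
  rw [h'.span _ (h.mem c hc), sum_eq_single c]
  · rw [h.dual c hc c hc, if_pos rfl, one_smul]
  · intro d hd hne
    rw [h.dual c hc d hd, if_neg hne, zero_smul]
  · exact fun h => absurd hc h

omit [Inhabited X] in
theorem IsB.frame (h : S.IsB σ T) : S.Frame σ T (S.yv σ T) := by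
  unfold yv; rw [dif_pos h.2.2]; exact h.2.2.choose_spec

omit [Inhabited X] in
theorem Frame.yv_eq (h : S.Frame σ T y) (hc : c ∈ T) : S.yv σ T c = y c := by
  have : ∃ y, S.Frame σ T y := ⟨y, h⟩
  unfold yv; rw [dif_pos this]; exact this.choose_spec.uniq h hc

omit [Inhabited X] in
theorem Frame.eq_zero (h : S.Frame σ T y) {v : V} (hv : v ∈ S.Vs σ)
    (h0 : ∀ c ∈ T, S.L σ c v = 0) : v = 0 := by
  rw [h.span v hv]
  exact sum_eq_zero fun c hc => by rw [h0 c hc, zero_smul]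

omit [Inhabited X] in
theorem IsB.pt_mem (h : S.IsB σ T) : S.pt θ σ T ∈ S.Vs σ :=
  Submodule.sum_mem _ fun c hc => Submodule.smul_mem _ _ (h.frame.mem c hc)

omit [Inhabited X] in
theorem L_pt : S.L σ d (S.pt θ σ T) = ∑ c ∈ T, S.th θ c * S.L σ d (S.yv σ T c) := by
  simp only [pt, map_sum, map_smul, smul_eq_mul]

omit [Inhabited X] in
theorem IsB.pt_tight (h : S.IsB σ T) (hc : c ∈ T) : S.L σ c (S.pt θ σ T) = S.th θ c := by
  rw [L_pt, sum_eq_single c]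
  · rw [h.frame.dual c hc c hc, if_pos rfl, mul_one]
  · intro d hd hne
    rw [h.frame.dual d hd c hc, if_neg hne.symm, mul_zero]
  · exact fun h => absurd hc h

omit [Inhabited X] in
theorem IsB.eq_pt (h : S.IsB σ T) {v : V} (hv : v ∈ S.Vs σ)
    (ht : ∀ c ∈ T, S.L σ c v = S.th θ c) : v = S.pt θ σ T := by
  rw [h.frame.span v hv]
  exact sum_congr rfl fun c hc => by rw [ht c hc]

omit [Inhabited X] in
theorem Vx.le (h : S.Vx θ σ T) (hd : d ∈ S.Cn) : S.L σ d (S.pt θ σ T) ≤ S.th θ d := by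
  by_cases hT : d ∈ T
  · exact (h.1.pt_tight hT).le
  · have := h.2 d hd hT
    unfold sl at this
    linarith

omit [Inhabited X] in
/-- exchange of a condition in a frame -/
theorem Frame.pivot (h : S.Frame σ T y) (hc : c ∈ T) (he : e ∉ T.erase c) {ε : ℝ}
    (hε : ε * ε = 1) (hκ : S.L σ e (y c) = ε) :
    S.Frame σ (insert e (T.erase c))
      fun d => if d = e then ε • y c else y d - (ε * S.L σ e (y d)) • y c := by
  have hne : ∀ d ∈ T.erase c, d ≠ e := fun d hd h => he (h ▸ hd)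
  refine ⟨fun d hd => ?_, fun d hd f hf => ?_, fun v hv => ?_⟩
  · split_ifs with h1
    · exact Submodule.smul_mem _ _ (h.mem c hc)
    · have := mem_of_mem_erase ((mem_insert.1 hd).resolve_left h1)
      exact Submodule.sub_mem _ (h.mem d this) (Submodule.smul_mem _ _ (h.mem c hc))
  · by_cases h1 : d = e
    · subst h1
      rw [if_pos rfl, map_smul, smul_eq_mul]
      rcases mem_insert.1 hf with h2 | h2
      · rw [h2, hκ, if_pos rfl, hε]
      · rw [if_neg (hne f h2), h.dual c hc f (mem_of_mem_erase h2), if_neg (ne_of_mem_erase h2),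
          mul_zero]
    · have hd' := (mem_insert.1 hd).resolve_left h1
      rw [if_neg h1, map_sub, map_smul, smul_eq_mul]
      rcases mem_insert.1 hf with h2 | h2
      · rw [h2, hκ, if_neg (Ne.symm h1)]
        linear_combination (-S.L σ e (y d)) * hε
      · rw [h.dual d (mem_of_mem_erase hd') f (mem_of_mem_erase h2),
          h.dual c hc f (mem_of_mem_erase h2), if_neg (ne_of_mem_erase h2), mul_zero, sub_zero]
  · have h1 := h.span v hv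
    have h2 := congrArg (S.L σ e) h1
    rw [← add_sum_erase T _ hc] at h1
    rw [map_sum, ← add_sum_erase T _ hc, map_smul, hκ] at h2
    rw [sum_insert he, if_pos rfl, sum_congr rfl fun d hd => by
      rw [if_neg (hne d hd), smul_sub, smul_smul], sum_sub_distrib, ← sum_smul, smul_smul]
    have h3 : S.L σ e v * ε - ∑ d ∈ T.erase c, S.L σ d v * (ε * S.L σ e (y d)) = S.L σ c v := by
      rw [h2]
      simp only [map_smul, smul_eq_mul]
      rw [add_mul, sum_mul, sum_congr rfl fun d _ => show S.L σ d v * S.L σ e (y d) * ε =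
        S.L σ d v * (ε * S.L σ e (y d)) by ring]
      linear_combination S.L σ c v * hε
    rw [← h3, sub_smul] at h1
    refine h1.trans ?_
    abel

omit [Inhabited X] in
/-- from a feasible point of the line of `T.erase c`, move in the direction `ε • y c` -/
theorem push (hA : S.Ax) (hG : S.Gen θ) (h : S.IsB σ T) (hc : c ∈ T) {q : V} (hq : q ∈ S.Vs σ)
    (ht : ∀ d ∈ T, d ≠ c → S.L σ d q = S.th θ d) {ε : ℝ} (hε : ε * ε = 1) (he : e ∈ S.Cn)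
    (hκ : S.L σ e (S.yv σ T c) = ε)
    (hf : ∀ d ∈ S.Cn, S.L σ d q ≤ S.th θ d)
    (hmin : ∀ d ∈ S.Cn, S.L σ d (S.yv σ T c) = ε → S.th θ e - S.L σ e q ≤ S.th θ d - S.L σ d q) :
    e ∉ T.erase c ∧ S.Vx θ σ (insert e (T.erase c)) ∧
      S.yv σ (insert e (T.erase c)) e = ε • S.yv σ T c ∧
      (∀ d ∈ T.erase c, S.yv σ (insert e (T.erase c)) d =
        S.yv σ T d - (ε * S.L σ e (S.yv σ T d)) • S.yv σ T c) ∧
      S.pt θ σ (insert e (T.erase c)) = q + ((S.th θ e - S.L σ e q) * ε) • S.yv σ T c := by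
  have hε0 : ε ≠ 0 := fun h0 => by rw [h0] at hε; norm_num at hε
  have h1 : e ∉ T.erase c := fun h' => by
    rw [h.frame.dual c hc e (mem_of_mem_erase h'), if_neg (ne_of_mem_erase h')] at hκ
    exact hε0 hκ.symm
  have hF := h.frame.pivot hc h1 hε hκ
  have hB : S.IsB σ (insert e (T.erase c)) :=
    ⟨h.1, insert_subset he ((erase_subset _ _).trans h.2.1), _, hF⟩
  have hp : S.pt θ σ (insert e (T.erase c)) =
      q + ((S.th θ e - S.L σ e q) * ε) • S.yv σ T c := by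
    refine (hB.eq_pt (Submodule.add_mem _ hq (Submodule.smul_mem _ _ (h.frame.mem c hc)))
      fun d hd => ?_).symm
    rw [map_add, map_smul, smul_eq_mul]
    rcases mem_insert.1 hd with h2 | h2
    · rw [h2, hκ]
      linear_combination (S.th θ e - S.L σ e q) * hε
    · rw [h.frame.dual c hc d (mem_of_mem_erase h2), if_neg (ne_of_mem_erase h2), mul_zero,
        add_zero, ht d (mem_of_mem_erase h2) (ne_of_mem_erase h2)]
  refine ⟨h1, ⟨hB, fun d hd hd' => lt_of_le_of_ne ?_ (hG _ _ hB d hd hd').symm⟩, ?_,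
    fun d hd => ?_, hp⟩
  · unfold sl
    rw [hp, map_add, map_smul, smul_eq_mul]
    have h3 := hf d hd
    have h4 := hf e he
    by_cases h5 : S.L σ d (S.yv σ T c) = ε
    · have := hmin d hd h5
      rw [h5, mul_assoc, hε]
      linarith
    · have h6 : ε * S.L σ d (S.yv σ T c) ≤ 0 := by
        have h7 : ε = 1 ∨ ε = -1 := mul_self_eq_one_iff.1 hε
        rcases hA.tu σ T h c hc d hd with h8 | h8 | h8 <;> rcases h7 with h7 | h7 <;>
          first | (exact absurd (h8.trans h7.symm) h5) | (rw [h8, h7]; norm_num)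
      nlinarith
  · rw [hF.yv_eq (mem_insert_self _ _), if_pos rfl]
  · rw [hF.yv_eq (mem_insert_of_mem hd), if_neg fun h' : d = e => h1 (h' ▸ hd)]

omit [Inhabited X] in
theorem mem_cand : d ∈ S.cand σ T c ↔ d ∈ S.Cn ∧ d ∉ T ∧ S.L σ d (S.yv σ T c) = -1 := by
  unfold cand; rw [mem_filter]

omit [Inhabited X] in
theorem ent_spec (h : (S.cand σ T c).Nonempty) : S.ent θ σ T c ∈ S.cand σ T c ∧
    ∀ e ∈ S.cand σ T c, S.len θ σ T c ≤ S.sl θ σ T e := by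
  have : ∃ d ∈ S.cand σ T c, ∀ e ∈ S.cand σ T c, S.sl θ σ T d ≤ S.sl θ σ T e :=
    exists_min_image _ _ h
  unfold len ent
  rw [dif_pos this]
  exact this.choose_spec

omit [Inhabited X] in
/-- the pivot along a bounded dart -/
theorem piv (hA : S.Ax) (hG : S.Gen θ) (h : S.Vx θ σ T) (hc : c ∈ T)
    (hb : (S.cand σ T c).Nonempty) :
    S.Vx θ σ (S.nxt θ σ T c) ∧ 0 < S.len θ σ T c ∧
      S.yv σ (S.nxt θ σ T c) (S.ent θ σ T c) = -S.yv σ T c ∧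
      (∀ d ∈ T.erase c, S.yv σ (S.nxt θ σ T c) d =
        S.yv σ T d + S.L σ (S.ent θ σ T c) (S.yv σ T d) • S.yv σ T c) ∧
      S.pt θ σ (S.nxt θ σ T c) = S.pt θ σ T - S.len θ σ T c • S.yv σ T c := by
  obtain ⟨h1, h2⟩ := ent_spec (θ := θ) hb
  have h3 := mem_cand.1 h1
  obtain ⟨-, h4, h5, h6, h7⟩ := push hA hG h.1 hc h.1.pt_mem (fun d hd _ => h.1.pt_tight hd)
    (ε := -1) (by norm_num) h3.1 h3.2.2 (fun d hd => h.le hd) fun d hd hd' =>
      h2 d (mem_cand.2 ⟨hd, fun hT => by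
        rw [h.1.frame.dual c hc d hT] at hd'
        split_ifs at hd' <;> norm_num at hd', hd'⟩)
  refine ⟨h4, h.2 _ h3.1 h3.2.1, by rw [nxt, h5, neg_one_smul], fun d hd => ?_, ?_⟩
  · rw [nxt, h6 d hd, neg_one_mul, neg_smul, sub_neg_eq_add]
  · rw [nxt, h7, mul_neg_one, neg_smul, ← sub_eq_add_neg]
    rfl

omit [Inhabited X] in
/-- the entering condition is the unique minimiser -/
theorem ent_eq (hA : S.Ax) (hG : S.Gen θ) (h : S.Vx θ σ T) (hc : c ∈ T) (he : e ∈ S.cand σ T c)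
    (hm : ∀ d ∈ S.cand σ T c, S.sl θ σ T e ≤ S.sl θ σ T d) : S.ent θ σ T c = e := by
  by_contra hne
  obtain ⟨h1, h2⟩ := ent_spec (θ := θ) ⟨e, he⟩
  obtain ⟨h3, -, -, -, h4⟩ := piv hA hG h hc ⟨e, he⟩
  have h5 := mem_cand.1 he
  have h6 := h3.2 e h5.1 fun h' => by
    rcases mem_insert.1 h' with h' | h'
    · exact hne h'.symm
    · exact h5.2.1 (mem_of_mem_erase h')
  have h7 := hm _ h1
  unfold sl at h6
  rw [h4, map_sub, map_smul, h5.2.2, smul_eq_mul] at h6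
  unfold len sl at h6
  unfold sl at h7
  linarith

omit [Inhabited X] in
theorem nxt_erase (hb : (S.cand σ T c).Nonempty) :
    (S.nxt θ σ T c).erase (S.ent θ σ T c) = T.erase c :=
  erase_insert fun h => (mem_cand.1 (ent_spec (θ := θ) hb).1).2.1 (mem_of_mem_erase h)

omit [Inhabited X] in
/-- the opposite dart -/
theorem piv_back (hA : S.Ax) (hG : S.Gen θ) (h : S.Vx θ σ T) (hc : c ∈ T)
    (hb : (S.cand σ T c).Nonempty) :
    c ∈ S.cand σ (S.nxt θ σ T c) (S.ent θ σ T c) ∧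
      S.ent θ σ (S.nxt θ σ T c) (S.ent θ σ T c) = c ∧
      S.nxt θ σ (S.nxt θ σ T c) (S.ent θ σ T c) = T ∧
      S.len θ σ (S.nxt θ σ T c) (S.ent θ σ T c) = S.len θ σ T c := by
  obtain ⟨h1, h2, h3, -, h4⟩ := piv hA hG h hc hb
  have h5 := mem_cand.1 (ent_spec (θ := θ) hb).1
  have hcc : S.L σ c (S.yv σ T c) = 1 := by rw [h.1.frame.dual c hc c hc, if_pos rfl]
  have h6 : c ∈ S.cand σ (S.nxt θ σ T c) (S.ent θ σ T c) := mem_cand.2 ⟨h.1.2.1 hc, fun h' => by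
    rcases mem_insert.1 h' with h' | h'
    · exact h5.2.1 (h' ▸ hc)
    · exact notMem_erase _ _ h', by rw [h3, map_neg, hcc]⟩
  have h7 : S.sl θ σ (S.nxt θ σ T c) c = S.len θ σ T c := by
    unfold sl
    rw [h4, map_sub, map_smul, hcc, h.1.pt_tight hc, smul_eq_mul]
    ring
  have h8 : S.ent θ σ (S.nxt θ σ T c) (S.ent θ σ T c) = c :=
    ent_eq hA hG h1 (mem_insert_self _ _) h6 fun d hd => by
      have h9 := mem_cand.1 hd
      rw [h3, map_neg, neg_inj] at h9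
      have := h.le h9.1
      rw [h7]
      unfold sl
      rw [h4, map_sub, map_smul, h9.2.2, smul_eq_mul]
      linarith
  refine ⟨h6, h8, ?_, ?_⟩
  · rw [nxt, h8, nxt_erase hb, insert_erase hc]
  · rw [len, h8, h7]

omit [Inhabited X] in
/-- change of cone around a face cut out by the walls in `A` -/
theorem sheet_gen (hA : S.Ax) {A : Finset ι} (hAK : A ⊆ S.Kw) (hAT : A ⊆ T) (h : S.IsB σ T)
    (hτ : τ ∈ S.Ch)
    (h1 : ∀ v ∈ S.Vs σ, (∀ k ∈ A, S.L σ k v = 0) → v ∈ S.Vs τ ∧ ∀ l ∈ S.Kw, S.L τ l v = S.L σ l v)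
    (h2 : ∀ v ∈ S.Vs τ, (∀ k ∈ A, S.L τ k v = 0) → v ∈ S.Vs σ ∧ ∀ l ∈ S.Kw, S.L σ l v = S.L τ l v) :
    S.IsB τ T ∧ (∀ d ∈ T, d ∉ A → S.yv τ T d = S.yv σ T d) ∧
      (∀ k ∈ A, S.yv τ T k = ∑ d ∈ T \ A, S.L τ d (S.u τ k) • S.yv σ T d - S.u τ k) ∧
      (∀ d ∈ T, d ∉ A → ∀ e ∈ S.Cn, S.L τ e (S.yv σ T d) = S.L σ e (S.yv σ T d)) ∧
      S.pt θ τ T = S.pt θ σ T ∧ ∀ e ∈ S.Cn, S.sl θ τ T e = S.sl θ σ T e := by
  have hF := h.frame
  have hL : ∀ v ∈ S.Vs σ, (∀ k ∈ A, S.L σ k v = 0) → ∀ e ∈ S.Cn, S.L τ e v = S.L σ e v :=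
    fun v hv h0 e he => by
      rcases mem_Cn.1 he with he | he
      · exact (h1 v hv h0).2 e he
      · rw [hA.lc τ σ e he]
  have h0 : ∀ d ∈ T, d ∉ A → ∀ k ∈ A, S.L σ k (S.yv σ T d) = 0 := fun d hd hd' k hk => by
    rw [hF.dual d hd k (hAT hk), if_neg fun h' : k = d => hd' (h' ▸ hk)]
  have hm : ∀ d ∈ T, d ∉ A → S.yv σ T d ∈ S.Vs τ := fun d hd hd' =>
    (h1 _ (hF.mem d hd) (h0 d hd hd')).1
  have hd : ∀ d ∈ T, d ∉ A → ∀ e ∈ T, S.L τ e (S.yv σ T d) = if e = d then 1 else 0 :=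
    fun d hd hd' e he => by
      rw [hL _ (hF.mem d hd) (h0 d hd hd') e (h.2.1 he), hF.dual d hd e he]
  have hF' : S.Frame τ T fun d => if d ∈ A then
      ∑ f ∈ T \ A, S.L τ f (S.u τ d) • S.yv σ T f - S.u τ d else S.yv σ T d := by
    refine ⟨fun c hc => ?_, fun c hc e he => ?_, fun v hv => ?_⟩
    · split_ifs with h3
      · exact Submodule.sub_mem _ (Submodule.sum_mem _ fun f hf => Submodule.smul_mem _ _
          (hm f (mem_sdiff.1 hf).1 (mem_sdiff.1 hf).2)) (hA.ray τ hτ c (hAK h3)).1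
      · exact hm c hc h3
    · by_cases h3 : c ∈ A
      · rw [if_pos h3, map_sub, map_sum, sum_congr rfl fun f hf => by
          rw [map_smul, hd f (mem_sdiff.1 hf).1 (mem_sdiff.1 hf).2 e he, smul_eq_mul, mul_ite,
            mul_one, mul_zero], sum_ite_eq]
        by_cases h4 : e ∈ A
        · rw [if_neg fun h' => (mem_sdiff.1 h').2 h4, (hA.ray τ hτ c (hAK h3)).2 e (hAK h4)]
          split_ifs <;> norm_num
        · rw [if_pos (mem_sdiff.2 ⟨he, h4⟩), sub_self, if_neg fun h' : e = c => h4 (h' ▸ h3)]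
      · rw [if_neg h3, hd c hc h3 e he]
    · have h3 : ∀ k ∈ A, S.L τ k (v + ∑ j ∈ A, S.L τ j v • S.u τ j) = 0 := fun k hk => by
        rw [map_add, map_sum, sum_congr rfl fun j hj => by
          rw [map_smul, (hA.ray τ hτ j (hAK hj)).2 k (hAK hk), smul_eq_mul, mul_ite, mul_neg_one,
            mul_zero], sum_ite_eq, if_pos hk, add_neg_cancel]
      have h4 : v + ∑ j ∈ A, S.L τ j v • S.u τ j ∈ S.Vs τ := Submodule.add_mem _ hv
        (Submodule.sum_mem _ fun j hj => Submodule.smul_mem _ _ (hA.ray τ hτ j (hAK hj)).1)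
      have h5 := h2 _ h4 h3
      have h6 : ∀ k ∈ A, S.L σ k (v + ∑ j ∈ A, S.L τ j v • S.u τ j) = 0 := fun k hk => by
        rw [h5.2 k (hAK hk), h3 k hk]
      have h7 : v + ∑ j ∈ A, S.L τ j v • S.u τ j = ∑ f ∈ T \ A, S.L τ f v • S.yv σ T f +
          ∑ j ∈ A, ∑ f ∈ T \ A, (S.L τ j v * S.L τ f (S.u τ j)) • S.yv σ T f := by
        refine (hF.span _ h5.1).trans ?_
        have h10 : ∑ k ∈ A, S.L σ k (v + ∑ j ∈ A, S.L τ j v • S.u τ j) • S.yv σ T k = 0 :=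
          sum_eq_zero fun k hk => by rw [h6 k hk, zero_smul]
        rw [← sum_sdiff hAT, h10, add_zero, sum_comm (s := A), ← sum_add_distrib]
        refine sum_congr rfl fun f hf => ?_
        rw [← hL _ h5.1 h6 f (h.2.1 (mem_sdiff.1 hf).1), map_add, map_sum, add_smul, sum_smul]
        simp only [map_smul, smul_eq_mul]
      have h8 : ∑ f ∈ T \ A, S.L τ f v • (if f ∈ A then
          ∑ g ∈ T \ A, S.L τ g (S.u τ f) • S.yv σ T g - S.u τ f else S.yv σ T f) =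
          ∑ f ∈ T \ A, S.L τ f v • S.yv σ T f :=
        sum_congr rfl fun f hf => by rw [if_neg (mem_sdiff.1 hf).2]
      have h9 : ∑ f ∈ A, S.L τ f v • (if f ∈ A then
          ∑ g ∈ T \ A, S.L τ g (S.u τ f) • S.yv σ T g - S.u τ f else S.yv σ T f) =
          ∑ j ∈ A, ∑ f ∈ T \ A, (S.L τ j v * S.L τ f (S.u τ j)) • S.yv σ T f -
            ∑ j ∈ A, S.L τ j v • S.u τ j := by
        rw [← sum_sub_distrib]
        refine sum_congr rfl fun f hf => ?_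
        rw [if_pos hf, smul_sub, smul_sum]
        simp only [smul_smul]
      rw [← sum_sdiff hAT, h8, h9, ← add_sub_assoc, eq_sub_iff_add_eq, h7]
  have hB : S.IsB τ T := ⟨hτ, h.2.1, _, hF'⟩
  have hy : ∀ d ∈ T, d ∉ A → S.yv τ T d = S.yv σ T d := fun d hd hd' => by
    rw [hF'.yv_eq hd, if_neg hd']
  have hp : S.pt θ τ T = S.pt θ σ T := sum_congr rfl fun d hd => by
    by_cases h3 : d ∈ A
    · rw [th, if_pos (hAK h3), zero_smul, zero_smul]
    · rw [hy d hd h3]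
  refine ⟨hB, hy, fun k hk => by rw [hF'.yv_eq (hAT hk), if_pos hk],
    fun d hd hd' => hL _ (hF.mem d hd) (h0 d hd hd'), hp, fun e he => ?_⟩
  unfold sl
  rw [hp, hL _ h.pt_mem (fun k hk => by rw [h.pt_tight (hAT hk), th, if_pos (hAK hk)]) e he]

/-- everything that does not release a wall of `A` is the same in the cone `τ` -/
theorem sheet_dart (hA : S.Ax) {A : Finset ι} (hAK : A ⊆ S.Kw) (hAT : A ⊆ T) (h : S.Vx θ σ T)
    (hτ : τ ∈ S.Ch) (hs : ∀ j, j ∉ A → τ j = σ j)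
    (h1 : ∀ v ∈ S.Vs σ, (∀ k ∈ A, S.L σ k v = 0) → v ∈ S.Vs τ ∧ ∀ l ∈ S.Kw, S.L τ l v = S.L σ l v)
    (h2 : ∀ v ∈ S.Vs τ, (∀ k ∈ A, S.L τ k v = 0) → v ∈ S.Vs σ ∧ ∀ l ∈ S.Kw, S.L σ l v = S.L τ l v) :
    S.Vx θ τ T ∧ S.key τ T = S.key σ T ∧ ∀ d ∈ T, d ∉ A → S.cand τ T d = S.cand σ T d ∧
      S.ent θ τ T d = S.ent θ σ T d ∧ S.len θ τ T d = S.len θ σ T d ∧
      S.nxt θ τ T d = S.nxt θ σ T d ∧ S.key τ (S.nxt θ σ T d) = S.key σ (S.nxt θ σ T d) ∧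
      (∀ U, S.slope θ U τ T d = S.slope θ U σ T d) ∧ ∀ p, S.ph p τ T d = S.ph p σ T d := by
  obtain ⟨h3, h4, -, h5, -, h6⟩ := sheet_gen (θ := θ) hA hAK hAT h.1 hτ h1 h2
  have hk : ∀ T', A ⊆ T' → S.key τ T' = S.key σ T' := fun T' hT' => by
    unfold key
    congr 1
    funext j
    by_cases hj : j ∈ A
    · rw [if_pos ⟨hT' hj, hAK hj⟩, if_pos ⟨hT' hj, hAK hj⟩]
    · rw [hs j hj]
  refine ⟨⟨h3, fun d hd hd' => by rw [h6 d hd]; exact h.2 d hd hd'⟩, hk T hAT, fun d hd hd' => ?_⟩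
  have h7 : S.cand τ T d = S.cand σ T d := by
    ext e
    simp only [mem_cand]
    exact and_congr_right fun he => by rw [h4 d hd hd', h5 d hd hd' e he]
  have h8 : S.ent θ τ T d = S.ent θ σ T d := by
    have : (fun e => e ∈ S.cand τ T d ∧ ∀ f ∈ S.cand τ T d, S.sl θ τ T e ≤ S.sl θ τ T f) =
        fun e => e ∈ S.cand σ T d ∧ ∀ f ∈ S.cand σ T d, S.sl θ σ T e ≤ S.sl θ σ T f := by
      funext e
      rw [h7]
      refine propext (and_congr_right fun he => forall₂_congr fun f hf => ?_)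
      rw [h6 e (mem_cand.1 he).1, h6 f (mem_cand.1 hf).1]
    unfold ent
    simp only [this]
  have h9 : S.len θ τ T d = S.len θ σ T d := by
    unfold len
    rw [h8]
    refine h6 _ ?_
    unfold ent
    split_ifs with h'
    · exact (mem_cand.1 h'.choose_spec.1).1
    · exact h.1.2.1 hd
  have h10 : S.nxt θ τ T d = S.nxt θ σ T d := by rw [nxt, h8, nxt]
  have h11 := hk (S.nxt θ σ T d) fun j hj =>
    mem_insert_of_mem (mem_erase.2 ⟨fun h' => hd' (h' ▸ hj), hAT hj⟩)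
  refine ⟨h7, h8, h9, h10, h11, fun U => ?_, fun p => sum_congr rfl fun e he => ?_⟩
  · unfold slope
    rw [h7, h9, h10, h11, hk T hAT]
  · rw [h4 d hd hd', h5 d hd hd' e (mem_Cn.2 (Or.inr he))]

omit [Inhabited X] in
theorem wall1_hyp (hA : S.Ax) (hk : k ∈ S.Kw) (hσ : σ ∈ S.Ch) (hτ : τ ∈ S.Nb k σ) :
    ∀ v ∈ S.Vs σ, (∀ j ∈ ({k} : Finset ι), S.L σ j v = 0) →
      v ∈ S.Vs τ ∧ ∀ l ∈ S.Kw, S.L τ l v = S.L σ l v := fun v hv h0 =>
  let h := hA.wall k hk σ hσ τ hτ v hv (h0 k (mem_singleton_self k))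
  ⟨h.1, h.2.1⟩

omit [Inhabited X] in
theorem wall2_hyp (hA : S.Ax) (hk : k ∈ S.Kw) (hl : l ∈ S.Kw) (hσ : σ ∈ S.Ch)
    (hτ : τ ∈ S.Nb2 k l σ) : ∀ v ∈ S.Vs σ, (∀ j ∈ ({k, l} : Finset ι), S.L σ j v = 0) →
      v ∈ S.Vs τ ∧ ∀ l ∈ S.Kw, S.L τ l v = S.L σ l v := fun v hv h0 =>
  let h := hA.wall2 k hk l hl σ hσ τ hτ v hv (h0 k (by simp)) (h0 l (by simp))
  ⟨h.1, h.2.1⟩

omit [Inhabited X] in
/-- change of sheet at one wall: frames -/
theorem sheet (hA : S.Ax) (hk : k ∈ S.Kw) (hT : k ∈ T) (h : S.IsB σ T) (hτ : τ ∈ S.Nb k σ) :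
    S.IsB τ T ∧ (∀ d ∈ T, d ≠ k → S.yv τ T d = S.yv σ T d) ∧
      S.yv τ T k = ∑ d ∈ T.erase k, S.L τ d (S.u τ k) • S.yv σ T d - S.u τ k ∧
      (∀ d ∈ T, d ≠ k → ∀ e ∈ S.Cn, S.L τ e (S.yv σ T d) = S.L σ e (S.yv σ T d)) ∧
      S.pt θ τ T = S.pt θ σ T ∧ ∀ e ∈ S.Cn, S.sl θ τ T e = S.sl θ σ T e := by
  have := sheet_gen (θ := θ) hA (A := {k}) (by simpa) (by simpa) h (mem_Nb.1 hτ).1
    (wall1_hyp hA hk h.1 hτ) (wall1_hyp hA hk (mem_Nb.1 hτ).1 (by rw [Nb_eq hτ]; exact self_Nb h.1))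
  simpa only [mem_singleton, forall_eq, sdiff_singleton_eq_erase] using this

/-- change of sheet at one wall: darts -/
theorem sheet1 (hA : S.Ax) (hk : k ∈ S.Kw) (hT : k ∈ T) (h : S.Vx θ σ T) (hτ : τ ∈ S.Nb k σ) :
    S.Vx θ τ T ∧ S.key τ T = S.key σ T ∧ ∀ d ∈ T, d ≠ k → S.cand τ T d = S.cand σ T d ∧
      S.ent θ τ T d = S.ent θ σ T d ∧ S.len θ τ T d = S.len θ σ T d ∧
      S.nxt θ τ T d = S.nxt θ σ T d ∧ S.key τ (S.nxt θ σ T d) = S.key σ (S.nxt θ σ T d) ∧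
      (∀ U, S.slope θ U τ T d = S.slope θ U σ T d) ∧ ∀ p, S.ph p τ T d = S.ph p σ T d := by
  have := sheet_dart (θ := θ) hA (A := {k}) (by simpa) (by simpa) h (mem_Nb.1 hτ).1
    (fun j hj => (mem_Nb.1 hτ).2 j (by simpa using hj)) (wall1_hyp hA hk h.1.1 hτ)
    (wall1_hyp hA hk (mem_Nb.1 hτ).1 (by rw [Nb_eq hτ]; exact self_Nb h.1.1))
  simpa only [mem_singleton] using this

/-- change of cone around a face of codimension two -/
theorem sheet2 (hA : S.Ax) (hk : k ∈ S.Kw) (hl : l ∈ S.Kw) (hT : k ∈ T) (hT' : l ∈ T)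
    (h : S.Vx θ σ T) (hτ : τ ∈ S.Nb2 k l σ) :
    S.Vx θ τ T ∧ S.key τ T = S.key σ T ∧ (∀ d ∈ T, d ≠ k → d ≠ l → S.yv τ T d = S.yv σ T d) ∧
      ∀ j, j = k ∨ j = l →
        S.yv τ T j = ∑ d ∈ T \ {k, l}, S.L τ d (S.u τ j) • S.yv σ T d - S.u τ j := by
  have h1 : ({k, l} : Finset ι) ⊆ S.Kw := by simp [insert_subset_iff, hk, hl]
  have h2 : ({k, l} : Finset ι) ⊆ T := by simp [insert_subset_iff, hT, hT']
  have h3 := wall2_hyp hA hk hl h.1.1 hτ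
  have h4 := wall2_hyp hA hk hl (mem_Nb2.1 hτ).1 (τ := σ) (by rw [Nb2_eq hτ]; exact self_Nb2 h.1.1)
  have h5 := sheet_gen (θ := θ) hA h1 h2 h.1 (mem_Nb2.1 hτ).1 h3 h4
  have h6 := sheet_dart (θ := θ) hA h1 h2 h (mem_Nb2.1 hτ).1
    (fun j hj => (mem_Nb2.1 hτ).2 j (fun h' => hj (by simp [h'])) fun h' => hj (by simp [h'])) h3 h4
  exact ⟨h6.1, h6.2.1, fun d hd a b => h5.2.1 d hd (by simp [a, b]),
    fun j hj => h5.2.2.1 j (by simpa using hj)⟩

omit [Inhabited X] in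
/-- balancing: the directions released from the wall `k` add up inside the wall -/
theorem sum_yv (hA : S.Ax) (hk : k ∈ S.Kw) (hT : k ∈ T) (h : S.IsB σ T) :
    ∑ τ ∈ S.Nb k σ, S.yv τ T k =
      -∑ l ∈ (T.erase k) ∩ S.Kw, S.L σ l (S.w σ k) • S.yv σ T l := by
  have h1 := h.frame.span _ (hA.bal σ h.1 k hk).1
  rw [← add_sum_erase T _ hT, (hA.bal σ h.1 k hk).2, zero_smul, zero_add,
    ← sum_inter_add_sum_sdiff (T.erase k) S.Kw] at h1
  rw [sum_congr rfl fun τ hτ => (sheet (θ := fun _ => 0) hA hk hT h hτ).2.2.1, sum_sub_distrib,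
    sum_comm, ← sum_inter_add_sum_sdiff (T.erase k) S.Kw, sum_eq_zero (s := T.erase k ∩ S.Kw),
    zero_add, sum_congr rfl fun d hd => ?_]
  · change _ - S.w σ k = _
    conv_lhs => rw [h1]
    abel
  · rw [← sum_smul, w, map_sum]
    refine congrArg (· • _) (sum_congr rfl fun τ _ => ?_)
    rw [hA.lc τ σ d ((mem_Cn.1 (h.2.1 (mem_of_mem_erase (mem_sdiff.1 hd).1))).resolve_left
      (mem_sdiff.1 hd).2)]
  · refine fun d hd => sum_eq_zero fun τ hτ => ?_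
    rw [(hA.ray τ (mem_Nb.1 hτ).1 k hk).2 d (mem_inter.1 hd).2,
      if_neg (ne_of_mem_erase (mem_inter.1 hd).1), zero_smul]

omit [Inhabited X] in
theorem mem_VX {v : (ι → X) × Finset ι} : v ∈ S.VX θ ↔ S.Vx θ v.1 v.2 := by
  classical
  unfold VX
  rw [mem_filter, mem_product, mem_powerset]
  exact ⟨fun h => h.2, fun h => ⟨⟨h.1.1, h.1.2.1⟩, h⟩⟩

omit [Inhabited X] in
theorem mem_VJ {v : (ι → X) × Finset ι} {j : ℕ} :
    v ∈ S.VJ θ j ↔ S.Vx θ v.1 v.2 ∧ (v.2 ∩ S.Kw).card = j := by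
  unfold VJ; rw [mem_filter, mem_VX]

omit [Inhabited X] in
theorem mem_Dt {d : ((ι → X) × Finset ι) × ι} {j : ℕ} : d ∈ S.Dt θ j ↔
    S.Vx θ d.1.1 d.1.2 ∧ d.2 ∈ d.1.2 ∧ (d.1.2.erase d.2 ∩ S.Kw).card = j := by
  unfold Dt
  rw [mem_filter, mem_product, mem_VX]
  exact ⟨fun h => ⟨h.1.1, h.2⟩, fun h => ⟨⟨h.1, h.1.1.2.1 h.2.1⟩, h.2⟩⟩

omit [Inhabited X] in
theorem mem_Db {d : ((ι → X) × Finset ι) × ι} {j : ℕ} :
    d ∈ S.Db θ j ↔ d ∈ S.Dt θ j ∧ (S.cand d.1.1 d.1.2 d.2).Nonempty := by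
  classical
  unfold Db; convert mem_filter

omit [Inhabited X] in
theorem rev_mem (hA : S.Ax) (hG : S.Gen θ) {d : ((ι → X) × Finset ι) × ι} {j : ℕ}
    (h : d ∈ S.Db θ j) : S.rev θ d ∈ S.Db θ j ∧ S.rev θ (S.rev θ d) = d ∧
      (S.rev θ d).1.2.erase (S.rev θ d).2 = d.1.2.erase d.2 := by
  obtain ⟨h1, h2⟩ := mem_Db.1 h
  obtain ⟨h3, h4, h5⟩ := mem_Dt.1 h1
  obtain ⟨h6, h7, h8, -⟩ := piv_back hA hG h3 h4 h2
  refine ⟨mem_Db.2 ⟨mem_Dt.2 ⟨(piv hA hG h3 h4 h2).1, mem_insert_self _ _, ?_⟩, _, h6⟩, ?_,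
    nxt_erase h2⟩
  · rw [← h5]
    exact congrArg (fun A => (A ∩ S.Kw).card) (nxt_erase h2)
  · simp only [rev, h7, h8]

omit [Inhabited X] in
/-- a function that changes sign on opposite darts has sum zero -/
theorem sum_Db_zero (hA : S.Ax) (hG : S.Gen θ) (j : ℕ) (F : ((ι → X) × Finset ι) × ι → ℝ)
    (hF : ∀ d ∈ S.Db θ j, F (S.rev θ d) = -F d) : ∑ d ∈ S.Db θ j, F d = 0 := by
  have : ∑ d ∈ S.Db θ j, F d = ∑ d ∈ S.Db θ j, F (S.rev θ d) :=
    (sum_nbij' (S.rev θ) (S.rev θ) (fun d hd => (rev_mem hA hG hd).1)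
      (fun d hd => (rev_mem hA hG hd).1) (fun d hd => (rev_mem hA hG hd).2.1)
      (fun d hd => (rev_mem hA hG hd).2.1) fun d hd => by rw [(rev_mem hA hG hd).2.1])
  rw [sum_congr rfl hF, sum_neg_distrib] at this
  linarith

theorem slope_rev (hA : S.Ax) (hG : S.Gen θ) (h : S.Vx θ σ T) (hc : c ∈ T)
    (hb : (S.cand σ T c).Nonempty) (U : (ι → X) × Finset ι → ℝ) :
    S.slope θ U σ (S.nxt θ σ T c) (S.ent θ σ T c) = -S.slope θ U σ T c := by
  obtain ⟨h1, -, h2, h3⟩ := piv_back hA hG h hc hb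
  unfold slope
  rw [if_pos ⟨_, h1⟩, if_pos hb, h2, h3]
  ring

omit [Inhabited X] in
theorem ph_rev (hA : S.Ax) (hG : S.Gen θ) (h : S.Vx θ σ T) (hc : c ∈ T)
    (hb : (S.cand σ T c).Nonempty) (p : ι → ℝ) :
    S.ph p σ (S.nxt θ σ T c) (S.ent θ σ T c) = -S.ph p σ T c := by
  unfold ph
  rw [(piv hA hG h hc hb).2.2.1, ← sum_neg_distrib]
  exact sum_congr rfl fun e _ => by rw [map_neg, mul_neg]

omit [Inhabited X] in
/-- along an unbounded dart no condition increases -/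
theorem unb_nonneg (hA : S.Ax) (h : S.IsB σ T) (hc : c ∈ T) (hb : ¬(S.cand σ T c).Nonempty)
    (he : e ∈ S.Cn) : 0 ≤ S.L σ e (S.yv σ T c) := by
  rcases hA.tu σ T h c hc e he with h1 | h1 | h1
  · rw [h1]
  · rw [h1]; norm_num
  · refine absurd ⟨e, mem_cand.2 ⟨he, fun hT => ?_, h1⟩⟩ hb
    rw [h.frame.dual c hc e hT] at h1
    split_ifs at h1 <;> norm_num at h1

omit [Inhabited X] [DecidableEq ι] in
/-- regrouping a sum over cones by the classes of an equivalence relation -/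
theorem sum_class {α : Type} (A : Finset α) (C : α → Finset α) (h1 : ∀ a ∈ A, a ∈ C a)
    (h2 : ∀ a ∈ A, C a ⊆ A) (h3 : ∀ a ∈ A, ∀ b ∈ C a, C b = C a) (f : α → ℝ) :
    ∑ a ∈ A, f a = ∑ a ∈ A, (∑ b ∈ C a, f b) / (C a).card := by
  classical
  have h4 : ∀ a ∈ A, (∑ b ∈ C a, f b) / (C a).card =
      ∑ b ∈ A, if a ∈ C b then f b / (C b).card else 0 := fun a ha => by
    rw [← sum_filter, sum_div]
    refine sum_congr ?_ fun b hb => ?_
    · ext b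
      rw [mem_filter]
      exact ⟨fun hb => ⟨h2 a ha hb, by rw [h3 a ha b hb]; exact h1 a ha⟩,
        fun hb => by rw [h3 b hb.1 a hb.2]; exact h1 b hb.1⟩
    · rw [mem_filter] at hb
      rw [h3 b hb.1 a hb.2]
  rw [sum_congr rfl h4, sum_comm]
  refine sum_congr rfl fun b hb => ?_
  rw [← sum_filter, filter_mem_eq_inter, inter_eq_right.2 (h2 b hb), sum_const, nsmul_eq_mul]
  have : ((C b).card : ℝ) ≠ 0 := Nat.cast_ne_zero.2 (card_ne_zero.2 ⟨b, h1 b hb⟩)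
  field_simp

end Pool.Agent.Lib.US.Sys
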