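import Pool.Agent.Lib.US.Model
import Pool.Agent.Lib.US.Api

/-! Basic facts on the model: chains, levels, representatives, rays, sheets at a wall. -/

namespace Pool.Agent.Lib.US

open Finset Pool.Agent.Lib.FL
open Pool.Agent.Lib.FL.H64 (IsRk cl Flat Cov)

variable {E : Finset ℕ} {ρ : Finset ℕ → ℕ}

theorem isRk_rs (h : IsRk ρ) (j : ℕ) : IsRk (rs E ρ j) := by
  unfold rs
  split_ifs
  · exact h
  · exact h.isRk_dual E

namespace Chain

variable {C : ℕ → Finset ℕ}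

theorem step (h : Chain E ρ C) (i : ℕ) : C i ⊆ C (i + 1) := by
  rcases lt_or_ge i (ρ E) with hi | hi
  · exact (h.cov i hi).2.2.1
  · rw [h.top i hi, h.top (i + 1) (by omega)]

theorem mono (h : Chain E ρ C) {i i' : ℕ} (hi : i ≤ i') : C i ⊆ C i' := by
  induction hi with
  | refl => exact Subset.rfl
  | step _ ih => exact ih.trans (h.step _)

theorem flat (h : Chain E ρ C) (i : ℕ) : Flat ρ E (C i) := by
  rcases lt_or_ge i (ρ E) with hi | hi
  · exact (h.cov i hi).1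
  · rw [h.top i hi]
    exact H64.flat_top

theorem ex (h : Chain E ρ C) {i : ℕ} (h1 : 1 ≤ i) (h2 : i ≤ ρ E) :
    ∃ e, e ∈ C i ∧ e ∉ C (i - 1) := by
  obtain ⟨i, rfl⟩ : ∃ p, i = p + 1 := ⟨i - 1, by omega⟩
  have := (h.cov i (by omega)).card_lt
  by_contra hn
  push Not at hn
  have := card_le_card (show C (i + 1) ⊆ C i from fun e he => hn e he)
  omega

theorem mem_iff (h : Chain E ρ C) {i e : ℕ} (h0 : 1 ≤ i) (h1 : e ∈ C i) (h2 : e ∉ C (i - 1))
    (p : ℕ) : e ∈ C p ↔ i ≤ p := by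
  refine ⟨fun hp => ?_, fun hp => h.mono hp h1⟩
  by_contra hn
  exact h2 (h.mono (by omega) hp)

theorem level (h : Chain E ρ C) {e : ℕ} (h1 : e ∈ E) (h2 : e ∉ C 0) :
    ∃ i, 1 ≤ i ∧ i ≤ ρ E ∧ e ∈ C i ∧ e ∉ C (i - 1) := by
  have hex : ∃ i, e ∈ C i := ⟨ρ E, by rw [h.top _ le_rfl]; exact h1⟩
  have hs := Nat.find_spec hex
  have h0 : Nat.find hex ≠ 0 := fun h0 => h2 (h0 ▸ hs)
  refine ⟨Nat.find hex, by omega, Nat.find_min' hex (by rw [h.top _ le_rfl]; exact h1), hs,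
    Nat.find_min hex (by omega)⟩

theorem le_rank (h : Chain E ρ C) {i e : ℕ} (h1 : e ∈ C (i + 1)) (h2 : e ∉ C i) : i < ρ E := by
  by_contra hn
  rw [h.top i (by omega)] at h2
  exact h2 (h.sub _ h1)

theorem update (h : Chain E ρ C) {i : ℕ} (h1 : 1 ≤ i) (h2 : i < ρ E) {P : Finset ℕ}
    (hK : Cov ρ E (C (i - 1)) P) (hQ : Cov ρ E P (C (i + 1))) :
    Chain E ρ (Function.update C i P) := by
  refine ⟨by rw [Function.update_of_ne (by omega), h.bot], fun p hp => by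
    rw [Function.update_of_ne (by omega), h.top p hp], fun p hp => ?_⟩
  by_cases e1 : p = i
  · subst e1
    rw [Function.update_self, Function.update_of_ne (by omega)]
    exact hQ
  · by_cases e2 : p + 1 = i
    · subst e2
      rw [Function.update_self, Function.update_of_ne (by omega)]
      exact hK
    · rw [Function.update_of_ne e1, Function.update_of_ne e2]
      exact h.cov p hp

end Chain

variable {σ τ : ℕ × ℕ → Finset ℕ} {j i : ℕ}

theorem mem_walls {k : ℕ × ℕ} :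
    k ∈ walls E ρ ↔ ∃ j < 2, ∃ i, 1 ≤ i ∧ i < rs E ρ j E ∧ k = (3 + j, i) := by
  obtain ⟨t, p⟩ := k
  simp only [walls, mem_union, mem_product, mem_singleton, mem_Ico, Prod.mk.injEq]
  constructor
  · rintro (⟨rfl, h1, h2⟩ | ⟨rfl, h1, h2⟩)
    · exact ⟨0, by omega, p, h1, h2, rfl, rfl⟩
    · exact ⟨1, by omega, p, h1, h2, rfl, rfl⟩
  · rintro ⟨j, hj, i, h1, h2, rfl, rfl⟩
    interval_cases j
    · exact Or.inl ⟨rfl, h1, h2⟩
    · exact Or.inr ⟨rfl, h1, h2⟩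

theorem mk_mem_walls (hj : j < 2) : (3 + j, i) ∈ walls E ρ ↔ 1 ≤ i ∧ i < rs E ρ j E := by
  rw [mem_walls]
  constructor
  · rintro ⟨j', -, i', h1, h2, h3⟩
    obtain ⟨h4, rfl⟩ := Prod.mk.inj h3
    obtain rfl : j = j' := by omega
    exact ⟨h1, h2⟩
  · exact fun h => ⟨j, hj, i, h.1, h.2, rfl⟩

theorem mem_cons {c : ℕ × ℕ} : c ∈ cons E ρ ↔ c.2 ∈ E ∧ (c.1 = 0 ∨
    (c.1 = 1 ∧ c.2 ∉ cl (rs E ρ 0) E ∅) ∨ (c.1 = 2 ∧ c.2 ∉ cl (rs E ρ 1) E ∅)) := by
  simp only [cons, mem_union, mem_product, mem_singleton, mem_sdiff]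
  tauto

theorem IsCone.sub (h : IsCone E ρ σ) (x : ℕ × ℕ) : σ x ⊆ E := by
  obtain ⟨t, p⟩ := x
  by_cases ht : t = 3 ∨ t = 4
  · obtain ⟨j, hj, rfl⟩ : ∃ j < 2, t = 3 + j := ⟨t - 3, by omega, by omega⟩
    exact (h.chain j hj).sub p
  · rw [h.junk t p (by omega) (by omega)]
    exact empty_subset _

theorem IsCone.bot_eq (h : IsCone E ρ σ) (h' : IsCone E ρ τ) (hj : j < 2) :
    ch τ j 0 = ch σ j 0 := (h'.chain j hj).bot.trans (h.chain j hj).bot.symm

theorem rep_spec (h : IsCone E ρ σ) (hj : j < 2) (h1 : 1 ≤ i) (h2 : i ≤ rs E ρ j E) :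
    rep σ j i ∈ ch σ j i ∧ rep σ j i ∉ ch σ j (i - 1) :=
  Nat.sInf_mem (s := {e | e ∈ ch σ j i ∧ e ∉ ch σ j (i - 1)}) ((h.chain j hj).ex h1 h2)

theorem rep_mem_iff (h : IsCone E ρ σ) (hj : j < 2) (h1 : 1 ≤ i) (h2 : i ≤ rs E ρ j E) (p : ℕ) :
    rep σ j i ∈ ch σ j p ↔ i ≤ p :=
  (h.chain j hj).mem_iff h1 (rep_spec h hj h1 h2).1 (rep_spec h hj h1 h2).2 p

/-- the orientation of a side -/
def sg (j : ℕ) : ℝ := if j = 0 then 1 else -1

theorem sg_sq (j : ℕ) : sg j * sg j = 1 := by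
  unfold sg
  split_ifs <;> norm_num

theorem cov_wall (hj : j < 2) (v : ℕ × ℕ → ℝ) :
    cov σ (3 + j, i) v = sg j * (v (j, rep σ j (i + 1)) - v (j, rep σ j i)) := by
  rw [cov_apply]
  interval_cases j <;> simp [ends, sg]

theorem mem_span {v : ℕ × ℕ → ℝ} : v ∈ span E σ ↔
    (∀ j < 2, ∀ i, ∀ e ∈ ch σ j (i + 1) \ ch σ j i, ∀ f ∈ ch σ j (i + 1) \ ch σ j i,
      v (j, e) = v (j, f)) ∧ (∀ j < 2, ∀ e, e ∉ E \ ch σ j 0 → v (j, e) = 0) ∧
    (∀ e, e ∉ E → v (2, e) = 0) ∧ ∀ t e, 3 ≤ t → v (t, e) = 0 := Iff.rfl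

/-- a vector of the span is constant on the levels -/
theorem span_rep (h : IsCone E ρ σ) (hj : j < 2) {v : ℕ × ℕ → ℝ} (hv : v ∈ span E σ) {e : ℕ}
    (h0 : 1 ≤ i) (h1 : e ∈ ch σ j i) (h2 : e ∉ ch σ j (i - 1)) :
    v (j, e) = v (j, rep σ j i) := by
  obtain ⟨i, rfl⟩ : ∃ p, i = p + 1 := ⟨i - 1, by omega⟩
  have hr := (h.chain j hj).le_rank h1 h2
  have := rep_spec h hj h0 hr
  exact hv.1 j hj i e (mem_sdiff.2 ⟨h1, h2⟩) _ (mem_sdiff.2 this)

/-- levels of a neighbouring cone -/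
theorem span_rep_nb (h : IsCone E ρ σ) (h' : IsCone E ρ τ) (hj : j < 2) {v : ℕ × ℕ → ℝ}
    (hv : v ∈ span E σ) (hz : ∀ k, τ k ≠ σ k → cov σ k v = 0) {e : ℕ}
    (h0 : 1 ≤ i) (h1 : e ∈ ch τ j i) (h2 : e ∉ ch τ j (i - 1)) :
    v (j, e) = v (j, rep σ j i) := by
  have hc := h.chain j hj
  have hc' := h'.chain j hj
  have he0 : e ∉ ch σ j 0 := by
    rw [← h.bot_eq h' hj]
    exact fun h3 => h2 (hc'.mono (by omega) h3)
  obtain ⟨q, q1, -, q3, q4⟩ := hc.level (hc'.sub _ h1) he0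
  rw [span_rep h hj hv q1 q3 q4]
  have key : ∀ a b, a ≤ b → (∀ p, a ≤ p → p < b → ch τ j p ≠ ch σ j p) →
      v (j, rep σ j b) = v (j, rep σ j a) := by
    intro a b hab
    induction hab with
    | refl => exact fun _ => rfl
    | @step b hab ih =>
      intro hp
      have h3 := hz (3 + j, b) (hp b hab (Nat.lt_succ_self b))
      rw [cov_wall hj] at h3
      have h4 : sg j ≠ 0 := fun h5 => by
        have := sg_sq j
        rw [h5] at this
        norm_num at this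
      rw [← ih fun p p1 p2 => hp p p1 (Nat.lt_succ_of_lt p2)]
      exact sub_eq_zero.1 ((mul_eq_zero.1 h3).resolve_left h4)
  rcases le_total i q with hq | hq
  · refine key i q hq fun p p1 p2 e1 => ?_
    have := (hc.mem_iff q1 q3 q4 p).1 (e1 ▸ hc'.mono p1 h1)
    omega
  · refine (key q i hq fun p p1 p2 e1 => ?_).symm
    have := (hc'.mem_iff h0 h1 h2 p).1 (e1 ▸ hc.mono p1 q3)
    omega

/-- the signed indicator vector of a set on side `j` -/
def ind (σ : ℕ × ℕ → Finset ℕ) (j : ℕ) (F : Finset ℕ) (x : ℕ × ℕ) : ℝ :=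
  if x.1 = j ∧ x.2 ∈ F ∧ x.2 ∉ ch σ j 0 then sg j else 0

theorem ray_eq (hj : j < 2) : ray σ (3 + j, i) = ind σ j (ch σ j i) := by
  funext x
  have e1 : x.1 + 3 = 3 + j ↔ x.1 = j := by omega
  have e2 : 3 + j = 3 ↔ j = 0 := by omega
  simp only [ray, ind, ch, sg, e1, e2]

theorem ind_mem (h : IsCone E ρ σ) (hj : j < 2) (p : ℕ) : ind σ j (ch σ j p) ∈ span E σ := by
  refine mem_span.2 ⟨fun j' hj' i e he f hf => ?_, fun j' hj' e he => ?_, fun e _ => ?_,
    fun t e ht => ?_⟩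
  · by_cases e1 : j' = j
    · subst e1
      have hc := h.chain j' hj
      have a1 := hc.mem_iff (i := i + 1) (by omega) (mem_sdiff.1 he).1 (mem_sdiff.1 he).2
      have a2 := hc.mem_iff (i := i + 1) (by omega) (mem_sdiff.1 hf).1 (mem_sdiff.1 hf).2
      simp only [ind, a1, a2]
    · simp only [ind, e1, false_and, if_false]
  · refine if_neg ?_
    rintro ⟨rfl, h1, h2⟩
    exact he (mem_sdiff.2 ⟨(h.chain _ hj).sub _ h1, h2⟩)
  · exact if_neg fun h1 => by have := h1.1; omega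
  · exact if_neg fun h1 => by have := h1.1; omega

theorem cov_ind (h : IsCone E ρ σ) (hj : j < 2) (p : ℕ) {l : ℕ × ℕ} (hl : l ∈ walls E ρ) :
    cov σ l (ind σ j (ch σ j p)) = if l = (3 + j, p) then -1 else 0 := by
  obtain ⟨j', hj', i, h1, h2, rfl⟩ := mem_walls.1 hl
  rw [cov_wall hj']
  by_cases e1 : j' = j
  · subst e1
    have a1 := rep_mem_iff h hj (i := i + 1) (by omega) h2
    have a2 := rep_mem_iff h hj h1 h2.le
    have b1 : ¬ i + 1 ≤ 0 := by omega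
    have b2 : ¬ i ≤ 0 := by omega
    simp only [ind, a1, a2, b1, b2, true_and, not_false_eq_true, and_true, Prod.mk.injEq]
    have := sg_sq j'
    rcases lt_trichotomy i p with h3 | h3 | h3
    · rw [if_pos (by omega), if_pos (by omega), if_neg (by omega)]
      ring
    · rw [if_neg (by omega), if_pos (by omega), if_pos h3]
      linarith
    · rw [if_neg (by omega), if_neg (by omega), if_neg (by omega)]
      ring
  · have : ¬ ((3 + j', i) = (3 + j, p)) := fun h3 => e1 (by have := (Prod.mk.inj h3).1; omega)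
    simp only [ind, e1, false_and, if_false, this]
    ring

theorem bt_apply (v : ℕ × ℕ → ℝ) :
    (sys E ρ).bt σ v = ∑ k ∈ walls E ρ, -gf E σ k * cov σ k v := by
  simp only [sys, LinearMap.sum_apply, LinearMap.smul_apply, smul_eq_mul]

theorem bt_ind (h : IsCone E ρ σ) (hj : j < 2) (p : ℕ) :
    (sys E ρ).bt σ (ind σ j (ch σ j p)) = gf E σ (3 + j, p) := by
  rw [bt_apply, sum_congr rfl fun k hk => by rw [cov_ind h hj p hk]]
  simp only [mul_ite, mul_neg, mul_one, neg_neg, mul_zero, sum_ite_eq']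
  split_ifs with hp
  · rfl
  · rw [mk_mem_walls hj] at hp
    rcases Nat.eq_zero_or_pos p with rfl | h0
    · simp [gf]
    · have : σ (3 + j, p) = E := (h.chain j hj).top p (by omega)
      simp [gf, this]

open Classical in
/-- the flats between the neighbours of level `i` -/
noncomputable def mid (E : Finset ℕ) (ρ : Finset ℕ → ℕ) (σ : ℕ × ℕ → Finset ℕ) (j i : ℕ) :
    Finset (Finset ℕ) :=
  E.powerset.filter fun P =>
    Cov (rs E ρ j) E (ch σ j (i - 1)) P ∧ Cov (rs E ρ j) E P (ch σ j (i + 1))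

theorem mem_mid {P : Finset ℕ} : P ∈ mid E ρ σ j i ↔
    Cov (rs E ρ j) E (ch σ j (i - 1)) P ∧ Cov (rs E ρ j) E P (ch σ j (i + 1)) := by
  classical
  unfold mid
  rw [mem_filter, mem_powerset]
  exact ⟨fun h => h.2, fun h => ⟨h.2.1.1, h⟩⟩

theorem ch_update (P : Finset ℕ) (j' : ℕ) : ch (Function.update σ (3 + j, i) P) j' =
    if j' = j then Function.update (ch σ j) i P else ch σ j' := by
  funext p
  by_cases e1 : j' = j
  · subst e1
    rw [if_pos rfl]
    by_cases e2 : p = i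
    · subst e2
      simp [ch]
    · rw [Function.update_of_ne e2, ch, Function.update_of_ne fun h => e2 (Prod.mk.inj h).2]
      rfl
  · rw [if_neg e1, ch,
      Function.update_of_ne fun h => e1 (by have := (Prod.mk.inj h).1; omega)]
    rfl

theorem IsCone.update (h : IsCone E ρ σ) (hj : j < 2) (h1 : 1 ≤ i) (h2 : i < rs E ρ j E)
    {P : Finset ℕ} (hP : P ∈ mid E ρ σ j i) : IsCone E ρ (Function.update σ (3 + j, i) P) := by
  refine ⟨fun j' hj' => ?_, fun t p t1 t2 => ?_⟩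
  · rw [ch_update]
    split_ifs with e1
    · subst e1
      exact (h.chain j' hj).update h1 h2 (mem_mid.1 hP).1 (mem_mid.1 hP).2
    · exact h.chain j' hj'
  · rw [Function.update_of_ne fun h => by have := (Prod.mk.inj h).1; omega]
    exact h.junk t p t1 t2

theorem nb_ch (hτ : τ ∈ (sys E ρ).Nb (3 + j, i) σ) {p : ℕ} (hp : p ≠ i) : ch τ j p = ch σ j p :=
  (Sys.mem_Nb.1 hτ).2 _ fun h => hp (Prod.mk.inj h).2

theorem nb_mem_mid (hj : j < 2) (h1 : 1 ≤ i) (h2 : i < rs E ρ j E)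
    (hτ : τ ∈ (sys E ρ).Nb (3 + j, i) σ) : τ (3 + j, i) ∈ mid E ρ σ j i := by
  have hc := (mem_Ch.1 (Sys.mem_Nb.1 hτ).1).chain j hj
  have a1 := hc.cov (i - 1) (by omega)
  have a2 := hc.cov i h2
  rw [nb_ch hτ (by omega), show i - 1 + 1 = i by omega] at a1
  rw [nb_ch hτ (p := i + 1) (by omega)] at a2
  exact mem_mid.2 ⟨a1, a2⟩

/-- sums over the sheets at a wall -/
theorem sum_Nb {M : Type} [AddCommMonoid M] (h : IsCone E ρ σ) (hj : j < 2) (h1 : 1 ≤ i)
    (h2 : i < rs E ρ j E) (f : (ℕ × ℕ → Finset ℕ) → M) :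
    ∑ τ ∈ (sys E ρ).Nb (3 + j, i) σ, f τ =
      ∑ P ∈ mid E ρ σ j i, f (Function.update σ (3 + j, i) P) := by
  refine sum_nbij' (fun τ => τ (3 + j, i)) (fun P => Function.update σ (3 + j, i) P)
    (fun τ hτ => nb_mem_mid hj h1 h2 hτ) (fun P hP => Sys.mem_Nb.2
      ⟨mem_Ch.2 (h.update hj h1 h2 hP), fun x hx => Function.update_of_ne hx _ _⟩)
    (fun τ hτ => ?_) (fun P _ => Function.update_self _ _ _) fun τ hτ => ?_
  all_goals
    have : Function.update σ (3 + j, i) (τ (3 + j, i)) = τ := by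
      funext x
      by_cases e : x = (3 + j, i)
      · rw [e, Function.update_self]
      · rw [Function.update_of_ne e, (Sys.mem_Nb.1 hτ).2 x e]
    simp only [this]

theorem card_Nb (h : IsCone E ρ σ) (hj : j < 2) (h1 : 1 ≤ i) (h2 : i < rs E ρ j E) :
    ((sys E ρ).Nb (3 + j, i) σ).card = (mid E ρ σ j i).card := by
  rw [card_eq_sum_ones, card_eq_sum_ones, sum_Nb h hj h1 h2]

end Pool.Agent.Lib.US
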