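import Pool.Agent.Lib.US.Gr13

/-! The greedy terminal. -/

namespace Pool.Agent.Lib.US

open Finset Pool.Agent.Lib.FL
open Pool.Agent.Lib.FL.H64 (IsRk cl Flat Cov)

/-- the keys of the greedy orders -/
def kk (θ : ℕ × ℕ → ℝ) (j e : ℕ) : ℝ := if j = 0 then θ (0, e) + θ (1, e) else θ (2, e) - θ (0, e)

noncomputable def topC (E : Finset ℕ) (ρ : Finset ℕ → ℕ) (θ : ℕ × ℕ → ℝ) (k : ℕ × ℕ) : Finset ℕ :=
  if k.1 = 3 ∨ k.1 = 4 then grC E (rs E ρ (k.1 - 3)) (kk θ (k.1 - 3)) k.2 else ∅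

noncomputable def topT (E : Finset ℕ) (ρ : Finset ℕ → ℕ) (θ : ℕ × ℕ → ℝ) : Finset (ℕ × ℕ) :=
  ({0} ×ˢ E) ∪ ({1} ×ˢ pins E (rs E ρ 0) (kk θ 0)) ∪ ({2} ×ˢ pins E (rs E ρ 1) (kk θ 1))

variable {E : Finset ℕ} {ρ : Finset ℕ → ℕ} {θ : ℕ × ℕ → ℝ}

theorem isRk_rs13 (h : IsRk ρ) (E : Finset ℕ) (j : ℕ) : IsRk (rs E ρ j) := by
  unfold rs
  split_ifs
  exacts [h, h.isRk_dual E]

theorem mem_cons' {t e : ℕ} : (t, e) ∈ cons E ρ ↔
    t = 0 ∧ e ∈ E ∨ t = 1 ∧ e ∈ NL E (rs E ρ 0) ∨ t = 2 ∧ e ∈ NL E (rs E ρ 1) := by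
  simp only [cons, NL, mem_union, mem_product, mem_singleton, or_assoc]

theorem mem_walls' {t i : ℕ} : (t, i) ∈ walls E ρ ↔
    ∃ j < 2, t = 3 + j ∧ 1 ≤ i ∧ i < rs E ρ j E := by
  simp only [walls, mem_union, mem_product, mem_singleton, mem_Ico]
  constructor
  · rintro (⟨rfl, h⟩ | ⟨rfl, h⟩)
    exacts [⟨0, by omega, rfl, h⟩, ⟨1, by omega, rfl, h⟩]
  · rintro ⟨j, hj, rfl, h⟩
    interval_cases j
    exacts [Or.inl ⟨rfl, h⟩, Or.inr ⟨rfl, h⟩]

theorem mem_topT {t e : ℕ} : (t, e) ∈ topT E ρ θ ↔ t = 0 ∧ e ∈ E ∨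
    t = 1 ∧ e ∈ pins E (rs E ρ 0) (kk θ 0) ∨ t = 2 ∧ e ∈ pins E (rs E ρ 1) (kk θ 1) := by
  simp only [topT, mem_union, mem_product, mem_singleton, or_assoc]

theorem ch_topC {j : ℕ} (hj : j < 2) : ch (topC E ρ θ) j = grC E (rs E ρ j) (kk θ j) := by
  funext i
  rw [ch, topC, if_pos (by simp only; omega)]
  simp only [Nat.add_sub_cancel_left]

theorem kk_inj (hθ : (sys E ρ).SGen θ) {j : ℕ} (hj : j < 2) :
    Set.InjOn (kk θ j) (NL E (rs E ρ j)) := fun e he f hf hef => by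
  by_contra hne
  have h1 : ∀ g ∈ NL E (rs E ρ j), (0, g) ∈ cons E ρ ∧ (j + 1, g) ∈ cons E ρ := fun g hg =>
    ⟨mem_cons'.2 (Or.inl ⟨rfl, NL_sub hg⟩), mem_cons'.2 (Or.inr (by
      interval_cases j
      exacts [Or.inl ⟨rfl, hg⟩, Or.inr ⟨rfl, hg⟩]))⟩
  have h2 : ∀ (g : ℕ × ℕ) (a : ℝ), g ∈ cons E ρ →
      ∑ c ∈ cons E ρ, (if c = g then a else 0) * θ c = a * θ g := fun g a hg => by
    simp only [ite_mul, zero_mul, sum_ite_eq', if_pos hg]
  refine hθ (fun c => (if c = (j + 1, e) then 1 else 0) + (if c = (j + 1, f) then -1 else 0) +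
    (if c = (0, e) then (if j = 0 then 1 else -1) else 0) +
    (if c = (0, f) then (if j = 0 then -1 else 1) else 0)) (fun c => ?_)
    ⟨(j + 1, e), (h1 e he).2, by simp [hne]⟩ ?_
  · obtain ⟨t, g⟩ := c
    simp only [Prod.mk.injEq]
    split_ifs <;> first | omega | norm_num
  · change ∑ c ∈ cons E ρ, _ = _
    push_cast
    simp only [add_mul, sum_add_distrib]
    rw [h2 _ _ (h1 e he).2, h2 _ _ (h1 f hf).2, h2 _ _ (h1 e he).1, h2 _ _ (h1 f hf).1]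
    interval_cases j <;> simp only [kk] at hef <;> norm_num at hef ⊢ <;> linarith

theorem cone_topC (h : IsRk ρ) (hθ : (sys E ρ).SGen θ) : IsCone E ρ (topC E ρ θ) where
  chain := fun j hj => by rw [ch_topC hj]; exact chain_grC (isRk_rs13 h E j) (kk_inj hθ hj)
  junk := fun t i h3 h4 => if_neg (by simp only; omega)

/-- every element that is not a loop lies in a level -/
theorem Chain.lev13 {r : Finset ℕ → ℕ} {C : ℕ → Finset ℕ} (hC : Chain E r C) {x : ℕ} (hx : x ∈ E)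
    (h0 : x ∉ C 0) : ∃ i < r E, x ∈ C (i + 1) ∧ x ∉ C i := by
  have h1 : ∃ i, x ∈ C i := ⟨r E, by rw [hC.top _ le_rfl]; exact hx⟩
  have h2 := Nat.find_spec h1
  have h3 : Nat.find h1 ≤ r E := Nat.find_min' h1 (by rw [hC.top _ le_rfl]; exact hx)
  obtain ⟨i, hi⟩ := Nat.exists_eq_succ_of_ne_zero (n := Nat.find h1) fun h4 => h0 (h4 ▸ h2)
  exact ⟨i, by omega, by rw [← Nat.succ_eq_add_one, ← hi]; exact h2, Nat.find_min h1 (by omega)⟩

theorem Chain.mono13 {r : Finset ℕ → ℕ} {C : ℕ → Finset ℕ} (hC : Chain E r C) : Monotone C :=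
  monotone_nat_of_le_succ fun i => by
    rcases lt_or_ge i (r E) with hi | hi
    · exact (hC.cov i hi).2.2.1
    · rw [hC.top i hi, hC.top (i + 1) (by omega)]

theorem Chain.lev_eq13 {r : Finset ℕ → ℕ} {C : ℕ → Finset ℕ} (hC : Chain E r C) {x i j : ℕ}
    (h1 : x ∈ C (i + 1)) (h2 : x ∉ C i) (h3 : x ∈ C (j + 1)) (h4 : x ∉ C j) : i = j :=
  le_antisymm (not_lt.1 fun h => h2 (hC.mono13 (show j + 1 ≤ i from h) h3))
    (not_lt.1 fun h => h4 (hC.mono13 (show i + 1 ≤ j from h) h1))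

theorem rep_mem13 {σ : ℕ × ℕ → Finset ℕ} {j i x : ℕ} (h1 : x ∈ ch σ j (i + 1)) (h2 : x ∉ ch σ j i) :
    rep σ j (i + 1) ∈ ch σ j (i + 1) \ ch σ j i :=
  mem_sdiff.2 (Nat.sInf_mem (s := {e | e ∈ ch σ j (i + 1) ∧ e ∉ ch σ j (i + 1 - 1)}) ⟨x, h1, h2⟩)

/-- the indicator of a level -/
noncomputable def lvI (σ : ℕ × ℕ → Finset ℕ) (j i : ℕ) (x : ℕ × ℕ) : ℝ :=
  if x.1 = j ∧ x.2 ∈ ch σ j (i + 1) ∧ x.2 ∉ ch σ j i then 1 else 0

theorem lvI_mem {σ : ℕ × ℕ → Finset ℕ} (hσ : IsCone E ρ σ) {j : ℕ} (hj : j < 2) (i : ℕ) :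
    lvI σ j i ∈ span E σ := by
  refine ⟨fun j' _ i' e he f hf => if_congr (and_congr_right fun h => ?_) rfl rfl,
    fun j' _ e he => if_neg fun h => he ?_, fun e _ => if_neg fun h => by simp only at h; omega,
    fun t e ht => if_neg fun h => by simp only at h; omega⟩
  · obtain rfl : j' = j := h
    obtain ⟨h1, h2⟩ := mem_sdiff.1 he
    obtain ⟨h3, h4⟩ := mem_sdiff.1 hf
    constructor <;> rintro ⟨h5, h6⟩
    · obtain rfl := (hσ.chain j' hj).lev_eq13 h1 h2 h5 h6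
      exact ⟨h3, h4⟩
    · obtain rfl := (hσ.chain j' hj).lev_eq13 h3 h4 h5 h6
      exact ⟨h1, h2⟩
  · obtain ⟨rfl, h1, h2⟩ : j' = j ∧ _ := h
    exact mem_sdiff.2 ⟨(hσ.chain j' hj).sub _ h1, fun h3 => h2 ((hσ.chain j' hj).mono13
      (Nat.zero_le _) h3)⟩

theorem single_mem13 {σ : ℕ × ℕ → Finset ℕ} {e : ℕ} (he : e ∈ E) :
    (Pi.single (2, e) 1 : ℕ × ℕ → ℝ) ∈ span E σ :=
  ⟨fun j hj _ a _ b _ => by
      rw [Pi.single_eq_of_ne (by simp; omega), Pi.single_eq_of_ne (by simp; omega)],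
    fun j hj a _ => Pi.single_eq_of_ne (by simp; omega) _,
    fun a ha => Pi.single_eq_of_ne (by simp; rintro rfl; exact ha he) _,
    fun t a ht => Pi.single_eq_of_ne (by simp; omega) _⟩

/-- the indicator of the level of a pin -/
noncomputable def pI (E : Finset ℕ) (ρ : Finset ℕ → ℕ) (θ : ℕ × ℕ → ℝ) (j e : ℕ) : ℕ × ℕ → ℝ :=
  if e ∈ pins E (rs E ρ j) (kk θ j) then
    lvI (topC E ρ θ) j (lev E (rs E ρ j) (kk θ j) e - 1) else 0

theorem pI_mem (h : IsRk ρ) (hθ : (sys E ρ).SGen θ) {j : ℕ} (hj : j < 2) (e : ℕ) :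
    pI E ρ θ j e ∈ span E (topC E ρ θ) := by
  unfold pI
  split_ifs
  exacts [lvI_mem (cone_topC h hθ) hj _, Submodule.zero_mem _]

theorem pI_ne {j e t x : ℕ} (h : t ≠ j) : pI E ρ θ j e (t, x) = 0 := by
  unfold pI
  split_ifs
  exacts [if_neg fun h' => h h'.1, rfl]

theorem pI_pin (h : IsRk ρ) (hθ : (sys E ρ).SGen θ) {j : ℕ} (hj : j < 2) (e : ℕ) {f : ℕ}
    (hf : f ∈ pins E (rs E ρ j) (kk θ j)) : pI E ρ θ j e (j, f) = if f = e then 1 else 0 := by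
  obtain ⟨i, -, h1, h2, h3, -, h4⟩ := pin_spec (isRk_rs13 h E j) (kk_inj hθ hj) hf
  unfold pI
  by_cases hfe : f = e
  · subst hfe
    rw [if_pos hf, if_pos rfl, h1, lvI, ch_topC hj]
    exact if_pos ⟨rfl, h2, h3⟩
  · rw [if_neg hfe]
    split_ifs with he
    · obtain ⟨i', -, h5, -⟩ := pin_spec (isRk_rs13 h E j) (kk_inj hθ hj) he
      rw [h5, lvI, ch_topC hj]
      refine if_neg fun h6 => hfe (h4 e he ?_).symm
      rw [h5, (chain_grC (isRk_rs13 h E j) (kk_inj hθ hj)).lev_eq13 h2 h3 h6.2.1 h6.2.2]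
      rfl
    · rfl

theorem isB_top (h : IsRk ρ) (hθ : (sys E ρ).SGen θ) :
    (sys E ρ).IsB (topC E ρ θ) (topT E ρ θ) := by
  have hC := cone_topC h hθ
  have p0 := fun e f hf => pI_pin h hθ (j := 0) (by omega) e (f := f) hf
  have p1 := fun e f hf => pI_pin h hθ (j := 1) (by omega) e (f := f) hf
  set y : ℕ × ℕ → ℕ × ℕ → ℝ := fun c => if c.1 = 0 then
    -Pi.single (2, c.2) 1 - pI E ρ θ 0 c.2 - pI E ρ θ 1 c.2
    else if c.1 = 1 then -pI E ρ θ 0 c.2 else pI E ρ θ 1 c.2 with hy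
  have hm : ∀ c ∈ topT E ρ θ, y c ∈ span E (topC E ρ θ) := by
    rintro ⟨t, e⟩ hc
    rcases mem_topT.1 hc with ⟨rfl, he⟩ | ⟨rfl, -⟩ | ⟨rfl, -⟩
    · exact sub_mem (sub_mem (neg_mem (single_mem13 he)) (pI_mem h hθ (by omega) _))
        (pI_mem h hθ (by omega) _)
    · exact neg_mem (pI_mem h hθ (j := 0) (by omega) _)
    · exact pI_mem h hθ (j := 1) (by omega) _
  have hd : ∀ c ∈ topT E ρ θ, ∀ d ∈ topT E ρ θ,
      cov (topC E ρ θ) d (y c) = if d = c then 1 else 0 := by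
    rintro ⟨t, e⟩ hc ⟨s, f⟩ hd
    rcases mem_topT.1 hc with ⟨rfl, -⟩ | ⟨rfl, -⟩ | ⟨rfl, -⟩ <;>
      rcases mem_topT.1 hd with ⟨rfl, -⟩ | ⟨rfl, hf⟩ | ⟨rfl, hf⟩ <;>
      simp [cov_apply, ends, pI_ne, Pi.single_apply, *]
  refine ⟨mem_Ch.2 hC, fun ⟨t, e⟩ hc => Sys.mem_Cn.2 (Or.inr (mem_cons'.2 ?_)), y, hm, hd,
    fun v hv => ?_⟩
  · exact (mem_topT.1 hc).imp_right (Or.imp (And.imp_right fun h => (mem_filter.1 h).1)
      (And.imp_right fun h => (mem_filter.1 h).1))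
  have key : ∀ w ∈ span E (topC E ρ θ), (∀ d ∈ topT E ρ θ, cov (topC E ρ θ) d w = 0) → w = 0 := by
    intro w hw h0
    have h2 : ∀ e ∈ E, w (2, e) = 0 := fun e he => by
      have := h0 (0, e) (mem_topT.2 (Or.inl ⟨rfl, he⟩))
      simp only [cov_apply, ends, if_true] at this
      rw [hw.2.2.2 5 0 (by omega)] at this
      linarith
    have h3 : ∀ j < 2, ∀ e ∈ pins E (rs E ρ j) (kk θ j), w (j, e) = 0 := fun j hj e he => by
      have h4 := h2 e (NL_sub (mem_filter.1 he).1)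
      interval_cases j
      · have := h0 (1, e) (mem_topT.2 (Or.inr (Or.inl ⟨rfl, he⟩)))
        simp [cov_apply, ends] at this
        linarith
      · have := h0 (2, e) (mem_topT.2 (Or.inr (Or.inr ⟨rfl, he⟩)))
        simp [cov_apply, ends] at this
        linarith
    funext ⟨t, x⟩
    rcases lt_trichotomy t 2 with ht | rfl | ht
    · by_cases hx : x ∈ E \ ch (topC E ρ θ) t 0
      · obtain ⟨i, hi, h4, h5⟩ := (hC.chain t ht).lev13 (mem_sdiff.1 hx).1 (mem_sdiff.1 hx).2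
        obtain ⟨-, e, h6, -, h7, h8, -⟩ := exists_pin (isRk_rs13 h E t) (kk_inj hθ ht) hi
        rw [← ch_topC ht] at h7 h8
        rw [hw.1 t ht i x (mem_sdiff.2 ⟨h4, h5⟩) e (mem_sdiff.2 ⟨h7, h8⟩)]
        exact h3 t ht e h6
      · exact hw.2.1 t ht x hx
    · by_cases hx : x ∈ E
      exacts [h2 x hx, hw.2.2.1 x hx]
    · exact hw.2.2.2 t x ht
  refine sub_eq_zero.1 (key _ (sub_mem hv (Submodule.sum_mem _ fun c hc =>
    Submodule.smul_mem _ _ (hm c hc))) fun d hd' => ?_)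
  rw [map_sub, map_sum, sum_congr rfl fun c hc => by rw [map_smul, hd c hc d hd']]
  simp only [smul_eq_mul, mul_ite, mul_one, mul_zero, sum_ite_eq, if_pos hd']
  exact sub_self _

/-- the greedy vertex is a terminal -/
theorem top_mem (h : IsRk ρ) (hθ : (sys E ρ).SGen θ) :
    (topC E ρ θ, topT E ρ θ) ∈ (sys E ρ).Tm θ := by
  have hC := cone_topC h hθ
  have hB := isB_top h hθ
  have hw : (sys E ρ).pt θ (topC E ρ θ) (topT E ρ θ) ∈ span E (topC E ρ θ) := hB.pt_mem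
  have hth : ∀ t e, t < 3 → (sys E ρ).th θ (t, e) = θ (t, e) := fun t e ht => if_neg fun h1 => by
    obtain ⟨j, -, h2, -⟩ := mem_walls'.1 h1
    omega
  have ht := fun c hc => hB.pt_tight (θ := θ) (c := c) hc
  set p := (sys E ρ).pt θ (topC E ρ θ) (topT E ρ θ) with hp
  have h2 : ∀ e ∈ E, p (2, e) = -θ (0, e) := fun e he => by
    have := ht (0, e) (mem_topT.2 (Or.inl ⟨rfl, he⟩))
    rw [hth _ _ (by omega)] at this
    change cov _ _ _ = _ at this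
    simp only [cov_apply, ends, if_true] at this
    rw [hw.2.2.2 5 0 (by omega)] at this
    linarith
  have h3 : ∀ j < 2, ∀ e ∈ pins E (rs E ρ j) (kk θ j),
      p (j, e) = (if j = 0 then -1 else 1) * kk θ j e := fun j hj e he => by
    have h4 := h2 e (NL_sub (mem_filter.1 he).1)
    interval_cases j
    · have := ht (1, e) (mem_topT.2 (Or.inr (Or.inl ⟨rfl, he⟩)))
      rw [hth _ _ (by omega)] at this
      change cov _ _ _ = _ at this
      simp [cov_apply, ends, kk] at this ⊢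
      linarith
    · have := ht (2, e) (mem_topT.2 (Or.inr (Or.inr ⟨rfl, he⟩)))
      rw [hth _ _ (by omega)] at this
      change cov _ _ _ = _ at this
      simp [cov_apply, ends, kk] at this ⊢
      linarith
  have h4 : ∀ j < 2, ∀ i < rs E ρ j E, ∃ e ∈ pins E (rs E ρ j) (kk θ j),
      e ∈ ch (topC E ρ θ) j (i + 1) ∧ e ∉ ch (topC E ρ θ) j i ∧
      (∀ f ∈ E, f ∉ ch (topC E ρ θ) j i → f ≠ e → kk θ j e < kk θ j f) ∧
      ∀ x ∈ ch (topC E ρ θ) j (i + 1) \ ch (topC E ρ θ) j i,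
        p (j, x) = (if j = 0 then -1 else 1) * kk θ j e := fun j hj i hi => by
    obtain ⟨-, e, h6, h7, -⟩ := exists_pin (isRk_rs13 h E j) (kk_inj hθ hj) hi
    obtain ⟨i', -, h8, h9, h10, h11, -⟩ := pin_spec (isRk_rs13 h E j) (kk_inj hθ hj) h6
    obtain rfl : i' = i := by omega
    rw [← ch_topC hj] at h9 h10 h11
    exact ⟨e, h6, h9, h10, h11, fun x hx => by
      rw [hw.1 j hj i' x hx e (mem_sdiff.2 ⟨h9, h10⟩), h3 j hj e h6]⟩
  have h5 : ∀ j < 2, ∀ f ∈ NL E (rs E ρ j), f ∉ pins E (rs E ρ j) (kk θ j) →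
      (if j = 0 then -1 else 1) * p (j, f) < kk θ j f := fun j hj f hf hf' => by
    obtain ⟨i, hi, h6, h7⟩ := (hC.chain j hj).lev13 (NL_sub hf)
      (by rw [(hC.chain j hj).bot]; exact (mem_sdiff.1 hf).2)
    obtain ⟨e, h8, -, -, h9, h10⟩ := h4 j hj i hi
    have := h9 f (NL_sub hf) h7 fun h11 => hf' (h11 ▸ h8)
    rw [h10 f (mem_sdiff.2 ⟨h6, h7⟩)]
    split_ifs <;> linarith
  refine Sys.mem_VJ.2 ⟨⟨hB, fun ⟨t, f⟩ hd hT => ?_⟩, card_eq_zero.2 (eq_empty_of_forall_notMem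
    fun ⟨t, f⟩ hc => ?_)⟩
  · change 0 < (sys E ρ).th θ (t, f) - cov (topC E ρ θ) (t, f) p
    rcases Sys.mem_Cn.1 hd with hd | hd
    · rw [Sys.th, if_pos hd]
      obtain ⟨j, hj, rfl, h6, h7⟩ := mem_walls'.1 hd
      obtain ⟨i, rfl⟩ : ∃ i, f = i + 1 := ⟨f - 1, by omega⟩
      obtain ⟨e, -, a1, a2, a3, a4⟩ := h4 j hj i (by omega)
      obtain ⟨e', -, b1, b2, -, b4⟩ := h4 j hj (i + 1) h7
      have c1 := a3 e' ((hC.chain j hj).sub _ b1)
        (fun h8 => b2 ((hC.chain j hj).mono13 (Nat.le_succ i) h8)) fun h8 => b2 (h8 ▸ a1)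
      have c2 := a4 _ (rep_mem13 a1 a2)
      have c3 := b4 _ (rep_mem13 b1 b2)
      interval_cases j <;> simp [cov_apply, ends] at c2 c3 ⊢ <;> linarith
    · rcases mem_cons'.1 hd with ⟨rfl, hf⟩ | ⟨rfl, hf⟩ | ⟨rfl, hf⟩
      · exact absurd (mem_topT.2 (Or.inl ⟨rfl, hf⟩)) hT
      · have := h5 0 (by omega) f hf fun h6 => hT (mem_topT.2 (Or.inr (Or.inl ⟨rfl, h6⟩)))
        rw [hth _ _ (by omega)]
        simp [cov_apply, ends, kk, h2 f (NL_sub hf)] at this ⊢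
        linarith
      · have := h5 1 (by omega) f hf fun h6 => hT (mem_topT.2 (Or.inr (Or.inr ⟨rfl, h6⟩)))
        rw [hth _ _ (by omega)]
        simp [cov_apply, ends, kk, h2 f (NL_sub hf)] at this ⊢
        linarith
  · obtain ⟨j, -, h6, -⟩ := mem_walls'.1 (mem_inter.1 hc).2
    have := mem_topT.1 (mem_inter.1 hc).1
    omega

theorem rs_one (h : IsRk ρ) : rs E ρ 1 E = E.card - ρ E := by
  simp [rs, H64.dual, h.empty]

/-- the weight of the greedy terminal -/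
theorem top_om (h : IsRk ρ) (hθ : (sys E ρ).SGen θ) (A0 A1 A2 : ℝ) :
    (sys E ρ).om (cst A0 A1 A2) (topT E ρ θ) =
      A0⁻¹ ^ E.card * A1⁻¹ ^ ρ E * A2⁻¹ ^ (E.card - ρ E) := by
  have h1 : topT E ρ θ ⊆ cons E ρ := fun ⟨t, e⟩ hc => mem_cons'.2
    ((mem_topT.1 hc).imp_right (Or.imp (And.imp_right fun h => (mem_filter.1 h).1)
      (And.imp_right fun h => (mem_filter.1 h).1)))
  have h2 : ∀ (t : ℕ) (P : Finset ℕ), ∏ c ∈ {t} ×ˢ P, (cst A0 A1 A2 c)⁻¹ =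
      (cst A0 A1 A2 (t, 0))⁻¹ ^ P.card := fun t P => by
    rw [prod_product, prod_singleton, ← prod_const]
    rfl
  change ∏ c ∈ topT E ρ θ ∩ cons E ρ, _ = _
  rw [inter_eq_left.2 h1, topT, prod_union, prod_union, h2, h2, h2,
    card_pins (isRk_rs13 h E 0) (kk_inj hθ (by omega)),
    card_pins (isRk_rs13 h E 1) (kk_inj hθ (by omega)), rs_one h]
  · simp [cst, rs]
  · exact disjoint_product.2 (Or.inl (by simp))
  · exact disjoint_union_left.2 ⟨disjoint_product.2 (Or.inl (by simp)),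
      disjoint_product.2 (Or.inl (by simp))⟩

theorem tut_le (h : IsRk ρ) {X Y d : ℚ} (X1 : 1 ≤ X) (hY : |Y - 1| ≤ d) (hd : 1 ≤ d * X) :
    H5.tut E ρ X Y ≤ X ^ ρ E * (1 + d) ^ E.card := by
  have d0 : 0 ≤ d := (abs_nonneg _).trans hY
  rw [add_comm 1 d, ← sum_pow_mul_eq_add_pow, mul_sum]
  refine sum_le_sum fun A hA => ?_
  obtain ⟨a, ha⟩ := Nat.exists_eq_add_of_le (h.mono A E (mem_powerset.1 hA))
  obtain ⟨b, hb⟩ := Nat.exists_eq_add_of_le (h.le_card A)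
  rw [ha, hb, Nat.add_sub_cancel_left, Nat.add_sub_cancel_left, one_pow, mul_one]
  calc (X - 1) ^ a * (Y - 1) ^ b ≤ (X - 1) ^ a * |Y - 1| ^ b :=
        mul_le_mul_of_nonneg_left (by rw [← abs_pow]; exact le_abs_self _)
          (pow_nonneg (by linarith) _)
    _ ≤ X ^ a * d ^ b := by gcongr; linarith
    _ ≤ (d * X) ^ ρ A * (X ^ a * d ^ b) :=
        le_mul_of_one_le_left (by positivity) (one_le_pow₀ hd)
    _ = _ := by rw [mul_pow, pow_add, pow_add]; ring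

/-- the greedy terminal carries almost all the weight if `A0` is small -/
theorem top_mass (h : IsRk ρ) {A0 A1 A2 d : ℚ} (h0 : 0 < A0) (d1 : d ≤ 1) (a4 : 2 * E.card * d ≤ 1) (h1 : A0 ≤ d * A1)
    (h2 : A0 ≤ d * A2) (p1 : 0 < A1) (p2 : 0 < A2) :
    (1 - 2 * E.card * d) * (A2⁻¹ ^ E.card * A1⁻¹ ^ ρ E * (A0⁻¹ + A1⁻¹) ^ (E.card - ρ E) *
      H5.tut E ρ (A2 / A0) (A1 / (A0 + A1))) ≤
      A0⁻¹ ^ E.card * A1⁻¹ ^ ρ E * A2⁻¹ ^ (E.card - ρ E) := by
  have d0 : 0 < d := (mul_pos_iff_of_pos_right p1).1 (h0.trans_le h1)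
  have a1 : H5.tut E ρ (A2 / A0) (A1 / (A0 + A1)) ≤ (A2 / A0) ^ ρ E * (1 + d) ^ E.card := by
    refine tut_le h ((one_le_div h0).2 (by nlinarith)) ?_
      (by rw [← mul_div_assoc, one_le_div h0]; exact h2)
    rw [abs_of_nonpos (by rw [sub_nonpos, div_le_one (by positivity)]; linarith), neg_sub,
      one_sub_div (by positivity), div_le_iff₀ (by positivity)]
    nlinarith
  have a2 : A0⁻¹ + A1⁻¹ ≤ (1 + d) * A0⁻¹ := by
    have : A1⁻¹ ≤ d * A0⁻¹ := by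
      rw [← div_eq_mul_inv, le_div_iff₀ h0, inv_mul_le_iff₀ p1]
      linarith
    linarith
  obtain ⟨s, hs⟩ := Nat.exists_eq_add_of_le (h.le_card E)
  have a3 : (1 - 2 * E.card * d) * (1 + d) ^ (2 * E.card) ≤ 1 := by
    have b1 : 1 - 2 * E.card * d ≤ (1 - d) ^ (2 * E.card) := by
      have := one_add_mul_le_pow (show (-2 : ℚ) ≤ -d by linarith) (2 * E.card)
      push_cast at this
      rw [sub_eq_add_neg 1 d]
      linarith
    calc _ ≤ (1 - d) ^ (2 * E.card) * (1 + d) ^ (2 * E.card) := by gcongr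
      _ ≤ 1 := by
        rw [← mul_pow]
        exact pow_le_one₀ (by nlinarith) (by nlinarith)
  have a5 : (0 : ℚ) ≤ 1 - 2 * E.card * d := by linarith
  have a6 : E.card - ρ E = s := by omega
  rw [a6]
  calc _ ≤ (1 - 2 * E.card * d) * (A2⁻¹ ^ E.card * A1⁻¹ ^ ρ E *
        ((1 + d) * A0⁻¹) ^ s * ((A2 / A0) ^ ρ E * (1 + d) ^ E.card)) := by
        refine mul_le_mul_of_nonneg_left ((mul_le_mul_of_nonneg_left a1 (by positivity)).trans ?_) a5
        gcongr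
    _ = (1 - 2 * E.card * d) * (1 + d) ^ (s + E.card) *
        (A0⁻¹ ^ E.card * A1⁻¹ ^ ρ E * A2⁻¹ ^ s) := by
        generalize (1 - 2 * (E.card : ℚ) * d) = q
        rw [pow_add, mul_pow, div_pow]
        generalize (1 + d) ^ E.card = q'
        rw [hs, pow_add, pow_add]
        simp only [inv_pow]
        field_simp
    _ ≤ _ := by
        refine mul_le_of_le_one_left (by positivity) (le_trans ?_ a3)
        exact mul_le_mul_of_nonneg_left (pow_le_pow_right₀ (by linarith) (by omega)) a5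

end Pool.Agent.Lib.US
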