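import Pool.Agent.Lib.US.Fr13
import Pool.Agent.Lib.US.Mod60
import Pool.Agent.Lib.US.Env72
import Pool.Agent.Lib.US.Top13
import Pool.Agent.Lib.US.Edge79

/-! The algorithm: the killed walk on the networks, explicit formulas, codes, statements. -/

namespace Pool.Agent.Lib.US.A80

open Finset Pool.Agent.Lib.helper82 Pool.Agent.Lib.MP_b67cc8_lc Pool.Agent.US.Tick72
open Pool.Agent.Lib.FL.H64 (IsRk cl)
open Pool.Agent.Lib.MP_dec383_lc (UN)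

abbrev Ix := ℕ × ℕ
abbrev Cone := Ix → Finset ℕ
abbrev Key := Cone × Finset Ix
abbrev Code := List (Ix × ℕ) × List Ix

section model
open Classical
variable (m : ℕ) (ρ : Finset ℕ → ℕ)

/-- the coordinates and the ground -/
def UU : Finset Ix := insert (5, 0) (range 3 ×ˢ range m)

/-- two coordinates of the same level -/
def same (σ : Cone) (x y : Ix) : Prop :=
  x.1 = y.1 ∧ x.1 < 2 ∧ ∀ i ∈ range (m + 1), (x.2 ∈ ch σ x.1 i ↔ y.2 ∈ ch σ x.1 i)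

noncomputable def grow (σ : Cone) (D s : Finset Ix) : Finset Ix :=
  (UU m).filter fun x => ∃ y ∈ s, x = y ∨ same m σ x y ∨
    ∃ d ∈ D, ends σ d = (x, y) ∨ ends σ d = (y, x)

noncomputable def fixd (σ : Cone) : Finset Ix :=
  (UU m).filter fun x => x.1 = 5 ∨ (x.1 < 2 ∧ x.2 ∈ ch σ x.1 0)

/-- the coordinates joined to the ground by the conditions in `D` -/
noncomputable def ZZ (σ : Cone) (D : Finset Ix) : Finset Ix :=
  (grow m σ D)^[3 * m + 1] (fixd m σ)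

/-- the coefficient of `d` on the frame vector of `c` is `1` -/
def kp (σ : Cone) (T : Finset Ix) (c d : Ix) : Prop :=
  ((ends σ d).1 ∈ ZZ m σ (T.erase c) ↔ (ends σ c).1 ∈ ZZ m σ (T.erase c)) ∧
    ¬((ends σ d).2 ∈ ZZ m σ (T.erase c) ↔ (ends σ c).1 ∈ ZZ m σ (T.erase c))

/-- the coefficient is `-1` -/
def kn (σ : Cone) (T : Finset Ix) (c d : Ix) : Prop :=
  ¬((ends σ d).1 ∈ ZZ m σ (T.erase c) ↔ (ends σ c).1 ∈ ZZ m σ (T.erase c)) ∧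
    ((ends σ d).2 ∈ ZZ m σ (T.erase c) ↔ (ends σ c).1 ∈ ZZ m σ (T.erase c))

def thN (θ : Ix → ℕ) (c : Ix) : ℕ := if c ∈ walls (range m) ρ then 0 else θ c

/-- slack -/
noncomputable def slN (θ : Ix → ℕ) (σ : Cone) (T : Finset Ix) (d : Ix) : ℕ :=
  thN m ρ θ d + ∑ c ∈ T.filter fun c => kn m σ T c d, thN m ρ θ c -
    ∑ c ∈ T.filter fun c => kp m σ T c d, thN m ρ θ c

/-- candidates -/
noncomputable def cdN (σ : Cone) (T : Finset Ix) (c : Ix) : Finset Ix :=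
  (walls (range m) ρ ∪ cons (range m) ρ).filter fun d => d ∉ T ∧ kn m σ T c d

/-- the candidates of least slack (exactly one at a bounded dart) -/
noncomputable def mnN (θ : Ix → ℕ) (σ : Cone) (T : Finset Ix) (c : Ix) : Finset Ix :=
  (cdN m ρ σ T c).filter fun d => ∀ e ∈ cdN m ρ σ T c, slN m ρ θ σ T d ≤ slN m ρ θ σ T e

noncomputable def nxN (θ : Ix → ℕ) (σ : Cone) (T : Finset Ix) (c : Ix) : Finset Ix :=
  mnN m ρ θ σ T c ∪ T.erase c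

noncomputable def lnN (θ : Ix → ℕ) (σ : Cone) (T : Finset Ix) (c : Ix) : ℕ :=
  ∑ d ∈ mnN m ρ θ σ T c, slN m ρ θ σ T d

/-- the flat that contains `e` and covers the flat below the wall `c` -/
def shP (σ : Cone) (c : Ix) (e : ℕ) : Finset ℕ :=
  cl (rs (range m) ρ (c.1 - 3)) (range m) (insert e (σ (c.1, c.2 - 1)))

/-- the sheet chosen by `e` -/
def sh (σ : Cone) (c : Ix) (e : ℕ) : Cone :=
  if c ∈ walls (range m) ρ then Function.update σ c (shP m ρ σ c e) else σ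

/-- `e` is the name of a sheet -/
def okE (σ : Cone) (c : Ix) (e : ℕ) : Prop :=
  if c ∈ walls (range m) ρ then e ∈ σ (c.1, c.2 + 1) ∧ e ∉ σ (c.1, c.2 - 1) ∧
    ∀ f ∈ shP m ρ σ c e, f ∈ σ (c.1, c.2 - 1) ∨ e ≤ f else e = 0

def prd {α β : Type} (A : List α) (B : List β) : List (α × β) :=
  A.flatMap fun a => B.map fun b => (a, b)

def CL : List Ix := prd (List.range 5) (List.range m)

/-- the names of the darts at a node -/
noncomputable def dl (s : Key) : List (Ix × ℕ) :=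
  (prd (CL m) (List.range m)).filter fun p => decide (p.1 ∈ s.2 ∧
    Disjoint (s.2.erase p.1) (walls (range m) ρ) ∧ okE m ρ s.1 p.1 p.2 ∧
      (cdN m ρ (sh m ρ s.1 p.1 p.2) s.2 p.1).Nonempty)

def dart (s : Key) (p : Ix × ℕ) : Key × Ix := ((sh m ρ s.1 p.1 p.2, s.2), p.1)

def enc (s : Key) : Code :=
  ((prd (prd (List.range 5) (List.range (m + 1))) (List.range m)).filter fun q =>
    decide (q.2 ∈ s.1 q.1), (CL m).filter fun c => decide (c ∈ s.2))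

def dec (v : Code) : Key :=
  (fun k => (range m).filter fun e => ((k.1, min k.2 m), e) ∈ v.1, v.2.toFinset)

/-- the code of the head of a dart -/
noncomputable def hdC (θ : Ix → ℕ) (s : Key) (p : Ix × ℕ) : Code :=
  enc m ((sys (range m) ρ).key (sh m ρ s.1 p.1 p.2) (nxN m ρ θ (sh m ρ s.1 p.1 p.2) s.2 p.1))

/-- the killing weight -/
def wC (Λ : ℕ) (s : Key) : ℕ := if s.2 ∩ walls (range m) ρ = ∅ then Λ else 0

/-- the weighted list of the heads of the darts at a node -/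
noncomputable def dsC (L : ℕ) (θ a : Ix → ℕ) (s : Key) : List (ℕ × Code) :=
  (dl m ρ s).map fun p => ((if p.1 ∈ walls (range m) ρ then 1 else a p.1) *
    (L / lnN m ρ θ (sh m ρ s.1 p.1 p.2) s.2 p.1 + 1), hdC m ρ θ s p)

/-- the starting terminal -/
noncomputable def top (θ : Ix → ℕ) : Key :=
  (topC (range m) ρ fun c => θ c, topT (range m) ρ fun c => θ c)

/-- the number of tight constraints of kind `0` -/
def cnt (s : Key) : ℕ := ((range m).filter fun e => (0, e) ∈ s.2).card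

end model

/-! ### Statements about the model -/

open Classical in
/-- the coefficients of the frame -/
def St_KAP : Prop := ∀ m ρ, IsRk ρ → ∀ σ T, (sys (range m) ρ).IsB σ T → ∀ c ∈ T,
  ∀ d ∈ (sys (range m) ρ).Cn, (sys (range m) ρ).L σ d ((sys (range m) ρ).yv σ T c) =
    if kp m σ T c d then 1 else if kn m σ T c d then -1 else 0

/-- the pivot in explicit form -/
def St_PIV : Prop := ∀ m ρ, IsRk ρ → ∀ σ T, ∀ c ∈ T,
  ((sys (range m) ρ).IsB σ T → cdN m ρ σ T c = (sys (range m) ρ).cand σ T c) ∧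
  ∀ θ : Ix → ℕ, (sys (range m) ρ).Gen (fun c => θ c) → (sys (range m) ρ).Vx (fun c => θ c) σ T →
    ((sys (range m) ρ).cand σ T c).Nonempty →
      nxN m ρ θ σ T c = (sys (range m) ρ).nxt (fun c => θ c) σ T c ∧
      (lnN m ρ θ σ T c : ℝ) = (sys (range m) ρ).len (fun c => θ c) σ T c

/-- the list of the darts at a node -/
def St_DS : Prop := ∀ m ρ, IsRk ρ → ∀ θ, ∀ s ∈ (sys (range m) ρ).Nd θ,
  ((dl m ρ s).map (dart m ρ s)).Nodup ∧ ∀ d, d ∈ (dl m ρ s).map (dart m ρ s) ↔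
    d ∈ (sys (range m) ρ).Db θ 0 ∧ (sys (range m) ρ).key d.1.1 d.1.2 = s

/-- codes of nodes -/
def St_ENC : Prop := (∀ m ρ, IsRk ρ → ∀ θ, ∀ s ∈ (sys (range m) ρ).Nd θ, dec m (enc m s) = s) ∧
  ∀ (α : Type) [Enc α] (m : α → ℕ), UN m → ∃ B : α → ℕ, Bd sz B ∧ ∀ a s, sz (enc (m a) s) ≤ B a

open Classical in
/-- the list of the code is the list of the darts -/
def St_SIM : Prop := ∀ m ρ, IsRk ρ → ∀ (L : ℕ) (θ a : Ix → ℕ),
  (sys (range m) ρ).Gen (fun c => θ c) → ∀ s ∈ (sys (range m) ρ).Nd (fun c => θ c),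
    (∀ p ∈ dsC m ρ L θ a s, dec m p.2 ∈ (sys (range m) ρ).Nd fun c => θ c) ∧
    ∀ D : Finset (Key × Ix), (∀ d, d ∈ D ↔ d ∈ (sys (range m) ρ).Db (fun c => θ c) 0 ∧
      (sys (range m) ρ).key d.1.1 d.1.2 = s) → ∀ φ : Key → ℝ,
      ((dsC m ρ L θ a s).map fun p => (p.1 : ℝ) * φ (dec m p.2)).sum =
        ∑ d ∈ D, (((if d.2 ∈ (sys (range m) ρ).Kw then 1 else a d.2) *
          (⌊(L : ℝ) / (sys (range m) ρ).len (fun c => θ c) d.1.1 d.1.2 d.2⌋₊ + 1) : ℕ) : ℝ) *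
          φ ((sys (range m) ρ).key d.1.1 ((sys (range m) ρ).nxt (fun c => θ c) d.1.1 d.1.2 d.2))

/-! ### Polynomial time -/

/-- a finite set listed in polynomial time -/
def PF {α β : Type} [Enc α] [Enc β] [DecidableEq β] (A : α → Finset β) : Prop :=
  ∃ l : α → List β, PT l ∧ ∀ a, (l a).toFinset = A a

/-- a cone given in polynomial time -/
def PC {α : Type} [Enc α] (σ : α → Cone) : Prop := PF fun p : α × Ix => σ p.1 p.2

/-- a function of finite sets computed in polynomial time, in unary -/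
def PR {α : Type} [Enc α] (ρ : α → Finset ℕ → ℕ) : Prop :=
  UN fun p : α × List ℕ => ρ p.1 p.2.toFinset

/-- a function of conditions computed in polynomial time -/
def PI {α : Type} [Enc α] (θ : α → Ix → ℕ) : Prop := PT fun p : α × Ix => θ p.1 p.2

def St_PZ : Prop := ∀ (α : Type) [Enc α] (m : α → ℕ) (σ : α → Cone), UN m → PC σ →
  (PT fun p : α × Ix => ends (σ p.1) p.2) ∧
    ∀ D : α → Finset Ix, PF D → PF fun a => ZZ (m a) (σ a) (D a)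

def St_PV : Prop := ∀ (α : Type) [Enc α] (m : α → ℕ) (ρ : α → Finset ℕ → ℕ) (σ : α → Cone)
  (T : α → Finset Ix) (c : α → Ix), UN m → PR ρ → PC σ → PF T → PT c →
    (PF fun a => cdN (m a) (ρ a) (σ a) (T a) (c a)) ∧ ∀ θ : α → Ix → ℕ, PI θ →
      (PF fun a => nxN (m a) (ρ a) (θ a) (σ a) (T a) (c a)) ∧
      PT fun a => lnN (m a) (ρ a) (θ a) (σ a) (T a) (c a)

def St_PS : Prop := ∀ (α : Type) [Enc α] (m : α → ℕ) (ρ : α → Finset ℕ → ℕ) (L : α → ℕ)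
  (v : α → Code), UN m → PR ρ → PT L → PT v →
    (PT fun z => wC (m z) (ρ z) (L z) (dec (m z) (v z))) ∧
    (UN fun z => cnt (m z) (dec (m z) (v z))) ∧ ∀ θ a : α → Ix → ℕ, PI θ → PI a →
      PT fun z => dsC (m z) (ρ z) (L z) (θ z) (a z) (dec (m z) (v z))

def St_PTOP : Prop := ∀ (α : Type) [Enc α] (m : α → ℕ) (ρ : α → Finset ℕ → ℕ) (θ : α → Ix → ℕ),
  UN m → PR ρ → PI θ → PT fun a => enc (m a) (top (m a) (ρ a) (θ a))

/-! ### Parameters; `P = 2 ^ w` -/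

def ix (c : Ix) : ℕ := 4 * c.2 + min c.1 3

/-- the number of stages -/
def NN (w : ℕ) : ℕ := 8 * w * 2 ^ (8 * w)

/-- the number of bits of a threshold -/
def KK (w : ℕ) : ℕ := 8 * w * NN w

/-- the cost of the constraints of kind `0` at stage `t` -/
def a0 (c w m t : ℕ) : ℕ :=
  2 * (2 * m + 2) ^ 3 * (c * ((2 ^ (8 * w) + 1) ^ min (NN w) t * (2 ^ (8 * w)) ^ (NN w - t)))

/-- the costs at stage `t` -/
def aa (c0 c1 c2 w m t : ℕ) (c : Ix) : ℕ :=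
  if c.1 = 0 then a0 c0 w m t else if c.1 = 1 then a0 c1 w m (NN w) else a0 c2 w m (NN w)

/-- the partition function -/
def Zq (m : ℕ) (ρ : Finset ℕ → ℕ) (A0 A1 A2 : ℚ) : ℚ :=
  A2⁻¹ ^ m * A1⁻¹ ^ ρ (range m) * (A0⁻¹ + A1⁻¹) ^ (m - ρ (range m)) *
    FL.H5.tut (range m) ρ (A2 / A0) (A1 / (A0 + A1))

def Zt (c0 c1 c2 w m : ℕ) (ρ : Finset ℕ → ℕ) (t : ℕ) : ℚ :=
  Zq m ρ (a0 c0 w m t) (a0 c1 w m (NN w)) (a0 c2 w m (NN w))

/-- the estimator of the ratio of the last and the first partition function -/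
noncomputable def run (c0 c1 c2 w m : ℕ) (ρ : Finset ℕ → ℕ) (x : List Bool) : ℕ × ℕ :=
  est (KK w * (4 * m)) (2 ^ (12 * w)) (2 ^ (160 * w)) (NN w) id
    (fun y t => stepL Prod.snd Prod.fst (fun v => wC m ρ (2 ^ (2 * w + KK w)) (dec m v))
      fun v => dsC m ρ (2 ^ (2 * w + KK w) * 2 ^ (20 * w)) (env (KK w) ix y)
        (aa c0 c1 c2 w m t) (dec m v))
    (fun y => enc m (top m ρ (env (KK w) ix y)))
    (fun _ _ v => (2 ^ (8 * w)) ^ cnt m (dec m v)) (fun _ _ v => (2 ^ (8 * w) + 1) ^ cnt m (dec m v)) x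

def bits (w m : ℕ) : ℕ := (KK w * (4 * m) + 2 ^ (12 * w) * 2 ^ (160 * w) * NN w) * NN w

/-- the numerical inequalities about the costs -/
def St_PAR : Prop := ∀ w m : ℕ, m + 1024 ≤ 2 ^ w →
  (∀ c t, 0 < c → c ≤ 2 ^ w → a0 1 w m 0 ≤ a0 c w m t ∧ a0 c w m t ≤ a0 (2 ^ w) w m (NN w)) ∧
  a0 1 w m 0 = 2 * (2 * m + 2) ^ 3 * 2 ^ KK w ∧
  (∀ c t, t < NN w → a0 c w m (t + 1) * 2 ^ (8 * w) = a0 c w m t * (2 ^ (8 * w) + 1)) ∧
  (∀ c0 c1, c0 ≤ 2 ^ w → 0 < c1 → a0 c0 w m 0 * (2 ^ w) ^ 7 ≤ a0 c1 w m (NN w)) ∧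
  2 ^ (2 * w + KK w) + ((2 * m + 2) ^ 3) ^ 2 * a0 (2 ^ w) w m (NN w) *
    (2 ^ (2 * w + KK w) * 2 ^ (20 * w) + 1) < 2 ^ 2 ^ (12 * w) ∧
  3 * m * 2 ^ KK w ≤ 2 ^ (2 * w + KK w) ∧ 4 ^ (3 * m) < 2 ^ KK w ∧
  ∀ n ≤ m, |(((2 ^ (8 * w)) ^ n : ℕ) : ℝ) / ((2 ^ (8 * w) + 1) ^ n : ℕ) - 1| ≤ 1 / (2 ^ w) ^ 7

/-- the numerical inequalities about the error -/
def St_PAR2 : Prop := ∀ w m k : ℕ, m + k + 1024 ≤ 2 ^ w → 0 < k →
  (∀ n ≤ 3 * m, (4 : ℝ) ^ n / 2 ^ KK w + (NN w + 1) * ((2 ^ (20 * w) : ℕ) *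
    (2 + 4 * (2 ^ (20 * w) : ℕ) * (n * (20 * ((2 * m + 2 : ℝ) ^ 3) ^ 12 * (KK w + 1) *
      a0 (2 ^ w) w m (NN w) * ((a0 (2 ^ w) w m (NN w) : ℝ) / a0 1 w m 0) / 2 ^ KK w))) /
        (2 ^ (160 * w) : ℕ)) + 2 / (2 ^ w) ^ 6 + 16 * NN w / (2 ^ (20 * w) : ℕ) ≤ 4 / (2 ^ w) ^ 6) ∧
  2 * ((NN w : ℝ) * (16 * (1 / (2 ^ w) ^ 7) ^ 2 + 12 * (1 / (2 ^ w) ^ 7) * (4 / (2 ^ w) ^ 6))) ≤
    1 / (4 * (2 * k : ℕ) ^ 2) ∧
  2 / (2 ^ w : ℝ) ^ 6 ≤ 1 / (8 * k) ∧ 1 / (2 ^ w : ℝ) ^ 7 ≤ 1 / 20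

/-- the first partition function is close to the weight of the starting terminal -/
def St_Z0 : Prop := ∀ (c0 c1 c2 w m : ℕ) (ρ : Finset ℕ → ℕ), IsRk ρ → 0 < c0 → 0 < c1 → 0 < c2 →
  m + c0 + c1 + c2 + 1024 ≤ 2 ^ w →
    (∀ t, 0 < Zt c0 c1 c2 w m ρ t) ∧ ∀ z : ℚ, z = (a0 c0 w m 0 : ℚ)⁻¹ ^ m *
      (a0 c1 w m (NN w) : ℚ)⁻¹ ^ ρ (range m) * (a0 c2 w m (NN w) : ℚ)⁻¹ ^ (m - ρ (range m)) →
      z ≤ Zt c0 c1 c2 w m ρ 0 ∧ (1 - 2 / (2 ^ w) ^ 6) * Zt c0 c1 c2 w m ρ 0 ≤ z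

/-- the mean square error of the estimator -/
def St_RUN : Prop := ∀ (c0 c1 c2 w m k : ℕ) (ρ : Finset ℕ → ℕ),
  IsRk ρ → 0 < c0 → 0 < c1 → 0 < c2 → m + k + c0 + c1 + c2 + 1024 ≤ 2 ^ w → 0 < k →
  ∀ l, bits w m ≤ l → Ex l (fun x => (((run c0 c1 c2 w m ρ x).1 : ℝ) / (run c0 c1 c2 w m ρ x).2 -
        ((Zt c0 c1 c2 w m ρ (NN w) / Zt c0 c1 c2 w m ρ 0 : ℚ) : ℝ)) ^ 2) ≤
    ((Zt c0 c1 c2 w m ρ (NN w) / Zt c0 c1 c2 w m ρ 0 : ℚ) : ℝ) ^ 2 / (4 * (2 * k : ℕ) ^ 2)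

/-- the estimator runs in polynomial time and has a positive denominator -/
def St_PRUN : Prop := ∀ c0 c1 c2 : ℕ, (∀ w m ρ x, 0 < (run c0 c1 c2 w m ρ x).2) ∧
  ∀ (α : Type) [Enc α] (w m : α → ℕ) (ρ : α → Finset ℕ → ℕ), (UN fun a => 2 ^ w a) → UN m → PR ρ →
    (PT fun p : α × List Bool => run c0 c1 c2 (w p.1) (m p.1) (ρ p.1) p.2) ∧
    (UN fun a => bits (w a) (m a)) ∧ (∀ c, PT fun a => a0 c (w a) (m a) 0) ∧
    ∀ c, PT fun a => a0 c (w a) (m a) (NN (w a))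

end Pool.Agent.Lib.US.A80
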