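import Pool.Agent.Lib.US.Edge79
import Pool.Agent.Lib.FL.B_EST
import Pool.Agent.Lib.FL.B_GAP
import Pool.Agent.Lib.FL.B_MIX
import Pool.Agent.Lib.FL.B_PT
import Pool.Agent.Lib.FL.B_STEP
import Pool.Agent.Lib.FL.B_Z
import Pool.Agent.Lib.GJ.Q10
import Pool.Agent.Lib.GJ.Top83
import Pool.Agent.Lib.GJ.Alg79

/-! The whole region `0 ≤ x`, `0 ≤ y`, `(x - 1) (y - 1) ≤ 2` from the open unit square. -/

namespace Pool.Agent.Lib.US.H79

open Pool.Agent.Lib Pool.Agent.Lib.MP_b67cc8_lc FL A80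

theorem fpr_all (S : St_US) {x y : ℚ} (hx : 0 ≤ x) (hy : 0 ≤ y) (h2 : (x - 1) * (y - 1) ≤ 2)
    {r : ℕ → List (ℕ × ℕ) → ℕ} (hr : ∀ n A, (∀ e ∈ A, e.1 < n ∧ e.2 < n) → r n A = rk id A) :
    FL.H79.FPR fun n E => (E.sublists.map fun A =>
      (x - 1) ^ (r n E - r n A) * (y - 1) ^ (A.length - r n A)).sum := by
  rcases lt_or_ge (max x y) 1 with h1 | h1
  · exact fpr_sq S hx (max_lt_iff.1 h1).1 hy (max_lt_iff.1 h1).2 hr
  have H := st_ORC (st_EST st_Z st_CH64 (st_MIX st_GAP st_Z st_CH64 st_STEP)) st_PT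
  rcases lt_or_ge (min x y) 1 with h | h
  · exact FL.H79.fpr_strips H (le_min hx hy) h h1 hr
  obtain ⟨a, b⟩ := le_min_iff.1 h
  rcases le_total ((x - 1) * (y - 1)) 1 with q | q
  · exact GJ.Q10.fpr_q1 H a b q hr
  · refine GJ.fpr_two GJ.H79.st_ALG (lt_of_le_of_ne a ?_) (lt_of_le_of_ne b ?_) q h2 hr
    · rintro rfl
      norm_num at q
    · rintro rfl
      norm_num at q

end Pool.Agent.Lib.US.H79
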