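import Pool.Agent.Lib.US.Tick72
import Pool.Agent.Lib.FL.B_EST

/-! Annealing with a fresh random environment for every sample. -/

namespace Pool.Agent.US.Tick72

open Finset Pool.Agent.Lib.MP_b67cc8_lc Pool.Agent.FL.Mix28

theorem Ex_abs_le {n : ℕ} {f g : List Bool → ℝ} (h : ∀ r, r.length = n → |f r| ≤ g r) :
    |Ex n f| ≤ Ex n g := by
  refine abs_le.2 ⟨?_, Ex_mono fun r hr => (abs_le.1 (h r hr)).2⟩
  have := Ex_mono (n := n) (f := fun r => -1 * g r) (g := f) fun r hr => by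
    linarith [(abs_le.1 (h r hr)).1]
  rw [Ex_mul] at this
  linarith

theorem Ex_sub_const (n : ℕ) (f : List Bool → ℝ) (c : ℝ) :
    Ex n (fun r => f r - c) = Ex n f - c := by
  simp only [sub_eq_add_neg, Ex_add, Ex_const]

/-- two close weightings give close means -/
theorem mean_close {σ : Type} (Ω : Finset σ) (W Wi f : σ → ℝ) {c κ : ℝ} (κ0 : 0 ≤ κ)
    (κ1 : κ ≤ 1 / 2) (hi : ∀ v ∈ Ω, 0 ≤ Wi v) (h : ∀ v ∈ Ω, |c * W v - Wi v| ≤ κ * Wi v)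
    (Z0 : 0 < ∑ v ∈ Ω, Wi v) (W0 : 0 < ∑ v ∈ Ω, W v) (f0 : ∀ v ∈ Ω, 0 ≤ f v)
    (f1 : ∀ v ∈ Ω, f v ≤ 1) :
    |(∑ v ∈ Ω, W v * f v) / (∑ v ∈ Ω, W v) - (∑ v ∈ Ω, Wi v * f v) / ∑ v ∈ Ω, Wi v| ≤ 2 * κ := by
  set m := (∑ v ∈ Ω, Wi v * f v) / ∑ v ∈ Ω, Wi v with hm
  have m0 : 0 ≤ m := div_nonneg (sum_nonneg fun v hv => mul_nonneg (hi v hv) (f0 v hv)) Z0.le
  have m1 : m ≤ 1 := (div_le_one Z0).2 (sum_le_sum fun v hv => by nlinarith [hi v hv, f1 v hv])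
  have hZ : (1 - κ) * ∑ v ∈ Ω, Wi v ≤ c * ∑ v ∈ Ω, W v := by
    rw [mul_sum, mul_sum]
    exact sum_le_sum fun v hv => by linarith [(abs_le.1 (h v hv)).1]
  have c0 : 0 < c := by
    by_contra hc
    nlinarith [mul_nonneg (neg_nonneg.2 (not_lt.1 hc)) W0.le]
  have e : (∑ v ∈ Ω, W v * f v) / (∑ v ∈ Ω, W v) - m =
      (∑ v ∈ Ω, (c * W v - Wi v) * (f v - m)) / (c * ∑ v ∈ Ω, W v) := by
    have e1 : ∑ v ∈ Ω, (c * W v - Wi v) * (f v - m) = c * ∑ v ∈ Ω, W v * f v -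
        m * (c * ∑ v ∈ Ω, W v) - (∑ v ∈ Ω, Wi v * f v - m * ∑ v ∈ Ω, Wi v) := by
      simp only [mul_sum, ← sum_sub_distrib]
      exact sum_congr rfl fun v _ => by ring
    rw [e1, hm, div_mul_cancel₀ _ Z0.ne']
    field_simp
    ring
  rw [e, abs_div, abs_of_pos (mul_pos c0 W0), div_le_iff₀ (mul_pos c0 W0)]
  have a : |∑ v ∈ Ω, (c * W v - Wi v) * (f v - m)| ≤ κ * ∑ v ∈ Ω, Wi v := by
    rw [mul_sum]
    refine (abs_sum_le_sum_abs _ _).trans (sum_le_sum fun v hv => ?_)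
    rw [abs_mul]
    have : |f v - m| ≤ 1 := abs_le.2 ⟨by linarith [f0 v hv], by linarith [f1 v hv]⟩
    nlinarith [h v hv, abs_nonneg (c * W v - Wi v), abs_nonneg (f v - m)]
  nlinarith [mul_le_mul_of_nonneg_left hZ κ0, mul_nonneg κ0 Z0.le,
    mul_nonneg (mul_nonneg κ0 Z0.le) (sub_nonneg.2 κ1)]

open Classical in
/-- The environment `θ = dec (first a bits)` is fresh for each sample; for generic `θ` the sample
`j` is the ideal weight ratio at the end of a trajectory through the stages `1, ..., j`. -/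
theorem ann0 {Θ σ δ : Type} [DecidableEq σ] {a b T N R : ℕ} (hR : (a + b * T * N) * N ≤ R)
    (dec : List Bool → Θ) (Gen : Θ → Prop) (Ω : Θ → Finset σ) (D : Θ → Finset δ)
    (tl hd : Θ → δ → σ) (rv : Θ → δ → δ) (C : Θ → ℕ → δ → ℝ) (W B Wi g : Θ → ℕ → σ → ℝ)
    (st : Θ → ℕ → σ → List Bool → σ × Bool) (s₀ : Θ → σ) (Zi c : ℕ → ℝ)
    (u v : ℕ → List Bool → ℕ) {ε δ₀ κ η β M : ℝ} (ε0 : 0 < ε) (T0 : 0 < T) (κ0 : 0 ≤ κ)
    (κ1 : κ ≤ 1 / 20) (η0 : 0 < η) (η1 : η ≤ 1 / 20) (δ0 : 0 ≤ δ₀) (β0 : 0 ≤ β) (M0 : 0 ≤ M)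
    (Z0 : ∀ t ≤ N, 0 < Zi t) (c0 : ∀ t ≤ N, 0 < c t)
    (hN : ∀ θ, Gen θ → ∀ t ≤ N, Net (Ω θ) (D θ) (tl θ) (hd θ) (rv θ) (C θ t) (W θ t) (B θ t))
    (hL : ∀ θ, Gen θ → ∀ t ≤ N, Law (Ω θ) (D θ) (tl θ) (hd θ) (C θ t) (W θ t) (B θ t) b (st θ t))
    (hc : ∀ θ, Gen θ → ∀ t, ∀ s ∈ Ω θ, ∀ x, (st θ t s x).1 ∈ Ω θ)
    (hP : ∀ θ, Gen θ → ∀ t ≤ N, ∀ f : σ → ℝ, ∃ m, ∑ s ∈ Ω θ, W θ t s * (f s - m) ^ 2 ≤
      ε * ((∑ d ∈ D θ, C θ t d * (f (hd θ d) - f (tl θ d)) ^ 2) / 2))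
    (hi : ∀ θ, Gen θ → ∀ t ≤ N, ∀ s ∈ Ω θ, 0 ≤ Wi θ t s)
    (hZ : ∀ θ, Gen θ → ∀ t ≤ N, ∑ s ∈ Ω θ, Wi θ t s = Zi t)
    (hW : ∀ θ, Gen θ → ∀ t ≤ N, ∀ s ∈ Ω θ, |c t * W θ t s - Wi θ t s| ≤ κ * Wi θ t s)
    (hg : ∀ θ, Gen θ → ∀ t < N, ∀ s ∈ Ω θ, Wi θ (t + 1) s = Wi θ t s * g θ t s)
    (hg1 : ∀ θ, Gen θ → ∀ t < N, ∀ s ∈ Ω θ, |g θ t s - 1| ≤ η)
    (hs : ∀ θ, Gen θ → s₀ θ ∈ Ω θ ∧ (1 - δ₀) * Zi 0 ≤ Wi θ 0 (s₀ θ))
    (hβ : Ex a (fun x => if Gen (dec x) then 0 else 1) ≤ β)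
    (hM : ∀ t ≤ N, Ex a (fun x => if Gen (dec x) then c t * ∑ s ∈ Ω (dec x), B (dec x) t s else 0)
      ≤ M * Zi t)
    (hu : ∀ j < N, ∀ x, |(u j x : ℝ) / v j x - 1| ≤ η)
    (huv : ∀ j < N, ∀ x : List Bool, x.length = a → Gen (dec x) →
      Ex (b * T * N) (fun y => (u j (x ++ y) : ℝ) / v j (x ++ y)) =
        Ex (b * T * N) fun y => g (dec x) j (traj b (st (dec x)) T (s₀ (dec x)) j y))
    (hν : ∀ j < N, |Zi (j + 1) / Zi j - 1| ≤ η)
    (q1 : (N : ℝ) * ((4 * η) ^ 2 +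
      3 * (4 * η * (β + (N + 1) * (2 * M / (ε * T)) + δ₀ + 4 * κ + 8 * ε * N))) ≤ 1 / 8) :
    Ex R (fun r => (((rit (a + b * T * N) (pst u v) N (0, 1, 1) r).2.1 : ℝ) /
        (rit (a + b * T * N) (pst u v) N (0, 1, 1) r).2.2 - Zi N / Zi 0) ^ 2) ≤
      2 * (N * ((4 * η) ^ 2 +
        3 * (4 * η * (β + (N + 1) * (2 * M / (ε * T)) + δ₀ + 4 * κ + 8 * ε * N)))) *
        (Zi N / Zi 0) ^ 2 := by
  have hT : (0 : ℝ) < ε * T := mul_pos ε0 (by exact_mod_cast T0)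
  have hprod : ∀ n ≤ N, ∏ j ∈ range n, Zi (j + 1) / Zi j = Zi n / Zi 0 := by
    intro n
    induction n with
    | zero => intro h; simp [(Z0 0 h).ne']
    | succ n ih =>
      intro h
      rw [prod_range_succ, ih (by omega)]
      have := (Z0 n (by omega)).ne'
      have := (Z0 0 (by omega)).ne'
      field_simp
  rw [← hprod N le_rfl]
  set τ := δ₀ + 4 * κ + 8 * ε * N with hτ
  have τ0 : 0 ≤ τ := by positivity
  have hν2 : ∀ j < N, 1 / 2 ≤ Zi (j + 1) / Zi j := fun j hj => by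
    linarith [(abs_le.1 (hν j hj)).1]
  have h2 : ∀ j < N, ∀ x, |(u j x : ℝ) / v j x - Zi (j + 1) / Zi j| ≤ 2 * η := fun j hj x => by
    have a1 := abs_le.1 (hu j hj x)
    have a2 := abs_le.1 (hν j hj)
    exact abs_le.2 ⟨by linarith, by linarith⟩
  let Good : Θ → Prop := fun θ => Gen θ ∧ ∀ t ≤ N, c t * ∑ s ∈ Ω θ, B θ t s ≤ ε * T * Zi t / 2
  have hbad : Ex a (fun x => if Good (dec x) then 0 else 1) ≤
      β + (N + 1) * (2 * M / (ε * T)) := by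
    have p : ∀ x : List Bool, x.length = a → (if Good (dec x) then (0 : ℝ) else 1) ≤
        (if Gen (dec x) then 0 else 1) + ∑ t ∈ range (N + 1), 2 / (ε * T * Zi t) *
          (if Gen (dec x) then c t * ∑ s ∈ Ω (dec x), B (dec x) t s else 0) := fun x _ => by
      have nn : ∀ t ∈ range (N + 1), 0 ≤ 2 / (ε * T * Zi t) *
          (if Gen (dec x) then c t * ∑ s ∈ Ω (dec x), B (dec x) t s else 0) := fun t ht => by
        have ht' : t ≤ N := Nat.lt_succ_iff.1 (mem_range.1 ht)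
        have := Z0 t ht'
        refine mul_nonneg (by positivity) ?_
        split_ifs with h
        · exact mul_nonneg (c0 t ht').le
            (sum_nonneg fun s hs => ((hN _ h t ht').B_pos s hs).le)
        · exact le_rfl
      have n2 := sum_nonneg nn
      by_cases hG : Gen (dec x)
      · by_cases hG2 : Good (dec x)
        · rw [if_pos hG2, if_pos hG]; linarith
        · obtain ⟨t, ht, hlt⟩ : ∃ t ≤ N,
              ε * T * Zi t / 2 < c t * ∑ s ∈ Ω (dec x), B (dec x) t s := by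
            by_contra hn
            exact hG2 ⟨hG, fun t ht => not_lt.1 fun h => hn ⟨t, ht, h⟩⟩
          have := single_le_sum nn (mem_range.2 (Nat.lt_succ_of_le ht))
          rw [if_neg hG2, if_pos hG, zero_add]
          refine le_trans ?_ this
          rw [if_pos hG, div_mul_eq_mul_div, le_div_iff₀ (mul_pos hT (Z0 t ht))]
          linarith
      · rw [if_neg fun h : Good (dec x) => hG h.1, if_neg hG]; linarith
    refine (Ex_mono p).trans ?_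
    rw [Ex_add, Ex_finsum]
    refine add_le_add hβ ?_
    refine (sum_le_sum (g := fun _ => 2 * M / (ε * T)) fun t ht => ?_).trans (by simp)
    have ht' : t ≤ N := Nat.lt_succ_iff.1 (mem_range.1 ht)
    have z := Z0 t ht'
    rw [Ex_mul]
    refine (mul_le_mul_of_nonneg_left (hM t ht') (by positivity)).trans (le_of_eq ?_)
    field_simp
  have hgood : ∀ θ, Good θ → ∀ j < N,
      |Ex (b * T * N) (fun y => g θ j (traj b (st θ) T (s₀ θ) j y)) - Zi (j + 1) / Zi j| ≤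
        2 * η * τ := fun θ hθ j hj => by
    have G := hθ.1
    have lo : ∀ t ≤ N, (1 - κ) * Zi t ≤ c t * ∑ s ∈ Ω θ, W θ t s := fun t ht => by
      rw [← hZ θ G t ht, mul_sum, mul_sum]
      exact sum_le_sum fun s hs => by linarith [(abs_le.1 (hW θ G t ht s hs)).1]
    have up : ∀ t ≤ N, c t * ∑ s ∈ Ω θ, W θ t s ≤ (1 + κ) * Zi t := fun t ht => by
      rw [← hZ θ G t ht, mul_sum, mul_sum]
      exact sum_le_sum fun s hs => by linarith [(abs_le.1 (hW θ G t ht s hs)).2]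
    have W0 : ∀ t ≤ N, 0 < ∑ s ∈ Ω θ, W θ t s := fun t ht => by
      have := lo t ht
      have z := Z0 t ht
      exact (mul_pos_iff_of_pos_left (c0 t ht)).1 (by nlinarith)
    have key := traj_tv (δ₀ := δ₀ + 2 * κ) (s₀ := s₀ θ) ε0 (le_refl (b * T * N)) (hN θ G) (hL θ G)
      (hc θ G) W0 (hP θ G)
      (fun t ht => by
        refine le_of_mul_le_mul_left ((hθ.2 t ht).trans ?_) (c0 t ht)
        have := mul_le_mul_of_nonneg_left (lo t ht) hT.le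
        have z := mul_pos hT (Z0 t ht)
        nlinarith)
      (fun t ht s hs => by
        have a1 := (abs_le.1 (hW θ G t ht.le s hs)).2
        have a2 := (abs_le.1 (hW θ G (t + 1) ht s hs)).1
        have a3 := lo t ht.le
        have a4 := up (t + 1) ht
        have a5 := (abs_le.1 (hg1 θ G t ht s hs)).1
        have a6 := (abs_le.1 (hν t ht)).2
        have z := Z0 t ht.le
        have i0 := hi θ G t ht.le s hs
        rw [sub_le_iff_le_add, div_le_iff₀ z] at a6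
        rw [hg θ G t ht s hs] at a2
        have b1 : c t * W θ t s ≤ 21 / 20 * Wi θ t s := by nlinarith
        have b2 : 9 / 10 * Wi θ t s ≤ c (t + 1) * W θ (t + 1) s := by
          have : 19 / 20 * Wi θ t s ≤ Wi θ t s * g θ t s := by nlinarith
          nlinarith
        have b3 : 19 / 20 * Zi t ≤ c t * ∑ s ∈ Ω θ, W θ t s := by nlinarith
        have b4 : c (t + 1) * ∑ s ∈ Ω θ, W θ (t + 1) s ≤ 6 / 5 * Zi t := by
          have := Z0 (t + 1) ht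
          nlinarith
        refine le_of_mul_le_mul_left ?_ (mul_pos (c0 t ht.le) (c0 (t + 1) ht))
        have d1 := mul_le_mul b1 b4 (mul_pos (c0 _ ht) (W0 _ ht)).le (by positivity)
        have d2 := mul_le_mul b2 b3 (by positivity) (le_trans (by positivity) b2)
        nlinarith [mul_nonneg i0 z.le])
      (hs θ G).1
      (by
        refine le_of_mul_le_mul_left ?_ (c0 0 (Nat.zero_le _))
        have a1 := (abs_le.1 (hW θ G 0 (Nat.zero_le _) _ (hs θ G).1)).1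
        have a2 := up 0 (Nat.zero_le _)
        have a3 := (hs θ G).2
        have z := Z0 0 (Nat.zero_le _)
        have w := mul_pos (c0 0 (Nat.zero_le _)) (W0 0 (Nat.zero_le _))
        have w1 := mul_nonneg (c0 0 (Nat.zero_le _)).le
          ((hN θ G 0 (Nat.zero_le _)).W_nn _ (hs θ G).1)
        rcases le_total (1 - (δ₀ + 2 * κ)) 0 with h | h
        · nlinarith
        · have b1 := mul_le_mul_of_nonneg_left a2 h
          have b2 := mul_le_mul_of_nonneg_left a3 (show 0 ≤ 1 - κ by linarith)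
          nlinarith [mul_nonneg (mul_nonneg κ0 δ0) z.le, mul_nonneg (mul_nonneg κ0 κ0) z.le])
      hj.le (fun s => (g θ j s - (1 - η)) / (2 * η))
      (fun s hs => div_nonneg (by linarith [(abs_le.1 (hg1 θ G j hj s hs)).1]) (by positivity))
      (fun s hs => (div_le_one (by positivity)).2
        (by linarith [(abs_le.1 (hg1 θ G j hj s hs)).2]))
    have cl := mean_close (Ω θ) (W θ j) (Wi θ j) (fun s => (g θ j s - (1 - η)) / (2 * η)) κ0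
      (by linarith) (hi θ G j hj.le) (hW θ G j hj.le) (by rw [hZ θ G j hj.le]; exact Z0 j hj.le)
      (W0 j hj.le)
      (fun s hs => div_nonneg (by linarith [(abs_le.1 (hg1 θ G j hj s hs)).1]) (by positivity))
      (fun s hs => (div_le_one (by positivity)).2
        (by linarith [(abs_le.1 (hg1 θ G j hj s hs)).2]))
    have e1 : (∑ s ∈ Ω θ, Wi θ j s * ((g θ j s - (1 - η)) / (2 * η))) / ∑ s ∈ Ω θ, Wi θ j s =
        (Zi (j + 1) / Zi j - (1 - η)) / (2 * η) := by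
      have : ∑ s ∈ Ω θ, Wi θ j s * ((g θ j s - (1 - η)) / (2 * η)) =
          (Zi (j + 1) - (1 - η) * Zi j) / (2 * η) := by
        rw [← hZ θ G j hj.le, ← hZ θ G (j + 1) hj, mul_sum, ← sum_sub_distrib, sum_div]
        exact sum_congr rfl fun s hs => by rw [hg θ G j hj s hs]; ring
      rw [this, hZ θ G j hj.le]
      have := (Z0 j hj.le).ne'
      field_simp
    have e2 : Ex (b * T * N) (fun y => (g θ j (traj b (st θ) T (s₀ θ) j y) - (1 - η)) / (2 * η)) =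
        (Ex (b * T * N) (fun y => g θ j (traj b (st θ) T (s₀ θ) j y)) - (1 - η)) / (2 * η) := by
      rw [← Ex_sub_const, div_eq_inv_mul, ← Ex_mul]
      exact Ex_congr fun r _ => div_eq_inv_mul _ _
    rw [e2] at key
    rw [e1] at cl
    have e3 := (abs_sub_le _ _ _).trans (add_le_add key cl)
    rw [← sub_div, abs_div, abs_of_pos (by positivity : 0 < 2 * η),
      div_le_iff₀ (by positivity : 0 < 2 * η), sub_sub_sub_cancel_right] at e3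
    refine e3.trans ?_
    have : (j : ℝ) ≤ N := by exact_mod_cast hj.le
    rw [mul_comm, hτ]
    refine mul_le_mul_of_nonneg_left ?_ (by positivity)
    nlinarith
  have e : β + (N + 1) * (2 * M / (ε * T)) + δ₀ + 4 * κ + 8 * ε * N =
      β + (N + 1) * (2 * M / (ε * T)) + τ := by rw [hτ]; ring
  rw [e] at q1 ⊢
  refine Pool.Agent.Lib.FL.A80.EST.ms hR u v _ (by positivity)
    (fun j hj => by linarith [hν2 j hj]) (fun j hj => ?_)
    (fun j hj x => (h2 j hj x).trans (by nlinarith [hν2 j hj])) q1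
  rw [← Ex_sub_const, Ex_append]
  refine (Ex_abs_le (g := fun x => 2 * η * ((if Good (dec x) then 0 else 1) + τ))
    fun x hx => ?_).trans ?_
  · split_ifs with h
    · rw [Ex_sub_const, zero_add, huv j hj x hx h.1]
      exact hgood _ h j hj
    · refine (Ex_abs_le (g := fun _ => 2 * η) fun y _ => h2 j hj _).trans ?_
      rw [Ex_const]
      nlinarith
  · rw [Ex_mul, Ex_add, Ex_const]
    have p : 0 ≤ β + (N + 1) * (2 * M / (ε * T)) + τ := by positivity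
    have := mul_le_mul_of_nonneg_left (hν2 j hj) (mul_nonneg η0.le p)
    nlinarith

open Classical in
/-- the pointwise form -/
theorem ann {Θ σ δ : Type} [DecidableEq σ] {a b T N R : ℕ} (hR : (a + b * T * N) * N ≤ R)
    (dec : List Bool → Θ) (Gen : Θ → Prop) (Ω : Θ → Finset σ) (D : Θ → Finset δ)
    (tl hd : Θ → δ → σ) (rv : Θ → δ → δ) (C : Θ → ℕ → δ → ℝ) (W B Wi g : Θ → ℕ → σ → ℝ)
    (st : Θ → ℕ → σ → List Bool → σ × Bool) (s₀ : Θ → σ) (Zi c : ℕ → ℝ)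
    (u v : ℕ → List Bool → ℕ) {ε δ₀ κ η β M : ℝ} (ε0 : 0 < ε) (T0 : 0 < T) (κ0 : 0 ≤ κ)
    (κ1 : κ ≤ 1 / 20) (η0 : 0 < η) (η1 : η ≤ 1 / 20) (δ0 : 0 ≤ δ₀) (β0 : 0 ≤ β) (M0 : 0 ≤ M)
    (Z0 : ∀ t ≤ N, 0 < Zi t) (c0 : ∀ t ≤ N, 0 < c t)
    (hN : ∀ θ, Gen θ → ∀ t ≤ N, Net (Ω θ) (D θ) (tl θ) (hd θ) (rv θ) (C θ t) (W θ t) (B θ t))
    (hL : ∀ θ, Gen θ → ∀ t ≤ N, Law (Ω θ) (D θ) (tl θ) (hd θ) (C θ t) (W θ t) (B θ t) b (st θ t))
    (hc : ∀ θ, Gen θ → ∀ t, ∀ s ∈ Ω θ, ∀ x, (st θ t s x).1 ∈ Ω θ)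
    (hP : ∀ θ, Gen θ → ∀ t ≤ N, ∀ f : σ → ℝ, ∃ m, ∑ s ∈ Ω θ, W θ t s * (f s - m) ^ 2 ≤
      ε * ((∑ d ∈ D θ, C θ t d * (f (hd θ d) - f (tl θ d)) ^ 2) / 2))
    (hi : ∀ θ, Gen θ → ∀ t ≤ N, ∀ s ∈ Ω θ, 0 ≤ Wi θ t s)
    (hZ : ∀ θ, Gen θ → ∀ t ≤ N, ∑ s ∈ Ω θ, Wi θ t s = Zi t)
    (hW : ∀ θ, Gen θ → ∀ t ≤ N, ∀ s ∈ Ω θ, |c t * W θ t s - Wi θ t s| ≤ κ * Wi θ t s)
    (hg : ∀ θ, Gen θ → ∀ t < N, ∀ s ∈ Ω θ, Wi θ (t + 1) s = Wi θ t s * g θ t s)
    (hg1 : ∀ θ, Gen θ → ∀ t < N, ∀ s ∈ Ω θ, |g θ t s - 1| ≤ η)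
    (hs : ∀ θ, Gen θ → s₀ θ ∈ Ω θ ∧ (1 - δ₀) * Zi 0 ≤ Wi θ 0 (s₀ θ))
    (hβ : Ex a (fun x => if Gen (dec x) then 0 else 1) ≤ β)
    (hM : ∀ t ≤ N, Ex a (fun x => if Gen (dec x) then c t * ∑ s ∈ Ω (dec x), B (dec x) t s else 0)
      ≤ M * Zi t)
    (hu : ∀ j < N, ∀ x, |(u j x : ℝ) / v j x - 1| ≤ η)
    (huv : ∀ j < N, ∀ x y : List Bool, x.length = a → y.length = b * T * N → Gen (dec x) →
      (u j (x ++ y) : ℝ) / v j (x ++ y) =
        g (dec x) j (traj b (st (dec x)) T (s₀ (dec x)) j y))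
    (hν : ∀ j < N, |Zi (j + 1) / Zi j - 1| ≤ η)
    (q1 : (N : ℝ) * ((4 * η) ^ 2 +
      3 * (4 * η * (β + (N + 1) * (2 * M / (ε * T)) + δ₀ + 4 * κ + 8 * ε * N))) ≤ 1 / 8) :
    Ex R (fun r => (((rit (a + b * T * N) (pst u v) N (0, 1, 1) r).2.1 : ℝ) /
        (rit (a + b * T * N) (pst u v) N (0, 1, 1) r).2.2 - Zi N / Zi 0) ^ 2) ≤
      2 * (N * ((4 * η) ^ 2 +
        3 * (4 * η * (β + (N + 1) * (2 * M / (ε * T)) + δ₀ + 4 * κ + 8 * ε * N)))) *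
        (Zi N / Zi 0) ^ 2 :=
  ann0 hR dec Gen Ω D tl hd rv C W B Wi g st s₀ Zi c u v ε0 T0 κ0 κ1 η0 η1 δ0 β0 M0 Z0 c0 hN hL hc
    hP hi hZ hW hg hg1 hs hβ hM hu
    (fun j hj x hx G => Ex_congr fun y hy => huv j hj x y hx hy G) hν q1

end Pool.Agent.US.Tick72
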