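import Pool.Agent.Lib.US.Blue

/-! The Bochner inequality. -/

namespace Pool.Agent.Lib.US

open Finset

namespace BOCH

section
variable {K : Type} [DecidableEq K]

/-- the weight of a set of constraints; it vanishes if one of them has cost zero -/
noncomputable def mw (γ : K → ℝ) (J : Finset K) : ℝ := ∏ k ∈ J, (γ k)⁻¹

omit [DecidableEq K] in
theorem mw_nonneg {γ : K → ℝ} {J : Finset K} (h : ∀ k ∈ J, 0 ≤ γ k) : 0 ≤ mw γ J :=
  prod_nonneg fun k hk => inv_nonneg.2 (h k hk)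

omit [DecidableEq K] in
theorem mw_zero {γ : K → ℝ} {J : Finset K} {k : K} (hk : k ∈ J) (h : γ k = 0) : mw γ J = 0 :=
  prod_eq_zero hk (by rw [h, inv_zero])

theorem mw_erase {γ : K → ℝ} {J : Finset K} {k : K} (hk : k ∈ J) (h : γ k ≠ 0) :
    mw γ (J.erase k) = γ k * mw γ J := by
  rw [mw, mw, ← mul_prod_erase J _ hk, ← mul_assoc, mul_inv_cancel₀ h, one_mul]

theorem sum_erase_comm (T : Finset K) (f : K → K → ℝ) :
    ∑ a ∈ T, ∑ b ∈ T.erase a, f a b = ∑ b ∈ T, ∑ a ∈ T.erase b, f a b :=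
  sum_comm' fun a b => by
    simp only [mem_erase]
    exact ⟨fun h => ⟨⟨h.2.1.symm, h.1⟩, h.2.2⟩, fun h => ⟨h.1.2, h.1.1.symm, h.2⟩⟩

open Classical in
/-- the terms of the Bochner identity that come from tight walls -/
noncomputable def rem (γ : K → ℝ) (T : Finset K) (s w : K → ℝ) : ℝ :=
  ∑ b ∈ T with γ b = 0, ∑ a ∈ T.erase b, mw γ ((T.erase b).erase a) *
    ((if γ a = 0 then 1 else 2) * (s a * s b) - w b / w a * s a ^ 2)

theorem corner_sum (γ : K → ℝ) (T : Finset K) (s w : K → ℝ) (hw : ∀ a ∈ T, w a ≠ 0) :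
    ∑ a ∈ T, ∑ b ∈ T.erase a, mw γ ((T.erase a).erase b) * (s a * s b - w b / w a * s a ^ 2) =
      mw γ T * (∑ a ∈ T, γ a * s a) ^ 2 -
        ∑ a ∈ T, mw γ (T.erase a) * s a ^ 2 * (∑ b ∈ T, γ b * w b) / w a + rem γ T s w := by
  classical
  have e1 : ∀ a ∈ T, ∀ b ∈ T.erase a,
      mw γ ((T.erase a).erase b) * (s a * s b - w b / w a * s a ^ 2) =
        mw γ T * (γ a * s a * (γ b * s b)) - mw γ (T.erase a) * s a ^ 2 * (γ b * w b) / w a +
        ((if γ b = 0 then mw γ ((T.erase a).erase b) * (s a * s b - w b / w a * s a ^ 2) else 0) +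
        if γ a = 0 then mw γ ((T.erase a).erase b) * ((if γ b = 0 then 0 else 1) * (s b * s a))
          else 0) := by
    intro a ha b hb
    by_cases h1 : γ b = 0
    · simp [h1]
    · rw [mw_erase hb h1]
      by_cases h2 : γ a = 0
      · simp only [h1, h2, if_true, if_false]
        ring
      · simp only [h1, h2, if_false, mw_erase ha h2]
        ring
  have e2 : ∀ a ∈ T, ∑ b ∈ T.erase a, (mw γ T * (γ a * s a * (γ b * s b)) -
      mw γ (T.erase a) * s a ^ 2 * (γ b * w b) / w a) =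
        mw γ T * (γ a * s a * ∑ b ∈ T, γ b * s b) -
          mw γ (T.erase a) * s a ^ 2 * (∑ b ∈ T, γ b * w b) / w a := by
    intro a ha
    have := hw a ha
    rw [sum_sub_distrib, ← mul_sum, ← mul_sum, ← sum_div, ← mul_sum,
      ← add_sum_erase T (fun b => γ b * s b) ha, ← add_sum_erase T (fun b => γ b * w b) ha]
    by_cases h2 : γ a = 0
    · simp [h2]
    · rw [mw_erase ha h2]
      field_simp
      ring
  rw [sum_congr rfl fun a ha => sum_congr rfl (e1 a ha)]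
  simp only [sum_add_distrib]
  rw [sum_congr rfl e2, sum_sub_distrib, ← mul_sum, ← sum_mul, ← sq, sum_erase_comm T, rem,
    sum_filter, ← sum_add_distrib]
  congr 1
  refine sum_congr rfl fun b _ => ?_
  split_ifs with h
  · rw [← sum_add_distrib]
    refine sum_congr rfl fun a _ => ?_
    rw [erase_right_comm]
    split_ifs <;> ring
  · simp

end

open Sys

variable {ι X V : Type} [DecidableEq ι] [AddCommGroup V] [Module ℝ V]
  {S : Sys ι X V} {θ b p : ι → ℝ}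

theorem mw_eq {J : Finset ι} (hJ : J ⊆ S.Cn) :
    mw (S.th b) J = if (J ∩ S.Kw).card = 0 then S.om b J else 0 := by
  split_ifs with h
  · have h1 : ∀ c ∈ J, c ∉ S.Kw := fun c hc hk =>
      notMem_empty c (card_eq_zero.1 h ▸ mem_inter.2 ⟨hc, hk⟩)
    rw [mw, om, inter_eq_left.2 fun c hc => (mem_Cn.1 (hJ hc)).resolve_left (h1 c hc)]
    exact prod_congr rfl fun c hc => by rw [th, if_neg (h1 c hc)]
  · obtain ⟨k, hk⟩ := card_pos.1 (Nat.pos_of_ne_zero h)
    exact mw_zero (mem_inter.1 hk).1 (if_pos (mem_inter.1 hk).2)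

theorem th_zero (hb : S.Cost θ b) {c : ι} (hc : c ∈ S.Cn) : S.th b c = 0 ↔ c ∈ S.Kw := by
  refine ⟨fun h => by_contra fun hk => ?_, fun h => if_pos h⟩
  rw [th, if_neg hk] at h
  exact (hb.1 c ((mem_Cn.1 hc).resolve_left hk)).ne' h

theorem th_nonneg (hb : S.Cost θ b) {c : ι} (hc : c ∈ S.Cn) : 0 ≤ S.th b c := by
  unfold th
  split_ifs with h
  · exact le_rfl
  · exact (hb.1 c ((mem_Cn.1 hc).resolve_left h)).le

theorem sum_th (hA : S.Ax) {T : Finset ι} (hT : T ⊆ S.Cn) (f : ι → ℝ) :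
    ∑ c ∈ T, S.th b c * f c = ∑ c ∈ T ∩ S.Cc, b c * f c := by
  rw [← sum_subset (inter_subset_left (s₂ := S.Cc)) fun c hc h => by
    rw [th, if_pos ((mem_Cn.1 (hT hc)).resolve_right fun h' => h (mem_inter.2 ⟨hc, h'⟩)), zero_mul]]
  exact sum_congr rfl fun c hc => by
    rw [th, if_neg fun h => disjoint_left.1 hA.disj h (mem_inter.1 hc).2]

open Classical in
theorem sum_VX (f : (ι → X) → Finset ι → ℝ) : ∑ v ∈ S.VX θ, f v.1 v.2 =
    ∑ σ ∈ S.Ch, ∑ T ∈ S.Cn.powerset, if S.Vx θ σ T then f σ T else 0 := by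
  rw [VX, sum_filter, sum_product]

variable [Inhabited X]

/-- the sum of the inequalities of all two dimensional faces -/
theorem cells (hP : St_POLY) (hA : S.Ax) (hG : S.Gen θ) (hp : S.GoodP p)
    (U : (ι → X) × Finset ι → ℝ) (m : Finset ι → ℝ) (hm : ∀ J ⊆ S.Cn, 0 ≤ m J) :
    0 ≤ ∑ v ∈ S.VX θ, ∑ c ∈ v.2, ∑ d ∈ v.2.erase c, m ((v.2.erase c).erase d) *
      (S.slope θ U v.1 v.2 c * S.slope θ U v.1 v.2 d -
        S.ph p v.1 v.2 d / S.ph p v.1 v.2 c * S.slope θ U v.1 v.2 c ^ 2) := by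
  classical
  rw [sum_VX fun σ T => ∑ c ∈ T, ∑ d ∈ T.erase c, m ((T.erase c).erase d) *
    (S.slope θ U σ T c * S.slope θ U σ T d - S.ph p σ T d / S.ph p σ T c * S.slope θ U σ T c ^ 2)]
  refine sum_nonneg fun σ _ => ?_
  set f : Finset ι × ι × ι → ℝ := fun x => S.slope θ U σ x.1 x.2.1 * S.slope θ U σ x.1 x.2.2 -
    S.ph p σ x.1 x.2.2 / S.ph p σ x.1 x.2.1 * S.slope θ U σ x.1 x.2.1 ^ 2 with hf
  set F := (S.Cn.powerset ×ˢ S.Cn ×ˢ S.Cn).filter fun x : Finset ι × ι × ι => S.Vx θ σ x.1 ∧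
    x.2.1 ∈ x.1 ∧ x.2.2 ∈ x.1 ∧ x.2.1 ≠ x.2.2 with hF
  have e1 : (∑ T ∈ S.Cn.powerset, if S.Vx θ σ T then ∑ c ∈ T, ∑ d ∈ T.erase c,
      m ((T.erase c).erase d) * (S.slope θ U σ T c * S.slope θ U σ T d -
        S.ph p σ T d / S.ph p σ T c * S.slope θ U σ T c ^ 2) else 0) =
      ∑ x ∈ F, m ((x.1.erase x.2.1).erase x.2.2) * f x := by
    rw [hF, sum_filter, sum_product]
    refine sum_congr rfl fun T hT => ?_
    have hs := mem_powerset.1 hT
    split_ifs with h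
    · rw [sum_product, ← sum_subset hs fun a _ ha => by simp [ha]]
      refine sum_congr rfl fun a ha => ?_
      rw [← sum_subset ((erase_subset a _).trans hs) fun d _ hd =>
        if_neg fun h => hd (mem_erase.2 ⟨h.2.2.2.symm, h.2.2.1⟩)]
      exact sum_congr rfl fun d hd =>
        (if_pos ⟨h, ha, mem_of_mem_erase hd, (ne_of_mem_erase hd).symm⟩).symm
    · simp [h]
  rw [e1, ← sum_fiberwise_of_maps_to (t := S.Cn.powerset)
    (g := fun x : Finset ι × ι × ι => (x.1.erase x.2.1).erase x.2.2) fun x hx =>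
      mem_powerset.2 ((erase_subset _ _).trans ((erase_subset _ _).trans
        (mem_filter.1 hx).2.1.1.2.1))]
  refine sum_nonneg fun J hJ => ?_
  rw [sum_congr rfl fun x hx => by rw [(mem_filter.1 hx).2], ← mul_sum]
  refine mul_nonneg (hm J (mem_powerset.1 hJ))
    ((hP ι X V S hA θ p hG hp σ J U).trans_eq (sum_congr ?_ fun _ _ => rfl))
  rw [hF, filter_filter]
  exact filter_congr fun x _ => by simp only [and_assoc]

theorem rem_one (hA : S.Ax) (hb : S.Cost θ b) {U : (ι → X) × Finset ι → ℝ} (hU : S.Kir θ U)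
    {σ : ι → X} {T : Finset ι} {k : ι} (h : S.Vx θ σ T) (hk : T ∩ S.Kw = {k}) :
    ∑ τ ∈ S.Nb k σ, rem (S.th b) T (S.slope θ U τ T) (S.ph p τ T) = 0 := by
  classical
  have hk' := mem_inter.1 (hk ▸ mem_singleton_self k : k ∈ T ∩ S.Kw)
  have h1 : T.filter (fun c => S.th b c = 0) = {k} := by
    rw [← hk, ← filter_mem_eq_inter]
    exact filter_congr fun c hc => th_zero hb (h.1.2.1 hc)
  have h2 : ∑ τ ∈ S.Nb k σ, S.ph p τ T k = 0 := by
    have e := sum_yv hA hk'.2 hk'.1 h.1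
    rw [erase_inter, hk, erase_singleton, sum_empty, neg_zero] at e
    unfold ph
    rw [sum_comm]
    refine sum_eq_zero fun c hc => ?_
    rw [← mul_sum, sum_congr rfl fun τ _ => by rw [hA.lc τ σ c hc], ← map_sum, e, map_zero,
      mul_zero]
  unfold rem
  simp only [h1, sum_singleton]
  rw [sum_comm]
  refine sum_eq_zero fun a ha => ?_
  obtain ⟨a1, a2⟩ := mem_erase.1 ha
  rw [← mul_sum, sum_congr rfl fun τ hτ => by
    rw [((sheet1 hA hk'.2 hk'.1 h hτ).2.2 a a2 a1).2.2.2.2.2.1 U,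
      ((sheet1 hA hk'.2 hk'.1 h hτ).2.2 a a2 a1).2.2.2.2.2.2 p],
    sum_sub_distrib, ← mul_sum, ← mul_sum, ← sum_mul, ← sum_div, h2, hU σ T k h hk]
  simp

omit [Inhabited X] in
theorem rem_two (hb : S.Cost θ b) {T : Finset ι} (hT : T ⊆ S.Cn) {k l : ι} (hkl : k ≠ l)
    (hk : T ∩ S.Kw = {k, l}) (s w : ι → ℝ) : rem (S.th b) T s w =
      mw (S.th b) ((T.erase k).erase l) *
        (2 * s k * s l - w l / w k * s k ^ 2 - w k / w l * s l ^ 2) := by
  classical
  have hk' := mem_inter.1 (hk ▸ mem_insert_self k {l} : k ∈ T ∩ S.Kw)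
  have hl' := mem_inter.1 (hk ▸ mem_insert_of_mem (mem_singleton_self l) : l ∈ T ∩ S.Kw)
  have h1 : T.filter (fun c => S.th b c = 0) = {k, l} := by
    rw [← hk, ← filter_mem_eq_inter]
    exact filter_congr fun c hc => th_zero hb (hT hc)
  have h2 : ∀ i j, i ≠ j → j ∈ T → j ∈ S.Kw → ∀ f : ι → ℝ,
      ∑ a ∈ T.erase i, mw (S.th b) ((T.erase i).erase a) * f a =
        mw (S.th b) ((T.erase i).erase j) * f j := fun i j hij h3 h4 f =>
    sum_eq_single_of_mem j (mem_erase.2 ⟨hij.symm, h3⟩) fun a _ ha => by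
      rw [mw_zero (k := j) (mem_erase.2 ⟨ha.symm, mem_erase.2 ⟨hij.symm, h3⟩⟩) (if_pos h4),
        zero_mul]
  have h3 : S.th b k = 0 := if_pos hk'.2
  have h4 : S.th b l = 0 := if_pos hl'.2
  unfold rem
  simp only [h1, sum_pair hkl]
  rw [h2 k l hkl hl'.1 hl'.2, h2 l k hkl.symm hk'.1 hk'.2, if_pos h3, if_pos h4,
    erase_right_comm (a := l)]
  ring

omit [Inhabited X] in
theorem rem_else (hb : S.Cost θ b) {T : Finset ι} (hT : T ⊆ S.Cn) (h1 : (T ∩ S.Kw).card ≠ 1)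
    (h2 : (T ∩ S.Kw).card ≠ 2) (s w : ι → ℝ) : rem (S.th b) T s w = 0 := by
  classical
  refine sum_eq_zero fun k hk => sum_eq_zero fun a ha => ?_
  obtain ⟨k1, k2⟩ := mem_filter.1 hk
  have h3 : 0 < (T ∩ S.Kw).card := card_pos.2 ⟨k, mem_inter.2 ⟨k1, (th_zero hb (hT k1)).1 k2⟩⟩
  have h4 : 0 < (((T ∩ S.Kw).erase k).erase a).card := by
    have := pred_card_le_card_erase (s := T ∩ S.Kw) (a := k)
    have := pred_card_le_card_erase (s := (T ∩ S.Kw).erase k) (a := a)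
    omega
  obtain ⟨j, hj⟩ := card_pos.1 h4
  simp only [mem_erase, mem_inter] at hj
  rw [mw_zero (k := j) (mem_erase.2 ⟨hj.1, mem_erase.2 ⟨hj.2.1, hj.2.2.1⟩⟩) (if_pos hj.2.2.2),
    zero_mul]

theorem slope_congr {U U' : (ι → X) × Finset ι → ℝ}
    (h : ∀ s : (ι → X) × Finset ι, (s.2 ∩ S.Kw).card ≤ 1 → U' s = U s) (σ : ι → X)
    {T : Finset ι} {c : ι} (h0 : (T.erase c ∩ S.Kw).card = 0) :
    S.slope θ U' σ T c = S.slope θ U σ T c := by
  have h1 : ∀ e, (insert e (T.erase c) ∩ S.Kw).card ≤ 1 := fun e => by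
    have h2 : insert e (T.erase c) ∩ S.Kw ⊆ insert e (T.erase c ∩ S.Kw) := fun j hj => by
      simp only [mem_inter, mem_insert] at hj ⊢
      exact hj.1.imp_right fun h => ⟨h, hj.2⟩
    have := (card_le_card h2).trans (card_insert_le _ _)
    omega
  unfold Sys.slope
  rw [h (S.key σ (S.nxt θ σ T c)) (h1 _), h (S.key σ T)
    ((card_le_card (inter_subset_inter_right (subset_insert_iff.2 Subset.rfl))).trans (h1 c))]

end BOCH

open BOCH Sys in
theorem boch (hGP : St_GP) (hP : St_POLY) (hE : St_EXT2) (hC : St_COR2) (hL : St_EUL) :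
    St_BOCH := by
  intro ι X V _ _ _ _ S hA θ b hG hb U hU
  classical
  obtain ⟨p, hp, -⟩ := hGP ι X V S hA ∅ (empty_subset _)
  obtain ⟨U', h1, h2⟩ := hE ι X V S hA θ hG U
  have hU' : S.Kir θ U' := fun σ T k h hk => by
    rw [← hU σ T k h hk]
    exact sum_congr rfl fun τ _ => slope_congr h1 τ
      (by rw [erase_inter, hk, erase_singleton, card_empty])
  have h3 := cells hP hA hG hp U' (mw (S.th b)) fun J hJ =>
    mw_nonneg fun k hk => th_nonneg hb (hJ hk)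
  rw [sum_congr rfl fun v hv => corner_sum (S.th b) v.2 (S.slope θ U' v.1 v.2) (S.ph p v.1 v.2)
    (hp.2 _ _ (mem_VX.1 hv).1), sum_add_distrib, sum_sub_distrib] at h3
  have e1 : ∑ v ∈ S.VX θ, mw (S.th b) v.2 * (∑ a ∈ v.2, S.th b a * S.slope θ U' v.1 v.2 a) ^ 2 =
      ∑ v ∈ S.Tm θ, S.om b v.2 * (∑ c ∈ v.2, b c * S.slope θ U v.1 v.2 c) ^ 2 := by
    rw [Tm, VJ, sum_filter]
    refine sum_congr rfl fun v hv => ?_
    rw [mw_eq (mem_VX.1 hv).1.2.1]
    split_ifs with h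
    · congr 2
      refine sum_congr rfl fun c hc => ?_
      rw [th, if_neg fun hk => notMem_empty c (card_eq_zero.1 h ▸ mem_inter.2 ⟨hc, hk⟩),
        slope_congr h1 v.1 (by rw [erase_inter, card_eq_zero.1 h, erase_empty, card_empty])]
    · exact zero_mul _
  have e2 : ∑ v ∈ S.VX θ, ∑ a ∈ v.2, mw (S.th b) (v.2.erase a) * S.slope θ U' v.1 v.2 a ^ 2 *
      (∑ c ∈ v.2, S.th b c * S.ph p v.1 v.2 c) / S.ph p v.1 v.2 a = S.En θ b U := by
    rw [hL ι X V S hA θ b p hG hb hp U, Dt, sum_filter, sum_product]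
    refine sum_congr rfl fun v hv => ?_
    have hs := (mem_VX.1 hv).1.2.1
    rw [← sum_subset hs fun a _ ha => if_neg fun h => ha h.1]
    refine sum_congr rfl fun a ha => ?_
    rw [mw_eq ((erase_subset _ _).trans hs), sum_th hA hs]
    by_cases h : (v.2.erase a ∩ S.Kw).card = 0
    · rw [if_pos h, if_pos ⟨ha, h⟩, slope_congr h1 v.1 h, mul_div_assoc]
    · rw [if_neg h, if_neg fun h' => h h'.2]
      simp
  have e3 : ∑ v ∈ S.VX θ, rem (S.th b) v.2 (S.slope θ U' v.1 v.2) (S.ph p v.1 v.2) ≤ 0 := by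
    rw [sum_VX fun σ T => rem (S.th b) T (S.slope θ U' σ T) (S.ph p σ T), sum_comm]
    refine sum_nonpos fun T hT => ?_
    have hs := mem_powerset.1 hT
    rw [← sum_filter]
    by_cases c1 : (T ∩ S.Kw).card = 1
    · obtain ⟨k, hk⟩ := card_eq_one.1 c1
      have hk' := mem_inter.1 (hk ▸ mem_singleton_self k : k ∈ T ∩ S.Kw)
      rw [sum_class _ (S.Nb k) (fun σ hσ => self_Nb (mem_filter.1 hσ).1)
        (fun σ hσ τ hτ => mem_filter.2 ⟨(mem_Nb.1 hτ).1,
          (sheet1 hA hk'.2 hk'.1 (mem_filter.1 hσ).2 hτ).1⟩) fun σ _ τ hτ => Nb_eq hτ]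
      exact (sum_eq_zero fun σ hσ => by
        rw [rem_one hA hb hU' (mem_filter.1 hσ).2 hk, zero_div]).le
    by_cases c2 : (T ∩ S.Kw).card = 2
    · obtain ⟨k, l, hkl, hk⟩ := card_eq_two.1 c2
      have hk' := mem_inter.1 (hk ▸ mem_insert_self k {l} : k ∈ T ∩ S.Kw)
      have hl' := mem_inter.1 (hk ▸ mem_insert_of_mem (mem_singleton_self l) : l ∈ T ∩ S.Kw)
      rw [sum_class _ (S.Nb2 k l) (fun σ hσ => self_Nb2 (mem_filter.1 hσ).1)
        (fun σ hσ τ hτ => mem_filter.2 ⟨(mem_Nb2.1 hτ).1,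
          (sheet2 hA hk'.2 hl'.2 hk'.1 hl'.1 (mem_filter.1 hσ).2 hτ).1⟩) fun σ _ τ hτ => Nb2_eq hτ]
      refine sum_nonpos fun σ hσ => div_nonpos_of_nonpos_of_nonneg ?_ (Nat.cast_nonneg _)
      rw [sum_congr rfl fun τ _ => rem_two hb hs hkl hk _ _, ← mul_sum]
      exact mul_nonpos_of_nonneg_of_nonpos
        (mw_nonneg fun j hj => th_nonneg hb (hs (mem_of_mem_erase (mem_of_mem_erase hj))))
        (hC ι X V S hA θ p hp U' σ T k l (mem_filter.1 hσ).2 hkl hk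
          (h2 σ T k l (mem_filter.1 hσ).2 hkl hk))
    · exact (sum_eq_zero fun σ _ => rem_else hb hs c1 c2 _ _).le
  rw [e1, e2] at h3
  linarith

end Pool.Agent.Lib.US
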