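import Pool.Agent.Lib.US.Blue

/-! Comparison of the weights of the walk with the costs. -/

namespace Pool.Agent.Lib.US

open Finset

namespace H68

variable {ι X V : Type} [DecidableEq ι] [AddCommGroup V] [Module ℝ V] {S : Sys ι X V}
  {θ a : ι → ℝ}

theorem om_pos (ha : ∀ c ∈ S.Cc, 0 < a c) (T : Finset ι) : 0 < S.om a T :=
  prod_pos fun c hc => inv_pos.2 (ha c (mem_inter.1 hc).2)

theorem om_le (ha : ∀ c ∈ S.Cc, 0 < a c) (hθ : ∀ c ∈ S.Cc, 0 ≤ θ c) (T : Finset ι) :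
    S.om (fun c => a c + θ c) T ≤ S.om a T :=
  prod_le_prod (fun c hc => (inv_pos.2 (add_pos_of_pos_of_nonneg (ha c (mem_inter.1 hc).2)
    (hθ c (mem_inter.1 hc).2))).le) fun c hc => inv_anti₀ (ha c (mem_inter.1 hc).2)
      (le_add_of_nonneg_right (hθ c (mem_inter.1 hc).2))

theorem om_ge (hA : S.Ax) (ha : ∀ c ∈ S.Cc, 0 < a c)
    (hθ : ∀ c ∈ S.Cc, 0 ≤ θ c ∧ 2 * S.B * θ c ≤ a c) (T : Finset ι) :
    S.om a T ≤ 2 * S.om (fun c => a c + θ c) T := by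
  have hB : 0 < S.B := lt_of_lt_of_le one_pos hA.one_le
  have h1 : S.om a T ≤ ∏ c ∈ T ∩ S.Cc, (Real.exp (1 / (2 * S.B)) * (a c + θ c)⁻¹) := by
    refine prod_le_prod (fun c hc => (inv_pos.2 (ha c (mem_inter.1 hc).2)).le) fun c hc => ?_
    have h2 := ha c (mem_inter.1 hc).2
    obtain ⟨h3, h4⟩ := hθ c (mem_inter.1 hc).2
    have h5 := Real.add_one_le_exp (1 / (2 * S.B))
    have h6 : θ c ≤ 1 / (2 * S.B) * a c := by
      rw [one_div, inv_mul_eq_div, le_div_iff₀ (by positivity)]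
      linarith
    rw [← div_eq_mul_inv, le_div_iff₀ (by linarith), inv_mul_le_iff₀ h2]
    nlinarith
  rw [prod_mul_distrib, prod_const, ← Real.exp_nat_mul] at h1
  refine h1.trans (mul_le_mul_of_nonneg_right ?_
    (om_pos (S := S) (a := fun c => a c + θ c) (fun c hc =>
      add_pos_of_pos_of_nonneg (ha c hc) (hθ c hc).1) T).le)
  have h7 : ((T ∩ S.Cc).card : ℝ) ≤ S.B := le_trans (Nat.cast_le.2 (card_le_card
    (inter_subset_right.trans subset_union_right))) hA.cn_le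
  have h8 : ((T ∩ S.Cc).card : ℝ) * (1 / (2 * S.B)) ≤ Real.log 2 := by
    have := Real.log_two_gt_d9
    rw [mul_one_div, div_le_iff₀ (by positivity)]
    nlinarith
  exact (Real.exp_le_exp.2 h8).trans (Real.exp_log two_pos).le

end H68

theorem cmp (hP : St_POINC) : St_CMP := by
  intro ι X V _ _ _ _ S hA θ a hG hC hN hθ F hF
  have ha := hC.1
  have hb : ∀ c ∈ S.Cc, 0 < a c + θ c := fun c hc =>
    add_pos_of_pos_of_nonneg (ha c hc) (hθ c hc).1
  have hC' : S.Cost θ fun c => a c + θ c := by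
    obtain ⟨z, hz⟩ := hC.2
    refine ⟨hb, z, fun σ hσ => ⟨(hz σ hσ).1, (hz σ hσ).2.1, fun c hc => ?_⟩⟩
    have := (hz σ hσ).2.2 c hc
    simp only at this ⊢
    linarith
  obtain ⟨m, hm⟩ : ∃ m : ℝ, ∑ v ∈ S.Tm θ, S.om (fun c => a c + θ c) v.2 * (F v - m) = 0 := by
    rcases (S.Tm θ).eq_empty_or_nonempty with h | h
    · exact ⟨0, by rw [h, sum_empty]⟩
    · have h1 : 0 < ∑ v ∈ S.Tm θ, S.om (fun c => a c + θ c) v.2 :=
        sum_pos (fun v _ => H68.om_pos hb v.2) h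
      refine ⟨(∑ v ∈ S.Tm θ, S.om (fun c => a c + θ c) v.2 * F v) /
        ∑ v ∈ S.Tm θ, S.om (fun c => a c + θ c) v.2, ?_⟩
      simp only [mul_sub, sum_sub_distrib, ← sum_mul]
      rw [mul_div_cancel₀ _ h1.ne', sub_self]
  have h1 := hP ι X V S hA θ _ hG hC' hN (fun v => F v - m) hm
  have h2 : S.En θ (fun c => a c + θ c) (fun v => F v - m) ≤ S.En θ a F := by
    refine mul_le_mul_of_nonneg_left (sum_le_sum fun d hd => ?_) (by norm_num)
    have h3 : S.slope θ (fun v => F v - m) d.1.1 d.1.2 d.2 = S.slope θ F d.1.1 d.1.2 d.2 := by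
      unfold Sys.slope
      rw [sub_sub_sub_cancel_right]
    rw [h3]
    refine mul_le_mul_of_nonneg_right (H68.om_le ha (fun c hc => (hθ c hc).1) _) ?_
    by_cases hb' : (S.cand d.1.1 d.1.2 d.2).Nonempty
    · have h4 := Sys.mem_Dt.1 hd
      exact mul_nonneg (Sys.piv hA hG h4.1 h4.2.1 hb').2.1.le (sq_nonneg _)
    · unfold Sys.slope
      rw [if_neg hb']
      norm_num
  have h3 : ∑ v ∈ S.Tm θ, S.om a v.2 * F v ^ 2 ≤ ∑ v ∈ S.Tm θ, S.om a v.2 * (F v - m) ^ 2 := by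
    have h4 : ∑ v ∈ S.Tm θ, S.om a v.2 * (F v - m) ^ 2 = ∑ v ∈ S.Tm θ, S.om a v.2 * F v ^ 2 -
        2 * m * ∑ v ∈ S.Tm θ, S.om a v.2 * F v + ∑ v ∈ S.Tm θ, S.om a v.2 * m ^ 2 := by
      rw [mul_sum, ← sum_sub_distrib, ← sum_add_distrib]
      exact sum_congr rfl fun v _ => by ring
    rw [h4, hF, mul_zero, sub_zero]
    exact le_add_of_nonneg_right (sum_nonneg fun v _ =>
      mul_nonneg (H68.om_pos ha _).le (sq_nonneg _))
  have h5 : ∑ v ∈ S.Tm θ, S.om a v.2 * (F v - m) ^ 2 ≤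
      2 * ∑ v ∈ S.Tm θ, S.om (fun c => a c + θ c) v.2 * (F v - m) ^ 2 := by
    rw [mul_sum]
    refine sum_le_sum fun v _ => ?_
    rw [← mul_assoc]
    exact mul_le_mul_of_nonneg_right (H68.om_ge hA ha hθ _) (sq_nonneg _)
  linarith

end Pool.Agent.Lib.US
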