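import Pool.Agent.Lib.US.Blue

/-! The number of vertices on one wall. -/

namespace Pool.Agent.Lib.US

open Finset

namespace H59

variable {ι X V : Type} [DecidableEq ι] [AddCommGroup V] [Module ℝ V]
  {S : Sys ι X V} {θ a : ι → ℝ} {σ τ : ι → X} {T : Finset ι} {c d e k l : ι}

theorem not_Kw (hA : S.Ax) (hc : c ∈ S.Cc) : c ∉ S.Kw := fun h => disjoint_left.1 hA.disj h hc

theorem not_Cc (hA : S.Ax) (hk : k ∈ S.Kw) : k ∉ S.Cc := fun h => disjoint_left.1 hA.disj hk h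

theorem erase_inter_Cc (hA : S.Ax) (hc : c ∈ S.Cc) : T.erase c ∩ S.Kw = T ∩ S.Kw := by
  ext j
  simp only [mem_inter, mem_erase]
  exact ⟨fun h => ⟨h.1.2, h.2⟩, fun h => ⟨⟨fun h' => not_Kw hA hc (h' ▸ h.2), h.1⟩, h.2⟩⟩

theorem card_erase_Kw (hT : k ∈ T) (hk : k ∈ S.Kw) :
    (T.erase k ∩ S.Kw).card + 1 = (T ∩ S.Kw).card := by
  rw [erase_inter, card_erase_add_one (mem_inter.2 ⟨hT, hk⟩)]

/-- the darts, sorted by the kind of the released condition -/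
theorem sum_Dt (hA : S.Ax) (j : ℕ) (f : ((ι → X) × Finset ι) × ι → ℝ) :
    ∑ d ∈ S.Dt θ j, f d = ∑ v ∈ S.VJ θ j, ∑ c ∈ v.2 ∩ S.Cc, f (v, c) +
      ∑ v ∈ S.VJ θ (j + 1), ∑ k ∈ v.2 ∩ S.Kw, f (v, k) := by
  classical
  rw [← sum_filter_add_sum_filter_not (S.Dt θ j) fun d => d.2 ∈ S.Cc]
  refine congrArg₂ (· + ·) ?_ ?_
  · refine sum_finset_product _ _ (fun v : (ι → X) × Finset ι => v.2 ∩ S.Cc) fun d => ?_
    rw [mem_filter, Sys.mem_Dt, Sys.mem_VJ, mem_inter]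
    constructor
    · rintro ⟨⟨h1, h2, h3⟩, h4⟩
      exact ⟨⟨h1, by rwa [erase_inter_Cc hA h4] at h3⟩, h2, h4⟩
    · rintro ⟨⟨h1, h3⟩, h2, h4⟩
      exact ⟨⟨h1, h2, by rwa [erase_inter_Cc hA h4]⟩, h4⟩
  · refine sum_finset_product _ _ (fun v : (ι → X) × Finset ι => v.2 ∩ S.Kw) fun d => ?_
    rw [mem_filter, Sys.mem_Dt, Sys.mem_VJ, mem_inter]
    constructor
    · rintro ⟨⟨h1, h2, h3⟩, h4⟩
      have h5 := (Sys.mem_Cn.1 (h1.1.2.1 h2)).resolve_right h4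
      exact ⟨⟨h1, by rw [← card_erase_Kw h2 h5, h3]⟩, h2, h5⟩
    · rintro ⟨⟨h1, h3⟩, h2, h4⟩
      have := card_erase_Kw h2 h4
      exact ⟨⟨h1, h2, by omega⟩, not_Cc hA h4⟩

theorem om_pos (ha : ∀ c ∈ S.Cc, 0 < a c) : 0 < S.om a T :=
  prod_pos fun c hc => inv_pos.2 (ha c (mem_inter.1 hc).2)

theorem om_erase_Kw (hA : S.Ax) (hk : k ∈ S.Kw) : S.om a (T.erase k) = S.om a T := by
  unfold Sys.om
  rw [erase_inter, erase_eq_of_notMem fun h => not_Cc hA hk (mem_inter.1 h).2]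

theorem om_erase_Cc (hT : c ∈ T) (hc : c ∈ S.Cc) (ha : 0 < a c) :
    S.om a (T.erase c) = a c * S.om a T := by
  unfold Sys.om
  rw [erase_inter, ← mul_prod_erase (T ∩ S.Cc) _ (mem_inter.2 ⟨hT, hc⟩), ← mul_assoc,
    mul_inv_cancel₀ ha.ne', one_mul]

/-- change of sheet keeps vertices -/
theorem vx_sheet (hA : S.Ax) (hk : k ∈ S.Kw) (hT : k ∈ T) (h : S.Vx θ σ T) (hτ : τ ∈ S.Nb k σ) :
    S.Vx θ τ T := by
  obtain ⟨h1, -, -, -, -, h2⟩ := Sys.sheet (θ := θ) hA hk hT h.1 hτ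
  exact ⟨h1, fun d hd hd' => by rw [h2 d hd]; exact h.2 d hd hd'⟩

/-- the speed of the test functional -/
noncomputable def sp (S : Sys ι X V) (σ : ι → X) (v : V) : ℝ :=
  -S.bt σ v - S.B * ∑ e ∈ S.Cc, S.L σ e v

omit [DecidableEq ι] in
theorem sp_neg (v : V) : sp S σ (-v) = -sp S σ v := by
  simp only [sp, map_neg, sum_neg_distrib]
  ring

theorem card_Cc (hA : S.Ax) : (S.Cc.card : ℝ) ≤ S.B :=
  le_trans (Nat.cast_le.2 (card_le_card subset_union_right)) hA.cn_le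

theorem sp_unb (hA : S.Ax) (h : S.IsB σ T) (hc : c ∈ T) (hb : ¬(S.cand σ T c).Nonempty) :
    sp S σ (S.yv σ T c) ≤ 0 := by
  have h1 : ∃ e ∈ S.Cc, S.L σ e (S.yv σ T c) ≠ 0 := by
    by_contra h0
    push Not at h0
    have h2 := h.frame.dual c hc c hc
    rw [hA.pointed σ h.1 _ (h.frame.mem c hc) h0, map_zero, if_pos rfl] at h2
    exact zero_ne_one h2
  obtain ⟨e, he, h2⟩ := h1
  have h3 : ∀ e ∈ S.Cc, 0 ≤ S.L σ e (S.yv σ T c) := fun e he =>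
    Sys.unb_nonneg hA h hc hb (Sys.mem_Cn.2 (Or.inr he))
  have h4 : S.L σ e (S.yv σ T c) = 1 := by
    rcases hA.tu σ T h c hc e (Sys.mem_Cn.2 (Or.inr he)) with h5 | h5 | h5
    · exact absurd h5 h2
    · exact h5
    · have := h3 e he
      rw [h5] at this
      norm_num at this
  have h5 := single_le_sum h3 he
  have h6 := (abs_le.1 (hA.bt_le σ T h c hc)).1
  have h7 := hA.one_le
  unfold sp
  nlinarith

theorem sp_ge (hA : S.Ax) (h : S.IsB σ T) (hc : c ∈ T) :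
    -(2 * S.B ^ 2) ≤ sp S σ (S.yv σ T c) := by
  have h1 : ∑ e ∈ S.Cc, S.L σ e (S.yv σ T c) ≤ S.B := by
    refine le_trans (sum_le_card_nsmul _ _ 1 fun e he => ?_) (by simpa using card_Cc hA)
    rcases hA.tu σ T h c hc e (Sys.mem_Cn.2 (Or.inr he)) with h5 | h5 | h5 <;> rw [h5] <;> norm_num
  have h6 := (abs_le.1 (hA.bt_le σ T h c hc)).2
  have h7 := hA.one_le
  unfold sp
  nlinarith

/-- the flux of the test functional through the edges with `j` tight walls -/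
theorem core (hA : S.Ax) (hG : S.Gen θ) {A G : ℝ} (h0 : 0 ≤ A) (hG0 : 0 ≤ G)
    (ha : ∀ c ∈ S.Cc, 0 < a c ∧ a c ≤ A) (j : ℕ) (g : (ι → X) → Finset ι → ℝ)
    (hg : ∀ σ ∈ S.Ch, ∀ Φ, (Φ ∩ S.Kw).card = j → 0 ≤ g σ Φ ∧ g σ Φ ≤ G) :
    ∑ v ∈ S.VJ θ (j + 1), ∑ k ∈ v.2 ∩ S.Kw,
        g v.1 (v.2.erase k) * S.om a v.2 * sp S v.1 (S.yv v.1 v.2 k) ≤
      2 * S.B ^ 3 * A * G * ∑ v ∈ S.VJ θ j, S.om a v.2 := by
  classical
  have ha' : ∀ c ∈ S.Cc, 0 < a c := fun c hc => (ha c hc).1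
  set r : ((ι → X) × Finset ι) × ι → ℝ := fun d =>
    g d.1.1 (d.1.2.erase d.2) * S.om a (d.1.2.erase d.2) * sp S d.1.1 (S.yv d.1.1 d.1.2 d.2) with hr
  have h1 : ∑ d ∈ S.Db θ j, r d = 0 := Sys.sum_Db_zero hA hG j r fun d hd => by
    obtain ⟨h1, h2⟩ := Sys.mem_Db.1 hd
    obtain ⟨h3, h4, -⟩ := Sys.mem_Dt.1 h1
    have h5 := (Sys.rev_mem hA hG hd).2.2
    have h6 := (Sys.piv hA hG h3 h4 h2).2.2.1
    simp only [hr]
    rw [h5]
    simp only [Sys.rev]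
    rw [h6, sp_neg]
    ring
  have h2 : ∑ d ∈ S.Dt θ j, r d ≤ 0 := by
    have h3 : S.Db θ j ⊆ S.Dt θ j := fun d hd => (Sys.mem_Db.1 hd).1
    rw [← sum_sdiff h3, h1, add_zero]
    refine sum_nonpos fun d hd => ?_
    obtain ⟨h4, h5⟩ := mem_sdiff.1 hd
    obtain ⟨h6, h7, h8⟩ := Sys.mem_Dt.1 h4
    exact mul_nonpos_of_nonneg_of_nonpos (mul_nonneg (hg _ h6.1.1 _ h8).1 (om_pos ha').le)
      (sp_unb hA h6.1 h7 fun h => h5 (Sys.mem_Db.2 ⟨h4, h⟩))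
  rw [sum_Dt hA] at h2
  have h3 : ∑ v ∈ S.VJ θ (j + 1), ∑ k ∈ v.2 ∩ S.Kw, r (v, k) =
      ∑ v ∈ S.VJ θ (j + 1), ∑ k ∈ v.2 ∩ S.Kw,
        g v.1 (v.2.erase k) * S.om a v.2 * sp S v.1 (S.yv v.1 v.2 k) :=
    sum_congr rfl fun v _ => sum_congr rfl fun k hk => by
      simp only [hr]
      rw [om_erase_Kw hA (mem_inter.1 hk).2]
  have h4 : -(2 * S.B ^ 3 * A * G * ∑ v ∈ S.VJ θ j, S.om a v.2) ≤
      ∑ v ∈ S.VJ θ j, ∑ c ∈ v.2 ∩ S.Cc, r (v, c) := by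
    rw [mul_sum, ← sum_neg_distrib]
    refine sum_le_sum fun v hv => ?_
    obtain ⟨h5, h6⟩ := Sys.mem_VJ.1 hv
    have hB := hA.one_le
    have ho : 0 < S.om a v.2 := om_pos ha'
    have h7 : ∀ c ∈ v.2 ∩ S.Cc, -(2 * S.B ^ 2 * A * G * S.om a v.2) ≤ r (v, c) := fun c hc => by
      obtain ⟨h7, h8⟩ := mem_inter.1 hc
      simp only [hr]
      rw [om_erase_Cc h7 h8 (ha' c h8)]
      have h9 := hg _ h5.1.1 (v.2.erase c) (by rw [erase_inter_Cc hA h8, h6])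
      have h10 := sp_ge hA h5.1 h7
      have h11 : g v.1 (v.2.erase c) * (a c * S.om a v.2) ≤ G * (A * S.om a v.2) :=
        mul_le_mul h9.2 (mul_le_mul_of_nonneg_right (ha c h8).2 ho.le)
          (mul_pos (ha' c h8) ho).le hG0
      have h12 : 0 ≤ g v.1 (v.2.erase c) * (a c * S.om a v.2) :=
        mul_nonneg h9.1 (mul_pos (ha' c h8) ho).le
      have h13 := mul_le_mul_of_nonneg_left h10 h12
      have h14 := mul_le_mul_of_nonneg_right h11 (by positivity : 0 ≤ 2 * S.B ^ 2)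
      linarith
    have h8 := card_nsmul_le_sum _ _ _ h7
    have h9 : ((v.2 ∩ S.Cc).card : ℝ) ≤ S.B :=
      le_trans (Nat.cast_le.2 (card_le_card inter_subset_right)) (card_Cc hA)
    rw [nsmul_eq_mul] at h8
    have h10 := mul_le_mul_of_nonneg_right h9
      (by positivity : 0 ≤ 2 * S.B ^ 2 * A * G * S.om a v.2)
    linarith
  linarith

/-- the flux out of a node on one wall -/
theorem node1 (hA : S.Ax) (h : S.IsB σ T) (hk : T ∩ S.Kw = {k}) :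
    ∑ τ ∈ S.Nb k σ, S.yv τ T k = 0 ∧ ∑ τ ∈ S.Nb k σ, sp S τ (S.yv τ T k) = S.mm σ k := by
  obtain ⟨hT, hK⟩ := mem_inter.1 (hk ▸ mem_singleton_self k : k ∈ T ∩ S.Kw)
  have h1 : ∑ τ ∈ S.Nb k σ, S.yv τ T k = 0 := by
    rw [Sys.sum_yv hA hK hT h, erase_inter, hk, erase_singleton, sum_empty, neg_zero]
  refine ⟨h1, ?_⟩
  have h2 : ∀ τ ∈ S.Nb k σ, sp S τ (S.yv τ T k) = S.bt τ (S.u τ k) -
      S.bt σ (S.yv τ T k + S.u τ k) - S.B * ∑ e ∈ S.Cc, S.L σ e (S.yv τ T k) := fun τ hτ => by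
    have h3 := (Sys.sheet (θ := fun _ => 0) hA hK hT h hτ).2.2.1
    have h4 : S.yv τ T k + S.u τ k = ∑ d ∈ T.erase k, S.L τ d (S.u τ k) • S.yv σ T d := by
      rw [h3, sub_add_cancel]
    have h5 := (hA.wall k hK σ h.1 τ hτ (S.yv τ T k + S.u τ k) (by
      rw [h4]
      exact Submodule.sum_mem _ fun d hd => Submodule.smul_mem _ _
        (h.frame.mem d (mem_of_mem_erase hd))) (by
      rw [h4, map_sum]
      exact sum_eq_zero fun d hd => by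
        rw [map_smul, h.frame.dual d (mem_of_mem_erase hd) k hT,
          if_neg (ne_of_mem_erase hd).symm, smul_zero])).2.2
    rw [← h5, map_add, sp, sum_congr rfl fun e he => by rw [hA.lc τ σ e he]]
    ring
  rw [sum_congr rfl h2, sum_sub_distrib, sum_sub_distrib, ← map_sum, sum_add_distrib, h1, zero_add,
    ← mul_sum, sum_comm, sum_eq_zero (s := S.Cc) fun e _ => by rw [← map_sum, h1, map_zero],
    mul_zero, sub_zero]
  rfl

/-- the only tight wall -/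
theorem one_wall {v : (ι → X) × Finset ι} (hv : v ∈ S.VJ θ 1) : ∃ k, v.2 ∩ S.Kw = {k} :=
  card_eq_one.1 (Sys.mem_VJ.1 hv).2

open Classical in
/-- regrouping the vertices on one wall by sheets -/
theorem sum_VJ1 (hA : S.Ax) (f : (ι → X) → Finset ι → ι → ℝ) :
    ∑ v ∈ S.VJ θ 1, ∑ k ∈ v.2 ∩ S.Kw, f v.1 v.2 k =
      ∑ v ∈ S.VJ θ 1, ∑ k ∈ v.2 ∩ S.Kw, (∑ τ ∈ S.Nb k v.1, f τ v.2 k) / (S.Nb k v.1).card := by
  rw [Sys.sum_class (S.VJ θ 1) (fun v => ((v.2 ∩ S.Kw).biUnion fun k => S.Nb k v.1) ×ˢ {v.2})]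
  · refine sum_congr rfl fun v hv => ?_
    obtain ⟨k, hk⟩ := one_wall hv
    rw [sum_product]
    simp only [hk, singleton_biUnion, sum_singleton, card_product, card_singleton, mul_one]
  · intro v hv
    obtain ⟨k, hk⟩ := one_wall hv
    rw [hk, singleton_biUnion]
    exact mem_product.2 ⟨Sys.self_Nb (Sys.mem_VJ.1 hv).1.1.1, mem_singleton_self _⟩
  · intro v hv b hb
    obtain ⟨k, hk⟩ := one_wall hv
    rw [hk, singleton_biUnion, mem_product, mem_singleton] at hb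
    obtain ⟨hT, hK⟩ := mem_inter.1 (hk ▸ mem_singleton_self k : k ∈ v.2 ∩ S.Kw)
    rw [Sys.mem_VJ, hb.2]
    exact ⟨vx_sheet hA hK hT (Sys.mem_VJ.1 hv).1 hb.1, (Sys.mem_VJ.1 hv).2⟩
  · intro v hv b hb
    obtain ⟨k, hk⟩ := one_wall hv
    rw [hk, singleton_biUnion, mem_product, mem_singleton] at hb
    rw [hb.2, hk, singleton_biUnion, singleton_biUnion, Sys.Nb_eq hb.1]

end H59

theorem cnt1 : St_CNT1 := by
  intro ι X V _ _ _ S hA θ hG a A h0 ha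
  have h1 := H59.core hA hG h0 zero_le_one ha 0 (fun _ _ => 1) fun _ _ _ _ => ⟨zero_le_one, le_rfl⟩
  rw [zero_add, H59.sum_VJ1 hA fun σ T k => 1 * S.om a T * H59.sp S σ (S.yv σ T k), mul_one] at h1
  refine le_trans (sum_le_sum fun v hv => ?_) h1
  obtain ⟨k, hk⟩ := H59.one_wall hv
  have h2 := (Sys.mem_VJ.1 hv).1.1
  have hK := (mem_inter.1 (hk ▸ mem_singleton_self k : k ∈ v.2 ∩ S.Kw)).2
  rw [hk, sum_singleton, ← mul_sum, (H59.node1 hA h2 hk).2, one_mul, mul_div_assoc]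
  exact le_mul_of_one_le_right (H59.om_pos fun c hc => (ha c hc).1).le (hA.nu_ge _ h2.1 k hK)

end Pool.Agent.Lib.US
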