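import Pool.Agent.Lib.US.B_CNT1

/-! The number of vertices on two walls. -/

namespace Pool.Agent.Lib.US

open Finset

namespace H59

variable {ι X V : Type} [DecidableEq ι] [AddCommGroup V] [Module ℝ V]
  {S : Sys ι X V} {θ a : ι → ℝ} {σ τ : ι → X} {T : Finset ι} {c d e k l : ι}

theorem two_mem (hk : T ∩ S.Kw = {k, l}) : k ∈ T ∧ k ∈ S.Kw ∧ l ∈ T ∧ l ∈ S.Kw := by
  have h1 : k ∈ T ∩ S.Kw := by rw [hk]; simp
  have h2 : l ∈ T ∩ S.Kw := by rw [hk]; simp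
  exact ⟨(mem_inter.1 h1).1, (mem_inter.1 h1).2, (mem_inter.1 h2).1, (mem_inter.1 h2).2⟩

/-- the flux out of a node on two walls -/
theorem node2 (hA : S.Ax) (h : S.Vx θ σ T) (hkl : k ≠ l) (hk : T ∩ S.Kw = {k, l}) :
    1 ≤ ∑ τ ∈ S.Nb2 k l σ,
      (S.nu τ l * sp S τ (S.yv τ T k) + S.nu τ k * sp S τ (S.yv τ T l)) := by
  have : Inhabited X := ⟨σ k⟩
  obtain ⟨hT, hK, hT', hK'⟩ := two_mem hk
  obtain ⟨b1, b2, b3, b4⟩ := hA.bal2 σ h.1.1 k hK l hK' hkl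
  have hF := h.1.frame
  have hC : ∀ d ∈ T \ {k, l}, d ∈ S.Cc := fun d hd =>
    (Sys.mem_Cn.1 (h.1.2.1 (mem_sdiff.1 hd).1)).resolve_left fun h' =>
      (mem_sdiff.1 hd).2 (hk ▸ mem_inter.2 ⟨(mem_sdiff.1 hd).1, h'⟩)
  have h1 : ∀ τ ∈ S.Nb2 k l σ, ∀ j, j = k ∨ j = l →
      S.yv τ T j + S.u τ j = ∑ d ∈ T \ {k, l}, S.L σ d (S.u τ j) • S.yv σ T d := fun τ hτ j hj => by
    rw [(Sys.sheet2 hA hK hK' hT hT' h hτ).2.2.2 j hj, sub_add_cancel]
    exact sum_congr rfl fun d hd => by rw [hA.lc τ σ d (hC d hd)]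
  have h2 : ∀ τ ∈ S.Nb2 k l σ, ∀ j, j = k ∨ j = l → sp S τ (S.yv τ T j) = S.bt τ (S.u τ j) -
      S.bt σ (S.yv τ T j + S.u τ j) - S.B * ∑ e ∈ S.Cc, S.L σ e (S.yv τ T j) := fun τ hτ j hj => by
    have h0 : ∀ i, i ∈ T → i ∈ ({k, l} : Finset ι) → S.L σ i (S.yv τ T j + S.u τ j) = 0 :=
      fun i hi hi' => by
        rw [h1 τ hτ j hj, map_sum]
        exact sum_eq_zero fun d hd => by
          rw [map_smul, hF.dual d (mem_sdiff.1 hd).1 i hi,
            if_neg fun h' : i = d => (mem_sdiff.1 hd).2 (h' ▸ hi'), smul_zero]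
    have h5 := (hA.wall2 k hK l hK' σ h.1.1 τ hτ (S.yv τ T j + S.u τ j) (by
      rw [h1 τ hτ j hj]
      exact Submodule.sum_mem _ fun d hd => Submodule.smul_mem _ _
        (hF.mem d (mem_sdiff.1 hd).1)) (h0 k hT (by simp)) (h0 l hT' (by simp))).2.2
    rw [← h5, map_add, sp, sum_congr rfl fun e he => by rw [hA.lc τ σ e he]]
    ring
  have h3 : ∑ τ ∈ S.Nb2 k l σ, (S.nu τ l • (S.yv τ T k + S.u τ k) +
      S.nu τ k • (S.yv τ T l + S.u τ l)) = S.w2 σ k l := by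
    have h4 : ({k, l} : Finset ι) ⊆ T := by simp [insert_subset_iff, hT, hT']
    rw [hF.span _ b1, ← sum_sdiff h4, sum_pair hkl, b2, b3, zero_smul, zero_smul, add_zero,
      add_zero, sum_congr rfl fun τ hτ => by
        rw [h1 τ hτ k (Or.inl rfl), h1 τ hτ l (Or.inr rfl), smul_sum, smul_sum, ← sum_add_distrib],
      sum_comm]
    refine sum_congr rfl fun d _ => ?_
    rw [Sys.w2, map_sum, sum_smul]
    refine sum_congr rfl fun τ _ => ?_
    rw [map_add, map_smul, map_smul, add_smul, smul_smul, smul_smul, smul_eq_mul, smul_eq_mul]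
  have h4 : ∑ τ ∈ S.Nb2 k l σ, (S.nu τ l • S.yv τ T k + S.nu τ k • S.yv τ T l) = 0 := by
    have h5 : ∑ τ ∈ S.Nb2 k l σ, (S.nu τ l • (S.yv τ T k + S.u τ k) +
        S.nu τ k • (S.yv τ T l + S.u τ l)) =
        ∑ τ ∈ S.Nb2 k l σ, (S.nu τ l • S.yv τ T k + S.nu τ k • S.yv τ T l) + S.w2 σ k l := by
      rw [Sys.w2, ← sum_add_distrib]
      refine sum_congr rfl fun τ _ => ?_
      rw [smul_add, smul_add]
      abel
    rw [h3] at h5
    exact (add_eq_right.1 h5.symm)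
  have h5 := congrArg (S.bt σ) h3
  have h6 : ∑ τ ∈ S.Nb2 k l σ, (S.nu τ l * ∑ e ∈ S.Cc, S.L σ e (S.yv τ T k) +
      S.nu τ k * ∑ e ∈ S.Cc, S.L σ e (S.yv τ T l)) = 0 := by
    rw [sum_congr rfl fun τ _ => by rw [mul_sum, mul_sum, ← sum_add_distrib], sum_comm]
    refine sum_eq_zero fun e _ => ?_
    have h7 := congrArg (S.L σ e) h4
    simpa only [map_sum, map_add, map_smul, smul_eq_mul, map_zero] using h7
  rw [map_sum] at h5
  simp only [map_add (S.bt σ) (_ • _), map_smul, smul_eq_mul] at h5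
  have h7 : ∑ τ ∈ S.Nb2 k l σ,
      (S.nu τ l * sp S τ (S.yv τ T k) + S.nu τ k * sp S τ (S.yv τ T l)) =
      ∑ τ ∈ S.Nb2 k l σ, (S.nu τ l * S.bt τ (S.u τ k) + S.nu τ k * S.bt τ (S.u τ l)) -
      ∑ τ ∈ S.Nb2 k l σ, (S.nu τ l * S.bt σ (S.yv τ T k + S.u τ k) +
        S.nu τ k * S.bt σ (S.yv τ T l + S.u τ l)) -
      S.B * ∑ τ ∈ S.Nb2 k l σ, (S.nu τ l * ∑ e ∈ S.Cc, S.L σ e (S.yv τ T k) +
        S.nu τ k * ∑ e ∈ S.Cc, S.L σ e (S.yv τ T l)) := by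
    rw [mul_sum, ← sum_sub_distrib, ← sum_sub_distrib]
    refine sum_congr rfl fun τ hτ => ?_
    rw [h2 τ hτ k (Or.inl rfl), h2 τ hτ l (Or.inr rfl)]
    ring
  rw [h7, h5, h6, mul_zero, sub_zero]
  exact b4

theorem two_walls {v : (ι → X) × Finset ι} (hv : v ∈ S.VJ θ 2) :
    ∃ k l, k ≠ l ∧ v.2 ∩ S.Kw = {k, l} :=
  card_eq_two.1 (Sys.mem_VJ.1 hv).2

open Classical in
/-- the cones that agree away from the tight walls -/
noncomputable def cls (S : Sys ι X V) (v : (ι → X) × Finset ι) : Finset ((ι → X) × Finset ι) :=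
  (S.Ch.filter fun τ => ∀ j, j ∉ v.2 ∩ S.Kw → τ j = v.1 j) ×ˢ {v.2}

theorem cls_eq {v : (ι → X) × Finset ι} (hk : v.2 ∩ S.Kw = {k, l}) :
    cls S v = S.Nb2 k l v.1 ×ˢ {v.2} := by
  ext b
  simp only [cls, mem_product, mem_filter, Sys.mem_Nb2, hk, mem_insert, mem_singleton, not_or,
    and_imp]

end H59

theorem cnt2 : St_CNT2 := by
  intro ι X V _ _ _ S hA θ hG a A h0 ha
  have hB := hA.one_le
  have h1 := H59.core hA hG h0 (by linarith : 0 ≤ S.B) ha 1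
    (fun σ Φ => ∑ l ∈ Φ ∩ S.Kw, S.nu σ l) fun σ hσ Φ hΦ => by
      obtain ⟨l, hl⟩ := card_eq_one.1 hΦ
      have h2 := (mem_inter.1 (hl ▸ mem_singleton_self l : l ∈ Φ ∩ S.Kw)).2
      rw [hl, sum_singleton]
      exact ⟨le_trans zero_le_one (hA.nu_ge σ hσ l h2), hA.nu_le σ hσ l h2⟩
  rw [Sys.sum_class (S.VJ θ (1 + 1)) (H59.cls S)] at h1
  · have h2 : ∑ v ∈ S.VJ θ 2, S.om a v.2 / S.B ≤ _ := le_trans (sum_le_sum fun v hv => ?_) h1
    · rw [← sum_div, div_le_iff₀ (by linarith)] at h2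
      refine h2.trans (le_of_eq ?_)
      ring
    · obtain ⟨k, l, hkl, hk⟩ := H59.two_walls hv
      have h2 := (Sys.mem_VJ.1 hv).1
      have ho : 0 < S.om a v.2 := H59.om_pos fun c hc => (ha c hc).1
      have e1 : v.2.erase k ∩ S.Kw = {l} := by
        rw [erase_inter, hk, erase_insert (by simpa using hkl)]
      have e2 : v.2.erase l ∩ S.Kw = {k} := by
        rw [erase_inter, hk, pair_comm, erase_insert (by simpa using hkl.symm)]
      rw [H59.cls_eq hk, sum_product]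
      simp only [sum_singleton, card_product, card_singleton, mul_one, hk, sum_pair hkl, e1, e2]
      have h3 := H59.node2 hA h2 hkl hk
      have h4 : (0 : ℝ) < (S.Nb2 k l v.1).card :=
        Nat.cast_pos.2 (card_pos.2 ⟨_, Sys.self_Nb2 h2.1.1⟩)
      refine div_le_div₀ ?_ ?_ h4 (hA.nb2_le _ h2.1.1 k l)
      all_goals
        have h5 := mul_le_mul_of_nonneg_left h3 ho.le
        rw [mul_sum, mul_one] at h5
        refine le_trans (by linarith) (h5.trans (le_of_eq (sum_congr rfl fun τ _ => by ring)))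
  · intro v hv
    obtain ⟨k, l, -, hk⟩ := H59.two_walls hv
    rw [H59.cls_eq hk]
    exact mem_product.2 ⟨Sys.self_Nb2 (Sys.mem_VJ.1 hv).1.1.1, mem_singleton_self _⟩
  · intro v hv b hb
    obtain ⟨k, l, -, hk⟩ := H59.two_walls hv
    have : Inhabited X := ⟨v.1 k⟩
    rw [H59.cls_eq hk, mem_product, mem_singleton] at hb
    obtain ⟨hT, hK, hT', hK'⟩ := H59.two_mem hk
    rw [Sys.mem_VJ, hb.2]
    exact ⟨(Sys.sheet2 hA hK hK' hT hT' (Sys.mem_VJ.1 hv).1 hb.1).1, (Sys.mem_VJ.1 hv).2⟩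
  · intro v hv b hb
    obtain ⟨k, l, -, hk⟩ := H59.two_walls hv
    rw [H59.cls_eq hk, mem_product, mem_singleton] at hb
    rw [H59.cls_eq hk, H59.cls_eq (k := k) (l := l) (by rw [hb.2, hk]), hb.2, Sys.Nb2_eq hb.1]

end Pool.Agent.Lib.US
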