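import Pool.Agent.Lib.US.Blue

/-! Connectivity of the networks by descent. -/

namespace Pool.Agent.Lib.US

open Finset

namespace H68

variable {ι X V : Type} [DecidableEq ι] [Inhabited X] [AddCommGroup V] [Module ℝ V]
  {S : Sys ι X V} {θ p : ι → ℝ} {σ : ι → X} {T : Finset ι} {c k : ι}

omit [Inhabited X] in
theorem bdd_of_neg (hA : S.Ax) (hp : S.GoodP p) (h : S.IsB σ T) (hc : c ∈ T)
    (hn : S.ph p σ T c < 0) : (S.cand σ T c).Nonempty := by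
  by_contra hb
  refine absurd hn (not_lt.2 (sum_nonneg fun e he => mul_nonneg (hp.1 e he).le ?_))
  exact Sys.unb_nonneg hA h hc hb (Sys.mem_Cn.2 (Or.inr he))

omit [Inhabited X] in
theorem er_inter (hT : T ∩ S.Kw = {k}) : T.erase k ∩ S.Kw = ∅ := by
  rw [Finset.erase_inter, hT, erase_singleton]

omit [Inhabited X] in
theorem exists_neg (hA : S.Ax) (hp : S.GoodP p) (h : S.IsB σ T) (hT : T ∩ S.Kw = {k}) :
    ∃ τ ∈ S.Nb k σ, S.ph p τ T k < 0 := by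
  have hk := mem_inter.1 (hT ▸ mem_singleton_self k : k ∈ T ∩ S.Kw)
  have h1 := Sys.sum_yv hA hk.2 hk.1 h
  rw [er_inter hT, sum_empty, neg_zero] at h1
  have h2 : ∑ τ ∈ S.Nb k σ, S.ph p τ T k = 0 := by
    unfold Sys.ph
    rw [sum_comm]
    refine sum_eq_zero fun e he => ?_
    rw [← mul_sum, sum_congr rfl fun τ _ => by rw [hA.lc τ σ e he], ← map_sum, h1, map_zero,
      mul_zero]
  by_contra hn
  push Not at hn
  refine absurd h2 (ne_of_gt (sum_pos (fun τ hτ => lt_of_le_of_ne (hn τ hτ) ?_)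
    ⟨σ, Sys.self_Nb h.1⟩))
  exact (hp.2 τ T (Sys.sheet (θ := fun _ => 0) hA hk.2 hk.1 h hτ).1 k hk.1).symm

/-- the height of a vertex -/
noncomputable def hgt (S : Sys ι X V) (θ p : ι → ℝ) (v : (ι → X) × Finset ι) : ℝ :=
  ∑ e ∈ S.Cc, p e * S.L v.1 e (S.pt θ v.1 v.2)

omit [Inhabited X] in
theorem step (hA : S.Ax) (hG : S.Gen θ) (hp : S.GoodP p) (h : S.Vx θ σ T) (hc : c ∈ T)
    (h0 : T.erase c ∩ S.Kw = ∅) (hn : S.ph p σ T c < 0) :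
    ((σ, T), c) ∈ S.Db θ 0 ∧ S.Vx θ σ (S.nxt θ σ T c) ∧ (S.nxt θ σ T c ∩ S.Kw).card ≤ 1 ∧
      hgt S θ p (σ, T) < hgt S θ p (σ, S.nxt θ σ T c) := by
  have hb := bdd_of_neg hA hp h.1 hc hn
  obtain ⟨h1, h2, -, -, h3⟩ := Sys.piv hA hG h hc hb
  refine ⟨Sys.mem_Db.2 ⟨Sys.mem_Dt.2 ⟨h, hc, by rw [h0, card_empty]⟩, hb⟩, h1, ?_, ?_⟩
  · refine (card_le_card (t := {S.ent θ σ T c}) fun d hd => ?_).trans (card_singleton _).le
    rcases mem_insert.1 (mem_inter.1 hd).1 with h4 | h4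
    · exact mem_singleton.2 h4
    · exact absurd (mem_inter.2 ⟨h4, (mem_inter.1 hd).2⟩) (h0 ▸ notMem_empty d)
  · have : hgt S θ p (σ, S.nxt θ σ T c) = hgt S θ p (σ, T) - S.len θ σ T c * S.ph p σ T c := by
      unfold hgt Sys.ph
      rw [mul_sum, ← sum_sub_distrib]
      refine sum_congr rfl fun e _ => ?_
      simp only [h3, map_sub, map_smul, smul_eq_mul]
      ring
    rw [this]
    nlinarith [mul_pos h2 (neg_pos.2 hn)]

theorem climb (hA : S.Ax) (hG : S.Gen θ) (hp : S.GoodP p) (U : (ι → X) × Finset ι → ℝ)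
    (hU : ∀ d ∈ S.Db θ 0, U (S.key d.1.1 (S.nxt θ d.1.1 d.1.2 d.2)) = U (S.key d.1.1 d.1.2))
    (n : ℕ) : ∀ v : (ι → X) × Finset ι, S.Vx θ v.1 v.2 → (v.2 ∩ S.Kw).card ≤ 1 →
      ((S.VX θ).filter fun w => hgt S θ p v < hgt S θ p w).card < n →
      ∃ w ∈ S.Tm θ, (∀ c ∈ w.2, 0 < S.ph p w.1 w.2 c) ∧ U (S.key v.1 v.2) = U (S.key w.1 w.2) := by
  induction n with
  | zero => exact fun _ _ _ h => absurd h (Nat.not_lt_zero _)
  | succ n ih =>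
    rintro ⟨σ, T⟩ hv hc hn
    have key : ∀ τ c, S.Vx θ τ T → c ∈ T → T.erase c ∩ S.Kw = ∅ → S.ph p τ T c < 0 →
        hgt S θ p (τ, T) = hgt S θ p (σ, T) → S.key τ T = S.key σ T →
        ∃ w ∈ S.Tm θ, (∀ c ∈ w.2, 0 < S.ph p w.1 w.2 c) ∧ U (S.key σ T) = U (S.key w.1 w.2) := by
      intro τ c h1 h2 h3 h4 h5 h6
      obtain ⟨h7, h8, h9, h10⟩ := step hA hG hp h1 h2 h3 h4
      rw [h5] at h10
      obtain ⟨w, hw, h11, h12⟩ := ih (τ, S.nxt θ τ T c) h8 h9 (by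
        refine lt_of_lt_of_le (card_lt_card ⟨fun w hw => ?_, fun hs => ?_⟩) (Nat.lt_succ_iff.1 hn)
        · exact mem_filter.2 ⟨(mem_filter.1 hw).1, h10.trans (mem_filter.1 hw).2⟩
        · exact lt_irrefl _ (mem_filter.1 (hs (mem_filter.2 ⟨Sys.mem_VX.2 h8, h10⟩))).2)
      exact ⟨w, hw, h11, by rw [← h6, ← hU _ h7, h12]⟩
    rcases Nat.le_one_iff_eq_zero_or_eq_one.1 hc with h0 | h1
    · by_cases ha : ∀ c ∈ T, 0 < S.ph p σ T c
      · exact ⟨(σ, T), Sys.mem_VJ.2 ⟨hv, h0⟩, ha, rfl⟩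
      · push Not at ha
        obtain ⟨c, hc, ha⟩ := ha
        refine key σ c hv hc ?_ (lt_of_le_of_ne ha (hp.2 σ T hv.1 c hc)) rfl rfl
        rw [Finset.erase_inter, card_eq_zero.1 h0, erase_empty]
    · obtain ⟨k, hk⟩ := card_eq_one.1 h1
      have hk' := mem_inter.1 (hk ▸ mem_singleton_self k : k ∈ T ∩ S.Kw)
      obtain ⟨τ, hτ, h2⟩ := exists_neg hA hp hv.1 hk
      obtain ⟨h3, h4, -⟩ := Sys.sheet1 hA hk'.2 hk'.1 hv hτ
      refine key τ k h3 hk'.1 (er_inter hk) h2 (sum_congr rfl fun e he => ?_) h4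
      rw [(Sys.sheet (θ := θ) hA hk'.2 hk'.1 hv.1 hτ).2.2.2.2.1, hA.lc τ σ e he]

end H68

theorem conn : St_CONN := by
  intro ι X V _ _ _ _ S hA θ p hG hp
  refine ⟨fun σ T k h hT => ?_, fun hu U hU s hs t ht => ?_⟩
  · obtain ⟨τ, hτ, h1⟩ := H68.exists_neg hA hp h.1 hT
    have hk := mem_inter.1 (hT ▸ mem_singleton_self k : k ∈ T ∩ S.Kw)
    exact ⟨τ, hτ, H68.bdd_of_neg hA hp (Sys.sheet (θ := θ) hA hk.2 hk.1 h.1 hτ).1 hk.1 h1⟩
  · classical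
    have h : ∀ s ∈ S.Nd θ, ∃ w ∈ S.Tm θ, (∀ c ∈ w.2, 0 < S.ph p w.1 w.2 c) ∧
        U s = U (S.key w.1 w.2) := fun s hs => by
      unfold Sys.Nd at hs
      simp only [mem_image, mem_union, Sys.mem_VJ] at hs
      obtain ⟨v, hv, rfl⟩ := hs
      exact H68.climb hA hG hp U hU _ v (hv.elim (·.1) (·.1)) (hv.elim (fun h => by omega)
        fun h => h.2.le) (Nat.lt_succ_self _)
    obtain ⟨w, h1, h2, h3⟩ := h s hs
    obtain ⟨w', h4, h5, h6⟩ := h t ht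
    rw [h3, h6, hu w h1 w' h4 h2 h5]

end Pool.Agent.Lib.US
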