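import Pool.Agent.Lib.US.Blue

/-! The corner terms in codimension two and the Euler relation. -/

namespace Pool.Agent.Lib.US

open Finset

namespace Sys

variable {ι X V : Type} [DecidableEq ι] [AddCommGroup V] [Module ℝ V]
  {S : Sys ι X V} {θ b p : ι → ℝ} {σ : ι → X} {T : Finset ι} {k l : ι}

theorem sum_ph79 (hA : S.Ax) (hk : k ∈ S.Kw) (hT : k ∈ T) (h : S.IsB σ T) :
    ∑ τ ∈ S.Nb k σ, S.ph p τ T k =
      -∑ l ∈ (T.erase k) ∩ S.Kw, S.L σ l (S.w σ k) * S.ph p σ T l := by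
  unfold ph
  rw [sum_comm]
  simp only [mul_sum]
  rw [sum_comm (s := T.erase k ∩ S.Kw), ← sum_neg_distrib]
  refine sum_congr rfl fun e he => ?_
  rw [sum_congr rfl fun τ _ => by rw [hA.lc τ σ e he], ← mul_sum, ← map_sum, sum_yv hA hk hT h,
    map_neg, map_sum, mul_neg, mul_sum]
  exact congrArg _ (sum_congr rfl fun l _ => by rw [map_smul, smul_eq_mul]; ring)

theorem corner79 [Inhabited X] (hA : S.Ax) (hp : S.GoodP p) (U : (ι → X) × Finset ι → ℝ)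
    (h : S.Vx θ σ T) (hkl : k ≠ l) (hT : T ∩ S.Kw = {k, l}) :
    ∑ τ ∈ S.Nb2 k l σ, S.L τ k (S.w τ l) / (S.Nb l τ).card * S.slope θ U τ T k ^ 2 =
      -∑ τ ∈ S.Nb2 k l σ, S.ph p τ T l / S.ph p τ T k * S.slope θ U τ T k ^ 2 := by
  have hk : k ∈ T ∩ S.Kw := by rw [hT]; simp
  have hl : l ∈ T ∩ S.Kw := by rw [hT]; simp
  rw [mem_inter] at hk hl
  rw [sum_class (S.Nb2 k l σ) (S.Nb l) (fun τ hτ => self_Nb (mem_Nb2.1 hτ).1)
    (fun τ hτ => by rw [Nb2_comm] at hτ ⊢; exact Nb_sub_Nb2 hτ) (fun τ _ τ' h' => Nb_eq h')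
    fun τ => S.ph p τ T l / S.ph p τ T k * S.slope θ U τ T k ^ 2, ← sum_neg_distrib]
  refine sum_congr rfl fun τ hτ => ?_
  have h1 := (sheet2 hA hk.2 hl.2 hk.1 hl.1 h hτ).1
  have h2 : T.erase l ∩ S.Kw = {k} := by
    rw [erase_inter, hT, pair_comm, erase_insert (by simpa using hkl.symm)]
  have h3 := hp.2 τ T h1.1 k hk.1
  rw [sum_congr rfl fun τ' h' => by
    obtain ⟨-, -, -, -, -, h4, h5⟩ := (sheet1 hA hl.2 hl.1 h1 h').2.2 k hk.1 hkl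
    rw [h4, h5], ← sum_mul, ← sum_div, sum_ph79 hA hl.2 hl.1 h1.1, h2, sum_singleton]
  field_simp

theorem euler79 (hA : S.Ax) (h : S.IsB σ T) {z : V} (hz : z ∈ S.Vs σ)
    (h1 : ∀ k ∈ S.Kw, S.L σ k z = 0) (h2 : ∀ c ∈ S.Cc, b c = θ c + S.L σ c z) :
    ∑ e ∈ T ∩ S.Cc, b e * S.ph p σ T e = ∑ e ∈ S.Cc, p e * S.L σ e (S.pt θ σ T + z) := by
  have h3 : S.pt θ σ T + z = ∑ e ∈ T ∩ S.Cc, b e • S.yv σ T e := by
    rw [h.frame.span _ (add_mem h.pt_mem hz), ← sum_inter_add_sum_sdiff T S.Cc,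
      sum_eq_zero (s := T \ S.Cc) fun c hc => ?_, add_zero]
    · refine sum_congr rfl fun c hc => ?_
      rw [mem_inter] at hc
      rw [map_add, h.pt_tight hc.1, th, if_neg (disjoint_right.1 hA.disj hc.2), h2 c hc.2]
    · rw [mem_sdiff] at hc
      have h4 := (mem_Cn.1 (h.2.1 hc.1)).resolve_right hc.2
      rw [map_add, h.pt_tight hc.1, th, if_pos h4, h1 c h4, add_zero, zero_smul]
  rw [h3]
  simp only [ph, map_sum, mul_sum, map_smul, smul_eq_mul]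
  rw [sum_comm]
  exact sum_congr rfl fun e _ => sum_congr rfl fun c _ => by ring

end Sys

open Sys

theorem cor2 : St_COR2 := by
  intro ι X V _ _ _ _ S hA θ p hp U σ T k l h hkl hT h0
  have hk : k ∈ T ∩ S.Kw := by rw [hT]; simp
  have hl : l ∈ T ∩ S.Kw := by rw [hT]; simp
  rw [mem_inter] at hk hl
  have h1 := hA.hodge σ h.1.1 k hk.2 l hl.2 hkl (fun τ => S.slope θ U τ T k)
    (fun τ => S.slope θ U τ T l)
    (fun τ hτ τ' h' => ((sheet1 hA hl.2 hl.1 (sheet2 hA hk.2 hl.2 hk.1 hl.1 h hτ).1 h').2.2 k hk.1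
      hkl).2.2.2.2.2.1 U)
    (fun τ hτ τ' h' => ((sheet1 hA hk.2 hk.1 (sheet2 hA hk.2 hl.2 hk.1 hl.1 h hτ).1 h').2.2 l hl.1
      hkl.symm).2.2.2.2.2.1 U) h0
  have h2 := corner79 hA hp U h hkl hT
  have h3 := corner79 hA hp U h hkl.symm (by rw [hT, pair_comm])
  rw [Nb2_comm] at h3
  rw [sum_add_distrib, sum_add_distrib, h2, h3] at h1
  rw [sum_sub_distrib, sum_sub_distrib]
  linarith

theorem eul : St_EUL := by
  classical
  intro ι X V _ _ _ _ S hA θ b p hG ⟨_, z, hz⟩ hp U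
  have h0 := sum_Db_zero hA hG 0 (fun d => S.om b (d.1.2.erase d.2) *
    S.slope θ U d.1.1 d.1.2 d.2 ^ 2 * ((∑ e ∈ d.1.2 ∩ S.Cc, b e * S.ph p d.1.1 d.1.2 e) /
      S.ph p d.1.1 d.1.2 d.2 - S.len θ d.1.1 d.1.2 d.2 / 2)) fun d hd => by
    obtain ⟨h1, h2⟩ := mem_Db.1 hd
    obtain ⟨h3, h4, -⟩ := mem_Dt.1 h1
    obtain ⟨h5, -, -, -, h6⟩ := piv hA hG h3 h4 h2
    obtain ⟨z1, z2, z3⟩ := hz _ h3.1.1
    have h7 := hp.2 _ _ h3.1 _ h4
    rw [(rev_mem hA hG hd).2.2]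
    simp only [rev]
    rw [slope_rev hA hG h3 h4 h2, ph_rev hA hG h3 h4 h2, (piv_back hA hG h3 h4 h2).2.2.2,
      euler79 hA h5.1 z1 z2 z3, euler79 hA h3.1 z1 z2 z3, h6]
    have h8 : ∑ e ∈ S.Cc, p e * S.L d.1.1 e (S.pt θ d.1.1 d.1.2 -
        S.len θ d.1.1 d.1.2 d.2 • S.yv d.1.1 d.1.2 d.2 + z) =
        ∑ e ∈ S.Cc, p e * S.L d.1.1 e (S.pt θ d.1.1 d.1.2 + z) -
          S.len θ d.1.1 d.1.2 d.2 * S.ph p d.1.1 d.1.2 d.2 := by
      rw [ph, mul_sum, ← sum_sub_distrib]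
      refine sum_congr rfl fun e _ => ?_
      simp only [map_add, map_sub, map_smul, smul_eq_mul]
      ring
    rw [h8]
    field_simp
    ring
  rw [Db, sum_filter_of_ne fun d _ hne => by
    by_contra hb
    exact hne (by rw [Sys.slope, if_neg hb]; simp)] at h0
  rw [En, mul_sum, ← sub_eq_zero, ← sum_sub_distrib, ← neg_eq_zero, ← sum_neg_distrib, ← h0]
  exact sum_congr rfl fun d _ => by ring

end Pool.Agent.Lib.US
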