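import Pool.Agent.Lib.US.Blue

namespace Pool.Agent.Lib.US

open Finset

open Classical in
/-- summation by parts on a finite network -/
theorem green {δ N : Type} (D : Finset δ) (rev : δ → δ) (src : δ → N) (c : δ → ℝ) (I : Finset N)
    (hD : ∀ d ∈ D, rev d ∈ D ∧ rev (rev d) = d ∧ c (rev d) = c d ∧ 0 < c d) (ψ G : N → ℝ)
    (hψ : ∀ d ∈ D, src d ∉ I → ψ (src d) = 0) :
    ∑ s ∈ I, ψ s * ∑ d ∈ D.filter fun d => src d = s, c d * (G s - G (src (rev d))) =
      (1 / 2) * ∑ d ∈ D, c d * ((ψ (src d) - ψ (src (rev d))) * (G (src d) - G (src (rev d)))) := by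
  have h1 : ∑ s ∈ I, ψ s * ∑ d ∈ D.filter fun d => src d = s, c d * (G s - G (src (rev d))) =
      ∑ d ∈ D, ψ (src d) * (c d * (G (src d) - G (src (rev d)))) := by
    rw [sum_congr rfl fun s _ => show ψ s * ∑ d ∈ D.filter fun d => src d = s,
        c d * (G s - G (src (rev d))) = ∑ d ∈ D.filter fun d => src d = s,
        ψ (src d) * (c d * (G (src d) - G (src (rev d)))) from by
      rw [mul_sum]
      exact sum_congr rfl fun d hd => by rw [(mem_filter.1 hd).2]]
    simp only [sum_filter]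
    rw [sum_comm]
    refine sum_congr rfl fun d hd => ?_
    rw [sum_ite_eq]
    split_ifs with h
    · rfl
    · rw [hψ d hd h, zero_mul]
  have h2 : ∑ d ∈ D, ψ (src d) * (c d * (G (src d) - G (src (rev d)))) =
      ∑ d ∈ D, ψ (src (rev d)) * (c d * (G (src (rev d)) - G (src d))) :=
    sum_nbij' rev rev (fun d hd => (hD d hd).1) (fun d hd => (hD d hd).1)
      (fun d hd => (hD d hd).2.1) (fun d hd => (hD d hd).2.1) fun d hd => by
        rw [(hD d hd).2.1, (hD d hd).2.2.1]
  have h3 : ∑ d ∈ D, c d * ((ψ (src d) - ψ (src (rev d))) * (G (src d) - G (src (rev d)))) =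
      ∑ d ∈ D, ψ (src d) * (c d * (G (src d) - G (src (rev d)))) +
        ∑ d ∈ D, ψ (src (rev d)) * (c d * (G (src (rev d)) - G (src d))) := by
    rw [← sum_add_distrib]
    exact sum_congr rfl fun d _ => by ring
  rw [h1, h3, ← h2]
  ring

theorem ext : St_EXT := by
  classical
  intro δ N D rev src c I h G0 hD hh
  let Lap : (N → ℝ) → N → ℝ := fun G s =>
    ∑ d ∈ D.filter fun d => src d = s, c d * (G s - G (src (rev d)))
  have hadd : ∀ G G' s, Lap (G + G') s = Lap G s + Lap G' s := fun G G' s => by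
    simp only [Lap, ← sum_add_distrib, Pi.add_apply]
    exact sum_congr rfl fun d _ => by ring
  have hsm : ∀ (r : ℝ) G s, Lap (r • G) s = r * Lap G s := fun r G s => by
    simp only [Lap, mul_sum, Pi.smul_apply, smul_eq_mul]
    exact sum_congr rfl fun d _ => by ring
  let R : Submodule ℝ (I → ℝ) :=
    { carrier := {r | ∃ φ : N → ℝ, (∀ s, s ∉ I → φ s = 0) ∧ ∀ s : I, r s = Lap φ s}
      add_mem' := by
        rintro r r' ⟨φ, h1, h2⟩ ⟨φ', h3, h4⟩
        exact ⟨φ + φ', fun s hs => by simp [h1 s hs, h3 s hs],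
          fun s => by rw [hadd, Pi.add_apply, h2, h4]⟩
      zero_mem' := ⟨0, fun _ _ => rfl, fun s => by simp [Lap]⟩
      smul_mem' := by
        rintro r x ⟨φ, h1, h2⟩
        exact ⟨r • φ, fun s hs => by simp [h1 s hs],
          fun s => by rw [hsm, Pi.smul_apply, h2, smul_eq_mul]⟩ }
  have key : (fun s : I => h s - Lap G0 s) ∈ R := by
    by_contra hne
    obtain ⟨f, hf, hf0⟩ := Submodule.exists_dual_map_eq_bot_of_notMem hne inferInstance
    let ψ : N → ℝ := fun s => if hs : s ∈ I then f (fun j => if ⟨s, hs⟩ = j then 1 else 0) else 0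
    have hψ : ∀ s, s ∉ I → ψ s = 0 := fun s hs => dif_neg hs
    have hf1 : ∀ g : N → ℝ, f (fun s : I => g s) = ∑ s ∈ I, ψ s * g s := fun g => by
      rw [LinearMap.pi_apply_eq_sum_univ, ← sum_coe_sort I]
      refine sum_congr rfl fun s _ => ?_
      simp only [ψ, dif_pos s.2, smul_eq_mul, mul_comm]
    have h1 : f (fun s : I => Lap ψ s) = 0 := by
      have : f (fun s : I => Lap ψ s) ∈ R.map f := ⟨_, ⟨ψ, hψ, fun _ => rfl⟩, rfl⟩
      rwa [hf0, Submodule.mem_bot] at this
    rw [hf1, green D rev src c I hD ψ ψ fun d _ hd => hψ _ hd] at h1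
    have h2 : ∀ d ∈ D, ψ (src (rev d)) = ψ (src d) := fun d hd => by
      have h3 := (sum_eq_zero_iff_of_nonneg fun d hd =>
        mul_nonneg (hD d hd).2.2.2.le (mul_self_nonneg (ψ (src d) - ψ (src (rev d))))).1
        (by linarith) d hd
      have h4 := mul_self_eq_zero.1 ((mul_eq_zero.1 h3).resolve_left (hD d hd).2.2.2.ne')
      linarith
    apply hf
    rw [hf1 fun s => h s - Lap G0 s, sum_congr rfl fun s _ => mul_sub _ _ _, sum_sub_distrib,
      hh ψ hψ h2, green D rev src c I hD ψ G0 fun d _ hd => hψ _ hd,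
      sum_eq_zero fun d hd => by rw [h2 d hd, sub_self, zero_mul, mul_zero]]
    simp
  obtain ⟨φ, h1, h2⟩ := key
  refine ⟨G0 + φ, fun s hs => by simp [h1 s hs], fun s hs => ?_⟩
  have h3 := hadd G0 φ s
  have h4 := h2 ⟨s, hs⟩
  simp only at h4
  change Lap (G0 + φ) s = h s
  linarith

end Pool.Agent.Lib.US
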