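import Pool.Agent.Lib.US.B_EXT

namespace Pool.Agent.Lib.US

open Finset

namespace Sys

variable {ι X V : Type} [DecidableEq ι] [Inhabited X] [AddCommGroup V] [Module ℝ V]
  {S : Sys ι X V} {θ : ι → ℝ} {σ τ : ι → X} {T : Finset ι}

theorem key_eq_iff : S.key τ T = S.key σ T ↔ ∀ j, ¬(j ∈ T ∧ j ∈ S.Kw) → τ j = σ j := by
  unfold key
  rw [Prod.mk.injEq, and_iff_left rfl, funext_iff]
  refine forall_congr' fun j => ?_
  by_cases h : j ∈ T ∧ j ∈ S.Kw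
  · simp [h]
  · rw [if_neg h, if_neg h]
    exact ⟨fun a _ => a, fun a => a h⟩

open Classical in
/-- the Laplacian at a node as a sum of slopes -/
theorem lap_eq (j : ℕ) (wt : ((ι → X) × Finset ι) × ι → ℝ) (G : (ι → X) × Finset ι → ℝ)
    (A : Finset (ι → X)) (C : Finset ι)
    (hA : ∀ τ, τ ∈ A ↔ S.Vx θ τ T ∧ S.key τ T = S.key σ T)
    (hC : ∀ c, c ∈ C ↔ c ∈ T ∧ (T.erase c ∩ S.Kw).card = j)
    (F : Finset (((ι → X) × Finset ι) × ι))
    (hF : ∀ d, d ∈ F ↔ d ∈ S.Db θ j ∧ S.key d.1.1 d.1.2 = S.key σ T) :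
    ∑ d ∈ F, wt d / S.len θ d.1.1 d.1.2 d.2 *
        (G (S.key σ T) - G (S.key (S.rev θ d).1.1 (S.rev θ d).1.2)) =
      -∑ τ ∈ A, ∑ c ∈ C, wt ((τ, T), c) * S.slope θ G τ T c := by
  rw [← sum_product', ← sum_neg_distrib,
    ← sum_filter_of_ne (s := A ×ˢ C) (p := fun x => (S.cand x.1 T x.2).Nonempty)]
  · refine (sum_nbij' (fun x => ((x.1, T), x.2)) (fun d => (d.1.1, d.2)) (fun x hx => ?_)
      (fun d hd => ?_) (fun _ _ => rfl) (fun d hd => ?_) fun x hx => ?_).symm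
    · obtain ⟨h1, h2⟩ := mem_filter.1 hx
      obtain ⟨h3, h4⟩ := mem_product.1 h1
      exact (hF _).2 ⟨mem_Db.2 ⟨mem_Dt.2 ⟨((hA _).1 h3).1, (hC _).1 h4⟩, h2⟩, ((hA _).1 h3).2⟩
    · obtain ⟨h1, h2⟩ := (hF _).1 hd
      have h3 : d.1.2 = T := congrArg Prod.snd h2
      obtain ⟨h4, h5⟩ := mem_Db.1 h1
      obtain ⟨h6, h7⟩ := mem_Dt.1 h4
      rw [h3] at h2 h5 h6 h7
      exact mem_filter.2 ⟨mem_product.2 ⟨(hA _).2 ⟨h6, h2⟩, (hC _).2 h7⟩, h5⟩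
    · have h3 : d.1.2 = T := congrArg Prod.snd ((hF _).1 hd).2
      rw [← h3]
    · obtain ⟨h1, h2⟩ := mem_filter.1 hx
      unfold slope
      rw [if_pos h2, ((hA _).1 (mem_product.1 h1).1).2]
      simp only [rev]
      ring
  · intro x _ h
    by_contra h'
    apply h
    unfold slope
    rw [if_neg h', mul_zero, neg_zero]

omit [Inhabited X] in
theorem net_ok (hA : S.Ax) (hG : S.Gen θ) (j : ℕ) (W : (ι → X) → Finset ι → ℝ)
    (hW : ∀ d ∈ S.Db θ j, 0 < W d.1.1 (d.1.2.erase d.2)) : ∀ d ∈ S.Db θ j,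
    S.rev θ d ∈ S.Db θ j ∧ S.rev θ (S.rev θ d) = d ∧
      W (S.rev θ d).1.1 ((S.rev θ d).1.2.erase (S.rev θ d).2) /
        S.len θ (S.rev θ d).1.1 (S.rev θ d).1.2 (S.rev θ d).2 =
      W d.1.1 (d.1.2.erase d.2) / S.len θ d.1.1 d.1.2 d.2 ∧
      0 < W d.1.1 (d.1.2.erase d.2) / S.len θ d.1.1 d.1.2 d.2 := fun d hd => by
  obtain ⟨h1, h2, h3⟩ := rev_mem hA hG hd
  obtain ⟨h4, h5⟩ := mem_Db.1 hd
  obtain ⟨h6, h7, -⟩ := mem_Dt.1 h4
  refine ⟨h1, h2, ?_, div_pos (hW d hd) (piv hA hG h6 h7 h5).2.1⟩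
  rw [h3]
  exact congrArg (W d.1.1 (d.1.2.erase d.2) / ·) (piv_back hA hG h6 h7 h5).2.2.2

end Sys

open Sys

theorem ext2 (hE : St_EXT) : St_EXT2 := by
  classical
  intro ι X V _ _ _ _ S hA θ hG U
  obtain ⟨G, h1, h2⟩ := hE _ _ (S.Db θ 1) (S.rev θ) (fun d => S.key d.1.1 d.1.2)
    (fun d => (∑ l ∈ d.1.2.erase d.2 ∩ S.Kw, S.nu d.1.1 l) / S.len θ d.1.1 d.1.2 d.2)
    ((S.VJ θ 2).image fun v => S.key v.1 v.2) (fun _ => 0) U
    (net_ok hA hG 1 (fun σ T => ∑ l ∈ T ∩ S.Kw, S.nu σ l) fun d hd => by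
      obtain ⟨h3, -, h4⟩ := mem_Dt.1 (mem_Db.1 hd).1
      exact sum_pos (fun l hl => zero_lt_one.trans_le (hA.nu_ge _ h3.1.1 l (mem_inter.1 hl).2))
        (card_pos.1 (by omega))) (fun _ _ _ => by simp)
  refine ⟨G, fun s hs => h1 s fun h => ?_, fun σ T k l hv hkl hT => ?_⟩
  · obtain ⟨v, h3, rfl⟩ := mem_image.1 h
    have h4 : (v.2 ∩ S.Kw).card ≤ 1 := hs
    rw [(mem_VJ.1 h3).2] at h4
    omega
  · have hk : k ∈ T ∩ S.Kw := by rw [hT]; simp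
    have hl : l ∈ T ∩ S.Kw := by rw [hT]; simp
    rw [mem_inter] at hk hl
    have he : ∀ c, T.erase c ∩ S.Kw = ({k, l} : Finset ι).erase c := fun c => by
      rw [← hT, erase_inter]
    have hek : T.erase k ∩ S.Kw = {l} := by rw [he, erase_insert (by simpa using hkl)]
    have hel : T.erase l ∩ S.Kw = {k} := by
      rw [he, pair_comm, erase_insert (by simpa using hkl.symm)]
    have h3 := h2 (S.key σ T) (mem_image.2 ⟨(σ, T), mem_VJ.2 ⟨hv, by rw [hT, card_pair hkl]⟩, rfl⟩)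
    have h4 := lap_eq (S := S) (θ := θ) (σ := σ) (T := T) 1
      (fun d => ∑ l ∈ d.1.2.erase d.2 ∩ S.Kw, S.nu d.1.1 l) G (S.Nb2 k l σ) {k, l}
      (fun τ => ⟨fun h => ⟨(sheet2 hA hk.2 hl.2 hk.1 hl.1 hv h).1,
        (sheet2 hA hk.2 hl.2 hk.1 hl.1 hv h).2.1⟩, fun h => mem_Nb2.2 ⟨h.1.1.1, fun j a b =>
          key_eq_iff.1 h.2 j fun hj => by
            have := mem_inter.2 hj
            rw [hT] at this
            simp [a, b] at this⟩⟩)
      (fun c => ⟨fun h => by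
        rcases mem_insert.1 h with rfl | h
        · exact ⟨hk.1, by rw [hek, card_singleton]⟩
        · rw [mem_singleton.1 h]
          exact ⟨hl.1, by rw [hel, card_singleton]⟩, fun h => by
        by_contra hc
        have := h.2
        rw [he, erase_eq_of_notMem hc, card_pair hkl] at this
        omega⟩)
    rw [h4 _ fun _ => by simp only [mem_filter]] at h3
    have h5 := h3
    rw [neg_eq_zero] at h5
    refine Eq.trans (sum_congr rfl fun τ _ => ?_) h5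
    rw [sum_pair hkl]
    simp only [hek, hel, sum_singleton]

end Pool.Agent.Lib.US
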