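import Pool.Agent.Lib.US.Blue

/-! Slacks are signed sums of thresholds. -/

namespace Pool.Agent.Lib.US

open Finset

theorem H76.sl_eq {ι X V : Type} [DecidableEq ι] [AddCommGroup V] [Module ℝ V]
    {S : Sys ι X V} (hA : S.Ax) {σ : ι → X} {T : Finset ι} (hB : S.IsB σ T) {d : ι}
    (hd : d ∈ S.Cn) (hT : d ∉ T) : ∃ κ : ι → ℤ, (∀ c, |κ c| ≤ 1) ∧ (∃ c ∈ S.Cc, κ c ≠ 0) ∧
      ∀ θ : ι → ℝ, S.sl θ σ T d = ∑ c ∈ S.Cc, (κ c : ℝ) * θ c := by
  classical
  have hz : ∀ c, ∃ z : ℤ, |z| ≤ 1 ∧ (c ∈ T → (z : ℝ) = -S.L σ d (S.yv σ T c)) ∧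
      (c = d → z = 1) ∧ (c ∉ T → c ≠ d → z = 0) := by
    intro c
    by_cases hc : c ∈ T
    · have hcd : c ≠ d := fun h => hT (h ▸ hc)
      rcases hA.tu σ T hB c hc d hd with h | h | h
      · exact ⟨0, by simp, fun _ => by simp [h], fun h => absurd h hcd, fun h => absurd hc h⟩
      · exact ⟨-1, by simp, fun _ => by simp [h], fun h => absurd h hcd, fun h => absurd hc h⟩
      · exact ⟨1, by simp, fun _ => by simp [h], fun h => absurd h hcd, fun h => absurd hc h⟩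
    · by_cases hcd : c = d
      · exact ⟨1, by simp, fun h => absurd h hc, fun _ => rfl, fun _ h => absurd hcd h⟩
      · exact ⟨0, by simp, fun h => absurd h hc, fun h => absurd h hcd, fun _ _ => rfl⟩
  choose κ h1 h2 h3 h4 using hz
  have hK : ∀ c ∈ S.Cc, c ∉ S.Kw := fun c hc h => disjoint_left.1 hA.disj h hc
  refine ⟨κ, h1, ?_, fun θ => ?_⟩
  · rcases Sys.mem_Cn.1 hd with hk | hc
    · by_contra h
      push Not at h
      obtain ⟨hu, hu'⟩ := hA.ray σ hB.1 d hk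
      have h5 := congrArg (S.L σ d) (hB.frame.span _ hu)
      rw [hu' d hk, if_pos rfl, map_sum, sum_eq_zero] at h5
      · norm_num at h5
      · intro c hc
        rw [map_smul, smul_eq_mul]
        rcases Sys.mem_Cn.1 (hB.2.1 hc) with hck | hcc
        · rw [hu' c hck, if_neg fun h' : c = d => hT (h' ▸ hc), zero_mul]
        · have h6 := h2 c hc
          rw [h c hcc, Int.cast_zero, zero_eq_neg] at h6
          rw [h6, mul_zero]
    · exact ⟨d, hc, by rw [h3 d rfl]; exact one_ne_zero⟩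
  · have e1 : ∑ c ∈ S.Cc, (κ c : ℝ) * θ c = ∑ c ∈ S.Cn, (κ c : ℝ) * S.th θ c := by
      rw [Sys.Cn, sum_union hA.disj, sum_eq_zero (s := S.Kw) fun c hc => by
        rw [Sys.th, if_pos hc, mul_zero], zero_add]
      exact sum_congr rfl fun c hc => by rw [Sys.th, if_neg (hK c hc)]
    have e2 : ∑ c ∈ insert d T, (κ c : ℝ) * S.th θ c = ∑ c ∈ S.Cn, (κ c : ℝ) * S.th θ c :=
      sum_subset (insert_subset hd hB.2.1) fun c _ hc => by
        rw [mem_insert, not_or] at hc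
        rw [h4 c hc.2 hc.1, Int.cast_zero, zero_mul]
    rw [e1, ← e2, sum_insert hT, h3 d rfl, Int.cast_one, one_mul, Sys.sl, Sys.L_pt, sub_eq_add_neg,
      ← sum_neg_distrib]
    congr 1
    exact sum_congr rfl fun c hc => by rw [h2 c hc]; ring

theorem gen : St_GEN := by
  intro ι X V _ _ _ S hA θ
  refine ⟨fun hG σ T hB d hd hT => ?_, fun σ T hB d hd hT => ?_⟩
  · obtain ⟨κ, h1, h2, h3⟩ := H76.sl_eq hA hB hd hT
    rw [h3]
    exact hG κ h1 h2
  · obtain ⟨κ, h1, -, h3⟩ := H76.sl_eq hA hB hd hT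
    rw [h3]
    refine ⟨(abs_sum_le_sum_abs _ _).trans (sum_le_sum fun c _ => ?_), fun h => ?_⟩
    · rw [abs_mul]
      have h4 : |(κ c : ℝ)| ≤ 1 := by exact_mod_cast h1 c
      exact mul_le_of_le_one_left (abs_nonneg _) h4
    · choose n hn using h
      refine ⟨∑ c ∈ S.Cc, κ c * n c, ?_⟩
      push_cast
      exact sum_congr rfl fun c _ => by rw [hn c]

end Pool.Agent.Lib.US
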