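import Pool.Agent.Lib.US.Blue

/-! The exchange lemma: the partition function does not change when one threshold moves. -/

namespace Pool.Agent.Lib.US

open Finset

namespace H38

variable {ι X V : Type} [DecidableEq ι] [AddCommGroup V] [Module ℝ V]
  {S : Sys ι X V} {θ θ' a : ι → ℝ} {c : ι}

theorem om_erase {T : Finset ι} {d : ι} (hd : d ∈ T) (hc : d ∈ S.Cc) (ha : 0 < a d) :
    S.om a (T.erase d) = a d * S.om a T := by
  unfold Sys.om
  rw [← mul_prod_erase (T ∩ S.Cc) _ (mem_inter.2 ⟨hd, hc⟩), erase_inter, ← mul_assoc,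
    mul_inv_cancel₀ ha.ne', one_mul]

theorem th_eq (h : ∀ d, d ≠ c → θ' d = θ d) {d : ι} (hd : d ≠ c) : S.th θ' d = S.th θ d := by
  unfold Sys.th; rw [h d hd]

theorem th_c (hA : S.Ax) (hc : c ∈ S.Cc) (θ : ι → ℝ) : S.th θ c = θ c := by
  unfold Sys.th; rw [if_neg fun h => disjoint_left.1 hA.disj h hc]

theorem pt_eq (h : ∀ d, d ≠ c → θ' d = θ d) {σ : ι → X} {T : Finset ι} (hT : c ∉ T) :
    S.pt θ' σ T = S.pt θ σ T :=
  sum_congr rfl fun d hd => by rw [th_eq h fun h' : d = c => hT (h' ▸ hd)]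

open Classical in
/-- the flux through a dart that starts above the level `t` -/
noncomputable def fl (S : Sys ι X V) (θ' a : ι → ℝ) (c : ι) (t : ℝ)
    (x : ((ι → X) × Finset ι) × ι) : ℝ :=
  if c ∉ x.1.2.erase x.2 ∧ t < S.L x.1.1 c (S.pt θ' x.1.1 x.1.2) then
    S.om a (x.1.2.erase x.2) * S.L x.1.1 c (S.yv x.1.1 x.1.2 x.2) else 0

open Classical in
/-- the sum over darts as a sum over vertices -/
theorem sum_Dt (F : ((ι → X) × Finset ι) × ι → ℝ) : ∑ x ∈ S.Dt θ 0, F x =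
    ∑ v ∈ S.Tm θ, ∑ d ∈ v.2, F (v, d) + ∑ k ∈ S.Kw, ∑ T ∈ S.Cn.powerset,
      ∑ σ ∈ S.Ch.filter fun σ => S.Vx θ σ T ∧ T ∩ S.Kw = {k}, F ((σ, T), k) := by
  rw [← sum_filter_add_sum_filter_not (S.Dt θ 0) fun x => x.2 ∉ S.Kw]
  congr 1
  · rw [sum_sigma']
    refine sum_nbij' (fun x => ⟨x.1, x.2⟩) (fun x => (x.1, x.2)) (fun x hx => ?_) (fun x hx => ?_)
      (fun _ _ => rfl) (fun _ _ => rfl) fun _ _ => rfl
    · obtain ⟨h1, h2⟩ := mem_filter.1 hx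
      obtain ⟨h3, h4, h5⟩ := Sys.mem_Dt.1 h1
      refine mem_sigma.2 ⟨Sys.mem_VJ.2 ⟨h3, ?_⟩, h4⟩
      rwa [erase_inter, erase_eq_of_notMem fun h => h2 (mem_inter.1 h).2] at h5
    · obtain ⟨h1, h2⟩ := mem_sigma.1 hx
      obtain ⟨h3, h4⟩ := Sys.mem_VJ.1 h1
      rw [card_eq_zero] at h4
      refine mem_filter.2 ⟨Sys.mem_Dt.2 ⟨h3, h2, ?_⟩, fun h => ?_⟩
      · rw [erase_inter, h4, erase_empty, card_empty]
      · exact notMem_empty _ (h4 ▸ mem_inter.2 ⟨h2, h⟩)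
  · rw [sum_sigma', sum_sigma']
    refine sum_nbij' (fun x => ⟨⟨x.2, x.1.2⟩, x.1.1⟩) (fun x => ((x.2, x.1.2), x.1.1))
      (fun x hx => ?_) (fun x hx => ?_) (fun _ _ => rfl) (fun _ _ => rfl) fun _ _ => rfl
    · obtain ⟨h1, h2⟩ := mem_filter.1 hx
      obtain ⟨h3, h4, h5⟩ := Sys.mem_Dt.1 h1
      rw [not_not] at h2
      refine mem_sigma.2 ⟨mem_sigma.2 ⟨h2, mem_powerset.2 h3.1.2.1⟩,
        mem_filter.2 ⟨h3.1.1, h3, ?_⟩⟩
      rw [erase_inter, card_eq_zero] at h5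
      rw [← insert_erase (mem_inter.2 ⟨h4, h2⟩), h5]
      rfl
    · obtain ⟨h1, h2⟩ := mem_sigma.1 hx
      obtain ⟨-, h3, h4⟩ := mem_filter.1 h2
      have h5 : x.1.1 ∈ x.1.2 ∩ S.Kw := h4 ▸ mem_singleton_self _
      refine mem_filter.2 ⟨Sys.mem_Dt.2 ⟨h3, (mem_inter.1 h5).1, ?_⟩, not_not.2 (mem_inter.1 h5).2⟩
      rw [erase_inter, h4, erase_singleton, card_empty]

theorem fl_wall (hA : S.Ax) (hc : c ∈ S.Cc) (t : ℝ) {k : ι} (hk : k ∈ S.Kw) (T : Finset ι)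
    [DecidablePred fun σ => S.Vx θ σ T ∧ T ∩ S.Kw = {k}] :
    ∑ σ ∈ S.Ch.filter fun σ => S.Vx θ σ T ∧ T ∩ S.Kw = {k}, fl S θ a c t ((σ, T), k) = 0 := by
  have hkT : ∀ σ ∈ S.Ch.filter fun σ => S.Vx θ σ T ∧ T ∩ S.Kw = {k}, k ∈ T := fun σ hσ =>
    (mem_inter.1 ((mem_filter.1 hσ).2.2 ▸ mem_singleton_self k : k ∈ T ∩ S.Kw)).1
  rw [Sys.sum_class _ (S.Nb k) (fun σ hσ => Sys.self_Nb (mem_filter.1 hσ).1)
    (fun σ hσ τ hτ => ?_) fun σ _ τ hτ => Sys.Nb_eq hτ]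
  · refine sum_eq_zero fun σ hσ => ?_
    obtain ⟨-, h1, h2⟩ := mem_filter.1 hσ
    have h3 := Sys.sum_yv hA hk (hkT σ hσ) h1.1
    rw [erase_inter, h2, erase_singleton, sum_empty, neg_zero] at h3
    have h4 : ∀ τ ∈ S.Nb k σ, fl S θ a c t ((τ, T), k) =
        if c ∉ T.erase k ∧ t < S.L σ c (S.pt θ σ T) then
          S.om a (T.erase k) * S.L σ c (S.yv τ T k) else 0 := fun τ hτ => by
      unfold fl
      simp only [hA.lc τ σ c hc, (Sys.sheet (θ := θ) hA hk (hkT σ hσ) h1.1 hτ).2.2.2.2.1]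
    rw [sum_congr rfl h4]
    split_ifs
    · rw [← mul_sum, ← map_sum, h3, map_zero, mul_zero, zero_div]
    · rw [sum_const_zero, zero_div]
  · obtain ⟨-, h1, h2⟩ := mem_filter.1 hσ
    obtain ⟨h3, -, -, -, -, h4⟩ := Sys.sheet (θ := θ) hA hk (hkT σ hσ) h1.1 hτ
    exact mem_filter.2 ⟨h3.1, ⟨h3, fun d hd hd' => by rw [h4 d hd]; exact h1.2 d hd hd'⟩, h2⟩

theorem fl_term (ha : S.Cost (fun _ => 0) a) (hc : c ∈ S.Cc) (t : ℝ) {v : (ι → X) × Finset ι}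
    (hv : v ∈ S.Tm θ) : ∑ d ∈ v.2, fl S θ a c t (v, d) =
      if t < S.L v.1 c (S.pt θ v.1 v.2) then a c * S.om a v.2 else 0 := by
  obtain ⟨h1, h2⟩ := Sys.mem_VJ.1 hv
  rw [card_eq_zero] at h2
  have h3 : ∀ d ∈ v.2, d ∈ S.Cc := fun d hd => (Sys.mem_Cn.1 (h1.1.2.1 hd)).resolve_left
    fun h => notMem_empty _ (h2 ▸ mem_inter.2 ⟨hd, h⟩)
  split_ifs with ht
  · obtain ⟨z, hz⟩ := ha.2
    obtain ⟨h4, -, h5⟩ := hz v.1 h1.1.1
    have h6 := congrArg (S.L v.1 c) (h1.1.frame.span z h4)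
    rw [map_sum] at h6
    rw [h5 c hc, zero_add, h6, sum_mul]
    refine sum_congr rfl fun d hd => ?_
    unfold fl
    rw [map_smul, smul_eq_mul]
    by_cases h7 : c ∈ v.2.erase d
    · rw [if_neg fun h => h.1 h7, h1.1.frame.dual d hd c (mem_of_mem_erase h7),
        if_neg (ne_of_mem_erase h7), mul_zero, zero_mul]
    · rw [if_pos ⟨h7, ht⟩, om_erase hd (h3 d hd) (ha.1 d (h3 d hd)), h5 d (h3 d hd)]
      ring
  · exact sum_eq_zero fun d _ => if_neg fun h => ht h.2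

/-- the darts that cross the level `t` -/
def Cr (S : Sys ι X V) (θ' : ι → ℝ) (c : ι) (t : ℝ) (x : ((ι → X) × Finset ι) × ι) : Prop :=
  c ∉ x.1.2.erase x.2 ∧ t < S.L x.1.1 c (S.pt θ' x.1.1 x.1.2) ∧
    S.L x.1.1 c (S.yv x.1.1 x.1.2 x.2) = 1 ∧ ((S.cand x.1.1 x.1.2 x.2).Nonempty →
      S.L x.1.1 c (S.pt θ' x.1.1 x.1.2) - S.len θ' x.1.1 x.1.2 x.2 ≤ t)

open Classical in
theorem fl_cross (hA : S.Ax) (hG : S.Gen θ) (hc : c ∈ S.Cc) (t : ℝ) :
    ∑ x ∈ S.Dt θ 0, fl S θ a c t x =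
      ∑ x ∈ (S.Dt θ 0).filter (Cr S θ c t), S.om a (x.1.2.erase x.2) := by
  have h0 := Sys.sum_Db_zero hA hG 0 (fun x =>
    if t < S.L x.1.1 c (S.pt θ x.1.1 (S.nxt θ x.1.1 x.1.2 x.2)) then fl S θ a c t x else 0)
    fun x hx => by
      obtain ⟨h1, h2⟩ := Sys.mem_Db.1 hx
      obtain ⟨h3, h4, -⟩ := Sys.mem_Dt.1 h1
      unfold fl
      simp only [Sys.rev, (Sys.piv_back hA hG h3 h4 h2).2.2.1, Sys.nxt_erase h2,
        (Sys.piv hA hG h3 h4 h2).2.2.1, map_neg]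
      split_ifs <;> first | ring1 | tauto
  unfold Sys.Db at h0
  rw [sum_filter] at h0 ⊢
  refine (sub_zero _).symm.trans ((congrArg (_ - ·) h0.symm).trans ?_)
  rw [← sum_sub_distrib]
  refine sum_congr rfl fun x hx => ?_
  obtain ⟨h3, h4, -⟩ := Sys.mem_Dt.1 hx
  have h5 : (S.cand x.1.1 x.1.2 x.2).Nonempty →
      S.L x.1.1 c (S.pt θ x.1.1 (S.nxt θ x.1.1 x.1.2 x.2)) = S.L x.1.1 c (S.pt θ x.1.1 x.1.2) -
        S.len θ x.1.1 x.1.2 x.2 * S.L x.1.1 c (S.yv x.1.1 x.1.2 x.2) := fun h => by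
    rw [(Sys.piv hA hG h3 h4 h).2.2.2.2, map_sub, map_smul, smul_eq_mul]
  by_cases h6 : c ∉ x.1.2.erase x.2 ∧ t < S.L x.1.1 c (S.pt θ x.1.1 x.1.2)
  · unfold fl
    rw [if_pos h6]
    rcases hA.tu _ _ h3.1 _ h4 c (Sys.mem_Cn.2 (Or.inr hc)) with h7 | h7 | h7
    · rw [h7, mul_zero, ite_self, ite_self, sub_self,
        if_neg fun h : Cr S θ c t x => zero_ne_one (h7.symm.trans h.2.2.1)]
    · rw [h7, mul_one] at h5 ⊢
      by_cases h8 : (S.cand x.1.1 x.1.2 x.2).Nonempty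
      · rw [if_pos h8, h5 h8]
        by_cases h9 : t < S.L x.1.1 c (S.pt θ x.1.1 x.1.2) - S.len θ x.1.1 x.1.2 x.2
        · rw [if_pos h9, sub_self,
            if_neg fun h : Cr S θ c t x => absurd (h.2.2.2 h8) (not_le.2 h9)]
        · rw [if_neg h9, sub_zero,
            if_pos (show Cr S θ c t x from ⟨h6.1, h6.2, h7, fun _ => not_lt.1 h9⟩)]
      · rw [if_neg h8, sub_zero,
          if_pos (show Cr S θ c t x from ⟨h6.1, h6.2, h7, fun h => absurd h h8⟩)]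
    · have h8 : (S.cand x.1.1 x.1.2 x.2).Nonempty := ⟨c, Sys.mem_cand.2
        ⟨Sys.mem_Cn.2 (Or.inr hc), fun h => by
          rw [h3.1.frame.dual _ h4 c h] at h7
          split_ifs at h7 <;> norm_num at h7, h7⟩⟩
      have h9 := (Sys.piv hA hG h3 h4 h8).2.1
      rw [if_pos h8, h5 h8, h7, if_pos (by linarith [h6.2]), sub_self,
        if_neg fun h : Cr S θ c t x => by linarith [h.2.2.1]]
  · unfold fl
    rw [if_neg h6, ite_self, ite_self, sub_self, if_neg fun h : Cr S θ c t x => h6 ⟨h.1, h.2.1⟩]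

/-- a crossing dart meets the level in a vertex of the smaller system -/
theorem cr_vx (hA : S.Ax) (hG : S.Gen θ) (hc : c ∈ S.Cc) (h : ∀ d, d ≠ c → θ' d = θ d)
    {σ : ι → X} {T : Finset ι} {d : ι} (hv : S.Vx θ' σ T) (hd : d ∈ T)
    (hx : Cr S θ' c (θ c) ((σ, T), d)) : S.Vx θ σ (insert c (T.erase d)) ∧
      S.yv σ (insert c (T.erase d)) c = S.yv σ T d ∧ S.pt θ' σ T =
        S.pt θ σ (insert c (T.erase d)) + (S.L σ c (S.pt θ' σ T) - θ c) • S.yv σ T d := by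
  obtain ⟨h1, h2, h3, h4⟩ := hx
  simp only at h1 h2 h3 h4
  have hF := hv.1.frame.pivot hd h1 (ε := 1) (one_mul 1) h3
  have hB : S.IsB σ (insert c (T.erase d)) :=
    ⟨hv.1.1, insert_subset (Sys.mem_Cn.2 (Or.inr hc)) ((erase_subset _ _).trans hv.1.2.1), _, hF⟩
  have hp : S.pt θ' σ T - (S.L σ c (S.pt θ' σ T) - θ c) • S.yv σ T d =
      S.pt θ σ (insert c (T.erase d)) := by
    refine hB.eq_pt (Submodule.sub_mem _ hv.1.pt_mem
      (Submodule.smul_mem _ _ (hv.1.frame.mem d hd))) fun e he => ?_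
    rw [map_sub, map_smul, smul_eq_mul]
    rcases mem_insert.1 he with h5 | h5
    · rw [h5, h3, th_c hA hc]; ring
    · rw [hv.1.frame.dual d hd e (mem_of_mem_erase h5), if_neg (ne_of_mem_erase h5), mul_zero,
        sub_zero, hv.1.pt_tight (mem_of_mem_erase h5), th_eq h fun h' : e = c => h1 (h' ▸ h5)]
  refine ⟨⟨hB, fun e he he' => lt_of_le_of_ne ?_ (hG _ _ hB e he he').symm⟩, ?_, ?_⟩
  · unfold Sys.sl
    rw [← hp, map_sub, map_smul, smul_eq_mul,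
      ← th_eq h fun h' : e = c => he' (h' ▸ mem_insert_self _ _)]
    have h5 := hv.le he
    rcases hA.tu _ _ hv.1 d hd e he with h7 | h7 | h7
    · rw [h7]; linarith
    · rw [h7]; linarith
    · have h8 : e ∈ S.cand σ T d := Sys.mem_cand.2 ⟨he, fun h => by
        rw [hv.1.frame.dual _ hd e h] at h7
        split_ifs at h7 <;> norm_num at h7, h7⟩
      have h9 := (Sys.ent_spec (θ := θ') ⟨e, h8⟩).2 e h8
      have h10 := h4 ⟨e, h8⟩
      unfold Sys.sl at h9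
      rw [h7]; linarith
  · rw [hF.yv_eq (mem_insert_self _ _), if_pos rfl, one_smul]
  · rw [← hp, sub_add_cancel]

open Classical in
theorem cr_sum (hA : S.Ax) (hG : S.Gen θ) (hG' : S.Gen θ') (hc : c ∈ S.Cc)
    (h : ∀ d, d ≠ c → θ' d = θ d) (ht : θ c < θ' c) :
    ∑ x ∈ (S.Dt θ' 0).filter (Cr S θ' c (θ c)), S.om a (x.1.2.erase x.2) =
      ∑ v ∈ (S.Tm θ).filter fun v => c ∈ v.2, S.om a (v.2.erase c) := by
  have hcK : c ∉ S.Kw := fun h => disjoint_left.1 hA.disj h hc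
  refine sum_bij (fun x _ => (x.1.1, insert c (x.1.2.erase x.2))) (fun x hx => ?_) ?_ ?_
    fun x hx => by rw [erase_insert (mem_filter.1 hx).2.1]
  · obtain ⟨h1, h2⟩ := mem_filter.1 hx
    obtain ⟨h3, h4, h5⟩ := Sys.mem_Dt.1 h1
    refine mem_filter.2 ⟨Sys.mem_VJ.2 ⟨(cr_vx hA hG hc h h3 h4 h2).1, ?_⟩, mem_insert_self _ _⟩
    rwa [insert_inter_of_notMem hcK]
  · rintro ⟨⟨σ, T⟩, d⟩ hx ⟨⟨σ', T'⟩, d'⟩ hx' he
    obtain ⟨h1, h2⟩ := mem_filter.1 hx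
    obtain ⟨h3, h4, -⟩ := Sys.mem_Dt.1 h1
    obtain ⟨h1', h2'⟩ := mem_filter.1 hx'
    obtain ⟨h3', h4', -⟩ := Sys.mem_Dt.1 h1'
    obtain ⟨rfl, h5⟩ := Prod.mk.inj he
    simp only at h3 h4 h3' h4' h5
    have h6 : T.erase d = T'.erase d' := by
      rw [← erase_insert h2.1, h5, erase_insert h2'.1]
    obtain ⟨-, h7, h8⟩ := cr_vx hA hG hc h h3 h4 h2
    obtain ⟨-, h7', h8'⟩ := cr_vx hA hG hc h h3' h4' h2'
    rw [← h5] at h7' h8'
    have h9 : S.yv σ T' d' = S.yv σ T d := h7'.symm.trans h7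
    have e1 := congrArg (S.L σ d) h8
    have e2 := congrArg (S.L σ d) h8'
    have e3 := congrArg (S.L σ d') h8
    have e4 := congrArg (S.L σ d') h8'
    rw [map_add, map_smul, smul_eq_mul] at e1 e2 e3 e4
    rw [h9] at e2
    rw [← h9] at e3
    rw [h3.1.frame.dual d h4 d h4, if_pos rfl] at e1 e2
    rw [h3'.1.frame.dual d' h4' d' h4', if_pos rfl] at e3 e4
    have e5 := h3'.le (h3.1.2.1 h4)
    rw [h3.1.pt_tight h4] at e1
    rw [h3'.1.pt_tight h4'] at e4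
    have h10 : d' = d := by
      by_contra hne
      have h11 : d' ∉ T := fun h' => notMem_erase d' T' (h6 ▸ mem_erase.2 ⟨hne, h'⟩)
      have e6 := h3.2 d' (h3'.1.2.1 h4') h11
      unfold Sys.sl at e6
      linarith
    subst h10
    rw [← insert_erase h4, h6, insert_erase h4']
  · rintro ⟨σ, T⟩ hv
    obtain ⟨h1, h2⟩ := mem_filter.1 hv
    obtain ⟨h3, h4⟩ := Sys.mem_VJ.1 h1
    simp only at h2 h3 h4
    have hcc : S.L σ c (S.yv σ T c) = 1 := by rw [h3.1.frame.dual c h2 c h2, if_pos rfl]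
    obtain ⟨e, he, hm⟩ := exists_min_image (S.Cn.filter fun e => S.L σ e (S.yv σ T c) = 1)
      (fun e => S.th θ' e - S.L σ e (S.pt θ σ T))
      ⟨c, mem_filter.2 ⟨Sys.mem_Cn.2 (Or.inr hc), hcc⟩⟩
    obtain ⟨he1, he2⟩ := mem_filter.1 he
    have hf : ∀ d ∈ S.Cn, S.L σ d (S.pt θ σ T) ≤ S.th θ' d := fun d hd => by
      have := h3.le hd
      by_cases h5 : d = c
      · rw [h5, th_c hA hc] at this ⊢
        linarith
      · rwa [th_eq h h5]
    obtain ⟨h5, h6, h7, -, h8⟩ := Sys.push hA hG' h3.1 h2 h3.1.pt_mem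
      (fun d hd hd' => by rw [h3.1.pt_tight hd, th_eq h hd']) (ε := 1) (one_mul 1) he1 he2 hf
      fun d hd hd' => hm d (mem_filter.2 ⟨hd, hd'⟩)
    rw [one_smul] at h7
    have h9 : S.L σ c (S.pt θ' σ (insert e (T.erase c))) =
        θ c + (S.th θ' e - S.L σ e (S.pt θ σ T)) := by
      rw [h8, map_add, map_smul, hcc, h3.1.pt_tight h2, th_c hA hc, smul_eq_mul]; ring
    have h10 : 0 < S.th θ' e - S.L σ e (S.pt θ σ T) := by
      by_cases h11 : e = c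
      · rw [h11, h3.1.pt_tight h2, th_c hA hc, th_c hA hc]; linarith
      · rw [th_eq h h11]
        exact h3.2 e he1 fun h' => h5 (mem_erase.2 ⟨h11, h'⟩)
    refine ⟨((σ, insert e (T.erase c)), e), mem_filter.2 ⟨Sys.mem_Dt.2 ⟨h6, mem_insert_self _ _, ?_⟩,
      ?_, ?_, ?_, fun hb => ?_⟩, ?_⟩
    · simp only [erase_insert h5]
      rw [card_eq_zero] at h4
      rw [erase_inter, h4, erase_empty, card_empty]
    · simp only [erase_insert h5]
      exact notMem_erase _ _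
    · simp only [h9]; linarith
    · simp only [h7, hcc]
    · simp only at hb ⊢
      obtain ⟨h11, -, h12⟩ := Sys.mem_cand.1 (Sys.ent_spec (θ := θ') hb).1
      have h13 := hf _ h11
      unfold Sys.len Sys.sl
      rw [h7] at h12
      rw [h9, h8, map_add, map_smul, h12, smul_eq_mul]
      linarith
    · simp only [erase_insert h5, insert_erase h2]

theorem inv_lt (hA : S.Ax) (hG : S.Gen θ) (hG' : S.Gen θ') (ha : S.Cost (fun _ => 0) a)
    (hc : c ∈ S.Cc) (h : ∀ d, d ≠ c → θ' d = θ d) (ht : θ c < θ' c) : S.Zs θ a = S.Zs θ' a := by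
  classical
  have h1 := fl_cross (a := a) hA hG' hc (θ c)
  rw [cr_sum hA hG hG' hc h ht, sum_Dt,
    sum_eq_zero fun k hk => sum_eq_zero fun T _ => fl_wall hA hc _ hk T, add_zero,
    sum_congr rfl fun v hv => fl_term ha hc _ hv, ← sum_filter,
    sum_congr rfl fun v hv => om_erase (mem_filter.1 hv).2 hc (ha.1 c hc), ← mul_sum,
    ← mul_sum] at h1
  unfold Sys.Zs
  rw [← sum_filter_add_sum_filter_not (S.Tm θ) fun v => c ∈ v.2,
    ← sum_filter_add_sum_filter_not (S.Tm θ') fun v => θ c < S.L v.1 c (S.pt θ' v.1 v.2),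
    mul_left_cancel₀ (ha.1 c hc).ne' h1]
  congr 2
  ext ⟨σ, T⟩
  simp only [mem_filter, Sys.Tm, Sys.mem_VJ]
  constructor
  · rintro ⟨⟨h2, h3⟩, h4⟩
    have h5 := h2.le (Sys.mem_Cn.2 (Or.inr hc))
    rw [th_c hA hc] at h5
    refine ⟨⟨⟨h2.1, fun d hd hd' => ?_⟩, h3⟩, by rw [pt_eq h h4]; exact not_lt.2 h5⟩
    unfold Sys.sl
    rw [pt_eq h h4]
    by_cases h6 : d = c
    · rw [h6, th_c hA hc]; linarith
    · rw [th_eq h h6]; exact h2.2 d hd hd'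
  · rintro ⟨⟨h2, h3⟩, h4⟩
    have h5 : c ∉ T := fun h' => h4 (by rw [h2.1.pt_tight h', th_c hA hc]; exact ht)
    refine ⟨⟨⟨h2.1, fun d hd hd' => lt_of_le_of_ne ?_ (hG _ _ h2.1 d hd hd').symm⟩, h3⟩, h5⟩
    unfold Sys.sl
    rw [← pt_eq h h5]
    by_cases h6 : d = c
    · rw [h6, th_c hA hc]; linarith [not_lt.1 h4]
    · rw [← th_eq h h6]; linarith [h2.le hd]

end H38

theorem inv : St_INV := by
  intro ι X V _ _ _ S hA θ θ' a hG hG' ha c hc h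
  rcases lt_trichotomy (θ c) (θ' c) with ht | ht | ht
  · exact H38.inv_lt hA hG hG' ha hc h ht
  · have : θ' = θ := funext fun d => by
      by_cases hd : d = c
      · rw [hd, ht]
      · exact h d hd
    rw [this]
  · exact (H38.inv_lt hA hG' hG ha hc (fun d hd => (h d hd).symm) ht).symm

end Pool.Agent.Lib.US
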