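import Pool.Agent.Lib.US.B_GP

/-! The partition function does not depend on the thresholds. -/

namespace Pool.Agent.Lib.US

open Finset

theorem H76.Zs_congr {ι X V : Type} [DecidableEq ι] [AddCommGroup V] [Module ℝ V]
    {S : Sys ι X V} {θ θ' : ι → ℝ} (h : ∀ c ∈ S.Cc, θ c = θ' c) (a : ι → ℝ) :
    S.Zs θ a = S.Zs θ' a := by
  have h1 : ∀ c ∈ S.Cn, S.th θ c = S.th θ' c := fun c hc => by
    unfold Sys.th
    by_cases hk : c ∈ S.Kw
    · rw [if_pos hk, if_pos hk]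
    · rw [if_neg hk, if_neg hk, h c ((Sys.mem_Cn.1 hc).resolve_left hk)]
  have h2 : ∀ σ T, S.IsB σ T → ∀ d ∈ S.Cn, S.sl θ σ T d = S.sl θ' σ T d := fun σ T hB d hd => by
    unfold Sys.sl
    rw [Sys.L_pt, Sys.L_pt, h1 d hd, sum_congr rfl fun c hc => by rw [h1 c (hB.2.1 hc)]]
  have h3 : S.Tm θ = S.Tm θ' := by
    ext v
    unfold Sys.Tm
    rw [Sys.mem_VJ, Sys.mem_VJ]
    refine and_congr_left fun _ => ⟨fun hv => ⟨hv.1, fun d hd hT => ?_⟩,
      fun hv => ⟨hv.1, fun d hd hT => ?_⟩⟩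
    · rw [← h2 _ _ hv.1 d hd]; exact hv.2 d hd hT
    · rw [h2 _ _ hv.1 d hd]; exact hv.2 d hd hT
  unfold Sys.Zs
  rw [h3]

theorem H76.sgen_mix {ι X V : Type} [DecidableEq ι] [AddCommGroup V] [Module ℝ V]
    {S : Sys ι X V} {θ p : ι → ℝ} {H : ℝ} (hG : S.SGen θ) (hH : ∑ c ∈ S.Cc, |θ c| ≤ H)
    (hp : ∀ κ : ι → ℝ, (∀ c ∈ S.Cc, κ c = 0 ∨ κ c = 1 ∨ κ c = -1) →
      (∃ c ∈ S.Cc, κ c ≠ 0) → H < |∑ c ∈ S.Cc, κ c * p c|) (A : Finset ι) :
    S.SGen fun c => if c ∈ A then p c else θ c := by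
  intro κ h1 h2
  have hκ : ∀ c, (κ c : ℝ) = 0 ∨ (κ c : ℝ) = 1 ∨ (κ c : ℝ) = -1 := fun c => by
    have h3 := abs_le.1 (h1 c)
    have h4 : κ c = 0 ∨ κ c = 1 ∨ κ c = -1 := by omega
    rcases h4 with h | h | h <;> simp [h]
  by_cases h : ∃ c ∈ S.Cc, c ∈ A ∧ κ c ≠ 0
  · have h5 := hp (fun c => if c ∈ A then (κ c : ℝ) else 0)
      (fun c _ => by
        by_cases hc : c ∈ A
        · rw [if_pos hc]; exact hκ c
        · rw [if_neg hc]; exact Or.inl rfl) (by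
        obtain ⟨c, hc, hA, h0⟩ := h
        exact ⟨c, hc, by rw [if_pos hA]; exact_mod_cast h0⟩)
    have h6 := H76.abs_sum_le S.Cc (fun c => if c ∈ A then 0 else (κ c : ℝ)) θ
      fun c _ => by
        by_cases hc : c ∈ A
        · rw [if_pos hc]; exact Or.inl rfl
        · rw [if_neg hc]; exact hκ c
    intro h0
    have h7 : ∑ c ∈ S.Cc, (if c ∈ A then (κ c : ℝ) else 0) * p c +
        ∑ c ∈ S.Cc, (if c ∈ A then 0 else (κ c : ℝ)) * θ c = 0 := by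
      rw [← sum_add_distrib]
      refine Eq.trans (sum_congr rfl fun c _ => ?_) h0
      by_cases hc : c ∈ A <;> simp [hc]
    rw [add_eq_zero_iff_eq_neg.1 h7, abs_neg] at h5
    exact absurd h5 (not_lt.2 (h6.trans hH))
  · push Not at h
    have h7 : ∑ c ∈ S.Cc, (κ c : ℝ) * (if c ∈ A then p c else θ c) =
        ∑ c ∈ S.Cc, (κ c : ℝ) * θ c := sum_congr rfl fun c hc => by
      by_cases hA : c ∈ A
      · rw [h c hc hA, Int.cast_zero, zero_mul, zero_mul]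
      · rw [if_neg hA]
    rw [h7]
    exact hG κ h1 h2

theorem inv2 (hGEN : St_GEN) (hINV : St_INV) : St_INV2 := by
  intro ι X V _ _ _ S hA θ θ' a hG hG' hC
  obtain ⟨p, -, hp⟩ := H76.dom S.Cc (∑ c ∈ S.Cc, |θ c| + ∑ c ∈ S.Cc, |θ' c|)
  have key : ∀ η : ι → ℝ, S.SGen η → ∑ c ∈ S.Cc, |η c| ≤ ∑ c ∈ S.Cc, |θ c| + ∑ c ∈ S.Cc, |θ' c| →
      ∀ A : Finset ι, A ⊆ S.Cc → S.Zs η a = S.Zs (fun c => if c ∈ A then p c else η c) a := by
    intro η hη hle A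
    induction A using Finset.induction_on with
    | empty => intro _; simp
    | insert c A hc ih =>
      intro hs
      rw [ih ((subset_insert c A).trans hs)]
      refine hINV ι X V S hA _ _ a ((hGEN ι X V S hA _).1 (H76.sgen_mix hη hle hp A))
        ((hGEN ι X V S hA _).1 (H76.sgen_mix hη hle hp (insert c A))) hC c
        (hs (mem_insert_self c A)) fun d hd => ?_
      simp only [mem_insert, hd, false_or]
  have h1 : 0 ≤ ∑ c ∈ S.Cc, |θ c| := sum_nonneg fun c _ => abs_nonneg _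
  have h2 : 0 ≤ ∑ c ∈ S.Cc, |θ' c| := sum_nonneg fun c _ => abs_nonneg _
  rw [key θ hG (by linarith) S.Cc subset_rfl, key θ' hG' (by linarith) S.Cc subset_rfl]
  exact H76.Zs_congr (fun c hc => by rw [if_pos hc, if_pos hc]) a

end Pool.Agent.Lib.US
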