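import Pool.Agent.Lib.US.B_EXT2

namespace Pool.Agent.Lib.US

open Finset

namespace Sys

variable {ι X V : Type} [DecidableEq ι] [Inhabited X] [AddCommGroup V] [Module ℝ V]
  {S : Sys ι X V} {θ b : ι → ℝ} {σ : ι → X} {T : Finset ι}

theorem key_tm (h : (T ∩ S.Kw).card = 0) : S.key σ T = (σ, T) := by
  unfold key
  congr 1
  funext j
  rw [if_neg fun hj => by
    have := mem_inter.2 hj
    rw [card_eq_zero.1 h] at this
    exact notMem_empty _ this]

omit [Inhabited X] in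
theorem om_pos (hb : ∀ c ∈ S.Cc, 0 < b c) : 0 < S.om b T :=
  prod_pos fun c hc => inv_pos.2 (hb c (mem_inter.1 hc).2)

omit [Inhabited X] in
theorem om_erase (hb : ∀ c ∈ S.Cc, 0 < b c) {c : ι} (hT : c ∈ T) (hc : c ∈ S.Cc) :
    S.om b (T.erase c) = S.om b T * b c := by
  unfold om
  rw [erase_inter, ← mul_prod_erase (T ∩ S.Cc) _ (mem_inter.2 ⟨hT, hc⟩)]
  have := (hb c hc).ne'
  field_simp

theorem src_mem {d : ((ι → X) × Finset ι) × ι} (hd : d ∈ S.Db θ 0) :
    S.key d.1.1 d.1.2 ∈ S.Nd θ := by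
  classical
  obtain ⟨h1, h2, h3⟩ := mem_Dt.1 (mem_Db.1 hd).1
  have h4 : (d.1.2 ∩ S.Kw).card ≤ 1 := by
    rw [erase_inter] at h3
    have := pred_card_le_card_erase (s := d.1.2 ∩ S.Kw) (a := d.2)
    omega
  unfold Nd
  simp only [mem_image, mem_union, mem_VJ]
  exact ⟨d.1, by rcases Nat.le_one_iff_eq_zero_or_eq_one.1 h4 with h | h <;> simp [h, h1], rfl⟩

/-- the energy as a sum over bounded darts -/
theorem En_eq (U : (ι → X) × Finset ι → ℝ) : S.En θ b U = (1 / 2) * ∑ d ∈ S.Db θ 0,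
    S.om b (d.1.2.erase d.2) / S.len θ d.1.1 d.1.2 d.2 *
      (U (S.key d.1.1 d.1.2) - U (S.key (S.rev θ d).1.1 (S.rev θ d).1.2)) ^ 2 := by
  unfold En
  congr 1
  rw [← sum_subset (s₁ := S.Db θ 0) (fun d hd => (mem_Db.1 hd).1) fun d hd hd' => by
    unfold slope
    rw [if_neg fun h => hd' (mem_Db.2 ⟨hd, h⟩)]
    simp]
  refine sum_congr rfl fun d hd => ?_
  unfold slope
  rw [if_pos (mem_Db.1 hd).2]
  simp only [rev]
  by_cases h : S.len θ d.1.1 d.1.2 d.2 = 0
  · simp [h]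
  · field_simp
    ring

end Sys

open Sys

theorem poinc (hE : St_EXT) (hB : St_BOCH) : St_POINC := by
  classical
  intro ι X V _ _ _ _ S hA θ b hG hb hC F hF
  have hD := net_ok hA hG 0 (fun _ T => S.om b T) fun _ _ => om_pos hb.1
  have hTm : ∀ v ∈ S.Tm θ, S.key v.1 v.2 = v := fun v hv => key_tm (mem_VJ.1 hv).2
  have hNd : ∀ σ T, S.Vx θ σ T → (T ∩ S.Kw).card = 0 ∨ (T ∩ S.Kw).card = 1 →
      S.key σ T ∈ S.Nd θ := fun σ T h1 h2 => by
    unfold Nd
    simp only [mem_image, mem_union, mem_VJ]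
    exact ⟨(σ, T), by rcases h2 with h | h <;> simp [h, h1], rfl⟩
  have hsub : S.Tm θ ⊆ S.Nd θ := fun v hv => by
    rw [← hTm v hv]
    exact hNd _ _ (mem_VJ.1 hv).1 (Or.inl (mem_VJ.1 hv).2)
  have hsum : ∀ ψ : (ι → X) × Finset ι → ℝ,
      ∑ s ∈ S.Nd θ, ψ s * (if s ∈ S.Tm θ then S.om b s.2 * F s else 0) =
        ∑ s ∈ S.Tm θ, ψ s * (S.om b s.2 * F s) := fun ψ => by
    rw [← sum_subset hsub fun s _ hs => by rw [if_neg hs, mul_zero]]
    exact sum_congr rfl fun s hs => by rw [if_pos hs]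
  obtain ⟨G, -, h2⟩ := hE _ _ (S.Db θ 0) (S.rev θ) (fun d => S.key d.1.1 d.1.2)
    (fun d => S.om b (d.1.2.erase d.2) / S.len θ d.1.1 d.1.2 d.2) (S.Nd θ)
    (fun s => if s ∈ S.Tm θ then S.om b s.2 * F s else 0) 0 hD fun ψ _ h => by
      rw [hsum]
      rcases (S.Tm θ).eq_empty_or_nonempty with h0 | ⟨t, ht⟩
      · rw [h0, sum_empty]
      · rw [sum_congr rfl fun s hs => by rw [hC ψ h s (hsub hs) t (hsub ht)], ← mul_sum, hF,
          mul_zero]
  have hK : S.Kir θ G := fun σ T k hv hT => by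
    have hk : k ∈ T ∩ S.Kw := by rw [hT]; simp
    rw [mem_inter] at hk
    have he : ∀ c, T.erase c ∩ S.Kw = ({k} : Finset ι).erase c := fun c => by
      rw [← hT, erase_inter]
    have h1 : (T ∩ S.Kw).card = 1 := by rw [hT, card_singleton]
    have h3 := h2 (S.key σ T) (hNd σ T hv (Or.inr h1))
    have h4 := lap_eq (S := S) (θ := θ) (σ := σ) (T := T) 0
      (fun d => S.om b (d.1.2.erase d.2)) G (S.Nb k σ) {k}
      (fun τ => ⟨fun h => ⟨(sheet1 hA hk.2 hk.1 hv h).1, (sheet1 hA hk.2 hk.1 hv h).2.1⟩,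
        fun h => mem_Nb.2 ⟨h.1.1.1, fun j a => key_eq_iff.1 h.2 j fun hj => by
          have := mem_inter.2 hj
          rw [hT] at this
          exact a (mem_singleton.1 this)⟩⟩)
      (fun c => ⟨fun h => by
        rw [mem_singleton.1 h]
        exact ⟨hk.1, by rw [he, erase_singleton, card_empty]⟩, fun h => by
        by_contra hc
        have := h.2
        rw [he, erase_eq_of_notMem hc, card_singleton] at this
        omega⟩)
    rw [h4 _ fun _ => by simp only [mem_filter], if_neg fun h => by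
      have h5 : (T ∩ S.Kw).card = 0 := (mem_VJ.1 h).2
      omega, neg_eq_zero] at h3
    simp only [sum_singleton, ← mul_sum] at h3
    exact (mul_eq_zero.1 h3).resolve_left (om_pos hb.1).ne'
  have hL : ∀ v ∈ S.Tm θ, ∑ c ∈ v.2, b c * S.slope θ G v.1 v.2 c = -F v := fun v hv => by
    obtain ⟨h0, h1⟩ := mem_VJ.1 hv
    have h3 := h2 (S.key v.1 v.2) (hNd _ _ h0 (Or.inl h1))
    have h4 := lap_eq (S := S) (θ := θ) (σ := v.1) (T := v.2) 0
      (fun d => S.om b (d.1.2.erase d.2)) G {v.1} v.2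
      (fun τ => ⟨fun h => by rw [mem_singleton.1 h]; exact ⟨h0, rfl⟩, fun h => by
        have := h.2
        rw [key_tm h1, key_tm h1] at this
        exact mem_singleton.2 (congrArg Prod.fst this)⟩)
      (fun c => ⟨fun h => ⟨h, by
        rw [erase_inter, card_eq_zero.1 h1, erase_empty, card_empty]⟩, fun h => h.1⟩)
    rw [h4 _ fun _ => by simp only [mem_filter], hTm v hv, if_pos hv, sum_singleton,
      sum_congr rfl fun c hc => by
        rw [om_erase hb.1 hc ((mem_Cn.1 (h0.1.2.1 hc)).resolve_left fun h => by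
          have := mem_inter.2 ⟨hc, h⟩
          rw [card_eq_zero.1 h1] at this
          exact notMem_empty _ this), mul_assoc], ← mul_sum, ← mul_neg] at h3
    have := mul_left_cancel₀ (om_pos hb.1).ne' h3
    linarith
  have h5 := hB _ _ _ S hA θ b hG hb G hK
  rw [sum_congr rfl fun v hv => by rw [hL v hv, neg_sq]] at h5
  have h6 := green (S.Db θ 0) (S.rev θ) (fun d => S.key d.1.1 d.1.2)
    (fun d => S.om b (d.1.2.erase d.2) / S.len θ d.1.1 d.1.2 d.2) (S.Nd θ) hD F G fun d hd h => absurd (src_mem hd) h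
  rw [sum_congr rfl fun s hs => by rw [h2 s hs], hsum] at h6
  have h7 : ∑ s ∈ S.Tm θ, F s * (S.om b s.2 * F s) = ∑ v ∈ S.Tm θ, S.om b v.2 * F v ^ 2 :=
    sum_congr rfl fun s _ => by ring
  have h8 : 2 * ∑ d ∈ S.Db θ 0, S.om b (d.1.2.erase d.2) / S.len θ d.1.1 d.1.2 d.2 *
      ((F (S.key d.1.1 d.1.2) - F (S.key (S.rev θ d).1.1 (S.rev θ d).1.2)) *
        (G (S.key d.1.1 d.1.2) - G (S.key (S.rev θ d).1.1 (S.rev θ d).1.2))) ≤
      2 * (S.En θ b F + S.En θ b G) := by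
    rw [En_eq, En_eq, ← mul_add, ← mul_assoc, ← sum_add_distrib, mul_sum, mul_sum]
    refine sum_le_sum fun d hd => ?_
    have h9 := (hD d hd).2.2.2
    nlinarith [mul_nonneg h9.le (sq_nonneg
      ((F (S.key d.1.1 d.1.2) - F (S.key (S.rev θ d).1.1 (S.rev θ d).1.2)) -
        (G (S.key d.1.1 d.1.2) - G (S.key (S.rev θ d).1.1 (S.rev θ d).1.2))))]
  linarith

end Pool.Agent.Lib.US
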