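import Mathlib

set_option autoImplicit false

open Finset

namespace Pool.Agent.Lib.US.H89

/-- A convex polygon given by its flags (vertex, edge). `sw` changes the edge, `pv` the vertex of a
bounded edge; `(X, Y)` is the vertex, `(a, w)` the direction of the edge, `l` its length. -/
structure Poly {Φ : Type} (F : Finset Φ) (sw pv : Φ → Φ) (bd : Φ → Prop) (X Y a w l : Φ → ℝ) :
    Prop where
  sw_mem : ∀ φ ∈ F, sw φ ∈ F
  sw_sw : ∀ φ ∈ F, sw (sw φ) = φ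
  sw_X : ∀ φ ∈ F, X (sw φ) = X φ
  sw_Y : ∀ φ ∈ F, Y (sw φ) = Y φ
  pv_mem : ∀ φ ∈ F, bd φ → pv φ ∈ F ∧ bd (pv φ) ∧ pv (pv φ) = φ
  pv_X : ∀ φ ∈ F, bd φ → X (pv φ) = X φ + l φ * a φ
  pv_Y : ∀ φ ∈ F, bd φ → Y (pv φ) = Y φ + l φ * w φ
  pv_d : ∀ φ ∈ F, bd φ → a (pv φ) = - a φ ∧ w (pv φ) = - w φ ∧ 0 ≤ l φ ∧
    ∃ κ, a (sw (pv φ)) = a (sw φ) + κ * a φ ∧ w (sw (pv φ)) = w (sw φ) + κ * w φ
  det : ∀ φ ∈ F, a φ * w (sw φ) - a (sw φ) * w φ ≠ 0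
  w_ne : ∀ φ ∈ F, w φ ≠ 0
  cvx : ∀ φ ∈ F, ∀ ψ ∈ F, ∃ p q, 0 ≤ p ∧ 0 ≤ q ∧ X ψ = X φ + p * a φ + q * a (sw φ) ∧
    Y ψ = Y φ + p * w φ + q * w (sw φ)
  ray : ∀ φ ∈ F, ∀ ψ ∈ F, ¬ bd ψ → ∃ p q, 0 ≤ p ∧ 0 ≤ q ∧ a ψ = p * a φ + q * a (sw φ) ∧
    w ψ = p * w φ + q * w (sw φ)
  uniq : ∀ φ ∈ F, ∀ ψ ∈ F, X ψ = X φ → Y ψ = Y φ → ψ = φ ∨ ψ = sw φ

namespace Poly

variable {Φ : Type} {F : Finset Φ} {sw pv : Φ → Φ} {bd : Φ → Prop} {X Y a w l : Φ → ℝ}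
  (H : Poly F sw pv bd X Y a w l)
include H

theorem sum_sw (f : Φ → ℝ) : ∑ φ ∈ F, f (sw φ) = ∑ φ ∈ F, f φ :=
  sum_bij' (fun φ _ => sw φ) (fun φ _ => sw φ) H.sw_mem H.sw_mem H.sw_sw H.sw_sw fun _ _ => rfl

open Classical in
theorem sum_pv (f : Φ → ℝ) : ∑ φ ∈ F with bd φ, f (pv φ) = ∑ φ ∈ F with bd φ, f φ := by
  have h1 : ∀ φ ∈ F.filter bd, pv φ ∈ F.filter bd := fun φ h =>
    mem_filter.2 ⟨(H.pv_mem φ (mem_filter.1 h).1 (mem_filter.1 h).2).1,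
      (H.pv_mem φ (mem_filter.1 h).1 (mem_filter.1 h).2).2.1⟩
  have h2 : ∀ φ ∈ F.filter bd, pv (pv φ) = φ := fun φ h =>
    (H.pv_mem φ (mem_filter.1 h).1 (mem_filter.1 h).2).2.2
  exact sum_bij' (fun φ _ => pv φ) (fun φ _ => pv φ) h1 h1 h2 h2 fun _ _ => rfl

open Classical in
theorem sum_odd (f : Φ → ℝ) (h : ∀ φ ∈ F, bd φ → f (pv φ) = - f φ) :
    ∑ φ ∈ F with bd φ, f φ = 0 := by
  have h1 := H.sum_pv f
  rw [sum_congr rfl fun φ hφ => h φ (mem_filter.1 hφ).1 (mem_filter.1 hφ).2, sum_neg_distrib] at h1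
  linarith

theorem det_pv {φ : Φ} (hφ : φ ∈ F) (hb : bd φ) :
    a (pv φ) * w (sw (pv φ)) - a (sw (pv φ)) * w (pv φ) = -(a φ * w (sw φ) - a (sw φ) * w φ) := by
  obtain ⟨h1, h2, -, κ, h3, h4⟩ := H.pv_d φ hφ hb
  rw [h1, h2, h3, h4]
  ring

/-- the closing relation of a bounded polygon -/
theorem closing (hb : ∀ φ ∈ F, bd φ) (z : Φ → ℝ) (hz : ∀ φ ∈ F, z (sw φ) = z φ) :
    ∑ φ ∈ F, (z (pv φ) - z φ) * (a φ * w (sw φ) - a (sw φ) * w φ) = 0 := by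
  classical
  have h0 : ∑ φ ∈ F, z φ * (a φ * w (sw φ) - a (sw φ) * w φ) = 0 := by
    have h1 := H.sum_sw fun φ => z φ * (a φ * w (sw φ) - a (sw φ) * w φ)
    have h2 : ∑ φ ∈ F, z (sw φ) * (a (sw φ) * w (sw (sw φ)) - a (sw (sw φ)) * w (sw φ)) =
        - ∑ φ ∈ F, z φ * (a φ * w (sw φ) - a (sw φ) * w φ) := by
      rw [← sum_neg_distrib]
      exact sum_congr rfl fun φ hφ => by rw [hz φ hφ, H.sw_sw φ hφ]; ring
    linarith
  have h3 := H.sum_pv fun φ => z φ * (a φ * w (sw φ) - a (sw φ) * w φ)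
  rw [filter_true_of_mem hb, h0, sum_congr rfl fun φ hφ => by rw [H.det_pv hφ (hb φ hφ)]] at h3
  simp only [sub_mul, sum_sub_distrib, mul_neg, sum_neg_distrib] at h3 ⊢
  linarith

/-- the comparison with a test field of gradient `(g, g')` -/
theorem test (s g g' : Φ → ℝ) (hg : ∀ φ ∈ F, g (sw φ) = g φ) (hg' : ∀ φ ∈ F, g' (sw φ) = g' φ)
    (h0 : ∀ φ ∈ F, 0 < w φ * w (sw φ) →
      s φ * w (sw φ) - s (sw φ) * w φ = g φ * (a φ * w (sw φ) - a (sw φ) * w φ))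
    (h1 : ∑ φ ∈ F, s φ * g φ * ((a φ * w (sw φ) - a (sw φ) * w φ) / w φ) = 0)
    (h2 : 0 ≤ ∑ φ ∈ F, (g φ * a φ + g' φ * w φ) * g φ * ((a φ * w (sw φ) - a (sw φ) * w φ) / w φ)) :
    0 ≤ ∑ φ ∈ F, (s φ * s (sw φ) - w (sw φ) / w φ * s φ ^ 2) := by
  set t : Φ → ℝ := fun φ => g φ * a φ + g' φ * w φ with ht
  set Q : (Φ → ℝ) → (Φ → ℝ) → Φ → ℝ := fun u v φ => u φ * v (sw φ) - w (sw φ) / w φ * (u φ * v φ)
    with hQ
  have e1 : ∀ u : Φ → ℝ, ∀ φ ∈ F,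
      Q u t φ = -(u φ * g φ * ((a φ * w (sw φ) - a (sw φ) * w φ) / w φ)) := fun u φ hφ => by
    have := H.w_ne φ hφ
    simp only [hQ, ht, hg φ hφ, hg' φ hφ]
    field_simp
    ring
  have e2 : ∑ φ ∈ F, Q t s φ = ∑ φ ∈ F, Q s t φ := by
    simp only [hQ, sum_sub_distrib]
    rw [← H.sum_sw fun φ => t φ * s (sw φ)]
    congr 1
    · exact sum_congr rfl fun φ hφ => by rw [H.sw_sw φ hφ]; ring
    · exact sum_congr rfl fun φ _ => by ring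
  have e3 : 0 ≤ ∑ φ ∈ F, Q (s - t) (s - t) φ := by
    have a1 := H.sum_sw (Q (s - t) (s - t))
    have a2 : 0 ≤ ∑ φ ∈ F, (Q (s - t) (s - t) φ + Q (s - t) (s - t) (sw φ)) := by
      refine sum_nonneg fun φ hφ => ?_
      have b1 := H.w_ne φ hφ
      have b2 := H.w_ne _ (H.sw_mem φ hφ)
      have b3 : Q (s - t) (s - t) φ + Q (s - t) (s - t) (sw φ) =
          -((s φ * w (sw φ) - s (sw φ) * w φ - g φ * (a φ * w (sw φ) - a (sw φ) * w φ)) ^ 2 /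
            (w φ * w (sw φ))) := by
        simp only [hQ, ht, Pi.sub_apply, H.sw_sw φ hφ, hg φ hφ, hg' φ hφ]
        field_simp
        ring
      rw [b3]
      rcases (mul_ne_zero b1 b2).lt_or_gt with h | h
      · exact neg_nonneg.2 (div_nonpos_of_nonneg_of_nonpos (sq_nonneg _) h.le)
      · rw [h0 φ hφ h]
        simp
    rw [sum_add_distrib, a1] at a2
    linarith
  have e4 : ∑ φ ∈ F, Q (s - t) (s - t) φ = ∑ φ ∈ F, (s φ * s (sw φ) - w (sw φ) / w φ * s φ ^ 2) -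
      ∑ φ ∈ F, Q t s φ - ∑ φ ∈ F, Q s t φ + ∑ φ ∈ F, Q t t φ := by
    simp only [← sum_sub_distrib, ← sum_add_distrib]
    exact sum_congr rfl fun φ _ => by simp only [hQ, Pi.sub_apply]; ring
  rw [e4, e2, sum_congr rfl (e1 s), sum_congr rfl (e1 t), sum_neg_distrib, sum_neg_distrib, h1]
    at e3
  linarith

theorem same {φ ψ : Φ} (hφ : φ ∈ F) (hψ : ψ ∈ F) (h : 0 < w φ * w (sw φ))
    (hY : w φ * Y ψ ≤ w φ * Y φ) : ψ = φ ∨ ψ = sw φ := by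
  obtain ⟨p, q, hp, hq, h1, h2⟩ := H.cvx φ hφ ψ hψ
  have h3 : 0 < w φ * w φ := mul_self_pos.2 (H.w_ne φ hφ)
  rw [h2] at hY
  have h4 := mul_nonneg hp h3.le
  have h5 := mul_nonneg hq h.le
  have p0 : p = 0 := (mul_eq_zero.1 (show p * (w φ * w φ) = 0 by nlinarith)).resolve_right h3.ne'
  have q0 : q = 0 :=
    (mul_eq_zero.1 (show q * (w φ * w (sw φ)) = 0 by nlinarith)).resolve_right h.ne'
  exact H.uniq φ hφ ψ hψ (by simp [h1, p0, q0]) (by simp [h2, p0, q0])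

theorem same' {φ ψ : Φ} (hφ : φ ∈ F) (hψ : ψ ∈ F) (h : 0 < w φ * w (sw φ))
    (h' : 0 < w ψ * w (sw ψ)) (hs : 0 < w φ * w ψ) : ψ = φ ∨ ψ = sw φ := by
  refine H.same hφ hψ h ?_
  obtain ⟨p, q, hp, hq, -, h2⟩ := H.cvx ψ hψ φ hφ
  have h3 : 0 < w φ * w (sw ψ) := by
    have := mul_pos hs h'
    by_contra hc
    nlinarith [mul_self_nonneg (w ψ)]
  rw [h2]
  nlinarith [mul_nonneg hp hs.le, mul_nonneg hq h3.le]

theorem ray_pos {φ ψ : Φ} (hφ : φ ∈ F) (hψ : ψ ∈ F) (h : 0 < w φ * w (sw φ)) (hb : ¬ bd ψ) :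
    0 < w φ * w ψ := by
  obtain ⟨p, q, hp, hq, -, h2⟩ := H.ray φ hφ ψ hψ hb
  refine lt_of_le_of_ne ?_ (mul_ne_zero (H.w_ne φ hφ) (H.w_ne ψ hψ)).symm
  rw [h2]
  nlinarith [mul_nonneg hp (mul_self_nonneg (w φ)), mul_nonneg hq h.le]

/-- the planar Minkowski inequality in corner form -/
theorem minkowski (s z : Φ → ℝ) (hz : ∀ φ ∈ F, z (sw φ) = z φ)
    (hs : ∀ φ ∈ F, bd φ → s (pv φ) = - s φ ∧ s φ * l φ = z (pv φ) - z φ)
    (hu : ∀ φ ∈ F, ¬ bd φ → s φ = 0) :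
    0 ≤ ∑ φ ∈ F, (s φ * s (sw φ) - w (sw φ) / w φ * s φ ^ 2) := by
  classical
  set D : Φ → ℝ := fun φ => a φ * w (sw φ) - a (sw φ) * w φ with hD
  have hDp : ∀ φ ∈ F, bd φ → D (pv φ) = - D φ := fun φ hφ hb => H.det_pv hφ hb
  have hE : ∀ φ ∈ F, bd φ → D (pv φ) / w (pv φ) = D φ / w φ := fun φ hφ hb => by
    rw [hDp φ hφ hb, (H.pv_d φ hφ hb).2.1, neg_div_neg_eq]
  set ρ : Φ → ℝ := fun φ => (s φ * w (sw φ) - s (sw φ) * w φ) / D φ with hρ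
  have hρ1 : ∀ φ ∈ F, s φ * w (sw φ) - s (sw φ) * w φ = ρ φ * D φ := fun φ hφ =>
    (div_mul_cancel₀ _ (H.det φ hφ)).symm
  have hρ2 : ∀ φ ∈ F, ρ (sw φ) = ρ φ := fun φ hφ => by
    simp only [hρ, hD, H.sw_sw φ hφ]
    rw [← neg_div_neg_eq]
    congr 1 <;> ring
  have hsE : ∑ φ ∈ F, s φ * (D φ / w φ) = 0 := by
    rw [← sum_filter_add_sum_filter_not F bd,
      H.sum_odd _ fun φ hφ hb => by rw [hE φ hφ hb, (hs φ hφ hb).1]; ring, zero_add]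
    exact sum_eq_zero fun φ hφ => by rw [hu φ (mem_filter.1 hφ).1 (mem_filter.1 hφ).2, zero_mul]
  by_cases h0 : ∃ φ0 ∈ F, 0 < w φ0 * w (sw φ0)
  swap
  · exact H.test s (fun _ => 0) (fun _ => 0) (fun _ _ => rfl) (fun _ _ => rfl)
      (fun φ hφ h => absurd ⟨φ, hφ, h⟩ h0) (by simp) (by simp)
  obtain ⟨φ0, hφ0, h0⟩ := h0
  by_cases h1 : ∃ φ1 ∈ F, 0 < w φ1 * w (sw φ1) ∧ w φ0 * w φ1 < 0
  · obtain ⟨φ1, hφ1, h1, h01⟩ := h1
    have hb : ∀ φ ∈ F, bd φ := fun φ hφ => by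
      by_contra hb
      have a1 := H.ray_pos hφ0 hφ h0 hb
      have a2 := H.ray_pos hφ1 hφ h1 hb
      nlinarith [mul_pos a1 a2, mul_self_nonneg (w φ)]
    have hY : Y φ1 - Y φ0 ≠ 0 := fun e => by
      rcases H.same hφ0 hφ1 h0 (by rw [sub_eq_zero.1 e]) with rfl | rfl
      · nlinarith [mul_self_nonneg (w φ1)]
      · linarith
    obtain ⟨C, hC⟩ : ∃ C, C * (Y φ1 - Y φ0) = ρ φ1 - ρ φ0 := ⟨_, div_mul_cancel₀ _ hY⟩
    have key : ∀ u : Φ → ℝ, (∀ φ ∈ F, u (pv φ) = - u φ) →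
        ∑ φ ∈ F, u φ * (ρ φ0 + C * (Y φ - Y φ0)) * (D φ / w φ) =
          -(C / 2) * ∑ φ ∈ F, u φ * l φ * D φ := fun u hu => by
      have a1 := H.sum_odd
        (fun φ => u φ * (ρ φ0 + C * (Y φ - Y φ0)) * (D φ / w φ) + C / 2 * (u φ * l φ * D φ))
        fun φ hφ hb => by
          have b1 := H.pv_Y _ (H.pv_mem φ hφ hb).1 (H.pv_mem φ hφ hb).2.1
          have b2 := H.w_ne φ hφ
          rw [(H.pv_mem φ hφ hb).2.2, H.pv_Y φ hφ hb, (H.pv_d φ hφ hb).2.1] at b1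
          have b3 : l (pv φ) = l φ := mul_right_cancel₀ b2 (by linarith)
          rw [hE φ hφ hb, hu φ hφ, hDp φ hφ hb, H.pv_Y φ hφ hb, b3]
          field_simp
          ring
      rw [filter_true_of_mem hb, sum_add_distrib, ← mul_sum] at a1
      linarith
    refine H.test s (fun φ => ρ φ0 + C * (Y φ - Y φ0)) (fun φ => -C * (X φ - X φ0))
      (fun φ hφ => by rw [H.sw_Y φ hφ]) (fun φ hφ => by rw [H.sw_X φ hφ]) (fun φ hφ h => ?_) ?_ ?_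
    · rw [hρ1 φ hφ]
      congr 1
      rcases (mul_ne_zero (H.w_ne φ0 hφ0) (H.w_ne φ hφ)).lt_or_gt with h2 | h2
      · have h3 : 0 < w φ1 * w φ := by
          have := mul_pos_of_neg_of_neg h01 h2
          by_contra hc
          nlinarith [mul_self_nonneg (w φ0)]
        rcases H.same' hφ1 hφ h1 h h3 with rfl | rfl
        · linarith
        · rw [hρ2 φ1 hφ1, H.sw_Y φ1 hφ1]
          linarith
      · rcases H.same' hφ0 hφ h0 h h2 with rfl | rfl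
        · ring
        · rw [hρ2 φ0 hφ0, H.sw_Y φ0 hφ0]
          ring
    · rw [key s fun φ hφ => (hs φ hφ (hb φ hφ)).1,
        sum_congr rfl fun φ hφ => by rw [(hs φ hφ (hb φ hφ)).2], H.closing hb z hz, mul_zero]
    · rw [key _ fun φ hφ => by
        obtain ⟨a1, a2, -⟩ := H.pv_d φ hφ (hb φ hφ)
        rw [H.pv_X φ hφ (hb φ hφ), H.pv_Y φ hφ (hb φ hφ), a1, a2]
        ring]
      have a1 := H.closing hb X H.sw_X
      have a2 : ∑ φ ∈ F, ((ρ φ0 + C * (Y φ - Y φ0)) * a φ + -C * (X φ - X φ0) * w φ) * l φ * D φ =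
          ρ φ0 * ∑ φ ∈ F, (X (pv φ) - X φ) * D φ +
            C * ∑ φ ∈ F, ((Y φ - Y φ0) * a φ - (X φ - X φ0) * w φ) * l φ * D φ := by
        rw [mul_sum, mul_sum, ← sum_add_distrib]
        exact sum_congr rfl fun φ hφ => by rw [H.pv_X φ hφ (hb φ hφ)]; ring
      have a3 : ∑ φ ∈ F, ((Y φ - Y φ0) * a φ - (X φ - X φ0) * w φ) * l φ * D φ ≤ 0 := by
        refine sum_nonpos fun φ hφ => ?_
        obtain ⟨p, q, -, hq, b1, b2⟩ := H.cvx φ hφ φ0 hφ0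
        have b3 : ((Y φ - Y φ0) * a φ - (X φ - X φ0) * w φ) * l φ * D φ =
            -(q * l φ * D φ ^ 2) := by
          rw [b1, b2, hD]
          ring
        rw [b3, neg_nonpos]
        exact mul_nonneg (mul_nonneg hq (H.pv_d φ hφ (hb φ hφ)).2.2.1) (sq_nonneg _)
      rw [a2, a1]
      nlinarith [mul_nonneg (mul_self_nonneg C) (neg_nonneg.2 a3)]
  · obtain ⟨B, hB⟩ : ∃ B, ∀ φ ∈ F, ¬ bd φ → 0 ≤ (ρ φ0 * a φ + B * w φ) * ρ φ0 * (D φ / w φ) := by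
      by_cases h2 : ∃ ψ ∈ F, ¬ bd ψ
      swap
      · exact ⟨0, fun φ hφ hb => absurd ⟨φ, hφ, hb⟩ h2⟩
      obtain ⟨ψ, hψ, hbψ⟩ := h2
      refine ⟨-ρ φ0 * a ψ / w ψ, fun φ hφ hb => ?_⟩
      obtain ⟨p, q, -, hq, b1, b2⟩ := H.ray φ hφ ψ hψ hbψ
      have b3 := H.w_ne φ hφ
      have b4 := H.w_ne ψ hψ
      have b5 : 0 < w φ * w ψ := by
        have := mul_pos (H.ray_pos hφ0 hφ h0 hb) (H.ray_pos hφ0 hψ h0 hbψ)
        by_contra hc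
        nlinarith [mul_self_nonneg (w φ0)]
      have b6 : a φ * w ψ - a ψ * w φ = q * D φ := by
        rw [b1, b2, hD]
        ring
      have b7 : (ρ φ0 * a φ + -ρ φ0 * a ψ / w ψ * w φ) * ρ φ0 * (D φ / w φ) =
          ρ φ0 ^ 2 * (a φ * w ψ - a ψ * w φ) * D φ / (w φ * w ψ) := by
        field_simp
        ring
      rw [b7, b6]
      refine div_nonneg ?_ b5.le
      nlinarith [mul_nonneg (mul_nonneg (sq_nonneg (ρ φ0)) hq) (mul_self_nonneg (D φ))]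
    refine H.test s (fun _ => ρ φ0) (fun _ => B) (fun _ _ => rfl) (fun _ _ => rfl)
      (fun φ hφ h => ?_) ?_ ?_
    · rw [hρ1 φ hφ]
      congr 1
      have h2 : 0 < w φ0 * w φ := lt_of_le_of_ne (not_lt.1 fun h2 => h1 ⟨φ, hφ, h, h2⟩)
        (mul_ne_zero (H.w_ne φ0 hφ0) (H.w_ne φ hφ)).symm
      rcases H.same' hφ0 hφ h0 h h2 with rfl | rfl
      · rfl
      · exact hρ2 φ0 hφ0
    · rw [← mul_zero (ρ φ0), ← hsE, mul_sum]
      exact sum_congr rfl fun φ _ => by ring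
    · rw [← sum_filter_add_sum_filter_not F bd, H.sum_odd _ fun φ hφ hb => by
        have := hE φ hφ hb
        simp only [hD] at this
        rw [this, (H.pv_d φ hφ hb).1, (H.pv_d φ hφ hb).2.1]
        ring, zero_add]
      exact sum_nonneg fun φ hφ => hB φ (mem_filter.1 hφ).1 (mem_filter.1 hφ).2

end Poly

end Pool.Agent.Lib.US.H89
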