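import Pool.Agent.Lib.US.Blue
import Pool.Agent.Lib.US.Poly89

/-! The planar Minkowski inequality for the two dimensional faces. -/

namespace Pool.Agent.Lib.US

open Finset

namespace POLY

variable {ι X V : Type} [DecidableEq ι] [AddCommGroup V] [Module ℝ V]
  {S : Sys ι X V} {θ : ι → ℝ} {σ : ι → X} {T Φ : Finset ι} {c d : ι}

/-- flags of the face on which `Φ` is tight -/
def Fg (S : Sys ι X V) (θ : ι → ℝ) (σ : ι → X) (Φ T : Finset ι) (c d : ι) : Prop :=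
  S.Vx θ σ T ∧ c ∈ T ∧ d ∈ T ∧ c ≠ d ∧ (T.erase c).erase d = Φ

theorem Fg.sw (h : Fg S θ σ Φ T c d) : Fg S θ σ Φ T d c :=
  ⟨h.1, h.2.2.1, h.2.1, h.2.2.2.1.symm, by rw [← h.2.2.2.2]; exact erase_right_comm⟩

theorem Fg.mem (h : Fg S θ σ Φ T c d) {e : ι} : e ∈ Φ ↔ e ≠ d ∧ e ≠ c ∧ e ∈ T := by
  rw [← h.2.2.2.2, mem_erase, mem_erase]

theorem Fg.span (h : Fg S θ σ Φ T c d) {v : V} (hv : v ∈ S.Vs σ) (h0 : ∀ e ∈ Φ, S.L σ e v = 0)
    (f : V →ₗ[ℝ] ℝ) : f v = S.L σ c v * f (S.yv σ T c) + S.L σ d v * f (S.yv σ T d) := by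
  conv_lhs => rw [h.1.1.frame.span v hv]
  rw [← add_sum_erase T _ h.2.1, ← add_sum_erase _ _ (mem_erase.2 ⟨h.2.2.2.1.symm, h.2.2.1⟩),
    h.2.2.2.2, sum_eq_zero fun e he => by rw [h0 e he, zero_smul]]
  simp

theorem Fg.dir (h : Fg S θ σ Φ T c d) : ∀ e ∈ Φ, S.L σ e (S.yv σ T c) = 0 := fun e he => by
  obtain ⟨-, h2, h3⟩ := h.mem.1 he
  rw [h.1.1.frame.dual c h.2.1 e h3, if_neg h2]

theorem Fg.pos (h : Fg S θ σ Φ T c d) {T' : Finset ι} {c' d' : ι} (h' : Fg S θ σ Φ T' c' d')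
    (f : V →ₗ[ℝ] ℝ) : -f (S.pt θ σ T') = -f (S.pt θ σ T) +
      (S.th θ c - S.L σ c (S.pt θ σ T')) * f (S.yv σ T c) +
      (S.th θ d - S.L σ d (S.pt θ σ T')) * f (S.yv σ T d) := by
  have := h.span (Submodule.sub_mem _ (h'.1.1.pt_mem (θ := θ)) (h.1.1.pt_mem (θ := θ)))
    (fun e he => by
      rw [map_sub, h.1.1.pt_tight (h.mem.1 he).2.2, h'.1.1.pt_tight (h'.mem.1 he).2.2, sub_self]) f
  rw [map_sub, map_sub, map_sub, h.1.1.pt_tight h.2.1, h.1.1.pt_tight h.2.2.1] at this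
  linarith

end POLY

open POLY Sys in
theorem poly : St_POLY := by
  intro ι X V _ _ _ _ S hA θ p hG hp σ Φ U
  classical
  set F := (S.Cn.powerset ×ˢ S.Cn ×ˢ S.Cn).filter fun x : Finset ι × ι × ι => S.Vx θ σ x.1 ∧
    x.2.1 ∈ x.1 ∧ x.2.2 ∈ x.1 ∧ x.2.1 ≠ x.2.2 ∧ (x.1.erase x.2.1).erase x.2.2 = Φ with hF
  have hm : ∀ {T c d}, (T, c, d) ∈ F ↔ Fg S θ σ Φ T c d := fun {T c d} => by
    simp only [hF, mem_filter, mem_product, mem_powerset]
    exact ⟨fun h => h.2, fun h => ⟨⟨h.1.1.2.1, h.1.1.2.1 h.2.1, h.1.1.2.1 h.2.2.1⟩, h⟩⟩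
  rcases F.eq_empty_or_nonempty with h | ⟨⟨T0, c0, d0⟩, h0⟩
  · rw [h, sum_empty]
  have g0 := hm.1 h0
  set P : V →ₗ[ℝ] ℝ := ∑ e ∈ S.Cc, p e • S.L σ e with hP
  have hph : ∀ T c, S.ph p σ T c = P (S.yv σ T c) := fun T c => by
    simp only [hP, ph, LinearMap.sum_apply, LinearMap.smul_apply, smul_eq_mul]
  have hinj : ∀ v ∈ S.Vs σ, (∀ e ∈ Φ, S.L σ e v = 0) → S.L σ c0 v = 0 → P v = 0 →
      ∀ f : V →ₗ[ℝ] ℝ, f v = 0 := fun v hv h1 h2 h3 f => by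
    have h4 := g0.span hv h1 P
    rw [h2, h3, zero_mul, zero_add, ← hph] at h4
    rw [g0.span hv h1 f, h2, (mul_eq_zero.1 h4.symm).resolve_right (hp.2 σ T0 g0.1.1 d0 g0.2.2.1)]
    simp
  have hpv : ∀ T c d, Fg S θ σ Φ T c d → (S.cand σ T c).Nonempty →
      Fg S θ σ Φ (S.nxt θ σ T c) (S.ent θ σ T c) d := fun T c d h hb => by
    have h1 : d ∈ T.erase c := mem_erase.2 ⟨h.2.2.2.1.symm, h.2.2.1⟩
    refine ⟨(piv hA hG h.1 h.2.1 hb).1, mem_insert_self _ _, mem_insert_of_mem h1, fun e => ?_,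
      by rw [nxt_erase hb, h.2.2.2.2]⟩
    exact (mem_cand.1 (ent_spec (θ := θ) hb).1).2.1 (e ▸ h.2.2.1)
  have H : H89.Poly F (fun x => (x.1, x.2.2, x.2.1))
      (fun x => (S.nxt θ σ x.1 x.2.1, S.ent θ σ x.1 x.2.1, x.2.2))
      (fun x => (S.cand σ x.1 x.2.1).Nonempty) (fun x => -S.L σ c0 (S.pt θ σ x.1))
      (fun x => -P (S.pt θ σ x.1)) (fun x => S.L σ c0 (S.yv σ x.1 x.2.1))
      (fun x => S.ph p σ x.1 x.2.1) (fun x => S.len θ σ x.1 x.2.1) := by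
    refine ⟨fun ⟨T, c, d⟩ h => hm.2 (hm.1 h).sw, fun _ _ => rfl, fun _ _ => rfl, fun _ _ => rfl,
      fun ⟨T, c, d⟩ h hb => ?_, fun ⟨T, c, d⟩ h hb => ?_, fun ⟨T, c, d⟩ h hb => ?_,
      fun ⟨T, c, d⟩ h hb => ?_, fun ⟨T, c, d⟩ h => ?_, fun ⟨T, c, d⟩ h => ?_,
      fun ⟨T, c, d⟩ h ⟨T', c', d'⟩ h' => ?_, fun ⟨T, c, d⟩ h ⟨T', c', d'⟩ h' hb => ?_,
      fun ⟨T, c, d⟩ h ⟨T', c', d'⟩ h' e1 e2 => ?_⟩
    · have g := hm.1 h
      obtain ⟨h1, h2, h3, -⟩ := piv_back hA hG g.1 g.2.1 hb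
      exact ⟨hm.2 (hpv T c d g hb), ⟨_, h1⟩, Prod.ext h3 (Prod.ext h2 rfl)⟩
    · have g := hm.1 h
      dsimp only
      rw [(piv hA hG g.1 g.2.1 hb).2.2.2.2, map_sub, map_smul, smul_eq_mul]
      ring
    · have g := hm.1 h
      dsimp only
      rw [(piv hA hG g.1 g.2.1 hb).2.2.2.2, map_sub, map_smul, smul_eq_mul, hph]
      ring
    · have g := hm.1 h
      obtain ⟨-, h2, h3, h4, -⟩ := piv hA hG g.1 g.2.1 hb
      have h5 := h4 d (mem_erase.2 ⟨g.2.2.2.1.symm, g.2.2.1⟩)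
      dsimp only
      refine ⟨by rw [h3, map_neg], ph_rev hA hG g.1 g.2.1 hb p, h2.le,
        S.L σ (S.ent θ σ T c) (S.yv σ T d), ?_, ?_⟩
      · rw [h5, map_add, map_smul, smul_eq_mul]
      · rw [hph, hph, hph, h5, map_add, map_smul, smul_eq_mul]
    · have g := hm.1 h
      intro e
      dsimp only at e
      have hc := g.1.1.frame.mem c g.2.1
      have hd := g.1.1.frame.mem d g.2.2.1
      have e1 := hinj (S.L σ c0 (S.yv σ T c) • S.yv σ T d - S.L σ c0 (S.yv σ T d) • S.yv σ T c)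
        (Submodule.sub_mem _ (Submodule.smul_mem _ _ hd) (Submodule.smul_mem _ _ hc))
        (fun k hk => by simp [g.dir k hk, g.sw.dir k hk])
        (by simp only [map_sub, map_smul, smul_eq_mul]; ring)
        (by simp only [map_sub, map_smul, smul_eq_mul, ← hph]; linarith)
      have e2 := e1 (S.L σ c)
      have e3 := e1 (S.L σ d)
      simp only [map_sub, map_smul, smul_eq_mul, g.1.1.frame.dual c g.2.1 c g.2.1,
        g.1.1.frame.dual d g.2.2.1 c g.2.1, g.1.1.frame.dual c g.2.1 d g.2.2.1,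
        g.1.1.frame.dual d g.2.2.1 d g.2.2.1, if_true, if_neg g.2.2.2.1,
        if_neg g.2.2.2.1.symm] at e2 e3
      have e4 := g.span (g0.1.1.frame.mem c0 g0.2.1) g0.dir (S.L σ c0)
      rw [g0.1.1.frame.dual c0 g0.2.1 c0 g0.2.1, if_pos rfl,
        show S.L σ c0 (S.yv σ T c) = 0 by linarith, show S.L σ c0 (S.yv σ T d) = 0 by linarith]
        at e4
      simp at e4
    · exact hp.2 σ T (hm.1 h).1.1 c (hm.1 h).2.1
    · have g := hm.1 h
      have g' := hm.1 h'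
      refine ⟨_, _, sub_nonneg.2 (g'.1.le (g.1.1.2.1 g.2.1)),
        sub_nonneg.2 (g'.1.le (g.1.1.2.1 g.2.2.1)), g.pos g' _, ?_⟩
      dsimp only
      rw [hph, hph]
      exact g.pos g' _
    · have g := hm.1 h
      have g' := hm.1 h'
      have hv := g'.1.1.frame.mem c' g'.2.1
      refine ⟨_, _, unb_nonneg hA g'.1.1 g'.2.1 hb (g.1.1.2.1 g.2.1),
        unb_nonneg hA g'.1.1 g'.2.1 hb (g.1.1.2.1 g.2.2.1), g.span hv g'.dir _, ?_⟩
      dsimp only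
      rw [hph, hph, hph]
      exact g.span hv g'.dir _
    · have g := hm.1 h
      have g' := hm.1 h'
      dsimp only at e1 e2
      have e3 := hinj _ (Submodule.sub_mem _ (g'.1.1.pt_mem (θ := θ)) (g.1.1.pt_mem (θ := θ)))
        (fun e he => by
          rw [map_sub, g.1.1.pt_tight (g.mem.1 he).2.2, g'.1.1.pt_tight (g'.mem.1 he).2.2,
            sub_self]) (by rw [map_sub]; linarith) (by rw [map_sub]; linarith)
      obtain rfl : T' = T := by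
        ext e
        have e4 := e3 (S.L σ e)
        rw [map_sub] at e4
        constructor <;> intro he <;> by_contra hn
        · have := g.1.2 e (g'.1.1.2.1 he) hn
          rw [sl, ← g'.1.1.pt_tight (θ := θ) he] at this
          linarith
        · have := g'.1.2 e (g.1.1.2.1 he) hn
          rw [sl, ← g.1.1.pt_tight (θ := θ) he] at this
          linarith
      have m1 : c = c' ∨ c = d' := by
        by_contra hc
        push Not at hc
        exact (g.mem.1 (g'.mem.2 ⟨hc.2, hc.1, g.2.1⟩)).2.1 rfl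
      have m2 : d = c' ∨ d = d' := by
        by_contra hc
        push Not at hc
        exact (g.mem.1 (g'.mem.2 ⟨hc.2, hc.1, g.2.2.1⟩)).1 rfl
      rcases m1 with rfl | rfl <;> rcases m2 with rfl | rfl
      · exact absurd rfl g.2.2.2.1
      · exact Or.inl rfl
      · exact Or.inr rfl
      · exact absurd rfl g.2.2.2.1
  refine H.minkowski (fun x => S.slope θ U σ x.1 x.2.1) (fun x => U (S.key σ x.1))
    (fun _ _ => rfl) (fun ⟨T, c, d⟩ h hb => ?_) fun ⟨T, c, d⟩ _ hb => if_neg hb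
  have g := hm.1 h
  refine ⟨slope_rev hA hG g.1 g.2.1 hb U, ?_⟩
  dsimp only
  rw [Sys.slope, if_pos hb, div_mul_cancel₀ _ (piv hA hG g.1 g.2.1 hb).2.1.ne']

end Pool.Agent.Lib.US
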