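import Pool.Agent.Lib.US.B_GP
import Pool.Agent.Lib.US.B_GEN
import Pool.Agent.Lib.US.B_INV
import Pool.Agent.Lib.US.B_INV2
import Pool.Agent.Lib.US.B_POLY
import Pool.Agent.Lib.US.B_BOCH
import Pool.Agent.Lib.US.B_EXT
import Pool.Agent.Lib.US.B_EXT2
import Pool.Agent.Lib.US.B_POINC
import Pool.Agent.Lib.US.B_EUL
import Pool.Agent.Lib.US.B_CONN
import Pool.Agent.Lib.US.B_CMP
import Pool.Agent.Lib.US.B_CNT1
import Pool.Agent.Lib.US.B_CNT2

/-! The abstract layer, assembled. -/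

namespace Pool.Agent.Lib.US

theorem all_BOCH : St_BOCH := boch gp poly (ext2 ext) cor2 eul
theorem all_POINC : St_POINC := poinc ext all_BOCH
theorem all_CMP : St_CMP := cmp all_POINC
theorem all_INV2 : St_INV2 := inv2 gen inv

end Pool.Agent.Lib.US
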