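import Pool.Agent.Lib.US.Cod18

/-! Adjacent walls: an interval of rank three. -/

namespace Pool.Agent.Lib.US

open Finset Pool.Agent.Lib.FL
open Pool.Agent.Lib.FL.H64 (IsRk cl Flat Cov)

namespace H18

theorem rv_cov {E K F : Finset ℕ} {r : Finset ℕ → ℕ} (h : IsRk r) (hK : Flat r E K)
    (hF : Flat r E F) (hs : K ⊆ F) (S : Finset (Finset ℕ))
    (hS : ∀ P, P ∈ S ↔ Cov r E K P ∧ P ⊆ F) (σ : ℕ × ℕ → Finset ℕ) (t : ℕ) (x : ℕ × ℕ) :
    ∑ P ∈ S, (rv σ t P x - rv σ t K x) = rv σ t F x - rv σ t K x := by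
  by_cases a : x.2 ∈ K
  · rw [sum_eq_zero fun P hP => by simp only [rv, a, ((hS P).1 hP).1.2.2.1 a, sub_self]]
    simp only [rv, a, hs a, sub_self]
  by_cases b : x.2 ∈ F
  · have hc := h.cov_cl hK (hF.1 b) a
    rw [sum_eq_single_of_mem _ ((hS _).2 ⟨hc, h.cl_min hF (insert_subset b hs)⟩) fun P hP e => by
      have : x.2 ∉ P := fun c => e (h.cov_eq ((hS P).1 hP).1 c a).symm
      simp only [rv, a, this, sub_self]]
    simp only [rv, b, H64.subset_cl (insert_subset (hF.1 b) hK.1) (mem_insert_self _ _)]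
  · rw [sum_eq_zero fun P hP => by
      have : x.2 ∉ P := fun c => b (((hS P).1 hP).2 c)
      simp only [rv, a, this, sub_self]]
    simp only [rv, a, b, sub_self]

theorem key {α β : Type} {Pt : Finset α} {Ln : Finset β} {I : α → β → Prop}
    [∀ p q, Decidable (I p q)] (h1 : ∀ p ∈ Pt, (1 : ℝ) ≤ (Ln.filter (I p)).card)
    (h2 : ∀ q ∈ Ln, (1 : ℝ) ≤ (Pt.filter (I · q)).card) (f : α → ℝ) (g : β → ℝ) :
    ∑ p ∈ Pt, ∑ q ∈ Ln with I p q,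
      (f p / (Ln.filter (I p)).card + g q / (Pt.filter (I · q)).card) =
      ∑ p ∈ Pt, f p + ∑ q ∈ Ln, g q := by
  simp only [sum_add_distrib]
  rw [swap fun _ q => g q / (Pt.filter (I · q)).card]
  congr 1
  · refine sum_congr rfl fun p hp => ?_
    have := h1 p hp
    rw [sum_const, nsmul_eq_mul, mul_div_cancel₀ _ (by linarith)]
  · refine sum_congr rfl fun q hq => ?_
    have := h2 q hq
    rw [sum_const, nsmul_eq_mul, mul_div_cancel₀ _ (by linarith)]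

end H18

theorem adj (hB : St_BAL) (_hA : St_AX1) : St_ADJ := by
  classical
  rintro E ρ hρ σ hσ ⟨t, i⟩ hk hl
  dsimp only at hl ⊢
  have hc := mem_Ch.1 hσ
  have hr := H18.rk_rs (E := E) hρ (t - 3)
  obtain ⟨ht, hi, -⟩ := H18.wall_iff.1 hk
  dsimp only at ht hi
  have c1 : Cov (rs E ρ (t - 3)) E (σ (t, i - 1)) (σ (t, i)) := H18.cov_lo hc hk
  have c2 : Cov (rs E ρ (t - 3)) E (σ (t, i)) (σ (t, i + 1)) := H18.cov_hi hc hk
  have c3 : Cov (rs E ρ (t - 3)) E (σ (t, i + 1)) (σ (t, i + 1 + 1)) := H18.cov_hi hc hl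
  have hne : (t, i) ≠ (t, i + 1) := (H18.ne_hi (t, i)).symm
  have n1 : (t, i - 1) ≠ (t, i) := H18.ne_lo hk
  have n2 : (t, i - 1) ≠ (t, i + 1) := fun h => by have := (Prod.mk.inj h).2; omega
  have n3 : (t, i + 1 + 1) ≠ (t, i) := fun h => by have := (Prod.mk.inj h).2; omega
  have n4 : (t, i + 1 + 1) ≠ (t, i + 1) := H18.ne_hi (t, i + 1)
  have a1 := fun P Q => H18.up2_ne (σ := σ) n1 n2 P Q
  have a2 := fun P Q => H18.up2_ne (σ := σ) n3 n4 P Q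
  have a5 := fun P Q => H18.up2_ne (σ := σ) (H18.ne_bot hk t) (H18.ne_bot hl t) P Q
  have rK := H18.rv_all hc ht (i - 1)
  have rT := H18.rv_all hc ht (i + 1 + 1)
  generalize hKe : σ (t, i - 1) = K at *
  generalize hTe : σ (t, i + 1 + 1) = T at *
  set r := rs E ρ (t - 3) with hre
  have hK := c1.1
  have hT := c3.2.1
  have hKT : K ⊆ T := c1.2.2.1.trans (c2.2.2.1.trans c3.2.2.1)
  have hrk : r T = r K + 3 := by rw [c3.2.2.2, c2.2.2.2, c1.2.2.2]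
  obtain ⟨Pt, mP⟩ : ∃ Pt : Finset (Finset ℕ), ∀ P, P ∈ Pt ↔ Cov r E K P ∧ P ⊆ T :=
    ⟨E.powerset.filter fun P => Cov r E K P ∧ P ⊆ T, fun P => by
      rw [mem_filter, mem_powerset]
      exact ⟨fun h => h.2, fun h => ⟨h.1.2.1.1, h⟩⟩⟩
  obtain ⟨Ln, mL⟩ : ∃ Ln : Finset (Finset ℕ), ∀ Q, Q ∈ Ln ↔ K ⊆ Q ∧ Cov r E Q T :=
    ⟨E.powerset.filter fun Q => K ⊆ Q ∧ Cov r E Q T, fun Q => by
      rw [mem_filter, mem_powerset]
      exact ⟨fun h => h.2, fun h => ⟨h.2.1.1, h⟩⟩⟩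
  have mPQ : ∀ Q ∈ Ln, ∀ P, P ∈ Pt.filter (Cov r E · Q) ↔ Cov r E K P ∧ P ⊆ Q := fun Q hQ P => by
    obtain ⟨-, b⟩ := (mL Q).1 hQ
    rw [mem_filter, mP]
    refine ⟨fun h => ⟨h.1.1, h.2.2.2.1⟩, fun h => ⟨⟨h.1, h.2.trans b.2.2.1⟩, h.1.2.1, b.1, h.2, ?_⟩⟩
    have := h.1.2.2.2
    have := b.2.2.2
    omega
  have mQP : ∀ P ∈ Pt, ∀ Q, Q ∈ Ln.filter (Cov r E P) ↔ Cov r E P Q ∧ Q ⊆ T := fun P hP Q => by
    obtain ⟨b, -⟩ := (mP P).1 hP
    rw [mem_filter, mL]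
    refine ⟨fun h => ⟨h.2, h.1.2.2.2.1⟩,
      fun h => ⟨⟨b.2.2.1.trans h.1.2.2.1, h.1.2.1, hT, h.2, ?_⟩, h.1⟩⟩
    have := h.1.2.2.2
    have := b.2.2.2
    omega
  have hXY : ∀ P Q, IsCone E ρ (H18.up2 σ (t, i) (t, i + 1) P Q) ↔
      P ∈ Pt ∧ Q ∈ Ln.filter (Cov r E P) := fun P Q => by
    rw [mem_filter, mP, mL]
    refine ⟨fun h => ?_, fun h => H18.cone_of hc {(t, i), (t, i + 1)} (fun j hj => ?_)
      (fun j hj => ?_) fun j hj => ?_⟩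
    · have b1 := H18.cov_lo h hk
      have b2 := H18.cov_hi h hk
      have b3 := H18.cov_hi h hl
      dsimp only at b1 b2 b3
      rw [a1, H18.up2_k hne] at b1
      rw [H18.up2_l, H18.up2_k hne] at b2
      rw [a2, H18.up2_l] at b3
      exact ⟨⟨b1, b2.2.2.1.trans b3.2.2.1⟩, ⟨b1.2.2.1.trans b2.2.2.1, b3⟩, b2⟩
    · rcases mem_insert.1 hj with rfl | hj
      · exact hk
      · exact mem_singleton.1 hj ▸ hl
    · rw [mem_insert, mem_singleton, not_or] at hj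
      exact H18.up2_ne hj.1 hj.2 P Q
    · rcases mem_insert.1 hj with rfl | hj
      · dsimp only
        rw [a1, H18.up2_l, H18.up2_k hne]
        exact ⟨h.1.1, h.2.2⟩
      · rw [mem_singleton.1 hj]
        dsimp only
        rw [a2, H18.up2_l, Nat.add_sub_cancel, H18.up2_k hne]
        exact ⟨h.2.2, h.2.1.2⟩
  have mk : ∀ P, ∀ Q ∈ Ln, H18.mid E ρ (H18.up2 σ (t, i) (t, i + 1) P Q) (t, i) =
      Pt.filter (Cov r E · Q) := fun P Q hQ => by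
    ext P'
    rw [H18.mem_mid, mem_filter, mP]
    dsimp only
    rw [a1, H18.up2_l]
    exact ⟨fun h => ⟨⟨h.1, h.2.2.2.1.trans ((mL Q).1 hQ).2.2.2.1⟩, h.2⟩, fun h => ⟨h.1.1, h.2⟩⟩
  have ml : ∀ P ∈ Pt, ∀ Q, H18.mid E ρ (H18.up2 σ (t, i) (t, i + 1) P Q) (t, i + 1) =
      Ln.filter (Cov r E P) := fun P hP Q => by
    ext Q'
    rw [H18.mem_mid, mem_filter, mL]
    dsimp only
    rw [a2, Nat.add_sub_cancel, H18.up2_k hne]
    exact ⟨fun h => ⟨⟨((mP P).1 hP).1.2.2.1.trans h.1.2.2.1, h.2⟩, h.1⟩, fun h => ⟨h.2, h.1.2⟩⟩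
  have e1 : ∀ P ∈ Pt, (Ln.filter (Cov r E P)).Nonempty := fun P hP => by
    obtain ⟨b1, b2⟩ := (mP P).1 hP
    obtain ⟨Q, hQ⟩ := hr.exists_cov b1.2.1 hT b2 (by rintro rfl; have := b1.2.2.2; omega)
    exact ⟨Q, (mQP P hP Q).2 hQ⟩
  have e2 : ∀ Q ∈ Ln, (Pt.filter (Cov r E · Q)).Nonempty := fun Q hQ => by
    obtain ⟨b1, b2⟩ := (mL Q).1 hQ
    obtain ⟨P, hP⟩ := hr.exists_cov hK b2.1 b1 (by rintro rfl; have := b2.2.2.2; omega)
    exact ⟨P, (mPQ Q hQ P).2 hP⟩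
  have p1 : ∀ P ∈ Pt, (1 : ℝ) ≤ (Ln.filter (Cov r E P)).card := fun P hP => by
    exact_mod_cast (e1 P hP).card_pos
  have p2 : ∀ Q ∈ Ln, (1 : ℝ) ≤ (Pt.filter (Cov r E · Q)).card := fun Q hQ => by
    exact_mod_cast (e2 Q hQ).card_pos
  have h3 : ∀ P ∈ Pt, ∀ P' ∈ Pt, P ≠ P' →
      (Ln.filter fun Q => Cov r E P Q ∧ Cov r E P' Q).card = 1 := fun P hP P' hP' e => by
    obtain ⟨b1, b2⟩ := (mP P).1 hP
    obtain ⟨b3, b4⟩ := (mP P').1 hP'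
    have b5 := hr.cov_join b1 b3 e
    refine card_eq_one.2 ⟨cl r E (P ∪ P'), eq_singleton_iff_unique_mem.2 ⟨mem_filter.2
      ⟨(mem_filter.1 ((mQP P hP _).2 ⟨b5.1, hr.join_le hT b2 b4⟩)).1, b5⟩, fun Q hQ => ?_⟩⟩
    exact (hr.join_eq b1 b3 e (mem_filter.1 hQ).2.1 (mem_filter.1 hQ).2.2).symm
  set a : Finset ℕ → ℝ := fun P => (P.card : ℝ) - K.card with ha
  set m1 : Finset ℕ → ℝ := fun P => (a T - a P) ^ 2 -
    ∑ Q ∈ Ln with Cov r E P Q, (a Q - a P) ^ 2 with hm1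
  set m2 : Finset ℕ → ℝ := fun Q => a Q ^ 2 - ∑ P ∈ Pt with Cov r E P Q, a P ^ 2 with hm2
  have s0 : ∑ P ∈ Pt, a P = a T := hr.sum_cov hK hT hKT Pt mP
  have s1 : ∀ Q ∈ Ln, ∑ P ∈ Pt with Cov r E P Q, a P = a Q := fun Q hQ =>
    hr.sum_cov hK ((mL Q).1 hQ).2.1 ((mL Q).1 hQ).1 _ (mPQ Q hQ)
  have hid := H18.ident (mP := m1) (mQ := m2) h3 s0 s1 (fun P hP => by
    simp only [ha, sub_sub_sub_cancel_right]
    exact hr.sum_cov ((mP P).1 hP).1.2.1 hT ((mP P).1 hP).2 _ (mQP P hP))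
    (fun _ _ => rfl) fun _ _ => rfl
  have nk : ∀ P ∈ Pt, ∀ Q ∈ Ln.filter (Cov r E P),
      (sys E ρ).nu (H18.up2 σ (t, i) (t, i + 1) P Q) (t, i) =
        m2 Q / (Pt.filter (Cov r E · Q)).card := fun P hP Q hQ => by
    rw [H18.nu_eq hB hρ ((hXY P Q).2 ⟨hP, hQ⟩) hk, mk P Q (mem_filter.1 hQ).1]
    dsimp only
    rw [a1, H18.up2_l]
  have nl : ∀ P ∈ Pt, ∀ Q ∈ Ln.filter (Cov r E P),
      (sys E ρ).nu (H18.up2 σ (t, i) (t, i + 1) P Q) (t, i + 1) =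
        m1 P / (Ln.filter (Cov r E P)).card := fun P hP Q hQ => by
    rw [H18.nu_eq hB hρ ((hXY P Q).2 ⟨hP, hQ⟩) hl, ml P hP Q]
    dsimp only
    rw [a2, Nat.add_sub_cancel, H18.up2_k hne]
    simp only [hm1, ha, sub_sub_sub_cancel_right]
  have q1 : ∀ P ∈ Pt, 1 ≤ m1 P := fun P hP => by
    obtain ⟨Q, hQ⟩ := e1 P hP
    have h := (hB E ρ hρ _ (mem_Ch.2 ((hXY P Q).2 ⟨hP, hQ⟩)) _ hl).2.2.2.1
    have h' := p1 P hP
    rw [nl P hP Q hQ, one_le_div (by linarith)] at h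
    linarith
  have q2 : ∀ Q ∈ Ln, 1 ≤ m2 Q := fun Q hQ => by
    obtain ⟨P, hP⟩ := e2 Q hQ
    have hQ' := mem_filter.2 ⟨hQ, (mem_filter.1 hP).2⟩
    have h := (hB E ρ hρ _ (mem_Ch.2 ((hXY P Q).2 ⟨(mem_filter.1 hP).1, hQ'⟩)) _ hk).2.2.2.1
    have h' := p2 Q hQ
    rw [nk P (mem_filter.1 hP).1 Q hQ', one_le_div (by linarith)] at h
    linarith
  have hP0 : σ (t, i) ∈ Pt := (mP _).2 ⟨c1, c2.2.2.1.trans c3.2.2.1⟩
  have hQ0 : σ (t, i + 1) ∈ Ln := (mL _).2 ⟨c1.2.2.1.trans c2.2.2.1, c3⟩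
  have ky : ∀ f g : Finset ℕ → ℝ, ∑ P ∈ Pt, ∑ Q ∈ Ln with Cov r E P Q,
      (m1 P / (Ln.filter (Cov r E P)).card * f P + m2 Q / (Pt.filter (Cov r E · Q)).card * g Q) =
      ∑ P ∈ Pt, m1 P * f P + ∑ Q ∈ Ln, m2 Q * g Q := fun f g => by
    rw [← H18.key p1 p2]
    simp only [div_mul_eq_mul_div]
  have hw : (sys E ρ).w2 σ (t, i) (t, i + 1) =
      (∑ P ∈ Pt, m1 P) • H18.rv σ t K + (∑ Q ∈ Ln, m2 Q) • H18.rv σ t T := by
    rw [Sys.w2, H18.sum_Nb2 hne _ _ hXY,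
      sum_congr rfl fun P hP => sum_congr rfl fun Q hQ => by
        rw [nk P hP Q hQ, nl P hP Q hQ, H18.u_eq (k := (t, i)) (a5 P Q),
          H18.u_eq (k := (t, i + 1)) (a5 P Q), H18.up2_k hne, H18.up2_l]]
    funext x
    simp only [Finset.sum_apply, Pi.add_apply, Pi.smul_apply, smul_eq_mul]
    have h := hid fun P => H18.rv σ t P x - H18.rv σ t K x
    rw [H18.rv_cov hr hK hT hKT Pt mP, sum_congr (s₁ := Ln) rfl fun Q hQ => by
      rw [H18.rv_cov hr hK ((mL Q).1 hQ).2.1 ((mL Q).1 hQ).1 _ (mPQ Q hQ)]] at h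
    simp only [mul_sub, sum_sub_distrib, ← sum_mul] at h
    rw [ky (fun P => H18.rv σ t P x) fun P => H18.rv σ t P x]
    linarith
  refine ⟨fun u s hu hs h0 => ?_, ?_, ?_, ?_, ?_⟩
  · obtain ⟨U, hU⟩ := H18.exists_fun (fun P Q => IsCone E ρ (H18.up2 σ (t, i) (t, i + 1) P Q))
      (fun P Q => u (H18.up2 σ (t, i) (t, i + 1) P Q)) fun P Q Q' a b =>
        hu _ (H18.up2_mem a) _ (H18.up2_Nb_l P Q b)
    obtain ⟨S, hS⟩ := H18.exists_fun (fun Q P => IsCone E ρ (H18.up2 σ (t, i) (t, i + 1) P Q))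
      (fun Q P => s (H18.up2 σ (t, i) (t, i + 1) P Q)) fun Q P P' a b =>
        hs _ (H18.up2_mem a) _ (H18.up2_Nb_k P Q b)
    rw [H18.sum_Nb2 hne _ _ hXY, sum_congr rfl fun P hP => sum_congr rfl fun Q hQ => by
        rw [nk P hP Q hQ, nl P hP Q hQ, hU P Q ((hXY P Q).2 ⟨hP, hQ⟩),
          hS Q P ((hXY P Q).2 ⟨hP, hQ⟩)], ky] at h0
    have h := H18.hodge h3 hid (fun Q hQ => zero_le_one.trans (q2 Q hQ))
      (sum_pos (fun Q hQ => one_pos.trans_le (q2 Q hQ)) ⟨_, hQ0⟩) U S h0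
    rw [H18.sum_Nb2 hne _ _ hXY, sum_congr rfl fun P hP => sum_congr rfl fun Q hQ =>
      show _ = 2 * (U P * S Q) + ((1 - ((Ln.filter (Cov r E P)).card : ℝ)) * U P ^ 2 /
          (Ln.filter (Cov r E P)).card + -S Q ^ 2 / (Pt.filter (Cov r E · Q)).card) by
        have c := (hXY P Q).2 ⟨hP, hQ⟩
        rw [hU P Q c, hS Q P c, (hB E ρ hρ _ (mem_Ch.2 c) _ hl).2.1 _ hk,
          (hB E ρ hρ _ (mem_Ch.2 c) _ hk).2.1 _ hl, if_neg n3.symm, if_pos (by rfl), if_pos rfl,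
          H18.card_Nb c hk, H18.card_Nb c hl, mk P Q (mem_filter.1 hQ).1, ml P hP Q]
        ring, sum_congr rfl fun P _ => sum_add_distrib, sum_add_distrib, H18.key p1 p2]
    simp only [← mul_sum, sum_neg_distrib] at h ⊢
    linarith
  · rw [hw]
    exact add_mem (Submodule.smul_mem _ _ rK.1) (Submodule.smul_mem _ _ rT.1)
  · rw [hw, map_add, map_smul, map_smul, rK.2.1 _ hk, rT.2.1 _ hk, if_neg n1.symm, if_neg n3.symm]
    simp
  · rw [hw, map_add, map_smul, map_smul, rK.2.1 _ hl, rT.2.1 _ hl, if_neg n2.symm, if_neg n4.symm]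
    simp
  · rw [hw, map_add, map_smul, map_smul, rK.2.2, rT.2.2, H18.sum_Nb2 hne _ _ hXY,
      sum_congr rfl fun P hP => sum_congr rfl fun Q hQ => by
        have c := (hXY P Q).2 ⟨hP, hQ⟩
        rw [nk P hP Q hQ, nl P hP Q hQ, H18.bt_u c hk (a5 P Q), H18.bt_u c hl (a5 P Q),
          H18.up2_k hne, H18.up2_l], ky]
    have h := hid a
    rw [s0, sum_congr (s₁ := Ln) rfl fun Q hQ => by rw [s1 Q hQ]] at h
    have g : ∀ F, H18.gv E σ t F = H18.gv E σ t K +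
        ((E.card : ℝ) + (σ (t, 0)).card - 2 * K.card - a T) * a F + a F * (a T - a F) := fun F => by
      simp only [H18.gv, ha]
      ring
    generalize (E.card : ℝ) + (σ (t, 0)).card - 2 * K.card - a T = c at g
    have g1 : ∀ (X : Finset (Finset ℕ)) (m : Finset ℕ → ℝ), ∑ F ∈ X, m F * H18.gv E σ t F =
        (∑ F ∈ X, m F) * H18.gv E σ t K + c * ∑ F ∈ X, m F * a F +
          ∑ F ∈ X, m F * (a F * (a T - a F)) := fun X m => by
      rw [sum_mul, mul_sum, ← sum_add_distrib, ← sum_add_distrib]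
      exact sum_congr rfl fun F _ => by rw [g F]; ring
    have g2 : ∀ F, K ⊆ F → F ⊆ T → 0 ≤ a F * (a T - a F) := fun F b1 b2 => by
      have d1 : (K.card : ℝ) ≤ F.card := by exact_mod_cast card_le_card b1
      have d2 : (F.card : ℝ) ≤ T.card := by exact_mod_cast card_le_card b2
      simp only [ha]
      exact mul_nonneg (by linarith) (by linarith)
    have g3 : 0 ≤ ∑ Q ∈ Ln, m2 Q * (a Q * (a T - a Q)) := sum_nonneg fun Q hQ =>
      mul_nonneg (zero_le_one.trans (q2 Q hQ)) (g2 Q ((mL Q).1 hQ).1 ((mL Q).1 hQ).2.2.2.1)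
    have g4 : 1 ≤ ∑ P ∈ Pt, m1 P * (a P * (a T - a P)) := by
      refine le_trans ?_ (single_le_sum (fun P hP => mul_nonneg (zero_le_one.trans (q1 P hP))
        (g2 P ((mP P).1 hP).1.2.2.1 ((mP P).1 hP).2)) hP0)
      have d1 : (K.card : ℝ) + 1 ≤ (σ (t, i)).card := by exact_mod_cast c1.card_lt
      have d2 : ((σ (t, i)).card : ℝ) + 1 ≤ T.card := by
        exact_mod_cast c2.card_lt.trans c3.card_lt
      refine one_le_mul_of_one_le_of_one_le (q1 _ hP0) (one_le_mul_of_one_le_of_one_le ?_ ?_) <;>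
        simp only [ha] <;> linarith
    dsimp only
    rw [g1, g1, g T, smul_eq_mul, smul_eq_mul]
    have h' := congrArg (c * ·) h
    nlinarith [g3, g4, h']

end Pool.Agent.Lib.US
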