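import Pool.Agent.Lib.US.Mod60

/-! The model satisfies the axioms. -/

namespace Pool.Agent.Lib.US

open Finset

theorem Cod2.symm {S : Sys (ℕ × ℕ) (Finset ℕ) (ℕ × ℕ → ℝ)} {σ : ℕ × ℕ → Finset ℕ} {k l : ℕ × ℕ}
    (h : Cod2 S σ k l) : Cod2 S σ l k := by
  have e : S.Nb2 l k σ = S.Nb2 k l σ := Sys.Nb2_comm
  have e2 : S.w2 σ l k = S.w2 σ k l := by
    rw [Sys.w2, Sys.w2, e]
    exact sum_congr rfl fun τ _ => add_comm _ _
  obtain ⟨h1, h2, h3, h4, h5⟩ := h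
  unfold Cod2
  rw [e, e2]
  refine ⟨fun t s a1 a2 a3 => ?_, h2, h4, h3, ?_⟩
  · have := h1 s t a2 a1 (by rw [← a3]; exact sum_congr rfl fun τ _ => add_comm _ _)
    refine le_of_eq_of_le (sum_congr rfl fun τ _ => ?_) this
    ring
  · refine h5.trans_eq ?_
    rw [sum_congr rfl fun τ _ => add_comm _ _]

theorem ax (h1 : St_AX1) (h2 : St_TU) (h3 : St_BAL) (h4 : St_FAR) (h5 : St_ADJ) : St_AX := by
  intro E ρ hρ
  obtain ⟨a1, a2, a3, a4, a5, a6, a7, -⟩ := h1 E ρ hρ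
  have b := h3 E ρ hρ
  have c : ∀ σ ∈ (sys E ρ).Ch, ∀ k ∈ (sys E ρ).Kw, ∀ l ∈ (sys E ρ).Kw, k ≠ l →
      Cod2 (sys E ρ) σ k l := by
    intro σ hσ k hk l hl hne
    by_cases c1 : l = (k.1, k.2 + 1)
    · subst c1
      exact h5 E ρ hρ σ hσ k hk hl
    · by_cases c2 : k = (l.1, l.2 + 1)
      · subst c2
        exact (h5 E ρ hρ σ hσ l hl hk).symm
      · exact h4 E ρ hρ σ hσ k hk l hl hne c1 c2
  refine ⟨a1, a2, fun k hk σ hσ τ hτ v hv h0 => a3 k hk k hk σ hσ τ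
      (Sys.Nb_sub_Nb2 (Sys.self_Nb2 hσ) hτ) v hv h0 h0, a3, a4, fun σ hσ k hk => ⟨(b σ hσ k hk).1, ?_⟩,
    fun σ T hT c hc d _ => (h2 E ρ hρ σ T hT c hc).2.1 d, a5, fun σ hσ k hk => (b σ hσ k hk).2.2.2.1,
    fun σ hσ k hk => (b σ hσ k hk).2.2.2.2, fun σ T hT c hc => (h2 E ρ hρ σ T hT c hc).2.2, ?_, a6,
    a7, fun σ hσ k hk l hl hne => (c σ hσ k hk l hl hne).1,
    fun σ hσ k hk l hl hne => (c σ hσ k hk l hl hne).2⟩
  · rw [(b σ hσ k hk).2.1 k hk]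
    obtain ⟨j, -, i, i1, -, rfl⟩ := mem_walls.1 hk
    rw [if_neg fun h => by have := (Prod.mk.inj h).2; omega,
      if_neg fun h => by have := (Prod.mk.inj h).2; omega]
  · have h0 : (0 : ℝ) ≤ E.card := Nat.cast_nonneg _
    change (1 : ℝ) ≤ (2 * (E.card : ℝ) + 2) ^ 3
    exact one_le_pow₀ (by linarith)

end Pool.Agent.Lib.US
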