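import Pool.Agent.Lib.US.Mod60

/-! The axioms about one wall, pointedness, sizes and the lineality space. -/

namespace Pool.Agent.Lib.US

open Finset Pool.Agent.Lib.FL
open Pool.Agent.Lib.FL.H64 (IsRk cl Flat Cov)

variable {E : Finset ℕ} {ρ : Finset ℕ → ℕ} {σ τ : ℕ × ℕ → Finset ℕ}

theorem nb_wall (h : IsCone E ρ σ) (h' : IsCone E ρ τ) {v : ℕ × ℕ → ℝ} (hv : v ∈ span E σ)
    (hz : ∀ k, τ k ≠ σ k → cov σ k v = 0) : v ∈ span E τ ∧
      (∀ l ∈ walls E ρ, cov τ l v = cov σ l v) ∧ (sys E ρ).bt τ v = (sys E ρ).bt σ v := by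
  have h2 : ∀ l ∈ walls E ρ, cov τ l v = cov σ l v := by
    intro l hl
    obtain ⟨j, hj, i, a1, a2, rfl⟩ := mem_walls.1 hl
    have b1 := rep_spec h' hj (i := i + 1) (by omega) a2
    have b2 := rep_spec h' hj a1 a2.le
    rw [cov_wall hj, cov_wall hj, span_rep_nb h h' hj hv hz (by omega) b1.1 b1.2,
      span_rep_nb h h' hj hv hz a1 b2.1 b2.2]
  refine ⟨mem_span.2 ⟨fun j hj i e he f hf => ?_, fun j hj e he => ?_, hv.2.2.1, hv.2.2.2⟩, h2, ?_⟩
  · rw [span_rep_nb h h' hj hv hz (i := i + 1) (by omega) (mem_sdiff.1 he).1 (mem_sdiff.1 he).2,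
      span_rep_nb h h' hj hv hz (i := i + 1) (by omega) (mem_sdiff.1 hf).1 (mem_sdiff.1 hf).2]
  · rw [h.bot_eq h' hj] at he
    exact hv.2.1 j hj e he
  · rw [bt_apply, bt_apply]
    refine sum_congr rfl fun k hk => ?_
    rw [h2 k hk]
    by_cases e : τ k = σ k
    · obtain ⟨j, hj, i, -, -, rfl⟩ := mem_walls.1 hk
      have : τ (3 + j, 0) = σ (3 + j, 0) := h.bot_eq h' hj
      simp only [gf, e, this]
    · rw [hz k e, mul_zero, mul_zero]

theorem rs_le (hρ : IsRk ρ) (j : ℕ) : rs E ρ j E ≤ E.card := (isRk_rs hρ j).le_card E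

theorem card_walls (hρ : IsRk ρ) : (walls E ρ).card ≤ 2 * E.card := by
  have h0 := rs_le (E := E) hρ 0
  have h1 := rs_le (E := E) hρ 1
  refine (card_union_le _ _).trans ?_
  simp only [card_product, card_singleton, Nat.card_Ico]
  omega

theorem card_cons : (cons E ρ).card ≤ 3 * E.card := by
  have h0 : (E \ cl (rs E ρ 0) E ∅).card ≤ E.card := card_le_card sdiff_subset
  have h1 : (E \ cl (rs E ρ 1) E ∅).card ≤ E.card := card_le_card sdiff_subset
  refine (card_union_le _ _).trans ((Nat.add_le_add_right (card_union_le _ _) _).trans ?_)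
  simp only [card_product, card_singleton]
  omega

theorem rep_mem_insert (h : IsCone E ρ σ) (j i : ℕ) : rep σ j i ∈ insert 0 E := by
  rcases Set.eq_empty_or_nonempty {e | e ∈ ch σ j i ∧ e ∉ ch σ j (i - 1)} with e | e
  · rw [rep, e, Nat.sInf_empty]
    exact mem_insert_self _ _
  · exact mem_insert_of_mem (h.sub _ (Nat.sInf_mem e).1)

theorem cone_ext (hρ : IsRk ρ) (h : IsCone E ρ σ) (h' : IsCone E ρ τ)
    (hr : ∀ j < 2, ∀ i, ch τ j i ≠ ch σ j i → rep τ j i = rep σ j i) : τ = σ := by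
  have key : ∀ j < 2, ∀ i, ch τ j i = ch σ j i := by
    intro j hj i
    induction i with
    | zero => exact h.bot_eq h' hj
    | succ i ih =>
      by_contra hn
      rcases lt_or_ge i (rs E ρ j E) with hi | hi
      · have a1 := rep_spec h hj (i := i + 1) (by omega) hi
        have a2 := rep_spec h' hj (i := i + 1) (by omega) hi
        have b1 := (isRk_rs hρ j).cov_eq ((h.chain j hj).cov i hi) a1.1 a1.2
        have b2 := (isRk_rs hρ j).cov_eq ((h'.chain j hj).cov i hi) a2.1 a2.2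
        rw [hr j hj _ hn, ih, b1] at b2
        exact hn b2.symm
      · exact hn (((h'.chain j hj).top _ (by omega)).trans ((h.chain j hj).top _ (by omega)).symm)
  funext ⟨t, p⟩
  by_cases ht : t = 3 ∨ t = 4
  · obtain ⟨j, hj, rfl⟩ : ∃ j < 2, t = 3 + j := ⟨t - 3, by omega, by omega⟩
    exact key j hj p
  · rw [h.junk t p (by omega) (by omega), h'.junk t p (by omega) (by omega)]

theorem card_Nb2 (hρ : IsRk ρ) (σ : ℕ × ℕ → Finset ℕ) (k l : ℕ × ℕ) :
    ((sys E ρ).Nb2 k l σ).card ≤ (E.card + 1) * (E.card + 1) := by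
  have h1 : ((sys E ρ).Nb2 k l σ).card ≤ (insert 0 E ×ˢ insert 0 E).card := by
    refine card_le_card_of_injOn (fun τ => (rep τ (k.1 - 3) k.2, rep τ (l.1 - 3) l.2))
      (fun τ hτ => ?_) fun τ hτ τ' hτ' e => ?_
    · have := mem_Ch.1 (Sys.mem_Nb2.1 (mem_coe.1 hτ)).1
      exact mem_coe.2 (mem_product.2 ⟨rep_mem_insert this _ _, rep_mem_insert this _ _⟩)
    · obtain ⟨a1, a2⟩ := Sys.mem_Nb2.1 (mem_coe.1 hτ)
      obtain ⟨b1, b2⟩ := Sys.mem_Nb2.1 (mem_coe.1 hτ')
      obtain ⟨e1, e2⟩ := Prod.mk.inj e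
      refine cone_ext hρ (mem_Ch.1 b1) (mem_Ch.1 a1) fun j _ i hn => ?_
      by_cases c1 : (3 + j, i) = k
      · subst c1
        simpa using e1
      · by_cases c2 : (3 + j, i) = l
        · subst c2
          simpa using e2
        · exact absurd ((a2 _ c1 c2).trans (b2 _ c1 c2).symm) hn
  rw [card_product] at h1
  exact h1.trans (Nat.mul_le_mul (card_insert_le _ _) (card_insert_le _ _))

theorem ax1 : St_AX1 := by
  intro E ρ hρ S
  refine ⟨?_, ?_, ?_, ?_, ?_, ?_, ?_, ?_⟩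
  · refine disjoint_left.2 fun k hk hc => ?_
    obtain ⟨j, hj, i, -, -, rfl⟩ := mem_walls.1 hk
    have := (mem_cons.1 hc).2
    simp only at this
    omega
  · intro σ τ c hc
    have := (mem_cons.1 hc).2
    have e : ends σ c = ends τ c := by
      rcases this with h | ⟨h, -⟩ | ⟨h, -⟩ <;> simp [ends, h]
    simp only [S, sys, cov, e]
  · intro k _ l _ σ hσ τ hτ v hv h1 h2
    obtain ⟨a1, a2⟩ := Sys.mem_Nb2.1 hτ
    refine nb_wall (mem_Ch.1 hσ) (mem_Ch.1 a1) hv fun x hx => ?_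
    by_cases c1 : x = k
    · rw [c1]
      exact h1
    · by_cases c2 : x = l
      · rw [c2]
        exact h2
      · exact absurd (a2 x c1 c2) hx
  · intro σ hσ k hk
    obtain ⟨j, hj, i, -, -, rfl⟩ := mem_walls.1 hk
    have e : S.u σ (3 + j, i) = ind σ j (ch σ j i) := ray_eq hj
    rw [e]
    exact ⟨ind_mem (mem_Ch.1 hσ) hj i, fun l hl => cov_ind (mem_Ch.1 hσ) hj i hl⟩
  · intro σ hσ v hv h0
    have hc := mem_Ch.1 hσ
    have h5 : v (5, 0) = 0 := hv.2.2.2 5 0 (by omega)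
    have h2 : ∀ e, v (2, e) = 0 := fun e => by
      by_cases he : e ∈ E
      · have : cov σ (0, e) v = 0 := h0 (0, e) (mem_cons.2 ⟨he, Or.inl rfl⟩)
        simpa [cov_apply, ends, h5] using this
      · exact hv.2.2.1 e he
    funext ⟨t, e⟩
    rcases lt_trichotomy t 2 with ht | rfl | ht
    · by_cases he : e ∈ E \ ch σ t 0
      · rw [(hc.chain t ht).bot] at he
        obtain ⟨e1, e2⟩ := mem_sdiff.1 he
        interval_cases t
        · have : cov σ (1, e) v = 0 := h0 (1, e) (mem_cons.2 ⟨e1, Or.inr (Or.inl ⟨rfl, e2⟩)⟩)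
          simpa [cov_apply, ends, h2] using this
        · have : cov σ (2, e) v = 0 := h0 (2, e) (mem_cons.2 ⟨e1, Or.inr (Or.inr ⟨rfl, e2⟩)⟩)
          simpa [cov_apply, ends, h2] using this
      · exact hv.2.1 t ht e he
    · exact h2 e
    · exact hv.2.2.2 t e ht
  · have h1 : S.Cn.card ≤ 5 * E.card := by
      have a1 := card_walls (E := E) hρ
      have a2 := card_cons (E := E) (ρ := ρ)
      have a3 : S.Cn.card ≤ (walls E ρ).card + (cons E ρ).card := card_union_le _ _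
      omega
    have h2 : (S.Cn.card : ℝ) ≤ 5 * E.card := by exact_mod_cast h1
    have h3 : (0 : ℝ) ≤ E.card := Nat.cast_nonneg _
    refine h2.trans ?_
    change _ ≤ (2 * (E.card : ℝ) + 2) ^ 3
    nlinarith [mul_nonneg h3 h3, mul_nonneg h3 (mul_nonneg h3 h3)]
  · intro σ _ k l
    have h2 : ((S.Nb2 k l σ).card : ℝ) ≤ (E.card + 1) * (E.card + 1) := by
      exact_mod_cast card_Nb2 hρ σ k l
    have h3 : (0 : ℝ) ≤ E.card := Nat.cast_nonneg _
    refine h2.trans ?_
    change _ ≤ (2 * (E.card : ℝ) + 2) ^ 3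
    nlinarith [mul_nonneg h3 h3, mul_nonneg h3 (mul_nonneg h3 h3)]
  · intro A0 A1 A2 p0 p1 p2
    refine ⟨fun c _ => by unfold cst; split_ifs <;> assumption,
      fun x => if x.2 ∈ E then (if x.1 = 2 then -A0 else if x.1 = 0 ∧ x.2 ∉ cl (rs E ρ 0) E ∅ then
        -A0 - A1 else if x.1 = 1 ∧ x.2 ∉ cl (rs E ρ 1) E ∅ then A2 - A0 else 0) else 0,
      fun σ hσ => ?_⟩
    have hc := mem_Ch.1 hσ
    have hl : ∀ j < 2, ∀ i e, e ∈ ch σ j (i + 1) → e ∉ ch σ j i →
        e ∈ E ∧ e ∉ cl (rs E ρ j) E ∅ := fun j hj i e h1 h2 =>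
      ⟨(hc.chain j hj).sub _ h1, fun h3 => h2 ((hc.chain j hj).mono (Nat.zero_le i)
        (by rw [(hc.chain j hj).bot]; exact h3))⟩
    refine ⟨mem_span.2 ⟨fun j hj i e he f hf => ?_, fun j hj e he => ?_, fun e he => if_neg he,
      fun t e ht => ?_⟩, fun k hk => ?_, fun c hc' => ?_⟩
    · have a1 := hl j hj i e (mem_sdiff.1 he).1 (mem_sdiff.1 he).2
      have a2 := hl j hj i f (mem_sdiff.1 hf).1 (mem_sdiff.1 hf).2
      interval_cases j <;> simp [a1.1, a1.2, a2.1, a2.2]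
    · rw [(hc.chain j hj).bot, mem_sdiff, not_and, not_not] at he
      by_cases h1 : e ∈ E
      · have := he h1
        interval_cases j <;> simp [this]
      · exact if_neg h1
    · have a1 : t ≠ 2 := by omega
      have a2 : t ≠ 0 := by omega
      have a3 : t ≠ 1 := by omega
      simp [a1, a2, a3]
    · obtain ⟨j, hj, i, a1, a2, rfl⟩ := mem_walls.1 hk
      have b1 := rep_spec hc hj (i := i + 1) (by omega) a2
      have b2 := rep_spec hc hj a1 a2.le
      have c1 := hl j hj i _ b1.1 b1.2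
      have c2 := hl j hj (i - 1) _ (by rw [show i - 1 + 1 = i by omega]; exact b2.1) b2.2
      change cov σ (3 + j, i) _ = 0
      rw [cov_wall hj]
      interval_cases j <;> simp [c1.1, c1.2, c2.1, c2.2]
    · obtain ⟨t, e⟩ := c
      obtain ⟨a1, a2⟩ := mem_cons.1 hc'
      change _ = 0 + cov σ (t, e) _
      rw [cov_apply]
      simp only at a1 a2
      rcases a2 with rfl | ⟨rfl, a2⟩ | ⟨rfl, a2⟩ <;> simp [cst, ends, a1, *]

end Pool.Agent.Lib.US
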