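import Pool.Agent.Lib.US.B_AX1

/-! Balancing at a wall. -/

namespace Pool.Agent.Lib.US

open Finset Pool.Agent.Lib.FL
open Pool.Agent.Lib.FL.H64 (IsRk cl Flat Cov)

variable {E : Finset ℕ} {ρ : Finset ℕ → ℕ} {σ : ℕ × ℕ → Finset ℕ} {j i : ℕ}

theorem cov_lo (h : IsCone E ρ σ) (hj : j < 2) (h1 : 1 ≤ i) (h2 : i < rs E ρ j E) :
    Cov (rs E ρ j) E (ch σ j (i - 1)) (ch σ j i) := by
  have := (h.chain j hj).cov (i - 1) (by omega)
  rwa [show i - 1 + 1 = i by omega] at this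

/-- the middle flats partition the difference of the neighbours -/
theorem mid_count (hρ : IsRk ρ) (h : IsCone E ρ σ) (hj : j < 2) (h1 : 1 ≤ i)
    (h2 : i < rs E ρ j E) (e : ℕ) :
    (((mid E ρ σ j i).filter fun P => e ∈ P).card : ℝ) =
      (if e ∈ ch σ j (i + 1) then 1 else 0) +
        (((mid E ρ σ j i).card : ℝ) - 1) * if e ∈ ch σ j (i - 1) then 1 else 0 := by
  have hc := h.chain j hj
  have hr := isRk_rs (E := E) hρ j
  by_cases a1 : e ∈ ch σ j (i - 1)
  · rw [if_pos a1, if_pos (hc.mono (by omega) a1),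
      filter_true_of_mem fun P hP => (mem_mid.1 hP).1.2.2.1 a1]
    ring
  · by_cases a2 : e ∈ ch σ j (i + 1)
    · have b1 := hr.cov_cl (hc.flat (i - 1)) (hc.sub _ a2) a1
      have : ((mid E ρ σ j i).filter fun P => e ∈ P) =
          {cl (rs E ρ j) E (insert e (ch σ j (i - 1)))} := by
        ext P
        rw [mem_filter, mem_singleton, mem_mid]
        constructor
        · rintro ⟨⟨c1, -⟩, c2⟩
          exact (hr.cov_eq c1 c2 a1).symm
        · rintro rfl
          refine ⟨⟨b1, b1.2.1, hc.flat _, hr.cl_min (hc.flat _)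
            (insert_subset a2 (hc.mono (by omega))), ?_⟩,
            H64.subset_cl (insert_subset (hc.sub _ a2) (hc.sub _)) (mem_insert_self _ _)⟩
          rw [b1.2.2.2, (hc.cov i h2).2.2.2, (cov_lo h hj h1 h2).2.2.2]
      rw [this, if_pos a2, if_neg a1]
      simp
    · rw [if_neg a1, if_neg a2,
        filter_false_of_mem fun P hP he => a2 ((mem_mid.1 hP).2.2.2.1 he)]
      simp

theorem ray_update (hj : j < 2) (h1 : 1 ≤ i) (P : Finset ℕ) :
    ray (Function.update σ (3 + j, i) P) (3 + j, i) = ind σ j P := by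
  rw [ray_eq hj]
  funext x
  have a1 : ch (Function.update σ (3 + j, i) P) j i = P := Function.update_self _ _ _
  have a2 : ch (Function.update σ (3 + j, i) P) j 0 = ch σ j 0 :=
    Function.update_of_ne (fun h => by have := (Prod.mk.inj h).2; omega) _ _
  simp only [ind, a1, a2]

/-- the sum of the rays at a wall -/
theorem w_eq (hρ : IsRk ρ) (h : IsCone E ρ σ) (hj : j < 2) (h1 : 1 ≤ i) (h2 : i < rs E ρ j E) :
    (sys E ρ).w σ (3 + j, i) = ind σ j (ch σ j (i + 1)) +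
      (((mid E ρ σ j i).card : ℝ) - 1) • ind σ j (ch σ j (i - 1)) := by
  have a1 : (sys E ρ).w σ (3 + j, i) = ∑ P ∈ mid E ρ σ j i, ind σ j P := by
    rw [Sys.w, sum_Nb h hj h1 h2]
    exact sum_congr rfl fun P _ => ray_update hj h1 P
  rw [a1]
  funext x
  have a2 := mid_count hρ h hj h1 h2 x.2
  rw [Finset.sum_apply, Pi.add_apply, Pi.smul_apply, smul_eq_mul]
  by_cases c : x.1 = j ∧ x.2 ∉ ch σ j 0
  · simp only [ind, c.1, c.2, true_and, not_false_eq_true, and_true]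
    rw [← sum_filter, sum_const, nsmul_eq_mul, a2]
    split_ifs <;> ring
  · have : ∀ F : Finset ℕ, ind σ j F x = 0 := fun F => if_neg fun h3 => c ⟨h3.1, h3.2.2⟩
    simp [this]

theorem mm_eq (hρ : IsRk ρ) (h : IsCone E ρ σ) (hj : j < 2) (h1 : 1 ≤ i) (h2 : i < rs E ρ j E) :
    (sys E ρ).mm σ (3 + j, i) = (((ch σ j (i + 1)).card : ℝ) - (ch σ j (i - 1)).card) ^ 2 -
      ∑ P ∈ mid E ρ σ j i, ((P.card : ℝ) - (ch σ j (i - 1)).card) ^ 2 := by
  have a1 : ∀ P ∈ mid E ρ σ j i, (sys E ρ).bt (Function.update σ (3 + j, i) P)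
      ((sys E ρ).u (Function.update σ (3 + j, i) P) (3 + j, i)) =
      ((P.card : ℝ) - (ch σ j 0).card) * ((E.card : ℝ) - P.card) := by
    intro P hP
    have b1 : (sys E ρ).u (Function.update σ (3 + j, i) P) (3 + j, i) = _ := ray_eq hj
    have b2 : Function.update σ (3 + j, i) P (3 + j, 0) = ch σ j 0 :=
      Function.update_of_ne (fun h => by have := (Prod.mk.inj h).2; omega) _ _
    rw [b1, bt_ind (h.update hj h1 h2 hP) hj, gf, Function.update_self, b2]
  have a2 := (isRk_rs (E := E) hρ j).sum_mid (cov_lo h hj h1 h2) ((h.chain j hj).cov i h2)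
    (mid E ρ σ j i) fun P => mem_mid
  rw [Sys.mm, sum_Nb h hj h1 h2, sum_congr rfl a1, w_eq hρ h hj h1 h2, map_add, map_smul,
    bt_ind h hj, bt_ind h hj, smul_eq_mul]
  change _ - ((((ch σ j (i + 1)).card : ℝ) - (ch σ j 0).card) * (E.card - (ch σ j (i + 1)).card) +
    _ * ((((ch σ j (i - 1)).card : ℝ) - (ch σ j 0).card) * (E.card - (ch σ j (i - 1)).card))) = _
  generalize ((ch σ j (i + 1)).card : ℝ) = Q at a2 ⊢
  generalize ((ch σ j (i - 1)).card : ℝ) = K at a2 ⊢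
  generalize ((ch σ j 0).card : ℝ) = c
  generalize (E.card : ℝ) = m
  have a3 : ∑ P ∈ mid E ρ σ j i, ((P.card : ℝ) - c) * (m - P.card) =
      ∑ P ∈ mid E ρ σ j i, ((K - c) * (m - K) + (m + c - 2 * K) * (P.card - K) -
        ((P.card : ℝ) - K) ^ 2) := sum_congr rfl fun P _ => by ring
  rw [a3, sum_sub_distrib, sum_add_distrib, sum_const, nsmul_eq_mul, ← mul_sum, a2]
  ring

theorem bal : St_BAL := by
  intro E ρ hρ S σ hσ k hk
  obtain ⟨j, hj, i, h1, h2, rfl⟩ := mem_walls.1 hk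
  have h := mem_Ch.1 hσ
  have hw : S.w σ (3 + j, i) = _ := w_eq hρ h hj h1 h2
  have hm : S.mm σ (3 + j, i) = _ := mm_eq hρ h hj h1 h2
  have hN : (S.Nb (3 + j, i) σ).card = _ := card_Nb h hj h1 h2
  have hN1 : (1 : ℝ) ≤ (mid E ρ σ j i).card := by
    rw [← hN]
    exact_mod_cast card_pos.2 ⟨σ, Sys.self_Nb hσ⟩
  have a2 := (isRk_rs (E := E) hρ j).sum_mid (cov_lo h hj h1 h2) ((h.chain j hj).cov i h2)
    (mid E ρ σ j i) fun P => mem_mid
  refine ⟨?_, fun l hl => ?_, ?_, ?_, ?_⟩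
  · rw [hw]
    exact Submodule.add_mem _ (ind_mem h hj _) (Submodule.smul_mem _ _ (ind_mem h hj _))
  · rw [hw, hN]
    change cov σ l _ = _
    rw [map_add, map_smul, cov_ind h hj _ hl, cov_ind h hj _ hl, smul_eq_mul]
    by_cases c1 : l = (3 + j, i + 1)
    · have c2 : l ≠ (3 + j, i - 1) := fun c2 => by
        have := (Prod.mk.inj (c1.symm.trans c2)).2
        omega
      rw [if_pos c1, if_neg c2, if_pos c1]
      ring
    · rw [if_neg c1, if_neg c1]
      split_ifs <;> ring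
  · rw [hm, sum_Nb h hj h1 h2]
    simp only [Function.update_self]
    rfl
  · rw [Sys.nu, hm, hN, le_div_iff₀ (by linarith), one_mul, sq]
    nth_rewrite 1 [← a2]
    rw [sum_mul, ← sum_sub_distrib, card_eq_sum_ones, Nat.cast_sum]
    refine sum_le_sum fun P hP => ?_
    have b1 : ((ch σ j (i - 1)).card : ℝ) + 1 ≤ P.card := by
      exact_mod_cast (mem_mid.1 hP).1.card_lt
    have b2 : (P.card : ℝ) + 1 ≤ (ch σ j (i + 1)).card := by
      exact_mod_cast (mem_mid.1 hP).2.card_lt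
    push_cast
    nlinarith
  · rw [Sys.nu, hm, hN, div_le_iff₀ (by linarith)]
    have b1 : ((ch σ j (i + 1)).card : ℝ) ≤ E.card := by
      exact_mod_cast card_le_card ((h.chain j hj).sub _)
    have b2 : ((ch σ j (i - 1)).card : ℝ) ≤ (ch σ j (i + 1)).card := by
      exact_mod_cast card_le_card ((h.chain j hj).mono (by omega))
    have b3 : (0 : ℝ) ≤ (ch σ j (i - 1)).card := Nat.cast_nonneg _
    have b4 : 0 ≤ ∑ P ∈ mid E ρ σ j i, ((P.card : ℝ) - (ch σ j (i - 1)).card) ^ 2 :=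
      sum_nonneg fun _ _ => sq_nonneg _
    have b5 : (0 : ℝ) ≤ E.card := Nat.cast_nonneg _
    have b6 : (((ch σ j (i + 1)).card : ℝ) - (ch σ j (i - 1)).card) ^ 2 ≤ (E.card : ℝ) ^ 2 :=
      pow_le_pow_left₀ (by linarith) (by linarith) 2
    have b7 : (E.card : ℝ) ^ 2 ≤ (2 * (E.card : ℝ) + 2) ^ 3 := by
      nlinarith [mul_nonneg b5 b5, mul_nonneg b5 (mul_nonneg b5 b5)]
    have b8 : (2 * (E.card : ℝ) + 2) ^ 3 * 1 ≤
        (2 * (E.card : ℝ) + 2) ^ 3 * (mid E ρ σ j i).card :=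
      mul_le_mul_of_nonneg_left hN1 (by positivity)
    change _ ≤ (2 * (E.card : ℝ) + 2) ^ 3 * _
    linarith

end Pool.Agent.Lib.US
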