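import Pool.Agent.Lib.US.Model

/-! The networks of the model are connected. -/

namespace Pool.Agent.Lib.US

open Finset Pool.Agent.Lib.FL
open Pool.Agent.Lib.FL.H64 (IsRk cl Flat Cov)

namespace H68

theorem chain_bot {E : Finset ℕ} {ρ : Finset ℕ → ℕ} {C : ℕ → Finset ℕ} (h : Chain E ρ C) (i : ℕ) :
    C 0 ⊆ C i := by
  induction i with
  | zero => exact Subset.rfl
  | succ i ih =>
    rcases lt_or_ge i (ρ E) with hi | hi
    · exact ih.trans (h.cov i hi).2.2.1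
    · rw [h.top (i + 1) (by omega)]
      exact h.sub 0

/-- the test vector -/
def tv (E D : Finset ℕ) (e : ℕ) (x : ℕ × ℕ) : ℝ :=
  if x = (2, e) then -1 else if x.1 = 1 ∧ x.2 ∈ E \ D then -1 else 0

theorem tv_zero (E D : Finset ℕ) (e t f : ℕ) (h1 : t ≠ 1) (h2 : t ≠ 2) : tv E D e (t, f) = 0 := by
  simp [tv, h1, h2]

theorem tv_one (E D : Finset ℕ) (e f : ℕ) : tv E D e (1, f) = if f ∈ E \ D then -1 else 0 := by
  simp [tv]

theorem tv_two (E D : Finset ℕ) (e f : ℕ) : tv E D e (2, f) = if f = e then -1 else 0 := by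
  simp [tv]

theorem mem_cons {E : Finset ℕ} {ρ : Finset ℕ → ℕ} {c : ℕ × ℕ} (h : c ∈ cons E ρ) :
    (c.1 = 0 ∧ c.2 ∈ E) ∨ c.1 = 1 ∨ (c.1 = 2 ∧ c.2 ∈ E \ cl (rs E ρ 1) E ∅) := by
  unfold cons at h
  simp only [mem_union, mem_product, mem_singleton] at h
  tauto

theorem tv_mem {E : Finset ℕ} {ρ : Finset ℕ → ℕ} {σ : ℕ × ℕ → Finset ℕ} (hσ : IsCone E ρ σ)
    {e : ℕ} (he : e ∈ E) : tv E (cl (rs E ρ 1) E ∅) e ∈ span E σ := by
  have h1 := hσ.chain 1 one_lt_two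
  refine ⟨fun j hj i f hf g hg => ?_, fun j hj f hf => ?_, fun f hf => ?_, fun t f ht => ?_⟩
  · interval_cases j
    · rw [tv_zero _ _ _ _ _ (by omega) (by omega), tv_zero _ _ _ _ _ (by omega) (by omega)]
    · have h2 : ∀ f ∈ ch σ 1 (i + 1) \ ch σ 1 i, f ∈ E \ cl (rs E ρ 1) E ∅ := fun f hf =>
        mem_sdiff.2 ⟨h1.sub _ (mem_sdiff.1 hf).1, fun h' =>
          (mem_sdiff.1 hf).2 (chain_bot h1 i (h1.bot ▸ h'))⟩
      rw [tv_one, tv_one, if_pos (h2 f hf), if_pos (h2 g hg)]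
  · interval_cases j
    · exact tv_zero _ _ _ _ _ (by omega) (by omega)
    · rw [tv_one, if_neg (h1.bot ▸ hf)]
  · rw [tv_two, if_neg fun h' : f = e => hf (h' ▸ he)]
  · exact tv_zero _ _ _ _ _ (by omega) (by omega)

theorem cov_tv {E : Finset ℕ} {ρ : Finset ℕ → ℕ} (σ : ℕ × ℕ → Finset ℕ) (e : ℕ) {c : ℕ × ℕ}
    (hc : c ∈ cons E ρ) : (c ≠ (0, e) → cov σ c (tv E (cl (rs E ρ 1) E ∅) e) ≤ 0) ∧
      -1 ≤ cov σ c (tv E (cl (rs E ρ 1) E ∅) e) ∧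
      (c.1 = 0 → cov σ c (tv E (cl (rs E ρ 1) E ∅) e) = if c = (0, e) then 1 else 0) := by
  obtain ⟨t, f⟩ := c
  rw [cov_apply]
  rcases mem_cons hc with ⟨h, -⟩ | h | ⟨h, h'⟩ <;> simp only at h <;> subst h
  · have : ends σ (0, f) = ((5, 0), (2, f)) := by simp [ends]
    rw [this, tv_zero _ _ _ _ _ (by omega) (by omega), tv_two]
    by_cases h : f = e <;> simp [h]
  · have : ends σ (1, f) = ((2, f), (0, f)) := by simp [ends]
    rw [this, tv_zero _ _ _ 0 _ (by omega) (by omega), tv_two]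
    by_cases h : f = e <;> simp [h]
  · have : ends σ (2, f) = ((1, f), (2, f)) := by simp [ends]
    rw [this, tv_one, tv_two, if_pos h']
    by_cases h : f = e <;> simp [h]

end H68

theorem con (hAX : St_AX) (hGP : St_GP) (hCN : St_CONN) (hU : St_UNQ) : St_CON := by
  intro E ρ hρ θ hG
  have hA := hAX E ρ hρ
  have hH : ({0} ×ˢ E : Finset (ℕ × ℕ)) ⊆ (sys E ρ).Cc := fun c hc =>
    mem_union_left _ (mem_union_left _ hc)
  obtain ⟨p, hp, hp'⟩ := hGP _ _ _ (sys E ρ) hA _ hH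
  have key : ∀ v ∈ (sys E ρ).Tm θ, (∀ c ∈ v.2, 0 < (sys E ρ).ph p v.1 v.2 c) →
      ∀ e ∈ E, (0, e) ∈ v.2 := by
    rintro ⟨σ, T⟩ hv hph e he
    by_contra hn
    obtain ⟨h1, h2⟩ := Sys.mem_VJ.1 hv
    have hT : ∀ c ∈ T, c ∈ cons E ρ := fun c hc =>
      (Sys.mem_Cn.1 (h1.1.2.1 hc)).resolve_left fun h' =>
        notMem_empty c (card_eq_zero.1 h2 ▸ mem_inter.2 ⟨hc, h'⟩)
    obtain ⟨v, hv⟩ : ∃ v, v = H68.tv E (cl (rs E ρ 1) E ∅) e := ⟨_, rfl⟩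
    have h3 : v ∈ (sys E ρ).Vs σ := hv ▸ H68.tv_mem (mem_Ch.1 h1.1.1) he
    have h4 : ∀ c ∈ cons E ρ, (c ≠ (0, e) → (sys E ρ).L σ c v ≤ 0) ∧ -1 ≤ (sys E ρ).L σ c v ∧
        (c.1 = 0 → (sys E ρ).L σ c v = if c = (0, e) then 1 else 0) := fun c hc =>
      hv ▸ H68.cov_tv σ e hc
    have h5 : ∑ d ∈ (sys E ρ).Cc, p d * (sys E ρ).L σ d v =
        ∑ c ∈ T, (sys E ρ).L σ c v * (sys E ρ).ph p σ T c := by
      conv_lhs => rw [h1.1.frame.span v h3]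
      simp only [Sys.ph, map_sum, map_smul, smul_eq_mul, mul_sum]
      rw [sum_comm]
      exact sum_congr rfl fun c _ => sum_congr rfl fun d _ => by ring
    have h6 : ∑ c ∈ T, (sys E ρ).L σ c v * (sys E ρ).ph p σ T c ≤ 0 :=
      sum_nonpos fun c hc => mul_nonpos_of_nonpos_of_nonneg
        ((h4 c (hT c hc)).1 fun h' => hn (h' ▸ hc)) (hph c hc).le
    have he' : (0, e) ∈ ({0} ×ˢ E : Finset (ℕ × ℕ)) := mem_product.2 ⟨mem_singleton_self _, he⟩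
    have h7 : ∑ d ∈ ({0} ×ˢ E : Finset (ℕ × ℕ)), p d * (sys E ρ).L σ d v = p (0, e) := by
      rw [sum_congr rfl fun d hd => by
        rw [(h4 d (hH hd)).2.2 (mem_singleton.1 (mem_product.1 hd).1), mul_ite, mul_one,
          mul_zero], sum_ite_eq', if_pos he']
    have h8 : -∑ d ∈ (sys E ρ).Cc \ {0} ×ˢ E, p d ≤
        ∑ d ∈ (sys E ρ).Cc \ {0} ×ˢ E, p d * (sys E ρ).L σ d v := by
      rw [← sum_neg_distrib]
      refine sum_le_sum fun d hd => ?_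
      have := mul_le_mul_of_nonneg_left (h4 d (mem_sdiff.1 hd).1).2.1 (hp.1 d (mem_sdiff.1 hd).1).le
      linarith
    have h9 := hp' _ he'
    rw [← sum_sdiff hH, h7] at h5
    linarith
  exact (hCN _ _ _ (sys E ρ) hA θ p hG hp).2 fun v hv v' hv' h h' =>
    hU E ρ hρ θ v hv v' hv' (key v hv h) (key v' hv' h')

end Pool.Agent.Lib.US
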