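import Pool.Agent.Lib.US.DC6

/-! One step of the deletion-contraction recursion of the partition function. -/

namespace Pool.Agent.Lib.US.DC

open Finset Pool.Agent.Lib.FL
open Pool.Agent.Lib.FL.H64 (IsRk cl Flat Cov mem_cl cl_subset subset_cl con dual)

variable {E : Finset ℕ} {ρ ρ' : Finset ℕ → ℕ} {θ θ' : ℕ × ℕ → ℝ} {e : ℕ} {A H Θ : ℝ}

theorem sgen_congr (h : (sys E ρ).SGen θ) (h' : ∀ c ∈ cons E ρ, θ' c = θ c) : (sys E ρ).SGen θ' :=
  fun κ h1 h2 => by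
    rw [sum_congr rfl fun c hc => by rw [h' c hc]]
    exact h κ h1 h2

theorem sgen_update (h : (sys E ρ).SGen θ) {c : ℕ × ℕ} (hc : c ∈ cons E ρ) {t : ℝ}
    (ht : ∑ d ∈ cons E ρ, |θ d| < |t|) : (sys E ρ).SGen (Function.update θ c t) := fun κ h1 h2 => by
  by_cases h0 : κ c = 0
  · rw [sum_congr rfl (g := fun d => (κ d : ℝ) * θ d) fun d _ => by
      by_cases hd : d = c
      · rw [hd, h0]; simp
      · rw [Function.update_of_ne hd]]
    exact h κ h1 h2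
  · have a1 : |(κ c : ℝ)| = 1 := by
      have : |κ c| = 1 := le_antisymm (h1 c) (Int.one_le_abs h0)
      exact_mod_cast this
    have a2 : |∑ d ∈ (cons E ρ).erase c, (κ d : ℝ) * Function.update θ c t d| ≤
        ∑ d ∈ cons E ρ, |θ d| := by
      refine (abs_sum_le_sum_abs _ _).trans ((sum_le_sum fun d hd => ?_).trans
        (sum_le_sum_of_subset_of_nonneg (erase_subset c _) fun _ _ _ => abs_nonneg _))
      rw [Function.update_of_ne (mem_erase.1 hd).1, abs_mul]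
      exact mul_le_of_le_one_left (abs_nonneg _) (by exact_mod_cast h1 d)
    show ∑ d ∈ cons E ρ, (κ d : ℝ) * Function.update θ c t d ≠ 0
    rw [← add_sum_erase _ _ hc, Function.update_self]
    intro h3
    rw [eq_neg_of_add_eq_zero_right h3, abs_neg, abs_mul, a1, one_mul] at a2
    exact absurd ht (not_lt.2 a2)

open Classical in
theorem sum_three {α : Type} (s : Finset α) (f : α → ℝ) (p q r : α → Prop)
    (h : ∀ x ∈ s, p x ∨ q x ∨ r x) (h1 : ∀ x ∈ s, p x → ¬q x) (h2 : ∀ x ∈ s, p x → ¬r x)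
    (h3 : ∀ x ∈ s, q x → ¬r x) :
    ∑ x ∈ s, f x = ∑ x ∈ s.filter p, f x + ∑ x ∈ s.filter q, f x + ∑ x ∈ s.filter r, f x := by
  simp only [sum_filter, ← sum_add_distrib]
  refine sum_congr rfl fun x hx => ?_
  rcases h x hx with a | a | a
  · rw [if_pos a, if_neg (h1 x hx a), if_neg (h2 x hx a)]; ring
  · rw [if_neg fun b => h1 x hx b a, if_pos a, if_neg (h3 x hx a)]; ring
  · rw [if_neg fun b => h2 x hx b a, if_neg fun b => h3 x hx b a, if_pos a]; ring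

theorem feDA (h0 : θ (0, e) = 3 * Θ + 1) (h2 : θ (2, e) = -H) (hΘ : 0 ≤ Θ) (hH : 0 ≤ H)
    (h1 : (1, e) ∈ cons E ρ → |θ (1, e)| ≤ Θ) : Fe E ρ θ e 1 0 (0, e) Θ :=
  fun σ q a1 a2 a3 a4 => by
    rw [show (1 + 1, e) = (2, e) from rfl, cov2, h2] at a3
    rw [cov0, a2, h0] at a4
    refine ⟨by rw [sg1]; linarith, fun c hc b1 b2 b3 => ?_⟩
    rcases cons_e hc b1 with rfl | rfl | rfl
    · exact absurd rfl b3
    · rw [cov1]; linarith [(abs_le.1 a1).1, (abs_le.1 (h1 hc)).1]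
    · exact absurd rfl b2

theorem feDB (h0 : θ (0, e) = 3 * Θ + 1) (h2 : θ (2, e) = -H) (hH : 4 * Θ < H)
    (h1 : |θ (1, e)| ≤ Θ) : Fe E ρ θ e 1 0 (1, e) Θ :=
  fun σ q a1 a2 a3 a4 => by
    rw [show (1 + 1, e) = (2, e) from rfl, cov2, h2] at a3
    rw [cov1] at a4
    have := abs_le.1 a1
    have := abs_le.1 h1
    refine ⟨by rw [sg1]; linarith, fun c hc b1 b2 b3 => ?_⟩
    rcases cons_e hc b1 with rfl | rfl | rfl
    · rw [cov0, a2, h0]; linarith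
    · exact absurd rfl b3
    · exact absurd rfl b2

theorem feKC (h0 : θ (0, e) = 3 * Θ + 1) (h2 : θ (2, e) = -H) (hH : 4 * Θ < H)
    (h1 : |θ (1, e)| ≤ Θ) : Fe E ρ θ e 0 1 (2, e) Θ :=
  fun σ q a1 a2 a3 a4 => by
    rw [zero_add, cov1] at a3
    rw [cov2, h2] at a4
    have := abs_le.1 a1
    have := abs_le.1 h1
    refine ⟨by rw [sg0]; linarith, fun c hc b1 b2 b3 => ?_⟩
    rcases cons_e hc b1 with rfl | rfl | rfl
    · rw [cov0, a2, h0]; linarith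
    · exact absurd rfl b2
    · exact absurd rfl b3

theorem feKA (h0 : θ (0, e) = -H) (hH : 3 * Θ < H) (h1 : |θ (1, e)| ≤ Θ)
    (h2 : (2, e) ∉ cons E ρ) : Fe E ρ θ e 0 1 (0, e) Θ :=
  fun σ q _ a2 a3 a4 => by
    rw [zero_add, cov1] at a3
    rw [cov0, a2, h0] at a4
    have := abs_le.1 h1
    refine ⟨by rw [sg0]; linarith, fun c hc b1 b2 b3 => ?_⟩
    rcases cons_e hc b1 with rfl | rfl | rfl
    · exact absurd rfl b3
    · exact absurd rfl b2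
    · exact absurd hc h2

theorem one_cons (h : IsRk ρ) (he : e ∈ E) : (1, e) ∈ cons E ρ ↔ ρ {e} ≠ 0 := by
  have := consj (E := E) (ρ := ρ) (j := 0) (f := e) (by omega)
  rw [zero_add, rs0, mem_cl, insert_empty_eq, h.empty] at this
  rw [this]
  exact ⟨fun a b => a.2 ⟨he, b⟩, fun a => ⟨he, fun b => a b.2⟩⟩

theorem two_cons (h : IsRk ρ) (he : e ∈ E) : (2, e) ∈ cons E ρ ↔ ρ (E.erase e) = ρ E := by
  have := consj (E := E) (ρ := ρ) (j := 1) (f := e) (by omega)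
  rw [rs1, mem_cl, insert_empty_eq, (h.isRk_dual E).empty] at this
  have a1 := dual_single h he
  have a2 := h.mono _ _ (erase_subset e E)
  refine this.trans ⟨fun a => ?_, fun a => ⟨he, fun b => by have := b.2; omega⟩⟩
  by_contra b
  exact a.2 ⟨he, by omega⟩

theorem sum_fil (h : ∀ c, c.2 ≠ e → θ' c = θ c) :
    ∑ c ∈ (cons E ρ).filter fun c => c.2 ≠ e, |θ' c| ≤ ∑ c ∈ cons E ρ, |θ c| := by
  rw [sum_congr rfl fun c hc => by rw [h c (mem_filter.1 hc).2]]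
  exact sum_le_sum_of_subset_of_nonneg (filter_subset _ _) fun _ _ _ => abs_nonneg _

theorem le_sum {c : ℕ × ℕ} (hc : c ∈ cons E ρ) : |θ c| ≤ ∑ c ∈ cons E ρ, |θ c| :=
  single_le_sum (f := fun c => |θ c|) (fun _ _ => abs_nonneg _) hc

theorem sum_erase_up (P : ℕ × ℕ) (t : ℝ) : ∑ c ∈ (cons E ρ).erase P, |Function.update θ P t c| ≤
    ∑ c ∈ cons E ρ, |θ c| := by
  rw [sum_congr rfl fun c hc => by rw [Function.update_of_ne (mem_erase.1 hc).1]]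
  exact sum_le_sum_of_subset_of_nonneg (erase_subset _ _) fun _ _ _ => abs_nonneg _

open Classical in
/-- a coloop -/
theorem coloop (hTU : St_TU) (h : IsRk ρ) (he : e ∈ E) (hE : ρ (E.erase e) < ρ E)
    (hθ : (sys E ρ).SGen θ) : ∃ θ', (sys E ρ).SGen θ' ∧ (∀ c, c.2 ≠ e → θ' c = θ c) ∧
      ∀ a, (sys E ρ).Zs θ' a = (a (1, e))⁻¹ * (a (0, e))⁻¹ * (sys (E.erase e) ρ).Zs θ' a := by
  have hΘ : 0 ≤ ∑ c ∈ cons E ρ, |θ c| := sum_nonneg fun _ _ => abs_nonneg _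
  have hc := cfgC h he hE
  have n2 : (2, e) ∉ cons E ρ := fun h' => hE.ne ((two_cons h he).1 h')
  have c1 : (1, e) ∈ cons E ρ := (one_cons h he).2 (by have := hc.one; rw [rs0] at this; omega)
  have hb : e ∈ cl (rs E ρ 1) E ∅ := by
    by_contra h'
    exact n2 ((consj (j := 1) (by omega)).2 ⟨he, h'⟩)
  have hne : ∀ c : ℕ × ℕ, c.2 ≠ e → Function.update θ (0, e) (-(5 * ∑ c ∈ cons E ρ, |θ c| + 1)) c
      = θ c := fun c hc => Function.update_of_ne (fun h' => hc (by rw [h'])) _ _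
  refine ⟨_, sgen_update hθ (cons0.2 he) (by rw [abs_neg, abs_of_nonneg (by linarith)]; linarith),
    hne, fun a => ?_⟩
  rw [← sum_cls hTU hc (Or.inl rfl) (cons0.2 he) (feKA (Function.update_self _ _ _) (by linarith)
    (by rw [Function.update_of_ne (by simp)]; exact le_sum c1) n2) (sum_fil hne) a]
  unfold Sys.Zs
  rw [filter_true_of_mem fun w hw => ?_]
  obtain ⟨p, hp⟩ := mem_Tm.1 hw
  obtain ⟨y, hy, h1 | h1⟩ := exists_big hTU h he hp (Or.inr ⟨rfl, hb⟩) (cons0.2 he)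
    (Function.update_self _ _ _) (by
      have := sum_erase_up (E := E) (ρ := ρ) (θ := θ) (0, e) (-(5 * ∑ c ∈ cons E ρ, |θ c| + 1))
      linarith)
  · exact absurd (by rw [(hp.cone.chain 1 (by omega)).bot]; exact hb) (d_nb hy h1)
  · exact k_cls hy h1 hc

open Classical in
/-- not a coloop -/
theorem ncoloop (hTU : St_TU) (h : IsRk ρ) (he : e ∈ E) (hE : ρ (E.erase e) = ρ E)
    (hθ : (sys E ρ).SGen θ) : ∃ θ', (sys E ρ).SGen θ' ∧ (∀ c, c.2 ≠ e → θ' c = θ c) ∧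
      ∀ a, (sys E ρ).Zs θ' a = (a (2, e))⁻¹ * (a (0, e))⁻¹ * (sys (E.erase e) ρ).Zs θ' a +
        if ρ {e} = 0 then 0 else (a (2, e))⁻¹ * (a (1, e))⁻¹ * (sys (E.erase e) ρ).Zs θ' a +
          (a (1, e))⁻¹ * (a (2, e))⁻¹ * (sys (E.erase e) (con ρ e)).Zs θ' a := by
  obtain ⟨Θ, hΘ⟩ : ∃ Θ, Θ = ∑ c ∈ cons E ρ, |θ c| := ⟨_, rfl⟩
  have Θ0 : 0 ≤ Θ := hΘ ▸ sum_nonneg fun _ _ => abs_nonneg _
  obtain ⟨θ1, h1⟩ : ∃ θ1, θ1 = Function.update θ (0, e) (3 * Θ + 1) := ⟨_, rfl⟩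
  obtain ⟨H, hH⟩ : ∃ H, H = 5 * ∑ c ∈ cons E ρ, |θ1 c| + 1 := ⟨_, rfl⟩
  obtain ⟨θ2, h2⟩ : ∃ θ2, θ2 = Function.update θ1 (2, e) (-H) := ⟨_, rfl⟩
  have c0 : (0, e) ∈ cons E ρ := cons0.2 he
  have c2 : (2, e) ∈ cons E ρ := (two_cons h he).2 hE
  have t1 : θ1 (0, e) = 3 * Θ + 1 := by rw [h1, Function.update_self]
  have b1 : 3 * Θ + 1 ≤ ∑ c ∈ cons E ρ, |θ1 c| := by
    have := le_sum (θ := θ1) c0
    rwa [t1, abs_of_nonneg (by linarith)] at this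
  have g1 : (sys E ρ).SGen θ1 := h1 ▸ sgen_update hθ c0
    (by rw [← hΘ, abs_of_nonneg (by linarith)]; linarith)
  have g2 : (sys E ρ).SGen θ2 := h2 ▸ sgen_update g1 c2
    (by rw [abs_neg, abs_of_nonneg (by linarith)]; linarith)
  have u0 : θ2 (0, e) = 3 * Θ + 1 := by rw [h2, Function.update_of_ne (by simp), t1]
  have u2 : θ2 (2, e) = -H := by rw [h2, Function.update_self]
  have u1 : ∀ c, c ≠ (0, e) → c ≠ (2, e) → θ2 c = θ c := fun c a b => by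
    rw [h2, Function.update_of_ne b, h1, Function.update_of_ne a]
  have hne : ∀ c : ℕ × ℕ, c.2 ≠ e → θ2 c = θ c := fun c hc =>
    u1 c (fun h' => hc (by rw [h'])) fun h' => hc (by rw [h'])
  have u3 : ∀ c ∈ cons E ρ, c ≠ (0, e) → c ≠ (2, e) → |θ2 c| ≤ Θ := fun c hc a b => by
    rw [u1 c a b, hΘ]; exact le_sum hc
  have u4 : (1, e) ∈ cons E ρ → |θ2 (1, e)| ≤ Θ := fun hc => u3 _ hc (by simp) (by simp)
  have hf : ∑ c ∈ (cons E ρ).filter fun c => c.2 ≠ e, |θ2 c| ≤ Θ := hΘ ▸ sum_fil hne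
  have hc := cfgD h he hE
  have cl1 : ∀ w ∈ (sys E ρ).Tm θ2, Cls E ρ ρ e 1 0 (0, e) w ∨ Cls E ρ ρ e 1 0 (1, e) w ∨
      (ρ {e} ≠ 0 ∧ Cls E ρ (con ρ e) e 0 1 (2, e) w) := fun w hw => by
    obtain ⟨p, hp⟩ := mem_Tm.1 hw
    obtain ⟨y, hy, a | a⟩ := exists_big hTU h he hp (Or.inl rfl) c2 u2 (by
      have := sum_erase_up (E := E) (ρ := ρ) (θ := θ1) (2, e) (-H)
      rw [← h2] at this
      linarith)
    · exact (d_cls hy a hc u3 (by linarith)).imp id Or.inl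
    · have b : ρ {e} ≠ 0 := fun b => k_nl hy a (mem_cl.2 ⟨he, by rw [insert_empty_eq, b, h.empty]⟩)
      exact Or.inr (Or.inr ⟨b, k_cls hy a (cfgK h he b)⟩)
  refine ⟨θ2, g2, hne, fun a => ?_⟩
  have sA := sum_cls hTU hc (Or.inl rfl) c0 (feDA u0 u2 Θ0 (by linarith) u4) hf a
  split_ifs with h0
  · rw [add_zero, ← sA]
    unfold Sys.Zs
    rw [filter_true_of_mem fun w hw => ?_]
    obtain ⟨p, hp⟩ := mem_Tm.1 hw
    rcases cl1 w hw with b | b | b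
    · exact b
    · exact absurd h0 ((one_cons h he).1 (hp.sub b.2.2.1))
    · exact absurd h0 b.1
  · have c1 := (one_cons h he).2 h0
    have sB := sum_cls hTU hc (Or.inr rfl) c1 (feDB u0 u2 (by linarith) (u4 c1)) hf a
    have sK := sum_cls hTU (cfgK h he h0) (Or.inr rfl) c2 (feKC u0 u2 (by linarith) (u4 c1)) hf a
    rw [← add_assoc, ← sA, ← sB, ← sK]
    refine sum_three _ _ _ _ _ (fun w hw => (cl1 w hw).imp id (Or.imp id And.right))
      (fun w _ b1 b2 => disjA b1 b2.2.2.1) (fun w _ b1 b2 => disjA b1 b2.2.1) fun w hw b1 b2 => ?_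
    obtain ⟨p, hp⟩ := mem_Tm.1 hw
    exact disjB hc (cfgK h he h0) hp b1 b2

end Pool.Agent.Lib.US.DC

namespace Pool.Agent.Lib.US

open Finset Pool.Agent.Lib.FL DC

theorem dc (hTU : St_TU) (h1 : St_AX1) (hAX : St_AX) (hI : St_INV2) : St_DC := by
  intro E ρ h e he A0 A1 A2 p0 p1 p2 θ g g1 g2
  have inv : ∀ E ρ, H64.IsRk ρ → ∀ θ θ', (sys E ρ).SGen θ → (sys E ρ).SGen θ' →
      (sys E ρ).Zs θ (cst A0 A1 A2) = (sys E ρ).Zs θ' (cst A0 A1 A2) := fun E ρ h θ θ' a b =>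
    hI _ _ _ _ (hAX E ρ h) θ θ' _ a b ((h1 E ρ h).2.2.2.2.2.2.2 A0 A1 A2 p0 p1 p2)
  have sm : ∀ ρ', H64.IsRk ρ' → (sys (E.erase e) ρ').SGen θ → ∀ θ' : ℕ × ℕ → ℝ,
      (∀ c, c.2 ≠ e → θ' c = θ c) → (sys (E.erase e) ρ').Zs θ' (cst A0 A1 A2) =
        (sys (E.erase e) ρ').Zs θ (cst A0 A1 A2) := fun ρ' h' g' θ' a =>
    inv _ _ h' _ _ (sgen_congr g' fun c hc => a c (cons_ne hc)) g'
  have e0 : cst A0 A1 A2 (0, e) = A0 := rfl
  have e1 : cst A0 A1 A2 (1, e) = A1 := rfl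
  have e2 : cst A0 A1 A2 (2, e) = A2 := rfl
  rcases (h.mono _ _ (erase_subset e E)).eq_or_lt with hE | hE
  · obtain ⟨θ', a1, a2, a3⟩ := ncoloop hTU h he hE g
    rw [inv E ρ h θ θ' g a1, a3, sm ρ h g1 θ' a2, sm _ (h.isRk_con e) g2 θ' a2, e0, e1, e2,
      if_neg hE.not_lt]
    split_ifs <;> ring
  · obtain ⟨θ', a1, a2, a3⟩ := coloop hTU h he hE g
    have := (cfgC h he hE).one
    rw [rs0] at this
    rw [inv E ρ h θ θ' g a1, a3, sm ρ h g1 θ' a2, e0, e1, if_neg (by omega), if_pos hE]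
    ring

end Pool.Agent.Lib.US
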