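import Pool.Agent.Lib.US.Cod18

/-! Two walls that are not adjacent. -/

namespace Pool.Agent.Lib.US

open Finset Pool.Agent.Lib.FL
open Pool.Agent.Lib.FL.H64 (IsRk cl Flat Cov)

theorem far (hB : St_BAL) (_hA : St_AX1) : St_FAR := by
  intro E ρ hρ σ hσ k hk l hl hne h1 h2
  have hc := mem_Ch.1 hσ
  have n1 : (k.1, k.2 - 1) ≠ l := fun h => h2 (by
    have := (H18.wall_iff.1 hk).2.1
    rw [← h]
    exact Prod.ext rfl (by simp only; omega))
  have n3 : (l.1, l.2 - 1) ≠ k := fun h => h1 (by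
    have := (H18.wall_iff.1 hl).2.1
    rw [← h]
    exact Prod.ext rfl (by simp only; omega))
  have a1 := fun P Q => H18.up2_ne (σ := σ) (H18.ne_lo hk) n1 P Q
  have a2 := fun P Q => H18.up2_ne (σ := σ) (H18.ne_hi k) h1.symm P Q
  have a3 := fun P Q => H18.up2_ne (σ := σ) n3 (H18.ne_lo hl) P Q
  have a4 := fun P Q => H18.up2_ne (σ := σ) h2.symm (H18.ne_hi l) P Q
  have a5 := fun t P Q => H18.up2_ne (σ := σ) (H18.ne_bot hk t) (H18.ne_bot hl t) P Q
  have hXY : ∀ P Q, IsCone E ρ (H18.up2 σ k l P Q) ↔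
      P ∈ H18.mid E ρ σ k ∧ Q ∈ H18.mid E ρ σ l := fun P Q => by
    rw [H18.mem_mid, H18.mem_mid]
    refine ⟨fun h => ?_, fun h => H18.cone_of hc {k, l} (fun j hj => ?_)
      (fun j hj => ?_) fun j hj => ?_⟩
    · have b1 := H18.cov_lo h hk
      have b2 := H18.cov_hi h hk
      have b3 := H18.cov_lo h hl
      have b4 := H18.cov_hi h hl
      rw [a1, H18.up2_k hne] at b1
      rw [a2, H18.up2_k hne] at b2
      rw [a3, H18.up2_l] at b3
      rw [a4, H18.up2_l] at b4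
      exact ⟨⟨b1, b2⟩, b3, b4⟩
    · rcases mem_insert.1 hj with rfl | hj
      · exact hk
      · exact mem_singleton.1 hj ▸ hl
    · rw [mem_insert, mem_singleton, not_or] at hj
      exact H18.up2_ne hj.1 hj.2 P Q
    · rcases mem_insert.1 hj with rfl | hj
      · rw [a1, a2, H18.up2_k hne]
        exact h.1
      · rw [mem_singleton.1 hj, a3, a4, H18.up2_l]
        exact h.2
  have nk : ∀ P ∈ H18.mid E ρ σ k, ∀ Q ∈ H18.mid E ρ σ l,
      (sys E ρ).nu (H18.up2 σ k l P Q) k = (sys E ρ).nu σ k := fun P hP Q hQ => by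
    rw [H18.nu_eq hB hρ ((hXY P Q).2 ⟨hP, hQ⟩) hk, H18.nu_eq hB hρ hc hk, H18.mid, H18.mid, a1, a2]
  have nl : ∀ P ∈ H18.mid E ρ σ k, ∀ Q ∈ H18.mid E ρ σ l,
      (sys E ρ).nu (H18.up2 σ k l P Q) l = (sys E ρ).nu σ l := fun P hP Q hQ => by
    rw [H18.nu_eq hB hρ ((hXY P Q).2 ⟨hP, hQ⟩) hl, H18.nu_eq hB hρ hc hl, H18.mid, H18.mid, a3, a4]
  have Bk := hB E ρ hρ σ hσ k hk
  have Bl := hB E ρ hρ σ hσ l hl
  have ck := H18.mid_pos hc hk
  have cl' := H18.mid_pos hc hl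
  have mk : 1 ≤ (sys E ρ).nu σ k * (H18.mid E ρ σ k).card :=
    one_le_mul_of_one_le_of_one_le Bk.2.2.2.1 ck
  have ml : 1 ≤ (sys E ρ).nu σ l * (H18.mid E ρ σ l).card :=
    one_le_mul_of_one_le_of_one_le Bl.2.2.2.1 cl'
  have hw : (sys E ρ).w2 σ k l =
      ((sys E ρ).nu σ l * (H18.mid E ρ σ l).card) • (sys E ρ).w σ k +
        ((sys E ρ).nu σ k * (H18.mid E ρ σ k).card) • (sys E ρ).w σ l := by
    rw [Sys.w2, H18.sum_Nb2 hne _ (fun _ => H18.mid E ρ σ l) hXY,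
      sum_congr rfl fun P hP => sum_congr rfl fun Q hQ => by
        rw [nk P hP Q hQ, nl P hP Q hQ, H18.u_eq (a5 _ P Q), H18.u_eq (a5 _ P Q), H18.up2_k hne,
          H18.up2_l], H18.w_eq hc hk, H18.w_eq hc hl]
    simp only [sum_add_distrib, sum_const, ← smul_sum, ← Nat.cast_smul_eq_nsmul ℝ, smul_smul,
      mul_comm]
  refine ⟨fun t s ht hs h0 => ?_, ?_, ?_, ?_, ?_⟩
  · obtain ⟨T, hT⟩ := H18.exists_fun (fun P Q => IsCone E ρ (H18.up2 σ k l P Q))
      (fun P Q => t (H18.up2 σ k l P Q)) fun P Q Q' a b =>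
        ht _ (H18.up2_mem a) _ (H18.up2_Nb_l P Q b)
    obtain ⟨S, hS⟩ := H18.exists_fun (fun Q P => IsCone E ρ (H18.up2 σ k l P Q))
      (fun Q P => s (H18.up2 σ k l P Q)) fun Q P P' a b =>
        hs _ (H18.up2_mem a) _ (H18.up2_Nb_k P Q b)
    rw [H18.sum_Nb2 hne _ (fun _ => H18.mid E ρ σ l) hXY,
      sum_congr rfl fun P hP => sum_congr rfl fun Q hQ => by
        rw [nk P hP Q hQ, nl P hP Q hQ, hT P Q ((hXY P Q).2 ⟨hP, hQ⟩),
          hS Q P ((hXY P Q).2 ⟨hP, hQ⟩)]] at h0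
    rw [H18.sum_Nb2 hne _ (fun _ => H18.mid E ρ σ l) hXY,
      sum_congr rfl fun P hP => sum_congr rfl fun Q hQ => show _ = 2 * T P * S Q by
        have c := (hXY P Q).2 ⟨hP, hQ⟩
        rw [hT P Q c, hS Q P c, (hB E ρ hρ _ (mem_Ch.2 c) l hl).2.1 k hk,
          (hB E ρ hρ _ (mem_Ch.2 c) k hk).2.1 l hl, if_neg h2, if_neg n3.symm, if_neg h1,
          if_neg n1.symm]
        ring, ← sum_mul_sum, ← mul_sum]
    simp only [sum_add_distrib, sum_const, nsmul_eq_mul, ← mul_sum] at h0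
    generalize ∑ P ∈ H18.mid E ρ σ k, T P = x at h0 ⊢
    generalize ∑ Q ∈ H18.mid E ρ σ l, S Q = y at h0 ⊢
    have e : ((sys E ρ).nu σ l * (H18.mid E ρ σ l).card) * (x * y) =
        -(((sys E ρ).nu σ k * (H18.mid E ρ σ k).card) * y ^ 2) := by linear_combination y * h0
    by_contra hn
    have e2 : 0 < x * y := by linarith
    nlinarith [mul_pos (lt_of_lt_of_le one_pos ml) e2,
      mul_nonneg (zero_le_one.trans mk) (sq_nonneg y)]
  · rw [hw]
    exact add_mem (Submodule.smul_mem _ _ Bk.1) (Submodule.smul_mem _ _ Bl.1)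
  · rw [hw, map_add, map_smul, map_smul, Bk.2.1 k hk, Bl.2.1 k hk, if_neg (H18.ne_hi k).symm,
      if_neg (H18.ne_lo hk).symm, if_neg h2, if_neg n3.symm]
    simp
  · rw [hw, map_add, map_smul, map_smul, Bk.2.1 l hl, Bl.2.1 l hl, if_neg (H18.ne_hi l).symm,
      if_neg (H18.ne_lo hl).symm, if_neg h1, if_neg n1.symm]
    simp
  · rw [hw, map_add, map_smul, map_smul, H18.sum_Nb2 hne _ (fun _ => H18.mid E ρ σ l) hXY,
      sum_congr rfl fun P hP => sum_congr rfl fun Q hQ => by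
        have c := (hXY P Q).2 ⟨hP, hQ⟩
        rw [nk P hP Q hQ, nl P hP Q hQ, H18.bt_u c hk (a5 _ P Q), H18.bt_u c hl (a5 _ P Q),
          H18.up2_k hne, H18.up2_l]]
    simp only [sum_add_distrib, sum_const, nsmul_eq_mul, ← mul_sum, smul_eq_mul]
    have e1 := H18.mm_eq hc hk
    have e2 := H18.mm_eq hc hl
    rw [sub_eq_iff_eq_add] at e1 e2
    rw [e1, e2]
    nlinarith [one_le_mul_of_one_le_of_one_le mk ml]

end Pool.Agent.Lib.US
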