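import Pool.Agent.Lib.US.Model

/-! The partition function of the model is the Tutte polynomial. -/

namespace Pool.Agent.Lib.US

open Finset Pool.Agent.Lib.FL
open Pool.Agent.Lib.FL.H64 (IsRk cl)

namespace REC

theorem sgen_mono {ι X V : Type} [AddCommGroup V] [Module ℝ V] {S S' : Sys ι X V} {θ : ι → ℝ}
    (h : S'.Cc ⊆ S.Cc) (hG : S.SGen θ) : S'.SGen θ := by
  classical
  intro κ h1 ⟨c, hc, h2⟩
  have := hG (fun d => if d ∈ S'.Cc then κ d else 0) (fun d => by
    split_ifs
    exacts [h1 d, by simp]) ⟨c, h hc, by rwa [if_pos hc]⟩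
  rwa [← sum_subset h fun d _ hd => by simp [hd], sum_congr rfl fun d hd => by rw [if_pos hd]]
    at this

variable {E : Finset ℕ} {ρ : Finset ℕ → ℕ}

theorem mem_cons (h : IsRk ρ) {c : ℕ × ℕ} : c ∈ cons E ρ ↔ c.2 ∈ E ∧
    (c.1 = 0 ∨ c.1 = 1 ∧ ρ {c.2} ≠ 0 ∨ c.1 = 2 ∧ ρ E ≤ ρ (E.erase c.2)) := by
  obtain ⟨t, e⟩ := c
  simp only [cons, mem_union, mem_product, mem_singleton, mem_sdiff, H64.mem_cl, rs, if_true,
    one_ne_zero, if_false, H64.dual, insert_empty_eq, h.empty, empty_inter, card_empty,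
    sdiff_empty, zero_add, Nat.sub_self, sdiff_singleton_eq_erase]
  by_cases he : e ∈ E
  · simp only [he, true_and, and_true, singleton_inter_of_mem he, card_singleton, or_assoc]
    omega
  · simp [he]

theorem tut_ins (h : IsRk ρ) {e : ℕ} (he : e ∉ E) (x y : ℚ) : H5.tut (insert e E) ρ x y =
    if ρ {e} = 0 then y * H5.tut E ρ x y else if ρ E < ρ (insert e E) then x * H5.tut E ρ x y
    else H5.tut E ρ x y + H5.tut E (H64.con ρ e) x y := by
  have b1 := h.ins E e
  have b2 := h.le_ins E e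
  have hc : ∀ A ∈ E.powerset, (insert e A).card = A.card + 1 := fun A hA =>
    card_insert_of_notMem fun h' => he (mem_powerset.1 hA h')
  rw [H5.tut, sum_powerset_insert he]
  split_ifs with h1 h2
  · have h3 : ∀ A, ρ (insert e A) = ρ A := fun A =>
      h.ins_of_sub (empty_subset A) (by rw [insert_empty_eq, h1, h.empty])
    rw [H5.tut, mul_sum, ← sum_add_distrib]
    refine sum_congr rfl fun A hA => ?_
    rw [h3, h3, hc A hA, Nat.succ_sub (h.le_card A), pow_succ]
    ring
  · rw [H5.tut, mul_sum, ← sum_add_distrib]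
    refine sum_congr rfl fun A hA => ?_
    have h3 := h.mono A E (mem_powerset.1 hA)
    have h4 := h.ins A e
    have h5 := h.le_ins A e
    have h6 : ρ (insert e A) ≠ ρ A := fun h' => by
      have := h.ins_of_sub (mem_powerset.1 hA) h'
      omega
    rw [hc A hA, show ρ (insert e E) - ρ A = ρ E - ρ A + 1 by omega,
      show ρ (insert e E) - ρ (insert e A) = ρ E - ρ A by omega,
      show A.card + 1 - ρ (insert e A) = A.card - ρ A by omega, pow_succ]
    ring
  · have h3 := h.le_card {e}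
    rw [card_singleton] at h3
    rw [H5.tut, H5.tut, show ρ (insert e E) = ρ E by omega]
    congr 1
    refine sum_congr rfl fun A hA => ?_
    have h4 := h.con_add e A
    have h5 := h.con_add e E
    rw [hc A hA, show ρ E - ρ (insert e A) = H64.con ρ e E - H64.con ρ e A by omega,
      show A.card + 1 - ρ (insert e A) = A.card - H64.con ρ e A by omega]

theorem zs_empty (h : IsRk ρ) (θ a : ℕ × ℕ → ℝ) : (sys ∅ ρ).Zs θ a = 1 := by
  have h0 : ∀ j, rs ∅ ρ j ∅ = 0 := fun j => by
    unfold rs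
    split_ifs
    · exact h.empty
    · simp [H64.dual]
  have h1 : (sys ∅ ρ).Cn = ∅ := by simp [Sys.Cn, sys, walls, cons, h0]
  have h2 : (sys ∅ ρ).Tm θ = {(fun _ => ∅, ∅)} := by
    ext ⟨σ, T⟩
    rw [Sys.Tm, Sys.mem_VJ, mem_singleton, Prod.mk.injEq]
    constructor
    · rintro ⟨⟨⟨h3, h4, -⟩, -⟩, -⟩
      refine ⟨funext fun ⟨t, i⟩ => ?_, subset_empty.1 (h1 ▸ h4)⟩
      have h5 := mem_Ch.1 h3
      by_cases ht : t = 3 ∨ t = 4
      · obtain ⟨j, hj, rfl⟩ : ∃ j < 2, t = 3 + j := ⟨t - 3, by omega, by omega⟩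
        exact subset_empty.1 ((h5.chain j hj).sub i)
      · exact h5.junk t i (by omega) (by omega)
    · rintro ⟨rfl, rfl⟩
      refine ⟨⟨⟨mem_Ch.2 ⟨fun j _ => ⟨by simp [ch, cl], fun _ _ => rfl, fun i hi => ?_⟩,
        fun _ _ _ _ => rfl⟩, empty_subset _, 0, by simp, by simp, fun v hv => ?_⟩, ?_⟩, by simp⟩
      · rw [h0] at hi
        omega
      · obtain ⟨-, h3, h4, h5⟩ := hv
        funext ⟨t, e⟩
        rw [sum_empty]
        rcases lt_trichotomy t 2 with ht | rfl | ht
        exacts [h3 t ht e (by simp), h4 e (by simp), h5 t e ht]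
      · rw [h1]
        simp
  rw [Sys.Zs, h2]
  simp [Sys.om]

end REC

open REC in
theorem rec79 (H : St_DC) : St_REC := by
  intro E ρ h A0 A1 A2 p0 p1 p2 θ hG
  induction E using Finset.induction_on generalizing ρ with
  | empty => simp [zs_empty h, H5.tut, h.empty]
  | insert e E he ih =>
    have g1 : (sys E ρ).SGen θ := sgen_mono (S := sys (insert e E) ρ) (fun c hc => by
      obtain ⟨h1, h2⟩ := (mem_cons h).1 hc
      refine (mem_cons h).2 ⟨mem_insert_of_mem h1, h2.imp_right (Or.imp_right fun h3 => ⟨h3.1, ?_⟩)⟩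
      have h4 := h.le_ins (E.erase c.2) c.2
      rw [insert_erase h1] at h4
      have h5 := h.ins_of_sub (erase_subset_erase c.2 (subset_insert e E)) (e := c.2)
        (by rw [insert_erase h1]; omega)
      rw [insert_erase (mem_insert_of_mem h1)] at h5
      exact h5.le) hG
    have g2 : (sys E (H64.con ρ e)).SGen θ := sgen_mono (S := sys (insert e E) ρ) (fun c hc => by
      obtain ⟨h1, h2⟩ := (mem_cons (h.isRk_con e)).1 hc
      refine (mem_cons h).2 ⟨mem_insert_of_mem h1, h2.imp_right (Or.imp (fun h3 => ⟨h3.1, fun h4 =>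
        h3.2 ?_⟩) fun h3 => ⟨h3.1, ?_⟩)⟩
      · have h4 := h.con_add e E
        have h5 := h.con_add e (E.erase c.2)
        rw [erase_insert_of_ne fun h' : e = c.2 => he (h' ▸ h1)]
        omega
      · have h5 := h.ins_of_sub (empty_subset {e}) (e := c.2) (by rw [insert_empty_eq, h4, h.empty])
        have h6 := h.con_add e {c.2}
        rw [pair_comm] at h6
        omega) hG
    have key := H _ ρ h e (mem_insert_self e E) A0 A1 A2 (by exact_mod_cast p0)
      (by exact_mod_cast p1) (by exact_mod_cast p2) θ hG (by rwa [erase_insert he])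
      (by rwa [erase_insert he])
    rw [key, erase_insert he, ih ρ h g1, ih _ (h.isRk_con e) g2, tut_ins h he,
      card_insert_of_notMem he]
    have b1 := h.ins E e
    have b2 := h.le_ins E e
    have b3 := h.le_card E
    have q0 : (A0 : ℝ) ≠ 0 := by exact_mod_cast p0.ne'
    have q1 : (A1 : ℝ) ≠ 0 := by exact_mod_cast p1.ne'
    have q2 : (A2 : ℝ) ≠ 0 := by exact_mod_cast p2.ne'
    have q3 : (A0 : ℝ) + A1 ≠ 0 := by exact_mod_cast (add_pos p0 p1).ne'
    split_ifs with h1 h2
    · have h3 := h.ins_of_sub (empty_subset E) (e := e) (by rw [insert_empty_eq, h1, h.empty])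
      have h4 : ((A0 : ℝ)⁻¹ + (A1 : ℝ)⁻¹) * (A1 / (A0 + A1)) = (A0 : ℝ)⁻¹ := by field_simp; ring
      rw [h3, Nat.succ_sub b3]
      push_cast
      rw [pow_succ, pow_succ]
      linear_combination (-((A2 : ℝ)⁻¹ * (A2 : ℝ)⁻¹ ^ E.card * (A1 : ℝ)⁻¹ ^ ρ E *
        ((A0 : ℝ)⁻¹ + (A1 : ℝ)⁻¹) ^ (E.card - ρ E) *
          (H5.tut E ρ (A2 / A0) (A1 / (A0 + A1)) : ℚ))) * h4
    · rw [show ρ (insert e E) = ρ E + 1 by omega, Nat.succ_sub_succ]
      push_cast
      rw [pow_succ, pow_succ]
      field_simp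
    · have h3 := h.le_card {e}
      have h4 := h.con_add e E
      rw [card_singleton] at h3
      have h5 : ρ E = H64.con ρ e E + 1 := by omega
      rw [show ρ (insert e E) = ρ E by omega, show E.card + 1 - ρ E = E.card - ρ E + 1 by omega,
        show E.card - H64.con ρ e E = E.card - ρ E + 1 by omega]
      generalize E.card - ρ E = d
      rw [h5]
      push_cast
      ring

end Pool.Agent.Lib.US
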