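import Mathlib

/-! Averaging over a box of integer thresholds: the sweep lemma and the count of non generic
points. -/

namespace Pool.Agent.Lib.US.H18

open Finset

/-- the box of integer vectors with entries below `R` -/
def box (K : Type) [Fintype K] [DecidableEq K] (R : ℕ) : Finset (K → ℕ) :=
  Fintype.piFinset fun _ => range R

variable {K : Type} [Fintype K] [DecidableEq K]

theorem mem_box {R : ℕ} {θ : K → ℕ} : θ ∈ box K R ↔ ∀ i, θ i < R := by
  simp [box, Fintype.mem_piFinset]

theorem card_box (R : ℕ) : (box K R).card = R ^ Fintype.card K := by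
  simp [box, Fintype.card_piFinset]

theorem update_mem {R : ℕ} {θ : K → ℕ} (h : θ ∈ box K R) (i : K) {t : ℕ} (ht : t < R) :
    Function.update θ i t ∈ box K R := by
  rw [mem_box] at h ⊢
  intro k
  by_cases e : k = i
  · subst e
    simpa using ht
  · simpa [Function.update_of_ne e] using h k

/-- resampling one coordinate -/
theorem sum_update (R : ℕ) (i : K) (F : (K → ℕ) → ℝ) :
    ∑ θ ∈ box K R, ∑ t ∈ range R, F (Function.update θ i t) = R * ∑ θ ∈ box K R, F θ := by
  have h : ∑ θ ∈ box K R, ∑ t ∈ range R, F (Function.update θ i t) =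
      ∑ θ ∈ box K R, ∑ _t ∈ range R, F θ := by
    rw [← sum_product', ← sum_product']
    refine sum_nbij' (fun p => (Function.update p.1 i p.2, p.1 i))
      (fun p => (Function.update p.1 i p.2, p.1 i)) ?_ ?_ ?_ ?_ ?_
    · intro p hp
      rw [mem_product] at hp ⊢
      exact ⟨update_mem hp.1 i (mem_range.1 hp.2), mem_range.2 (mem_box.1 hp.1 i)⟩
    · intro p hp
      rw [mem_product] at hp ⊢
      exact ⟨update_mem hp.1 i (mem_range.1 hp.2), mem_range.2 (mem_box.1 hp.1 i)⟩
    · intro p _
      simp
    · intro p _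
      simp
    · intro p _
      rfl
  rw [h, mul_sum]
  exact sum_congr rfl fun θ _ => by simp

/-- at most `R` distinct positive integers -/
theorem sum_inv_le {α : Type} (R : ℕ) (A : Finset α) (hA : A.card ≤ R) (f : α → ℕ)
    (hf : Set.InjOn f A) : ∑ a ∈ A, (1 : ℝ) / f a ≤ 2 + Real.log R := by
  classical
  rcases Nat.eq_zero_or_pos R with rfl | hR
  · rw [card_eq_zero.1 (Nat.le_zero.1 hA)]
    simp
  have hR' : (0 : ℝ) < R := by exact_mod_cast hR
  rw [← sum_filter_add_sum_filter_not A fun a => f a ≤ R]
  have h1 : ∑ a ∈ A.filter (fun a => f a ≤ R), (1 : ℝ) / f a ≤ 1 + Real.log R := by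
    rw [← sum_image (s := A.filter fun a => f a ≤ R) (g := f) (f := fun b : ℕ => (1 : ℝ) / b)
      (hf.mono (coe_subset.2 (filter_subset _ _)))]
    calc _ ≤ ∑ b ∈ range (R + 1), (1 : ℝ) / b := by
          refine sum_le_sum_of_subset_of_nonneg (fun b hb => ?_) fun _ _ _ => by positivity
          obtain ⟨a, ha, rfl⟩ := mem_image.1 hb
          exact mem_range.2 (Nat.lt_succ_of_le (mem_filter.1 ha).2)
      _ = (harmonic R : ℝ) := by
          rw [sum_range_succ', harmonic]
          simp
      _ ≤ _ := harmonic_le_one_add_log R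
  have h2 : ∑ a ∈ A.filter (fun a => ¬ f a ≤ R), (1 : ℝ) / f a ≤ 1 := by
    calc _ ≤ ∑ _a ∈ A.filter (fun a => ¬ f a ≤ R), (1 : ℝ) / R := by
          refine sum_le_sum fun a ha => one_div_le_one_div_of_le hR' ?_
          exact_mod_cast (not_le.1 (mem_filter.1 ha).2).le
      _ ≤ R * (1 / R) := by
          rw [sum_const, nsmul_eq_mul]
          refine mul_le_mul_of_nonneg_right ?_ (by positivity)
          exact_mod_cast (card_filter_le _ _).trans hA
      _ = 1 := by field_simp
  linarith

/-- the sweep lemma: objects `e ∈ D θ` with weights `w e` and integer lengths that are injective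
in the coordinate `i` -/
theorem sweep {E : Type} (R : ℕ) (i : K) (D : (K → ℕ) → Finset E) (len : (K → ℕ) → E → ℕ)
    (w : E → ℝ) (C : ℝ) (hw : ∀ e, 0 ≤ w e)
    (hinj : ∀ θ ∈ box K R, ∀ e, ∀ t < R, ∀ t' < R, e ∈ D (Function.update θ i t) →
      e ∈ D (Function.update θ i t') →
      len (Function.update θ i t) e = len (Function.update θ i t') e → t = t')
    (hC : ∀ θ ∈ box K R, ∀ F : Finset E,
      (∀ e ∈ F, ∃ t < R, e ∈ D (Function.update θ i t)) → ∑ e ∈ F, w e ≤ C) :
    R * ∑ θ ∈ box K R, ∑ e ∈ D θ, w e / len θ e ≤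
      (2 + Real.log R) * C * R ^ Fintype.card K := by
  classical
  rw [← sum_update R i fun θ => ∑ e ∈ D θ, w e / len θ e]
  have hl : (0 : ℝ) ≤ 2 + Real.log R := by
    have := Real.log_natCast_nonneg R
    linarith
  calc _ ≤ ∑ _θ ∈ box K R, (2 + Real.log R) * C := by
        refine sum_le_sum fun θ hθ => ?_
        set U := (range R).biUnion fun t => D (Function.update θ i t) with hU
        have h1 : ∑ t ∈ range R, ∑ e ∈ D (Function.update θ i t),
            w e / len (Function.update θ i t) e =
            ∑ e ∈ U, ∑ t ∈ (range R).filter fun t => e ∈ D (Function.update θ i t),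
              w e / len (Function.update θ i t) e := by
          refine sum_comm' fun t e => ?_
          simp only [hU, mem_filter, mem_biUnion]
          exact ⟨fun h => ⟨h, t, h⟩, fun h => h.1⟩
        rw [h1]
        calc _ ≤ ∑ e ∈ U, (2 + Real.log R) * w e := by
              refine sum_le_sum fun e _ => ?_
              have h2 := sum_inv_le R ((range R).filter fun t => e ∈ D (Function.update θ i t))
                ((card_filter_le _ _).trans (card_range R).le)
                (fun t => len (Function.update θ i t) e) fun t ht t' ht' h => by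
                  rw [mem_coe, mem_filter, mem_range] at ht ht'
                  exact hinj θ hθ e t ht.1 t' ht'.1 ht.2 ht'.2 h
              calc _ = (∑ t ∈ (range R).filter fun t => e ∈ D (Function.update θ i t),
                    (1 : ℝ) / len (Function.update θ i t) e) * w e := by
                    rw [sum_mul]
                    exact sum_congr rfl fun t _ => by ring
                _ ≤ _ := mul_le_mul_of_nonneg_right h2 (hw e)
          _ = (2 + Real.log R) * ∑ e ∈ U, w e := (mul_sum _ _ _).symm
          _ ≤ _ := by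
              refine mul_le_mul_of_nonneg_left (hC θ hθ U fun e he => ?_) hl
              obtain ⟨t, ht, h⟩ := mem_biUnion.1 he
              exact ⟨t, mem_range.1 ht, h⟩
    _ = _ := by
        rw [sum_const, card_box, nsmul_eq_mul]
        push_cast
        ring

/-- a non trivial affine relation holds on at most a fraction `1 / R` of the box -/
theorem card_rel (R : ℕ) (κ : K → ℤ) (c : ℤ) (i : K) (hi : κ i ≠ 0) :
    (R : ℝ) * ((box K R).filter fun θ => ∑ k, κ k * θ k = c).card ≤ R ^ Fintype.card K := by
  have h := sum_update R i fun θ => if ∑ k, κ k * (θ k : ℤ) = c then (1 : ℝ) else 0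
  rw [sum_boole] at h
  rw [← h]
  calc _ ≤ ∑ _θ ∈ box K R, (1 : ℝ) := by
        refine sum_le_sum fun θ _ => ?_
        rw [sum_boole]
        have hs : ∀ t : ℕ, ∑ k, κ k * ((Function.update θ i t k : ℕ) : ℤ) =
            κ i * t + ∑ k ∈ univ.erase i, κ k * θ k := by
          intro t
          rw [← add_sum_erase _ _ (mem_univ i), Function.update_self]
          refine congrArg _ (sum_congr rfl fun k hk => ?_)
          rw [Function.update_of_ne (ne_of_mem_erase hk)]
        have h1 : ((range R).filter fun t => ∑ k, κ k * ((Function.update θ i t k : ℕ) : ℤ) = c).card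
            ≤ 1 := by
          refine card_le_one.2 fun t ht t' ht' => ?_
          have h2 := (mem_filter.1 ht).2
          have h3 := (mem_filter.1 ht').2
          rw [hs] at h2 h3
          have h4 : κ i * t = κ i * t' := by linarith
          exact_mod_cast mul_left_cancel₀ hi h4
        exact_mod_cast h1
    _ = _ := by
        rw [sum_const, card_box, nsmul_eq_mul]
        push_cast
        ring

/-- no signed sum with coefficients of size at most `m` vanishes -/
def Gen (m : ℕ) (θ : K → ℤ) : Prop :=
  ∀ κ : K → ℤ, (∀ k, |κ k| ≤ m) → ∑ k, κ k * θ k = 0 → κ = 0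

open Classical in
/-- few points of the box are not generic -/
theorem card_not_gen (R m : ℕ) :
    (R : ℝ) * ((box K R).filter fun θ => ¬ Gen m fun k => (θ k : ℤ)).card ≤
      (2 * m + 1) ^ Fintype.card K * R ^ Fintype.card K := by
  set P := (Fintype.piFinset fun _ : K => Icc (-(m : ℤ)) m).erase 0 with hP
  have h1 : ((box K R).filter fun θ => ¬ Gen m fun k => (θ k : ℤ)) ⊆
      P.biUnion fun κ => (box K R).filter fun θ => ∑ k, κ k * θ k = 0 := by
    intro θ hθ
    obtain ⟨h2, h3⟩ := mem_filter.1 hθ
    simp only [Gen, not_forall] at h3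
    obtain ⟨κ, h4, h5, h6⟩ := h3
    exact mem_biUnion.2 ⟨κ, mem_erase.2 ⟨h6, Fintype.mem_piFinset.2 fun k =>
      mem_Icc.2 (abs_le.1 (h4 k))⟩, mem_filter.2 ⟨h2, h5⟩⟩
  have h2 : (((box K R).filter fun θ => ¬ Gen m fun k => (θ k : ℤ)).card : ℝ) ≤
      ∑ κ ∈ P, (((box K R).filter fun θ => ∑ k, κ k * θ k = 0).card : ℝ) := by
    exact_mod_cast (card_le_card h1).trans card_biUnion_le
  have h3 : (P.card : ℝ) ≤ (2 * m + 1) ^ Fintype.card K := by
    have h4 : P.card ≤ (2 * m + 1) ^ Fintype.card K := by
      refine (card_erase_le).trans ?_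
      rw [Fintype.card_piFinset, prod_const, Int.card_Icc, card_univ]
      exact Nat.pow_le_pow_left (by omega) _
    exact_mod_cast h4
  calc _ ≤ (R : ℝ) * ∑ κ ∈ P, (((box K R).filter fun θ => ∑ k, κ k * θ k = 0).card : ℝ) :=
        mul_le_mul_of_nonneg_left h2 (by positivity)
    _ ≤ ∑ _κ ∈ P, (R : ℝ) ^ Fintype.card K := by
        rw [mul_sum]
        refine sum_le_sum fun κ hκ => ?_
        obtain ⟨i, hi⟩ := Function.ne_iff.1 (mem_erase.1 hκ).1
        exact card_rel R κ 0 i hi
    _ ≤ _ := by
        rw [sum_const, nsmul_eq_mul]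
        exact mul_le_mul_of_nonneg_right h3 (by positivity)

/-- doubling the thresholds and giving one of them an odd value keeps genericity -/
theorem Gen.odd {m : ℕ} (hm : m ≤ 1) {θ : K → ℤ} (h : Gen m θ) (i : K) (t : ℤ) :
    Gen m (Function.update (fun k => 2 * θ k) i (2 * t + 1)) := by
  intro κ h1 h2
  rw [← add_sum_erase _ _ (mem_univ i), Function.update_self] at h2
  have h3 : ∑ k ∈ univ.erase i, κ k * Function.update (fun k => 2 * θ k) i (2 * t + 1) k =
      2 * ∑ k ∈ univ.erase i, κ k * θ k := by
    rw [mul_sum]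
    refine sum_congr rfl fun k hk => ?_
    rw [Function.update_of_ne (ne_of_mem_erase hk)]
    ring
  rw [h3] at h2
  have h4 : κ i = 0 := by
    have h5 := abs_le.1 (h1 i)
    have h6 : κ i = -1 ∨ κ i = 0 ∨ κ i = 1 := by omega
    rcases h6 with e | e | e
    · rw [e] at h2
      omega
    · exact e
    · rw [e] at h2
      omega
  refine h κ h1 ?_
  rw [← add_sum_erase _ _ (mem_univ i), h4]
  rw [h4] at h2
  linarith

end Pool.Agent.Lib.US.H18
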