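import Pool.Agent.Lib.US.Blue
import Pool.Agent.Lib.US.Sweep18

/-! The total conductance is small on average over integer thresholds. -/

namespace Pool.Agent.Lib.US

open Finset

namespace H94

theorem sum_le_fib {α β : Type} (U : Finset α) (P : Finset β) (r : β → α) (w : α → ℝ)
    (W : β → ℝ) (hW : ∀ x ∈ P, 0 ≤ W x) (h : ∀ e ∈ U, ∃ x ∈ P, r x = e ∧ w e ≤ W x) :
    ∑ e ∈ U, w e ≤ ∑ x ∈ P, W x := by
  classical
  calc _ ≤ ∑ e ∈ U, ∑ x ∈ P.filter (fun x => r x = e), W x := sum_le_sum fun e he => by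
        obtain ⟨x, hx, h1, h2⟩ := h e he
        exact h2.trans (single_le_sum (f := W) (fun y hy => hW y (mem_filter.1 hy).1)
          (mem_filter.2 ⟨hx, h1⟩))
    _ ≤ _ := by
        refine (sum_fiberwise_eq_sum_filter P U r W).trans_le ?_
        exact sum_le_sum_of_subset_of_nonneg (filter_subset _ _) fun x hx _ => hW x hx

theorem harm {α : Type} (K : ℕ) (A : Finset α) (hA : A.card ≤ 2 ^ K) (g : α → ℝ)
    (hg : ∀ a ∈ A, 0 < g a ∧ ∃ n : ℤ, g a = n) (hi : Set.InjOn g A) :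
    ∑ a ∈ A, 1 / g a ≤ 2 * (K + 1) := by
  have e : ∀ a ∈ A, ((⌊g a⌋₊ : ℕ) : ℝ) = g a := fun a ha => by
    obtain ⟨h0, n, hn⟩ := hg a ha
    have h1 : 0 ≤ n := by
      rw [hn] at h0
      exact_mod_cast h0.le
    lift n to ℕ using h1
    rw [hn, Int.cast_natCast, Nat.floor_natCast]
  have h1 := H18.sum_inv_le (2 ^ K) A hA (fun a => ⌊g a⌋₊) fun a ha b hb h =>
    hi ha hb (by rw [← e a ha, ← e b hb]; exact congrArg _ h)
  rw [sum_congr rfl fun a ha => by rw [e a ha]] at h1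
  have h2 : Real.log ((2 ^ K : ℕ) : ℝ) ≤ K := by
    rw [Nat.cast_pow, Real.log_pow, Nat.cast_ofNat]
    have h3 := Real.log_two_lt_d9
    have h4 : (0 : ℝ) ≤ K := Nat.cast_nonneg K
    nlinarith
  have h4 : (0 : ℝ) ≤ K := Nat.cast_nonneg K
  linarith

variable {ι X V : Type} [DecidableEq ι] [AddCommGroup V] [Module ℝ V]
  {S : Sys ι X V} {θ a : ι → ℝ} {σ : ι → X} {T : Finset ι} {c d e j : ι} {s t A0 A : ℝ}

theorem th_update (hA : S.Ax) (hj : j ∈ S.Cc) (s t : ℝ) (c : ι) :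
    S.th (Function.update θ j s) c =
      S.th (Function.update θ j t) c + if c = j then s - t else 0 := by
  unfold Sys.th
  by_cases h : c = j
  · subst h
    rw [if_neg (disjoint_right.1 hA.disj hj), if_neg (disjoint_right.1 hA.disj hj), if_pos rfl,
      Function.update_self, Function.update_self]
    ring
  · rw [Function.update_of_ne h, Function.update_of_ne h, if_neg h, add_zero]

theorem sl_update (hA : S.Ax) (hj : j ∈ S.Cc) (s t : ℝ) (σ : ι → X) (T : Finset ι) (e : ι) :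
    S.sl (Function.update θ j s) σ T e = S.sl (Function.update θ j t) σ T e +
      ((if e = j then 1 else 0) - if j ∈ T then S.L σ e (S.yv σ T j) else 0) * (s - t) := by
  unfold Sys.sl
  rw [Sys.L_pt, Sys.L_pt, th_update hA hj s t e,
    sum_congr rfl fun c _ => by rw [th_update hA hj s t c, add_mul, ite_mul, zero_mul],
    sum_add_distrib, sum_ite_eq']
  split_ifs <;> ring

theorem relax_out (hA : S.Ax) (hj : j ∈ S.Cc) (hts : t ≤ s) (hT : j ∉ T)
    (h : S.Vx (Function.update θ j t) σ T) : S.Vx (Function.update θ j s) σ T :=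
  ⟨h.1, fun d hd hd' => by
    have := h.2 d hd hd'
    rw [sl_update hA hj s t, if_neg hT]
    split_ifs <;> linarith⟩

theorem relax_in (hA : S.Ax) (hj : j ∈ S.Cc) (hts : t ≤ s) (hT : j ∈ T)
    (hG : S.Gen (Function.update θ j s)) (h : S.Vx (Function.update θ j t) σ T) :
    ∃ e ∈ S.Cn, e ∉ T.erase j ∧ S.Vx (Function.update θ j s) σ (insert e (T.erase j)) := by
  classical
  obtain ⟨e, he, hm⟩ := exists_min_image (S.Cn.filter fun d => S.L σ d (S.yv σ T j) = 1)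
    (fun d => S.th (Function.update θ j s) d - S.L σ d (S.pt (Function.update θ j t) σ T))
    ⟨j, mem_filter.2 ⟨h.1.2.1 hT, by rw [h.1.frame.dual j hT j hT, if_pos rfl]⟩⟩
  have := Sys.push hA hG h.1 hT (h.1.pt_mem (θ := Function.update θ j t))
    (fun d hd hne => by rw [h.1.pt_tight hd, th_update hA hj s t d, if_neg hne, add_zero])
    (ε := 1) (by norm_num) (mem_filter.1 he).1 (mem_filter.1 he).2
    (fun d hd => by
      have := h.le hd
      rw [th_update hA hj s t d]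
      split_ifs <;> linarith)
    fun d hd hd' => hm d (mem_filter.2 ⟨hd, hd'⟩)
  exact ⟨e, (mem_filter.1 he).1, this.1, this.2.1⟩

theorem sgen_half (hj : j ∈ S.Cc) (θ : ι → ℕ) (t R : ℕ)
    (h : S.SGen (Function.update (fun c => (θ c : ℝ)) j t)) :
    S.SGen (Function.update (fun c => (θ c : ℝ)) j (R + 1 / 2)) := by
  intro κ h1 h2 h3
  have e : ∀ s : ℝ, ∑ c ∈ S.Cc, (κ c : ℝ) * Function.update (fun c => (θ c : ℝ)) j s c =
      κ j * s + ((∑ c ∈ S.Cc.erase j, κ c * θ c : ℤ) : ℝ) := fun s => by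
    rw [← add_sum_erase _ _ hj, Function.update_self]
    push_cast
    exact congrArg _ (sum_congr rfl fun c hc => by
      rw [Function.update_of_ne (ne_of_mem_erase hc)])
  have h4 := h κ h1 h2
  rw [e] at h3 h4
  have h5 : κ j * (2 * R + 1) + 2 * ∑ c ∈ S.Cc.erase j, κ c * θ c = 0 := by
    have : (κ j : ℝ) * (2 * R + 1) + 2 * ((∑ c ∈ S.Cc.erase j, κ c * θ c : ℤ) : ℝ) = 0 := by
      linarith
    exact_mod_cast this
  have h6 := abs_le.1 (h1 j)
  have h7 : κ j = -1 ∨ κ j = 0 ∨ κ j = 1 := by omega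
  rcases h7 with h7 | h7 | h7
  · rw [h7] at h5
    omega
  · rw [h7] at h3 h4
    simp only [Int.cast_zero, zero_mul] at h3 h4
    exact h4 h3
  · rw [h7] at h5
    omega

/-- the weight in which a wall costs `A` -/
noncomputable def omp (S : Sys ι X V) (a : ι → ℝ) (A : ℝ) (T : Finset ι) : ℝ :=
  ∏ c ∈ T, (if c ∈ S.Kw then A else a c)⁻¹

theorem om_eq (hA : S.Ax) (h0 : A ≠ 0) (hT : T ⊆ S.Cn) :
    S.om a T = A ^ (T ∩ S.Kw).card * omp S a A T := by
  have h1 : T \ S.Kw = T ∩ S.Cc := by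
    ext c
    rw [mem_sdiff, mem_inter]
    exact ⟨fun h => ⟨h.1, (Sys.mem_Cn.1 (hT h.1)).resolve_left h.2⟩,
      fun h => ⟨h.1, disjoint_right.1 hA.disj h.2⟩⟩
  have h2 : ∏ c ∈ T ∩ S.Kw, (if c ∈ S.Kw then A else a c)⁻¹ = A⁻¹ ^ (T ∩ S.Kw).card := by
    rw [← prod_const]
    exact prod_congr rfl fun c hc => by rw [if_pos (mem_inter.1 hc).2]
  have h3 : ∏ c ∈ T \ S.Kw, (if c ∈ S.Kw then A else a c)⁻¹ = S.om a T := by
    unfold Sys.om
    rw [← h1]
    exact prod_congr rfl fun c hc => by rw [if_neg (mem_sdiff.1 hc).2]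
  rw [omp, ← prod_inter_mul_prod_sdiff T S.Kw, h2, h3, ← mul_assoc, ← mul_pow,
    mul_inv_cancel₀ h0, one_pow, one_mul]

theorem cost_mem (h1 : A0 ≤ A) (ha : ∀ c ∈ S.Cc, A0 ≤ a c ∧ a c ≤ A) (hc : c ∈ S.Cn) :
    A0 ≤ (if c ∈ S.Kw then A else a c) ∧ (if c ∈ S.Kw then A else a c) ≤ A := by
  split_ifs with h
  · exact ⟨h1, le_rfl⟩
  · exact ha c ((Sys.mem_Cn.1 hc).resolve_left h)

theorem omp_pos (h0 : 0 < A0) (h1 : A0 ≤ A) (ha : ∀ c ∈ S.Cc, A0 ≤ a c ∧ a c ≤ A)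
    (hT : T ⊆ S.Cn) : 0 < omp S a A T :=
  prod_pos fun _ hc => inv_pos.2 (h0.trans_le (cost_mem h1 ha (hT hc)).1)

theorem omp_erase (h0 : 0 < A0) (h1 : A0 ≤ A) (ha : ∀ c ∈ S.Cc, A0 ≤ a c ∧ a c ≤ A)
    (hT : T ⊆ S.Cn) (hc : c ∈ T) :
    A0 * omp S a A T ≤ omp S a A (T.erase c) ∧ omp S a A (T.erase c) ≤ A * omp S a A T := by
  obtain ⟨h2, h3⟩ := cost_mem h1 ha (hT hc)
  have h4 := omp_pos h0 h1 ha hT
  have h5 : omp S a A (T.erase c) = (if c ∈ S.Kw then A else a c) * omp S a A T := by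
    unfold omp
    rw [← mul_prod_erase T _ hc, ← mul_assoc, mul_inv_cancel₀ (h0.trans_le h2).ne', one_mul]
  rw [h5]
  exact ⟨mul_le_mul_of_nonneg_right h2 h4.le, mul_le_mul_of_nonneg_right h3 h4.le⟩

open Classical in
/-- the darts, with their entering condition, whose length depends on the threshold `j` -/
noncomputable def Ty (S : Sys ι X V) (j : ι) (θ : ι → ℝ) :
    Finset ((((ι → X) × Finset ι) × ι) × ι) :=
  (S.Db θ 0 ×ˢ S.Cn).filter fun x => S.SGen θ ∧ x.2 = S.ent θ x.1.1.1 x.1.1.2 x.1.2 ∧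
    (x.2 = j ∨ j ∈ x.1.1.2 ∧ S.L x.1.1.1 x.2 (S.yv x.1.1.1 x.1.1.2 j) ≠ 0)

theorem mem_Ty {x : (((ι → X) × Finset ι) × ι) × ι} (h : x ∈ Ty S j θ) :
    S.SGen θ ∧ S.Vx θ x.1.1.1 x.1.1.2 ∧ x.1.2 ∈ x.1.1.2 ∧ x.1.1.2.erase x.1.2 ∩ S.Kw = ∅ ∧
      x.2 ∈ S.Cn ∧ x.2 ∉ x.1.1.2 ∧
      (x.2 = j ∨ j ∈ x.1.1.2 ∧ S.L x.1.1.1 x.2 (S.yv x.1.1.1 x.1.1.2 j) ≠ 0) := by
  classical
  unfold Ty at h
  rw [mem_filter, mem_product] at h
  obtain ⟨⟨h1, h2⟩, h3, h4, h5⟩ := h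
  obtain ⟨h6, h7⟩ := Sys.mem_Db.1 h1
  obtain ⟨h8, h9, h10⟩ := Sys.mem_Dt.1 h6
  have h11 := Sys.mem_cand.1 (Sys.ent_spec (θ := θ) h7).1
  exact ⟨h3, h8, h9, card_eq_zero.1 h10, h2, h4 ▸ h11.2.1, h5⟩

/-- every bounded dart has an index -/
theorem exists_idx (hG : S.SGen θ) {x : ((ι → X) × Finset ι) × ι} (h : x ∈ S.Db θ 0) :
    ∃ j ∈ S.Cc, (x, S.ent θ x.1.1 x.1.2 x.2) ∈ Ty S j θ := by
  classical
  obtain ⟨h6, h7⟩ := Sys.mem_Db.1 h
  obtain ⟨h8, -, -⟩ := Sys.mem_Dt.1 h6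
  have h11 := Sys.mem_cand.1 (Sys.ent_spec (θ := θ) h7).1
  have h12 := h8.2 _ h11.1 h11.2.1
  by_contra hn
  have h1 : ∀ j ∈ S.Cc, ¬(S.ent θ x.1.1 x.1.2 x.2 = j ∨ j ∈ x.1.2 ∧
      S.L x.1.1 (S.ent θ x.1.1 x.1.2 x.2) (S.yv x.1.1 x.1.2 j) ≠ 0) := fun j hj h' =>
    hn ⟨j, hj, by
      unfold Ty
      exact mem_filter.2 ⟨mem_product.2 ⟨h, h11.1⟩, hG, rfl, h'⟩⟩
  unfold Sys.sl at h12
  rw [Sys.L_pt, sum_eq_zero, Sys.th,
    if_pos ((Sys.mem_Cn.1 h11.1).resolve_right fun h' => h1 _ h' (Or.inl rfl))] at h12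
  · simp at h12
  · intro c hc
    rcases Sys.mem_Cn.1 (h8.1.2.1 hc) with h' | h'
    · rw [Sys.th, if_pos h', zero_mul]
    · rw [not_not.1 fun h2 => h1 c h' (Or.inr ⟨hc, h2⟩), mul_zero]

/-- the vertices with at most two walls -/
theorem sum_omp (h1 : St_CNT1) (h2 : St_CNT2) (hA : S.Ax) (hG : S.Gen θ) (h0 : 0 < A0)
    (hle : A0 ≤ A) (ha : ∀ c ∈ S.Cc, A0 ≤ a c ∧ a c ≤ A) {Z : ℝ} (hZ : S.Zs θ a ≤ Z)
    (hZ0 : 0 ≤ Z) :
    ∑ v ∈ (S.VX θ).filter (fun v => (v.2 ∩ S.Kw).card ≤ 2), omp S a A v.2 ≤ 7 * S.B ^ 8 * Z := by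
  have hp : 0 < A := h0.trans_le hle
  have ha' : ∀ c ∈ S.Cc, 0 < a c ∧ a c ≤ A := fun c hc => ⟨h0.trans_le (ha c hc).1, (ha c hc).2⟩
  have e : ∀ k, ∑ v ∈ S.VJ θ k, S.om a v.2 = A ^ k * ∑ v ∈ S.VJ θ k, omp S a A v.2 := fun k => by
    rw [mul_sum]
    exact sum_congr rfl fun v hv => by
      rw [om_eq hA hp.ne' (Sys.mem_VJ.1 hv).1.1.2.1, (Sys.mem_VJ.1 hv).2]
  have h3 := h1 ι X V S hA θ hG a A hp.le ha'
  have h4 := h2 ι X V S hA θ hG a A hp.le ha'
  have h5 : S.Zs θ a = ∑ v ∈ S.VJ θ 0, omp S a A v.2 := by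
    rw [Sys.Zs, Sys.Tm, e, pow_zero, one_mul]
  rw [e] at h3
  rw [e, e] at h4
  have hB := hA.one_le
  have h6 : ∑ v ∈ S.VJ θ 1, omp S a A v.2 ≤ 2 * S.B ^ 3 * Z := by
    refine le_of_mul_le_mul_left ?_ hp
    have : 2 * S.B ^ 3 * A * S.Zs θ a ≤ 2 * S.B ^ 3 * A * Z :=
      mul_le_mul_of_nonneg_left hZ (by positivity)
    linarith
  have h7 : ∑ v ∈ S.VJ θ 2, omp S a A v.2 ≤ 4 * S.B ^ 8 * Z := by
    refine le_of_mul_le_mul_left ?_ (pow_pos hp 2)
    have : 2 * S.B ^ 5 * A * (A ^ 1 * ∑ v ∈ S.VJ θ 1, omp S a A v.2) ≤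
        2 * S.B ^ 5 * A * (A ^ 1 * (2 * S.B ^ 3 * Z)) :=
      mul_le_mul_of_nonneg_left (mul_le_mul_of_nonneg_left h6 (by positivity)) (by positivity)
    linarith
  have h8 : ∑ v ∈ (S.VX θ).filter (fun v => (v.2 ∩ S.Kw).card ≤ 2), omp S a A v.2 =
      ∑ k ∈ range 3, ∑ v ∈ S.VJ θ k, omp S a A v.2 := by
    unfold Sys.VJ
    rw [sum_fiberwise_eq_sum_filter]
    exact sum_congr (filter_congr fun v _ => by rw [mem_range]; omega) fun _ _ => rfl
  have h9 : 1 * Z ≤ S.B ^ 8 * Z := mul_le_mul_of_nonneg_right (one_le_pow₀ hB) hZ0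
  have h10 : S.B ^ 3 * Z ≤ S.B ^ 8 * Z :=
    mul_le_mul_of_nonneg_right (pow_le_pow_right₀ hB (by norm_num)) hZ0
  rw [h8, sum_range_succ, sum_range_succ, sum_range_one, ← h5]
  linarith

/-- the types that are alive for some smaller value of the threshold `j` -/
theorem alive (h1 : St_CNT1) (h2 : St_CNT2) (hA : S.Ax) (hj : j ∈ S.Cc)
    (hG : S.Gen (Function.update θ j s)) (h0 : 0 < A0) (hle : A0 ≤ A)
    (ha : ∀ c ∈ S.Cc, A0 ≤ a c ∧ a c ≤ A) {Z : ℝ} (hZ : S.Zs (Function.update θ j s) a ≤ Z)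
    (hZ0 : 0 ≤ Z) (U : Finset ((((ι → X) × Finset ι) × ι) × ι))
    (hU : ∀ x ∈ U, ∃ t ≤ s, x ∈ Ty S j (Function.update θ j t)) :
    ∑ x ∈ U, S.om a (x.1.1.2.erase x.1.2) ≤ 7 * S.B ^ 11 * A * (A / A0) * Z := by
  have hp : 0 < A := h0.trans_le hle
  have hq : 1 ≤ A / A0 := (one_le_div h0).2 hle
  have hB := hA.one_le
  have h3 := sum_le_fib U
    ((S.VX (Function.update θ j s)).filter (fun v => (v.2 ∩ S.Kw).card ≤ 2) ×ˢ S.Cn ×ˢ S.Cn ×ˢ S.Cn)
    (fun y => (((y.1.1, if y.2.2.2 = j then y.1.2 else insert j (y.1.2.erase y.2.1)), y.2.2.1),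
      y.2.2.2)) (fun x => S.om a (x.1.1.2.erase x.1.2))
    (fun y => A * (A / A0) * omp S a A y.1.2)
    (fun y hy => (mul_pos (by positivity) (omp_pos h0 hle ha
      (Sys.mem_VX.1 (mem_filter.1 (mem_product.1 hy).1).1).1.2.1)).le) ?_
  · refine h3.trans ?_
    rw [sum_product, sum_congr rfl fun v _ => by
      rw [sum_const (A * (A / A0) * omp S a A v.2), nsmul_eq_mul], ← mul_sum, ← mul_sum,
      card_product, card_product]
    push_cast
    have h4 := sum_omp h1 h2 hA hG h0 hle ha hZ hZ0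
    have h5 := hA.cn_le
    calc _ ≤ S.B * (S.B * S.B) * (A * (A / A0) * (7 * S.B ^ 8 * Z)) := by
          refine mul_le_mul (by gcongr) (mul_le_mul_of_nonneg_left h4 (by positivity)) ?_
            (by positivity)
          exact mul_nonneg (by positivity) (sum_nonneg fun v hv =>
            (omp_pos h0 hle ha (Sys.mem_VX.1 (mem_filter.1 hv).1).1.2.1).le)
      _ = _ := by ring
  · rintro ⟨⟨⟨σ, T⟩, c⟩, c'⟩ hx
    obtain ⟨t, ht, h4⟩ := hU _ hx
    obtain ⟨-, h5, h6, h7, h8, h9, h10⟩ := mem_Ty h4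
    simp only at h5 h6 h7 h8 h9 h10 ⊢
    have hT := h5.1.2.1
    have h11 : S.om a (T.erase c) ≤ A * omp S a A T := by
      rw [om_eq hA hp.ne' ((erase_subset _ _).trans hT), h7, card_empty, pow_zero, one_mul]
      exact (omp_erase h0 hle ha hT h6).2
    have h12 : ∀ k ∈ T, k ∈ S.Kw → k = c := fun k hk hk' => by
      by_contra hne
      exact notMem_empty k (h7 ▸ mem_inter.2 ⟨mem_erase.2 ⟨hne, hk⟩, hk'⟩)
    rcases h10 with h10 | h10
    · refine ⟨((σ, T), c, c, c'), mem_product.2 ⟨mem_filter.2 ⟨Sys.mem_VX.2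
        (relax_out hA hj ht (h10 ▸ h9) h5), ?_⟩, mem_product.2 ⟨hT h6, mem_product.2
        ⟨hT h6, h8⟩⟩⟩, by simp only [if_pos h10], h11.trans ?_⟩
      · refine (card_le_card (t := {c}) fun k hk => mem_singleton.2
          (h12 k (mem_inter.1 hk).1 (mem_inter.1 hk).2)).trans (by simp)
      · rw [mul_assoc]
        exact mul_le_mul_of_nonneg_left
          (le_mul_of_one_le_left (omp_pos h0 hle ha hT).le hq) hp.le
    · obtain ⟨e, he, h13, h14⟩ := relax_in hA hj ht h10.1 hG h5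
      have h15 : c' ≠ j := fun h' => h9 (h' ▸ h10.1)
      refine ⟨((σ, insert e (T.erase j)), e, c, c'), mem_product.2 ⟨mem_filter.2
        ⟨Sys.mem_VX.2 h14, ?_⟩, mem_product.2 ⟨he, mem_product.2 ⟨hT h6, h8⟩⟩⟩, by
          simp only [if_neg h15, erase_insert h13, insert_erase h10.1], h11.trans ?_⟩
      · refine (card_le_card (t := {e, c}) fun k hk => ?_).trans card_le_two
        rcases mem_insert.1 (mem_inter.1 hk).1 with h' | h'
        · exact mem_insert.2 (Or.inl h')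
        · exact mem_insert_of_mem (mem_singleton.2
            (h12 k (mem_of_mem_erase h') (mem_inter.1 hk).2))
      · have h16 := (omp_erase h0 hle ha hT h10.1).1
        have h17 := (omp_erase h0 hle ha h14.1.2.1 (mem_insert_self _ _)).2
        rw [erase_insert h13] at h17
        rw [mul_assoc]
        refine mul_le_mul_of_nonneg_left ?_ hp.le
        rw [div_mul_eq_mul_div, le_div_iff₀ h0]
        linarith

end H94

open H94 in
theorem sweep (hg : St_GEN) (h1 : St_CNT1) (h2 : St_CNT2) : St_SWEEP := by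
  classical
  intro ι X V _ _ _ S hA a A0 A Z h0 hle ha hZ hZ0 K
  have hp : 0 < A := h0.trans_le hle
  have hB := hA.one_le
  have hom : ∀ T, 0 ≤ S.om a T := fun T => prod_nonneg fun c hc =>
    inv_nonneg.2 (h0.le.trans (ha c (mem_inter.1 hc).2).1)
  have hsl : ∀ {j θ x}, x ∈ Ty S j θ → 0 < S.sl θ x.1.1.1 x.1.1.2 x.2 := fun hx => by
    obtain ⟨-, h5, -, -, h8, h9, -⟩ := mem_Ty hx
    exact h5.2 _ h8 h9
  refine ⟨fun j θ => ∑ x ∈ Ty S j θ, S.om a (x.1.1.2.erase x.1.2) / S.sl θ x.1.1.1 x.1.1.2 x.2,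
    fun j θ => sum_nonneg fun x hx => div_nonneg (hom _) (hsl hx).le, fun θ _ hG => ?_,
    fun j hj θ => ?_⟩
  · rw [sum_sigma']
    refine sum_le_fib _ _ (fun y => y.2.1) _ _
      (fun y hy => div_nonneg (hom _) (hsl (mem_sigma.1 hy).2).le) fun x hx => ?_
    obtain ⟨j, hj, h3⟩ := exists_idx hG hx
    exact ⟨⟨j, _⟩, mem_sigma.2 ⟨hj, h3⟩, rfl, le_rfl⟩
  · have e : ∀ t : ℕ, (fun d => ((Function.update θ j t d : ℕ) : ℝ)) =
        Function.update (fun d => (θ d : ℝ)) j t := fun t => funext fun d => by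
      by_cases h : d = j
      · rw [h, Function.update_self, Function.update_self]
      · rw [Function.update_of_ne h, Function.update_of_ne h]
    simp only [e]
    set η : ι → ℝ := fun d => (θ d : ℝ) with hη
    set U := (range (2 ^ K)).biUnion fun t : ℕ => Ty S j (Function.update η j t) with hU
    have h3 : ∑ t ∈ range (2 ^ K), ∑ x ∈ Ty S j (Function.update η j t),
        S.om a (x.1.1.2.erase x.1.2) / S.sl (Function.update η j t) x.1.1.1 x.1.1.2 x.2 =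
        ∑ x ∈ U, ∑ t ∈ (range (2 ^ K)).filter fun t : ℕ => x ∈ Ty S j (Function.update η j t),
          S.om a (x.1.1.2.erase x.1.2) / S.sl (Function.update η j t) x.1.1.1 x.1.1.2 x.2 := by
      refine sum_comm' fun t x => ?_
      simp only [hU, mem_filter, mem_biUnion]
      exact ⟨fun h => ⟨h, t, h⟩, fun h => h.1⟩
    have h4 : ∑ x ∈ U, S.om a (x.1.1.2.erase x.1.2) ≤ 7 * S.B ^ 11 * A * (A / A0) * Z := by
      rcases U.eq_empty_or_nonempty with h5 | ⟨x, hx⟩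
      · rw [h5, sum_empty]
        positivity
      · obtain ⟨t, -, h5⟩ := mem_biUnion.1 hx
        have h6 := sgen_half hj θ t (2 ^ K) (mem_Ty h5).1
        refine alive h1 h2 hA hj ((hg ι X V S hA _).1 h6) h0 hle ha (hZ _ h6) hZ0 U
          fun y hy => ?_
        obtain ⟨u, hu, h7⟩ := mem_biUnion.1 hy
        have h8 : (u : ℝ) ≤ (2 ^ K : ℕ) := Nat.cast_le.2 (mem_range.1 hu).le
        exact ⟨u, by linarith, h7⟩
    rw [h3]
    calc _ ≤ ∑ x ∈ U, 2 * (K + 1) * S.om a (x.1.1.2.erase x.1.2) := by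
          refine sum_le_sum fun x _ => ?_
          have h5 := harm K
            ((range (2 ^ K)).filter fun t : ℕ => x ∈ Ty S j (Function.update η j t))
            ((card_filter_le _ _).trans (card_range _).le)
            (fun t => S.sl (Function.update η j t) x.1.1.1 x.1.1.2 x.2) (fun t ht => ?_)
            fun t ht u _ h => ?_
          · refine le_trans (le_of_eq ?_) (mul_le_mul_of_nonneg_right h5 (hom _))
            rw [sum_mul]
            exact sum_congr rfl fun t _ => by ring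
          · have h6 := (mem_filter.1 ht).2
            obtain ⟨-, h7, -, -, h8, h9, -⟩ := mem_Ty h6
            refine ⟨hsl h6, ((hg ι X V S hA _).2 _ _ h7.1 _ h8 h9).2 fun c => ?_⟩
            rw [← e]
            exact ⟨(Function.update θ j t c : ℕ), (Int.cast_natCast _).symm⟩
          · obtain ⟨-, -, -, -, -, h9, h10⟩ := mem_Ty (mem_filter.1 (mem_coe.1 ht)).2
            simp only at h
            rw [sl_update hA hj t u, add_eq_left, mul_eq_zero, sub_eq_zero, sub_eq_zero] at h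
            refine Nat.cast_injective (R := ℝ) (h.resolve_left fun h' => ?_)
            rcases h10 with h10 | h10
            · rw [if_pos h10, if_neg (h10 ▸ h9)] at h'
              exact one_ne_zero h'
            · rw [if_neg fun h11 : x.2 = j => h9 (h11 ▸ h10.1), if_pos h10.1] at h'
              exact h10.2 h'.symm
      _ = 2 * (K + 1) * ∑ x ∈ U, S.om a (x.1.1.2.erase x.1.2) := (mul_sum _ _ _).symm
      _ ≤ 2 * (K + 1) * (7 * S.B ^ 11 * A * (A / A0) * Z) :=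
          mul_le_mul_of_nonneg_left h4 (by positivity)
      _ = 14 * S.B ^ 11 * ((K + 1) * A * (A / A0) * Z) := by ring
      _ ≤ 20 * S.B ^ 12 * ((K + 1) * A * (A / A0) * Z) := by
          refine mul_le_mul_of_nonneg_right ?_ (by positivity)
          have h5 : S.B ^ 11 ≤ S.B ^ 12 := pow_le_pow_right₀ hB (by norm_num)
          have h6 : 0 ≤ S.B ^ 11 := by positivity
          linarith
      _ = _ := by ring

end Pool.Agent.Lib.US
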