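import Pool.Agent.Lib.US.B_UNQ

/-! Unimodularity of the frames of the model. -/

namespace Pool.Agent.Lib.US

open Finset Pool.Agent.Lib.FL
open Pool.Agent.Lib.FL.H64 (IsRk cl Flat Cov)

namespace TU

variable {E : Finset ℕ} {ρ : Finset ℕ → ℕ} {σ : ℕ × ℕ → Finset ℕ} {T : Finset (ℕ × ℕ)}
  {c : ℕ × ℕ}

theorem comp_mem {v : ℕ × ℕ → ℝ} (hv : v ∈ span E σ) (g : ℝ → ℝ) (h0 : g 0 = 0) :
    (fun x => g (v x)) ∈ span E σ :=
  ⟨fun j hj i e he f hf => congrArg g (hv.1 j hj i e he f hf),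
    fun j hj e he => (congrArg g (hv.2.1 j hj e he)).trans h0,
    fun e he => (congrArg g (hv.2.2.1 e he)).trans h0,
    fun t e ht => (congrArg g (hv.2.2.2 t e ht)).trans h0⟩

/-- a function of the frame vector is a multiple of it -/
theorem comp_eq (h : (sys E ρ).IsB σ T) (hc : c ∈ T) (g : ℝ → ℝ) (h0 : g 0 = 0) :
    ∃ l : ℝ, ∀ x, g ((sys E ρ).yv σ T c x) = l * (sys E ρ).yv σ T c x := by
  have h1 := h.frame.span _ (comp_mem (h.frame.mem c hc) g h0)
  rw [sum_eq_single c (fun d hd hne => ?_) fun h => absurd hc h] at h1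
  · exact ⟨_, fun x => congrFun h1 x⟩
  · have h2 := h.frame.dual c hc d hd
    rw [if_neg hne] at h2
    change cov σ d _ = 0 at h2
    rw [cov_apply, sub_eq_zero] at h2
    change cov σ d _ • _ = _
    rw [cov_apply, h2, sub_self, zero_smul]

theorem two_val (h : (sys E ρ).IsB σ T) (hc : c ∈ T) {x : ℕ × ℕ}
    (hx : (sys E ρ).yv σ T c x ≠ 0) (z : ℕ × ℕ) :
    (sys E ρ).yv σ T c z = 0 ∨ (sys E ρ).yv σ T c z = (sys E ρ).yv σ T c x := by
  classical
  obtain ⟨l, hl⟩ := comp_eq h hc (fun t => if t = (sys E ρ).yv σ T c x then 1 else 0)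
    (if_neg hx.symm)
  by_contra hn
  rw [not_or] at hn
  have h1 := hl x
  have h2 := hl z
  rw [if_pos rfl] at h1
  rw [if_neg hn.2] at h2
  rcases mul_eq_zero.1 h2.symm with h3 | h3
  · rw [h3, zero_mul] at h1
    exact one_ne_zero h1
  · exact hn.1 h3

theorem sign (h : (sys E ρ).IsB σ T) (hc : c ∈ T) :
    (∀ x, (sys E ρ).yv σ T c x = 0 ∨ (sys E ρ).yv σ T c x = 1) ∨
      ∀ x, (sys E ρ).yv σ T c x = 0 ∨ (sys E ρ).yv σ T c x = -1 := by
  have h1 := h.frame.dual c hc c hc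
  rw [if_pos rfl] at h1
  change cov σ c _ = 1 at h1
  rw [cov_apply] at h1
  by_cases h2 : (sys E ρ).yv σ T c (ends σ c).2 = 0
  · rw [h2, sub_zero] at h1
    refine Or.inl fun x => ?_
    rw [← h1]
    exact two_val h hc (by rw [h1]; exact one_ne_zero) x
  · rcases two_val h hc h2 (ends σ c).1 with h3 | h3
    · refine Or.inr fun x => ?_
      have h4 : (sys E ρ).yv σ T c (ends σ c).2 = -1 := by linarith
      rw [← h4]
      exact two_val h hc h2 x
    · rw [h3, sub_self] at h1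
      exact absurd h1 zero_ne_one

theorem cov_val (h : (sys E ρ).IsB σ T) (hc : c ∈ T) (d : ℕ × ℕ) :
    cov σ d ((sys E ρ).yv σ T c) = 0 ∨ cov σ d ((sys E ρ).yv σ T c) = 1 ∨
      cov σ d ((sys E ρ).yv σ T c) = -1 := by
  rw [cov_apply]
  rcases sign h hc with h1 | h1 <;> rcases h1 (ends σ d).1 with h2 | h2 <;>
    rcases h1 (ends σ d).2 with h3 | h3 <;> rw [h2, h3] <;> norm_num

theorem card_walls (hρ : IsRk ρ) : (walls E ρ).card ≤ 2 * E.card := by
  have h1 : rs E ρ 0 E ≤ E.card := hρ.le_card E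
  have h2 : rs E ρ 1 E ≤ E.card := (hρ.isRk_dual E).le_card E
  refine (card_union_le _ _).trans ?_
  simp only [card_product, card_singleton, Nat.card_Ico]
  omega

theorem gf_le (hσ : IsCone E ρ σ) {k : ℕ × ℕ} (hk : k ∈ walls E ρ) :
    |gf E σ k| ≤ (E.card : ℝ) ^ 2 := by
  have key : ∀ i, ((σ (k.1, i)).card : ℝ) ≤ E.card := fun i => by
    refine Nat.cast_le.2 (card_le_card ?_)
    rcases UNQ.mem_walls.1 hk with h1 | h1 <;> rw [h1.1]
    · exact (hσ.chain 0 (by norm_num)).sub i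
    · exact (hσ.chain 1 (by norm_num)).sub i
  have h1 : ((σ k).card : ℝ) ≤ E.card := key k.2
  have h2 := key 0
  have h3 : (0 : ℝ) ≤ (σ k).card := Nat.cast_nonneg _
  have h4 : (0 : ℝ) ≤ (σ (k.1, 0)).card := Nat.cast_nonneg _
  rw [gf, abs_mul, sq]
  exact mul_le_mul (abs_le.2 ⟨by linarith, by linarith⟩) (abs_le.2 ⟨by linarith, by linarith⟩)
    (abs_nonneg _) (Nat.cast_nonneg _)

end TU

theorem tu : St_TU := by
  intro E ρ hρ S σ T h c hc
  refine ⟨TU.sign h hc, TU.cov_val h hc, ?_⟩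
  change |(∑ k ∈ walls E ρ, (-gf E σ k) • cov σ k) ((sys E ρ).yv σ T c)| ≤
    (2 * (E.card : ℝ) + 2) ^ 3
  rw [LinearMap.sum_apply]
  refine (abs_sum_le_sum_abs _ _).trans ((sum_le_card_nsmul _ _ ((E.card : ℝ) ^ 2)
    fun k hk => ?_).trans ?_)
  · rw [LinearMap.smul_apply, smul_eq_mul, abs_mul, abs_neg]
    have h1 := TU.gf_le (mem_Ch.1 h.1) hk
    have h2 : |cov σ k ((sys E ρ).yv σ T c)| ≤ 1 := by
      rcases TU.cov_val h hc k with h3 | h3 | h3 <;> rw [h3] <;> norm_num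
    exact (mul_le_mul h1 h2 (abs_nonneg _) (sq_nonneg _)).trans (mul_one _).le
  · have h1 : ((walls E ρ).card : ℝ) ≤ 2 * E.card := by exact_mod_cast TU.card_walls hρ
    have h2 : (0 : ℝ) ≤ E.card := Nat.cast_nonneg _
    rw [nsmul_eq_mul]
    refine (mul_le_mul_of_nonneg_right h1 (sq_nonneg _)).trans ?_
    nlinarith [pow_nonneg h2 3, sq_nonneg (E.card : ℝ)]

end Pool.Agent.Lib.US
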