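import Pool.Agent.Lib.US.Model

/-! At most one terminal has all constraints of kind `0` tight. -/

namespace Pool.Agent.Lib.US

open Finset Pool.Agent.Lib.FL
open Pool.Agent.Lib.FL.H64 (IsRk cl Flat Cov)

namespace UNQ

variable {E : Finset ℕ} {ρ : Finset ℕ → ℕ} {C C' : ℕ → Finset ℕ} {α a a' : ℕ → ℝ}

theorem cross {f m : ℕ} (hm : f ∉ C m) :
    ∀ n, m ≤ n → f ∈ C n → ∃ j, m ≤ j ∧ j < n ∧ f ∈ C (j + 1) \ C j := by
  intro n hn
  induction n, hn using Nat.le_induction with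
  | base => exact fun h => absurd h hm
  | succ n hn ih =>
    intro h
    by_cases h' : f ∈ C n
    · obtain ⟨j, h1, h2, h3⟩ := ih h'
      exact ⟨j, h1, by omega, h3⟩
    · exact ⟨n, hn, by omega, mem_sdiff.2 ⟨h, h'⟩⟩

theorem lt_rk (h : Chain E ρ C) {i f : ℕ} (hf : f ∈ E) (hi : f ∉ C i) : i < ρ E := by
  by_contra h'
  exact hi (by rw [h.top i (not_lt.1 h')]; exact hf)

/-- the greedy chain of the weights `α`, with the level values `a` -/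
structure Good (E : Finset ℕ) (ρ : Finset ℕ → ℕ) (C : ℕ → Finset ℕ) (α a : ℕ → ℝ) : Prop where
  chain : Chain E ρ C
  le : ∀ e ∈ E, e ∉ C 0 → α e ≤ a e
  con : ∀ i, ∀ e ∈ C (i + 1) \ C i, ∀ f ∈ C (i + 1) \ C i, a e = a f
  dec : ∀ i, ∀ e ∈ C (i + 1) \ C i, ∀ f ∈ E, f ∉ C (i + 1) → a f < a e
  ex : ∀ i < ρ E, ∃ e ∈ C (i + 1) \ C i, a e = α e

theorem Good.le' (h : Good E ρ C α a) {i f : ℕ} (hf : f ∈ E) (hi : f ∉ C i) :
    α f ≤ a f :=
  h.le f hf fun h0 => hi ((H64.chain_rk h.chain.cov i (lt_rk h.chain hf hi).le).1 h0)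

theorem Good.max (h : Good E ρ C α a) {i e f : ℕ} (he : e ∈ C (i + 1) \ C i)
    (hf : f ∈ E) (hi : f ∉ C i) : α f ≤ a e := by
  refine (h.le' hf hi).trans ?_
  by_cases h1 : f ∈ C (i + 1)
  · exact (h.con i f (mem_sdiff.2 ⟨h1, hi⟩) e he).le
  · exact (h.dec i e he f hf h1).le

theorem Good.step (h : Good E ρ C α a) (h' : Good E ρ C' α a') (hρ : IsRk ρ) {i : ℕ}
    (hi : i < ρ E) (hC : C i = C' i) : C (i + 1) = C' (i + 1) := by
  obtain ⟨e, he, h1⟩ := h.ex i hi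
  obtain ⟨e', he', h2⟩ := h'.ex i hi
  have a1 := mem_sdiff.1 he
  have a2 := mem_sdiff.1 he'
  have a3 : e' ∉ C i := by rw [hC]; exact a2.2
  have a4 : e' ∈ E := h'.chain.sub _ a2.1
  have a5 := h'.max he' (h.chain.sub _ a1.1) (by rw [← hC]; exact a1.2)
  by_cases h3 : e' ∈ C (i + 1)
  · rw [← hρ.cov_eq (h.chain.cov i hi) h3 a3, ← hρ.cov_eq (h'.chain.cov i hi) a2.1 a2.2, hC]
  · have a6 := h.dec i e he e' a4 h3
    have a7 := h.le' a4 a3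
    exact absurd a6 (by linarith)

theorem Good.chain_eq (h : Good E ρ C α a) (h' : Good E ρ C' α a') (hρ : IsRk ρ) (i : ℕ) :
    C i = C' i := by
  induction i with
  | zero => rw [h.chain.bot, h'.chain.bot]
  | succ i ih =>
    rcases lt_or_ge i (ρ E) with hi | hi
    · exact h.step h' hρ hi ih
    · rw [h.chain.top _ (by omega), h'.chain.top _ (by omega)]

theorem Good.val_le (h : Good E ρ C α a) (h' : Good E ρ C α a') {e : ℕ}
    (he : e ∈ E) (h0 : e ∉ C 0) : a' e ≤ a e := by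
  obtain ⟨j, -, h2, h3⟩ := cross h0 (ρ E) (Nat.zero_le _) (by rw [h.chain.top _ le_rfl]; exact he)
  obtain ⟨e', he', h4⟩ := h'.ex j h2
  rw [h'.con j e h3 e' he', h4]
  exact h.max h3 (h.chain.sub _ (mem_sdiff.1 he').1) (mem_sdiff.1 he').2

theorem dec_of (h : Chain E ρ C) (r : ℕ → ℕ)
    (hr : ∀ i < ρ E, r (i + 1) ∈ C (i + 1) \ C i)
    (hcon : ∀ i, ∀ e ∈ C (i + 1) \ C i, ∀ f ∈ C (i + 1) \ C i, a e = a f)
    (hw : ∀ i, 1 ≤ i → i < ρ E → a (r (i + 1)) < a (r i)) :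
    ∀ i, ∀ e ∈ C (i + 1) \ C i, ∀ f ∈ E, f ∉ C (i + 1) → a f < a e := by
  intro i e he f hf hi
  obtain ⟨j, h1, h2, h3⟩ := cross hi (ρ E) (lt_rk h hf hi).le (by rw [h.top _ le_rfl]; exact hf)
  rw [hcon j f h3 _ (hr j h2), hcon i e he _ (hr i (by omega))]
  clear h3
  induction j, h1 using Nat.le_induction with
  | base => exact hw _ (by omega) h2
  | succ j hj ih => exact (hw _ (by omega) h2).trans (ih (by omega))

theorem rep_mem {σ : ℕ × ℕ → Finset ℕ} {j : ℕ} (h : Chain E ρ (ch σ j)) :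
    ∀ i < ρ E, rep σ j (i + 1) ∈ ch σ j (i + 1) \ ch σ j i := by
  intro i hi
  obtain ⟨e, h1, h2⟩ := exists_mem_notMem_of_card_lt_card (h.cov i hi).card_lt
  exact mem_sdiff.2 (Nat.sInf_mem (s := {e | e ∈ ch σ j (i + 1) ∧ e ∉ ch σ j (i + 1 - 1)})
    ⟨e, h1, h2⟩)

theorem mem_walls {c : ℕ × ℕ} : c ∈ walls E ρ ↔
    (c.1 = 3 ∧ 1 ≤ c.2 ∧ c.2 < rs E ρ 0 E) ∨ (c.1 = 4 ∧ 1 ≤ c.2 ∧ c.2 < rs E ρ 1 E) := by
  simp only [walls, mem_union, mem_product, mem_singleton, mem_Ico]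

theorem mem_cons {c : ℕ × ℕ} : c ∈ cons E ρ ↔ (c.1 = 0 ∧ c.2 ∈ E) ∨
    (c.1 = 1 ∧ c.2 ∈ E ∧ c.2 ∉ cl (rs E ρ 0) E ∅) ∨
      (c.1 = 2 ∧ c.2 ∈ E ∧ c.2 ∉ cl (rs E ρ 1) E ∅) := by
  simp only [cons, mem_union, mem_product, mem_singleton, mem_sdiff, or_assoc]

variable {θ : ℕ × ℕ → ℝ} {σ : ℕ × ℕ → Finset ℕ} {T : Finset (ℕ × ℕ)}

theorem ends0 (e : ℕ) : ends σ (0, e) = ((5, 0), (2, e)) := rfl

theorem ends1 (e : ℕ) : ends σ (1, e) = ((2, e), (0, e)) := rfl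

theorem ends2 (e : ℕ) : ends σ (2, e) = ((1, e), (2, e)) := rfl

theorem ends3 (i : ℕ) : ends σ (3, i) = ((0, rep σ 0 (i + 1)), (0, rep σ 0 i)) := rfl

theorem ends4 (i : ℕ) : ends σ (4, i) = ((1, rep σ 1 i), (1, rep σ 1 (i + 1))) := rfl

theorem th_cons {t e : ℕ} (ht : t < 3) : (sys E ρ).th θ (t, e) = θ (t, e) :=
  if_neg fun h => by
    have := mem_walls.1 h
    omega

theorem sub_cons (h : (sys E ρ).Vx θ σ T) (h0 : T ∩ (sys E ρ).Kw = ∅) {c : ℕ × ℕ} (hc : c ∈ T) :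
    c ∈ cons E ρ := by
  rcases Sys.mem_Cn.1 (h.1.2.1 hc) with h1 | h1
  · exact absurd (mem_inter.2 ⟨hc, h1⟩) (by rw [h0]; exact notMem_empty _)
  · exact h1

theorem wall_lt (h : (sys E ρ).Vx θ σ T) (h0 : T ∩ (sys E ρ).Kw = ∅) {k : ℕ × ℕ}
    (hk : k ∈ walls E ρ) : cov σ k ((sys E ρ).pt θ σ T) < 0 := by
  have h1 := h.2 k (Sys.mem_Cn.2 (Or.inl hk)) fun hT =>
    notMem_empty k (h0 ▸ (mem_inter.2 ⟨hT, hk⟩ : k ∈ T ∩ (sys E ρ).Kw))
  have h2 : (sys E ρ).th θ k = 0 := if_pos hk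
  unfold Sys.sl at h1
  rw [h2, zero_sub, neg_pos] at h1
  exact h1

/-- every level carries a tight constraint -/
theorem pin (hρ : IsRk ρ) (h : (sys E ρ).Vx θ σ T) (h0 : T ∩ (sys E ρ).Kw = ∅) {j i : ℕ}
    (hj : j < 2) (hi : i < rs E ρ j E) : ∃ e ∈ ch σ j (i + 1) \ ch σ j i, (j + 1, e) ∈ T := by
  by_contra hn
  have hc := (mem_Ch.1 h.1.1).chain j hj
  have hr : IsRk (rs E ρ j) := by
    unfold rs
    split_ifs
    · exact hρ
    · exact hρ.isRk_dual E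
  have mono : ∀ m n, m ≤ n → ch σ j m ⊆ ch σ j n := fun m n hmn => by
    induction n, hmn using Nat.le_induction with
    | base => exact Subset.rfl
    | succ n _ ih =>
      rcases lt_or_ge n (rs E ρ j E) with h1 | h1
      · exact ih.trans (hc.cov n h1).2.2.1
      · rw [hc.top (n + 1) (by omega)]; exact hc.sub m
  have lev : ∀ m, ∀ e ∈ ch σ j (m + 1) \ ch σ j m, e ∈ ch σ j (i + 1) \ ch σ j i → m = i := by
    intro m e h1 h2
    rw [mem_sdiff] at h1 h2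
    rcases lt_trichotomy m i with h3 | h3 | h3
    · exact absurd (mono _ _ h3 h1.1) h2.2
    · exact h3
    · exact absurd (mono _ _ h3 h2.1) h1.2
  have := h.1.frame.eq_zero
    (v := fun x => if x.1 = j ∧ x.2 ∈ ch σ j (i + 1) \ ch σ j i then 1 else 0)
    ⟨fun j' _ m e he f hf => ?_, fun j' _ e he => ?_, fun e _ => ?_, fun t e ht => ?_⟩
    fun c hcT => ?_
  · have h1 := congrFun this (j, rep σ j (i + 1))
    rw [if_pos ⟨rfl, rep_mem hc i hi⟩] at h1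
    exact one_ne_zero h1
  · refine if_congr ⟨?_, ?_⟩ rfl rfl
    · rintro ⟨rfl, h1⟩
      exact ⟨rfl, by rw [← lev m e he h1]; exact hf⟩
    · rintro ⟨rfl, h1⟩
      exact ⟨rfl, by rw [← lev m f hf h1]; exact he⟩
  · refine if_neg ?_
    rintro ⟨rfl, h1⟩
    exact he (mem_sdiff.2 ⟨hc.sub _ (mem_sdiff.1 h1).1,
      fun h2 => (mem_sdiff.1 h1).2 (mono 0 i (Nat.zero_le _) h2)⟩)
  · exact if_neg fun h1 => by omega
  · exact if_neg fun h1 => by omega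
  · obtain ⟨t, e⟩ := c
    have h2 : ¬(t = j + 1 ∧ e ∈ ch σ j (i + 1) \ ch σ j i) := by
      rintro ⟨rfl, h1⟩
      exact hn ⟨e, h1, hcT⟩
    change cov σ (t, e) _ = 0
    rw [cov_apply]
    rcases mem_cons.1 (sub_cons h h0 hcT) with ⟨h1, -⟩ | ⟨h1, -⟩ | ⟨h1, -⟩
    · obtain rfl : t = 0 := h1
      rw [ends0, if_neg (fun h3 => by have := h3.1; dsimp only at this; omega),
        if_neg (fun h3 => by have := h3.1; dsimp only at this; omega), sub_self]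
    · obtain rfl : t = 1 := h1
      rw [ends1, if_neg (fun h3 => by have := h3.1; dsimp only at this; omega),
        if_neg (fun h3 => h2 ⟨by have := h3.1; dsimp only at this; omega, h3.2⟩), sub_self]
    · obtain rfl : t = 2 := h1
      rw [ends2, if_neg (fun h3 => h2 ⟨by have := h3.1; dsimp only at this; omega, h3.2⟩),
        if_neg (fun h3 => by have := h3.1; dsimp only at this; omega), sub_self]

theorem s_eq (h : (sys E ρ).Vx θ σ T) (hT : ∀ e ∈ E, (0, e) ∈ T) {e : ℕ} (he : e ∈ E) :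
    (sys E ρ).pt θ σ T (2, e) = -θ (0, e) := by
  have h1 := h.1.pt_tight (θ := θ) (hT e he)
  have h2 : (sys E ρ).pt θ σ T (5, 0) = 0 := (h.1.pt_mem (θ := θ)).2.2.2 5 0 (by norm_num)
  rw [th_cons (by norm_num)] at h1
  change cov σ (0, e) _ = _ at h1
  rw [cov_apply, ends0, h2] at h1
  linarith

theorem L1 (h : (sys E ρ).Vx θ σ T) (hT : ∀ e ∈ E, (0, e) ∈ T) {e : ℕ} (he : e ∈ E) :
    (sys E ρ).L σ (1, e) ((sys E ρ).pt θ σ T) = -θ (0, e) - (sys E ρ).pt θ σ T (0, e) := by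
  change cov σ (1, e) _ = _
  rw [cov_apply, ends1, s_eq h hT he]

theorem L2 (h : (sys E ρ).Vx θ σ T) (hT : ∀ e ∈ E, (0, e) ∈ T) {e : ℕ} (he : e ∈ E) :
    (sys E ρ).L σ (2, e) ((sys E ρ).pt θ σ T) = (sys E ρ).pt θ σ T (1, e) + θ (0, e) := by
  change cov σ (2, e) _ = _
  rw [cov_apply, ends2, s_eq h hT he, sub_neg_eq_add]

theorem good0 (hρ : IsRk ρ) (h : (sys E ρ).Vx θ σ T) (h0 : T ∩ (sys E ρ).Kw = ∅)
    (hT : ∀ e ∈ E, (0, e) ∈ T) : Good E (rs E ρ 0) (ch σ 0) (fun e => -θ (0, e) - θ (1, e))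
      fun e => (sys E ρ).pt θ σ T (0, e) := by
  have hc := (mem_Ch.1 h.1.1).chain 0 (by norm_num)
  have hcon := (h.1.pt_mem (θ := θ)).1 0 (by norm_num)
  refine ⟨hc, fun e he h1 => ?_, hcon, dec_of hc (rep σ 0) (rep_mem hc) hcon fun i h1 h2 => ?_,
    fun i hi => ?_⟩
  · have h2 := h.le (d := (1, e)) (Sys.mem_Cn.2 (Or.inr (mem_cons.2
      (Or.inr (Or.inl ⟨rfl, he, by rw [← hc.bot]; exact h1⟩)))))
    rw [th_cons (by norm_num), L1 h hT he] at h2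
    linarith
  · have h3 := wall_lt h h0 (k := (3, i)) (mem_walls.2 (Or.inl ⟨rfl, h1, h2⟩))
    rw [cov_apply, ends3] at h3
    linarith
  · obtain ⟨e, he, h1⟩ := pin hρ h h0 (by norm_num : 0 < 2) hi
    have h2 := h.1.pt_tight (θ := θ) h1
    rw [zero_add, th_cons (by norm_num), L1 h hT (hc.sub _ (mem_sdiff.1 he).1)] at h2
    exact ⟨e, he, by linarith⟩

theorem good1 (hρ : IsRk ρ) (h : (sys E ρ).Vx θ σ T) (h0 : T ∩ (sys E ρ).Kw = ∅)
    (hT : ∀ e ∈ E, (0, e) ∈ T) : Good E (rs E ρ 1) (ch σ 1) (fun e => θ (0, e) - θ (2, e))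
      fun e => -(sys E ρ).pt θ σ T (1, e) := by
  have hc := (mem_Ch.1 h.1.1).chain 1 (by norm_num)
  have hcon : ∀ i, ∀ e ∈ ch σ 1 (i + 1) \ ch σ 1 i, ∀ f ∈ ch σ 1 (i + 1) \ ch σ 1 i,
      -(sys E ρ).pt θ σ T (1, e) = -(sys E ρ).pt θ σ T (1, f) := fun i e he f hf => by
    rw [(h.1.pt_mem (θ := θ)).1 1 (by norm_num) i e he f hf]
  refine ⟨hc, fun e he h1 => ?_, hcon, dec_of hc (rep σ 1) (rep_mem hc) hcon fun i h1 h2 => ?_,
    fun i hi => ?_⟩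
  · have h2 := h.le (d := (2, e)) (Sys.mem_Cn.2 (Or.inr (mem_cons.2
      (Or.inr (Or.inr ⟨rfl, he, by rw [← hc.bot]; exact h1⟩)))))
    rw [th_cons (by norm_num), L2 h hT he] at h2
    linarith
  · have h3 := wall_lt h h0 (k := (4, i)) (mem_walls.2 (Or.inr ⟨rfl, h1, h2⟩))
    rw [cov_apply, ends4] at h3
    linarith
  · obtain ⟨e, he, h1⟩ := pin hρ h h0 (by norm_num : 1 < 2) hi
    have h2 := h.1.pt_tight (θ := θ) h1
    rw [one_add_one_eq_two, th_cons (by norm_num), L2 h hT (hc.sub _ (mem_sdiff.1 he).1)] at h2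
    exact ⟨e, he, by linarith⟩

theorem tight_sub (hρ : IsRk ρ) {T' : Finset (ℕ × ℕ)} (h : (sys E ρ).Vx θ σ T)
    (h0 : T ∩ (sys E ρ).Kw = ∅) (hT : ∀ e ∈ E, (0, e) ∈ T) (h' : (sys E ρ).Vx θ σ T')
    (h0' : T' ∩ (sys E ρ).Kw = ∅) (hT' : ∀ e ∈ E, (0, e) ∈ T') : T ⊆ T' := by
  rintro ⟨t, e⟩ hc
  by_contra hn
  have h1 := h'.2 _ (h.1.2.1 hc) hn
  have h2 := h.1.pt_tight (θ := θ) hc
  unfold Sys.sl at h1
  rcases mem_cons.1 (sub_cons h h0 hc) with ⟨h3, he⟩ | ⟨h3, he, h4⟩ | ⟨h3, he, h4⟩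
  · obtain rfl : t = 0 := h3
    exact hn (hT' e he)
  · obtain rfl : t = 1 := h3
    have g := good0 hρ h h0 hT
    have h5 := g.val_le (good0 hρ h' h0' hT') he (by rw [g.chain.bot]; exact h4)
    rw [L1 h hT he] at h2
    rw [L1 h' hT' he] at h1
    dsimp only at h5
    linarith
  · obtain rfl : t = 2 := h3
    have g := good1 hρ h h0 hT
    have h5 := g.val_le (good1 hρ h' h0' hT') he (by rw [g.chain.bot]; exact h4)
    rw [L2 h hT he] at h2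
    rw [L2 h' hT' he] at h1
    dsimp only at h5
    linarith

end UNQ

theorem unq : St_UNQ := by
  rintro E ρ hρ θ ⟨σ, T⟩ hv ⟨σ', T'⟩ hv' hT hT'
  obtain ⟨h, h0⟩ := Sys.mem_VJ.1 hv
  obtain ⟨h', h0'⟩ := Sys.mem_VJ.1 hv'
  rw [card_eq_zero] at h0 h0'
  obtain rfl : σ = σ' := by
    funext ⟨t, i⟩
    by_cases h3 : t = 3
    · subst h3
      exact (UNQ.good0 hρ h h0 hT).chain_eq (UNQ.good0 hρ h' h0' hT') hρ i
    · by_cases h4 : t = 4
      · subst h4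
        exact (UNQ.good1 hρ h h0 hT).chain_eq (UNQ.good1 hρ h' h0' hT') (hρ.isRk_dual E) i
      · exact ((mem_Ch.1 h.1.1).junk t i h3 h4).trans ((mem_Ch.1 h'.1.1).junk t i h3 h4).symm
  exact congrArg _ (Subset.antisymm (UNQ.tight_sub hρ h h0 hT h' h0' hT')
    (UNQ.tight_sub hρ h' h0' hT' h h0 hT))

end Pool.Agent.Lib.US
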