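import Pool.Agent.Lib.US.Asm13
import Pool.Agent.Lib.US.B_SWEEP
import Pool.Agent.Lib.US.B_AX1
import Pool.Agent.Lib.US.B_TU
import Pool.Agent.Lib.US.B_BAL
import Pool.Agent.Lib.US.B_FAR
import Pool.Agent.Lib.US.B_ADJ
import Pool.Agent.Lib.US.B_AX
import Pool.Agent.Lib.US.B_UNQ
import Pool.Agent.Lib.US.B_CON
import Pool.Agent.Lib.US.B_DC
import Pool.Agent.Lib.US.B_REC

/-! The model layer, assembled. -/

namespace Pool.Agent.Lib.US

theorem all_SWEEP : St_SWEEP := sweep gen cnt1 cnt2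
theorem all_AX : St_AX := ax ax1 tu bal (far bal ax1) (adj bal ax1)
theorem all_CON : St_CON := con all_AX gp conn unq
theorem all_DC : St_DC := dc tu ax1 all_AX all_INV2
theorem all_REC : St_REC := rec79 all_DC

end Pool.Agent.Lib.US
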