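import Pool.Agent.Lib.US.Mod60

/-! The darts at a node. -/

namespace Pool.Agent.Lib.US

open Finset Pool.Agent.Lib.FL
open Pool.Agent.Lib.FL.H64 (IsRk cl Flat Cov)

section
variable {ι X V : Type} [DecidableEq ι] [Inhabited X] [AddCommGroup V] [Module ℝ V]
  {S : Sys ι X V} {θ : ι → ℝ} {σ : ι → X} {T : Finset ι} {k : ι}

open Classical in
/-- the darts at a terminal; `A` is any finite set with the stated members -/
theorem sum_at_tm (h : S.Vx θ σ T) (h0 : T ∩ S.Kw = ∅) {A : Finset (((ι → X) × Finset ι) × ι)}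
    (hA : ∀ d, d ∈ A ↔ d ∈ S.Db θ 0 ∧ S.key d.1.1 d.1.2 = S.key σ T)
    (F : ((ι → X) × Finset ι) × ι → ℝ) :
    ∑ d ∈ A, F d = ∑ c ∈ T, if (S.cand σ T c).Nonempty then F ((σ, T), c) else 0 := by
  rw [← sum_filter]
  have key : ∀ d ∈ A, d = ((σ, T), d.2) := by
    rintro ⟨⟨τ, T'⟩, c⟩ hd
    have h1 := ((hA _).1 hd).2
    obtain rfl : T' = T := congrArg Prod.snd h1
    have h2 : τ = σ := funext fun j => by
      have := congrFun (congrArg Prod.fst h1) j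
      have h3 : ¬(j ∈ T' ∧ j ∈ S.Kw) := fun hj => notMem_empty j (h0 ▸ mem_inter.2 hj)
      simpa only [Sys.key, if_neg h3] using this
    rw [h2]
  refine sum_nbij' (fun d => d.2) (fun c => ((σ, T), c)) (fun d hd => ?_) (fun c hc => ?_)
    (fun d hd => (key d hd).symm) (fun _ _ => rfl) fun d hd => congrArg F (key d hd)
  · have h1 := ((hA _).1 hd).1
    rw [key d hd] at h1
    exact mem_filter.2 ⟨(Sys.mem_Dt.1 (Sys.mem_Db.1 h1).1).2.1, (Sys.mem_Db.1 h1).2⟩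
  · refine (hA _).2 ⟨Sys.mem_Db.2 ⟨Sys.mem_Dt.2 ⟨h, (mem_filter.1 hc).1, ?_⟩, (mem_filter.1 hc).2⟩,
      rfl⟩
    rw [erase_inter, h0]
    rfl

open Classical in
/-- the darts at a node on a wall -/
theorem sum_at_wall (hS : S.Ax) (h : S.Vx θ σ T) (h0 : T ∩ S.Kw = {k})
    {A : Finset (((ι → X) × Finset ι) × ι)}
    (hA : ∀ d, d ∈ A ↔ d ∈ S.Db θ 0 ∧ S.key d.1.1 d.1.2 = S.key σ T)
    (F : ((ι → X) × Finset ι) × ι → ℝ) :
    ∑ d ∈ A, F d = ∑ τ ∈ S.Nb k σ, if (S.cand τ T k).Nonempty then F ((τ, T), k) else 0 := by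
  rw [← sum_filter]
  have hk : k ∈ T ∩ S.Kw := h0 ▸ mem_singleton_self k
  have key : ∀ d ∈ A, d = ((d.1.1, T), k) ∧ d.1.1 ∈ S.Nb k σ := by
    rintro ⟨⟨τ, T'⟩, c⟩ hd
    obtain ⟨h1, h2⟩ := (hA _).1 hd
    obtain rfl : T' = T := congrArg Prod.snd h2
    obtain ⟨h3, -, h4⟩ := Sys.mem_Dt.1 (Sys.mem_Db.1 h1).1
    rw [erase_inter, h0, card_eq_zero] at h4
    obtain rfl : k = c := by_contra fun h5 =>
      notMem_empty k (h4 ▸ mem_erase.2 ⟨h5, mem_singleton_self k⟩)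
    refine ⟨rfl, Sys.mem_Nb.2 ⟨h3.1.1, fun j hj => ?_⟩⟩
    have := congrFun (congrArg Prod.fst h2) j
    have h5 : ¬(j ∈ T' ∧ j ∈ S.Kw) := fun h6 => hj (mem_singleton.1 (h0 ▸ mem_inter.2 h6))
    simpa only [Sys.key, if_neg h5] using this
  refine sum_nbij' (fun d => d.1.1) (fun τ => ((τ, T), k)) (fun d hd => ?_) (fun τ hτ => ?_)
    (fun d hd => (key d hd).1.symm) (fun _ _ => rfl) fun d hd => congrArg F (key d hd).1
  · have h1 := ((hA _).1 hd).1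
    rw [(key d hd).1] at h1
    exact mem_filter.2 ⟨(key d hd).2, (Sys.mem_Db.1 h1).2⟩
  · obtain ⟨h1, h2, -⟩ := Sys.sheet1 hS (mem_inter.1 hk).2 (mem_inter.1 hk).1 h (mem_filter.1 hτ).1
    refine (hA _).2 ⟨Sys.mem_Db.2 ⟨Sys.mem_Dt.2 ⟨h1, (mem_inter.1 hk).1, ?_⟩, (mem_filter.1 hτ).2⟩,
      h2⟩
    rw [erase_inter, h0, erase_singleton]
    rfl

end

variable {E : Finset ℕ} {ρ : Finset ℕ → ℕ} {σ : ℕ × ℕ → Finset ℕ} {j i : ℕ}

open Classical in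
/-- the sheets at a wall, listed by the least element of the new level -/
theorem sum_sheets (hρ : IsRk ρ) (h : IsCone E ρ σ) (hj : j < 2) (h1 : 1 ≤ i) (h2 : i < rs E ρ j E)
    (f : (ℕ × ℕ → Finset ℕ) → ℝ) :
    ∑ τ ∈ (sys E ρ).Nb (3 + j, i) σ, f τ = ∑ e ∈ E,
      if e ∈ ch σ j (i + 1) ∧ e ∉ ch σ j (i - 1) ∧ ∀ g ∈ cl (rs E ρ j) E (insert e (ch σ j (i - 1))),
          g ∉ ch σ j (i - 1) → e ≤ g then
        f (Function.update σ (3 + j, i) (cl (rs E ρ j) E (insert e (ch σ j (i - 1))))) else 0 := by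
  have hr := isRk_rs hρ (E := E) j
  have c1 := (h.chain j hj).cov (i - 1) (by omega)
  have c2 := (h.chain j hj).cov i h2
  rw [show i - 1 + 1 = i by omega] at c1
  rw [sum_Nb h hj h1 h2, ← sum_filter]
  symm
  refine sum_nbij (fun e => cl (rs E ρ j) E (insert e (ch σ j (i - 1)))) (fun e he => ?_)
    (fun e he e' he' hh => ?_) (fun P hP => ?_) fun _ _ => rfl
  · obtain ⟨a1, a2, a3, -⟩ := mem_filter.1 he
    have a4 := hr.cov_cl c1.1 a1 a3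
    refine mem_mid.2 ⟨a4, a4.2.1, c2.2.1, hr.cl_min c2.2.1
      (insert_subset a2 (c1.2.2.1.trans c2.2.2.1)), ?_⟩
    rw [c2.2.2.2, a4.2.2.2, c1.2.2.2]
  · obtain ⟨a1, -, a3, a4⟩ := mem_filter.1 (mem_coe.1 he)
    obtain ⟨b1, -, b3, b4⟩ := mem_filter.1 (mem_coe.1 he')
    simp only at hh
    exact le_antisymm
      (a4 e' (hh ▸ H64.subset_cl (insert_subset b1 c1.1.1) (mem_insert_self _ _)) b3)
      (b4 e (hh ▸ H64.subset_cl (insert_subset a1 c1.1.1) (mem_insert_self _ _)) a3)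
  · obtain ⟨a1, a2⟩ := mem_mid.1 (mem_coe.1 hP)
    obtain ⟨e, he, hm⟩ := exists_min_image (P \ ch σ j (i - 1)) id
      (by rw [← card_pos, card_sdiff_of_subset a1.2.2.1]; have := a1.card_lt; omega)
    obtain ⟨b1, b2⟩ := mem_sdiff.1 he
    have b3 := hr.cov_eq a1 b1 b2
    exact ⟨e, mem_coe.2 (mem_filter.2 ⟨a1.2.1.1 b1, a2.2.2.1 b1, b2, fun g hg hg' =>
      hm g (mem_sdiff.2 ⟨b3 ▸ hg, hg'⟩)⟩), b3⟩

end Pool.Agent.Lib.US
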