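import Pool.Agent.Lib.US.Blue

/-! A generic functional in which a given set of constraints dominates. -/

namespace Pool.Agent.Lib.US

open Finset

/-- rapidly growing weights: every nontrivial signed sum is large -/
theorem H76.dom {ι : Type} [DecidableEq ι] (C : Finset ι) (H : ℝ) :
    ∃ p : ι → ℝ, (∀ c ∈ C, H < p c) ∧ ∀ κ : ι → ℝ, (∀ c ∈ C, κ c = 0 ∨ κ c = 1 ∨ κ c = -1) →
      (∃ c ∈ C, κ c ≠ 0) → H < |∑ c ∈ C, κ c * p c| := by
  induction C using Finset.induction_on with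
  | empty => exact ⟨0, by simp, by simp⟩
  | insert a C ha ih =>
    obtain ⟨p, h1, h2⟩ := ih
    have hne : ∀ c ∈ C, c ≠ a := fun c hc h => ha (h ▸ hc)
    have hs : 0 ≤ ∑ c ∈ C, |p c| := sum_nonneg fun c _ => abs_nonneg _
    refine ⟨Function.update p a (|H| + 1 + ∑ c ∈ C, |p c|), ?_, ?_⟩
    · intro c hc
      rcases mem_insert.1 hc with rfl | hc
      · rw [Function.update_self]
        linarith [le_abs_self H]
      · rw [Function.update_of_ne (hne c hc)]
        exact h1 c hc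
    · intro κ hκ hex
      have e0 : ∑ c ∈ C, κ c * Function.update p a (|H| + 1 + ∑ c ∈ C, |p c|) c =
          ∑ c ∈ C, κ c * p c := sum_congr rfl fun c hc => by rw [Function.update_of_ne (hne c hc)]
      rw [sum_insert ha, Function.update_self, e0]
      have hb : |∑ c ∈ C, κ c * p c| ≤ ∑ c ∈ C, |p c| := by
        refine (abs_sum_le_sum_abs _ _).trans (sum_le_sum fun c hc => ?_)
        rcases hκ c (mem_insert_of_mem hc) with h | h | h <;> simp [h]
      have hb' := abs_le.1 hb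
      rcases hκ a (mem_insert_self a C) with h | h | h
      · rw [h, zero_mul, zero_add]
        refine h2 κ (fun c hc => hκ c (mem_insert_of_mem hc)) ?_
        obtain ⟨c, hc, hc0⟩ := hex
        rcases mem_insert.1 hc with rfl | hc
        · exact absurd h hc0
        · exact ⟨c, hc, hc0⟩
      · rw [h]
        exact lt_abs.2 (Or.inl (by linarith [le_abs_self H, hb'.1]))
      · rw [h]
        exact lt_abs.2 (Or.inr (by linarith [le_abs_self H, hb'.2]))

theorem H76.abs_sum_le {ι : Type} (C : Finset ι) (κ p : ι → ℝ)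
    (hκ : ∀ c ∈ C, κ c = 0 ∨ κ c = 1 ∨ κ c = -1) : |∑ c ∈ C, κ c * p c| ≤ ∑ c ∈ C, |p c| := by
  refine (abs_sum_le_sum_abs _ _).trans (sum_le_sum fun c hc => ?_)
  rcases hκ c hc with h | h | h <;> simp [h]

theorem gp : St_GP := by
  intro ι X V _ _ _ S hA H hH
  obtain ⟨p1, h1, h1'⟩ := H76.dom (S.Cc \ H) 0
  obtain ⟨p2, h2, h2'⟩ := H76.dom H (∑ d ∈ S.Cc \ H, |p1 d|)
  have hs : 0 ≤ ∑ d ∈ S.Cc \ H, |p1 d| := sum_nonneg fun c _ => abs_nonneg _
  have e1 : ∀ c ∈ S.Cc \ H, (if c ∈ H then p2 c else p1 c) = p1 c := fun c hc =>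
    if_neg (mem_sdiff.1 hc).2
  refine ⟨fun c => if c ∈ H then p2 c else p1 c, ⟨fun c hc => ?_, fun σ T hB c hc => ?_⟩,
    fun c hc => ?_⟩
  · by_cases h : c ∈ H
    · simp only [if_pos h]
      exact hs.trans_lt (h2 c h)
    · simp only [if_neg h]
      exact h1 c (mem_sdiff.2 ⟨hc, h⟩)
  · have hκ : ∀ e ∈ S.Cc, S.L σ e (S.yv σ T c) = 0 ∨ S.L σ e (S.yv σ T c) = 1 ∨
        S.L σ e (S.yv σ T c) = -1 := fun e he => hA.tu σ T hB c hc e (Sys.mem_Cn.2 (Or.inr he))
    have hex : ∃ e ∈ S.Cc, S.L σ e (S.yv σ T c) ≠ 0 := by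
      by_contra h
      push Not at h
      have h0 := hA.pointed σ hB.1 _ (hB.frame.mem c hc) h
      have h3 := hB.frame.dual c hc c hc
      rw [if_pos rfl, h0, map_zero] at h3
      exact zero_ne_one h3
    have hsplit : S.ph (fun c => if c ∈ H then p2 c else p1 c) σ T c =
        ∑ e ∈ S.Cc \ H, S.L σ e (S.yv σ T c) * p1 e + ∑ e ∈ H, S.L σ e (S.yv σ T c) * p2 e := by
      unfold Sys.ph
      rw [← sum_sdiff hH]
      congr 1
      · exact sum_congr rfl fun e he => by beta_reduce; rw [e1 e he, mul_comm]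
      · exact sum_congr rfl fun e he => by beta_reduce; rw [if_pos he, mul_comm]
    rw [hsplit]
    by_cases h : ∃ e ∈ H, S.L σ e (S.yv σ T c) ≠ 0
    · have h3 := h2' (fun e => S.L σ e (S.yv σ T c)) (fun e he => hκ e (hH he)) h
      have h4 := H76.abs_sum_le (S.Cc \ H) (fun e => S.L σ e (S.yv σ T c)) p1
        fun e he => hκ e (mem_sdiff.1 he).1
      intro h0
      rw [add_eq_zero_iff_eq_neg.1 h0, abs_neg] at h4
      exact absurd h3 (not_lt.2 h4)
    · push Not at h
      rw [sum_eq_zero (s := H) fun e he => by rw [h e he, zero_mul], add_zero]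
      obtain ⟨e, he, he0⟩ := hex
      exact abs_pos.1 (h1' (fun e => S.L σ e (S.yv σ T c)) (fun e he => hκ e (mem_sdiff.1 he).1)
        ⟨e, mem_sdiff.2 ⟨he, fun h' => he0 (h e h')⟩, he0⟩)
  · simp only [if_pos hc]
    rw [sum_congr rfl e1]
    exact (sum_le_sum fun d _ => le_abs_self (p1 d)).trans_lt (h2 c hc)

end Pool.Agent.Lib.US
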