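import Pool.Agent.Lib.US.A80
import Pool.Agent.Lib.US.B_BAL

/-! The list of the darts at a node. -/

namespace Pool.Agent.Lib.US.A80

open Finset Pool.Agent.Lib.FL
open Pool.Agent.Lib.FL.H64 (IsRk cl Flat Cov)

namespace DS

theorem mem_prd {α β : Type} {A : List α} {B : List β} {p : α × β} :
    p ∈ prd A B ↔ p.1 ∈ A ∧ p.2 ∈ B := by
  obtain ⟨a, b⟩ := p
  exact List.pair_mem_product

theorem nodup_prd {α β : Type} {A : List α} {B : List β} (hA : A.Nodup) (hB : B.Nodup) :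
    (prd A B).Nodup := List.Nodup.product hA hB

variable {m : ℕ} {ρ : Finset ℕ → ℕ} {θ : Ix → ℝ} {σ : Cone} {T : Finset Ix} {c : Ix} {e : ℕ}

theorem mem_dl {s : Key} {p : Ix × ℕ} : p ∈ dl m ρ s ↔ ((p.1.1 < 5 ∧ p.1.2 < m) ∧ p.2 < m) ∧
    p.1 ∈ s.2 ∧ Disjoint (s.2.erase p.1) (walls (range m) ρ) ∧ okE m ρ s.1 p.1 p.2 ∧
      (cdN m ρ (sh m ρ s.1 p.1 p.2) s.2 p.1).Nonempty := by
  simp only [dl, List.mem_filter, decide_eq_true_eq, mem_prd, CL, List.mem_range]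

theorem cn_lt (hρ : IsRk ρ) (hc : c ∈ (sys (range m) ρ).Cn) : c.1 < 5 ∧ c.2 < m := by
  rcases Sys.mem_Cn.1 hc with h | h
  · obtain ⟨j, hj, i, -, h2, rfl⟩ := mem_walls.1 h
    have := rs_le (E := range m) hρ j
    rw [card_range] at this
    exact ⟨by simp only; omega, by simp only; omega⟩
  · obtain ⟨h1, h2⟩ := mem_cons.1 h
    exact ⟨by omega, mem_range.1 h1⟩

theorem key_ne (hD : Disjoint (T.erase c) (walls (range m) ρ)) {x : Ix}
    (hx : x ≠ c ∨ c ∉ walls (range m) ρ) : ((sys (range m) ρ).key σ T).1 x = σ x := by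
  refine if_neg ?_
  rintro ⟨h1, h2⟩
  by_cases e : x = c
  · rcases hx with hx | hx
    · exact hx e
    · exact hx (e ▸ h2)
  · exact disjoint_left.1 hD (mem_erase.2 ⟨e, h1⟩) h2

theorem sh_non (hD : Disjoint (T.erase c) (walls (range m) ρ)) (hc : c ∉ walls (range m) ρ) :
    sh m ρ ((sys (range m) ρ).key σ T).1 c e = σ := by
  rw [sh, if_neg hc]
  exact funext fun x => key_ne hD (Or.inr hc)

theorem shP_wall {j i : ℕ} (h1 : 1 ≤ i) (hD : Disjoint (T.erase (3 + j, i)) (walls (range m) ρ)) :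
    shP m ρ ((sys (range m) ρ).key σ T).1 (3 + j, i) e =
      cl (rs (range m) ρ j) (range m) (insert e (ch σ j (i - 1))) := by
  rw [shP, key_ne hD (Or.inl fun h => by have := (Prod.mk.inj h).2; omega)]
  simp only [Nat.add_sub_cancel_left, ch]

theorem sh_wall (hD : Disjoint (T.erase c) (walls (range m) ρ)) (hc : c ∈ walls (range m) ρ) :
    sh m ρ ((sys (range m) ρ).key σ T).1 c e =
      Function.update σ c (shP m ρ ((sys (range m) ρ).key σ T).1 c e) := by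
  rw [sh, if_pos hc]
  funext x
  by_cases h : x = c
  · rw [h, Function.update_self, Function.update_self]
  · rw [Function.update_of_ne h, Function.update_of_ne h, key_ne hD (Or.inl h)]

theorem okE_wall {j i : ℕ} (h1 : 1 ≤ i) (hD : Disjoint (T.erase (3 + j, i)) (walls (range m) ρ))
    (hc : (3 + j, i) ∈ walls (range m) ρ) :
    okE m ρ ((sys (range m) ρ).key σ T).1 (3 + j, i) e ↔ e ∈ ch σ j (i + 1) ∧ e ∉ ch σ j (i - 1) ∧
      ∀ f ∈ cl (rs (range m) ρ j) (range m) (insert e (ch σ j (i - 1))),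
        f ∈ ch σ j (i - 1) ∨ e ≤ f := by
  rw [okE, if_pos hc, shP_wall h1 hD,
    key_ne hD (Or.inl fun h => by have := (Prod.mk.inj h).2; omega),
    key_ne hD (Or.inl fun h => by have := (Prod.mk.inj h).2; omega)]
  rfl

/-- a name gives a sheet -/
theorem sheet_of (hρ : IsRk ρ) (hA : (sys (range m) ρ).Ax) (hv : (sys (range m) ρ).Vx θ σ T)
    (hc : c ∈ T) (hD : Disjoint (T.erase c) (walls (range m) ρ))
    (ho : okE m ρ ((sys (range m) ρ).key σ T).1 c e) :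
    (sys (range m) ρ).Vx θ (sh m ρ ((sys (range m) ρ).key σ T).1 c e) T ∧
      (sys (range m) ρ).key (sh m ρ ((sys (range m) ρ).key σ T).1 c e) T =
        (sys (range m) ρ).key σ T := by
  by_cases hw : c ∈ walls (range m) ρ
  · obtain ⟨j, hj, i, h1, h2, rfl⟩ := mem_walls.1 hw
    obtain ⟨a1, a2, -⟩ := (okE_wall h1 hD hw).1 ho
    have h := mem_Ch.1 hv.1.1
    have hch := h.chain j hj
    have hr := isRk_rs (E := range m) hρ j
    have b1 := hr.cov_cl (hch.flat (i - 1)) (hch.sub _ a1) a2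
    have hP : cl (rs (range m) ρ j) (range m) (insert e (ch σ j (i - 1))) ∈
        mid (range m) ρ σ j i := by
      refine mem_mid.2 ⟨b1, b1.2.1, hch.flat _, hr.cl_min (hch.flat _)
        (insert_subset a1 (hch.mono (by omega))), ?_⟩
      rw [b1.2.2.2, (hch.cov i h2).2.2.2, (cov_lo h hj h1 h2).2.2.2]
    rw [sh_wall hD hw, shP_wall h1 hD]
    have := Sys.sheet1 hA hw hc hv (Sys.mem_Nb.2
      ⟨mem_Ch.2 (h.update hj h1 h2 hP), fun x hx => Function.update_of_ne hx _ _⟩)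
    exact ⟨this.1, this.2.1⟩
  · rw [sh_non hD hw]
    exact ⟨hv, rfl⟩

/-- a sheet has a name -/
theorem name_of (hρ : IsRk ρ) (hv : (sys (range m) ρ).Vx θ σ T) (hc : c ∈ T)
    (hD : Disjoint (T.erase c) (walls (range m) ρ)) :
    ∃ e < m, okE m ρ ((sys (range m) ρ).key σ T).1 c e ∧
      sh m ρ ((sys (range m) ρ).key σ T).1 c e = σ := by
  by_cases hw : c ∈ walls (range m) ρ
  · obtain ⟨j, hj, i, h1, h2, rfl⟩ := mem_walls.1 hw
    have h := mem_Ch.1 hv.1.1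
    have hch := h.chain j hj
    have a1 := rep_spec h hj h1 h2.le
    have a2 := (isRk_rs (E := range m) hρ j).cov_eq (cov_lo h hj h1 h2) a1.1 a1.2
    refine ⟨rep σ j i, mem_range.1 (hch.sub _ a1.1), (okE_wall h1 hD hw).2
      ⟨hch.mono (by omega) a1.1, a1.2, fun f hf => ?_⟩, ?_⟩
    · rw [a2] at hf
      by_cases h3 : f ∈ ch σ j (i - 1)
      · exact Or.inl h3
      · exact Or.inr (Nat.sInf_le ⟨hf, h3⟩)
    · rw [sh_wall hD hw, shP_wall h1 hD, a2]
      exact Function.update_eq_self _ _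
  · refine ⟨0, ?_, by rw [okE, if_neg hw], sh_non hD hw⟩
    have := (cn_lt hρ (hv.1.2.1 hc)).2
    omega

theorem name_inj {e' : ℕ} (hv : (sys (range m) ρ).Vx θ σ T)
    (hD : Disjoint (T.erase c) (walls (range m) ρ))
    (ho : okE m ρ ((sys (range m) ρ).key σ T).1 c e)
    (ho' : okE m ρ ((sys (range m) ρ).key σ T).1 c e')
    (h : sh m ρ ((sys (range m) ρ).key σ T).1 c e = sh m ρ ((sys (range m) ρ).key σ T).1 c e') :
    e = e' := by
  by_cases hw : c ∈ walls (range m) ρ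
  · obtain ⟨j, hj, i, h1, h2, rfl⟩ := mem_walls.1 hw
    obtain ⟨a1, a2, a3⟩ := (okE_wall h1 hD hw).1 ho
    obtain ⟨b1, b2, b3⟩ := (okE_wall h1 hD hw).1 ho'
    have hch := (mem_Ch.1 hv.1.1).chain j hj
    rw [sh_wall hD hw, sh_wall hD hw, shP_wall h1 hD, shP_wall h1 hD] at h
    have h3 := congrFun h (3 + j, i)
    rw [Function.update_self, Function.update_self] at h3
    have c1 := a3 e' (h3 ▸ H64.subset_cl (insert_subset (hch.sub _ b1) (hch.sub _))
      (mem_insert_self _ _))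
    have c2 := b3 e (h3 ▸ H64.subset_cl (insert_subset (hch.sub _ a1) (hch.sub _))
      (mem_insert_self _ _))
    have := c1.resolve_left b2
    have := c2.resolve_left a2
    omega
  · rw [okE, if_neg hw] at ho ho'
    rw [ho, ho']

end DS

open DS

theorem ds (hAX : St_AX) (hP : St_PIV) : St_DS := by
  classical
  intro m ρ hρ θ s hs
  have hA := hAX (range m) ρ hρ
  obtain ⟨σ, T, hv, rfl⟩ : ∃ σ T, (sys (range m) ρ).Vx θ σ T ∧ (sys (range m) ρ).key σ T = s := by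
    obtain ⟨v, h1, h2⟩ := mem_image.1 hs
    rcases mem_union.1 h1 with h | h <;> exact ⟨v.1, v.2, (Sys.mem_VJ.1 h).1, h2⟩
  refine ⟨List.Nodup.map_on (fun p hp p' hp' h => ?_) (List.Nodup.filter _
    (nodup_prd (nodup_prd List.nodup_range List.nodup_range) List.nodup_range)), fun d => ?_⟩
  · obtain ⟨c, e⟩ := p
    obtain ⟨c', e'⟩ := p'
    obtain ⟨-, -, a2, a3, -⟩ := mem_dl.1 hp
    obtain ⟨-, -, -, b3, -⟩ := mem_dl.1 hp'
    obtain ⟨h1, h2⟩ := Prod.mk.inj h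
    obtain rfl : c = c' := h2
    exact congrArg (Prod.mk c) (name_inj hv a2 a3 b3 (Prod.mk.inj h1).1)
  · rw [List.mem_map]
    constructor
    · rintro ⟨⟨c, e⟩, hp, rfl⟩
      obtain ⟨-, a1, a2, a3, a4⟩ := mem_dl.1 hp
      obtain ⟨b1, b2⟩ := sheet_of hρ hA hv a1 a2 a3
      refine ⟨Sys.mem_Db.2 ⟨Sys.mem_Dt.2 ⟨b1, a1, card_eq_zero.2 (disjoint_iff_inter_eq_empty.1 a2)⟩,
        ?_⟩, b2⟩
      exact (hP m ρ hρ _ T c a1).1 b1.1 ▸ a4
    · obtain ⟨⟨τ, T'⟩, c⟩ := d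
      rintro ⟨h1, h2⟩
      obtain ⟨h3, h4⟩ := Sys.mem_Db.1 h1
      obtain ⟨h5, h6, h7⟩ := Sys.mem_Dt.1 h3
      have hD : Disjoint (T'.erase c) (walls (range m) ρ) :=
        disjoint_iff_inter_eq_empty.2 (card_eq_zero.1 h7)
      obtain ⟨e, e1, e2, e3⟩ := name_of hρ h5 h6 hD
      rw [← h2]
      refine ⟨(c, e), mem_dl.2 ⟨⟨cn_lt hρ (h5.1.2.1 h6), e1⟩, h6, hD, e2, ?_⟩, ?_⟩
      · change (cdN m ρ (sh m ρ ((sys (range m) ρ).key τ T').1 c e) T' c).Nonempty
        rw [e3, (hP m ρ hρ τ T' c h6).1 h5.1]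
        exact h4
      · change ((sh m ρ ((sys (range m) ρ).key τ T').1 c e, T'), c) = _
        rw [e3]

end Pool.Agent.Lib.US.A80
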