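import Pool.Agent.Lib.US.A80

/-! Codes of nodes. -/

namespace Pool.Agent.Lib.US.A80

open Finset Pool.Agent.Lib.helper82
open Pool.Agent.Lib.FL.H64 (IsRk)

namespace ENC

theorem mem_prd {α β : Type} {A : List α} {B : List β} {p : α × β} :
    p ∈ prd A B ↔ p.1 ∈ A ∧ p.2 ∈ B := by
  obtain ⟨a, b⟩ := p
  simp only [prd, List.mem_flatMap, List.mem_map, Prod.mk.injEq]
  exact ⟨fun ⟨_, h1, _, h2, h3, h4⟩ => ⟨h3 ▸ h1, h4 ▸ h2⟩, fun h => ⟨a, h.1, b, h.2, rfl, rfl⟩⟩

theorem length_prd {α β : Type} (A : List α) (B : List β) :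
    (prd A B).length = A.length * B.length := by
  induction A with
  | nil => simp [prd]
  | cons a A ih =>
    unfold prd at ih ⊢
    rw [List.flatMap_cons, List.length_append, ih, List.length_map, List.length_cons]
    ring

theorem rs_le {m : ℕ} {ρ : Finset ℕ → ℕ} (h : IsRk ρ) (j : ℕ) :
    rs (range m) ρ j (range m) ≤ m :=
  ((isRk_rs (E := range m) h j).le_card _).trans (card_range m).le

theorem dec_enc {m : ℕ} {s : Key} (h1 : ∀ k, s.1 k ⊆ range m) (h2 : ∀ t i, 5 ≤ t → s.1 (t, i) = ∅)
    (h3 : ∀ t i, s.1 (t, min i m) = s.1 (t, i)) (h4 : ∀ c ∈ s.2, c.1 < 5 ∧ c.2 < m) :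
    dec m (enc m s) = s := by
  refine Prod.ext (funext fun k => ?_) ?_
  · ext e
    simp only [dec, enc, mem_filter, List.mem_filter, mem_prd, List.mem_range, decide_eq_true_eq,
      h3]
    refine ⟨fun h => h.2.2, fun h => ⟨h1 k h, ⟨⟨?_, by omega⟩, mem_range.1 (h1 k h)⟩, h⟩⟩
    by_contra h5
    exact notMem_empty e (h2 k.1 k.2 (not_lt.1 h5) ▸ h)
  · ext c
    simp only [dec, enc, CL, List.mem_toFinset, List.mem_filter, mem_prd, List.mem_range,
      decide_eq_true_eq]
    exact ⟨fun h => h.2, fun h => ⟨h4 c h, h⟩⟩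

theorem sz_enc (m : ℕ) (s : Key) :
    sz (enc m s) ≤ 2 * (5 * (m + 1) * m * (2 * (3 * m + 25) + 1)) + 1 +
      5 * m * (2 * (m + 11) + 1) := by
  unfold enc
  rw [sz_prod]
  have h1 := sz_le_of_forall (3 * m + 25)
    (prd (prd (List.range 5) (List.range (m + 1))) (List.range m)) fun ⟨⟨t, i⟩, e⟩ hp => by
      simp only [mem_prd, List.mem_range] at hp
      have := sz_nat_le_self t
      have := sz_nat_le_self i
      have := sz_nat_le_self e
      rw [sz_prod, sz_prod]
      omega
  have h2 := sz_le_of_forall (m + 11) (CL m) fun ⟨t, i⟩ hp => by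
    simp only [CL, mem_prd, List.mem_range] at hp
    have := sz_nat_le_self t
    have := sz_nat_le_self i
    rw [sz_prod]
    omega
  simp only [CL, length_prd, List.length_range] at h1 h2
  exact Nat.add_le_add (Nat.add_le_add_right (Nat.mul_le_mul_left _
    ((sz_le_of_sublist List.filter_sublist).trans h1)) _)
    ((sz_le_of_sublist List.filter_sublist).trans h2)

end ENC

theorem enc_ok : St_ENC := by
  refine ⟨fun m ρ h θ s hs => ?_, fun α _ m hm => ?_⟩
  · classical
    obtain ⟨v, hv, rfl⟩ := mem_image.1 hs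
    have hV : (sys (range m) ρ).Vx θ v.1 v.2 := by
      rcases mem_union.1 hv with h1 | h1 <;> exact (Sys.mem_VJ.1 h1).1
    have hC := mem_Ch.1 hV.1.1
    have hw : ∀ t i, m ≤ i → (t, i) ∉ (sys (range m) ρ).Kw := fun t i hi hk => by
      obtain ⟨j, -, i', -, h2, h3⟩ := mem_walls.1 hk
      have := ENC.rs_le (m := m) h j
      have := (Prod.mk.inj h3).2
      omega
    refine ENC.dec_enc (fun k => ?_) (fun t i ht => ?_) (fun t i => ?_) fun c hc => ?_
    · simp only [Sys.key]
      split_ifs
      · exact empty_subset _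
      · exact hC.sub k
    · simp only [Sys.key]
      split_ifs
      · rfl
      · exact hC.junk t i (by omega) (by omega)
    · rcases le_total i m with hi | hi
      · rw [min_eq_left hi]
      · rw [min_eq_right hi]
        simp only [Sys.key]
        rw [if_neg fun h' => hw t m le_rfl h'.2, if_neg fun h' => hw t i hi h'.2]
        by_cases ht : t = 3 ∨ t = 4
        · obtain ⟨j, hj, rfl⟩ : ∃ j < 2, t = 3 + j := ⟨t - 3, by omega, by omega⟩
          exact ((hC.chain j hj).top m (ENC.rs_le h j)).trans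
            ((hC.chain j hj).top i ((ENC.rs_le h j).trans hi)).symm
        · rw [hC.junk t i (by omega) (by omega), hC.junk t m (by omega) (by omega)]
    · rcases Sys.mem_Cn.1 (hV.1.2.1 hc) with h1 | h1
      · obtain ⟨j, hj, i, -, h2, rfl⟩ := mem_walls.1 h1
        have := ENC.rs_le (m := m) h j
        exact ⟨by omega, by omega⟩
      · obtain ⟨h2, h3⟩ := mem_cons.1 h1
        exact ⟨by omega, mem_range.1 h2⟩
  · have hb : Bd sz m := (PT.sz_bd hm).of_le fun a => by
      rw [PT.sz_listBool, List.length_replicate]; omega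
    refine ⟨_, ?_, fun a s => ENC.sz_enc (m a) s⟩
    repeat first | exact hb | exact Bd.const _ | apply Bd.add | apply Bd.mul

end Pool.Agent.Lib.US.A80
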