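import Pool.Agent.Lib.US.A80

/-! The coefficients of the frame in explicit form. -/

namespace Pool.Agent.Lib.US.A80

open Finset
open Pool.Agent.Lib.FL.H64 (IsRk cl)

namespace KAP

variable {m : ℕ} {ρ : Finset ℕ → ℕ} {σ : Cone} {T D : Finset Ix} {c : Ix}

theorem mem_UU {x : Ix} : x ∈ UU m ↔ x = (5, 0) ∨ (x.1 < 3 ∧ x.2 < m) := by
  simp only [UU, mem_insert, mem_product, mem_range]

theorem card_UU : (UU m).card ≤ 3 * m + 1 :=
  (card_insert_le _ _).trans (by rw [card_product, card_range, card_range])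

theorem mem_grow {s : Finset Ix} {x : Ix} : x ∈ grow m σ D s ↔ x ∈ UU m ∧ ∃ y ∈ s,
    x = y ∨ same m σ x y ∨ ∃ d ∈ D, ends σ d = (x, y) ∨ ends σ d = (y, x) := by
  classical
  unfold grow
  rw [mem_filter]

theorem mem_fixd {x : Ix} :
    x ∈ fixd m σ ↔ x ∈ UU m ∧ (x.1 = 5 ∨ (x.1 < 2 ∧ x.2 ∈ ch σ x.1 0)) := by
  unfold fixd
  rw [mem_filter]

theorem grow_ext (s : Finset Ix) (hs : s ⊆ UU m) : s ⊆ grow m σ D s ∧ grow m σ D s ⊆ UU m :=
  ⟨fun x hx => mem_grow.2 ⟨hs hx, x, hx, Or.inl rfl⟩, fun _ hx => (mem_grow.1 hx).1⟩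

theorem fixd_sub : fixd m σ ⊆ UU m := fun _ hx => (mem_fixd.1 hx).1

theorem grow_ZZ : grow m σ D (ZZ m σ D) = ZZ m σ D :=
  iter_fix (UU m) _ grow_ext fixd_sub card_UU

theorem iter_sub (n : ℕ) :
    fixd m σ ⊆ (grow m σ D)^[n] (fixd m σ) ∧ (grow m σ D)^[n] (fixd m σ) ⊆ UU m := by
  induction n with
  | zero => exact ⟨Subset.rfl, fixd_sub⟩
  | succ n ih =>
    rw [Function.iterate_succ_apply']
    exact ⟨ih.1.trans (grow_ext _ ih.2).1, (grow_ext _ ih.2).2⟩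

theorem fixd_ZZ : fixd m σ ⊆ ZZ m σ D := (iter_sub _).1

theorem ZZ_sub : ZZ m σ D ⊆ UU m := (iter_sub _).2

theorem ZZ_close {x y : Ix} (hx : x ∈ UU m) (hy : y ∈ ZZ m σ D)
    (h : same m σ x y ∨ ∃ d ∈ D, ends σ d = (x, y) ∨ ends σ d = (y, x)) : x ∈ ZZ m σ D := by
  rw [← grow_ZZ]
  exact mem_grow.2 ⟨hx, y, hy, Or.inr h⟩

theorem rs_le (hρ : IsRk ρ) (j : ℕ) : rs (range m) ρ j (range m) ≤ m :=
  ((isRk_rs hρ j).le_card _).trans (card_range m).le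

theorem same_val (hρ : IsRk ρ) (hσ : IsCone (range m) ρ σ) {v : Ix → ℝ}
    (hv : v ∈ span (range m) σ) {x y : Ix} (hx : x ∈ UU m) (h : same m σ x y) : v x = v y := by
  obtain ⟨j, e⟩ := x
  obtain ⟨j', f⟩ := y
  obtain ⟨h1, h2, h3⟩ := h
  simp only at h1 h2 h3
  subst h1
  have he : e ∈ range m := by
    rcases mem_UU.1 hx with h4 | h4
    · have := congrArg Prod.fst h4
      simp only at this
      omega
    · exact mem_range.2 h4.2
  by_cases h0 : e ∈ ch σ j 0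
  · rw [hv.2.1 j h2 e fun h => (mem_sdiff.1 h).2 h0, hv.2.1 j h2 f fun h => (mem_sdiff.1 h).2
      ((h3 0 (mem_range.2 (Nat.succ_pos _))).1 h0)]
  · obtain ⟨i, i1, i2, i3, i4⟩ := (hσ.chain j h2).level he h0
    have i5 := rs_le (m := m) hρ j
    rw [span_rep hσ h2 hv i1 i3 i4, span_rep hσ h2 hv i1
      ((h3 i (mem_range.2 (by omega))).1 i3)
      fun h => i4 ((h3 (i - 1) (mem_range.2 (by omega))).2 h)]

theorem ends_mem (hσ : IsCone (range m) ρ σ) {d : Ix} (hd : d ∈ (sys (range m) ρ).Cn) :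
    (ends σ d).1 ∈ UU m ∧ (ends σ d).2 ∈ UU m := by
  rcases mem_union.1 hd with h | h
  · obtain ⟨j, hj, i, h1, h2, rfl⟩ := mem_walls.1 h
    have h3 := mem_range.1 ((hσ.chain j hj).sub _ (rep_spec hσ hj h1 h2.le).1)
    have h4 := mem_range.1 ((hσ.chain j hj).sub _
      (rep_spec (i := i + 1) hσ hj (by omega) h2).1)
    interval_cases j
    · exact ⟨mem_UU.2 (Or.inr ⟨by change 0 < 3; omega, h4⟩),
        mem_UU.2 (Or.inr ⟨by change 0 < 3; omega, h3⟩)⟩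
    · exact ⟨mem_UU.2 (Or.inr ⟨by change 1 < 3; omega, h3⟩),
        mem_UU.2 (Or.inr ⟨by change 1 < 3; omega, h4⟩)⟩
  · obtain ⟨t, e⟩ := d
    obtain ⟨h1, h2⟩ := mem_cons.1 h
    have h3 : e < m := mem_range.1 h1
    rcases h2 with h2 | ⟨h2, -⟩ | ⟨h2, -⟩ <;> (simp only at h2; subst h2)
    · exact ⟨mem_UU.2 (Or.inl rfl), mem_UU.2 (Or.inr ⟨by change 2 < 3; omega, h3⟩)⟩
    · exact ⟨mem_UU.2 (Or.inr ⟨by change 2 < 3; omega, h3⟩),
        mem_UU.2 (Or.inr ⟨by change 0 < 3; omega, h3⟩)⟩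
    · exact ⟨mem_UU.2 (Or.inr ⟨by change 1 < 3; omega, h3⟩),
        mem_UU.2 (Or.inr ⟨by change 2 < 3; omega, h3⟩)⟩

theorem out_val {v : Ix → ℝ} (hv : v ∈ span (range m) σ) {x : Ix} (hx : x ∉ UU m) : v x = 0 := by
  obtain ⟨t, e⟩ := x
  rcases lt_or_ge t 3 with ht | ht
  · have he : e ∉ range m := fun h => hx (mem_UU.2 (Or.inr ⟨ht, mem_range.1 h⟩))
    rcases lt_or_ge t 2 with h2 | h2
    · exact hv.2.1 t h2 e fun h => he (mem_sdiff.1 h).1
    · obtain rfl : t = 2 := by omega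
      exact hv.2.2.1 e he
  · exact hv.2.2.2 t e ht

theorem iter_val (hρ : IsRk ρ) (h : (sys (range m) ρ).IsB σ T) (hc : c ∈ T) (n : ℕ) :
    ∀ x ∈ (grow m σ (T.erase c))^[n] (fixd m σ), (sys (range m) ρ).yv σ T c x = 0 := by
  have hv := yv_span h hc
  induction n with
  | zero =>
    rintro ⟨t, e⟩ hx
    rcases (mem_fixd.1 hx).2 with h1 | ⟨h1, h2⟩
    · exact hv.2.2.2 t e (by simp only at h1; omega)
    · exact hv.2.1 t h1 e fun h => (mem_sdiff.1 h).2 h2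
  | succ n ih =>
    rw [Function.iterate_succ_apply']
    intro x hx
    obtain ⟨h1, y, hy, h2 | h2 | ⟨d, hd, h2 | h2⟩⟩ := mem_grow.1 hx
    · rw [h2, ih y hy]
    · rw [same_val hρ (mem_Ch.1 h.1) hv h1 h2, ih y hy]
    · have h3 := yv_edge h hc (mem_erase.1 hd).2 (mem_erase.1 hd).1
      rw [h2] at h3
      exact h3.trans (ih y hy)
    · have h3 := yv_edge h hc (mem_erase.1 hd).2 (mem_erase.1 hd).1
      rw [h2] at h3
      exact h3.symm.trans (ih y hy)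

theorem or_iff {x : Ix} (hx : x ∈ UU m) : (x ∈ ZZ m σ D ∨ x ∉ UU m) ↔ x ∈ ZZ m σ D :=
  or_iff_left (not_not.2 hx)

theorem ind_span (hσ : IsCone (range m) ρ σ) :
    (fun x => if x ∈ ZZ m σ D ∨ x ∉ UU m then (0 : ℝ) else 1) ∈ span (range m) σ := by
  have key : ∀ j < 2, ∀ i, ∀ e ∈ ch σ j (i + 1) \ ch σ j i, ∀ f ∈ ch σ j (i + 1) \ ch σ j i,
      ((j, f) ∈ ZZ m σ D ∨ (j, f) ∉ UU m) → ((j, e) ∈ ZZ m σ D ∨ (j, e) ∉ UU m) := by
    intro j hj i e he f hf h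
    obtain ⟨e1, e2⟩ := mem_sdiff.1 he
    obtain ⟨f1, f2⟩ := mem_sdiff.1 hf
    have hC := hσ.chain j hj
    refine Or.inl (ZZ_close (mem_UU.2 (Or.inr ⟨by change j < 3; omega,
      mem_range.1 (hC.sub _ e1)⟩)) ((or_iff (mem_UU.2 (Or.inr ⟨by change j < 3; omega,
        mem_range.1 (hC.sub _ f1)⟩))).1 h) (Or.inl ⟨rfl, hj, fun p _ => ?_⟩))
    exact (hC.mem_iff (Nat.le_add_left 1 i) e1 e2 p).trans
      (hC.mem_iff (Nat.le_add_left 1 i) f1 f2 p).symm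
  refine ⟨fun j hj i e he f hf => if_congr ⟨key j hj i f hf e he, key j hj i e he f hf⟩ rfl rfl,
    fun j hj e he => if_pos ?_, fun e he => if_pos (Or.inr fun h => ?_),
    fun t e ht => if_pos ?_⟩
  · by_cases h : (j, e) ∈ UU m
    · refine Or.inl (fixd_ZZ (mem_fixd.2 ⟨h, Or.inr ⟨hj, by_contra fun h1 => he
        (mem_sdiff.2 ⟨?_, h1⟩)⟩⟩))
      rcases mem_UU.1 h with h2 | h2
      · have := congrArg Prod.fst h2
        simp only at this
        omega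
      · exact mem_range.2 h2.2
    · exact Or.inr h
  · rcases mem_UU.1 h with h2 | h2
    · have := congrArg Prod.fst h2
      simp only at this
      omega
    · exact he (mem_range.2 h2.2)
  · by_cases h : (t, e) ∈ UU m
    · refine Or.inl (fixd_ZZ (mem_fixd.2 ⟨h, Or.inl ?_⟩))
      rcases mem_UU.1 h with h2 | h2
      · exact congrArg Prod.fst h2
      · have := h2.1
        simp only at this
        omega
    · exact Or.inr h

/-- the frame vector is the signed indicator of the coordinates cut off from the ground -/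
theorem yv_eq (hρ : IsRk ρ) (h : (sys (range m) ρ).IsB σ T) (hc : c ∈ T) :
    ¬((ends σ c).1 ∈ ZZ m σ (T.erase c) ↔ (ends σ c).2 ∈ ZZ m σ (T.erase c)) ∧
    ∀ x ∈ UU m, (sys (range m) ρ).yv σ T c x = if x ∈ ZZ m σ (T.erase c) then 0
      else if (ends σ c).1 ∈ ZZ m σ (T.erase c) then -1 else 1 := by
  have hσ := mem_Ch.1 h.1
  have hE := ends_mem hσ (h.2.1 hc)
  obtain ⟨h1, h2⟩ := yv_of_closed h hc (fun x => x ∈ ZZ m σ (T.erase c) ∨ x ∉ UU m)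
    (fun x hx => hx.elim (iter_val hρ h hc _ x) (out_val (yv_span h hc))) (ind_span hσ)
    fun d hd hne => by
      have hD := ends_mem hσ (h.2.1 hd)
      rw [or_iff hD.1, or_iff hD.2]
      exact ⟨fun h3 => ZZ_close hD.2 h3 (Or.inr ⟨d, mem_erase.2 ⟨hne, hd⟩, Or.inr rfl⟩),
        fun h3 => ZZ_close hD.1 h3 (Or.inr ⟨d, mem_erase.2 ⟨hne, hd⟩, Or.inl rfl⟩)⟩
  rw [or_iff hE.1, or_iff hE.2] at h1
  refine ⟨h1, fun x hx => ?_⟩
  rw [h2 x]
  exact if_congr (or_iff hx) rfl (if_congr (or_iff hE.1) rfl rfl)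

end KAP

theorem kap : St_KAP := by
  intro m ρ hρ σ T h c hc d hd
  have hD := KAP.ends_mem (mem_Ch.1 h.1) hd
  have h1 := (KAP.yv_eq hρ h hc).2
  change cov σ d _ = _
  rw [cov_apply, h1 _ hD.1, h1 _ hD.2]
  unfold kp kn
  by_cases a1 : (ends σ d).1 ∈ ZZ m σ (T.erase c) <;>
    by_cases a2 : (ends σ d).2 ∈ ZZ m σ (T.erase c) <;>
      by_cases a3 : (ends σ c).1 ∈ ZZ m σ (T.erase c) <;> simp [a1, a2, a3]

end Pool.Agent.Lib.US.A80
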