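import Pool.Agent.Lib.US.A80

/-! Numerical inequalities about the costs. -/

namespace Pool.Agent.Lib.US.A80

namespace PAR

theorem bern (i n : ℕ) : i ^ n * (i + n) ≤ i * (i + 1) ^ n := by
  induction n with
  | zero => simp
  | succ n ih =>
    calc i ^ (n + 1) * (i + (n + 1)) ≤ i ^ n * (i + n) * (i + 1) := by
          rw [pow_succ, mul_assoc, mul_assoc]
          exact Nat.mul_le_mul_left _ (by nlinarith)
      _ ≤ i * (i + 1) ^ n * (i + 1) := Nat.mul_le_mul_right _ ih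
      _ = i * (i + 1) ^ (n + 1) := by ring

theorem two_le {i : ℕ} (hi : 0 < i) : 2 * i ^ i ≤ (i + 1) ^ i :=
  Nat.le_of_mul_le_mul_left (le_of_eq_of_le (by ring) (bern i i)) hi

theorem grw {i : ℕ} (hi : 0 < i) (s : ℕ) : 2 ^ s * i ^ (s * i) ≤ (i + 1) ^ (s * i) := by
  rw [mul_comm s i, pow_mul, pow_mul, ← mul_pow]
  exact Nat.pow_le_pow_left (two_le hi) s

theorem a0_zero (c w m : ℕ) : a0 c w m 0 = 2 * (2 * m + 2) ^ 3 * (c * 2 ^ KK w) := by
  simp only [a0, KK, Nat.min_zero, pow_zero, one_mul, Nat.sub_zero, pow_mul]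

theorem a0_top (c w m : ℕ) :
    a0 c w m (NN w) = 2 * (2 * m + 2) ^ 3 * (c * (2 ^ (8 * w) + 1) ^ NN w) := by
  simp only [a0, min_self, Nat.sub_self, pow_zero, mul_one]

end PAR

open PAR in
theorem par : St_PAR := by
  intro w m h
  have hw : w ≤ 2 ^ w := Nat.lt_two_pow_self.le
  have hw1 : 1 ≤ w := by
    rcases Nat.eq_zero_or_pos w with h0 | h0
    · rw [h0] at h
      omega
    · exact h0
  have hi : 2 ^ (8 * w) = (2 ^ w) ^ 8 := by rw [mul_comm, pow_mul]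
  have hi0 : 0 < 2 ^ (8 * w) := by positivity
  have hK : KK w = 64 * w ^ 2 * (2 ^ w) ^ 8 := by
    rw [KK, NN, hi]
    ring
  refine ⟨fun c t hc hc' => ⟨?_, ?_⟩, by rw [a0_zero, one_mul], fun c t ht => ?_,
    fun c0 c1 h0 h1 => ?_, ?_, ?_, ?_, fun n hn => ?_⟩
  · rw [a0_zero]
    refine Nat.mul_le_mul_left _ (Nat.mul_le_mul hc ?_)
    rw [KK, pow_mul]
    calc (2 ^ (8 * w)) ^ NN w = (2 ^ (8 * w)) ^ min (NN w) t * (2 ^ (8 * w)) ^ (NN w - t) := by
          rw [← pow_add]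
          congr 1
          omega
      _ ≤ _ := Nat.mul_le_mul_right _ (Nat.pow_le_pow_left (Nat.le_succ _) _)
  · rw [a0_top]
    refine Nat.mul_le_mul_left _ (Nat.mul_le_mul hc' ?_)
    calc _ ≤ (2 ^ (8 * w) + 1) ^ min (NN w) t * (2 ^ (8 * w) + 1) ^ (NN w - t) :=
          Nat.mul_le_mul_left _ (Nat.pow_le_pow_left (Nat.le_succ _) _)
      _ = _ := by
          rw [← pow_add]
          congr 1
          omega
  · unfold a0
    rw [min_eq_right ht, min_eq_right ht.le, show NN w - t = NN w - (t + 1) + 1 by omega,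
      pow_succ, pow_succ]
    ring
  · rw [a0_zero, a0_top, mul_assoc]
    refine Nat.mul_le_mul_left _ ?_
    have h2 := grw hi0 (8 * w)
    rw [← pow_mul 2 (8 * w)] at h2
    calc c0 * 2 ^ KK w * (2 ^ w) ^ 7 ≤ 2 ^ w * 2 ^ KK w * (2 ^ w) ^ 7 := by gcongr
      _ = 2 ^ (8 * w) * 2 ^ KK w := by
          rw [hi]
          ring
      _ ≤ (2 ^ (8 * w) + 1) ^ NN w := h2
      _ ≤ _ := Nat.le_mul_of_pos_left _ h1
  · rw [a0_top]
    have h1 : 2 * m + 2 ≤ 2 ^ (w + 1) := by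
      rw [pow_succ]
      omega
    have h2 : (2 ^ (8 * w) + 1) ^ NN w ≤ 2 ^ (2 * KK w) := by
      calc _ ≤ (2 ^ (16 * w)) ^ NN w := by
            refine Nat.pow_le_pow_left ?_ _
            rw [show 16 * w = 8 * w + 8 * w by ring, pow_add]
            have : 2 ≤ 2 ^ (8 * w) := by
              calc 2 = 2 ^ 1 := rfl
                _ ≤ _ := Nat.pow_le_pow_right two_pos (by omega)
            nlinarith
        _ = _ := by
            rw [← pow_mul, KK]
            congr 1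
            ring
    have h3 : 2 ^ (2 * w + KK w) * 2 ^ (20 * w) + 1 ≤ 2 ^ (22 * w + KK w + 1) := by
      have : 0 < 2 ^ (22 * w + KK w) := by positivity
      rw [← pow_add, show 2 * w + KK w + 20 * w = 22 * w + KK w by ring, pow_succ]
      omega
    have h4 : ((2 * m + 2) ^ 3) ^ 2 * (2 * (2 * m + 2) ^ 3 * (2 ^ w * (2 ^ (8 * w) + 1) ^ NN w)) *
        (2 ^ (2 * w + KK w) * 2 ^ (20 * w) + 1) ≤ 2 ^ (32 * w + 3 * KK w + 11) := by
      calc _ ≤ ((2 ^ (w + 1)) ^ 3) ^ 2 * (2 * (2 ^ (w + 1)) ^ 3 * (2 ^ w * 2 ^ (2 * KK w))) *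
            2 ^ (22 * w + KK w + 1) := by gcongr
        _ = _ := by ring
    have h5 : 2 ^ (2 * w + KK w) < 2 ^ (32 * w + 3 * KK w + 11) :=
      Nat.pow_lt_pow_right one_lt_two (by omega)
    have h6 : 32 * w + 3 * KK w + 11 + 1 ≤ 2 ^ (12 * w) := by
      rw [hK, mul_comm 12 w, pow_mul]
      generalize 2 ^ w = P at h hw
      have h7 : 64 * w ^ 2 * P ^ 8 ≤ 64 * P ^ 2 * P ^ 8 := by gcongr
      have h8 : P ≤ P ^ 10 := Nat.le_self_pow (by norm_num) P
      have h9 : 1024 * P ^ 10 ≤ P ^ 2 * P ^ 10 := Nat.mul_le_mul_right _ (by nlinarith)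
      rw [show 64 * P ^ 2 * P ^ 8 = 64 * P ^ 10 by ring] at h7
      rw [show P ^ 12 = P ^ 2 * P ^ 10 by ring]
      omega
    have h10 := Nat.pow_le_pow_right two_pos h6
    rw [pow_succ] at h10
    omega
  · rw [pow_add, mul_comm 2 w, pow_mul]
    exact Nat.mul_le_mul_right _ (by nlinarith)
  · rw [show 4 ^ (3 * m) = 2 ^ (6 * m) by
      rw [show 6 * m = 2 * (3 * m) by ring, pow_mul 2 2]; rfl]
    refine Nat.pow_lt_pow_right one_lt_two ?_
    have h1 : 2 ^ w ≤ (2 ^ w) ^ 8 := Nat.le_self_pow (by norm_num) _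
    have h2 : 64 * 1 ^ 2 * (2 ^ w) ^ 8 ≤ 64 * w ^ 2 * (2 ^ w) ^ 8 := by gcongr
    rw [hK]
    omega
  · have hn' : (n : ℝ) ≤ 2 ^ w := by exact_mod_cast (by omega : n ≤ 2 ^ w)
    rw [hi]
    push_cast
    have hP : (0 : ℝ) < 2 ^ w := by positivity
    generalize (2 : ℝ) ^ w = P at hn' hP
    have h1 : (0 : ℝ) < P ^ 8 + 1 := by positivity
    have h2 : P ^ 8 / (P ^ 8 + 1) = 1 + -(1 / (P ^ 8 + 1)) := by
      field_simp
      ring
    have h3 : 1 / (P ^ 8 + 1) ≤ 1 := (div_le_one h1).2 (by linarith [pow_pos hP 8])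
    have h4 := one_add_mul_le_pow (a := -(1 / (P ^ 8 + 1))) (by linarith) n
    have h5 : (P ^ 8 / (P ^ 8 + 1)) ^ n ≤ 1 :=
      pow_le_one₀ (by positivity) ((div_le_one h1).2 (by linarith))
    have h6 : n * (1 / (P ^ 8 + 1)) ≤ 1 / P ^ 7 := by
      rw [mul_one_div, div_le_div_iff₀ h1 (by positivity)]
      have := mul_le_mul_of_nonneg_right hn' (pow_pos hP 7).le
      nlinarith
    rw [← div_pow, abs_le]
    rw [← h2] at h4
    constructor <;> nlinarith [one_div_pos.2 (pow_pos hP 7)]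

end Pool.Agent.Lib.US.A80
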