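import Pool.Agent.Lib.US.A80

/-! The numerical inequalities about the error. -/

namespace Pool.Agent.Lib.US.A80

open Finset

namespace R80

theorem w_le {w : ℕ} (h : 1024 ≤ 2 ^ w) : 8 * w ≤ 2 ^ w := by
  have h1 : 10 ≤ w := (Nat.pow_le_pow_iff_right (a := 2) (n := 10) (by norm_num)).1 h
  clear h
  induction w, h1 using Nat.le_induction with
  | base => norm_num
  | succ n hn ih => rw [pow_succ]; omega

theorem pow_le (i n : ℕ) (hi : 0 < i) : ((i : ℝ) + 1) ^ (n * i) ≤ 4 ^ n * i ^ (n * i) := by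
  have i0 : (0 : ℝ) < i := by exact_mod_cast hi
  have h1 : ((i : ℝ) + 1) ^ i ≤ 4 * i ^ i := by
    have h2 : (1 + (i : ℝ)⁻¹) ^ i ≤ Real.exp 1 := Real.one_add_inv_pow_le_exp
    have h3 : ((i : ℝ) + 1) = i * (1 + (i : ℝ)⁻¹) := by field_simp
    rw [h3, mul_pow, mul_comm]
    exact mul_le_mul_of_nonneg_right (by linarith [Real.exp_one_lt_d9]) (by positivity)
  rw [mul_comm n i, pow_mul, pow_mul, ← mul_pow]
  exact pow_le_pow_left₀ (by positivity) h1 n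

end R80

theorem par2 : St_PAR2 := by
  intro w m k h k0
  have hw := R80.w_le (w := w) (by omega)
  have hA := R80.pow_le (2 ^ (8 * w)) (8 * w) (by positivity)
  have hK : 6 * m + 6 * w ≤ KK w := by
    have a1 : 2 ^ w ≤ 2 ^ (8 * w) := Nat.pow_le_pow_right two_pos (by omega)
    have a2 : 1 ≤ w := by
      rcases w with _ | w
      · omega
      · omega
    unfold KK NN
    nlinarith [Nat.mul_le_mul a2 (Nat.mul_le_mul a2 a1)]
  have e8 : ∀ n : ℕ, (2 : ℝ) ^ (n * w) = (2 ^ w) ^ n := fun n => by rw [mul_comm, pow_mul]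
  have eK : (2 : ℝ) ^ KK w = ((2 ^ w) ^ 8) ^ NN w := by rw [KK, pow_mul, e8]
  have e4 : (4 : ℝ) ^ (8 * w) = (2 ^ w) ^ 16 := by
    rw [← e8, show (4 : ℝ) = 2 ^ 2 by norm_num, ← pow_mul]; congr 1; ring
  have b1 : (4 : ℝ) ^ (3 * m) * (2 ^ w) ^ 6 ≤ 2 ^ KK w := by
    rw [← e8, show (4 : ℝ) = 2 ^ 2 by norm_num, ← pow_mul, ← pow_add]
    exact pow_le_pow_right₀ one_le_two (by omega)
  have hN : (NN w : ℝ) = 8 * w * (2 ^ w) ^ 8 := by simp [NN, e8]
  have hKK : (KK w : ℝ) = 8 * w * NN w := by simp [KK]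
  have a1 : (a0 (2 ^ w) w m (NN w) : ℝ) =
      2 * (2 * m + 2) ^ 3 * (2 ^ w * ((2 ^ w) ^ 8 + 1) ^ NN w) := by simp [a0, e8]
  have a2 : (a0 1 w m 0 : ℝ) = 2 * (2 * m + 2) ^ 3 * ((2 ^ w) ^ 8) ^ NN w := by simp [a0, e8]
  rw [show 8 * w * 2 ^ (8 * w) = NN w from rfl, e4] at hA
  have h' : (m : ℝ) + k + 1024 ≤ 2 ^ w := by exact_mod_cast h
  have hw' : (8 : ℝ) * w ≤ 2 ^ w := by exact_mod_cast hw
  have k1 : (1 : ℝ) ≤ k := by exact_mod_cast k0
  have m0 : (0 : ℝ) ≤ m := m.cast_nonneg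
  push_cast at hA ⊢
  rw [e8] at hA
  rw [a1, a2, e8, e8, hKK]
  rw [eK] at b1 ⊢
  generalize ((2 : ℝ) ^ w) = P at *
  have P0 : 0 < P := by linarith
  have P1 : 1024 ≤ P := by linarith
  have I0 : 0 < (P ^ 8) ^ NN w := by positivity
  have J0 : 0 < (P ^ 8 + 1) ^ NN w := by positivity
  generalize (P ^ 8) ^ NN w = I at *
  generalize (P ^ 8 + 1) ^ NN w = J at *
  have N0 : (0 : ℝ) ≤ NN w := Nat.cast_nonneg _
  have w0 : (0 : ℝ) ≤ w := Nat.cast_nonneg _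
  have pw : ∀ n : ℕ, 1 ≤ P ^ n := fun n => one_le_pow₀ (by linarith)
  have N1 : (NN w : ℝ) ≤ P ^ 9 := by rw [hN, pow_succ' P 8]; gcongr
  generalize (NN w : ℝ) = N at *
  have B1 : (2 * m + 2 : ℝ) ^ 3 ≤ P ^ 4 := by
    calc (2 * m + 2 : ℝ) ^ 3 ≤ (2 * P) ^ 3 := by gcongr; linarith
      _ = 8 * P ^ 3 := by ring
      _ ≤ P * P ^ 3 := by gcongr; linarith
      _ = P ^ 4 := by ring
  have B0 : (0 : ℝ) < (2 * m + 2) ^ 3 := by positivity
  generalize (2 * m + 2 : ℝ) ^ 3 = B at *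
  have c5 : 1024 / P ^ 11 ≤ 1 / P ^ 6 := by
    rw [div_le_div_iff₀ (by positivity) (by positivity)]
    calc 1024 * P ^ 6 ≤ P * P ^ 6 * P ^ 4 := by nlinarith [pw 4, pw 6, mul_pos P0 (pow_pos P0 6)]
      _ = 1 * P ^ 11 := by ring
  refine ⟨fun n hn => ?_, ?_, ?_, ?_⟩
  · have n1 : (n : ℝ) ≤ 3 * P := by
      have : (n : ℝ) ≤ 3 * m := by exact_mod_cast hn
      linarith
    have c1 : (4 : ℝ) ^ n / I ≤ 1 / P ^ 6 := by
      rw [div_le_div_iff₀ I0 (by positivity), one_mul]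
      exact le_trans (by gcongr; norm_num) b1
    have c2 : J / I ≤ P ^ 16 := (div_le_iff₀ I0).2 hA
    have c3 : 20 * B ^ 12 * (8 * w * N + 1) * (2 * B * (P * J)) * (2 * B * (P * J) / (2 * B * I)) / I
        ≤ 80 * P ^ 96 := by
      have e : 20 * B ^ 12 * (8 * w * N + 1) * (2 * B * (P * J)) *
          (2 * B * (P * J) / (2 * B * I)) / I =
          40 * B ^ 13 * (8 * w * N + 1) * P ^ 2 * (J / I) ^ 2 := by field_simp; ring
      have : 8 * w * N + 1 ≤ 2 * P ^ 10 := by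
        have : 8 * w * N ≤ P * P ^ 9 := by gcongr
        linarith [pw 10, pow_succ' P 9]
      rw [e]
      calc _ ≤ 40 * (P ^ 4) ^ 13 * (2 * P ^ 10) * P ^ 2 * (P ^ 16) ^ 2 := by gcongr
        _ = _ := by ring
    have c4 : (N + 1) * (P ^ 20 * (2 + 4 * P ^ 20 * (n * (20 * B ^ 12 * (8 * w * N + 1) *
        (2 * B * (P * J)) * (2 * B * (P * J) / (2 * B * I)) / I))) / P ^ 160) ≤ 2 / P ^ 11 := by
      have d1 : N + 1 ≤ 2 * P ^ 9 := by linarith [pw 9]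
      have d2 : 2 + 4 * P ^ 20 * (3 * P * (80 * P ^ 96)) ≤ P ^ 120 := by
        have : 962 * P ^ 117 ≤ P ^ 3 * P ^ 117 := by
          gcongr
          nlinarith [pw 2, pow_succ' P 2]
        nlinarith [pw 117]
      calc _ ≤ 2 * P ^ 9 * (P ^ 20 * (2 + 4 * P ^ 20 * (3 * P * (80 * P ^ 96))) / P ^ 160) := by
            gcongr
        _ ≤ 2 * P ^ 9 * (P ^ 20 * P ^ 120 / P ^ 160) := by gcongr
        _ = _ := by field_simp
    have c6 : 16 * N / P ^ 20 ≤ 16 / P ^ 11 := by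
      calc _ ≤ 16 * P ^ 9 / P ^ 20 := by gcongr
        _ = _ := by field_simp
    have c7 : 0 < 1 / P ^ 11 := by positivity
    simp only [div_eq_mul_inv (_ : ℝ) (P ^ 11), div_eq_mul_inv (_ : ℝ) (P ^ 6)] at *
    linarith
  · have c1 : 2 * (N * (16 * (1 / P ^ 7) ^ 2 + 12 * (1 / P ^ 7) * (4 / P ^ 6))) ≤
        2 * (P ^ 9 * (16 * (1 / P ^ 7 * (1 / P ^ 6)) + 12 * (1 / P ^ 7) * (4 / P ^ 6))) := by
      rw [sq]
      gcongr
      · linarith
      · norm_num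
    refine c1.trans ((le_of_eq (b := 128 / P ^ 4) (by field_simp; norm_num)).trans ?_)
    rw [div_le_div_iff₀ (by positivity) (by positivity)]
    have : (k : ℝ) ^ 2 ≤ P ^ 2 := by gcongr; linarith
    nlinarith [mul_le_mul_of_nonneg_right (show 2048 ≤ P ^ 2 by nlinarith) (sq_nonneg P)]
  · rw [div_le_div_iff₀ (by positivity) (by positivity)]
    have : 16 * P * 1 ≤ P * P * P ^ 4 := by gcongr; exacts [by linarith, pw 4]
    have : P * P * P ^ 4 = P ^ 6 := by ring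
    linarith
  · rw [div_le_div_iff₀ (by positivity) (by positivity)]
    nlinarith [pw 6, pow_succ' P 6]

end Pool.Agent.Lib.US.A80
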