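import Pool.Agent.Lib.US.A80

/-! The pivot in explicit form. -/

namespace Pool.Agent.Lib.US.A80

open Finset
open Pool.Agent.Lib.FL.H64 (IsRk cl)

theorem kp_kn {m : ℕ} {σ : Cone} {T : Finset Ix} {c d : Ix} (h : kn m σ T c d) : ¬kp m σ T c d :=
  fun h' => h.1 h'.1

theorem thN_cast (m : ℕ) (ρ : Finset ℕ → ℕ) (θ : Ix → ℕ) (c : Ix) :
    (thN m ρ θ c : ℝ) = (sys (range m) ρ).th (fun c => θ c) c := by
  unfold thN Sys.th
  by_cases h : c ∈ walls (range m) ρ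
  · rw [if_pos h, if_pos (show c ∈ (sys (range m) ρ).Kw from h), Nat.cast_zero]
  · rw [if_neg h, if_neg (show c ∉ (sys (range m) ρ).Kw from h)]

open Classical in
theorem cdN_eq (hK : St_KAP) {m : ℕ} {ρ : Finset ℕ → ℕ} (hρ : IsRk ρ) {σ : Cone} {T : Finset Ix}
    {c : Ix} (hc : c ∈ T) (hB : (sys (range m) ρ).IsB σ T) :
    cdN m ρ σ T c = (sys (range m) ρ).cand σ T c := by
  ext d
  rw [Sys.mem_cand, cdN, mem_filter]
  refine and_congr_right fun hd => and_congr_right fun _ => ?_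
  rw [hK m ρ hρ σ T hB c hc d hd]
  constructor
  · intro h
    rw [if_neg (kp_kn h), if_pos h]
  · intro h
    split_ifs at h with h1 h2
    · norm_num at h
    · exact h2
    · norm_num at h

open Classical in
theorem slN_eq (hK : St_KAP) {m : ℕ} {ρ : Finset ℕ → ℕ} (hρ : IsRk ρ) {σ : Cone} {T : Finset Ix}
    {θ : Ix → ℕ} (hV : (sys (range m) ρ).Vx (fun c => θ c) σ T) {d : Ix}
    (hd : d ∈ (sys (range m) ρ).Cn) (hn : d ∉ T) :
    (slN m ρ θ σ T d : ℝ) = (sys (range m) ρ).sl (fun c => θ c) σ T d := by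
  have h1 : (sys (range m) ρ).sl (fun c => θ c) σ T d =
      ((thN m ρ θ d + ∑ c ∈ T.filter fun c => kn m σ T c d, thN m ρ θ c : ℕ) : ℝ) -
        ((∑ c ∈ T.filter fun c => kp m σ T c d, thN m ρ θ c : ℕ) : ℝ) := by
    unfold Sys.sl
    rw [Sys.L_pt, Nat.cast_add, Nat.cast_sum, Nat.cast_sum, sum_filter, sum_filter, thN_cast,
      add_sub_assoc, ← sum_sub_distrib, sub_eq_add_neg, ← sum_neg_distrib]
    refine congrArg _ (sum_congr rfl fun c hc => ?_)
    rw [hK m ρ hρ σ T hV.1 c hc d hd, thN_cast]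
    by_cases a : kp m σ T c d
    · rw [if_pos a, if_pos a, if_neg fun b => kp_kn b a]; ring
    · rw [if_neg a, if_neg a]
      split_ifs <;> ring
  have h2 := hV.2 d hd hn
  rw [h1] at h2 ⊢
  unfold slN
  rw [Nat.cast_sub (Nat.cast_le (α := ℝ).1 (sub_pos.1 h2).le)]

theorem piv (hAX : St_AX) (hK : St_KAP) : St_PIV := by
  intro m ρ hρ σ T c hc
  refine ⟨cdN_eq hK hρ hc, fun θ hG hV hb => ?_⟩
  have hA := hAX (range m) ρ hρ
  have hs : ∀ d ∈ (sys (range m) ρ).cand σ T c,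
      (slN m ρ θ σ T d : ℝ) = (sys (range m) ρ).sl (fun c => θ c) σ T d := fun d hd =>
    slN_eq hK hρ hV (Sys.mem_cand.1 hd).1 (Sys.mem_cand.1 hd).2.1
  obtain ⟨h1, h2⟩ := Sys.ent_spec (θ := fun c => (θ c : ℝ)) hb
  have hm : mnN m ρ θ σ T c = {(sys (range m) ρ).ent (fun c => θ c) σ T c} := by
    ext d
    rw [mnN, cdN_eq hK hρ hc hV.1, mem_filter, mem_singleton]
    constructor
    · rintro ⟨a1, a2⟩
      refine (Sys.ent_eq hA hG hV hc a1 fun e he => ?_).symm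
      rw [← hs d a1, ← hs e he]
      exact Nat.cast_le.2 (a2 e he)
    · rintro rfl
      refine ⟨h1, fun e he => (Nat.cast_le (α := ℝ)).1 ?_⟩
      rw [hs _ h1, hs e he]
      exact h2 e he
  refine ⟨?_, ?_⟩
  · rw [nxN, hm, Sys.nxt, insert_eq]
  · rw [lnN, hm, sum_singleton, hs _ h1]
    rfl

end Pool.Agent.Lib.US.A80
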