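import Pool.Agent.Lib.US.A80

/-! The pivot in explicit form. -/

namespace Pool.Agent.Lib.US.A80

open Finset
open Pool.Agent.Lib.FL.H64 (IsRk cl)

theorem piv13 (hAX : St_AX) (hK : St_KAP) : St_PIV := by
  classical
  intro m ρ hρ σ T c hc
  have ex : ∀ c d, kn m σ T c d → ¬kp m σ T c d := fun c d h h' => h.1 h'.1
  have h1 : (sys (range m) ρ).IsB σ T → cdN m ρ σ T c = (sys (range m) ρ).cand σ T c := fun hB => by
    ext d
    rw [cdN, mem_filter, Sys.mem_cand]
    refine and_congr_right fun hd => and_congr_right fun _ => ?_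
    rw [hK m ρ hρ σ T hB c hc d hd]
    by_cases h2 : kn m σ T c d
    · simp [h2, ex c d h2]
    · rw [if_neg h2]
      split_ifs <;> norm_num [h2]
  refine ⟨h1, fun θ hG hV hb => ?_⟩
  have hth : ∀ d, (thN m ρ θ d : ℝ) = (sys (range m) ρ).th (fun c => θ c) d := fun d => by
    unfold thN Sys.th
    change _ = if d ∈ walls (range m) ρ then _ else _
    split_ifs <;> simp
  have h2 : ∀ d ∈ (sys (range m) ρ).cand σ T c,
      (slN m ρ θ σ T d : ℝ) = (sys (range m) ρ).sl (fun c => θ c) σ T d := fun d hd => by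
    obtain ⟨a1, a2, -⟩ := Sys.mem_cand.1 hd
    have a3 := hV.2 d a1 a2
    have a4 : (sys (range m) ρ).sl (fun c => θ c) σ T d =
        ((thN m ρ θ d + ∑ c ∈ T.filter fun c => kn m σ T c d, thN m ρ θ c : ℕ) : ℝ) -
          ((∑ c ∈ T.filter fun c => kp m σ T c d, thN m ρ θ c : ℕ) : ℝ) := by
      push_cast
      rw [Sys.sl, Sys.L_pt, hth, sum_filter, sum_filter, add_sub_assoc, ← sum_sub_distrib,
        sub_eq_add_neg, ← sum_neg_distrib]
      congr 1
      refine sum_congr rfl fun e he => ?_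
      rw [hK m ρ hρ σ T hV.1 e he d a1, hth]
      by_cases h3 : kn m σ T e d
      · simp [h3, ex e d h3]
      · rw [if_neg h3, if_neg h3]
        split_ifs <;> simp
    rw [a4] at a3 ⊢
    rw [slN, Nat.cast_sub (by exact_mod_cast (sub_pos.1 a3).le)]
  obtain ⟨a1, a2⟩ := Sys.ent_spec (θ := fun c => (θ c : ℝ)) hb
  have h3 : mnN m ρ θ σ T c = {(sys (range m) ρ).ent (fun c => θ c) σ T c} := by
    ext d
    rw [mnN, h1 hV.1, mem_filter, mem_singleton]
    constructor
    · rintro ⟨b1, b2⟩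
      refine (Sys.ent_eq (hAX _ _ hρ) hG hV hc b1 fun e he => ?_).symm
      rw [← h2 d b1, ← h2 e he]
      exact_mod_cast b2 e he
    · rintro rfl
      refine ⟨a1, fun e he => ?_⟩
      have := a2 e he
      rw [Sys.len, ← h2 _ a1, ← h2 e he] at this
      exact_mod_cast this
  exact ⟨by rw [nxN, h3, Sys.nxt, ← insert_eq], by rw [lnN, h3, sum_singleton, h2 _ a1, Sys.len]⟩

end Pool.Agent.Lib.US.A80
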