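import Pool.Agent.Lib.US.A80

/-! The estimator runs in polynomial time. -/

namespace Pool.Agent.Lib.US.A80

open Finset Pool.Agent.Lib.helper82 Pool.Agent.Lib.MP_b67cc8_lc Pool.Agent.US.Tick72
open Pool.Agent.Lib.MP_dec383_lc (UN)
open Pool.Agent.FL.Mix28 PT

namespace H43

theorem pst_pos {u v : ℕ → List Bool → ℕ} (hv : ∀ j x, 0 < v j x) (k t : ℕ) :
    ∀ (s : ℕ × ℕ × ℕ) (r : List Bool), 0 < s.2.2 → 0 < (rit k (pst u v) t s r).2.2 := by
  induction t with
  | zero => exact fun s r h => h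
  | succ t ih => exact fun s r h => ih (pst u v s (r.take k)) (r.drop k) (mul_pos h (hv _ _))

variable {α β : Type} [Enc α] [Enc β] {w m t : α → ℕ}

theorem un_w (h : UN fun a => 2 ^ w a) : UN w :=
  ((size_un h.pt).sub (const 1)).congr fun a => by rw [Nat.size_pow]; rfl

theorem un_pw (h : UN fun a => 2 ^ w a) (c : ℕ) : UN fun a => 2 ^ (c * w a) :=
  (h.pow c).congr fun a => by rw [← pow_mul, mul_comm]

theorem un_NN (h : UN fun a => 2 ^ w a) : UN fun a => NN (w a) :=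
  ((UN.const 8).mul (un_w h)).mul (un_pw h 8)

theorem un_KK (h : UN fun a => 2 ^ w a) : UN fun a => KK (w a) :=
  ((UN.const 8).mul (un_w h)).mul (un_NN h)

theorem a0_pt (h : UN fun a => 2 ^ w a) (hm : UN m) (ht : PT t) (c : ℕ) :
    PT fun a => a0 c (w a) (m a) (t a) :=
  mul (mul (const 2) ((((UN.const 2).mul hm).add (UN.const 2)).pow 3).pt)
    (mul (const c) (mul (pow_pt (succ (un_pw h 8).pt) ((un_NN h).min ht))
      (pow_pt (un_pw h 8).pt ((un_NN h).sub ht))))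

theorem aa_pi (h : UN fun a => 2 ^ w a) (hm : UN m) (ht : PT t) (c0 c1 c2 : ℕ) :
    PI fun a => aa c0 c1 c2 (w a) (m a) (t a) :=
  iteEq (fst snd') (const 0) (PT.comp (a0_pt h hm ht c0) fst') (iteEq (fst snd') (const 1)
    (PT.comp (a0_pt h hm (un_NN h).pt c1) fst') (PT.comp (a0_pt h hm (un_NN h).pt c2) fst'))

theorem env_pi (h : UN fun a => 2 ^ w a) {y : α → List Bool} (hy : PT y) :
    PI fun a => env (KK (w a)) ix (y a) :=
  env_pt (ix := fun _ : α × Ix => ix) ((un_KK h).comp fst')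
    ((add (mul (const 4) (snd snd')) ((UN.const 3).min (fst snd')).pt).congr fun p => by
      rw [min_comm]; rfl) (PT.comp hy fst')

theorem pr_comp {ρ : α → Finset ℕ → ℕ} (h : PR ρ) {f : β → α} (hf : PT f) :
    PR fun b => ρ (f b) := UN.comp h (pair (PT.comp hf fst') snd')

theorem lam_pt (h : UN fun a => 2 ^ w a) : PT fun a => 2 ^ (2 * w a + KK (w a)) :=
  pow_pt (const 2) (((UN.const 2).mul (un_w h)).add (un_KK h))

end H43

open H43 in
theorem prun (hE : St_ENC) (hS : St_PS) (hT : St_PTOP) : St_PRUN := by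
  intro c0 c1 c2
  refine ⟨fun w m ρ x => pst_pos (fun j y => pow_pos (Nat.succ_pos _) _) _ _ _ _ one_pos,
    fun α _ w m ρ hw hm hρ => ⟨?_, (((un_KK hw).mul ((UN.const 4).mul hm)).add
      (((un_pw hw 12).mul (un_pw hw 160)).mul (un_NN hw))).mul (un_NN hw),
      fun c => a0_pt hw hm (const 0) c, fun c => a0_pt hw hm (un_NN hw).pt c⟩⟩
  obtain ⟨B, hB, hB'⟩ := hE.2 (α × List Bool) (fun p => m p.1) (hm.comp fst')
  have f1 : PT fun p : (((α × List Bool) × List Bool) × ℕ) × Code × List Bool => p.1.1.1.1 :=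
    fst (fst (fst fst'))
  have f2 : PT fun p : (((α × List Bool) × List Bool) × ℕ) × Code => p.1.1.1.1 :=
    fst (fst (fst fst'))
  have f3 : PT fun p : (α × List Bool) × List Bool => p.1.1 := fst fst'
  have hc := (hS _ _ _ _ _ (hm.comp f2) (pr_comp hρ f2) (const 0) snd').2.1
  refine est_pt (α := α × List Bool) (dec := fun _ => _root_.id)
    (st := fun p y t => stepL Prod.snd Prod.fst
      (fun v => wC (m p.1) (ρ p.1) (2 ^ (2 * w p.1 + KK (w p.1))) (dec (m p.1) v))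
      fun v => dsC (m p.1) (ρ p.1) (2 ^ (2 * w p.1 + KK (w p.1)) * 2 ^ (20 * w p.1))
        (env (KK (w p.1)) ix y) (aa c0 c1 c2 (w p.1) (m p.1) t) (dec (m p.1) v))
    (s₀ := fun p y => enc (m p.1) (top (m p.1) (ρ p.1) (env (KK (w p.1)) ix y)))
    (U := fun p _ _ v => (2 ^ (8 * w p.1)) ^ cnt (m p.1) (dec (m p.1) v))
    (V := fun p _ _ v => (2 ^ (8 * w p.1) + 1) ^ cnt (m p.1) (dec (m p.1) v))
    (((un_KK hw).mul ((UN.const 4).mul hm)).comp fst') ((un_pw hw 12).comp fst')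
    ((un_pw hw 160).comp fst') ((un_NN hw).comp fst') snd' ?_ hB (fun p y t v x => ?_)
    (hT _ _ _ _ (hm.comp f3) (pr_comp hρ f3) (env_pi (hw.comp f3) snd'))
    (pow_pt ((un_pw hw 8).comp f2).pt hc) (pow_pt (succ ((un_pw hw 8).comp f2).pt) hc) snd'
  · exact stepL_pt (hd := fun _ => Prod.snd) (C := fun _ => Prod.fst) (snd snd') (fst snd')
      (hS _ _ _ _ _ (hm.comp f1) (pr_comp hρ f1) (lam_pt (hw.comp f1)) (fst snd')).1
      ((hS _ _ _ _ _ (hm.comp f1) (pr_comp hρ f1)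
        (mul (lam_pt (hw.comp f1)) ((un_pw hw 20).comp f1).pt) (fst snd')).2.2 _ _
        (env_pi (hw.comp f1) (snd (fst fst')))
        (aa_pi (hw.comp f1) (hm.comp f1) (snd fst') c0 c1 c2)) (fst snd') (snd snd')
  · refine stepL_sz (fun d hd => ?_) x
    obtain ⟨q, -, rfl⟩ := List.mem_map.1 hd
    exact (hB' p _).trans (Nat.le_add_left _ _)

end Pool.Agent.Lib.US.A80
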