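import Pool.Agent.Lib.US.PF80

/-! The list of the darts at a node in polynomial time. -/

namespace Pool.Agent.Lib.US.A80

open Finset Pool.Agent.Lib.helper82 Pool.Agent.US.Tick72 PT
open Pool.Agent.Lib.MP_dec383_lc (UN)

namespace S80
variable {α : Type} [Enc α] {m : α → ℕ} {ρ : α → Finset ℕ → ℕ} {σ : α → Cone} {T : α → Finset Ix}
  {c : α → Ix} {e : α → ℕ}

theorem below (hσ : PC σ) (hc : PT c) : PF fun a => σ a ((c a).1, (c a).2 - 1) :=
  hσ.app (pair (fst hc) (sub_pt (snd hc) (const 1)))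

theorem shP_pf (hm : UN m) (hρ : PR ρ) (hσ : PC σ) (hc : PT c) (he : PT e) :
    PF fun a => shP (m a) (ρ a) (σ a) (c a) (e a) :=
  cl_pf (rs_pr hm hρ (sub_pt (fst hc) (const 3))) (PF.range hm) ((below hσ hc).insert he)

theorem sh_pc (hm : UN m) (hρ : PR ρ) (hσ : PC σ) (hc : PT c) (he : PT e) :
    PC fun a => sh (m a) (ρ a) (σ a) (c a) (e a) :=
  (PF.ite (P := fun p : α × Ix => c p.1 ∈ walls (range (m p.1)) (ρ p.1) ∧ p.2 = c p.1)
    (((walls_pb hm hρ hc).comp fst').and (PB.eq snd' (PT.comp hc fst')))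
    ((shP_pf hm hρ hσ hc he).comp fst') hσ).congr fun p => by
      unfold sh
      by_cases h : c p.1 ∈ walls (range (m p.1)) (ρ p.1)
      · simp only [h, true_and, if_true, Function.update_apply]
      · simp only [h, false_and, if_false]

theorem okE_pb (hm : UN m) (hρ : PR ρ) (hσ : PC σ) (hc : PT c) (he : PT e) :
    PB fun a => okE (m a) (ρ a) (σ a) (c a) (e a) :=
  (walls_pb hm hρ hc).iteP ((PF.mem he (hσ.app (pair (fst hc) (succ (snd hc))))).and
    ((PF.mem he (below hσ hc)).not.and ((shP_pf hm hρ hσ hc he).all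
      (R := fun a f => f ∈ σ a ((c a).1, (c a).2 - 1) ∨ e a ≤ f)
      ((PF.mem snd' ((below hσ hc).comp fst')).or (PB.le (PT.comp he fst') snd')))))
    (PB.eq he (const 0))

theorem key_pt (hm : UN m) (hρ : PR ρ) (hσ : PC σ) (hT : PF T) :
    PT fun a => enc (m a) ((sys (range (m a)) (ρ a)).key (σ a) (T a)) :=
  enc_pt hm (σ := fun a k => if k ∈ T a ∧ k ∈ walls (range (m a)) (ρ a) then ∅ else σ a k)
    (PF.ite (P := fun p : α × Ix => p.2 ∈ T p.1 ∧ p.2 ∈ walls (range (m p.1)) (ρ p.1))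
      ((PF.mem snd' (hT.comp fst')).and (walls_pb (hm.comp fst') (hρ.comp fst') snd'))
      (PF.const ∅) hσ) hT

variable {s : α → Key}

theorem dl_pt (H : St_PV) (hm : UN m) (hρ : PR ρ) (hσ : PC fun a => (s a).1)
    (hT : PF fun a => (s a).2) : PT fun a => dl (m a) (ρ a) (s a) := by
  have m' := hm.comp (fst' (β := Ix × ℕ))
  have r' := hρ.comp (fst' (β := Ix × ℕ))
  have s' := hσ.comp (fst' (β := Ix × ℕ))
  have t' := hT.comp (fst' (β := Ix × ℕ))
  have k : PB fun p : α × Ix × ℕ => p.2.1 ∈ (s p.1).2 ∧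
      Disjoint ((s p.1).2.erase p.2.1) (walls (range (m p.1)) (ρ p.1)) ∧
      okE (m p.1) (ρ p.1) (s p.1).1 p.2.1 p.2.2 ∧ (cdN (m p.1) (ρ p.1)
        (sh (m p.1) (ρ p.1) (s p.1).1 p.2.1 p.2.2) (s p.1).2 p.2.1).Nonempty :=
    (PF.mem (fst snd') t').and (((t'.erase (fst snd')).disjoint (walls_pf m' r')).and
      ((okE_pb m' r' s' (fst snd') (snd snd')).and
        (H _ _ _ _ _ _ m' r' (sh_pc m' r' s' (fst snd') (snd snd')) t' (fst snd')).1.nonempty))
  obtain ⟨b, b1, b2⟩ := k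
  refine (PT.filter (P := fun a p => b (a, p)) (prd_pt (CL_pt hm) hm.range) b1).congr fun a => ?_
  unfold dl
  exact List.filter_congr fun p _ => by rw [Bool.eq_iff_iff, b2]; simp only [decide_eq_true_eq]

theorem ds_pt (H : St_PV) (hm : UN m) (hρ : PR ρ) (hσ : PC fun a => (s a).1)
    (hT : PF fun a => (s a).2) {L : α → ℕ} {θ a : α → Ix → ℕ} (hL : PT L) (hθ : PI θ) (ha : PI a) :
    PT fun z => dsC (m z) (ρ z) (L z) (θ z) (a z) (s z) := by
  have m' := hm.comp (fst' (β := Ix × ℕ))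
  have r' := hρ.comp (fst' (β := Ix × ℕ))
  have s' := sh_pc m' r' (hσ.comp (fst' (β := Ix × ℕ))) (fst snd') (snd snd')
  have t' := hT.comp (fst' (β := Ix × ℕ))
  obtain ⟨k0, k⟩ := (H _ _ _ _ _ _ m' r' s' t' (fst snd')).2 _ (hθ.comp fst')
  have k1 : PT fun p : α × Ix × ℕ =>
      if p.2.1 ∈ walls (range (m p.1)) (ρ p.1) then 1 else a p.1 p.2.1 :=
    (walls_pb m' r' (fst snd')).ite (const 1) ((ha.comp fst').app (fst snd'))
  have k2 : PT fun p : α × Ix × ℕ => hdC (m p.1) (ρ p.1) (θ p.1) (s p.1) p.2 := key_pt m' r' s' k0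
  have k3 : PT fun p : α × Ix × ℕ => L p.1 := PT.comp hL fst'
  have k4 := pair (mul k1 (succ (div_pt k3 k))) k2
  unfold dsC
  exact PT.map (dl_pt H hm hρ hσ hT) k4

end S80

theorem ps (H : St_PV) : St_PS := by
  intro α _ m ρ L v hm hρ hL hv
  obtain ⟨hσ, hT⟩ := dec_pc hm hv
  exact ⟨(hT.inter (walls_pf hm hρ)).empty.ite hL (const 0),
    ((PF.range hm).filter (R := fun z e => (0, e) ∈ (dec (m z) (v z)).2)
      (PF.mem (pair (const 0) snd') (hT.comp fst'))).card,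
    fun θ a hθ ha => S80.ds_pt H hm hρ hσ hT hL hθ ha⟩

end Pool.Agent.Lib.US.A80
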