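import Pool.Agent.Lib.US.PF80

/-! The list of the darts is computed in polynomial time. -/

namespace Pool.Agent.Lib.US.A80

open Finset Pool.Agent.Lib.helper82 Pool.Agent.Lib.MP_b67cc8_lc Pool.Agent.US.Tick72
open Pool.Agent.Lib.FL.H64 (IsRk cl)
open Pool.Agent.Lib.MP_dec383_lc (UN)
open PT

namespace S13

variable {α : Type} [Enc α] {m : α → ℕ} {ρ : α → Finset ℕ → ℕ} {σ : α → Cone} {c : α → Ix}
  {e : α → ℕ} {T : α → Finset Ix}

theorem shP_pf (hm : UN m) (hρ : PR ρ) (hσ : PC σ) (hc : PT c) (he : PT e) :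
    PF fun a => shP (m a) (ρ a) (σ a) (c a) (e a) :=
  cl_pf (rs_pr hm hρ (sub_pt (fst hc) (const 3))) (PF.range hm)
    ((hσ.app (pair (fst hc) (sub_pt (snd hc) (const 1)))).insert he)

theorem sh_pc (hm : UN m) (hρ : PR ρ) (hσ : PC σ) (hc : PT c) (he : PT e) :
    PC fun a => sh (m a) (ρ a) (σ a) (c a) (e a) :=
  (PF.ite (((walls_pb hm hρ hc).comp fst').and (PB.eq snd' (PT.comp hc fst')))
    ((shP_pf hm hρ hσ hc he).comp fst') hσ).congr fun p => by
      unfold sh
      beta_reduce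
      by_cases h1 : c p.1 ∈ walls (range (m p.1)) (ρ p.1)
      · by_cases h2 : p.2 = c p.1
        · rw [if_pos ⟨h1, h2⟩, if_pos h1, h2, Function.update_self]
        · rw [if_neg fun h => h2 h.2, if_pos h1, Function.update_of_ne h2]
      · rw [if_neg fun h => h1 h.1, if_neg h1]

theorem okE_pb (hm : UN m) (hρ : PR ρ) (hσ : PC σ) (hc : PT c) (he : PT e) :
    PB fun a => okE (m a) (ρ a) (σ a) (c a) (e a) := by
  have h1 := hσ.app (pair (fst hc) (sub_pt (snd hc) (const 1)))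
  exact (walls_pb hm hρ hc).iteP
    ((PF.mem he (hσ.app (pair (fst hc) (add (snd hc) (const 1))))).and ((PF.mem he h1).not.and
      ((shP_pf hm hρ hσ hc he).all (R := fun a f => f ∈ σ a ((c a).1, (c a).2 - 1) ∨ e a ≤ f)
        ((PF.mem snd' (h1.comp fst')).or (PB.le (PT.comp he fst') snd')))))
    (PB.eq he (const 0))

theorem key_pc (hm : UN m) (hρ : PR ρ) (hσ : PC σ) (hT : PF T) :
    PC fun a => ((sys (range (m a)) (ρ a)).key (σ a) (T a)).1 :=
  (PF.ite ((PF.mem snd' (hT.comp fst')).and (walls_pb (hm.comp fst') (hρ.comp fst') snd'))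
    (PF.const ∅) hσ).congr fun _ => rfl

end S13

open S13 in
theorem ps13 (hV : St_PV) : St_PS := by
  intro α _ m ρ L v hm hρ hL hv
  obtain ⟨h1, h2⟩ := dec_pc hm hv
  refine ⟨(h2.inter (walls_pf hm hρ)).empty.ite hL (const 0),
    ((PF.range hm).filter (R := fun a e => (0, e) ∈ (dec (m a) (v a)).2)
      (PF.mem (pair (const 0) snd') (h2.comp fst'))).card, fun θ a hθ ha => ?_⟩
  have m' := hm.comp (fst' (β := Ix × ℕ))
  have ρ' := hρ.comp (fst' (β := Ix × ℕ))
  have c' : PT fun p : α × Ix × ℕ => p.2.1 := fst snd'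
  have e' : PT fun p : α × Ix × ℕ => p.2.2 := snd snd'
  have s' := sh_pc m' ρ' (h1.comp fst') c' e'
  obtain ⟨h3, h4⟩ := hV _ _ _ _ _ _ m' ρ' s' (h2.comp fst') c'
  obtain ⟨h5, h6⟩ := h4 _ (hθ.comp fst')
  classical
  exact map (PB.filterL (prd_pt (CL_pt hm) hm.range) ((PF.mem c' (h2.comp fst')).and
      ((((h2.comp fst').erase c').disjoint (walls_pf m' ρ')).and
        ((okE_pb m' ρ' (h1.comp fst') c' e').and h3.nonempty))))
    (pair (mul ((walls_pb m' ρ' c').ite (const 1) ((ha.comp fst').app c'))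
      (add (div_pt (PT.comp hL fst') h6) (const 1))) (enc_pt m' (key_pc m' ρ' s' h5) h5))

end Pool.Agent.Lib.US.A80
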