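import Pool.Agent.Lib.US.A80

/-! The starting terminal is computed in polynomial time. -/

namespace Pool.Agent.Lib.US.A80

open Finset Pool.Agent.Lib.helper82 Pool.Agent.Lib.MP_b67cc8_lc Pool.Agent.US.Tick72
open Pool.Agent.Lib.FL.H64 (IsRk cl)
open Pool.Agent.Lib.MP_dec383_lc (UN)
open PT

namespace P13

variable {α β γ : Type} [Enc α] [Enc β] [Enc γ]

def PR' (ρ : α → Finset ℕ → ℕ) : Prop := PT fun p : α × List ℕ => ρ p.1 p.2.toFinset

theorem pf_comp [DecidableEq β] {A : α → Finset β} (h : PF A) {g : γ → α} (hg : PT g) :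
    PF fun c => A (g c) := by
  obtain ⟨l, h1, h2⟩ := h
  exact ⟨fun c => l (g c), PT.comp h1 hg, fun c => h2 _⟩

theorem pf_filter [DecidableEq β] [Inhabited β] {A : α → Finset β} (h : PF A) {P : α → β → Prop}
    [∀ a, DecidablePred (P a)] (hP : PT fun p : α × β => decide (P p.1 p.2)) :
    PF fun a => (A a).filter (P a) := by
  obtain ⟨l, h1, h2⟩ := h
  exact ⟨fun a => (l a).filter fun b => decide (P a b), PT.filter h1 hP, fun a => by
    ext b
    simp [← h2 a]⟩

theorem pf_mem [DecidableEq β] [Inhabited β] {A : α → Finset β} (h : PF A) {x : α → β} (hx : PT x) :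
    PT fun a => decide (x a ∈ A a) := by
  obtain ⟨l, h1, h2⟩ := h
  exact (PT.mem hx h1).congr fun a => decide_eq_decide.2 (by rw [← h2 a, List.mem_toFinset])

theorem pf_insert [DecidableEq β] {A : α → Finset β} (h : PF A) {x : α → β} (hx : PT x) :
    PF fun a => insert (x a) (A a) := by
  obtain ⟨l, h1, h2⟩ := h
  exact ⟨fun a => x a :: l a, PT.cons hx h1, fun a => by rw [List.toFinset_cons, h2]⟩

theorem pf_empty [DecidableEq β] : PF fun _ : α => (∅ : Finset β) :=
  ⟨fun _ => [], PT.const _, fun _ => rfl⟩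

variable {m : α → ℕ} {r : α → Finset ℕ → ℕ} {κ : α → ℕ → ℝ} {A : α → Finset ℕ} {e : α → ℕ}

theorem pf_range (hm : UN m) : PF fun a => range (m a) :=
  ⟨fun a => List.range (m a), hm.range, fun _ => List.toFinset_range _⟩

theorem pr_app (hr : PR' r) (h : PF A) : PT fun a => r a (A a) := by
  obtain ⟨l, h1, h2⟩ := h
  exact (PT.comp hr (pair PT.id h1)).congr fun a => by simp only [h2]

theorem pr_comp (hr : PR' r) {g : γ → α} (hg : PT g) : PR' fun c => r (g c) :=
  PT.comp hr (pair (PT.comp hg fst') snd')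

theorem pf_cl (hm : UN m) (hr : PR' r) (h : PF A) : PF fun a => cl (r a) (range (m a)) (A a) :=
  pf_filter (pf_range hm) (PT.eq (pr_app (pr_comp hr fst') (pf_insert (pf_comp h fst') snd'))
    (PT.comp (pr_app hr h) fst'))

theorem pr_dual (hm : UN m) (hr : PR' r) : PR' fun a => FL.H64.dual (r a) (range (m a)) := by
  have h1 : PF fun p : α × List ℕ => p.2.toFinset := ⟨_, snd', fun _ => rfl⟩
  have h2 := pf_mem (pf_comp h1 (fst' (β := ℕ))) snd'
  refine (sub_pt (add (length (PT.filter (P := fun p b => decide (b ∈ p.2.toFinset))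
    (hm.comp fst').range h2)) (pr_app (pr_comp hr fst') (pf_filter
      (P := fun p b => b ∉ p.2.toFinset) (pf_range (hm.comp fst'))
      ((PT.not h2).congr fun _ => by simp)))) (pr_app (pr_comp hr fst')
      (pf_range (hm.comp fst')))).congr fun p => ?_
  beta_reduce
  rw [FL.H64.dual, ← List.toFinset_card_of_nodup (List.nodup_range.filter _), sdiff_eq_filter]
  congr 3
  ext b
  simp [and_comm]

theorem pf_NL (hm : UN m) (hr : PR' r) : PF fun a => NL (range (m a)) (r a) := by
  simp only [NL, sdiff_eq_filter]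
  exact pf_filter (pf_range hm) ((PT.not (pf_mem (pf_comp (pf_cl hm hr pf_empty) fst') snd')).congr
    fun _ => by simp)

variable (hm : UN m) (hr : PR' r) (hκ : PT fun p : α × ℕ × ℕ => decide (κ p.1 p.2.1 < κ p.1 p.2.2))
include hm hr hκ

theorem pf_bef : PF fun p : α × ℕ => bef (range (m p.1)) (r p.1) (κ p.1) p.2 :=
  pf_filter (pf_comp (pf_NL hm hr) fst') (PT.comp hκ (pair (fst fst') (pair snd' (snd fst'))))

theorem pt_lev : PT fun p : α × ℕ => lev (range (m p.1)) (r p.1) (κ p.1) p.2 :=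
  pr_app (pr_comp hr fst') (pf_insert (pf_bef hm hr hκ) snd')

theorem pf_grC : PF fun p : α × ℕ => grC (range (m p.1)) (r p.1) (κ p.1) p.2 :=
  pf_cl (hm.comp fst') (pr_comp hr fst') (pf_filter (pf_comp (pf_NL hm hr) fst')
    (le (PT.comp (pt_lev hm hr hκ) (pair (fst fst') snd')) (snd fst')))

theorem pf_pins : PF fun a => pins (range (m a)) (r a) (κ a) :=
  pf_filter (pf_NL hm hr) (lt (pr_app (pr_comp hr fst') (pf_bef hm hr hκ)) (pt_lev hm hr hκ))

omit hm hr hκ in
theorem prd_pt [Inhabited β] [Inhabited γ] {l : α → List β} {l' : α → List γ} (h : PT l)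
    (h' : PT l') : PT fun a => prd (l a) (l' a) :=
  flatMap h (map (PT.comp h' fst') (pair (snd fst') snd'))

end P13

open P13 in
theorem ptop : St_PTOP := by
  intro α _ m ρ θ hm hρ hθ
  replace hρ : PR' ρ := UN.pt hρ
  have t : ∀ t : ℕ, (PT fun p : α × ℕ × ℕ => θ p.1 (t, p.2.1)) ∧
      PT fun p : α × ℕ × ℕ => θ p.1 (t, p.2.2) := fun t =>
    ⟨PT.comp hθ (pair fst' (pair (const t) (fst snd'))),
      PT.comp hθ (pair fst' (pair (const t) (snd snd')))⟩
  have k0 : PT fun p : α × ℕ × ℕ =>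
      decide (kk (fun c => θ p.1 c) 0 p.2.1 < kk (fun c => θ p.1 c) 0 p.2.2) :=
    (lt (add (t 0).1 (t 1).1) (add (t 0).2 (t 1).2)).congr fun p => decide_eq_decide.2 (by
      simp only [kk, if_true]
      norm_cast)
  have k1 : PT fun p : α × ℕ × ℕ =>
      decide (kk (fun c => θ p.1 c) 1 p.2.1 < kk (fun c => θ p.1 c) 1 p.2.2) :=
    (lt (add (t 2).1 (t 0).2) (add (t 2).2 (t 0).1)).congr fun p => decide_eq_decide.2 (by
      simp only [kk, one_ne_zero, if_false]
      rw [sub_lt_sub_iff]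
      norm_cast)
  have r1 := pr_dual hm hρ
  have c0 := pf_mem (pf_comp (pf_grC (κ := fun a => kk (fun c => θ a c) 0) hm hρ k0)
    (g := fun p : α × Ix × ℕ => (p.1, p.2.1.2))
    (pair fst' (snd (fst snd')))) (snd snd')
  have c1 := pf_mem (pf_comp (pf_grC (κ := fun a => kk (fun c => θ a c) 1) hm r1 k1)
    (g := fun p : α × Ix × ℕ => (p.1, p.2.1.2))
    (pair fst' (snd (fst snd')))) (snd snd')
  have d0 := pf_mem (pf_comp (pf_range hm) (fst' (β := Ix))) (snd snd')
  have d1 := pf_mem (pf_comp (pf_pins (κ := fun a => kk (fun c => θ a c) 0) hm hρ k0)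
    (fst' (β := Ix))) (snd snd')
  have d2 := pf_mem (pf_comp (pf_pins (κ := fun a => kk (fun c => θ a c) 1) hm r1 k1)
    (fst' (β := Ix))) (snd snd')
  refine pair (PT.filter (prd_pt (prd_pt (const _) (hm.add (UN.const 1)).range) hm.range)
    ((PT.or (PT.and (PT.eq (fst (fst snd')) (const 3)) c0)
      (PT.and (PT.eq (fst (fst snd')) (const 4)) c1)).congr ?_))
    (PT.filter (prd_pt (const _) hm.range) ((PT.or (PT.and (PT.eq (fst snd') (const 0)) d0)
      (PT.or (PT.and (PT.eq (fst snd') (const 1)) d1)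
        (PT.and (PT.eq (fst snd') (const 2)) d2))).congr ?_))
  · rintro ⟨a, ⟨t, i⟩, e⟩
    rw [Bool.eq_iff_iff]
    simp only [Bool.or_eq_true, Bool.and_eq_true, decide_eq_true_eq, top, topC]
    by_cases h3 : t = 3
    · subst h3
      simp [rs]
    · by_cases h4 : t = 4
      · subst h4
        simp [rs]
      · simp [h3, h4]
  · rintro ⟨a, t, e⟩
    rw [Bool.eq_iff_iff]
    simp only [Bool.or_eq_true, Bool.and_eq_true, decide_eq_true_eq, top, mem_topT, rs, if_true,
      one_ne_zero, if_false]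

end Pool.Agent.Lib.US.A80
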