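import Pool.Agent.Lib.US.PF80

/-! The pivot is computed in polynomial time. -/

namespace Pool.Agent.Lib.US.A80

open Finset Pool.Agent.Lib.helper82 Pool.Agent.US.Tick72
open Pool.Agent.Lib.MP_dec383_lc (UN)

variable {α : Type} [Enc α] {m : α → ℕ} {ρ : α → Finset ℕ → ℕ} {σ : α → Cone}
  {T : α → Finset Ix} {c d : α → Ix} {θ : α → Ix → ℕ}

theorem k_pb72 (hZ : St_PZ) (hm : UN m) (hσ : PC σ) (hT : PF T) (hc : PT c) (hd : PT d) :
    (PB fun a => kp (m a) (σ a) (T a) (c a) (d a)) ∧ PB fun a => kn (m a) (σ a) (T a) (c a) (d a) := by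
  obtain ⟨h1, h2⟩ := hZ α m σ hm hσ
  have z : PF fun a => ZZ (m a) (σ a) ((T a).erase (c a)) :=
    h2 (fun a => (T a).erase (c a)) (hT.erase hc)
  have e1 : PT fun a => ends (σ a) (c a) :=
    PT.comp (G := fun p : α × Ix => ends (σ p.1) p.2) (F := fun a => (a, c a)) h1
      (PT.pair PT.id hc)
  have e2 : PT fun a => ends (σ a) (d a) :=
    PT.comp (G := fun p : α × Ix => ends (σ p.1) p.2) (F := fun a => (a, d a)) h1
      (PT.pair PT.id hd)
  have a1 := (PF.mem (PT.fst e2) z).iff (PF.mem (PT.fst e1) z)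
  have a2 := (PF.mem (PT.snd e2) z).iff (PF.mem (PT.fst e1) z)
  exact ⟨(a1.and a2.not).congr fun _ => Iff.rfl, (a1.not.and a2).congr fun _ => Iff.rfl⟩

theorem thN_pi72 (hm : UN m) (hρ : PR ρ) (hθ : PI θ) : PI fun a => thN (m a) (ρ a) (θ a) :=
  (walls_pb (hm.comp PT.fst') (hρ.comp PT.fst') PT.snd').ite (PT.const 0) hθ

theorem slN_pt72 (hZ : St_PZ) (hm : UN m) (hρ : PR ρ) (hθ : PI θ) (hσ : PC σ) (hT : PF T)
    (hd : PT d) : PT fun a => slN (m a) (ρ a) (θ a) (σ a) (T a) (d a) := by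
  classical
  have t := thN_pi72 hm hρ hθ
  have k := k_pb72 (α := α × Ix) hZ (hm.comp PT.fst') (hσ.comp PT.fst') (hT.comp PT.fst') PT.snd'
    (PT.comp hd PT.fst')
  exact sub_pt (PT.add (t.app hd)
    ((hT.filter (R := fun a c => kn (m a) (σ a) (T a) c (d a)) k.2).sum t))
    ((hT.filter (R := fun a c => kp (m a) (σ a) (T a) c (d a)) k.1).sum t)

theorem cdN_pf72 (hZ : St_PZ) (hm : UN m) (hρ : PR ρ) (hσ : PC σ) (hT : PF T) (hc : PT c) :
    PF fun a => cdN (m a) (ρ a) (σ a) (T a) (c a) := by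
  classical
  have k := k_pb72 (α := α × Ix) hZ (hm.comp PT.fst') (hσ.comp PT.fst') (hT.comp PT.fst')
    (PT.comp hc PT.fst') PT.snd'
  exact (((walls_pf hm hρ).union (cons_pf hm hρ)).filter
    (R := fun a d => d ∉ T a ∧ kn (m a) (σ a) (T a) (c a) d)
    ((PF.mem PT.snd' (hT.comp PT.fst')).not.and k.2)).congr fun a => by
      unfold cdN; congr

theorem min_pf72 {A : α → Finset Ix} {f : α → Ix → ℕ} (hA : PF A) (hf : PI f) :
    PF fun a => (A a).filter fun d => ∀ e ∈ A a, f a d ≤ f a e :=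
  hA.filter (R := fun a d => ∀ e ∈ A a, f a d ≤ f a e)
    ((hA.comp PT.fst').all (R := fun (p : α × Ix) e => f p.1 p.2 ≤ f p.1 e)
      (PB.le (PT.comp hf PT.fst') (PT.comp hf (PT.pair (PT.fst PT.fst') PT.snd'))))

theorem pv (hZ : St_PZ) : St_PV := by
  intro α _ m ρ σ T c hm hρ hσ hT hc
  have h1 := cdN_pf72 hZ hm hρ hσ hT hc
  refine ⟨h1, fun θ hθ => ?_⟩
  have s : PI fun a => slN (m a) (ρ a) (θ a) (σ a) (T a) :=
    slN_pt72 hZ (hm.comp PT.fst') (hρ.comp PT.fst') (hθ.comp PT.fst') (hσ.comp PT.fst')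
      (hT.comp PT.fst') PT.snd'
  have h2 : PF fun a => mnN (m a) (ρ a) (θ a) (σ a) (T a) (c a) :=
    (min_pf72 h1 s).congr fun a => by unfold mnN; congr
  exact ⟨(h2.union (hT.erase hc)).congr fun _ => rfl,
    (h2.sum (f := fun a => slN (m a) (ρ a) (θ a) (σ a) (T a)) s).congr fun _ => rfl⟩

end Pool.Agent.Lib.US.A80
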