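import Pool.Agent.Lib.US.A80

/-! The ends of a condition and the component of the ground are computed in polynomial time. -/

namespace Pool.Agent.Lib.US.A80

open Finset Pool.Agent.Lib.helper82 Pool.Agent.Lib.MP_b67cc8_lc Pool.Agent.US.Tick72
open Pool.Agent.Lib.MP_dec383_lc (UN)
open Pool.Agent.Lib.FL.A80.PTc (un_iter sz_filter_le)

namespace PZ

variable {α β γ : Type} [Enc α] [Enc β] [Enc γ]

/-- a property decided in polynomial time -/
def PD (P : α → Prop) : Prop := ∃ b : α → Bool, PT b ∧ ∀ a, b a = true ↔ P a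

theorem pd_and {P Q : α → Prop} (h1 : PD P) (h2 : PD Q) : PD fun a => P a ∧ Q a := by
  obtain ⟨b, a1, a2⟩ := h1
  obtain ⟨c, a3, a4⟩ := h2
  exact ⟨_, a1.and a3, fun a => by rw [Bool.and_eq_true, a2, a4]⟩

theorem pd_or {P Q : α → Prop} (h1 : PD P) (h2 : PD Q) : PD fun a => P a ∨ Q a := by
  obtain ⟨b, a1, a2⟩ := h1
  obtain ⟨c, a3, a4⟩ := h2
  exact ⟨_, a1.or a3, fun a => by rw [Bool.or_eq_true, a2, a4]⟩

theorem pd_eq [DecidableEq β] {f g : α → β} (h1 : PT f) (h2 : PT g) : PD fun a => f a = g a :=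
  ⟨_, h1.eq h2, fun _ => decide_eq_true_iff⟩

theorem pd_iff {P Q : α → Prop} (h1 : PD P) (h2 : PD Q) : PD fun a => P a ↔ Q a := by
  obtain ⟨b, a1, a2⟩ := h1
  obtain ⟨c, a3, a4⟩ := h2
  exact ⟨_, a1.eq a3, fun a => by rw [decide_eq_true_iff, Bool.eq_iff_iff, a2, a4]⟩

theorem pd_lt {f g : α → ℕ} (h1 : PT f) (h2 : PT g) : PD fun a => f a < g a :=
  ⟨_, h1.lt h2, fun _ => decide_eq_true_iff⟩

theorem pf_comp [DecidableEq β] {A : α → Finset β} (h : PF A) {f : γ → α} (hf : PT f) :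
    PF fun c => A (f c) := by
  obtain ⟨l, a1, a2⟩ := h
  exact ⟨_, a1.comp hf, fun c => a2 _⟩

theorem pd_mem [Inhabited β] [DecidableEq β] {A : α → Finset β} (h : PF A) {x : α → β}
    (hx : PT x) : PD fun a => x a ∈ A a := by
  obtain ⟨l, a1, a2⟩ := h
  exact ⟨_, hx.mem a1, fun a => decide_eq_true_iff.trans
    (show x a ∈ l a ↔ x a ∈ A a by rw [← a2, List.mem_toFinset])⟩

theorem pd_ex [Inhabited β] [DecidableEq β] {A : α → Finset β} (h : PF A) {P : α → β → Prop}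
    (hP : PD fun p : α × β => P p.1 p.2) : PD fun a => ∃ y ∈ A a, P a y := by
  obtain ⟨l, a1, a2⟩ := h
  obtain ⟨b, a3, a4⟩ := hP
  refine ⟨_, a1.any (P := fun a y => b (a, y)) a3, fun a => ?_⟩
  simp only [List.any_eq_true, a4, ← a2, List.mem_toFinset]

theorem pd_all [Inhabited β] [DecidableEq β] {A : α → Finset β} (h : PF A) {P : α → β → Prop}
    (hP : PD fun p : α × β => P p.1 p.2) : PD fun a => ∀ y ∈ A a, P a y := by
  obtain ⟨l, a1, a2⟩ := h
  obtain ⟨b, a3, a4⟩ := hP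
  refine ⟨_, a1.all (P := fun a y => b (a, y)) a3, fun a => ?_⟩
  simp only [List.all_eq_true, a4, ← a2, List.mem_toFinset]

theorem sInf_list (L : List ℕ) :
    sInf {e | e ∈ L} = (L.filter fun e => L.all fun f => decide (e ≤ f)).headD 0 := by
  rcases h : L.filter fun e => L.all fun f => decide (e ≤ f) with _ | ⟨e, l⟩
  · rcases Set.eq_empty_or_nonempty {e | e ∈ L} with h1 | h1
    · rw [h1, Nat.sInf_empty]; rfl
    · have h2 : sInf {e | e ∈ L} ∈ L.filter fun e => L.all fun f => decide (e ≤ f) :=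
        List.mem_filter.2 ⟨Nat.sInf_mem h1, List.all_eq_true.2 fun f hf =>
          decide_eq_true (Nat.sInf_le hf)⟩
      rw [h] at h2
      exact absurd h2 List.not_mem_nil
  · have h1 : e ∈ L.filter fun e => L.all fun f => decide (e ≤ f) := h ▸ List.mem_cons_self
    obtain ⟨h2, h3⟩ := List.mem_filter.1 h1
    exact le_antisymm (Nat.sInf_le h2)
      (of_decide_eq_true (List.all_eq_true.1 h3 _ (Nat.sInf_mem (s := {e | e ∈ L}) ⟨e, h2⟩)))

theorem sInf_pt {L : α → List ℕ} (h : PT L) : PT fun a => sInf {e | e ∈ L a} :=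
  (PT.headD (PT.filter (P := fun a e => (L a).all fun f => decide (e ≤ f)) h
    (PT.all (P := fun (p : α × ℕ) f => decide (p.2 ≤ f)) (h.comp PT.fst')
      (PT.le (PT.snd PT.fst') PT.snd'))) 0).congr fun a => (sInf_list (L a)).symm

theorem rep_pt {σ : α → Cone} (hσ : PC σ) (j : ℕ) {i : α × Ix → ℕ} (hi : PT i) :
    PT fun p : α × Ix => rep (σ p.1) j (i p) := by
  obtain ⟨l, a1, a2⟩ := hσ
  have h1 : PT fun p : α × Ix => (l (p.1, 3 + j, i p)).filter fun e =>
      !decide (e ∈ l (p.1, 3 + j, i p - 1)) :=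
    PT.filter (P := fun (p : α × Ix) e => !decide (e ∈ l (p.1, 3 + j, i p - 1))) (a1.comp (PT.fst'.pair ((PT.const _).pair hi))) (PT.not (PT.mem PT.snd'
      (a1.comp ((PT.fst PT.fst').pair ((PT.const _).pair
        (sub_pt (hi.comp PT.fst') (PT.const 1)))))))
  refine (sInf_pt h1).congr fun p => ?_
  rw [rep]
  congr 1
  ext e
  have b1 := a2 (p.1, 3 + j, i p)
  have b2 := a2 (p.1, 3 + j, i p - 1)
  dsimp only at b1 b2
  simp only [ch, ← b1, ← b2, Set.mem_ofPred_eq, List.mem_filter, List.mem_toFinset,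
    Bool.not_eq_true', decide_eq_false_iff_not]

theorem ends_pt {σ : α → Cone} (hσ : PC σ) : PT fun p : α × Ix => ends (σ p.1) p.2 := by
  have h1 : PT fun p : α × Ix => p.2.1 := PT.fst PT.snd'
  have h2 : PT fun p : α × Ix => p.2.2 := PT.snd PT.snd'
  have h3 : ∀ {f g : α × Ix → ℕ} (s t : ℕ), PT f → PT g →
      PT fun p => (((s, f p), (t, g p)) : Ix × Ix) := fun s t hf hg =>
    ((PT.const s).pair hf).pair ((PT.const t).pair hg)
  exact PT.iteEq h1 (PT.const 0) (h3 5 2 (PT.const 0) h2) (PT.iteEq h1 (PT.const 1) (h3 2 0 h2 h2)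
    (PT.iteEq h1 (PT.const 2) (h3 1 2 h2 h2) (PT.iteEq h1 (PT.const 3)
      (h3 0 0 (rep_pt hσ 0 h2.succ) (rep_pt hσ 0 h2))
      (h3 1 1 (rep_pt hσ 1 h2) (rep_pt hσ 1 h2.succ)))))

/-- the list of the coordinates -/
def UL (m : ℕ) : List Ix := (5, 0) :: prd (List.range 3) (List.range m)

theorem mem_UL {m : ℕ} {x : Ix} : x ∈ UL m ↔ x ∈ UU m := by
  obtain ⟨t, e⟩ := x
  simp only [UL, UU, prd, List.mem_cons, List.mem_flatMap, List.mem_map, List.mem_range,
    mem_insert, mem_product, mem_range, Prod.mk.injEq]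
  exact or_congr Iff.rfl ⟨fun ⟨a, h1, b, h2, h3, h4⟩ => ⟨h3 ▸ h1, h4 ▸ h2⟩,
    fun h => ⟨t, h.1, e, h.2, rfl, rfl⟩⟩

theorem UL_pt {m : α → ℕ} (hm : UN m) : PT fun a => UL (m a) :=
  PT.cons (PT.const _) (PT.flatMap (F := fun a t => (List.range (m a)).map fun e => (t, e))
    (PT.const _) (PT.map (F := fun (p : α × ℕ) e => (p.2, e)) (hm.range.comp PT.fst')
      ((PT.snd PT.fst').pair PT.snd')))

theorem pd_ch {σ : α → Cone} (hσ : PC σ) {a : β → α} {x j i : β → ℕ} (ha : PT a) (hx : PT x)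
    (hj : PT j) (hi : PT i) : PD fun z => x z ∈ ch (σ (a z)) (j z) (i z) :=
  pd_mem (pf_comp hσ (ha.pair (((PT.const 3).add hj).pair hi))) hx

theorem pd_same {m : α → ℕ} {σ : α → Cone} (hm : UN m) (hσ : PC σ) {a : β → α} {x y : β → Ix}
    (ha : PT a) (hx : PT x) (hy : PT y) : PD fun z => same (m (a z)) (σ (a z)) (x z) (y z) :=
  pd_and (pd_eq hx.fst hy.fst) (pd_and (pd_lt hx.fst (PT.const 2))
    (pd_all (P := fun z i => (x z).2 ∈ ch (σ (a z)) (x z).1 i ↔ (y z).2 ∈ ch (σ (a z)) (x z).1 i)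
      ⟨_, ((hm.comp ha).add (UN.const 1)).range, fun _ => List.toFinset_range _⟩
      (pd_iff (pd_ch hσ (ha.comp PT.fst') (hx.comp PT.fst').snd (hx.comp PT.fst').fst PT.snd')
        (pd_ch hσ (ha.comp PT.fst') (hy.comp PT.fst').snd (hx.comp PT.fst').fst PT.snd'))))

theorem pd_edge {σ : α → Cone} (hσ : PC σ) {D : α → Finset Ix} (hD : PF D) {a : β → α}
    {x y : β → Ix} (ha : PT a) (hx : PT x) (hy : PT y) : PD fun z => ∃ d ∈ D (a z),
      ends (σ (a z)) d = (x z, y z) ∨ ends (σ (a z)) d = (y z, x z) := by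
  have a3 : PT fun z : β × Ix => ends (σ (a z.1)) z.2 :=
    (ends_pt hσ).comp (F := fun z : β × Ix => (a z.1, z.2)) ((ha.comp PT.fst').pair PT.snd')
  exact pd_ex (P := fun z d => ends (σ (a z)) d = (x z, y z) ∨ ends (σ (a z)) d = (y z, x z))
    (pf_comp hD ha) (pd_or (pd_eq a3 ((hx.comp PT.fst').pair (hy.comp PT.fst')))
      (pd_eq a3 ((hy.comp PT.fst').pair (hx.comp PT.fst'))))

theorem pd_grow {m : α → ℕ} {σ : α → Cone} (hm : UN m) (hσ : PC σ) {D : α → Finset Ix}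
    (hD : PF D) : PD fun p : (α × List Ix) × Ix => ∃ y ∈ p.1.2.toFinset, p.2 = y ∨
      same (m p.1.1) (σ p.1.1) p.2 y ∨ ∃ d ∈ D p.1.1, ends (σ p.1.1) d = (p.2, y) ∨
        ends (σ p.1.1) d = (y, p.2) := by
  have a1 : PT fun z : ((α × List Ix) × Ix) × Ix => z.1.1.1 := (PT.fst PT.fst').fst
  have a2 : PT fun z : ((α × List Ix) × Ix) × Ix => z.1.2 := PT.snd PT.fst'
  exact pd_ex (A := fun p : (α × List Ix) × Ix => p.1.2.toFinset)
    (P := fun p y => p.2 = y ∨ same (m p.1.1) (σ p.1.1) p.2 y ∨ ∃ d ∈ D p.1.1,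
      ends (σ p.1.1) d = (p.2, y) ∨ ends (σ p.1.1) d = (y, p.2))
    ⟨_, PT.snd PT.fst', fun _ => rfl⟩ (pd_or (pd_eq a2 PT.snd')
      (pd_or (pd_same hm hσ a1 a2 PT.snd') (pd_edge hσ hD a1 a2 PT.snd')))

end PZ

open PZ in
theorem pz : St_PZ := by
  intro α _ m σ hm hσ
  refine ⟨ends_pt hσ, fun D hD => ?_⟩
  obtain ⟨b, b1, b2⟩ := pd_grow hm hσ hD
  obtain ⟨c, c1, c2⟩ : PD fun p : α × Ix => p.2.1 = 5 ∨ (p.2.1 < 2 ∧ p.2.2 ∈ ch (σ p.1) p.2.1 0) :=
    pd_or (pd_eq (PT.fst PT.snd') (PT.const 5)) (pd_and (pd_lt (PT.fst PT.snd') (PT.const 2))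
      (pd_ch hσ PT.fst' (PT.snd PT.snd') (PT.fst PT.snd') (PT.const 0)))
  refine ⟨fun a => (fun s => (UL (m a)).filter fun x => b ((a, s), x))^[3 * m a + 1]
    ((UL (m a)).filter fun x => c (a, x)), ?_, fun a => ?_⟩
  · refine un_iter (h := fun a s => (UL (m a)).filter fun x => b ((a, s), x))
      (((UN.const 3).mul hm).add (UN.const 1)) (PT.filter (P := fun a x => c (a, x)) (UL_pt hm) c1)
      (PT.filter (P := fun (p : α × List Ix) x => b (p, x)) ((UL_pt hm).comp PT.fst') b1)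
      (UL_pt hm).sz_bd fun a i _ => ?_
    cases i with
    | zero => exact sz_filter_le _ _
    | succ i => rw [Function.iterate_succ_apply']; exact sz_filter_le _ _
  · unfold ZZ
    beta_reduce
    generalize 3 * m a + 1 = k
    induction k with
    | zero =>
      ext x
      simp only [Function.iterate_zero, id, List.mem_toFinset, List.mem_filter, mem_UL, c2, fixd,
        mem_filter]
    | succ k ih =>
      rw [Function.iterate_succ_apply', Function.iterate_succ_apply', ← ih]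
      ext x
      simp only [List.mem_toFinset, List.mem_filter, mem_UL, b2, grow, mem_filter]

end Pool.Agent.Lib.US.A80
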