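import Pool.Agent.Lib.US.Env72

/-! The network of a system with integer weights and the error of the estimator. -/

namespace Pool.Agent.US.Tick72

open Finset Pool.Agent.Lib.helper82 Pool.Agent.Lib.MP_b67cc8_lc Pool.Agent.FL.Mix28
open Pool.Agent.Lib.US

theorem Kop_lump {τ τ' : Type} (φ : τ' → τ) (I : ℕ → τ' → Prop) {k : ℕ} {h : τ → List Bool → τ}
    {h' : τ' → List Bool → τ'} (H : ∀ i s, I (i + 1) s → (∀ x, I i (h' s x)) ∧
      ∀ F : τ → ℝ, Ex k (fun x => F (φ (h' s x))) = Ex k fun x => F (h (φ s) x)) (t : ℕ) :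
    ∀ s, I t s → (∀ r, I 0 (rit k h' t s r)) ∧ ∀ n, k * t ≤ n → ∀ F : τ → ℝ,
      Ex n (fun r => F (φ (rit k h' t s r))) = Ex n fun r => F (rit k h t (φ s) r) := by
  have key : ∀ t s, I t s → (∀ r, I 0 (rit k h' t s r)) ∧ ∀ F : τ → ℝ,
      (Kop k h')^[t] (fun s => F (φ s)) s = (Kop k h)^[t] F (φ s) := by
    intro t
    induction t with
    | zero => exact fun s hs => ⟨fun _ => hs, fun _ => rfl⟩
    | succ t ih =>
      intro s hs
      refine ⟨fun r => (ih _ ((H t s hs).1 (r.take k))).1 (r.drop k), fun F => ?_⟩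
      rw [Function.iterate_succ_apply', Function.iterate_succ_apply', Kop, Kop, ← (H t s hs).2]
      exact Ex_congr fun x _ => (ih _ ((H t s hs).1 x)).2 F
  intro s hs
  exact ⟨(key t s hs).1, fun n hn F => by
    rw [Ex_rit k h' (fun s => F (φ s)) t n s hn, Ex_rit k h F t n _ hn, (key t s hs).2]⟩

/-- a coded walk whose steps have the right law gives trajectories with the right law -/
theorem traj_law {σ σ' : Type} (f : σ' → σ) (Q : σ' → Prop) {b N : ℕ}
    {st : ℕ → σ → List Bool → σ × Bool} {st' : ℕ → σ' → List Bool → σ' × Bool}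
    (h : ∀ t ≤ N, ∀ v, Q v → (∀ x, Q (st' t v x).1) ∧ ∀ φ : σ × Bool → ℝ,
      Ex b (fun x => φ (f (st' t v x).1, (st' t v x).2)) = Ex b fun x => φ (st t (f v) x))
    (T : ℕ) {s : σ'} (hs : Q s) {j n : ℕ} (hj : j ≤ N) (hn : b * T * j ≤ n) :
    (∀ x, Q (traj b st' T s j x)) ∧ ∀ F : σ → ℝ,
      Ex n (fun x => F (f (traj b st' T s j x))) = Ex n fun x => F (traj b st T (f s) j x) := by
  have k := Kop_lump (fun p : ℕ × σ' => (p.1, f p.2)) (fun i p => Q p.2 ∧ p.1 + i ≤ N)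
    (k := b * T) (h := stage b st T) (h' := stage b st' T) (fun i p hp => by
      have a := Kop_lump (fun q : σ' × Bool => (f q.1, q.2)) (fun _ q => Q q.1) (k := b)
        (h := tk (st (p.1 + 1))) (h' := tk (st' (p.1 + 1))) (fun _ q hq => by
          unfold tk
          split_ifs
          · exact ⟨fun _ => hq, fun _ => rfl⟩
          · exact h _ (by omega) _ hq) T (p.2, false) hp.1
      refine ⟨fun x => ⟨?_, by simp only [stage]; omega⟩, fun F => ?_⟩
      · simp only [stage, tick]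
        split_ifs
        exacts [a.1 x, hp.1]
      · refine Eq.trans (Ex_congr fun x _ => ?_)
          (a.2 _ le_rfl fun q => F (p.1 + 1, if q.2 = true then q.1 else f p.2))
        simp only [stage, tick]
        split_ifs <;> rfl) j (0, s) ⟨hs, by omega⟩
  exact ⟨fun x => (k.1 x).1, fun F => k.2 n hn fun p => F p.2⟩

variable {ι X V : Type} [DecidableEq ι] [Inhabited X] [AddCommGroup V] [Module ℝ V]
  (S : Sys ι X V)

/-- the tail of a dart -/
def tlD (d : ((ι → X) × Finset ι) × ι) : (ι → X) × Finset ι := S.key d.1.1 d.1.2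

/-- the head of a dart -/
noncomputable def hdD (θ : ι → ℝ) (d : ((ι → X) × Finset ι) × ι) : (ι → X) × Finset ι :=
  S.key d.1.1 (S.nxt θ d.1.1 d.1.2 d.2)

/-- the integer weight of a dart -/
noncomputable def Cw (θ : ι → ℝ) (a : ι → ℕ) (L : ℕ) (d : ((ι → X) × Finset ι) × ι) : ℕ :=
  (if d.2 ∈ S.Kw then 1 else a d.2) * (⌊(L : ℝ) / S.len θ d.1.1 d.1.2 d.2⌋₊ + 1)

/-- the integer killing weight -/
def Ww (Λ : ℕ) (s : (ι → X) × Finset ι) : ℕ := if s.2 ∩ S.Kw = ∅ then Λ else 0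

open Classical in
/-- the bounded darts at a node -/
noncomputable def At (θ : ι → ℝ) (s : (ι → X) × Finset ι) : Finset (((ι → X) × Finset ι) × ι) :=
  (S.Db θ 0).filter (tlD S · = s)

variable {S} {θ : ι → ℝ}

theorem mem_At {s : (ι → X) × Finset ι} {d : ((ι → X) × Finset ι) × ι} :
    d ∈ At S θ s ↔ d ∈ S.Db θ 0 ∧ tlD S d = s := by
  classical
  unfold At; convert mem_filter

theorem mem_Nd {s : (ι → X) × Finset ι} : s ∈ S.Nd θ ↔
    ∃ σ T, S.Vx θ σ T ∧ (T ∩ S.Kw).card ≤ 1 ∧ S.key σ T = s := by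
  classical
  unfold Sys.Nd
  simp only [mem_image, mem_union, Sys.mem_VJ]
  constructor
  · rintro ⟨v, h | h, e⟩ <;> exact ⟨v.1, v.2, h.1, by omega, e⟩
  · rintro ⟨σ, T, h1, h2, e⟩
    refine ⟨(σ, T), ?_, e⟩
    rcases Nat.le_one_iff_eq_zero_or_eq_one.1 h2 with h | h
    exacts [Or.inl ⟨h1, h⟩, Or.inr ⟨h1, h⟩]

theorem key_term {σ : ι → X} {T : Finset ι} (h : T ∩ S.Kw = ∅) : S.key σ T = (σ, T) :=
  Prod.ext (funext fun j => if_neg fun hj => notMem_empty j (h ▸ mem_inter.2 hj)) rfl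

theorem mem_Tm {s : (ι → X) × Finset ι} : s ∈ S.Tm θ ↔ s ∈ S.Nd θ ∧ s.2 ∩ S.Kw = ∅ := by
  rw [Sys.Tm, Sys.mem_VJ, mem_Nd, card_eq_zero]
  constructor
  · exact fun h => ⟨⟨s.1, s.2, h.1, by simp [h.2], key_term h.2⟩, h.2⟩
  · rintro ⟨⟨σ, T, h1, -, rfl⟩, h⟩
    rw [key_term (T := T) h]
    exact ⟨h1, h⟩

theorem sum_Nd (F : (ι → X) × Finset ι → ℝ) :
    ∑ s ∈ S.Nd θ, (if s.2 ∩ S.Kw = ∅ then F s else 0) = ∑ s ∈ S.Tm θ, F s := by
  rw [← sum_filter]
  exact sum_congr (by ext s; rw [mem_filter, mem_Tm]) fun _ _ => rfl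

theorem tl_mem {d : ((ι → X) × Finset ι) × ι} (h : d ∈ S.Db θ 0) : tlD S d ∈ S.Nd θ := by
  obtain ⟨h1, h2, h3⟩ := Sys.mem_Dt.1 (Sys.mem_Db.1 h).1
  refine mem_Nd.2 ⟨_, _, h1, card_le_one.2 fun a ha b hb => ?_, rfl⟩
  have e : ∀ a ∈ d.1.2 ∩ S.Kw, a = d.2 := fun a ha => by
    by_contra hne
    exact notMem_empty a (card_eq_zero.1 h3 ▸ mem_inter.2
      ⟨mem_erase.2 ⟨hne, (mem_inter.1 ha).1⟩, (mem_inter.1 ha).2⟩)
  rw [e a ha, e b hb]

theorem card_At (hA : S.Ax) (s : (ι → X) × Finset ι) : ((At S θ s).card : ℝ) ≤ S.B ^ 2 := by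
  classical
  rcases (At S θ s).eq_empty_or_nonempty with h | ⟨d, hd⟩
  · rw [h]; simpa using sq_nonneg S.B
  obtain ⟨h0, rfl⟩ := mem_At.1 hd
  obtain ⟨h1, h2, h3⟩ := Sys.mem_Dt.1 (Sys.mem_Db.1 h0).1
  have : (At S θ (tlD S d)).card ≤ (S.Nb2 d.2 d.2 d.1.1 ×ˢ S.Cn).card := by
    refine card_le_card_of_injOn (fun e => (e.1.1, e.2)) (fun e he => ?_) fun e he e' he' h => ?_
    · obtain ⟨g0, g⟩ := mem_At.1 he
      obtain ⟨g1, g2, -⟩ := Sys.mem_Dt.1 (Sys.mem_Db.1 g0).1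
      refine mem_coe.2 (mem_product.2 ⟨Sys.mem_Nb2.2 ⟨g1.1.1, fun j hj _ => ?_⟩, g1.1.2.1 g2⟩)
      have e1 : e.1.2 = d.1.2 := (Prod.ext_iff.1 g).2
      have e2 := congrFun (congrArg Prod.fst g) j
      have n : ¬(j ∈ d.1.2 ∧ j ∈ S.Kw) := fun hh => notMem_empty j
        (card_eq_zero.1 h3 ▸ mem_inter.2 ⟨mem_erase.2 ⟨hj, hh.1⟩, hh.2⟩)
      simpa only [tlD, Sys.key, e1, if_neg n] using e2
    · have e1 : e.1.2 = e'.1.2 :=
        (Prod.ext_iff.1 ((mem_At.1 he).2.trans (mem_At.1 he').2.symm)).2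
      exact Prod.ext (Prod.ext (Prod.ext_iff.1 h).1 e1) (Prod.ext_iff.1 h).2
  rw [card_product] at this
  have a1 := hA.nb2_le _ h1.1.1 d.2 d.2
  have a2 := hA.cn_le
  calc ((At S θ (tlD S d)).card : ℝ) ≤ (S.Nb2 d.2 d.2 d.1.1).card * S.Cn.card := by
        exact_mod_cast this
    _ ≤ S.B * S.B := mul_le_mul a1 a2 (by positivity) (le_trans (by positivity) a1)
    _ = _ := (sq _).symm

omit [Inhabited X] in
theorem om_pos {a : ι → ℝ} (ha : ∀ c ∈ S.Cc, 0 < a c) (T : Finset ι) : 0 < S.om a T :=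
  prod_pos fun c hc => inv_pos.2 (ha c (mem_inter.1 hc).2)

omit [Inhabited X] in
theorem om_erase (hA : S.Ax) {a : ι → ℕ} (ha : ∀ c ∈ S.Cc, 0 < (a c : ℝ)) {T : Finset ι} {c : ι}
    (hT : c ∈ T) (hc : c ∈ S.Cn) : S.om (fun c => a c) (T.erase c) =
      S.om (fun c => a c) T * (if c ∈ S.Kw then 1 else a c : ℕ) := by
  unfold Sys.om
  split_ifs with h
  · rw [erase_inter, erase_eq_of_notMem fun h' => disjoint_left.1 hA.disj h (mem_inter.1 h').2]
    simp
  · have h' := (Sys.mem_Cn.1 hc).resolve_left h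
    rw [erase_inter, ← mul_prod_erase _ _ (mem_inter.2 ⟨hT, h'⟩), mul_comm, ← mul_assoc,
      mul_inv_cancel₀ (ha c h').ne', one_mul]

/-- every node on a wall has a dart -/
theorem At_nonempty (hC : S.Conn θ) (hA : S.Ax) (hG : S.Gen θ) {s t : (ι → X) × Finset ι}
    (hs : s ∈ S.Nd θ) (ht : t ∈ S.Nd θ) (hne : t ≠ s) : (At S θ s).Nonempty := by
  classical
  by_contra h
  have n : ∀ d ∈ S.Db θ 0, tlD S d ≠ s := fun d hd e => h ⟨d, mem_At.2 ⟨hd, e⟩⟩
  have := hC (fun u => if u = s then 1 else 0) (fun d hd =>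
    (if_neg (n _ (Sys.rev_mem hA hG hd).1)).trans (if_neg (n d hd)).symm) s hs t ht
  simp [hne] at this

theorem Law.scale {σ δ : Type} [DecidableEq σ] {Ω : Finset σ} {D : Finset δ} {tl hd : δ → σ}
    {C : δ → ℝ} {W B : σ → ℝ} {b : ℕ} {st : σ → List Bool → σ × Bool}
    (h : Law Ω D tl hd C W B b st) (l : σ → ℝ) :
    Law Ω D tl hd (fun d => l (tl d) * C d) (fun v => l v * W v) (fun v => l v * B v) b st := by
  intro v hv φ
  have e : ∀ F : δ → ℝ, ∑ d ∈ D.filter (tl · = v), l (tl d) * C d * F d =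
      l v * ∑ d ∈ D.filter (tl · = v), C d * F d := fun F => by
    rw [mul_sum]
    exact sum_congr rfl fun d h => by rw [(mem_filter.1 h).2, mul_assoc]
  have e1 := e fun _ => 1
  simp only [mul_one] at e1
  rw [mul_assoc, h v hv φ, e, e1]
  ring

section
variable {a : ι → ℕ} {Λ τ : ℕ} {d : ((ι → X) × Finset ι) × ι}

theorem C_eq (hA : S.Ax) (ha : ∀ c ∈ S.Cc, 0 < (a c : ℝ)) (h : d ∈ S.Db θ 0) (L : ℕ) :
    S.om (fun c => a c) (tlD S d).2 / Λ * Cw S θ a L d = S.om (fun c => a c) (d.1.2.erase d.2) / Λ *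
      (⌊(L : ℝ) / S.len θ d.1.1 d.1.2 d.2⌋₊ + 1) := by
  obtain ⟨h1, h2, -⟩ := Sys.mem_Dt.1 (Sys.mem_Db.1 h).1
  rw [om_erase hA ha h2 (h1.1.2.1 h2), Cw, Nat.cast_mul, Nat.cast_succ]
  change S.om _ d.1.2 / _ * _ = _
  ring

omit [Inhabited X] in
theorem len_bd (hGEN : St_GEN) (hA : S.Ax) {θ : ι → ℕ} {P : ℕ} (hθ : ∀ c, θ c < P)
    (hG : S.Gen fun c => θ c) (h : d ∈ S.Db (fun c => θ c) 0) :
    1 ≤ S.len (fun c => θ c) d.1.1 d.1.2 d.2 ∧
      S.len (fun c => θ c) d.1.1 d.1.2 d.2 ≤ (S.Cc.card * P : ℕ) := by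
  obtain ⟨h0, hb⟩ := Sys.mem_Db.1 h
  obtain ⟨h1, h2, -⟩ := Sys.mem_Dt.1 h0
  have e := Sys.mem_cand.1 (Sys.ent_spec (θ := fun c => θ c) hb).1
  obtain ⟨g1, g2⟩ := (hGEN ι X V S hA fun c => θ c).2 _ _ h1.1 _ e.1 e.2.1
  obtain ⟨z, hz⟩ := g2 fun c => ⟨θ c, by simp⟩
  have p := (Sys.piv hA hG h1 h2 hb).2.1
  unfold Sys.len at p ⊢
  refine ⟨?_, (le_abs_self _).trans (g1.trans ?_)⟩
  · rw [hz] at p ⊢
    exact_mod_cast p
  · rw [Nat.cast_mul, ← nsmul_eq_mul, ← sum_const]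
    exact sum_le_sum fun c _ => by rw [Nat.abs_cast]; exact_mod_cast (hθ c).le

open Classical in
theorem net_sys (hA : S.Ax) (hG : S.Gen θ) (ha : ∀ c ∈ S.Cc, 0 < (a c : ℝ)) (Λ0 : 0 < Λ) (L : ℕ) :
    Net (S.Nd θ) (S.Db θ 0) (tlD S) (hdD S θ) (S.rev θ)
      (fun d => S.om (fun c => a c) (tlD S d).2 / Λ * Cw S θ a L d)
      (fun s => S.om (fun c => a c) s.2 / Λ * Ww S Λ s) fun s => S.om (fun c => a c) s.2 / Λ *
        2 ^ (tot (S.Db θ 0) (tlD S) (Cw S θ a L) (Ww S Λ) s).size where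
  tl_mem _ := tl_mem
  rv_mem _ h := (Sys.rev_mem hA hG h).1
  rv_rv _ h := (Sys.rev_mem hA hG h).2.1
  tl_rv _ _ := rfl
  C_rv d h := by
    obtain ⟨h0, hb⟩ := Sys.mem_Db.1 h
    obtain ⟨h1, h2, -⟩ := Sys.mem_Dt.1 h0
    rw [C_eq hA ha h, C_eq hA ha (Sys.rev_mem hA hG h).1, (Sys.rev_mem hA hG h).2.2]
    congr 4
    exact congrArg _ (Sys.piv_back hA hG h1 h2 hb).2.2.2
  C_nn d _ := by have := om_pos (S := S) ha (tlD S d).2; positivity
  W_nn s _ := by have := om_pos (S := S) ha s.2; positivity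
  B_pos s _ := by have := om_pos (S := S) ha s.2; positivity
  B_ge s _ := by
    have p := om_pos (S := S) ha s.2
    have := (Nat.lt_size_self (tot (S.Db θ 0) (tlD S) (Cw S θ a L) (Ww S Λ) s)).le
    rw [sum_congr rfl fun d h => by rw [(mem_filter.1 h).2], ← mul_sum, ← mul_add]
    refine mul_le_mul_of_nonneg_left ?_ (by positivity)
    unfold tot at this ⊢
    exact_mod_cast this

omit [Inhabited X] in
theorem W_eq (Λ0 : 0 < Λ) (w : ℝ) (s : (ι → X) × Finset ι) :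
    w / Λ * Ww S Λ s = if s.2 ∩ S.Kw = ∅ then w else 0 := by
  unfold Ww
  split_ifs
  · exact div_mul_cancel₀ _ (by positivity)
  · simp

theorem poinc_sys (hCMP : St_CMP) (hA : S.Ax) (hG : S.Gen θ) (hC : S.Conn θ)
    (hc : S.Cost (fun _ => 0) fun c => a c) (hθ : ∀ c ∈ S.Cc, 0 ≤ θ c ∧ 2 * S.B * θ c ≤ a c)
    (Λ0 : 0 < Λ) (τ0 : 0 < τ) (Z0 : 0 < S.Zs θ fun c => a c) (F : (ι → X) × Finset ι → ℝ) :
    ∃ m, ∑ s ∈ S.Nd θ, S.om (fun c => a c) s.2 / Λ * Ww S Λ s * (F s - m) ^ 2 ≤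
      2 / τ * ((∑ d ∈ S.Db θ 0, S.om (fun c => a c) (tlD S d).2 / Λ * Cw S θ a (Λ * τ) d *
        (F (hdD S θ d) - F (tlD S d)) ^ 2) / 2) := by
  classical
  set m := (∑ s ∈ S.Tm θ, S.om (fun c => a c) s.2 * F s) / S.Zs θ fun c => a c with hm
  refine ⟨m, ?_⟩
  have k := hCMP ι X V S hA θ _ hG hc hC hθ (fun s => F s - m) (by
    simp only [mul_sub, sum_sub_distrib, ← sum_mul]
    rw [hm, ← Sys.Zs, mul_div_cancel₀ _ Z0.ne', sub_self])
  simp only [W_eq Λ0, ite_mul, zero_mul]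
  rw [sum_Nd]
  refine k.trans ?_
  have t0 : (0 : ℝ) < τ := by positivity
  rw [Sys.En, ← sum_subset (s₁ := S.Db θ 0) (fun d h => (Sys.mem_Db.1 h).1) fun d h h' => by
    rw [Sys.slope, if_neg fun hb => h' (Sys.mem_Db.2 ⟨h, hb⟩)]; simp]
  rw [show ∀ x : ℝ, 2 / τ * (x / 2) = 1 / τ * x from fun x => by ring, ← mul_assoc, mul_sum, mul_sum]
  refine sum_le_sum fun d h => ?_
  obtain ⟨h0, hb⟩ := Sys.mem_Db.1 h
  obtain ⟨h1, h2, -⟩ := Sys.mem_Dt.1 h0
  have p := (Sys.piv hA hG h1 h2 hb).2.1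
  have o := om_pos (S := S) hc.1 (d.1.2.erase d.2)
  rw [C_eq hA hc.1 h, Sys.slope, if_pos hb, sub_sub_sub_cancel_right]
  have q := (Nat.lt_floor_add_one (((Λ * τ : ℕ) : ℝ) / S.len θ d.1.1 d.1.2 d.2)).le
  have := mul_le_mul_of_nonneg_left q (show 0 ≤ 1 / τ * (S.om (fun c => a c) (d.1.2.erase d.2) / Λ *
    (F (hdD S θ d) - F (tlD S d)) ^ 2) by positivity)
  refine le_trans (le_of_eq ?_) (this.trans (le_of_eq (by ring)))
  unfold hdD tlD
  push_cast
  field_simp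

end

open Classical in
/-- The estimator of a coded walk whose dart lists have the law of the network. -/
theorem net_ms (hGEN : St_GEN) (hCMP : St_CMP) (hSW : St_SWEEP) (hA : S.Ax)
    (hC : ∀ θ, S.Gen θ → S.Conn θ) {K n N b T Λ τ R : ℕ} {ix : ι → ℕ}
    (hix : ∀ c ∈ S.Cc, ix c < n ∧ ∀ d, ix d = ix c → d = c) (a : ℕ → ι → ℕ) (Zi : ℕ → ℝ)
    {A0 A η δ₀ ξ : ℝ} (hR : (K * n + b * T * N) * N ≤ R)
    (hZ : ∀ t ≤ N, ∀ θ, S.SGen θ → S.Zs θ (fun c => a t c) = Zi t) (Z0 : ∀ t ≤ N, 0 < Zi t)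
    (hc : ∀ t ≤ N, S.Cost (fun _ => 0) fun c => a t c)
    (ha : ∀ t ≤ N, ∀ c ∈ S.Cc, A0 ≤ a t c ∧ a t c ≤ A) (hA0 : 2 * S.B * 2 ^ K ≤ A0) (hA1 : A0 ≤ A)
    (hΛ : S.Cc.card * 2 ^ K ≤ Λ) (Λ0 : 0 < Λ) (τ0 : 0 < τ) (T0 : 0 < T)
    (hb : Λ + S.B ^ 2 * A * (Λ * τ + 1) < 2 ^ b) (hK : 4 ^ S.Cc.card < 2 ^ K)
    (η0 : 0 < η) (η1 : η ≤ 1 / 20) (δ0 : 0 ≤ δ₀)
    (hη : ∀ t < N, ∀ θ, ∀ s ∈ S.Nd θ,
      |S.om (fun c => a (t + 1) c) s.2 / S.om (fun c => a t c) s.2 - 1| ≤ η)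
    (hξ : 4 ^ S.Cc.card / 2 ^ K + (N + 1) * (τ * (2 + 4 * τ * (S.Cc.card *
      (20 * S.B ^ 12 * (K + 1) * A * (A / A0) / 2 ^ K))) / T) + δ₀ + 16 * N / τ ≤ ξ)
    (q1 : N * (16 * η ^ 2 + 12 * η * ξ) ≤ 1 / 8)
    {σ' : Type} (f : List Bool → σ' → (ι → X) × Finset ι) (Q : List Bool → σ' → Prop)
    (Wc : List Bool → ℕ → σ' → ℕ) (ds : List Bool → ℕ → σ' → List (ℕ × σ')) (s₀ : List Bool → σ')
    (U V' : List Bool → ℕ → σ' → ℕ)
    (sim : ∀ x, S.SGen (fun c => env K ix x c) → ∀ t ≤ N, ∀ v, Q x v →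
      f x v ∈ S.Nd (fun c => env K ix x c) ∧ Wc x t v = Ww S Λ (f x v) ∧
      (∀ p ∈ ds x t v, Q x p.2) ∧ ∀ φ : (ι → X) × Finset ι → ℝ,
        ((ds x t v).map fun p => (p.1 : ℝ) * φ (f x p.2)).sum =
          ∑ d ∈ At S (fun c => env K ix x c) (f x v),
            (Cw S (fun c => env K ix x c) (a t) (Λ * τ) d : ℝ) * φ (hdD S (fun c => env K ix x c) d))
    (h0 : ∀ x, S.SGen (fun c => env K ix x c) → Q x (s₀ x) ∧
      f x (s₀ x) ∈ S.Tm (fun c => env K ix x c) ∧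
      (1 - δ₀) * Zi 0 ≤ S.om (fun c => a 0 c) (f x (s₀ x)).2)
    (hUV : ∀ x, S.SGen (fun c => env K ix x c) → ∀ j < N, ∀ v, Q x v → (U x j v : ℝ) / V' x j v =
      S.om (fun c => a (j + 1) c) (f x v).2 / S.om (fun c => a j c) (f x v).2)
    (hu : ∀ x, ∀ j < N, ∀ v, |(U x j v : ℝ) / V' x j v - 1| ≤ η) :
    Ex R (fun r => (((est (K * n) b T N id
        (fun x t => stepL Prod.snd Prod.fst (Wc x t) (ds x t)) s₀ U V' r).1 : ℝ) /
      (est (K * n) b T N id (fun x t => stepL Prod.snd Prod.fst (Wc x t) (ds x t)) s₀ U V' r).2 -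
        Zi N / Zi 0) ^ 2) ≤ 2 * (N * (16 * η ^ 2 + 12 * η * ξ)) * (Zi N / Zi 0) ^ 2 := by
  have B1 := hA.one_le
  have A00 : 0 < A0 := lt_of_lt_of_le (by positivity) hA0
  have A1 : 1 ≤ A := by
    have : (1 : ℝ) ≤ 2 ^ K := one_le_pow₀ one_le_two
    nlinarith
  have G := fun x => (hGEN ι X V S hA fun c => env K ix x c).1
  have t0 : (0 : ℝ) < τ := by positivity
  have hl := fun x g d h => len_bd (d := d) hGEN hA (env_lt K ix x) (G x g) h
  have hL : ∀ x, S.SGen (fun c => env K ix x c) → ∀ t ≤ N,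
      Law (S.Nd fun c => env K ix x c) (S.Db (fun c => env K ix x c) 0) (tlD S)
        (hdD S fun c => env K ix x c) (fun d => Cw S (fun c => env K ix x c) (a t) (Λ * τ) d)
        (fun s => Ww S Λ s) (fun s => 2 ^ (tot (S.Db (fun c => env K ix x c) 0) (tlD S)
          (Cw S (fun c => env K ix x c) (a t) (Λ * τ)) (Ww S Λ) s).size) b
        (stepL (hdD S fun c => env K ix x c) (Cw S (fun c => env K ix x c) (a t) (Λ * τ)) (Ww S Λ)
          fun s => (At S (fun c => env K ix x c) s).toList) ∧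
      ∀ s, (tot (S.Db (fun c => env K ix x c) 0) (tlD S)
          (Cw S (fun c => env K ix x c) (a t) (Λ * τ)) (Ww S Λ) s).size ≤ b := fun x g t ht => by
    have k : ∀ s, (tot (S.Db (fun c => env K ix x c) 0) (tlD S)
        (Cw S (fun c => env K ix x c) (a t) (Λ * τ)) (Ww S Λ) s).size ≤ b := fun s => by
      rw [Nat.size_le, ← Nat.cast_lt (α := ℝ)]
      push_cast [tot]
      refine lt_of_le_of_lt (add_le_add (by unfold Ww; split_ifs <;> simp) ?_) hb
      refine (sum_le_card_nsmul _ _ (A * (Λ * τ + 1)) fun d h => ?_).trans ?_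
      · have h' := (mem_filter.1 h).1
        obtain ⟨h1, h2, -⟩ := Sys.mem_Dt.1 (Sys.mem_Db.1 h').1
        rw [Cw, Nat.cast_mul, Nat.cast_succ]
        refine mul_le_mul ?_ (add_le_add ((Nat.floor_le (by
          have := (hl x g d h').1; positivity)).trans ?_) le_rfl) (by positivity) (by positivity)
        · split_ifs with hk
          · simpa using A1
          · exact (ha t ht _ ((Sys.mem_Cn.1 (h1.1.2.1 h2)).resolve_left hk)).2
        · rw [← Nat.cast_mul]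
          exact div_le_self (by positivity) (hl x g d h').1
      · rw [nsmul_eq_mul, mul_assoc]
        exact mul_le_mul_of_nonneg_right (card_At hA s) (by positivity)
    exact ⟨law_stepL (fun s _ => nodup_toList _) (fun s _ d => by rw [mem_toList, mem_At])
      fun s _ => k s, k⟩
  have hβ := Ex_sgen (K := K) S hix
  obtain ⟨x₀, g₀⟩ : ∃ x, S.SGen fun c => env K ix x c := by
    by_contra h
    simp only [if_neg fun g => h ⟨_, g⟩, Ex_const] at hβ
    rw [le_div_iff₀ (by positivity), one_mul] at hβ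
    exact absurd hK (not_lt.2 (by exact_mod_cast hβ))
  set M : ℝ := 2 + 4 * τ * (S.Cc.card * (20 * S.B ^ 12 * (K + 1) * A * (A / A0) / 2 ^ K)) with hM
  have e : (4 : ℝ) ^ S.Cc.card / 2 ^ K + (N + 1) * (2 * M / (2 / τ * T)) + δ₀ + 4 * 0 +
      8 * (2 / τ) * N ≤ ξ := le_trans (le_of_eq (by field_simp; ring)) hξ
  have e' : (N : ℝ) * ((4 * η) ^ 2 + 3 * (4 * η * (4 ^ S.Cc.card / 2 ^ K +
      (N + 1) * (2 * M / (2 / τ * T)) + δ₀ + 4 * 0 + 8 * (2 / τ) * N))) ≤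
      N * (16 * η ^ 2 + 12 * η * ξ) :=
    mul_le_mul_of_nonneg_left (by nlinarith [mul_le_mul_of_nonneg_left e η0.le]) (by positivity)
  have hW : ∀ t ≤ N, ∀ x, S.SGen (fun c => env K ix x c) →
      ∑ s ∈ S.Nd (fun c => env K ix x c), S.om (fun c => a t c) s.2 / Λ * Ww S Λ s = Zi t :=
    fun t ht x g => by simp only [W_eq Λ0]; rw [sum_Nd, ← hZ t ht _ g, Sys.Zs]
  refine (ann0 (κ := 0) (M := M) (ε := 2 / τ) hR id (fun x => S.SGen fun c => env K ix x c)
    (fun x => S.Nd fun c => env K ix x c) (fun x => S.Db (fun c => env K ix x c) 0)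
    (fun _ => tlD S) (fun x => hdD S fun c => env K ix x c) (fun x => S.rev fun c => env K ix x c)
    (fun x t d => S.om (fun c => a t c) (tlD S d).2 / Λ *
      Cw S (fun c => env K ix x c) (a t) (Λ * τ) d)
    (fun _ t s => S.om (fun c => a t c) s.2 / Λ * Ww S Λ s)
    (fun x t s => S.om (fun c => a t c) s.2 / Λ * 2 ^ (tot (S.Db (fun c => env K ix x c) 0) (tlD S)
      (Cw S (fun c => env K ix x c) (a t) (Λ * τ)) (Ww S Λ) s).size)
    (fun _ t s => S.om (fun c => a t c) s.2 / Λ * Ww S Λ s)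
    (fun _ t s => S.om (fun c => a (t + 1) c) s.2 / S.om (fun c => a t c) s.2)
    (fun x t => stepL (hdD S fun c => env K ix x c) (Cw S (fun c => env K ix x c) (a t) (Λ * τ))
      (Ww S Λ) fun s => (At S (fun c => env K ix x c) s).toList)
    (fun x => f x (s₀ x)) Zi (fun _ => 1) _ _ (by positivity) T0 le_rfl (by norm_num) η0 η1 δ0
    (by positivity) (by positivity) Z0 (fun _ _ => one_pos)
    (fun x g t ht => net_sys hA (G x g) (hc t ht).1 Λ0 _)
    (fun x g t ht => (hL x g t ht).1.scale fun s => S.om (fun c => a t c) s.2 / Λ)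
    (fun x g t s hs y => ?_) (fun x g t ht => ?_)
    (fun x g t ht => (net_sys hA (G x g) (hc t ht).1 Λ0 0).W_nn) (fun x g t ht => hW t ht x g)
    (fun _ _ _ _ _ _ => by simp) (fun x g t ht s _ => ?_) (fun x _ t ht => hη t ht _)
    (fun x g => ⟨(mem_Tm.1 (h0 x g).2.1).1, ?_⟩) hβ (fun t ht => ?_) (fun j hj x => hu _ j hj _)
    (fun j hj x hx g => ?_) (fun j hj => ?_) (e'.trans q1)).trans (by gcongr)
  · rcases stepL_cases (hd := hdD S fun c => env K ix x c)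
      (C := Cw S (fun c => env K ix x c) (a t) (Λ * τ)) (W := Ww S Λ)
      (ds := fun s => (At S (fun c => env K ix x c) s).toList) s y with
      h | ⟨-, h⟩ | ⟨d, hd, h⟩ <;> rw [h]
    exacts [hs, hs, tl_mem (Sys.rev_mem hA (G x g) (mem_At.1 (mem_toList.1 hd)).1).1]
  · refine poinc_sys hCMP hA (G x g) (hC _ (G x g)) (hc t ht) (fun c h => ⟨by positivity, ?_⟩) Λ0 τ0
      (by rw [hZ t ht _ g]; exact Z0 t ht)
    refine le_trans (mul_le_mul_of_nonneg_left ?_ (by positivity)) (hA0.trans (ha t ht c h).1)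
    exact_mod_cast (env_lt K ix x c).le
  · have := (om_pos (S := S) (hc t ht.le).1 s.2).ne'
    field_simp
  · rw [W_eq Λ0, if_pos (mem_Tm.1 (h0 x g).2.1).2]
    exact (h0 x g).2.2
  · have k := Ex_sweep (K := K) S hSW hA hix A00 hA1 (ha t ht) (fun θ g => (hZ t ht θ g).le)
      (Z0 t ht).le
    have k2 := mul_le_mul_of_nonneg_left k (show (0 : ℝ) ≤ 4 * τ by positivity)
    rw [← Ex_mul] at k2
    have k3 := add_le_add (le_of_eq (Ex_const (K * n) (2 * Zi t))) k2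
    rw [← Ex_add] at k3
    refine (Ex_mono fun x _ => ?_).trans (k3.trans (le_of_eq (by rw [hM]; ring)))
    have z := Z0 t ht
    simp only [id]
    split_ifs with g
    swap
    · positivity
    have s0 := mem_Tm.1 (h0 x g).2.1
    rw [one_mul, ← hW t ht x g, mul_sum, mul_sum,
      ← sum_fiberwise_of_maps_to (g := tlD S) fun d => tl_mem, ← sum_add_distrib]
    refine sum_le_sum fun s hs => ?_
    have o := om_pos (S := S) (hc t ht).1 s.2
    have p : 0 < tot (S.Db (fun c => env K ix x c) 0) (tlD S)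
        (Cw S (fun c => env K ix x c) (a t) (Λ * τ)) (Ww S Λ) s := by
      by_cases h : s.2 ∩ S.Kw = ∅
      · exact Nat.add_pos_left (by rwa [Ww, if_pos h]) _
      · obtain ⟨d, hd⟩ := At_nonempty (hC _ (G x g)) hA (G x g) hs s0.1 fun e => h (e ▸ s0.2)
        obtain ⟨h1, h2, -⟩ := Sys.mem_Dt.1 (Sys.mem_Db.1 (mem_At.1 hd).1).1
        refine Nat.add_pos_right _ (lt_of_lt_of_le ?_
          (single_le_sum (fun _ _ => Nat.zero_le _) (mem_filter.2 (mem_At.1 hd))))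
        refine Nat.mul_pos ?_ (Nat.succ_pos _)
        split_ifs with hk
        · exact one_pos
        · exact Nat.cast_pos.1 ((hc t ht).1 _ ((Sys.mem_Cn.1 (h1.1.2.1 h2)).resolve_left hk))
    have p2 : (2 : ℝ) ^ (tot (S.Db (fun c => env K ix x c) 0) (tlD S)
        (Cw S (fun c => env K ix x c) (a t) (Λ * τ)) (Ww S Λ) s).size ≤ 2 * (Ww S Λ s +
        ∑ d ∈ (S.Db (fun c => env K ix x c) 0).filter (tlD S · = s),
          (Cw S (fun c => env K ix x c) (a t) (Λ * τ) d : ℝ)) := by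
      have := two_pow_size_le p
      unfold tot at this ⊢
      exact_mod_cast this
    refine (mul_le_mul_of_nonneg_left p2 (by positivity)).trans ?_
    rw [mul_left_comm, mul_add, mul_add, mul_sum, mul_sum]
    refine add_le_add le_rfl (sum_le_sum fun d hd => ?_)
    obtain ⟨h1, rfl⟩ := mem_filter.1 hd
    obtain ⟨l1, l2⟩ := hl x g d h1
    have o' := om_pos (S := S) (hc t ht).1 (d.1.2.erase d.2)
    rw [C_eq hA (hc t ht).1 h1]
    have l3 : 1 ≤ ((Λ * τ : ℕ) : ℝ) / S.len (fun c => env K ix x c) d.1.1 d.1.2 d.2 :=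
      (one_le_div (by linarith)).2 (l2.trans (by
        exact_mod_cast hΛ.trans (Nat.le_mul_of_pos_right _ τ0)))
    have l4 := add_le_add (Nat.floor_le (le_trans zero_le_one l3)) l3
    refine (mul_le_mul_of_nonneg_left (mul_le_mul_of_nonneg_left l4 (by positivity))
      zero_le_two).trans (le_of_eq ?_)
    have : S.len (fun c => env K ix x c) d.1.1 d.1.2 d.2 ≠ 0 := by linarith
    push_cast
    field_simp
    ring
  · have k := traj_law (f x) (Q x) (b := b) (N := N)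
      (st := fun t => stepL (hdD S fun c => env K ix x c)
        (Cw S (fun c => env K ix x c) (a t) (Λ * τ)) (Ww S Λ)
        fun s => (At S (fun c => env K ix x c) s).toList)
      (st' := fun t => stepL Prod.snd Prod.fst (Wc x t) (ds x t)) (fun t ht v hv => by
        obtain ⟨s1, s2, s3, s4⟩ := sim x g t ht v hv
        refine ⟨fun y => ?_, fun φ => ?_⟩
        · rcases stepL_cases (hd := Prod.snd) (C := Prod.fst) (W := Wc x t) (ds := ds x t) v y with
            h | ⟨-, h⟩ | ⟨d, hd, h⟩ <;> rw [h]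
          exacts [hv, hv, s3 d hd]
        · have s5 := s4 fun _ => 1
          simp only [mul_one] at s5
          have e : (((Wc x t v, (v, true)) :: (ds x t v).map fun d => (d.1, (d.2, false))).map
              Prod.fst).sum = tot (S.Db (fun c => env K ix x c) 0) (tlD S)
              (Cw S (fun c => env K ix x c) (a t) (Λ * τ)) (Ww S Λ) (f x v) := by
            rw [← Nat.cast_inj (R := ℝ)]
            simp only [List.map_cons, List.sum_cons, List.map_map, tot, s2, Nat.cast_add,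
              Nat.cast_sum, Nat.cast_list_sum]
            exact congrArg _ s5
          have k1 := Ex_pick (v, false) ((Wc x t v, (v, true)) ::
            (ds x t v).map fun d => (d.1, (d.2, false))) (b := b) (e ▸ (hL x g t ht).2 _)
            fun p => φ (f x p.1, p.2)
          have k2 := (hL x g t ht).1 _ s1 φ
          rw [e] at k1
          refine mul_left_cancel₀ (by positivity) (k1.trans (Eq.trans ?_ k2.symm))
          simp only [List.map_cons, List.sum_cons, List.map_map, tot, s2, Nat.cast_add,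
            Nat.cast_sum, sub_sub]
          congr 2
          exact s4 fun s => φ (s, false)) T (h0 x g).1 hj.le
      (Nat.mul_le_mul_left (b * T) hj.le)
    refine Eq.trans (Ex_congr fun y _ => ?_) (k.2 fun s =>
      S.om (fun c => a (j + 1) c) s.2 / S.om (fun c => a j c) s.2)
    simp only [smp, id, List.take_left' hx, List.drop_left' hx, min_eq_right hj.le]
    exact hUV x g j hj _ (k.1 y)
  · have z := Z0 j hj.le
    rw [div_sub_one z.ne', abs_div, abs_of_pos z, div_le_iff₀ z, ← hZ _ hj _ g₀, ← hZ _ hj.le _ g₀,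
      Sys.Zs, Sys.Zs, ← sum_sub_distrib, mul_sum]
    refine (abs_sum_le_sum_abs _ _).trans (sum_le_sum fun s hs => ?_)
    have o := om_pos (S := S) (hc j hj.le).1 s.2
    have := hη j hj _ s (mem_Tm.1 hs).1
    rwa [div_sub_one o.ne', abs_div, abs_of_pos o, div_le_iff₀ o] at this

end Pool.Agent.US.Tick72
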