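import Pool.Agent.Lib.US.A80
import Pool.Agent.Lib.US.Net72

/-! The mean square error of the estimator in the model. -/

namespace Pool.Agent.Lib.US.A80

open Finset Pool.Agent.Lib.helper82 Pool.Agent.Lib.MP_b67cc8_lc Pool.Agent.US.Tick72
open Pool.Agent.Lib.FL.H64 (IsRk cl)

theorem cons_lt72 {m : ℕ} {ρ : Finset ℕ → ℕ} {c : Ix} (h : c ∈ cons (range m) ρ) :
    c.1 < 3 ∧ c.2 < m := by
  obtain ⟨t, e⟩ := c
  rcases mem_cons'.1 h with ⟨rfl, g⟩ | ⟨rfl, g⟩ | ⟨rfl, g⟩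
  exacts [⟨by simp, mem_range.1 g⟩, ⟨by simp, mem_range.1 (NL_sub g)⟩,
    ⟨by simp, mem_range.1 (NL_sub g)⟩]

theorem card_cons72 (m : ℕ) (ρ : Finset ℕ → ℕ) : (cons (range m) ρ).card ≤ 3 * m := by
  have : cons (range m) ρ ⊆ range 3 ×ˢ range m := fun c h =>
    mem_product.2 ⟨mem_range.2 (cons_lt72 h).1, mem_range.2 (cons_lt72 h).2⟩
  simpa using card_le_card this

theorem a0_pos72 {c : ℕ} (h : 0 < c) (w m t : ℕ) : 0 < a0 c w m t := by
  unfold a0; positivity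

theorem aa_eq72 (c0 c1 c2 w m t : ℕ) : (fun c => (aa c0 c1 c2 w m t c : ℝ)) =
    cst (a0 c0 w m t) (a0 c1 w m (NN w)) (a0 c2 w m (NN w)) := by
  funext c
  unfold aa cst
  split_ifs <;> rfl

theorem om_ratio72 {c0 c1 c2 w m t : ℕ} (ρ : Finset ℕ → ℕ) (h0 : 0 < c0) (h1 : 0 < c1)
    (h2 : 0 < c2) (h : a0 c0 w m (t + 1) * 2 ^ (8 * w) = a0 c0 w m t * (2 ^ (8 * w) + 1))
    (s : Key) : (((2 ^ (8 * w)) ^ cnt m s : ℕ) : ℝ) / ((2 ^ (8 * w) + 1) ^ cnt m s : ℕ) =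
      (sys (range m) ρ).om (fun c => aa c0 c1 c2 w m (t + 1) c) s.2 /
        (sys (range m) ρ).om (fun c => aa c0 c1 c2 w m t c) s.2 := by
  have e : ((s.2 ∩ cons (range m) ρ).filter (·.1 = 0)).card = cnt m s := by
    refine (card_nbij (fun e => ((0, e) : Ix)) (fun e he => ?_) (fun e _ f _ h => ?_)
      fun c hc => ?_).symm
    · have := mem_filter.1 he
      exact mem_coe.2 (mem_filter.2 ⟨mem_inter.2 ⟨this.2, mem_cons'.2 (Or.inl ⟨rfl, this.1⟩)⟩, rfl⟩)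
    · exact (Prod.ext_iff.1 h).2
    · obtain ⟨t, e⟩ := c
      obtain ⟨g, rfl⟩ : (t, e) ∈ s.2 ∩ cons (range m) ρ ∧ t = 0 := mem_filter.1 hc
      exact ⟨e, mem_coe.2 (mem_filter.2 ⟨mem_range.2 (cons_lt72 (mem_inter.1 g).2).2,
        (mem_inter.1 g).1⟩), rfl⟩
  rw [Sys.om, Sys.om, ← prod_div_distrib, ← e, Nat.cast_pow, Nat.cast_pow _ (card _), ← div_pow,
    ← prod_const, prod_filter]
  refine prod_congr rfl fun c _ => ?_
  have p := fun c h t => (Nat.cast_pos (α := ℝ)).2 (a0_pos72 (c := c) h w m t)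
  unfold aa
  split_ifs
  · have h' := congrArg (Nat.cast : ℕ → ℝ) h
    have := (p _ h0 t).ne'
    have := (p _ h0 (t + 1)).ne'
    rw [Nat.cast_mul, Nat.cast_mul] at h'
    rw [inv_div_inv, div_eq_div_iff (by positivity) this, mul_comm, h']
  · exact (div_self (inv_ne_zero (p _ h1 _).ne')).symm
  · exact (div_self (inv_ne_zero (p _ h2 _).ne')).symm

theorem run_ms (hAX : St_AX) (hGEN : St_GEN) (hCMP : St_CMP) (hSW : St_SWEEP) (hCON : St_CON)
    (hREC : St_REC) (hAX1 : St_AX1) (hSIM : St_SIM) (hENC : St_ENC) (hPAR : St_PAR)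
    (hPAR2 : St_PAR2) (hZ0 : St_Z0) : St_RUN := by
  intro c0 c1 c2 w m k ρ hρ h0 h1 h2 hw hk l hl
  obtain ⟨p1, p2, p3, -, p5, p6, p7, p8⟩ := hPAR w m (by omega)
  obtain ⟨r1, r2, -, r4⟩ := hPAR2 w m k (by omega) hk
  obtain ⟨z1, z2⟩ := hZ0 c0 c1 c2 w m ρ hρ h0 h1 h2 (by omega)
  have hA := hAX (range m) _ hρ
  have hB : (sys (range m) ρ).B = (2 * m + 2) ^ 3 := by simp [sys]
  have hc := card_cons72 m ρ
  have p := fun c h t => a0_pos72 (c := c) h w m t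
  have cn : ∀ s, cnt m s ≤ m := fun s => (card_filter_le _ _).trans (card_range m).le
  have k1 : (1 : ℝ) / (4 * (2 * k : ℕ) ^ 2) ≤ 1 / 4 := by
    refine one_div_le_one_div_of_le four_pos (le_mul_of_one_le_right four_pos.le ?_)
    exact one_le_pow₀ (by exact_mod_cast (by omega : 1 ≤ 2 * k))
  have key := net_ms hGEN hCMP hSW hA (hCON _ _ hρ) (K := KK w) (n := 4 * m) (N := NN w)
    (b := 2 ^ (12 * w)) (T := 2 ^ (160 * w)) (Λ := 2 ^ (2 * w + KK w)) (τ := 2 ^ (20 * w)) (R := l)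
    (ix := ix) (fun c h => by
      obtain ⟨a1, a2⟩ := cons_lt72 h
      refine ⟨by unfold ix; omega, fun d e => ?_⟩
      unfold ix at e
      exact Prod.ext (by omega) (by omega))
    (aa c0 c1 c2 w m) (fun t => (Zt c0 c1 c2 w m ρ t : ℚ)) (A0 := a0 1 w m 0)
    (A := a0 (2 ^ w) w m (NN w)) (η := 1 / (2 ^ w) ^ 7) (δ₀ := 2 / (2 ^ w) ^ 6)
    (ξ := 4 / (2 ^ w) ^ 6) hl
    (fun t _ θ g => by
      have := hREC _ _ hρ (a0 c0 w m t) (a0 c1 w m (NN w)) (a0 c2 w m (NN w))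
        (Nat.cast_pos.2 (p _ h0 _)) (Nat.cast_pos.2 (p _ h1 _)) (Nat.cast_pos.2 (p _ h2 _)) θ g
      rw [card_range, Rat.cast_natCast, Rat.cast_natCast, Rat.cast_natCast] at this
      rw [aa_eq72]
      exact this)
    (fun t _ => by exact_mod_cast z1 t)
    (fun t _ => by
      rw [aa_eq72]
      exact (hAX1 _ _ hρ).2.2.2.2.2.2.2 _ _ _ (Nat.cast_pos.2 (p _ h0 _))
        (Nat.cast_pos.2 (p _ h1 _)) (Nat.cast_pos.2 (p _ h2 _)))
    (fun t _ c _ => by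
      unfold aa
      split_ifs
      exacts [by exact_mod_cast p1 _ _ h0 (by omega), by exact_mod_cast p1 _ _ h1 (by omega),
        by exact_mod_cast p1 _ _ h2 (by omega)])
    (by rw [hB, p2]; push_cast; rfl)
    (by exact_mod_cast (p1 (2 ^ w) 0 (by positivity) le_rfl).1.trans (p1 _ _ (by positivity) le_rfl).2)
    ((Nat.mul_le_mul_right _ hc).trans p6) (by positivity) (by positivity) (by positivity)
    (by rw [hB]; exact_mod_cast p5) ((Nat.pow_le_pow_right four_pos hc).trans_lt p7)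
    (by positivity) r4 (by positivity)
    (fun t ht _ s _ => by rw [← om_ratio72 ρ h0 h1 h2 (p3 _ t ht)]; exact p8 _ (cn s))
    (by rw [hB]; exact r1 _ hc) (by linarith)
    (fun _ => dec m) (fun x v => dec m v ∈ (sys (range m) ρ).Nd fun c => env (KK w) ix x c)
    (fun _ _ v => wC m ρ (2 ^ (2 * w + KK w)) (dec m v))
    (fun y t v => dsC m ρ (2 ^ (2 * w + KK w) * 2 ^ (20 * w)) (env (KK w) ix y)
      (aa c0 c1 c2 w m t) (dec m v)) (fun y => enc m (top m ρ (env (KK w) ix y)))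
    (fun _ _ v => (2 ^ (8 * w)) ^ cnt m (dec m v)) (fun _ _ v => (2 ^ (8 * w) + 1) ^ cnt m (dec m v))
    (fun x g t _ v hv => by
      have := hSIM m ρ hρ (2 ^ (2 * w + KK w) * 2 ^ (20 * w)) (env (KK w) ix x) (aa c0 c1 c2 w m t)
        ((hGEN _ _ _ _ hA _).1 g) _ hv
      exact ⟨hv, rfl, this.1, this.2 _ fun d => mem_At⟩)
    (fun x g => by
      have a1 : top m ρ (env (KK w) ix x) ∈ _ := top_mem hρ g
      rw [hENC.1 m ρ hρ _ _ (mem_Tm.1 a1).1]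
      refine ⟨(mem_Tm.1 a1).1, a1, ?_⟩
      rw [aa_eq72, top, top_om hρ g, card_range]
      have := (Rat.cast_le (K := ℝ)).2 (z2 _ rfl).2
      push_cast at this
      exact this)
    (fun x _ j hj v _ => om_ratio72 ρ h0 h1 h2 (p3 _ j hj) _) fun _ _ _ v => p8 _ (cn _)
  rw [Rat.cast_div]
  refine key.trans ?_
  rw [div_eq_mul_one_div _ (4 * _), mul_comm]
  exact mul_le_mul_of_nonneg_left r2 (sq_nonneg _)

end Pool.Agent.Lib.US.A80
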