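import Pool.Agent.Lib.US.A80

/-! The list of the code is the list of the darts. -/

namespace Pool.Agent.Lib.US.A80

open Finset
open Pool.Agent.Lib.FL.H64 (IsRk cl)

open Classical in
theorem sim (hAX : St_AX) (hPIV : St_PIV) (hDS : St_DS) (hENC : St_ENC) : St_SIM := by
  intro m ρ hρ L θ a hG s hs
  have hA := hAX (range m) ρ hρ
  obtain ⟨h1, h2⟩ := hDS m ρ hρ _ s hs
  have h3 : ∀ p ∈ dl m ρ s, (lnN m ρ θ (sh m ρ s.1 p.1 p.2) s.2 p.1 : ℝ) =
      (sys (range m) ρ).len (fun c => θ c) (sh m ρ s.1 p.1 p.2) s.2 p.1 ∧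
      dec m (hdC m ρ θ s p) = (sys (range m) ρ).key (sh m ρ s.1 p.1 p.2)
        ((sys (range m) ρ).nxt (fun c => θ c) (sh m ρ s.1 p.1 p.2) s.2 p.1) ∧
      dec m (hdC m ρ θ s p) ∈ (sys (range m) ρ).Nd fun c => θ c := by
    intro p hp
    have h4 := ((h2 _).1 (List.mem_map_of_mem (f := dart m ρ s) hp)).1
    obtain ⟨h5, h6⟩ := Sys.mem_Db.1 h4
    obtain ⟨h7, h8, h9⟩ := Sys.mem_Dt.1 h5
    obtain ⟨h10, h11⟩ := (hPIV m ρ hρ _ _ _ h8).2 θ hG h7 h6
    have h12 : (sys (range m) ρ).key (sh m ρ s.1 p.1 p.2)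
        ((sys (range m) ρ).nxt (fun c => θ c) (sh m ρ s.1 p.1 p.2) s.2 p.1) ∈
        (sys (range m) ρ).Nd fun c => θ c := by
      have h13 := (Sys.piv hA hG h7 h8 h6).1
      have h14 : ((sys (range m) ρ).nxt (fun c => θ c) (sh m ρ s.1 p.1 p.2) s.2 p.1 ∩
          (sys (range m) ρ).Kw).card ≤ 1 := by
        refine (card_le_card (t := {(sys (range m) ρ).ent (fun c => θ c) (sh m ρ s.1 p.1 p.2)
          s.2 p.1}) fun d hd => ?_).trans (card_singleton _).le
        rcases mem_insert.1 (mem_inter.1 hd).1 with h15 | h15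
        · exact mem_singleton.2 h15
        · exact absurd (mem_inter.2 ⟨h15, (mem_inter.1 hd).2⟩) (card_eq_zero.1 h9 ▸ notMem_empty d)
      unfold Sys.Nd
      simp only [mem_image, mem_union, Sys.mem_VJ]
      refine ⟨(_, _), ?_, rfl⟩
      rcases Nat.le_one_iff_eq_zero_or_eq_one.1 h14 with h15 | h15
      · exact Or.inl ⟨h13, h15⟩
      · exact Or.inr ⟨h13, h15⟩
    have h16 : dec m (hdC m ρ θ s p) = (sys (range m) ρ).key (sh m ρ s.1 p.1 p.2)
        ((sys (range m) ρ).nxt (fun c => θ c) (sh m ρ s.1 p.1 p.2) s.2 p.1) := by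
      rw [← hENC.1 m ρ hρ _ _ h12, hdC]
      exact congrArg (fun T => dec m (enc m ((sys (range m) ρ).key _ T))) h10
    exact ⟨h11, h16, h16 ▸ h12⟩
  refine ⟨fun p hp => ?_, fun D hD φ => ?_⟩
  · obtain ⟨q, hq, rfl⟩ := List.mem_map.1 hp
    exact (h3 q hq).2.2
  · have h4 : D = ((dl m ρ s).map (dart m ρ s)).toFinset := by
      ext d
      rw [hD, List.mem_toFinset, h2]
    rw [h4, List.sum_toFinset _ h1, dsC, List.map_map, List.map_map]
    refine congrArg List.sum (List.map_congr_left fun p hp => ?_)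
    obtain ⟨h5, h6, -⟩ := h3 p hp
    simp only [Function.comp_apply, dart]
    rw [h6, ← h5, Nat.floor_div_eq_div]
    rfl

end Pool.Agent.Lib.US.A80
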