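import Pool.Agent.Lib.US.A80

/-! The approximation scheme on the open unit square from the estimator. -/

namespace Pool.Agent.Lib.US.A80

open Finset Pool.Agent.Lib.helper82 Pool.Agent.Lib.MP_b67cc8_lc Pool.Agent.US.Tick72
open Pool.Agent.Lib.FL.H64 (IsRk)
open Pool.Agent.Lib.MP_dec383_lc (UN)

namespace TOP

theorem isRk_res {ρ : Finset ℕ → ℕ} (h : IsRk ρ) (E : Finset ℕ) : IsRk fun A => ρ (A ∩ E) where
  empty := by simpa using h.empty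
  mono A B hAB := h.mono _ _ (inter_subset_inter_right hAB)
  ins A e := by
    by_cases he : e ∈ E
    · rw [insert_inter_of_mem he]
      exact h.ins _ _
    · rw [insert_inter_of_notMem he]
      omega
  sub A B := by
    rw [union_inter_distrib_right, inter_inter_distrib_right]
    exact h.sub _ _

theorem tut_res (ρ : Finset ℕ → ℕ) (m : ℕ) (x y : ℚ) :
    FL.H5.tut (range m) (fun A => ρ (A ∩ range m)) x y = FL.A80.tut m ρ x y :=
  sum_congr rfl fun A hA => by simp only [inter_self, inter_eq_left.2 (mem_powerset.1 hA)]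

theorem a0_eq (c w m t : ℕ) : a0 c w m t = c * a0 1 w m t := by
  unfold a0
  ring

theorem a0_pos {c : ℕ} (h : 0 < c) (w m t : ℕ) : 0 < a0 c w m t := by
  unfold a0
  positivity

theorem pow_size {n : ℕ} (h : 0 < n) : 2 ^ n.size ≤ 2 * n := by
  obtain ⟨c, hc⟩ := Nat.exists_eq_succ_of_ne_zero (Nat.size_pos.2 h).ne'
  have : 2 ^ c ≤ n := Nat.lt_size.1 (by omega)
  rw [hc, pow_succ]
  omega

/-- the scaled ratio is close to the Tutte sum -/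
theorem near {m r : ℕ} (hr : r ≤ m) {B A0 A1 A2 Z0 T ε : ℚ} (b0 : 0 < B) (p0 : 0 < A0)
    (p1 : 0 < A1) (p2 : 0 < A2) (z0 : 0 < Z0)
    (t0 : 0 < A2⁻¹ ^ m * A1⁻¹ ^ r * (A0⁻¹ + A1⁻¹) ^ (m - r) * T)
    (h1 : B⁻¹ ^ m * A1⁻¹ ^ r * A2⁻¹ ^ (m - r) ≤ Z0)
    (h2 : (1 - ε) * Z0 ≤ B⁻¹ ^ m * A1⁻¹ ^ r * A2⁻¹ ^ (m - r)) :
    0 < T ∧ |A2 ^ r * (A0 * A1) ^ (m - r) / (B ^ m * (A0 + A1) ^ (m - r)) *
      (A2⁻¹ ^ m * A1⁻¹ ^ r * (A0⁻¹ + A1⁻¹) ^ (m - r) * T / Z0) - T| ≤ ε * T := by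
  have T0 : 0 < T := (mul_pos_iff_of_pos_left (by positivity)).1 t0
  obtain ⟨s, rfl⟩ := Nat.exists_eq_add_of_le hr
  rw [Nat.add_sub_cancel_left] at *
  have e : A2 ^ r * (A0 * A1) ^ s / (B ^ (r + s) * (A0 + A1) ^ s) *
      (A2⁻¹ ^ (r + s) * A1⁻¹ ^ r * (A0⁻¹ + A1⁻¹) ^ s * T / Z0) =
      B⁻¹ ^ (r + s) * A1⁻¹ ^ r * A2⁻¹ ^ s / Z0 * T := by
    rw [show A0⁻¹ + A1⁻¹ = (A0 + A1) / (A0 * A1) by field_simp; ring]
    simp only [inv_pow, div_pow, pow_add]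
    field_simp
  rw [e]
  have a1 := (div_le_one z0).2 h1
  have a2 := (le_div_iff₀ z0).2 h2
  refine ⟨T0, abs_le.2 ⟨?_, ?_⟩⟩ <;> nlinarith


theorem ms_run (hR : St_RUN) (hP : St_PRUN) {c0 c1 c2 : ℕ} (h0 : 0 < c0) (h1 : 0 < c1)
    (h2 : 0 < c2) {α : Type} [Enc α] {m k w : α → ℕ} {ρ : α → Finset ℕ → ℕ} {ok : α → Prop}
    (hF : FL.H5.Fam m ρ ok) (hw : UN fun a => 2 ^ w a)
    (hw' : ∀ a, m a + k a + c0 + c1 + c2 + 1024 ≤ 2 ^ w a) :
    FL.H5.MS (fun a => 2 * k a) ok fun a =>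
      Zt c0 c1 c2 (w a) (m a) (fun A => ρ a (A ∩ range (m a))) (NN (w a)) /
        Zt c0 c1 c2 (w a) (m a) (fun A => ρ a (A ∩ range (m a))) 0 := by
  have hk := fun a ha => (hF.2.choose_spec.2 a ha).1
  obtain ⟨hm, O, hO, hF⟩ := hF.un
  obtain ⟨ρ', hρ, e⟩ : ∃ ρ' : α → Finset ℕ → ℕ, PR ρ' ∧
      ∀ a, ok a → ρ' a = fun A => ρ a (A ∩ range (m a)) := by
    refine ⟨fun a A => O a ((List.range (m a)).filter fun e => decide (e ∈ A)), ?_,
      fun a ha => funext fun A => ?_⟩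
    · exact (hO.comp (PT.pair PT.fst' (PT.filter
        (P := fun (z : α × List ℕ) e => decide (e ∈ z.2)) (hm.comp PT.fst').range
        (PT.mem PT.snd' (PT.snd PT.fst'))))).congr fun z => by simp only [List.mem_toFinset]
    · beta_reduce
      rw [(hF a ha).2 _ fun e he => List.mem_range.1 (List.mem_filter.1 he).1]
      congr 1
      ext e
      simp [and_comm]
  obtain ⟨d0, hP⟩ := hP c0 c1 c2
  obtain ⟨g1, g2, -⟩ := hP α w m ρ' hw hm hρ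
  refine ⟨fun a x => run c0 c1 c2 (w a) (m a) (ρ' a) x, fun a => bits (w a) (m a), g1, g2,
    fun a ha k0 l hl => ⟨fun x => d0 (w a) (m a) (ρ' a) x, ?_⟩⟩
  beta_reduce
  rw [← e a ha]
  exact hR c0 c1 c2 (w a) (m a) (k a) (ρ' a) (e a ha ▸ isRk_res (hk a ha) _) h0 h1 h2 (hw' a)
    (Nat.pos_of_mul_pos_left k0) l hl

theorem close (hZ : St_Z0) (h2 : St_PAR2) {u v p q w m k : ℕ} {ρ : Finset ℕ → ℕ} (h : IsRk ρ)
    (u0 : 0 < u) (v0 : 0 < v) (p0 : 0 < p) (q0 : 0 < q) (k0 : 0 < k)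
    (hw : m + k + q * v + p * v + u * q + 1024 ≤ 2 ^ w) :
    |((a0 (u * q) w m (NN w) ^ ρ (range m) *
        (a0 (q * v) w m (NN w) * a0 (p * v) w m (NN w)) ^ (m - ρ (range m)) : ℕ) : ℚ) /
      (a0 (q * v) w m 0 ^ m *
        (a0 (q * v) w m (NN w) + a0 (p * v) w m (NN w)) ^ (m - ρ (range m)) : ℕ) *
      (Zt (q * v) (p * v) (u * q) w m (fun A => ρ (A ∩ range m)) (NN w) /
        Zt (q * v) (p * v) (u * q) w m (fun A => ρ (A ∩ range m)) 0) -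
      FL.A80.tut m ρ (u / v) (p / (p + q : ℕ))| ≤
      FL.A80.tut m ρ (u / v) (p / (p + q : ℕ)) / (8 * k) := by
  have c0 : 0 < q * v := Nat.mul_pos q0 v0
  have c1 : 0 < p * v := Nat.mul_pos p0 v0
  have c2 : 0 < u * q := Nat.mul_pos u0 q0
  obtain ⟨z0, z1⟩ := hZ _ _ _ w m _ (isRk_res h (range m)) c0 c1 c2 (by omega)
  obtain ⟨z1, z2⟩ := z1 _ rfl
  have h4 : (2 : ℚ) / (2 ^ w) ^ 6 ≤ 1 / (8 * k) := by
    rw [← Rat.cast_le (K := ℝ)]
    push_cast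
    exact (h2 w m k (by omega) k0).2.2.1
  have zN := z0 (NN w)
  have z0 := z0 0
  have b0 : (0 : ℚ) < a0 (q * v) w m 0 := Nat.cast_pos.2 (a0_pos c0 _ _ _)
  have G0 : (0 : ℚ) < a0 1 w m (NN w) := Nat.cast_pos.2 (a0_pos one_pos _ _ _)
  generalize Zt (q * v) (p * v) (u * q) w m (fun A => ρ (A ∩ range m)) 0 = Z at *
  rw [Zt, Zq, tut_res] at zN ⊢
  rw [Nat.cast_mul, Nat.cast_mul, Nat.cast_pow, Nat.cast_pow, Nat.cast_pow, Nat.cast_pow,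
    Nat.cast_mul, Nat.cast_add]
  rw [a0_eq (u * q) w m (NN w), a0_eq (p * v) w m (NN w)] at z1 z2 zN ⊢
  rw [a0_eq (q * v) w m (NN w)] at zN ⊢
  generalize a0 1 w m (NN w) = G at *
  generalize a0 (q * v) w m 0 = B at *
  simp only [inter_self] at *
  have e1 : ((u * q * G : ℕ) : ℚ) / (q * v * G : ℕ) = u / v := by
    push_cast
    field_simp
  have e2 : ((p * v * G : ℕ) : ℚ) / ((q * v * G : ℕ) + (p * v * G : ℕ)) = p / (p + q : ℕ) := by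
    push_cast
    field_simp
    ring
  rw [e1, e2] at zN ⊢
  have G1 : 0 < G := Nat.cast_pos.1 G0
  obtain ⟨T0, h3⟩ := near (by simpa using h.le_card (range m)) b0
    (Nat.cast_pos.2 (Nat.mul_pos c0 G1)) (Nat.cast_pos.2 (Nat.mul_pos c1 G1))
    (Nat.cast_pos.2 (Nat.mul_pos c2 G1)) z0 zN z1 z2
  exact h3.trans ((mul_le_mul_of_nonneg_right h4 T0.le).trans_eq (by ring))

end TOP

open TOP in
theorem st_US (hR : St_RUN) (hP : St_PRUN) (hZ : St_Z0) (h2 : St_PAR2) : H79.St_US := by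
  intro x y x0 _ y0 y1 α _ m k ρ ok hF hk
  obtain ⟨u, v, v0, rfl⟩ := FL.H5.exists_frac x0.le
  obtain ⟨p, s, s0, rfl⟩ := FL.H5.exists_frac y0.le
  have u0 : 0 < u := Nat.pos_of_ne_zero fun h => by simp [h] at x0
  have p0 : 0 < p := Nat.pos_of_ne_zero fun h => by simp [h] at y0
  obtain ⟨q, q0, rfl⟩ : ∃ q, 0 < q ∧ s = p + q := by
    have : p < s := by exact_mod_cast (div_lt_one (by exact_mod_cast s0 : (0 : ℚ) < s)).1 y1
    exact ⟨s - p, by omega, by omega⟩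
  obtain ⟨r, hr, hr'⟩ := hF.rk
  have hm := hF.1
  have c0 : 0 < q * v := Nat.mul_pos q0 v0
  have c1 : 0 < p * v := Nat.mul_pos p0 v0
  have c2 : 0 < u * q := Nat.mul_pos u0 q0
  have hn : UN fun a => m a + k a + q * v + p * v + u * q + 1024 :=
    (((((hm.add hk).add (UN.const _)).add (UN.const _)).add (UN.const _)).add (UN.const _))
  obtain ⟨w, hw, hw'⟩ : ∃ w : α → ℕ, (UN fun a => 2 ^ w a) ∧
      ∀ a, m a + k a + q * v + p * v + u * q + 1024 ≤ 2 ^ w a :=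
    ⟨fun a => (m a + k a + q * v + p * v + u * q + 1024).size, UN.of_le
      (FL.H5.ptPow 2 (size_un hn.pt)) ((UN.const 2).mul hn) fun a => pow_size (Nat.succ_pos _),
      fun a => (Nat.lt_size_self _).le⟩
  obtain ⟨-, -, g3, g4⟩ := (hP 0 0 0).2 α w m (fun _ _ => 0) hw hm (UN.const 0)
  have hs := hm.sub hr.pt
  refine H79.ms_near ((ms_run hR hP c0 c1 c2 hF hw hw').smul
    (PT.mul (pow_pt (g4 (u * q)) hr) (pow_pt (PT.mul (g4 (q * v)) (g4 (p * v))) hs))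
    (PT.mul (pow_pt (g3 (q * v)) hm) (pow_pt (PT.add (g4 (q * v)) (g4 (p * v))) hs))
    (fun a _ => Nat.mul_pos (pow_pos (a0_pos c0 _ _ _) _)
      (pow_pos (Nat.add_pos_left (a0_pos c0 _ _ _) _) _)) fun _ _ => rfl) fun a ha k0 => ?_
  obtain ⟨-, O, -, hO⟩ := hF
  rw [hr' a ha]
  exact close hZ h2 (hO a ha).1 u0 v0 p0 q0 k0 (hw' a)

end Pool.Agent.Lib.US.A80
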