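import Pool.Agent.Lib.US.A80
import Pool.Agent.Lib.US.B_GP

/-! The first partition function. -/

namespace Pool.Agent.Lib.US.A80

open Finset
open Pool.Agent.Lib.FL.H64 (IsRk cl)

theorem top_le (hR : St_REC) {m : ℕ} {ρ : Finset ℕ → ℕ} (h : IsRk ρ) {A0 A1 A2 : ℚ} (p0 : 0 < A0)
    (p1 : 0 < A1) (p2 : 0 < A2) :
    A0⁻¹ ^ m * A1⁻¹ ^ ρ (range m) * A2⁻¹ ^ (m - ρ (range m)) ≤ Zq m ρ A0 A1 A2 := by
  obtain ⟨θ, -, hθ⟩ := H76.dom (sys (range m) ρ).Cc 0
  have hG : (sys (range m) ρ).SGen θ := fun κ h1 h2 h3 => by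
    have := hθ (fun c => κ c) (fun c _ => by
      have := abs_le.1 (h1 c)
      have : κ c = 0 ∨ κ c = 1 ∨ κ c = -1 := by omega
      exact_mod_cast this) (h2.imp fun c hc => ⟨hc.1, by exact_mod_cast hc.2⟩)
    rw [h3] at this
    simp at this
  have h1 := hR (range m) ρ h A0 A1 A2 p0 p1 p2 θ hG
  have h2 := top_om h hG (A0 : ℝ) A1 A2
  have h3 : (sys (range m) ρ).om (cst A0 A1 A2) (topT (range m) ρ θ) ≤
      (sys (range m) ρ).Zs θ (cst A0 A1 A2) :=
    single_le_sum (f := fun v : Key => (sys (range m) ρ).om (cst A0 A1 A2) v.2)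
      (fun v _ => prod_nonneg fun c _ => inv_nonneg.2 (by
        unfold cst
        split_ifs <;> positivity)) (top_mem h hG)
  rw [h1, h2, card_range] at h3
  unfold Zq
  exact_mod_cast h3

theorem a0_pos13 {c : ℕ} (hc : 0 < c) (w m t : ℕ) : (0 : ℚ) < a0 c w m t := by
  unfold a0
  positivity

theorem z0 (hR : St_REC) (hP : St_PAR) : St_Z0 := by
  intro c0 c1 c2 w m ρ h p0 p1 p2 hw
  have key := fun t => top_le hR (m := m) h (a0_pos13 p0 w m t) (a0_pos13 p1 w m (NN w))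
    (a0_pos13 p2 w m (NN w))
  have pos : ∀ t, 0 < Zt c0 c1 c2 w m ρ t := fun t => lt_of_lt_of_le (by
    have := a0_pos13 p0 w m t
    have := a0_pos13 p1 w m (NN w)
    have := a0_pos13 p2 w m (NN w)
    positivity) (key t)
  refine ⟨pos, fun z hz => ⟨hz ▸ key 0, ?_⟩⟩
  obtain ⟨-, -, -, h4, -⟩ := hP w m (by omega)
  have a1 : (1024 : ℚ) ≤ 2 ^ w := by exact_mod_cast (show 1024 ≤ 2 ^ w by omega)
  have a2 : (m : ℚ) ≤ 2 ^ w := by exact_mod_cast (show m ≤ 2 ^ w by omega)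
  have a3 : ∀ c, 0 < c → (a0 c0 w m 0 : ℚ) ≤ 1 / (2 ^ w) ^ 7 * a0 c w m (NN w) := fun c hc => by
    rw [one_div, le_inv_mul_iff₀ (by positivity), mul_comm]
    exact_mod_cast h4 c0 c (by omega) hc
  have a4 : 2 * (m : ℚ) * (1 / (2 ^ w) ^ 7) ≤ 2 / (2 ^ w) ^ 6 := by
    rw [mul_one_div, div_le_div_iff₀ (by positivity) (by positivity), pow_succ _ 6]
    nlinarith [show (0 : ℚ) < (2 ^ w) ^ 6 by positivity]
  have a5 : (2 : ℚ) / (2 ^ w) ^ 6 ≤ 1 := by
    rw [div_le_one (by positivity)]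
    exact le_trans (by linarith) (le_self_pow₀ (by linarith) (by norm_num))
  have a6 := top_mass (E := range m) h (d := 1 / (2 ^ w) ^ 7) (a0_pos13 p0 w m 0)
    (by rw [div_le_one (by positivity)]; exact one_le_pow₀ (by linarith))
    (by rw [card_range]; linarith) (a3 c1 p1) (a3 c2 p2) (a0_pos13 p1 w m (NN w))
    (a0_pos13 p2 w m (NN w))
  rw [card_range, ← hz] at a6
  exact le_trans (mul_le_mul_of_nonneg_right (by linarith) (pos 0).le) a6

end Pool.Agent.Lib.US.A80
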