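import Pool.Agent.Lib.US.Mod60

/-! Tools for the faces of codimension two: sheets as middle flats, rays, linear spaces. -/

namespace Pool.Agent.Lib.US.H18

open Finset Pool.Agent.Lib.FL
open Pool.Agent.Lib.FL.H64 (IsRk cl Flat Cov)

/-! ### points and lines -/

section lin
variable {α β : Type} {Pt : Finset α} {Ln : Finset β} {I : α → β → Prop}
  [∀ p q, Decidable (I p q)]

theorem swap (f : α → β → ℝ) : ∑ p ∈ Pt, ∑ q ∈ Ln with I p q, f p q =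
    ∑ q ∈ Ln, ∑ p ∈ Pt with I p q, f p q := by
  simp only [sum_filter]
  exact sum_comm

theorem sq (h3 : ∀ p ∈ Pt, ∀ p' ∈ Pt, p ≠ p' → (Ln.filter fun q => I p q ∧ I p' q).card = 1)
    (t t' : α → ℝ) : ∑ q ∈ Ln, (∑ p ∈ Pt with I p q, t p) * ∑ p ∈ Pt with I p q, t' p =
      ∑ p ∈ Pt, (((Ln.filter (I p)).card : ℝ) - 1) * (t p * t' p) +
        (∑ p ∈ Pt, t p) * ∑ p ∈ Pt, t' p := by
  classical
  have h1 : ∀ q ∈ Ln, (∑ p ∈ Pt with I p q, t p) * ∑ p ∈ Pt with I p q, t' p =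
      ∑ p ∈ Pt, ∑ p' ∈ Pt, if I p q ∧ I p' q then t p * t' p' else 0 := fun q _ => by
    rw [sum_filter, sum_filter, sum_mul_sum]
    refine sum_congr rfl fun p _ => sum_congr rfl fun p' _ => ?_
    by_cases a : I p q <;> by_cases b : I p' q <;> simp [a, b]
  rw [sum_congr rfl h1, sum_comm, sum_mul_sum, ← sum_add_distrib]
  refine sum_congr rfl fun p hp => ?_
  rw [sum_comm, ← add_sum_erase _ _ hp, ← add_sum_erase _ (fun p' => t p * t' p') hp]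
  have h2 : ∀ p' ∈ Pt.erase p, (∑ q ∈ Ln, if I p q ∧ I p' q then t p * t' p' else 0) =
      t p * t' p' := fun p' hp' => by
    rw [← sum_filter, sum_const, h3 p hp p' (mem_of_mem_erase hp') (ne_of_mem_erase hp').symm,
      one_smul]
  rw [sum_congr rfl h2, ← sum_filter, sum_const, nsmul_eq_mul]
  simp only [and_self]
  ring

variable {a : α → ℝ} {q : β → ℝ} {N : ℝ} {mP : α → ℝ} {mQ : β → ℝ}

theorem ident (h3 : ∀ p ∈ Pt, ∀ p' ∈ Pt, p ≠ p' → (Ln.filter fun q => I p q ∧ I p' q).card = 1)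
    (h0 : ∑ p ∈ Pt, a p = N) (h1 : ∀ Q ∈ Ln, ∑ p ∈ Pt with I p Q, a p = q Q)
    (h2 : ∀ p ∈ Pt, ∑ Q ∈ Ln with I p Q, (q Q - a p) = N - a p)
    (hP : ∀ p ∈ Pt, mP p = (N - a p) ^ 2 - ∑ Q ∈ Ln with I p Q, (q Q - a p) ^ 2)
    (hQ : ∀ Q ∈ Ln, mQ Q = q Q ^ 2 - ∑ p ∈ Pt with I p Q, a p ^ 2) :
    (∀ d : α → ℝ, ∑ p ∈ Pt, mP p * d p + ∑ Q ∈ Ln, mQ Q * ∑ p ∈ Pt with I p Q, d p =
      (∑ Q ∈ Ln, mQ Q) * ∑ p ∈ Pt, d p) := by
  classical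
  have e1 : ∑ Q ∈ Ln, mQ Q = N ^ 2 - ∑ p ∈ Pt, a p ^ 2 := by
    have h := sq h3 a a
    rw [h0, sum_congr rfl fun Q hQ' => show _ = q Q ^ 2 by rw [h1 Q hQ']; ring] at h
    rw [sum_congr rfl hQ, sum_sub_distrib, h, ← swap fun p _ => a p ^ 2]
    simp only [sum_const, nsmul_eq_mul, sub_mul, sum_sub_distrib, one_mul, pow_two]
    ring
  have e2 : ∀ p ∈ Pt, mP p + ∑ Q ∈ Ln with I p Q, mQ Q = N ^ 2 - ∑ p ∈ Pt, a p ^ 2 := by
    intro p hp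
    have h := sq h3 (fun p' => if p' = p then 1 else 0) fun p' => a p' ^ 2
    have h4 : ∀ Q ∈ Ln, (∑ p' ∈ Pt with I p' Q, if p' = p then (1 : ℝ) else 0) *
        ∑ p' ∈ Pt with I p' Q, a p' ^ 2 =
        if I p Q then ∑ p' ∈ Pt with I p' Q, a p' ^ 2 else 0 := fun Q _ => by
      rw [sum_ite_eq']
      by_cases hI : I p Q <;> simp [hI, hp]
    rw [sum_congr rfl h4, ← sum_filter] at h
    simp only [ite_mul, one_mul, zero_mul, mul_ite, mul_zero, sum_ite_eq', hp, if_true] at h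
    have h5 := h2 p hp
    rw [hP p hp, sum_congr rfl fun Q hQ' => hQ Q (mem_filter.1 hQ').1, sum_sub_distrib, h,
      sum_congr rfl fun Q _ => show (q Q - a p) ^ 2 =
        q Q ^ 2 - 2 * a p * (q Q - a p) - a p ^ 2 by ring, sum_sub_distrib, sum_sub_distrib,
      ← mul_sum, h5, sum_const, nsmul_eq_mul]
    ring
  intro d
  rw [e1, mul_sum, sum_congr rfl fun Q _ => mul_sum _ _ (mQ Q), ← swap fun p Q => mQ Q * d p,
    ← sum_add_distrib]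
  refine sum_congr rfl fun p hp => ?_
  rw [← sum_mul, ← add_mul, e2 p hp]

theorem hodge (h3 : ∀ p ∈ Pt, ∀ p' ∈ Pt, p ≠ p' → (Ln.filter fun q => I p q ∧ I p' q).card = 1)
    (hid : ∀ d : α → ℝ, ∑ p ∈ Pt, mP p * d p + ∑ Q ∈ Ln, mQ Q * ∑ p ∈ Pt with I p Q, d p =
      (∑ Q ∈ Ln, mQ Q) * ∑ p ∈ Pt, d p) (hQ : ∀ Q ∈ Ln, 0 ≤ mQ Q) (hG : 0 < ∑ Q ∈ Ln, mQ Q)
    (t : α → ℝ) (s : β → ℝ) (h : ∑ p ∈ Pt, mP p * t p + ∑ Q ∈ Ln, mQ Q * s Q = 0) :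
    2 * ∑ p ∈ Pt, ∑ Q ∈ Ln with I p Q, t p * s Q +
      ∑ p ∈ Pt, (1 - ((Ln.filter (I p)).card : ℝ)) * t p ^ 2 - ∑ Q ∈ Ln, s Q ^ 2 ≤ 0 := by
  set r : β → ℝ := fun Q => s Q - ∑ p ∈ Pt with I p Q, t p with hr
  have e1 : (∑ Q ∈ Ln, mQ Q) * ∑ p ∈ Pt, t p = -∑ Q ∈ Ln, mQ Q * r Q := by
    simp only [hr, mul_sub, sum_sub_distrib]
    linarith [hid t]
  have e2 : (∑ Q ∈ Ln, mQ Q * r Q) ^ 2 ≤ (∑ Q ∈ Ln, mQ Q) ^ 2 * ∑ Q ∈ Ln, r Q ^ 2 :=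
    (sum_mul_sq_le_sq_mul_sq _ _ _).trans (mul_le_mul_of_nonneg_right
      (sum_sq_le_sq_sum_of_nonneg hQ) (sum_nonneg fun _ _ => sq_nonneg _))
  have e3 : (∑ p ∈ Pt, t p) ^ 2 ≤ ∑ Q ∈ Ln, r Q ^ 2 := by
    refine le_of_mul_le_mul_left ?_ (pow_pos hG 2)
    rw [← mul_pow, e1, neg_sq]
    exact e2
  have e4 : ∑ Q ∈ Ln, r Q ^ 2 = ∑ Q ∈ Ln, s Q ^ 2 -
      2 * ∑ p ∈ Pt, ∑ Q ∈ Ln with I p Q, t p * s Q +
      ∑ Q ∈ Ln, (∑ p ∈ Pt with I p Q, t p) * ∑ p ∈ Pt with I p Q, t p := by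
    rw [swap, mul_sum, ← sum_sub_distrib, ← sum_add_distrib]
    refine sum_congr rfl fun Q _ => ?_
    rw [← sum_mul, hr]
    ring
  rw [sq h3] at e4
  have e5 : ∑ p ∈ Pt, (1 - ((Ln.filter (I p)).card : ℝ)) * t p ^ 2 =
      -∑ p ∈ Pt, (((Ln.filter (I p)).card : ℝ) - 1) * (t p * t p) := by
    rw [← sum_neg_distrib]
    exact sum_congr rfl fun p _ => by ring
  rw [e5]
  nlinarith [e3, e4]

end lin

theorem exists_fun {α β : Type} (R : α → β → Prop) (f : α → β → ℝ)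
    (h : ∀ p q q', R p q → R p q' → f p q' = f p q) : ∃ g : α → ℝ, ∀ p q, R p q → f p q = g p := by
  classical
  refine ⟨fun p => if h : ∃ q, R p q then f p h.choose else 0, fun p q hq => ?_⟩
  have h1 : ∃ q, R p q := ⟨q, hq⟩
  simp only [dif_pos h1]
  exact h p _ _ h1.choose_spec hq

/-! ### cones -/

variable {E : Finset ℕ} {ρ : Finset ℕ → ℕ} {σ τ : ℕ × ℕ → Finset ℕ} {k l : ℕ × ℕ}

theorem wall_iff : k ∈ (sys E ρ).Kw ↔
    (k.1 = 3 ∨ k.1 = 4) ∧ 1 ≤ k.2 ∧ k.2 < rs E ρ (k.1 - 3) E := by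
  obtain ⟨t, i⟩ := k
  simp only [sys, walls, mem_union, mem_product, mem_singleton, mem_Ico]
  constructor
  · rintro (⟨rfl, h⟩ | ⟨rfl, h⟩)
    · exact ⟨Or.inl rfl, h⟩
    · exact ⟨Or.inr rfl, h⟩
  · rintro ⟨rfl | rfl, h⟩
    · exact Or.inl ⟨rfl, h⟩
    · exact Or.inr ⟨rfl, h⟩

theorem rk_rs (h : IsRk ρ) (j : ℕ) : IsRk (rs E ρ j) := by
  unfold rs
  split_ifs
  · exact h
  · exact h.isRk_dual E

theorem chain_of (h : IsCone E ρ σ) {t : ℕ} (ht : t = 3 ∨ t = 4) :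
    Chain E (rs E ρ (t - 3)) fun i => σ (t, i) := by
  rcases ht with rfl | rfl
  · exact h.chain 0 (by omega)
  · exact h.chain 1 (by omega)

theorem cov_lo (h : IsCone E ρ σ) (hk : k ∈ (sys E ρ).Kw) :
    Cov (rs E ρ (k.1 - 3)) E (σ (k.1, k.2 - 1)) (σ k) := by
  obtain ⟨h1, h2, h3⟩ := wall_iff.1 hk
  have := (chain_of h h1).cov (k.2 - 1) (by omega)
  rwa [Nat.sub_add_cancel h2] at this

theorem cov_hi (h : IsCone E ρ σ) (hk : k ∈ (sys E ρ).Kw) :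
    Cov (rs E ρ (k.1 - 3)) E (σ k) (σ (k.1, k.2 + 1)) := by
  obtain ⟨h1, -, h3⟩ := wall_iff.1 hk
  exact (chain_of h h1).cov k.2 h3

theorem cone_of (h : IsCone E ρ σ) (A : Finset (ℕ × ℕ)) (hA : ∀ k ∈ A, k ∈ (sys E ρ).Kw)
    (h1 : ∀ j, j ∉ A → τ j = σ j)
    (h2 : ∀ k ∈ A, Cov (rs E ρ (k.1 - 3)) E (τ (k.1, k.2 - 1)) (τ k) ∧
      Cov (rs E ρ (k.1 - 3)) E (τ k) (τ (k.1, k.2 + 1))) : IsCone E ρ τ := by
  refine ⟨fun j hj => ⟨?_, fun i hi => ?_, fun i hi => ?_⟩, fun t i a b => ?_⟩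
  · rw [ch, h1 _ fun hh => by have := (wall_iff.1 (hA _ hh)).2.1; simp at this]
    exact (h.chain j hj).bot
  · rw [ch, h1 _ fun hh => by
      have := (wall_iff.1 (hA _ hh)).2.2
      simp only [Nat.add_sub_cancel_left] at this
      omega]
    exact (h.chain j hj).top i hi
  · by_cases a : (3 + j, i) ∈ A
    · simpa [ch] using (h2 _ a).2
    by_cases b : (3 + j, i + 1) ∈ A
    · simpa [ch] using (h2 _ b).1
    rw [ch, ch, h1 _ a, h1 _ b]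
    exact (h.chain j hj).cov i hi
  · rw [h1 _ fun hh => by have := (wall_iff.1 (hA _ hh)).1; simp only at this; omega]
    exact h.junk t i a b

open Classical in
/-- the flats that can stand at the wall `k` -/
noncomputable def mid (E : Finset ℕ) (ρ : Finset ℕ → ℕ) (σ : ℕ × ℕ → Finset ℕ) (k : ℕ × ℕ) :
    Finset (Finset ℕ) :=
  E.powerset.filter fun P => Cov (rs E ρ (k.1 - 3)) E (σ (k.1, k.2 - 1)) P ∧
    Cov (rs E ρ (k.1 - 3)) E P (σ (k.1, k.2 + 1))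

theorem mem_mid {P : Finset ℕ} : P ∈ mid E ρ σ k ↔
    Cov (rs E ρ (k.1 - 3)) E (σ (k.1, k.2 - 1)) P ∧
      Cov (rs E ρ (k.1 - 3)) E P (σ (k.1, k.2 + 1)) := by
  classical
  rw [mid, mem_filter, mem_powerset]
  exact ⟨fun h => h.2, fun h => ⟨h.2.1.1, h⟩⟩

theorem ne_lo (hk : k ∈ (sys E ρ).Kw) : (k.1, k.2 - 1) ≠ k := fun h => by
  have := (wall_iff.1 hk).2.1
  have h2 := congrArg Prod.snd h
  simp only at h2
  omega

theorem ne_hi (k : ℕ × ℕ) : (k.1, k.2 + 1) ≠ k := fun h => by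
  have h2 := congrArg Prod.snd h
  simp only at h2
  omega

theorem ne_bot (hk : k ∈ (sys E ρ).Kw) (t : ℕ) : (t, 0) ≠ k := fun h => by
  have := (wall_iff.1 hk).2.1
  rw [← h] at this
  simp at this

theorem sum_Nb {M : Type} [AddCommMonoid M] (h : IsCone E ρ σ) (hk : k ∈ (sys E ρ).Kw)
    (f : (ℕ × ℕ → Finset ℕ) → M) :
    ∑ τ ∈ (sys E ρ).Nb k σ, f τ = ∑ P ∈ mid E ρ σ k, f (Function.update σ k P) := by
  have h0 : ∀ τ ∈ (sys E ρ).Nb k σ, Function.update σ k (τ k) = τ := fun τ hτ => by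
    funext j
    by_cases e : j = k
    · rw [e, Function.update_self]
    · rw [Function.update_of_ne e, (Sys.mem_Nb.1 hτ).2 j e]
  refine sum_nbij' (fun τ => τ k) (fun P => Function.update σ k P) (fun τ hτ => ?_)
    (fun P hP => ?_) h0 (fun P _ => Function.update_self ..) fun τ hτ => by rw [h0 τ hτ]
  · obtain ⟨h1, h2⟩ := Sys.mem_Nb.1 hτ
    rw [mem_mid, ← h2 _ (ne_lo hk), ← h2 _ (ne_hi k)]
    exact ⟨cov_lo (mem_Ch.1 h1) hk, cov_hi (mem_Ch.1 h1) hk⟩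
  · refine Sys.mem_Nb.2 ⟨mem_Ch.2 (cone_of h {k} (fun j hj => mem_singleton.1 hj ▸ hk)
      (fun j hj => Function.update_of_ne (by simpa using hj) _ _) fun j hj => ?_),
      fun j hj => Function.update_of_ne hj _ _⟩
    rw [mem_singleton.1 hj, Function.update_self, Function.update_of_ne (ne_lo hk),
      Function.update_of_ne (ne_hi k)]
    exact mem_mid.1 hP

theorem card_Nb (h : IsCone E ρ σ) (hk : k ∈ (sys E ρ).Kw) :
    ((sys E ρ).Nb k σ).card = (mid E ρ σ k).card := by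
  rw [card_eq_sum_ones, sum_Nb h hk, ← card_eq_sum_ones]

theorem nu_eq (hB : St_BAL) (hρ : IsRk ρ) (h : IsCone E ρ σ) (hk : k ∈ (sys E ρ).Kw) :
    (sys E ρ).nu σ k = ((((σ (k.1, k.2 + 1)).card : ℝ) - (σ (k.1, k.2 - 1)).card) ^ 2 -
      ∑ P ∈ mid E ρ σ k, ((P.card : ℝ) - (σ (k.1, k.2 - 1)).card) ^ 2) / (mid E ρ σ k).card := by
  rw [Sys.nu, (hB E ρ hρ σ (mem_Ch.2 h) k hk).2.2.1, card_Nb h hk, sum_Nb h hk]
  simp only [Function.update_self]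

/-- two entries replaced -/
def up2 (σ : ℕ × ℕ → Finset ℕ) (k l : ℕ × ℕ) (P Q : Finset ℕ) : ℕ × ℕ → Finset ℕ :=
  Function.update (Function.update σ k P) l Q

theorem up2_k (hne : k ≠ l) (P Q : Finset ℕ) : up2 σ k l P Q k = P := by
  rw [up2, Function.update_of_ne hne, Function.update_self]

theorem up2_l (P Q : Finset ℕ) : up2 σ k l P Q l = Q := Function.update_self ..

theorem up2_ne {j : ℕ × ℕ} (h1 : j ≠ k) (h2 : j ≠ l) (P Q : Finset ℕ) : up2 σ k l P Q j = σ j := by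
  rw [up2, Function.update_of_ne h2, Function.update_of_ne h1]

theorem up2_mem {P Q : Finset ℕ} (h : IsCone E ρ (up2 σ k l P Q)) :
    up2 σ k l P Q ∈ (sys E ρ).Nb2 k l σ :=
  Sys.mem_Nb2.2 ⟨mem_Ch.2 h, fun _ h1 h2 => up2_ne h1 h2 P Q⟩

theorem up2_Nb_l (P Q : Finset ℕ) {Q' : Finset ℕ} (h : IsCone E ρ (up2 σ k l P Q')) :
    up2 σ k l P Q' ∈ (sys E ρ).Nb l (up2 σ k l P Q) :=
  Sys.mem_Nb.2 ⟨mem_Ch.2 h, fun j hj => by simp only [up2, Function.update_of_ne hj]⟩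

theorem up2_Nb_k (P Q : Finset ℕ) {P' : Finset ℕ} (h : IsCone E ρ (up2 σ k l P' Q)) :
    up2 σ k l P' Q ∈ (sys E ρ).Nb k (up2 σ k l P Q) :=
  Sys.mem_Nb.2 ⟨mem_Ch.2 h, fun j hj => by
    by_cases e : j = l
    · rw [e, up2_l, up2_l]
    · rw [up2_ne hj e, up2_ne hj e]⟩

theorem sum_Nb2 {M : Type} [AddCommMonoid M] (hne : k ≠ l) (X : Finset (Finset ℕ))
    (Y : Finset ℕ → Finset (Finset ℕ))
    (hXY : ∀ P Q, IsCone E ρ (up2 σ k l P Q) ↔ P ∈ X ∧ Q ∈ Y P) (f : (ℕ × ℕ → Finset ℕ) → M) :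
    ∑ τ ∈ (sys E ρ).Nb2 k l σ, f τ = ∑ P ∈ X, ∑ Q ∈ Y P, f (up2 σ k l P Q) := by
  have h0 : ∀ τ ∈ (sys E ρ).Nb2 k l σ, up2 σ k l (τ k) (τ l) = τ := fun τ hτ => by
    funext j
    by_cases e : j = l
    · rw [e, up2_l]
    by_cases e' : j = k
    · rw [e', up2_k hne]
    · rw [up2_ne e' e, (Sys.mem_Nb2.1 hτ).2 j e' e]
  rw [sum_sigma']
  refine sum_nbij' (fun τ => ⟨τ k, τ l⟩) (fun p => up2 σ k l p.1 p.2) (fun τ hτ => ?_)
    (fun p hp => up2_mem ((hXY _ _).2 (mem_sigma.1 hp))) h0 (fun p _ => ?_)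
    fun τ hτ => by rw [h0 τ hτ]
  · refine mem_sigma.2 ((hXY _ _).1 ?_)
    rw [h0 τ hτ]
    exact mem_Ch.1 (Sys.mem_Nb2.1 hτ).1
  · simp only [up2_k hne, up2_l]

/-! ### rays -/

/-- the ray of a set -/
def rv (σ : ℕ × ℕ → Finset ℕ) (t : ℕ) (F : Finset ℕ) (x : ℕ × ℕ) : ℝ :=
  if x.1 + 3 = t ∧ x.2 ∈ F ∧ x.2 ∉ σ (t, 0) then (if t = 3 then 1 else -1) else 0

/-- the concave function of a set -/
def gv (E : Finset ℕ) (σ : ℕ × ℕ → Finset ℕ) (t : ℕ) (F : Finset ℕ) : ℝ :=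
  ((F.card : ℝ) - (σ (t, 0)).card) * ((E.card : ℝ) - F.card)

theorem rv_all (h : IsCone E ρ σ) {t : ℕ} (ht : t = 3 ∨ t = 4) (p : ℕ) :
    rv σ t (σ (t, p)) ∈ (sys E ρ).Vs σ ∧
      (∀ l ∈ (sys E ρ).Kw, (sys E ρ).L σ l (rv σ t (σ (t, p))) = if l = (t, p) then -1 else 0) ∧
      (sys E ρ).bt σ (rv σ t (σ (t, p))) = gv E σ t (σ (t, p)) := by
  obtain ⟨j, hj, rfl⟩ : ∃ j < 2, t = 3 + j := ⟨t - 3, by omega, by omega⟩
  rw [show rv σ (3 + j) (σ (3 + j, p)) = ind σ j (ch σ j p) from ray_eq hj]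
  exact ⟨ind_mem h hj p, fun l hl => cov_ind h hj p hl, bt_ind h hj p⟩

theorem u_eq (h0 : τ (k.1, 0) = σ (k.1, 0)) : (sys E ρ).u τ k = rv σ k.1 (τ k) := by
  funext x
  simp only [sys, ray, rv, h0]

theorem bt_u (h : IsCone E ρ τ) (hk : k ∈ (sys E ρ).Kw) (h0 : τ (k.1, 0) = σ (k.1, 0)) :
    (sys E ρ).bt τ ((sys E ρ).u τ k) = gv E σ k.1 (τ k) := by
  rw [u_eq (σ := τ) rfl, (rv_all h (wall_iff.1 hk).1 k.2).2.2, gv, gv, h0]

theorem w_eq (h : IsCone E ρ σ) (hk : k ∈ (sys E ρ).Kw) :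
    (sys E ρ).w σ k = ∑ P ∈ mid E ρ σ k, rv σ k.1 P := by
  rw [Sys.w, sum_Nb h hk]
  refine sum_congr rfl fun P _ => ?_
  rw [u_eq (σ := σ) (Function.update_of_ne (ne_bot hk _) _ _), Function.update_self]

theorem mid_pos (h : IsCone E ρ σ) (hk : k ∈ (sys E ρ).Kw) : (1 : ℝ) ≤ (mid E ρ σ k).card := by
  exact_mod_cast card_pos.2 ⟨σ k, mem_mid.2 ⟨cov_lo h hk, cov_hi h hk⟩⟩

theorem mm_eq (h : IsCone E ρ σ) (hk : k ∈ (sys E ρ).Kw) :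
    ∑ P ∈ mid E ρ σ k, gv E σ k.1 P - (sys E ρ).bt σ ((sys E ρ).w σ k) =
      (sys E ρ).nu σ k * (mid E ρ σ k).card := by
  have h1 := mid_pos h hk
  rw [Sys.nu, card_Nb h hk, div_mul_cancel₀ _ (by linarith), Sys.mm]
  congr 1
  rw [← sum_congr rfl fun τ hτ => (bt_u (σ := σ) (mem_Ch.1 (Sys.mem_Nb.1 hτ).1) hk
    ((Sys.mem_Nb.1 hτ).2 _ (ne_bot hk _))).symm, sum_Nb h hk]
  simp only [Function.update_self]

end Pool.Agent.Lib.US.H18
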