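import Pool.Agent.Lib.US.Model

/-! Chains of flats under deletion and contraction. -/

namespace Pool.Agent.Lib.US.DC

open Finset Pool.Agent.Lib.FL
open Pool.Agent.Lib.FL.H64 (IsRk cl Flat Cov mem_cl cl_subset subset_cl con dual)

variable {E : Finset ℕ} {r r' : Finset ℕ → ℕ} {C : ℕ → Finset ℕ} {e : ℕ}

theorem rk_bot (h : IsRk r) : r (cl r E ∅) = 0 := by rw [h.rk_cl (empty_subset _), h.empty]

theorem ch_rk (h : IsRk r) (hC : Chain E r C) {i : ℕ} (hi : i ≤ r E) : r (C i) = i := by
  have := (H64.chain_rk hC.cov i hi).2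
  rw [this, hC.bot, rk_bot h, zero_add]

theorem ch_flat (hC : Chain E r C) (i : ℕ) : Flat r E (C i) := by
  rcases lt_or_ge i (r E) with hi | hi
  · exact (hC.cov i hi).1
  · rw [hC.top i hi]; exact H64.flat_top

theorem ch_mono (hC : Chain E r C) {i j : ℕ} (hij : i ≤ j) : C i ⊆ C j := by
  induction j, hij using Nat.le_induction with
  | base => exact Subset.rfl
  | succ j _ ih =>
    rcases lt_or_ge j (r E) with hi | hi
    · exact ih.trans (hC.cov j hi).2.2.1
    · rw [hC.top (j + 1) (by omega)]; exact hC.sub i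

theorem ch_level (hC : Chain E r C) {f : ℕ} (hf : f ∈ E) (h0 : f ∉ C 0) :
    ∃ i < r E, f ∈ C (i + 1) ∧ f ∉ C i := by
  by_contra hcon
  push Not at hcon
  have : ∀ i ≤ r E, f ∉ C i := by
    intro i
    induction i with
    | zero => exact fun _ => h0
    | succ i ih => exact fun hi hm => ih (by omega) (hcon i (by omega) hm)
  exact this _ le_rfl (by rw [hC.top _ le_rfl]; exact hf)

theorem ch_ne (hC : Chain E r C) {i : ℕ} (hi : i < r E) : ∃ f, f ∈ C (i + 1) ∧ f ∉ C i := by
  by_contra hcon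
  push Not at hcon
  have := (hC.cov i hi).card_lt
  have := card_le_card (show C (i + 1) ⊆ C i from hcon)
  omega

theorem lev_lt (hC : Chain E r C) {i f : ℕ} (h1 : f ∈ C (i + 1)) (h2 : f ∉ C i) : i < r E := by
  by_contra hi
  exact h2 (by rw [hC.top i (by omega)]; exact hC.sub _ h1)

theorem lev_uniq (hC : Chain E r C) {i j f : ℕ} (h1 : f ∈ C (i + 1)) (h2 : f ∉ C i)
    (h3 : f ∈ C (j + 1)) (h4 : f ∉ C j) : i = j := by
  rcases lt_trichotomy i j with h | h | h
  · exact absurd (ch_mono hC (by omega) h1) h4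
  · exact h
  · exact absurd (ch_mono hC (by omega) h3) h2

/-- a set that meets the first levels has large rank -/
theorem span_rk (h : IsRk r) (hC : Chain E r C) (Z : Finset ℕ) :
    ∀ t, (∀ i < t, ∃ f ∈ Z, f ∈ C (i + 1) ∧ f ∉ C i) → t ≤ r (Z ∩ C t) := by
  intro t
  induction t with
  | zero => exact fun _ => Nat.zero_le _
  | succ t ih =>
    intro ht
    have h1 := ih fun i hi => ht i (by omega)
    obtain ⟨f, hZ, hf, hf'⟩ := ht t (by omega)
    have h2 : r (insert f (Z ∩ C t)) ≠ r (Z ∩ C t) := fun h' =>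
      hf' ((ch_flat hC t).2 f (hC.sub _ hf) (h.ins_of_sub inter_subset_right h'))
    have h3 := h.le_ins (Z ∩ C t) f
    have h4 := h.mono (insert f (Z ∩ C t)) (Z ∩ C (t + 1)) (insert_subset (mem_inter.2 ⟨hZ, hf⟩)
      (inter_subset_inter_left (ch_mono hC (by omega))))
    omega

theorem flat_erase (h : IsRk r) {F : Finset ℕ} (hF : Flat r E F) :
    Flat r (E.erase e) (F.erase e) :=
  ⟨erase_subset_erase _ hF.1, fun x hx h1 => mem_erase.2 ⟨(mem_erase.1 hx).1,
    hF.2 x (mem_erase.1 hx).2 (h.ins_of_sub (erase_subset _ _) h1)⟩⟩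

/-- every level has an element other than `e` -/
def Lv (E : Finset ℕ) (r : Finset ℕ → ℕ) (C : ℕ → Finset ℕ) (e : ℕ) : Prop :=
  ∀ i < r E, ∃ f, f ≠ e ∧ f ∈ C (i + 1) ∧ f ∉ C i

theorem rk_erase (h : IsRk r) (hC : Chain E r C) (hL : Lv E r C e) {i : ℕ} (hi : i ≤ r E) :
    r ((C i).erase e) = i := by
  have h1 := span_rk h hC (E.erase e) i fun j hj => by
    obtain ⟨f, hf, h1, h2⟩ := hL j (by omega)
    exact ⟨f, mem_erase.2 ⟨hf, hC.sub _ h1⟩, h1, h2⟩
  have h2 : E.erase e ∩ C i = (C i).erase e := by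
    ext x
    simp only [mem_inter, mem_erase]
    exact ⟨fun h => ⟨h.1.1, h.2⟩, fun h => ⟨⟨h.1, hC.sub _ h.2⟩, h.2⟩⟩
  have h3 := h.mono _ _ (erase_subset e (C i))
  rw [h2] at h1
  rw [ch_rk h hC hi] at h3
  omega

theorem del_fwd (h : IsRk r) (hE : r (E.erase e) = r E) (hC : Chain E r C) (hL : Lv E r C e) :
    Chain (E.erase e) r fun i => (C i).erase e := by
  refine ⟨?_, fun i hi => by rw [hC.top i (by omega)], fun i hi => ?_⟩
  · rw [hC.bot]
    ext x
    simp only [mem_erase, mem_cl, and_assoc]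
  · refine ⟨flat_erase h (ch_flat hC i), flat_erase h (ch_flat hC _),
      erase_subset_erase _ (ch_mono hC (by omega)), ?_⟩
    rw [rk_erase h hC hL (by omega), rk_erase h hC hL (by omega)]

theorem del_uniq (h : IsRk r) (hE : r (E.erase e) = r E) (hC : Chain E r C) (hL : Lv E r C e)
    (i : ℕ) : cl r E ((C i).erase e) = C i := by
  refine h.cl_eq (ch_flat hC i) (erase_subset _ _) ?_
  rcases le_total i (r E) with hi | hi
  · rw [rk_erase h hC hL hi, ch_rk h hC hi]
  · rw [hC.top i hi, hE]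

theorem del_erase (hC : Chain (E.erase e) r C) (i : ℕ) : (cl r E (C i)).erase e = C i := by
  ext x
  simp only [mem_erase, mem_cl]
  constructor
  · exact fun h => (ch_flat hC i).2 x (mem_erase.2 ⟨h.1, h.2.1⟩) h.2.2
  · intro hx
    have := mem_erase.1 (hC.sub i hx)
    exact ⟨this.1, this.2, by rw [insert_eq_of_mem hx]⟩

theorem del_bwd (h : IsRk r) (hE : r (E.erase e) = r E) (hC : Chain (E.erase e) r C) :
    Chain E r (fun i => cl r E (C i)) ∧ Lv E r (fun i => cl r E (C i)) e := by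
  have hs : ∀ i, C i ⊆ E := fun i => (hC.sub i).trans (erase_subset _ _)
  refine ⟨⟨?_, fun i hi => ?_, fun i hi => ?_⟩, fun i hi => ?_⟩
  · refine (h.cl_eq (h.flat_cl (hs 0)) (empty_subset _) ?_).symm
    rw [h.rk_cl (hs 0), hC.bot, rk_bot h]
    exact Nat.zero_le _
  · rw [hC.top i (by omega)]
    exact h.cl_eq H64.flat_top (erase_subset _ _) hE.ge
  · refine ⟨h.flat_cl (hs _), h.flat_cl (hs _), h.cl_min (h.flat_cl (hs _))
      ((ch_mono hC (by omega)).trans (subset_cl (hs _))), ?_⟩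
    rw [h.rk_cl (hs _), h.rk_cl (hs _), (hC.cov i (by omega)).2.2.2]
  · obtain ⟨f, h1, h2⟩ := ch_ne hC (i := i) (by omega)
    have hf := (mem_erase.1 (hC.sub _ h1)).1
    refine ⟨f, hf, subset_cl (hs _) h1, fun h3 => h2 ?_⟩
    rw [← del_erase hC i]
    exact mem_erase.2 ⟨hf, h3⟩

theorem con_rk (h : IsRk r) (h1 : r {e} = 1) {F : Finset ℕ} (hF : e ∈ F) :
    con r e (F.erase e) + 1 = r F := by
  rw [← h1, h.con_add, insert_erase hF]

theorem con_ins (h : IsRk r) (h1 : r {e} = 1) (A : Finset ℕ) : con r e A + 1 = r (insert e A) := by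
  rw [← h1, h.con_add]

theorem flat_con (h : IsRk r) (h1 : r {e} = 1) {F : Finset ℕ} (hF : Flat r E F) (he : e ∈ F) :
    Flat (con r e) (E.erase e) (F.erase e) := by
  refine ⟨erase_subset_erase _ hF.1, fun x hx h2 => mem_erase.2 ⟨(mem_erase.1 hx).1,
    hF.2 x (mem_erase.1 hx).2 ?_⟩⟩
  have a1 := con_ins h h1 (insert x (F.erase e))
  have a2 := con_rk h h1 he
  rw [insert_comm, insert_erase he] at a1
  omega

theorem con_fwd (h : IsRk r) (h1 : r {e} = 1) (he : e ∈ E) (hC : Chain E r C) (h2 : e ∈ C 1) :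
    Chain (E.erase e) (con r e) fun i => (C (i + 1)).erase e := by
  have a0 := con_rk h h1 he
  have hm : ∀ i, e ∈ C (i + 1) := fun i => ch_mono hC (by omega) h2
  refine ⟨?_, fun i hi => by rw [hC.top (i + 1) (by omega)], fun i hi => ?_⟩
  · refine ((h.isRk_con e).cl_eq (flat_con h h1 (ch_flat hC _) h2) (empty_subset _) ?_).symm
    have a1 := con_rk h h1 h2
    rw [ch_rk h hC (by omega)] at a1
    omega
  · refine ⟨flat_con h h1 (ch_flat hC _) (hm _), flat_con h h1 (ch_flat hC _) (hm _),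
      erase_subset_erase _ (ch_mono hC (by omega)), ?_⟩
    have a1 := con_rk h h1 (hm i)
    have a2 := con_rk h h1 (hm (i + 1))
    have a3 := (hC.cov (i + 1) (by omega)).2.2.2
    omega

theorem flat_ins (h : IsRk r) (h1 : r {e} = 1) (he : e ∈ E) {F : Finset ℕ}
    (hF : Flat (con r e) (E.erase e) F) : Flat r E (insert e F) := by
  refine ⟨insert_subset he (hF.1.trans (erase_subset _ _)), fun x hx h2 => ?_⟩
  by_cases hxe : x = e
  · rw [hxe]; exact mem_insert_self _ _
  · refine mem_insert_of_mem (hF.2 x (mem_erase.2 ⟨hxe, hx⟩) ?_)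
    have a1 := con_ins h h1 (insert x F)
    have a2 := con_ins h h1 F
    rw [insert_comm] at a1
    omega

theorem not_bot (h : IsRk r) (h1 : r {e} = 1) : e ∉ cl r E ∅ := fun h2 => by
  have := (mem_cl.1 h2).2
  rw [h.empty, insert_empty_eq, h1] at this
  omega

theorem con_bwd (h : IsRk r) (h1 : r {e} = 1) (he : e ∈ E)
    (hC : Chain (E.erase e) (con r e) C) :
    Chain E r fun i => if i = 0 then cl r E ∅ else insert e (C (i - 1)) := by
  have a0 := con_rk h h1 he
  refine ⟨by simp, fun i hi => ?_, fun i hi => ?_⟩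
  · rw [if_neg (by omega), hC.top _ (by omega), insert_erase he]
  · rw [if_neg (Nat.succ_ne_zero i), Nat.add_sub_cancel]
    have a1 := con_ins h h1 (C i)
    have a2 := ch_rk (h.isRk_con e) hC (i := i) (by omega)
    rcases Nat.eq_zero_or_pos i with rfl | hi0
    · rw [if_pos rfl]
      refine ⟨h.flat_cl (empty_subset _), flat_ins h h1 he (ch_flat hC _),
        h.cl_min (flat_ins h h1 he (ch_flat hC _)) (empty_subset _), ?_⟩
      rw [rk_bot h]
      omega
    · rw [if_neg (by omega)]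
      refine ⟨flat_ins h h1 he (ch_flat hC _), flat_ins h h1 he (ch_flat hC _),
        insert_subset_insert _ (ch_mono hC (by omega)), ?_⟩
      have a3 := con_ins h h1 (C (i - 1))
      have a4 := ch_rk (h.isRk_con e) hC (i := i - 1) (by omega)
      omega

theorem cl_congr (hr : ∀ A ⊆ E, r A = r' A) {A : Finset ℕ} (hA : A ⊆ E) : cl r E A = cl r' E A := by
  ext x
  simp only [mem_cl]
  exact and_congr_right fun hx => by rw [hr _ (insert_subset hx hA), hr _ hA]

theorem flat_congr (hr : ∀ A ⊆ E, r A = r' A) {F : Finset ℕ} (hF : Flat r E F) : Flat r' E F :=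
  ⟨hF.1, fun x hx h => hF.2 x hx (by rw [hr _ (insert_subset hx hF.1), hr _ hF.1, h])⟩

theorem chain_congr (hr : ∀ A ⊆ E, r A = r' A) (hC : Chain E r C) : Chain E r' C := by
  have h0 := hr E Subset.rfl
  refine ⟨by rw [hC.bot, cl_congr hr (empty_subset _)], fun i hi => hC.top i (by omega),
    fun i hi => ?_⟩
  obtain ⟨h1, h2, h3, h4⟩ := hC.cov i (by omega)
  exact ⟨flat_congr hr h1, flat_congr hr h2, h3, by rw [← hr _ h1.1, ← hr _ h2.1, h4]⟩

/-! ### duality -/

theorem dual_single (h : IsRk r) (he : e ∈ E) : dual r E {e} + r E = 1 + r (E.erase e) := by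
  rw [h.dual_add, singleton_inter_of_mem he, card_singleton, sdiff_singleton_eq_erase]

theorem dual_erase (h : IsRk r) (he : e ∈ E) {A : Finset ℕ} (hA : A ⊆ E.erase e) :
    dual r E A + r E = A.card + r (insert e (E.erase e \ A)) := by
  rw [h.dual_add, inter_eq_left.2 (hA.trans (erase_subset _ _))]
  congr 2
  ext x
  simp only [mem_sdiff, mem_insert, mem_erase]
  constructor
  · intro hx
    by_cases hxe : x = e
    · exact Or.inl hxe
    · exact Or.inr ⟨⟨hxe, hx.1⟩, hx.2⟩
  · rintro (rfl | hx)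
    · exact ⟨he, fun h' => (mem_erase.1 (hA h')).1 rfl⟩
    · exact ⟨hx.1.2, hx.2⟩

theorem dual_ins (h : IsRk r) (he : e ∈ E) {A : Finset ℕ} (hA : A ⊆ E.erase e) :
    dual r E (insert e A) + r E = A.card + 1 + r (E.erase e \ A) := by
  have hn : e ∉ A := fun h' => (mem_erase.1 (hA h')).1 rfl
  rw [h.dual_add, inter_eq_left.2 (insert_subset he (hA.trans (erase_subset _ _))),
    card_insert_of_notMem hn]
  congr 2
  ext x
  simp only [mem_sdiff, mem_insert, mem_erase]
  tauto

theorem dual_small (h : IsRk r) {A : Finset ℕ} (hA : A ⊆ E) :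
    dual r E A + r E = A.card + r (E \ A) := by
  rw [h.dual_add, inter_eq_left.2 hA]

/-- deletion is dual to contraction -/
theorem dual_del (h : IsRk r) (he : e ∈ E) (hE : r (E.erase e) = r E) {A : Finset ℕ}
    (hA : A ⊆ E.erase e) : dual r (E.erase e) A = con (dual r E) e A := by
  have a1 := dual_small h hA
  have a2 := dual_ins h he hA
  have a3 := (h.isRk_dual E).con_add e A
  have a4 := dual_single h he
  omega

theorem dual_con (h : IsRk r) (he : e ∈ E) {A : Finset ℕ} (hA : A ⊆ E.erase e) :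
    dual (con r e) (E.erase e) A = dual r E A := by
  have a1 := dual_small (h.isRk_con e) hA
  have a2 := dual_erase h he hA
  have a3 := h.con_add e (E.erase e \ A)
  have a4 := h.con_add e (E.erase e)
  rw [insert_erase he] at a4
  omega

theorem coloop_ins (h : IsRk r) (he : e ∈ E) (hE : r (E.erase e) < r E) {A : Finset ℕ}
    (hA : A ⊆ E.erase e) : r (insert e A) = r A + 1 := by
  have a1 := h.ins A e
  have a2 := h.le_ins A e
  by_contra hne
  have a3 := h.ins_of_sub hA (show r (insert e A) = r A by omega)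
  rw [insert_erase he] at a3
  omega

end Pool.Agent.Lib.US.DC
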