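import Pool.Agent.Lib.US.DC1

/-! Terminals of the model in coordinates. -/

namespace Pool.Agent.Lib.US.DC

open Finset Pool.Agent.Lib.FL
open Pool.Agent.Lib.FL.H64 (IsRk cl Flat Cov mem_cl cl_subset subset_cl con dual)

variable {E : Finset ℕ} {ρ : Finset ℕ → ℕ} {σ : ℕ × ℕ → Finset ℕ} {T : Finset (ℕ × ℕ)}
  {θ p v : ℕ × ℕ → ℝ} {e j : ℕ}

noncomputable def sg (j : ℕ) : ℝ := if j = 0 then 1 else -1

theorem sg0 : sg 0 = 1 := by simp [sg]

theorem sg1 : sg 1 = -1 := by simp [sg]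

theorem sg_sq (j : ℕ) : sg j * sg j = 1 := by unfold sg; split_ifs <;> norm_num

theorem sg_ne (j : ℕ) : sg j ≠ 0 := by unfold sg; split_ifs <;> norm_num

theorem abs_sg (j : ℕ) (x : ℝ) : |sg j * x| = |x| := by
  unfold sg; split_ifs <;> simp

theorem cov0 (f : ℕ) : cov σ (0, f) v = v (5, 0) - v (2, f) := by simp [cov_apply, ends]

theorem cov1 (f : ℕ) : cov σ (1, f) v = v (2, f) - v (0, f) := by simp [cov_apply, ends]

theorem cov2 (f : ℕ) : cov σ (2, f) v = v (1, f) - v (2, f) := by simp [cov_apply, ends]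

theorem covj (hj : j < 2) (f : ℕ) : cov σ (j + 1, f) v = sg j * (v (2, f) - v (j, f)) := by
  interval_cases j
  · rw [sg0, zero_add, cov1]; ring
  · rw [sg1]; show cov σ (2, f) v = _; rw [cov2]; ring

theorem covw (hj : j < 2) (i : ℕ) :
    cov σ (3 + j, i) v = sg j * (v (j, rep σ j (i + 1)) - v (j, rep σ j i)) := by
  interval_cases j
  · simp [cov_apply, ends, sg0]
  · simp [cov_apply, ends, sg1]

theorem mem_cons {c : ℕ × ℕ} : c ∈ cons E ρ ↔ (c.1 = 0 ∧ c.2 ∈ E) ∨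
    ∃ j < 2, c.1 = j + 1 ∧ c.2 ∈ E ∧ c.2 ∉ cl (rs E ρ j) E ∅ := by
  simp only [cons, mem_union, mem_product, mem_singleton, mem_sdiff, or_assoc]
  refine or_congr Iff.rfl ⟨?_, ?_⟩
  · rintro (h | h)
    · exact ⟨0, by omega, h.1, h.2⟩
    · exact ⟨1, by omega, h.1, h.2⟩
  · rintro ⟨j, hj, h⟩
    interval_cases j
    · exact Or.inl h
    · exact Or.inr h

theorem cons0 {f : ℕ} : (0, f) ∈ cons E ρ ↔ f ∈ E := by
  rw [mem_cons]
  exact ⟨fun h => h.elim (·.2) fun ⟨_, _, h⟩ => h.2.1, fun h => Or.inl ⟨rfl, h⟩⟩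

theorem consj (hj : j < 2) {f : ℕ} :
    (j + 1, f) ∈ cons E ρ ↔ f ∈ E ∧ f ∉ cl (rs E ρ j) E ∅ := by
  rw [mem_cons]
  constructor
  · rintro (h | ⟨i, _, h1, h2⟩)
    · exact absurd h.1 (Nat.succ_ne_zero j)
    · obtain rfl : j = i := Nat.succ_injective h1
      exact h2
  · exact fun h => Or.inr ⟨j, hj, rfl, h⟩

theorem cons_cases {c : ℕ × ℕ} (hc : c ∈ cons E ρ) : (∃ f ∈ E, c = (0, f)) ∨
    ∃ j < 2, ∃ f ∈ E, f ∉ cl (rs E ρ j) E ∅ ∧ c = (j + 1, f) := by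
  rcases mem_cons.1 hc with h | ⟨j, hj, h⟩
  · exact Or.inl ⟨c.2, h.2, Prod.ext h.1 rfl⟩
  · exact Or.inr ⟨j, hj, c.2, h.2.1, h.2.2, Prod.ext h.1 rfl⟩

theorem mem_walls {k : ℕ × ℕ} : k ∈ walls E ρ ↔
    ∃ j < 2, k.1 = 3 + j ∧ 1 ≤ k.2 ∧ k.2 < rs E ρ j E := by
  simp only [walls, mem_union, mem_product, mem_singleton, mem_Ico]
  constructor
  · rintro (h | h)
    · exact ⟨0, by omega, h.1, h.2⟩
    · exact ⟨1, by omega, h.1, h.2⟩
  · rintro ⟨j, hj, h⟩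
    interval_cases j
    · exact Or.inl h
    · exact Or.inr h

theorem not_wall {c : ℕ × ℕ} (hc : c ∈ cons E ρ) : c ∉ walls E ρ := fun h => by
  obtain ⟨j, _, h1, _⟩ := mem_walls.1 h
  rcases mem_cons.1 hc with h | ⟨j, hj, h⟩ <;> omega

theorem isRk_rs (h : IsRk ρ) (j : ℕ) : IsRk (rs E ρ j) := by
  unfold rs; split_ifs
  · exact h
  · exact h.isRk_dual E

theorem rep_spec (hσ : IsCone E ρ σ) (hj : j < 2) {i : ℕ} (hi : i < rs E ρ j E) :
    rep σ j (i + 1) ∈ ch σ j (i + 1) ∧ rep σ j (i + 1) ∉ ch σ j i :=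
  Nat.sInf_mem (s := {e | e ∈ ch σ j (i + 1) ∧ e ∉ ch σ j (i + 1 - 1)}) (ch_ne (hσ.chain j hj) hi)

theorem span_lev (hv : v ∈ span E σ) (hj : j < 2) {i f g : ℕ} (h1 : f ∈ ch σ j (i + 1))
    (h2 : f ∉ ch σ j i) (h3 : g ∈ ch σ j (i + 1)) (h4 : g ∉ ch σ j i) : v (j, f) = v (j, g) :=
  hv.1 j hj i f (mem_sdiff.2 ⟨h1, h2⟩) g (mem_sdiff.2 ⟨h3, h4⟩)

theorem span_bot (hv : v ∈ span E σ) (hj : j < 2) {f : ℕ} (h : f ∈ ch σ j 0) : v (j, f) = 0 :=
  hv.2.1 j hj f fun h' => (mem_sdiff.1 h').2 h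

theorem span_out (hv : v ∈ span E σ) (t : ℕ) {f : ℕ} (h : f ∉ E) : v (t, f) = 0 := by
  rcases lt_trichotomy t 2 with ht | rfl | ht
  · exact hv.2.1 t ht f fun h' => h (mem_sdiff.1 h').1
  · exact hv.2.2.1 f h
  · exact hv.2.2.2 t f (by omega)

theorem span_gr (hv : v ∈ span E σ) : v (5, 0) = 0 := hv.2.2.2 5 0 (by omega)

/-- the levels are strictly ordered -/
def Mono (E : Finset ℕ) (σ : ℕ × ℕ → Finset ℕ) (v : ℕ × ℕ → ℝ) : Prop :=
  ∀ j < 2, ∀ i f g, f ∈ ch σ j i → f ∉ ch σ j 0 → g ∈ E → g ∉ ch σ j i →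
    0 < sg j * (v (j, f) - v (j, g))

theorem mono_iff (hσ : IsCone E ρ σ) (hv : v ∈ span E σ) :
    (∀ k ∈ walls E ρ, cov σ k v < 0) ↔ Mono E σ v := by
  constructor
  · intro h j hj i f g hf hf0 hg hgi
    have hC := hσ.chain j hj
    have key : ∀ a b, a < b → b < rs E ρ j E →
        sg j * v (j, rep σ j (b + 1)) < sg j * v (j, rep σ j (a + 1)) := by
      intro a b hab
      induction b, hab using Nat.le_induction with
      | base =>
        intro hb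
        have := h (3 + j, a + 1) (mem_walls.2 ⟨j, hj, rfl, by simp, hb⟩)
        rw [covw hj] at this
        simp only [Nat.succ_eq_add_one]
        linarith
      | succ b hb ih =>
        intro hb'
        have := h (3 + j, b + 1) (mem_walls.2 ⟨j, hj, rfl, by simp, hb'⟩)
        rw [covw hj] at this
        have := ih (by omega)
        linarith
    obtain ⟨a, ha, ha1, ha2⟩ := ch_level hC (hC.sub i hf) hf0
    obtain ⟨b, hb, hb1, hb2⟩ := ch_level hC hg fun h' => hgi (ch_mono hC (Nat.zero_le i) h')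
    have h1 : a < i := by
      by_contra h'
      exact ha2 (ch_mono hC (by omega) hf)
    have h2 : i ≤ b := by
      by_contra h'
      exact hgi (ch_mono hC (by omega) hb1)
    have := key a b (by omega) hb
    rw [span_lev hv hj ha1 ha2 (rep_spec hσ hj ha).1 (rep_spec hσ hj ha).2,
      span_lev hv hj hb1 hb2 (rep_spec hσ hj hb).1 (rep_spec hσ hj hb).2]
    linarith
  · intro h k hk
    obtain ⟨j, hj, h1, h2, h3⟩ := mem_walls.1 hk
    obtain ⟨t, i⟩ := k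
    simp only at h1 h2 h3
    subst h1
    obtain ⟨i, rfl⟩ : ∃ i', i = i' + 1 := ⟨i - 1, by omega⟩
    have hC := hσ.chain j hj
    have a1 := rep_spec hσ hj (show i < _ by omega)
    have a2 := rep_spec hσ hj h3
    have := h j hj (i + 1) _ _ a1.1 (fun h' => a1.2 (ch_mono hC (Nat.zero_le i) h'))
      (hC.sub _ a2.1) a2.2
    rw [covw hj]
    linarith

/-- terminals with their points -/
structure Term (E : Finset ℕ) (ρ : Finset ℕ → ℕ) (θ : ℕ × ℕ → ℝ) (σ : ℕ × ℕ → Finset ℕ)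
    (T : Finset (ℕ × ℕ)) (p : ℕ × ℕ → ℝ) : Prop where
  cone : IsCone E ρ σ
  sub : T ⊆ cons E ρ
  inj : ∀ v ∈ span E σ, (∀ c ∈ T, cov σ c v = 0) → v = 0
  sur : ∀ c ∈ T, ∃ v ∈ span E σ, ∀ d ∈ T, cov σ d v = if d = c then 1 else 0
  mem : p ∈ span E σ
  tight : ∀ c ∈ T, cov σ c p = θ c
  slack : ∀ c ∈ cons E ρ, c ∉ T → cov σ c p < θ c
  mono : Mono E σ p

theorem th_cons {c : ℕ × ℕ} (hc : c ∈ cons E ρ) : (sys E ρ).th θ c = θ c :=
  if_neg (not_wall hc)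

theorem Term.isB (h : Term E ρ θ σ T p) : (sys E ρ).IsB σ T := by
  choose! y hy using h.sur
  refine ⟨mem_Ch.2 h.cone, h.sub.trans subset_union_right, y, fun c hc => (hy c hc).1,
    fun c hc => (hy c hc).2, fun v hv => ?_⟩
  refine sub_eq_zero.1 (h.inj _ (Submodule.sub_mem _ hv
    (Submodule.sum_mem _ fun c hc => Submodule.smul_mem _ _ (hy c hc).1)) fun d hd => ?_)
  rw [map_sub, map_sum, sum_eq_single d]
  · rw [map_smul, (hy d hd).2 d hd, if_pos rfl, smul_eq_mul, mul_one]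
    exact sub_self _
  · intro c hc hne
    rw [map_smul, (hy c hc).2 d hd, if_neg hne.symm, smul_zero]
  · exact fun h' => absurd hd h'

theorem Term.eq_pt (h : Term E ρ θ σ T p) : p = (sys E ρ).pt θ σ T :=
  h.isB.eq_pt h.mem fun c hc => by rw [th_cons (h.sub hc)]; exact h.tight c hc

theorem mem_Tm {w : (ℕ × ℕ → Finset ℕ) × Finset (ℕ × ℕ)} :
    w ∈ (sys E ρ).Tm θ ↔ ∃ p, Term E ρ θ w.1 w.2 p := by
  unfold Sys.Tm
  rw [Sys.mem_VJ, card_eq_zero]
  constructor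
  · rintro ⟨⟨hB, hs⟩, h0⟩
    have hn : ∀ k ∈ walls E ρ, k ∉ w.2 := fun k hk h' => by
      have : k ∈ w.2 ∩ (sys E ρ).Kw := mem_inter.2 ⟨h', hk⟩
      rw [h0] at this
      exact notMem_empty _ this
    have hsub : w.2 ⊆ cons E ρ := fun c hc =>
      (Sys.mem_Cn.1 (hB.2.1 hc)).resolve_left fun h' => hn c h' hc
    have hc := mem_Ch.1 hB.1
    refine ⟨(sys E ρ).pt θ w.1 w.2, hc, hsub, fun v hv h => hB.frame.eq_zero hv h,
      fun c hc => ⟨_, hB.frame.mem c hc, hB.frame.dual c hc⟩, hB.pt_mem, fun c hc => ?_,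
      fun c hc hn => ?_, (mono_iff hc hB.pt_mem).1 fun k hk => ?_⟩
    · rw [← th_cons (θ := θ) (hsub hc)]; exact hB.pt_tight hc
    · have := hs c (Sys.mem_Cn.2 (Or.inr hc)) hn
      unfold Sys.sl at this
      rw [th_cons hc] at this
      exact sub_pos.1 this
    · have := hs k (Sys.mem_Cn.2 (Or.inl hk)) (hn k hk)
      unfold Sys.sl Sys.th at this
      rw [if_pos (show k ∈ (sys E ρ).Kw from hk)] at this
      exact sub_pos.1 this
  · rintro ⟨p, h⟩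
    refine ⟨⟨h.isB, fun d hd hn => ?_⟩, ?_⟩
    · unfold Sys.sl
      rw [← h.eq_pt]
      rcases Sys.mem_Cn.1 hd with hk | hc
      · unfold Sys.th
        rw [if_pos hk]
        exact sub_pos.2 ((mono_iff h.cone h.mem).2 h.mono d hk)
      · rw [th_cons hc]
        exact sub_pos.2 (h.slack d hc hn)
    · exact eq_empty_of_forall_notMem fun c hc =>
        not_wall (h.sub (mem_inter.1 hc).1) (mem_inter.1 hc).2

theorem Term.apply (h : Term E ρ θ σ T p) (x : ℕ × ℕ) :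
    p x = ∑ c ∈ T, θ c * (sys E ρ).yv σ T c x := by
  conv_lhs => rw [h.eq_pt]
  unfold Sys.pt
  rw [Finset.sum_apply]
  exact sum_congr rfl fun c hc => by rw [th_cons (h.sub hc)]; rfl

theorem Term.abs_y (hTU : St_TU) (hρ : IsRk ρ) (h : Term E ρ θ σ T p) {c : ℕ × ℕ} (hc : c ∈ T)
    (x : ℕ × ℕ) : |θ c * (sys E ρ).yv σ T c x| ≤ |θ c| := by
  rcases (hTU E ρ hρ σ T h.isB c hc).1 with h1 | h1 <;> rcases h1 x with h2 | h2 <;> simp [h2]

theorem Term.bound (hTU : St_TU) (hρ : IsRk ρ) (h : Term E ρ θ σ T p) {D : Finset (ℕ × ℕ)}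
    (hD : T ⊆ D) (x : ℕ × ℕ) : |p x| ≤ ∑ c ∈ D, |θ c| := by
  rw [h.apply x]
  exact (abs_sum_le_sum_abs _ _).trans ((sum_le_sum fun c hc => h.abs_y hTU hρ hc x).trans
    (sum_le_sum_of_subset_of_nonneg hD fun _ _ _ => abs_nonneg _))

/-- the dual vector of a tight constraint -/
theorem Term.dual (hTU : St_TU) (hρ : IsRk ρ) (h : Term E ρ θ σ T p) {P : ℕ × ℕ} (hP : P ∈ T) :
    ∃ y ∈ span E σ, cov σ P y = 1 ∧ (∀ d ∈ T, d ≠ P → cov σ d y = 0) ∧
      ((∀ x, y x = 0 ∨ y x = 1) ∨ ∀ x, y x = 0 ∨ y x = -1) ∧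
      ∀ x, |p x - θ P * y x| ≤ ∑ c ∈ (cons E ρ).erase P, |θ c| := by
  refine ⟨(sys E ρ).yv σ T P, h.isB.frame.mem P hP, ?_, fun d hd hne => ?_,
    (hTU E ρ hρ σ T h.isB P hP).1, fun x => ?_⟩
  · have := h.isB.frame.dual P hP P hP
    rwa [if_pos rfl] at this
  · have := h.isB.frame.dual P hP d hd
    rwa [if_neg hne] at this
  · rw [h.apply x, ← add_sum_erase _ _ hP, add_sub_cancel_left]
    exact (abs_sum_le_sum_abs _ _).trans ((sum_le_sum fun c hc =>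
      h.abs_y hTU hρ (mem_erase.1 hc).2 x).trans
      (sum_le_sum_of_subset_of_nonneg (erase_subset_erase _ h.sub) fun _ _ _ => abs_nonneg _))

/-! ### special vectors -/

/-- the indicator of a level -/
noncomputable def lv (σ : ℕ × ℕ → Finset ℕ) (j i : ℕ) (x : ℕ × ℕ) : ℝ :=
  if x.1 = j ∧ x.2 ∈ ch σ j (i + 1) ∧ x.2 ∉ ch σ j i then 1 else 0

/-- the indicator of a free coordinate -/
noncomputable def dl (e : ℕ) (x : ℕ × ℕ) : ℝ := if x = (2, e) then 1 else 0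

theorem lv_mem (hσ : IsCone E ρ σ) (hj : j < 2) (i : ℕ) : lv σ j i ∈ span E σ := by
  have hC := hσ.chain j hj
  refine ⟨fun j' hj' i' f hf g hg => ?_, fun j' hj' f hf => ?_, fun f _ => ?_, fun t f ht => ?_⟩
  · unfold lv
    rw [mem_sdiff] at hf hg
    by_cases h : j' = j
    · subst h
      refine if_congr ⟨fun h => ?_, fun h => ?_⟩ rfl rfl
      · obtain rfl := lev_uniq hC h.2.1 h.2.2 hf.1 hf.2
        exact ⟨rfl, hg⟩
      · obtain rfl := lev_uniq hC h.2.1 h.2.2 hg.1 hg.2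
        exact ⟨rfl, hf⟩
    · rw [if_neg fun h' => h h'.1, if_neg fun h' => h h'.1]
  · refine if_neg fun h => hf ?_
    obtain rfl : j' = j := h.1
    exact mem_sdiff.2 ⟨hC.sub _ h.2.1, fun h' => h.2.2 (ch_mono hC (Nat.zero_le i) h')⟩
  · exact if_neg fun h => by have := h.1; simp only at this; omega
  · exact if_neg fun h => by have := h.1; simp only at this; omega

theorem dl_mem (he : e ∈ E) : dl e ∈ span E σ := by
  refine ⟨fun j' hj' i' f _ g _ => ?_, fun j' hj' f _ => ?_, fun f hf => ?_, fun t f ht => ?_⟩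
  · unfold dl
    rw [if_neg fun h => by have := (Prod.ext_iff.1 h).1; simp only at this; omega,
      if_neg fun h => by have := (Prod.ext_iff.1 h).1; simp only at this; omega]
  · exact if_neg fun h => by have := (Prod.ext_iff.1 h).1; simp only at this; omega
  · exact if_neg fun h => hf (by rw [show f = e from (Prod.ext_iff.1 h).2]; exact he)
  · exact if_neg fun h => by have := (Prod.ext_iff.1 h).1; simp only at this; omega

theorem lv_ne {i t : ℕ} (h : t ≠ j) (f : ℕ) : lv σ j i (t, f) = 0 := if_neg fun h' => h h'.1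

theorem lv_in {i f : ℕ} (h1 : f ∈ ch σ j (i + 1)) (h2 : f ∉ ch σ j i) : lv σ j i (j, f) = 1 :=
  if_pos ⟨rfl, h1, h2⟩

theorem lv_out {i f : ℕ} (h : ¬(f ∈ ch σ j (i + 1) ∧ f ∉ ch σ j i)) : lv σ j i (j, f) = 0 :=
  if_neg fun h' => h h'.2

theorem dl_ne {t : ℕ} (h : t ≠ 2) (f : ℕ) : dl e (t, f) = 0 :=
  if_neg fun h' => h (Prod.ext_iff.1 h').1

theorem dl_ne' {f : ℕ} (h : f ≠ e) (t : ℕ) : dl e (t, f) = 0 :=
  if_neg fun h' => h (Prod.ext_iff.1 h').2

theorem dl_self : dl e (2, e) = 1 := if_pos rfl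

/-- the value of a constraint on the indicator of a level -/
theorem cov_lv (hj : j < 2) (i : ℕ) {c : ℕ × ℕ} (hc : c ∈ cons E ρ)
    (h : ¬(c.1 = j + 1 ∧ c.2 ∈ ch σ j (i + 1) ∧ c.2 ∉ ch σ j i)) : cov σ c (lv σ j i) = 0 := by
  rcases cons_cases hc with ⟨f, _, rfl⟩ | ⟨j', hj', f, _, _, rfl⟩
  · rw [cov0, lv_ne (by omega), lv_ne (by omega), sub_zero]
  · rw [covj hj', lv_ne (by omega)]
    by_cases hjj : j' = j
    · subst hjj
      rw [lv_out fun h' => h ⟨rfl, h'⟩, sub_zero, mul_zero]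
    · rw [lv_ne hjj, sub_zero, mul_zero]

theorem cov_dl {c : ℕ × ℕ} (hc : c ∈ cons E ρ) (h : c.2 ≠ e) : cov σ c (dl e) = 0 := by
  rcases cons_cases hc with ⟨f, _, rfl⟩ | ⟨j', hj', f, _, _, rfl⟩
  · rw [cov0, dl_ne (by omega), dl_ne' h, sub_zero]
  · rw [covj hj', dl_ne' h, dl_ne' h, sub_zero, mul_zero]

/-- every level carries a tight constraint -/
theorem Term.pin (h : Term E ρ θ σ T p) (hj : j < 2) {i : ℕ} (hi : i < rs E ρ j E) :
    ∃ f, (j + 1, f) ∈ T ∧ f ∈ ch σ j (i + 1) ∧ f ∉ ch σ j i := by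
  by_contra hcon
  have := h.inj _ (lv_mem h.cone hj i) fun c hc => cov_lv hj i (h.sub hc) fun h' =>
    hcon ⟨c.2, by rw [← h'.1]; exact hc, h'.2⟩
  have h2 := congrFun this (j, rep σ j (i + 1))
  rw [lv_in (rep_spec h.cone hj hi).1 (rep_spec h.cone hj hi).2] at h2
  exact one_ne_zero h2

end Pool.Agent.Lib.US.DC
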