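import Pool.Agent.Lib.US.DC2

/-! Transfer of terminals between a matroid and a minor. -/

namespace Pool.Agent.Lib.US.DC

open Finset Pool.Agent.Lib.FL
open Pool.Agent.Lib.FL.H64 (IsRk cl Flat Cov mem_cl cl_subset subset_cl con dual)

variable {E : Finset ℕ} {ρ ρ' : Finset ℕ → ℕ} {σ τ : ℕ × ℕ → Finset ℕ} {T : Finset (ℕ × ℕ)}
  {θ p v : ℕ × ℕ → ℝ} {e j0 j1 : ℕ} {c2 : ℕ × ℕ}

/-- side `j0` is contracted, side `j1` is deleted -/
structure Cfg (E : Finset ℕ) (ρ ρ' : Finset ℕ → ℕ) (e j0 j1 : ℕ) : Prop where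
  he : e ∈ E
  hj : (j0 = 0 ∧ j1 = 1) ∨ (j0 = 1 ∧ j1 = 0)
  rk : IsRk ρ
  rk' : IsRk ρ'
  one : rs E ρ j0 {e} = 1
  del : rs E ρ j1 (E.erase e) = rs E ρ j1 E
  c0 : ∀ A ⊆ E.erase e, rs (E.erase e) ρ' j0 A = con (rs E ρ j0) e A
  c1 : ∀ A ⊆ E.erase e, rs (E.erase e) ρ' j1 A = rs E ρ j1 A

theorem Cfg.l0 (h : Cfg E ρ ρ' e j0 j1) : j0 < 2 := by rcases h.hj with h | h <;> omega

theorem Cfg.l1 (h : Cfg E ρ ρ' e j0 j1) : j1 < 2 := by rcases h.hj with h | h <;> omega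

theorem Cfg.ne (h : Cfg E ρ ρ' e j0 j1) : j1 ≠ j0 := by rcases h.hj with h | h <;> omega

theorem Cfg.cases (h : Cfg E ρ ρ' e j0 j1) {j : ℕ} (hj : j < 2) : j = j0 ∨ j = j1 := by
  rcases h.hj with h | h <;> omega

def res (j0 e : ℕ) (σ : ℕ × ℕ → Finset ℕ) (x : ℕ × ℕ) : Finset ℕ :=
  if x.1 = 3 + j0 then (σ (x.1, x.2 + 1)).erase e else (σ x).erase e

def ext (E : Finset ℕ) (ρ : Finset ℕ → ℕ) (j0 j1 e : ℕ) (σ : ℕ × ℕ → Finset ℕ) (x : ℕ × ℕ) :
    Finset ℕ :=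
  if x.1 = 3 + j0 then (if x.2 = 0 then cl (rs E ρ j0) E ∅ else insert e (σ (x.1, x.2 - 1)))
  else if x.1 = 3 + j1 then cl (rs E ρ j1) E (σ x) else ∅

def Good (E : Finset ℕ) (ρ : Finset ℕ → ℕ) (j0 j1 e : ℕ) (σ : ℕ × ℕ → Finset ℕ) : Prop :=
  IsCone E ρ σ ∧ e ∈ ch σ j0 1 ∧ Lv E (rs E ρ j1) (ch σ j1) e

theorem ch_res0 (i : ℕ) : ch (res j0 e σ) j0 i = (ch σ j0 (i + 1)).erase e := if_pos rfl

theorem ch_res1 (h : j1 ≠ j0) (i : ℕ) : ch (res j0 e σ) j1 i = (ch σ j1 i).erase e :=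
  if_neg fun h' => h (Nat.add_left_cancel h')

theorem ch_ext0 (i : ℕ) : ch (ext E ρ j0 j1 e σ) j0 i =
    if i = 0 then cl (rs E ρ j0) E ∅ else insert e (ch σ j0 (i - 1)) := if_pos rfl

theorem ch_ext1 (h : j1 ≠ j0) (i : ℕ) :
    ch (ext E ρ j0 j1 e σ) j1 i = cl (rs E ρ j1) E (ch σ j1 i) := by
  unfold ch ext
  rw [if_neg fun h' => h (Nat.add_left_cancel h'), if_pos rfl]

theorem cone_ext (h : Cfg E ρ ρ' e j0 j1) {E1 E2 : Finset ℕ} {ρ1 ρ2 : Finset ℕ → ℕ}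
    (h1 : IsCone E1 ρ1 σ) (h2 : IsCone E2 ρ2 τ) (a0 : ∀ i, ch σ j0 i = ch τ j0 i)
    (a1 : ∀ i, ch σ j1 i = ch τ j1 i) : σ = τ := by
  funext ⟨t, i⟩
  by_cases ht : t = 3 ∨ t = 4
  · obtain ⟨j, hj, rfl⟩ : ∃ j < 2, t = 3 + j := ⟨t - 3, by omega, by omega⟩
    rcases h.cases hj with rfl | rfl
    · exact a0 i
    · exact a1 i
  · rw [h1.junk t i (by omega) (by omega), h2.junk t i (by omega) (by omega)]

theorem res_cone (h : Cfg E ρ ρ' e j0 j1) (hg : Good E ρ j0 j1 e σ) :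
    IsCone (E.erase e) ρ' (res j0 e σ) := by
  refine ⟨fun j hj => ?_, fun t i h3 h4 => ?_⟩
  · rcases h.cases hj with rfl | rfl
    · rw [funext ch_res0]
      exact chain_congr (fun A hA => (h.c0 A hA).symm)
        (con_fwd (isRk_rs h.rk _) h.one h.he (hg.1.chain _ hj) hg.2.1)
    · rw [funext (ch_res1 h.ne)]
      exact chain_congr (fun A hA => (h.c1 A hA).symm)
        (del_fwd (isRk_rs h.rk _) h.del (hg.1.chain _ hj) hg.2.2)
  · unfold res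
    have := h.l0
    rw [if_neg (by simp only; omega), hg.1.junk t i h3 h4, erase_empty]

theorem ext_good (h : Cfg E ρ ρ' e j0 j1) (hσ : IsCone (E.erase e) ρ' σ) :
    Good E ρ j0 j1 e (ext E ρ j0 j1 e σ) ∧ res j0 e (ext E ρ j0 j1 e σ) = σ := by
  have a0 := chain_congr h.c0 (hσ.chain _ h.l0)
  have a1 := chain_congr h.c1 (hσ.chain _ h.l1)
  have hg : Good E ρ j0 j1 e (ext E ρ j0 j1 e σ) := by
    refine ⟨⟨fun j hj => ?_, fun t i h3 h4 => ?_⟩, ?_, ?_⟩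
    · rcases h.cases hj with rfl | rfl
      · rw [funext ch_ext0]
        exact con_bwd (isRk_rs h.rk _) h.one h.he a0
      · rw [funext (ch_ext1 h.ne)]
        exact (del_bwd (isRk_rs h.rk _) h.del a1).1
    · unfold ext
      have := h.l0
      have := h.l1
      rw [if_neg (by simp only; omega), if_neg (by simp only; omega)]
    · rw [ch_ext0, if_neg one_ne_zero]
      exact mem_insert_self _ _
    · rw [funext (ch_ext1 h.ne)]
      exact (del_bwd (isRk_rs h.rk _) h.del a1).2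
  refine ⟨hg, cone_ext h (res_cone h hg) hσ (fun i => ?_) fun i => ?_⟩
  · rw [ch_res0, ch_ext0, if_neg (Nat.succ_ne_zero i), Nat.add_sub_cancel,
      erase_insert fun h' => (mem_erase.1 (a0.sub i h')).1 rfl]
  · rw [ch_res1 h.ne, ch_ext1 h.ne, del_erase a1]

theorem res_inj (h : Cfg E ρ ρ' e j0 j1) (h1 : Good E ρ j0 j1 e σ) (h2 : Good E ρ j0 j1 e τ)
    (hr : res j0 e σ = res j0 e τ) : σ = τ := by
  refine cone_ext h h1.1 h2.1 (fun i => ?_) fun i => ?_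
  · rcases i with _ | i
    · rw [(h1.1.chain _ h.l0).bot, (h2.1.chain _ h.l0).bot]
    · rw [← insert_erase (ch_mono (h1.1.chain _ h.l0) (show 1 ≤ i + 1 by omega) h1.2.1),
        ← insert_erase (ch_mono (h2.1.chain _ h.l0) (show 1 ≤ i + 1 by omega) h2.2.1),
        ← ch_res0, ← ch_res0, hr]
  · rw [← del_uniq (isRk_rs h.rk _) h.del (h1.1.chain _ h.l1) h1.2.2 i,
      ← del_uniq (isRk_rs h.rk _) h.del (h2.1.chain _ h.l1) h2.2.2 i, ← ch_res1 h.ne,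
      ← ch_res1 h.ne, hr]

theorem Good.nb (h : Cfg E ρ ρ' e j0 j1) (hg : Good E ρ j0 j1 e σ) : e ∉ ch σ j0 0 := by
  rw [(hg.1.chain _ h.l0).bot]
  exact not_bot (isRk_rs h.rk _) h.one

/-- the projection -/
noncomputable def pr (σ : ℕ × ℕ → Finset ℕ) (j0 e : ℕ) (v : ℕ × ℕ → ℝ) (x : ℕ × ℕ) : ℝ :=
  if x.2 = e ∨ (x.1 = j0 ∧ x.2 ∈ ch σ j0 1) then 0 else v x

theorem pr_ne {t f : ℕ} (ht : t ≠ j0) (hf : f ≠ e) : pr σ j0 e v (t, f) = v (t, f) :=
  if_neg fun h => h.elim hf fun h => ht h.1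

theorem pr_out {t f : ℕ} (hf : f ≠ e) (h1 : f ∉ ch σ j0 1) : pr σ j0 e v (t, f) = v (t, f) :=
  if_neg fun h => h.elim hf fun h => h1 h.2

theorem pr_zero {x : ℕ × ℕ} (h : v x = 0) : pr σ j0 e v x = 0 := by
  unfold pr; split_ifs; exacts [rfl, h]

theorem pr_mem (h : Cfg E ρ ρ' e j0 j1) (hg : Good E ρ j0 j1 e σ) (hv : v ∈ span E σ) :
    pr σ j0 e v ∈ span (E.erase e) (res j0 e σ) := by
  have hC := hg.1.chain _ h.l0
  refine ⟨fun j hj i f hf g hg' => ?_, fun j hj f hf => ?_, fun f hf => ?_,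
    fun t f ht => pr_zero (hv.2.2.2 t f ht)⟩
  · rcases h.cases hj with rfl | rfl
    · simp only [ch_res0, mem_sdiff, mem_erase, not_and] at hf hg'
      have a1 := hf.2 hf.1.1
      have a2 := hg'.2 hg'.1.1
      rw [pr_out hf.1.1 fun h' => a1 (ch_mono hC (by omega) h'),
        pr_out hg'.1.1 fun h' => a2 (ch_mono hC (by omega) h')]
      exact span_lev hv hj hf.1.2 a1 hg'.1.2 a2
    · simp only [ch_res1 h.ne, mem_sdiff, mem_erase, not_and] at hf hg'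
      rw [pr_ne h.ne hf.1.1, pr_ne h.ne hg'.1.1]
      exact span_lev hv hj hf.1.2 (hf.2 hf.1.1) hg'.1.2 (hg'.2 hg'.1.1)
  · by_cases hfe : f = e
    · exact if_pos (Or.inl hfe)
    by_cases hE : f ∈ E
    · have a : f ∈ ch (res j0 e σ) j 0 := by
        by_contra h'
        exact hf (mem_sdiff.2 ⟨mem_erase.2 ⟨hfe, hE⟩, h'⟩)
      rcases h.cases hj with rfl | rfl
      · rw [ch_res0] at a
        exact if_pos (Or.inr ⟨rfl, (mem_erase.1 a).2⟩)
      · rw [ch_res1 h.ne] at a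
        exact pr_zero (span_bot hv hj (mem_erase.1 a).2)
    · exact pr_zero (span_out hv _ hE)
  · by_cases hfe : f = e
    · exact if_pos (Or.inl hfe)
    · exact pr_zero (span_out hv _ fun hE => hf (mem_erase.2 ⟨hfe, hE⟩))

theorem cons_res (h : Cfg E ρ ρ' e j0 j1) (hg : Good E ρ j0 j1 e σ) {c : ℕ × ℕ} :
    c ∈ cons (E.erase e) ρ' ↔ c ∈ cons E ρ ∧ c.2 ≠ e ∧ ¬(c.1 = j0 + 1 ∧ c.2 ∈ ch σ j0 1) := by
  have b0 := ((res_cone h hg).chain _ h.l0).bot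
  have b1 := ((res_cone h hg).chain _ h.l1).bot
  have a0 := (hg.1.chain _ h.l0).bot
  have a1 := (hg.1.chain _ h.l1).bot
  rw [ch_res0] at b0
  rw [ch_res1 h.ne] at b1
  have hm : ch σ j0 0 ⊆ ch σ j0 1 := ch_mono (hg.1.chain _ h.l0) (by omega)
  have hne := h.ne
  constructor
  · intro hc
    rcases cons_cases hc with ⟨f, hf, rfl⟩ | ⟨j, hj, f, hf, hf', rfl⟩
    · exact ⟨cons0.2 (mem_erase.1 hf).2, (mem_erase.1 hf).1, fun h' => by simp at h'⟩
    · rw [mem_erase] at hf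
      rcases h.cases hj with rfl | rfl
      · rw [← b0, mem_erase, not_and] at hf'
        exact ⟨(consj hj).2 ⟨hf.2, fun h' => hf' hf.1 (hm (a0 ▸ h'))⟩, hf.1,
          fun h' => hf' hf.1 h'.2⟩
      · rw [← b1, mem_erase, not_and, a1] at hf'
        exact ⟨(consj hj).2 ⟨hf.2, hf' hf.1⟩, hf.1, fun h' => by have := h'.1; simp only at this; omega⟩
  · rintro ⟨hc, h1, h2⟩
    rcases cons_cases hc with ⟨f, hf, rfl⟩ | ⟨j, hj, f, hf, hf', rfl⟩
    · exact cons0.2 (mem_erase.2 ⟨h1, hf⟩)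
    · refine (consj hj).2 ⟨mem_erase.2 ⟨h1, hf⟩, ?_⟩
      rcases h.cases hj with rfl | rfl
      · rw [← b0]
        exact fun h' => h2 ⟨rfl, (mem_erase.1 h').2⟩
      · rw [← b1, a1]
        exact fun h' => hf' (mem_erase.1 h').2

theorem cov_pr (h : Cfg E ρ ρ' e j0 j1) (hg : Good E ρ j0 j1 e σ) (hv : v ∈ span E σ)
    {c : ℕ × ℕ} (hc : c ∈ cons (E.erase e) ρ') :
    cov (res j0 e σ) c (pr σ j0 e v) = cov σ c v := by
  obtain ⟨h1, h2, h3⟩ := (cons_res h hg).1 hc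
  have := h.l0
  rcases cons_cases h1 with ⟨f, _, rfl⟩ | ⟨j, hj, f, _, _, rfl⟩
  · rw [cov0, cov0, pr_zero (span_gr hv), span_gr hv, pr_ne (by omega) h2]
  · rw [covj hj, covj hj, pr_ne (by omega) h2]
    by_cases hjj : j = j0
    · subst hjj
      rw [pr_out h2 fun h' => h3 ⟨rfl, h'⟩]
    · rw [pr_ne hjj h2]

/-- the coordinate of `e` on the deleted side is zero or copies another coordinate -/
theorem Good.mate (h : Cfg E ρ ρ' e j0 j1) (hg : Good E ρ j0 j1 e σ) : e ∈ ch σ j1 0 ∨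
    ∃ i g, g ≠ e ∧ (e ∈ ch σ j1 (i + 1) ∧ e ∉ ch σ j1 i) ∧ g ∈ ch σ j1 (i + 1) ∧ g ∉ ch σ j1 i := by
  by_cases h0 : e ∈ ch σ j1 0
  · exact Or.inl h0
  · obtain ⟨i, hi, h1⟩ := ch_level (hg.1.chain _ h.l1) h.he h0
    obtain ⟨g, h2, h3⟩ := hg.2.2 i hi
    exact Or.inr ⟨i, g, h2, h1, h3⟩

theorem ker (h : Cfg E ρ ρ' e j0 j1) (hg : Good E ρ j0 j1 e σ)
    (hc2 : c2 = (0, e) ∨ c2 = (j1 + 1, e)) (hv : v ∈ span E σ) (h0 : pr σ j0 e v = 0)
    (h1 : cov σ (j0 + 1, e) v = 0) (h2 : cov σ c2 v = 0) : v = 0 := by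
  have a1 : v (j1, e) = 0 := by
    rcases hg.mate h with a | ⟨i, g, hge, a, b⟩
    · exact span_bot hv h.l1 a
    · rw [span_lev hv h.l1 a.1 a.2 b.1 b.2, ← pr_ne (σ := σ) (v := v) h.ne hge, h0]; rfl
  have a2 : v (2, e) = 0 := by
    rcases hc2 with rfl | rfl
    · rw [cov0, span_gr hv] at h2; linarith
    · rw [covj h.l1, a1, sub_zero] at h2
      exact (mul_eq_zero.1 h2).resolve_left (sg_ne _)
  have a0 : v (j0, e) = 0 := by
    rw [covj h.l0, a2] at h1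
    have := (mul_eq_zero.1 h1).resolve_left (sg_ne _)
    linarith
  funext ⟨t, f⟩
  by_cases hx : f = e ∨ (t = j0 ∧ f ∈ ch σ j0 1)
  · rcases hx with rfl | ⟨rfl, hx⟩
    · rcases lt_trichotomy t 2 with ht | rfl | ht
      · rcases h.cases ht with rfl | rfl
        exacts [a0, a1]
      · exact a2
      · exact hv.2.2.2 t _ (by omega)
    · by_cases hb : f ∈ ch σ t 0
      · exact span_bot hv h.l0 hb
      · exact (span_lev hv h.l0 hx hb hg.2.1 (hg.nb h)).trans a0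
  · have := congrFun h0 (t, f)
    unfold pr at this
    rwa [if_neg hx] at this

theorem lift0 (h : Cfg E ρ ρ' e j0 j1) (hg : Good E ρ j0 j1 e σ)
    (hv : v ∈ span (E.erase e) (res j0 e σ)) : ∃ w ∈ span E σ, pr σ j0 e w = v ∧
      w (2, e) = 0 ∧ w (j0, e) = 0 ∧ ∃ x, w (j1, e) = v x := by
  have hC := hg.1.chain _ h.l0
  have hD := hg.1.chain _ h.l1
  have he0 : ∀ t, v (t, e) = 0 := fun t => span_out hv t (notMem_erase _ _)
  have hz : ∀ f ∈ ch σ j0 1, v (j0, f) = 0 := fun f hf => by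
    by_cases hfe : f = e
    · rw [hfe, he0]
    · exact span_bot hv h.l0 (by rw [ch_res0]; exact mem_erase.2 ⟨hfe, hf⟩)
  obtain ⟨g, hg0, hg1⟩ : ∃ g, (e ∈ ch σ j1 0 → v (j1, g) = 0) ∧ ∀ i f, e ∈ ch σ j1 (i + 1) →
      e ∉ ch σ j1 i → f ≠ e → f ∈ ch σ j1 (i + 1) → f ∉ ch σ j1 i → v (j1, g) = v (j1, f) := by
    rcases hg.mate h with a | ⟨i, g, hge, a, b⟩
    · exact ⟨e, fun _ => he0 _, fun i f _ h2 => absurd (ch_mono hD (Nat.zero_le i) a) h2⟩
    · refine ⟨g, fun h' => absurd (ch_mono hD (Nat.zero_le i) h') a.2, fun i' f h1 h2 h3 h4 h5 => ?_⟩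
      obtain rfl := lev_uniq hD a.1 a.2 h1 h2
      refine span_lev hv h.l1 (i := i) ?_ ?_ ?_ ?_ <;> rw [ch_res1 h.ne, mem_erase]
      exacts [⟨hge, b.1⟩, fun h' => b.2 h'.2, ⟨h3, h4⟩, fun h' => h5 h'.2]
  have hne := h.ne
  have l1 := h.l1
  have u0 : ∀ t f, t ≠ j1 → Function.update v (j1, e) (v (j1, g)) (t, f) = v (t, f) :=
    fun t f ht => Function.update_of_ne (fun h' => ht (Prod.ext_iff.1 h').1) _ _
  have u1 : ∀ t f, f ≠ e → Function.update v (j1, e) (v (j1, g)) (t, f) = v (t, f) :=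
    fun t f ht => Function.update_of_ne (fun h' => ht (Prod.ext_iff.1 h').2) _ _
  refine ⟨Function.update v (j1, e) (v (j1, g)), ⟨fun j hj i f hf f' hf' => ?_,
    fun j hj f hf => ?_, fun f hf => ?_, fun t f ht => ?_⟩, ?_, ?_, ?_, _, Function.update_self _ _ _⟩
  · rw [mem_sdiff] at hf hf'
    rcases h.cases hj with rfl | rfl
    · rw [u0 _ _ hne.symm, u0 _ _ hne.symm]
      rcases i with _ | i
      · rw [hz f hf.1, hz f' hf'.1]
      · have hm : e ∈ ch σ j (i + 1) := ch_mono hC (by omega) hg.2.1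
        refine span_lev hv hj (i := i) ?_ ?_ ?_ ?_ <;> rw [ch_res0, mem_erase]
        exacts [⟨fun h' => hf.2 (h' ▸ hm), hf.1⟩, fun h' => hf.2 h'.2,
          ⟨fun h' => hf'.2 (h' ▸ hm), hf'.1⟩, fun h' => hf'.2 h'.2]
    · by_cases h1 : f = e <;> by_cases h2 : f' = e
      · rw [h1, h2]
      · subst h1
        rw [Function.update_self, u1 _ _ h2]
        exact hg1 i f' hf.1 hf.2 h2 hf'.1 hf'.2
      · subst h2
        rw [Function.update_self, u1 _ _ h1]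
        exact (hg1 i f hf'.1 hf'.2 h1 hf.1 hf.2).symm
      · rw [u1 _ _ h1, u1 _ _ h2]
        refine span_lev hv hj (i := i) ?_ ?_ ?_ ?_ <;> rw [ch_res1 h.ne, mem_erase]
        exacts [⟨h1, hf.1⟩, fun h' => hf.2 h'.2, ⟨h2, hf'.1⟩, fun h' => hf'.2 h'.2]
  · by_cases hE : f ∈ E
    · have a : f ∈ ch σ j 0 := by
        by_contra h'
        exact hf (mem_sdiff.2 ⟨hE, h'⟩)
      rcases h.cases hj with rfl | rfl
      · rw [u0 _ _ hne.symm]
        exact hz f (ch_mono hC (by omega) a)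
      · by_cases h1 : f = e
        · subst h1
          rw [Function.update_self]
          exact hg0 a
        · rw [u1 _ _ h1]
          exact span_bot hv hj (by rw [ch_res1 h.ne]; exact mem_erase.2 ⟨h1, a⟩)
    · rw [u1 _ f fun h' => hE (by rw [h']; exact h.he)]
      exact span_out hv _ fun h' => hE (mem_erase.1 h').2
  · rw [u0 _ _ (by omega)]
    exact span_out hv _ fun h' => hf (mem_erase.1 h').2
  · rw [u0 _ _ (by omega)]
    exact hv.2.2.2 t f ht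
  · funext ⟨t, f⟩
    unfold pr
    split_ifs with hx
    · rcases hx with hx | ⟨h1, h2⟩
      · simp only at hx
        rw [hx, he0]
      · simp only at h1 h2
        rw [h1, hz f h2]
    · exact u1 _ _ fun h' => hx (Or.inl h')
  · rw [u0 _ _ (by omega), he0]
  · rw [u0 _ _ hne.symm, he0]

theorem lift (h : Cfg E ρ ρ' e j0 j1) (hg : Good E ρ j0 j1 e σ)
    (hc2 : c2 = (0, e) ∨ c2 = (j1 + 1, e)) (hv : v ∈ span (E.erase e) (res j0 e σ)) (α β : ℝ) :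
    ∃ w ∈ span E σ, pr σ j0 e w = v ∧ cov σ (j0 + 1, e) w = α ∧ cov σ c2 w = β ∧
      ∃ x, w (j1, e) = v x := by
  obtain ⟨w, hw, h1, h2, h3, x, h4⟩ := lift0 h hg hv
  have l0 := h.l0
  have l1 := h.l1
  have hne := h.ne
  obtain ⟨s, hs⟩ : ∃ s : ℝ, ∀ t : ℝ, cov σ c2 (w + s • dl e + t • lv σ j0 0) = β := by
    rcases hc2 with rfl | rfl
    · refine ⟨-β, fun t => ?_⟩
      rw [cov0]
      simp only [Pi.add_apply, Pi.smul_apply, smul_eq_mul]
      rw [span_gr hw, h2, dl_ne (by omega), dl_self, lv_ne (by omega), lv_ne (by omega)]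
      ring
    · refine ⟨w (j1, e) + sg j1 * β, fun t => ?_⟩
      rw [covj l1]
      simp only [Pi.add_apply, Pi.smul_apply, smul_eq_mul]
      rw [h2, dl_self, dl_ne (by omega), lv_ne (by omega), lv_ne hne]
      linear_combination β * sg_sq j1
  refine ⟨w + s • dl e + (s - sg j0 * α) • lv σ j0 0, Submodule.add_mem _ (Submodule.add_mem _ hw
    (Submodule.smul_mem _ _ (dl_mem h.he))) (Submodule.smul_mem _ _ (lv_mem hg.1 l0 0)), ?_, ?_,
    hs _, x, ?_⟩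
  · rw [← h1]
    funext ⟨t, f⟩
    unfold pr
    split_ifs with hx
    · rfl
    · simp only [Pi.add_apply, Pi.smul_apply, smul_eq_mul]
      rw [dl_ne' fun h' => hx (Or.inl h'), show lv σ j0 0 (t, f) = 0 from
        if_neg fun h' => hx (Or.inr ⟨h'.1, h'.2.1⟩)]
      ring
  · rw [covj l0]
    simp only [Pi.add_apply, Pi.smul_apply, smul_eq_mul]
    rw [h2, h3, dl_self, dl_ne (by omega), lv_ne (by omega), lv_in hg.2.1 (hg.nb h)]
    linear_combination α * sg_sq j0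
  · simp only [Pi.add_apply, Pi.smul_apply, smul_eq_mul]
    rw [h4, dl_ne (by omega), lv_ne hne]
    ring

end Pool.Agent.Lib.US.DC
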