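import Pool.Agent.Lib.US.DC3

/-! The bijection between a class of terminals and the terminals of a minor. -/

namespace Pool.Agent.Lib.US.DC

open Finset Pool.Agent.Lib.FL
open Pool.Agent.Lib.FL.H64 (IsRk cl Flat Cov mem_cl cl_subset subset_cl con dual)

variable {E : Finset ℕ} {ρ ρ' : Finset ℕ → ℕ} {σ τ : ℕ × ℕ → Finset ℕ} {T : Finset (ℕ × ℕ)}
  {θ p v : ℕ × ℕ → ℝ} {e j0 j1 : ℕ} {c2 : ℕ × ℕ}

/-- the class of terminals -/
def Cls (E : Finset ℕ) (ρ ρ' : Finset ℕ → ℕ) (e j0 j1 : ℕ) (c2 : ℕ × ℕ)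
    (w : (ℕ × ℕ → Finset ℕ) × Finset (ℕ × ℕ)) : Prop :=
  Good E ρ j0 j1 e w.1 ∧ (j0 + 1, e) ∈ w.2 ∧ c2 ∈ w.2 ∧
    (w.2.erase (j0 + 1, e)).erase c2 ⊆ cons (E.erase e) ρ'

theorem c2_ne (h : Cfg E ρ ρ' e j0 j1) (hc2 : c2 = (0, e) ∨ c2 = (j1 + 1, e)) :
    c2 ≠ (j0 + 1, e) ∧ c2.2 = e := by
  have := h.ne
  rcases hc2 with rfl | rfl
  · exact ⟨fun h' => by have := (Prod.ext_iff.1 h').1; simp only at this; omega, rfl⟩
  · exact ⟨fun h' => by have := (Prod.ext_iff.1 h').1; simp only at this; omega, rfl⟩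

theorem mem_two (h : Cfg E ρ ρ' e j0 j1) (hg : Good E ρ j0 j1 e σ)
    (hc2 : c2 = (0, e) ∨ c2 = (j1 + 1, e)) {c : ℕ × ℕ} (hc : c ∈ cons (E.erase e) ρ') :
    c ≠ (j0 + 1, e) ∧ c ≠ c2 :=
  ⟨fun h' => ((cons_res h hg).1 hc).2.1 (by rw [h']),
    fun h' => ((cons_res h hg).1 hc).2.1 (by rw [h', (c2_ne h hc2).2])⟩

theorem fwd (h : Cfg E ρ ρ' e j0 j1) (hc2 : c2 = (0, e) ∨ c2 = (j1 + 1, e))
    (ht : Term E ρ θ σ T p) (hc : Cls E ρ ρ' e j0 j1 c2 (σ, T)) :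
    Term (E.erase e) ρ' θ (res j0 e σ) ((T.erase (j0 + 1, e)).erase c2) (pr σ j0 e p) := by
  obtain ⟨hg, h1, h2, h3⟩ := hc
  simp only at hg h1 h2 h3
  have hT : ∀ c ∈ (T.erase (j0 + 1, e)).erase c2, c ∈ T := fun c hc =>
    mem_of_mem_erase (mem_of_mem_erase hc)
  refine ⟨res_cone h hg, h3, fun v hv h0 => ?_, fun c hc => ?_, pr_mem h hg ht.mem,
    fun c hc => ?_, fun c hc hn => ?_, fun j hj i f g hf hf0 hgE hgi => ?_⟩
  · obtain ⟨w, hw, a1, a2, a3, -⟩ := lift h hg hc2 hv 0 0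
    have : w = 0 := ht.inj w hw fun c hc => by
      by_cases b1 : c = (j0 + 1, e)
      · rw [b1, a2]
      by_cases b2 : c = c2
      · rw [b2, a3]
      have b3 : c ∈ (T.erase (j0 + 1, e)).erase c2 := mem_erase.2 ⟨b2, mem_erase.2 ⟨b1, hc⟩⟩
      rw [← cov_pr h hg hw (h3 b3), a1, h0 c b3]
    rw [← a1, this]
    funext x
    exact pr_zero rfl
  · obtain ⟨w, hw, a⟩ := ht.sur c (hT c hc)
    exact ⟨_, pr_mem h hg hw, fun d hd => by rw [cov_pr h hg hw (h3 hd), a d (hT d hd)]⟩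
  · rw [cov_pr h hg ht.mem (h3 hc), ht.tight c (hT c hc)]
  · rw [cov_pr h hg ht.mem hc]
    have := mem_two h hg hc2 hc
    exact ht.slack c ((cons_res h hg).1 hc).1 fun h' =>
      hn (mem_erase.2 ⟨this.2, mem_erase.2 ⟨this.1, h'⟩⟩)
  · rw [mem_erase] at hgE
    rcases h.cases hj with rfl | rfl
    · simp only [ch_res0, mem_erase, not_and] at hf hf0 hgi
      have hC := hg.1.chain _ hj
      rw [pr_out hf.1 (hf0 hf.1), pr_out hgE.1 fun h' => hgi hgE.1 (ch_mono hC (by omega) h')]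
      exact ht.mono _ hj (i + 1) f g hf.2 (fun h' => hf0 hf.1 (ch_mono hC (by omega) h')) hgE.2
        (hgi hgE.1)
    · simp only [ch_res1 h.ne, mem_erase, not_and] at hf hf0 hgi
      rw [pr_ne h.ne hf.1, pr_ne h.ne hgE.1]
      exact ht.mono _ hj i f g hf.2 (hf0 hf.1) hgE.2 (hgi hgE.1)

/-- the thresholds at `e` are so large that every lift is feasible -/
def Fe (E : Finset ℕ) (ρ : Finset ℕ → ℕ) (θ : ℕ × ℕ → ℝ) (e j0 j1 : ℕ) (c2 : ℕ × ℕ) (Θ : ℝ) :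
    Prop := ∀ σ (q : ℕ × ℕ → ℝ), |q (j1, e)| ≤ Θ → q (5, 0) = 0 →
  cov σ (j0 + 1, e) q = θ (j0 + 1, e) → cov σ c2 q = θ c2 → 2 * Θ < sg j0 * q (j0, e) ∧
    ∀ c ∈ cons E ρ, c.2 = e → c ≠ (j0 + 1, e) → c ≠ c2 → cov σ c q < θ c

theorem bwd (h : Cfg E ρ ρ' e j0 j1) (hc2 : c2 = (0, e) ∨ c2 = (j1 + 1, e))
    (hc : c2 ∈ cons E ρ) (hg : Good E ρ j0 j1 e σ) {Θ : ℝ} (hF : Fe E ρ θ e j0 j1 c2 Θ)
    (hθ : ∀ c ∈ cons E ρ, c.2 ≠ e → |θ c| ≤ Θ) (hp : ∀ x, |p x| ≤ Θ)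
    (ht : Term (E.erase e) ρ' θ (res j0 e σ) T p) :
    ∃ q, Term E ρ θ σ (insert (j0 + 1, e) (insert c2 T)) q := by
  obtain ⟨q, hq, a1, a2, a3, x, a4⟩ := lift h hg hc2 ht.mem (θ (j0 + 1, e)) (θ c2)
  obtain ⟨f1, f2⟩ := hF σ q (by rw [a4]; exact hp x) (span_gr hq) a2 a3
  have hC := hg.1.chain _ h.l0
  have hD := hg.1.chain _ h.l1
  have hne := (c2_ne h hc2).1
  have hΘ : 0 ≤ Θ := (abs_nonneg _).trans (hp x)
  have hq1 : ∀ f ∈ ch σ j0 1, f ∉ ch σ j0 0 → q (j0, f) = q (j0, e) := fun f h1 h2 =>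
    span_lev hq h.l0 h1 h2 hg.2.1 (hg.nb h)
  have hc1 : (j0 + 1, e) ∈ cons E ρ := (consj h.l0).2 ⟨h.he, by rw [← hC.bot]; exact hg.nb h⟩
  refine ⟨q, hg.1, insert_subset hc1 (insert_subset hc fun c hc =>
    ((cons_res h hg).1 (ht.sub hc)).1), fun v hv h0 => ?_, fun c hc => ?_, hq, fun c hc => ?_,
    fun c hc hn => ?_, fun j hj i f g hf hf0 hgE hgi => ?_⟩
  · refine ker h hg hc2 hv (ht.inj _ (pr_mem h hg hv) fun c hc => ?_) (h0 _ (mem_insert_self _ _))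
      (h0 _ (mem_insert_of_mem (mem_insert_self _ _)))
    rw [cov_pr h hg hv (ht.sub hc), h0 c (mem_insert_of_mem (mem_insert_of_mem hc))]
  · have key : ∀ v' ∈ span (E.erase e) (res j0 e σ), (∀ d ∈ T, cov (res j0 e σ) d v' =
        if d = c then 1 else 0) → ∃ v ∈ span E σ, ∀ d ∈ insert (j0 + 1, e) (insert c2 T),
          cov σ d v = if d = c then 1 else 0 := by
      intro v' hv' hd
      obtain ⟨w, hw, b1, b2, b3, -⟩ := lift h hg hc2 hv' (if (j0 + 1, e) = c then 1 else 0)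
        (if c2 = c then 1 else 0)
      refine ⟨w, hw, fun d hd' => ?_⟩
      rcases mem_insert.1 hd' with rfl | hd'
      · exact b2
      rcases mem_insert.1 hd' with rfl | hd'
      · exact b3
      · rw [← cov_pr h hg hw (ht.sub hd'), b1, hd d hd']
    by_cases hT : c ∈ T
    · obtain ⟨v', hv', hd⟩ := ht.sur c hT
      exact key v' hv' hd
    · exact key 0 (Submodule.zero_mem _) fun d hd => by
        rw [map_zero, if_neg fun (h' : d = c) => hT (h' ▸ hd)]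
  · rcases mem_insert.1 hc with rfl | hc
    · exact a2
    rcases mem_insert.1 hc with rfl | hc
    · exact a3
    · rw [← cov_pr h hg hq (ht.sub hc), a1, ht.tight c hc]
  · simp only [mem_insert, not_or] at hn
    by_cases hce : c.2 = e
    · exact f2 c hc hce hn.1 hn.2.1
    by_cases hl : c.1 = j0 + 1 ∧ c.2 ∈ ch σ j0 1
    · obtain ⟨t, f⟩ := c
      simp only at hl hce
      obtain ⟨rfl, hl⟩ := hl
      have b1 := abs_le.1 (hθ _ hc hce)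
      have b2 : |sg j0 * q (2, f)| ≤ Θ := by
        rw [abs_sg, ← pr_ne (σ := σ) (j0 := j0) (v := q) (by have := h.l0; omega) hce, a1]
        exact hp _
      rw [covj h.l0, hq1 f hl (by rw [hC.bot]; exact ((consj h.l0).1 hc).2), mul_sub]
      linarith [(abs_le.1 b2).2]
    · have b := (cons_res h hg).2 ⟨hc, hce, hl⟩
      rw [← cov_pr h hg hq b, a1]
      exact ht.slack c b hn.2.2
  · rcases h.cases hj with rfl | rfl
    · rcases i with _ | i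
      · exact absurd hf hf0
      have g1 : g ∉ ch σ j 1 := fun h' => hgi (ch_mono hC (by omega) h')
      have g2 : g ≠ e := fun h' => g1 (h' ▸ hg.2.1)
      rw [← pr_out (σ := σ) (j0 := j) (v := q) g2 g1, a1]
      by_cases hl : f ∈ ch σ j 1
      · have b2 : |sg j * p (j, g)| ≤ Θ := by rw [abs_sg]; exact hp _
        rw [hq1 f hl hf0, mul_sub]
        linarith [(abs_le.1 b2).2]
      · have f2 : f ≠ e := fun h' => hl (h' ▸ hg.2.1)
        rw [← pr_out (σ := σ) (j0 := j) (v := q) f2 hl, a1]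
        refine ht.mono _ hj i f g ?_ ?_ (mem_erase.2 ⟨g2, hgE⟩) ?_ <;> rw [ch_res0, mem_erase]
        exacts [⟨f2, hf⟩, fun h' => hl h'.2, fun h' => hgi h'.2]
    · have mate : ∀ f ∈ E, f ∉ ch σ j 0 → ∃ f' ∈ E, f' ≠ e ∧ q (j, f) = p (j, f') ∧
          ∀ i, f ∈ ch σ j i ↔ f' ∈ ch σ j i := by
        intro f hE h0
        by_cases hfe : f = e
        · subst hfe
          rcases hg.mate h with a | ⟨i, g, hge, a, b⟩
          · exact absurd a h0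
          · refine ⟨g, hD.sub _ b.1, hge, ?_, fun l => ?_⟩
            · rw [span_lev hq hj a.1 a.2 b.1 b.2, ← pr_ne (σ := σ) (v := q) h.ne hge, a1]
            · rcases le_or_gt l i with hl | hl
              · exact iff_of_false (fun h' => a.2 (ch_mono hD hl h')) fun h' => b.2 (ch_mono hD hl h')
              · exact iff_of_true (ch_mono hD hl a.1) (ch_mono hD hl b.1)
        · exact ⟨f, hE, hfe, by rw [← pr_ne (σ := σ) (v := q) h.ne hfe, a1], fun _ => Iff.rfl⟩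
      obtain ⟨f', -, b1, b2, b3⟩ := mate f (hD.sub _ hf) hf0
      obtain ⟨g', d0, d1, d2, d3⟩ := mate g hgE fun h' => hgi (ch_mono hD (Nat.zero_le i) h')
      rw [b2, d2]
      refine ht.mono _ hj i f' g' ?_ ?_ (mem_erase.2 ⟨d1, d0⟩) ?_ <;> rw [ch_res1 h.ne, mem_erase]
      exacts [⟨b1, (b3 i).1 hf⟩, fun h' => hf0 ((b3 0).2 h'.2), fun h' => hgi ((d3 i).2 h'.2)]

open Classical in
theorem sum_cls (hTU : St_TU) (h : Cfg E ρ ρ' e j0 j1) (hc2 : c2 = (0, e) ∨ c2 = (j1 + 1, e))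
    (hc : c2 ∈ cons E ρ) {Θ : ℝ} (hF : Fe E ρ θ e j0 j1 c2 Θ)
    (hθ : ∑ c ∈ (cons E ρ).filter fun c => c.2 ≠ e, |θ c| ≤ Θ) (a : ℕ × ℕ → ℝ) :
    ∑ w ∈ ((sys E ρ).Tm θ).filter (Cls E ρ ρ' e j0 j1 c2), (sys E ρ).om a w.2 =
      (a (j0 + 1, e))⁻¹ * (a c2)⁻¹ * (sys (E.erase e) ρ').Zs θ a := by
  have hne := (c2_ne h hc2).1
  unfold Sys.Zs
  rw [mul_sum]
  refine sum_bij (fun w _ => (res j0 e w.1, (w.2.erase (j0 + 1, e)).erase c2)) ?_ ?_ ?_ ?_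
  · intro w hw
    obtain ⟨h1, h2⟩ := mem_filter.1 hw
    obtain ⟨p, hp⟩ := mem_Tm.1 h1
    exact mem_Tm.2 ⟨_, fwd h hc2 hp h2⟩
  · intro w hw w' hw' hh
    have h1 := (mem_filter.1 hw).2
    have h2 := (mem_filter.1 hw').2
    obtain ⟨b1, b2⟩ := Prod.ext_iff.1 hh
    simp only at b1 b2
    refine Prod.ext (res_inj h h1.1 h2.1 b1) ?_
    rw [← insert_erase h1.2.1, ← insert_erase h2.2.1, ← insert_erase (mem_erase.2 ⟨hne, h1.2.2.1⟩),
      ← insert_erase (mem_erase.2 ⟨hne, h2.2.2.1⟩), b2]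
  · intro w hw
    obtain ⟨p, hp⟩ := mem_Tm.1 hw
    obtain ⟨hg, hr⟩ := ext_good h hp.cone
    have hs : w.2 ⊆ (cons E ρ).filter fun c => c.2 ≠ e := fun c hc =>
      mem_filter.2 ⟨((cons_res h hg).1 (hp.sub hc)).1, ((cons_res h hg).1 (hp.sub hc)).2.1⟩
    obtain ⟨q, hq⟩ := bwd (T := w.2) h hc2 hc hg hF (fun c h1 h2 => (single_le_sum
      (f := fun c => |θ c|) (fun _ _ => abs_nonneg _) (mem_filter.2 ⟨h1, h2⟩)).trans hθ)
      (fun x => (hp.bound hTU h.rk' hs x).trans hθ) (by rw [hr]; exact hp)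
    have n1 : c2 ∉ w.2 := fun h' => (mem_two h hg hc2 (hp.sub h')).2 rfl
    have n2 : (j0 + 1, e) ∉ insert c2 w.2 := fun h' => (mem_insert.1 h').elim hne.symm
      fun h' => (mem_two h hg hc2 (hp.sub h')).1 rfl
    have e1 : ((insert (j0 + 1, e) (insert c2 w.2)).erase (j0 + 1, e)).erase c2 = w.2 := by
      rw [erase_insert n2, erase_insert n1]
    refine ⟨(ext E ρ j0 j1 e w.1, insert (j0 + 1, e) (insert c2 w.2)), mem_filter.2
      ⟨mem_Tm.2 ⟨q, hq⟩, hg, mem_insert_self _ _, mem_insert_of_mem (mem_insert_self _ _), ?_⟩,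
      Prod.ext hr e1⟩
    simp only
    rw [e1]
    exact hp.sub
  · intro w hw
    obtain ⟨h1, h2⟩ := mem_filter.1 hw
    obtain ⟨p, hp⟩ := mem_Tm.1 h1
    unfold Sys.om
    rw [inter_eq_left.2 (show w.2 ⊆ (sys E ρ).Cc from hp.sub), inter_eq_left.2
      (show _ ⊆ (sys (E.erase e) ρ').Cc from h2.2.2.2), ← mul_prod_erase _ _ h2.2.1,
      ← mul_prod_erase _ _ (mem_erase.2 ⟨hne, h2.2.2.1⟩), mul_assoc]

end Pool.Agent.Lib.US.DC
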