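import Pool.Agent.Lib.US.DC4

/-! Classification of the terminals when one threshold is very negative. -/

namespace Pool.Agent.Lib.US.DC

open Finset Pool.Agent.Lib.FL
open Pool.Agent.Lib.FL.H64 (IsRk cl Flat Cov mem_cl cl_subset subset_cl con dual)

variable {E : Finset ℕ} {ρ ρ' : Finset ℕ → ℕ} {σ τ : ℕ × ℕ → Finset ℕ} {T : Finset (ℕ × ℕ)}
  {θ p v y : ℕ × ℕ → ℝ} {e : ℕ} {P : ℕ × ℕ} {M H Θ : ℝ}

theorem Term.le (h : Term E ρ θ σ T p) {c : ℕ × ℕ} (hc : c ∈ cons E ρ) : cov σ c p ≤ θ c := by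
  by_cases hT : c ∈ T
  · exact (h.tight c hT).le
  · exact (h.slack c hc hT).le

theorem cons_e {c : ℕ × ℕ} (hc : c ∈ cons E ρ) (h : c.2 = e) :
    c = (0, e) ∨ c = (1, e) ∨ c = (2, e) := by
  obtain ⟨t, f⟩ := c
  simp only at h
  subst h
  have : t = 0 ∨ t = 1 ∨ t = 2 := by
    rcases mem_cons.1 hc with h | ⟨j, hj, h, _⟩
    · exact Or.inl h.1
    · simp only at h; omega
  rcases this with rfl | rfl | rfl <;> simp

theorem rs0 : rs E ρ 0 = ρ := if_pos rfl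

theorem rs1 : rs E ρ 1 = dual ρ E := if_neg one_ne_zero

/-- the data of a terminal whose constraint `P` has a very negative threshold -/
structure Big (E : Finset ℕ) (ρ : Finset ℕ → ℕ) (θ : ℕ × ℕ → ℝ) (σ : ℕ × ℕ → Finset ℕ)
    (T : Finset (ℕ × ℕ)) (p y : ℕ × ℕ → ℝ) (e : ℕ) (P : ℕ × ℕ) (M H : ℝ) : Prop where
  rk : IsRk ρ
  he : e ∈ E
  tm : Term E ρ θ σ T p
  hP : P = (2, e) ∨ (P = (0, e) ∧ e ∈ cl (rs E ρ 1) E ∅)
  mem : P ∈ T
  sp : y ∈ span E σ
  one : cov σ P y = 1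
  zero : ∀ d ∈ T, d ≠ P → cov σ d y = 0
  app : ∀ x, |p x + H * y x| ≤ M
  bd : ∀ c ∈ cons E ρ, c ≠ P → |θ c| ≤ M
  big : 5 * M < H

theorem covP (hσ : IsCone E ρ σ) (hP : P = (2, e) ∨ (P = (0, e) ∧ e ∈ cl (rs E ρ 1) E ∅))
    (hv : v ∈ span E σ) : cov σ P v = v (1, e) - v (2, e) := by
  rcases hP with rfl | ⟨rfl, h⟩
  · exact cov2 e
  · rw [cov0, span_gr hv, span_bot hv (j := 1) (by omega)
      (by rw [(hσ.chain 1 (by omega)).bot]; exact h)]

theorem exists_big (hTU : St_TU) (hρ : IsRk ρ) (he : e ∈ E) (ht : Term E ρ θ σ T p)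
    (hP : P = (2, e) ∨ (P = (0, e) ∧ e ∈ cl (rs E ρ 1) E ∅)) (hc : P ∈ cons E ρ) (hH : θ P = -H)
    (hM : 5 * ∑ c ∈ (cons E ρ).erase P, |θ c| < H) :
    ∃ y, Big E ρ θ σ T p y e P (∑ c ∈ (cons E ρ).erase P, |θ c|) H ∧
      ((∀ x, y x = 0 ∨ y x = 1) ∨ ∀ x, y x = 0 ∨ y x = -1) := by
  have h0 : 0 ≤ ∑ c ∈ (cons E ρ).erase P, |θ c| := sum_nonneg fun _ _ => abs_nonneg _
  have hm : P ∈ T := by
    by_contra hn
    have hs : T ⊆ (cons E ρ).erase P := fun c h => mem_erase.2 ⟨fun h' => hn (h' ▸ h), ht.sub h⟩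
    have a1 := abs_le.1 (ht.bound hTU hρ hs (1, e))
    have a2 := abs_le.1 (ht.bound hTU hρ hs (2, e))
    have a3 := ht.slack P hc hn
    rw [covP ht.cone hP ht.mem, hH] at a3
    linarith [a1.1, a2.2]
  obtain ⟨y, h1, h2, h3, h4, h5⟩ := ht.dual hTU hρ hm
  refine ⟨y, ⟨hρ, he, ht, hP, hm, h1, h2, h3, fun x => ?_, fun c h h' => single_le_sum
    (f := fun c => |θ c|) (fun _ _ => abs_nonneg _) (mem_erase.2 ⟨h', h⟩), hM⟩, h4⟩
  have := h5 x
  rwa [hH, neg_mul, sub_neg_eq_add] at this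

theorem Big.M0 (h : Big E ρ θ σ T p y e P M H) : 0 ≤ M := (abs_nonneg _).trans (h.app (0, 0))

theorem Big.P2 (h : Big E ρ θ σ T p y e P M H) : P.2 = e := by
  rcases h.hP with h | h
  · rw [h]
  · rw [h.1]

theorem Big.neB (h : Big E ρ θ σ T p y e P M H) (f : ℕ) : (1, f) ≠ P := by
  rcases h.hP with h | h
  · rw [h]; simp
  · rw [h.1]; simp

theorem Big.le (h : Big E ρ θ σ T p y e P M H) {c : ℕ × ℕ} (hc : c ∈ cons E ρ) (hn : c ≠ P) :
    cov σ c p ≤ M := (h.tm.le hc).trans (le_of_abs_le (h.bd c hc hn))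

theorem Big.isC (h : Big E ρ θ σ T p y e P M H) (hc : (2, e) ∈ cons E ρ) : P = (2, e) :=
  h.hP.resolve_right fun h' => ((consj (j := 1) (by omega)).1 hc).2 h'.2

section K

variable (h : Big E ρ θ σ T p y e P M H) (hy : ∀ x, y x = 0 ∨ y x = -1)
include h hy

theorem k_e : y (1, e) = 0 ∧ y (2, e) = -1 := by
  have := h.one
  rw [covP h.tm.cone h.hP h.sp] at this
  rcases hy (1, e) with a | a <;> rcases hy (2, e) with b | b <;> rw [a, b] at this <;>
    first | exact ⟨a, b⟩ | (norm_num at this)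

theorem k_hi {x : ℕ × ℕ} (hx : M < p x) : y x = -1 := (hy x).resolve_left fun h0 => by
  have := h.app x
  rw [h0, mul_zero, add_zero] at this
  linarith [le_of_abs_le this]

omit hy in
theorem k_ge {x : ℕ × ℕ} (hx : y x = -1) : H - M ≤ p x := by
  have := (abs_le.1 (h.app x)).1
  rw [hx] at this
  linarith

theorem k_pin {i : ℕ} (hi : i < rs E ρ 1 E) :
    ∃ f, f ≠ e ∧ (2, f) ∈ T ∧ f ∈ ch σ 1 (i + 1) ∧ f ∉ ch σ 1 i := by
  by_contra hcon
  obtain ⟨f, h1, h2⟩ := h.tm.pin (j := 1) (by omega) hi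
  obtain rfl : f = e := by
    by_contra h'
    exact hcon ⟨f, h', h1, h2⟩
  have hP := h.isC (h.tm.sub h1)
  have := h.tm.inj (y - lv σ 1 i) (Submodule.sub_mem _ h.sp (lv_mem h.tm.cone (by omega) i))
    fun d hd => by
      rw [map_sub]
      by_cases hdP : d = P
      · rw [hdP, h.one, hP, cov2, lv_in h2.1 h2.2, lv_ne (by omega)]; ring
      · rw [h.zero d hd hdP, cov_lv (by omega) i (h.tm.sub hd) fun h' => hcon ⟨d.2,
          fun h'' => hdP (by rw [hP]; exact Prod.ext h'.1 h''), by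
            rw [show (2, d.2) = d from Prod.ext h'.1.symm rfl]; exact hd, h'.2⟩, sub_zero]
  have a := congrFun this (2, f)
  rw [Pi.sub_apply, (k_e h hy).2, lv_ne (by omega)] at a
  norm_num at a

open Classical in
theorem k_rank : ρ (insert e ((E.erase e).filter fun f => y (2, f) = -1)) =
    ρ ((E.erase e).filter fun f => y (2, f) = -1) + 1 := by
  set S := (E.erase e).filter fun f => y (2, f) = -1 with hS
  have hD := h.tm.cone.chain 1 (by omega)
  have hr := isRk_rs (E := E) h.rk 1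
  have M0 := h.M0
  have big := h.big
  obtain ⟨t, ht, h1, h2⟩ : ∃ t ≤ rs E ρ 1 E, e ∈ ch σ 1 t ∧ ∀ l < t, ∀ g ∈ ch σ 1 (l + 1),
      g ∉ ch σ 1 l → y (1, g) = 0 := by
    by_cases h0 : e ∈ ch σ 1 0
    · exact ⟨0, Nat.zero_le _, h0, fun l hl => absurd hl (Nat.not_lt_zero l)⟩
    · obtain ⟨i, hi, a1, a2⟩ := ch_level hD h.he h0
      refine ⟨i + 1, hi, a1, fun l hl g b1 b2 => ?_⟩
      by_cases hli : l = i
      · subst hli
        rw [span_lev h.sp (by omega) b1 b2 a1 a2, (k_e h hy).1]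
      · refine (hy _).resolve_right fun h' => ?_
        have c1 := k_ge h h'
        have c2 := h.tm.mono 1 (by omega) (l + 1) g e b1
          (fun h' => b2 (ch_mono hD (Nat.zero_le l) h')) h.he
          fun h' => a2 (ch_mono hD (by omega) h')
        have c3 := h.app (1, e)
        rw [(k_e h hy).1, mul_zero, add_zero] at c3
        rw [sg1] at c2
        linarith [le_of_abs_le c3]
  have a1 := span_rk hr hD (E.erase e \ S) t fun l hl => by
    obtain ⟨f, b0, b1, b2, b3⟩ := k_pin h hy (i := l) (by omega)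
    refine ⟨f, mem_sdiff.2 ⟨mem_erase.2 ⟨b0, hD.sub _ b2⟩, fun h' => ?_⟩, b2, b3⟩
    have c1 := h.zero _ b1 fun h'' => b0 (by rw [← h.P2, ← h''])
    rw [cov2, h2 l hl f b2 b3, (mem_filter.1 h').2] at c1
    norm_num at c1
  have a2 := hr.mono (insert e ((E.erase e \ S) ∩ ch σ 1 t)) _ (insert_subset h1 inter_subset_right)
  have a3 := hr.le_ins ((E.erase e \ S) ∩ ch σ 1 t) e
  have a4 := hr.mono ((E.erase e \ S) ∩ ch σ 1 t) _ inter_subset_right
  rw [ch_rk hr hD ht] at a2 a4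
  have a5 := hr.ins_of_sub (A := (E.erase e \ S) ∩ ch σ 1 t) (B := E.erase e \ S) (e := e)
    inter_subset_left (by omega)
  rw [rs1] at a5
  have a6 := dual_ins h.rk h.he (A := E.erase e \ S) sdiff_subset
  have a7 := dual_erase h.rk h.he (A := E.erase e \ S) sdiff_subset
  rw [Finset.sdiff_sdiff_eq_self (show S ⊆ E.erase e from filter_subset _ _)] at a6 a7
  omega

theorem k_nl : e ∉ cl ρ E ∅ := fun h' => by
  have a := k_rank h hy
  rw [h.rk.ins_of_sub (empty_subset _) (mem_cl.1 h').2] at a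
  omega

theorem k_other {d : ℕ × ℕ} (hd : d ∈ T) (h1 : d ≠ P) (h2 : d ≠ (1, e)) : d.2 ≠ e := fun h' => by
  rcases cons_e (h.tm.sub hd) h' with a | a | a
  · have := h.zero d hd h1
    rw [a, cov0, span_gr h.sp, (k_e h hy).2] at this
    norm_num at this
  · exact h2 a
  · exact h1 (a.trans (h.isC (a ▸ h.tm.sub hd)).symm)

open Classical in
theorem k_main : (1, e) ∈ T ∧ e ∈ ch σ 0 1 ∧
    ∀ f, (1, f) ∈ T → f ∈ ch σ 0 1 → f = e := by
  have hC := h.tm.cone.chain 0 (by omega)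
  have hr := isRk_rs (E := E) h.rk 0
  have M0 := h.M0
  have big := h.big
  have hi : ∀ f ∈ E, f ∉ ch σ 0 0 → y (2, f) = -1 → y (0, f) = -1 := fun f h1 h2 h3 => by
    have a1 := h.le ((consj (j := 0) (by omega)).2 ⟨h1, by rw [← hC.bot]; exact h2⟩) (h.neB f)
    rw [zero_add, cov1] at a1
    exact k_hi h hy (by linarith [k_ge h h3])
  have e0 : e ∉ ch σ 0 0 := by rw [hC.bot, rs0]; exact k_nl h hy
  have lv1 : ∀ f ∈ E, f ∉ ch σ 0 0 → y (0, f) = -1 → ∃ l ∈ (range (rs E ρ 0 E)).filter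
      fun l => y (0, rep σ 0 (l + 1)) = -1, f ∈ ch σ 0 (l + 1) := fun f h1 h2 h3 => by
    obtain ⟨l, hl, a1, a2⟩ := ch_level hC h1 h2
    have b := rep_spec h.tm.cone (j := 0) (by omega) hl
    exact ⟨l, mem_filter.2 ⟨mem_range.2 hl, by
      rw [span_lev h.sp (by omega) b.1 b.2 a1 a2, h3]⟩, a1⟩
  obtain ⟨l0, hl0, -⟩ := lv1 e h.he e0 (hi e h.he e0 (k_e h hy).2)
  obtain ⟨m, hm, hmax⟩ := exists_max_image _ id ⟨l0, hl0⟩
  obtain ⟨hm1, hm2⟩ := mem_filter.1 hm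
  rw [mem_range] at hm1
  have bm := rep_spec h.tm.cone (j := 0) (by omega) hm1
  have up : ∀ f ∈ E, y (2, f) = -1 → f ∈ ch σ 0 (m + 1) := fun f h1 h3 => by
    by_cases h2 : f ∈ ch σ 0 0
    · exact ch_mono hC (Nat.zero_le _) h2
    · obtain ⟨l, hl, a⟩ := lv1 f h1 h2 (hi f h1 h2 h3)
      exact ch_mono hC (Nat.succ_le_succ (hmax l hl)) a
  have high : ∀ l ≤ m, ∀ g ∈ ch σ 0 (l + 1), g ∉ ch σ 0 l → y (0, g) = -1 := fun l hl g b1 b2 => by
    by_cases hlm : l = m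
    · subst hlm
      rw [span_lev h.sp (by omega) b1 b2 bm.1 bm.2, hm2]
    · have c2 := h.tm.mono 0 (by omega) (l + 1) g _ b1
        (fun h' => b2 (ch_mono hC (Nat.zero_le l) h')) (hC.sub _ bm.1)
        fun h' => bm.2 (ch_mono hC (by omega) h')
      rw [sg0] at c2
      exact k_hi h hy (by linarith [k_ge h hm2])
  obtain ⟨l, hl, hp⟩ : ∃ l ≤ m, ∀ f, (1, f) ∈ T → f ∈ ch σ 0 (l + 1) → f ∉ ch σ 0 l → f = e := by
    by_contra hcon
    push Not at hcon
    have a1 := span_rk hr hC ((E.erase e).filter fun f => y (2, f) = -1) (m + 1) fun l hl => by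
      obtain ⟨f, b1, b2, b3, b4⟩ := hcon l (by omega)
      refine ⟨f, mem_filter.2 ⟨mem_erase.2 ⟨b4, hC.sub _ b2⟩, ?_⟩, b2, b3⟩
      have c1 := h.zero _ b1 (h.neB f)
      rw [cov1, high l (by omega) f b2 b3] at c1
      linarith
    have a2 := hr.mono _ _ (inter_subset_left : ((E.erase e).filter fun f => y (2, f) = -1) ∩
      ch σ 0 (m + 1) ⊆ _)
    have a3 := hr.mono (insert e ((E.erase e).filter fun f => y (2, f) = -1)) (ch σ 0 (m + 1))
      (insert_subset (up e h.he (k_e h hy).2) fun f hf =>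
        up f (mem_erase.1 (mem_filter.1 hf).1).2 (mem_filter.1 hf).2)
    rw [ch_rk hr hC (by omega)] at a3
    have a4 := k_rank h hy
    rw [rs0] at a1 a2 a3
    omega
  obtain ⟨f, b1, b2, b3⟩ := h.tm.pin (j := 0) (by omega) (show l < _ by omega)
  obtain rfl := hp f b1 b2 b3
  have hz := h.tm.inj (y + lv σ 0 l + dl f) (Submodule.add_mem _ (Submodule.add_mem _ h.sp
    (lv_mem h.tm.cone (by omega) l)) (dl_mem h.he)) fun d hd => by
      rw [map_add, map_add]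
      by_cases h1 : d = P
      · rw [h1, h.one, covP h.tm.cone h.hP (lv_mem h.tm.cone (by omega) l),
          covP h.tm.cone h.hP (dl_mem h.he), lv_ne (by omega), lv_ne (by omega), dl_ne (by omega),
          dl_self]
        ring
      by_cases h2 : d = (1, f)
      · rw [h.zero d hd h1, h2, cov1, cov1, lv_ne (by omega), lv_in b2 b3, dl_self,
          dl_ne (by omega)]
        ring
      · have h3 := k_other h hy hd h1 h2
        rw [h.zero d hd h1, cov_dl (h.tm.sub hd) h3, cov_lv (by omega) l (h.tm.sub hd) fun h' =>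
          h3 (hp d.2 (by rw [show (1, d.2) = d from Prod.ext h'.1.symm rfl]; exact hd) h'.2.1
            h'.2.2)]
        ring
  obtain rfl : l = 0 := by
    by_contra hl0
    have b := rep_spec h.tm.cone (j := 0) (i := 0) (by omega) (by omega)
    have a := congrFun hz (0, rep σ 0 (0 + 1))
    rw [Pi.add_apply, Pi.add_apply, high 0 (Nat.zero_le _) _ b.1 b.2, dl_ne (by omega),
      lv_out fun h' => hl0 (lev_uniq hC h'.1 h'.2 b.1 b.2)] at a
    norm_num at a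
  refine ⟨b1, b2, fun g h1 h2 => hp g h1 h2 ?_⟩
  rw [hC.bot]
  exact ((consj (j := 0) (by omega)).1 (h.tm.sub h1)).2

theorem k_cls (hc : Cfg E ρ ρ' e 0 1) : Cls E ρ ρ' e 0 1 P (σ, T) := by
  obtain ⟨h1, h2, h3⟩ := k_main h hy
  have hg : Good E ρ 0 1 e σ := ⟨h.tm.cone, h2, fun i hi => by
    obtain ⟨f, a1, -, a2⟩ := k_pin h hy hi
    exact ⟨f, a1, a2⟩⟩
  refine ⟨hg, h1, h.mem, fun c hc' => ?_⟩
  obtain ⟨a1, a2⟩ := mem_erase.1 hc'
  obtain ⟨a2, a3⟩ := mem_erase.1 a2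
  have a4 := k_other h hy a3 a1 a2
  exact (cons_res hc hg).2 ⟨h.tm.sub a3, a4, fun h' => a4 (h3 c.2
    (by rw [show (1, c.2) = c from Prod.ext h'.1.symm rfl]; exact a3) h'.2)⟩

end K

end Pool.Agent.Lib.US.DC
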