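import Pool.Agent.Lib.US.DC5

/-! The terminals of deletion type; disjointness of the classes. -/

namespace Pool.Agent.Lib.US.DC

open Finset Pool.Agent.Lib.FL
open Pool.Agent.Lib.FL.H64 (IsRk cl Flat Cov mem_cl cl_subset subset_cl con dual)

variable {E : Finset ℕ} {ρ ρ' : Finset ℕ → ℕ} {σ τ : ℕ × ℕ → Finset ℕ} {T : Finset (ℕ × ℕ)}
  {θ p v y : ℕ × ℕ → ℝ} {e : ℕ} {P : ℕ × ℕ} {M H Θ : ℝ}

/-- the vector that moves `s e` together with the two levels of `e` -/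
theorem tri (ht : Term E ρ θ σ T p) (he : e ∈ E) {l i : ℕ} (a1 : e ∈ ch σ 0 (l + 1))
    (a2 : e ∉ ch σ 0 l) (b1 : e ∈ ch σ 1 (i + 1)) (b2 : e ∉ ch σ 1 i) (hA : (0, e) ∉ T)
    (h0 : ∀ f, (1, f) ∈ T → f ∈ ch σ 0 (l + 1) → f ∉ ch σ 0 l → f = e)
    (h1 : ∀ f, (2, f) ∈ T → f ∈ ch σ 1 (i + 1) → f ∉ ch σ 1 i → f = e) : False := by
  have hz := ht.inj (lv σ 0 l + lv σ 1 i + dl e) (Submodule.add_mem _ (Submodule.add_mem _
    (lv_mem ht.cone (by omega) l) (lv_mem ht.cone (by omega) i)) (dl_mem he)) fun d hd => by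
      rw [map_add, map_add]
      by_cases h3 : d.2 = e
      · rcases cons_e (ht.sub hd) h3 with rfl | rfl | rfl
        · exact absurd hd hA
        · rw [cov1, cov1, cov1, lv_ne (by omega), lv_in a1 a2, lv_ne (by omega), lv_ne (by omega),
            dl_self, dl_ne (by omega)]
          ring
        · rw [cov2, cov2, cov2, lv_ne (by omega), lv_ne (by omega), lv_in b1 b2, lv_ne (by omega),
            dl_self, dl_ne (by omega)]
          ring
      · rw [cov_dl (ht.sub hd) h3, cov_lv (by omega) l (ht.sub hd) fun h' =>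
          h3 (h0 d.2 (by rw [show (1, d.2) = d from Prod.ext h'.1.symm rfl]; exact hd) h'.2.1
            h'.2.2), cov_lv (by omega) i (ht.sub hd) fun h' =>
          h3 (h1 d.2 (by rw [show (2, d.2) = d from Prod.ext h'.1.symm rfl]; exact hd) h'.2.1
            h'.2.2)]
        ring
  have a := congrFun hz (2, e)
  rw [Pi.add_apply, Pi.add_apply, lv_ne (by omega), lv_ne (by omega), dl_self] at a
  norm_num at a

section D

variable (h : Big E ρ θ σ T p y e P M H) (hy : ∀ x, y x = 0 ∨ y x = 1)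
include h hy

theorem d_e : y (1, e) = 1 ∧ y (2, e) = 0 := by
  have := h.one
  rw [covP h.tm.cone h.hP h.sp] at this
  rcases hy (1, e) with a | a <;> rcases hy (2, e) with b | b <;> rw [a, b] at this <;>
    first | exact ⟨a, b⟩ | (norm_num at this)

theorem d_nb : e ∉ ch σ 1 0 := fun h' => by
  have := span_bot h.sp (j := 1) (by omega) h'
  rw [(d_e h hy).1] at this
  exact one_ne_zero this

theorem d_P : P = (2, e) := h.hP.resolve_right fun h' => d_nb h hy (by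
  rw [(h.tm.cone.chain 1 (by omega)).bot]; exact h'.2)

omit hy in
theorem d_le {x : ℕ × ℕ} (hx : y x = 1) : p x ≤ M - H := by
  have := (abs_le.1 (h.app x)).2
  rw [hx] at this
  linarith

theorem d_pin {f : ℕ} (hf : (2, f) ∈ T) (hn : f ≠ e) : y (1, f) = 0 := by
  have M0 := h.M0
  have big := h.big
  have hE := ((consj (j := 1) (by omega)).1 (h.tm.sub hf)).1
  have a1 := h.le (cons0.2 hE) (by rw [d_P h hy]; simp)
  rw [cov0, span_gr h.tm.mem] at a1
  have a2 : y (2, f) = 0 := (hy _).resolve_right fun h' => by linarith [d_le h h']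
  have a3 := h.zero _ hf fun h' => hn (by rw [← h.P2, ← h'])
  rw [cov2, a2] at a3
  linarith

theorem d_one : e ∈ ch σ 1 1 ∧ ∀ f, (2, f) ∈ T → f ∈ ch σ 1 1 → f = e := by
  have hD := h.tm.cone.chain 1 (by omega)
  have M0 := h.M0
  have big := h.big
  obtain ⟨i, hi, a1, a2⟩ := ch_level hD h.he (d_nb h hy)
  obtain rfl : i = 0 := by
    by_contra hi0
    obtain ⟨g, b1, b2, b3⟩ := h.tm.pin (j := 1) (i := 0) (by omega) (by omega)
    have b4 : g ≠ e := fun h' => hi0 (lev_uniq hD a1 a2 (h' ▸ b2) (h' ▸ b3))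
    have c1 := h.app (1, g)
    rw [d_pin h hy b1 b4, mul_zero, add_zero] at c1
    have c2 := h.tm.mono 1 (by omega) 1 g e b2 b3 h.he fun h' => a2 (ch_mono hD (by omega) h')
    rw [sg1] at c2
    linarith [(abs_le.1 c1).1, d_le h (d_e h hy).1]
  refine ⟨a1, fun f h1 h2 => ?_⟩
  by_contra hn
  have := span_lev h.sp (j := 1) (i := 0) (by omega) h2
    (by rw [hD.bot]; exact ((consj (j := 1) (by omega)).1 (h.tm.sub h1)).2) a1 a2
  rw [d_pin h hy h1 hn, (d_e h hy).1] at this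
  exact zero_ne_one this

theorem d_or : (0, e) ∈ T ∨ (1, e) ∈ T := by
  by_contra hcon
  rw [not_or] at hcon
  obtain ⟨a1, a2⟩ := d_one h hy
  have hz := h.tm.inj (lv σ 1 0 + dl e) (Submodule.add_mem _ (lv_mem h.tm.cone (by omega) 0)
    (dl_mem h.he)) fun d hd => by
      rw [map_add]
      by_cases h3 : d.2 = e
      · rcases cons_e (h.tm.sub hd) h3 with rfl | rfl | rfl
        · exact absurd hd hcon.1
        · exact absurd hd hcon.2
        · rw [cov2, cov2, lv_in a1 (d_nb h hy), lv_ne (by omega), dl_self, dl_ne (by omega)]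
          ring
      · rw [cov_dl (h.tm.sub hd) h3, cov_lv (by omega) 0 (h.tm.sub hd) fun h' =>
          h3 (a2 d.2 (by rw [show (2, d.2) = d from Prod.ext h'.1.symm rfl]; exact hd) h'.2.1)]
        ring
  have a := congrFun hz (2, e)
  rw [Pi.add_apply, lv_ne (by omega), dl_self] at a
  norm_num at a

omit hy in
theorem d_not (hE : ρ (E.erase e) = ρ E) (hθ : ∀ c ∈ cons E ρ, c ≠ (0, e) → c ≠ (2, e) → |θ c| ≤ Θ)
    (hA : 3 * Θ < θ (0, e)) (h0 : (0, e) ∈ T) (h1 : (1, e) ∈ T) : False := by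
  have hC := h.tm.cone.chain 0 (by omega)
  have hr := isRk_rs (E := E) h.rk 0
  have a0 := h.tm.tight _ h0
  have a1 := h.tm.tight _ h1
  have a2 := abs_le.1 (hθ _ (h.tm.sub h1) (by simp) (by simp))
  rw [cov0, span_gr h.tm.mem] at a0
  rw [cov1] at a1
  have e0 : e ∉ ch σ 0 0 := by
    rw [hC.bot]; exact ((consj (j := 0) (by omega)).1 (h.tm.sub h1)).2
  obtain ⟨l, hl, b1, b2⟩ := ch_level hC h.he e0
  obtain ⟨g, g1, g2⟩ : ∃ g ∈ E.erase e, g ∉ ch σ 0 l := by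
    by_contra hcon
    push Not at hcon
    have := hr.mono _ _ (show E.erase e ⊆ ch σ 0 l from hcon)
    rw [ch_rk hr hC hl.le] at this
    rw [rs0] at this hl
    omega
  obtain ⟨g0, g1⟩ := mem_erase.1 g1
  have c0 : (0, g) ∈ cons E ρ := cons0.2 g1
  have c1 : (0 + 1, g) ∈ cons E ρ := (consj (j := 0) (by omega)).2
    ⟨g1, by rw [← hC.bot]; exact fun h' => g2 (ch_mono hC (Nat.zero_le l) h')⟩
  have d0 := (h.tm.le c0).trans (le_of_abs_le (hθ _ c0 (by simp [g0]) (by simp)))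
  have d1 := (h.tm.le c1).trans (le_of_abs_le (hθ _ c1 (by simp) (by simp)))
  rw [cov0, span_gr h.tm.mem] at d0
  rw [zero_add, cov1] at d1
  by_cases hg : g ∈ ch σ 0 (l + 1)
  · have := span_lev h.tm.mem (by omega) hg g2 b1 b2
    linarith [a2.1]
  · have := h.tm.mono 0 (by omega) (l + 1) e g b1 e0 g1 hg
    rw [sg0] at this
    linarith [a2.1]

theorem d_cls (hc : Cfg E ρ ρ e 1 0) (hθ : ∀ c ∈ cons E ρ, c ≠ (0, e) → c ≠ (2, e) → |θ c| ≤ Θ)
    (hA : 3 * Θ < θ (0, e)) :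
    Cls E ρ ρ e 1 0 (0, e) (σ, T) ∨ Cls E ρ ρ e 1 0 (1, e) (σ, T) := by
  obtain ⟨a1, a2⟩ := d_one h hy
  have hE : ρ (E.erase e) = ρ E := by have := hc.del; rwa [rs0] at this
  have hn := d_not h hE hθ hA
  have hg : Good E ρ 1 0 e σ := ⟨h.tm.cone, a1, fun l hl => by
    by_contra hcon
    have hp : ∀ f, f ∈ ch σ 0 (l + 1) → f ∉ ch σ 0 l → f = e := fun f h1 h2 => by
      by_contra h'
      exact hcon ⟨f, h', h1, h2⟩
    obtain ⟨f, b1, b2, b3⟩ := h.tm.pin (j := 0) (by omega) hl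
    obtain rfl := hp f b2 b3
    exact tri h.tm h.he b2 b3 a1 (d_nb h hy) (fun h' => hn h' b1) (fun g _ => hp g)
      fun g h1 h2 _ => a2 g h1 h2⟩
  have hC : (1 + 1, e) ∈ T := by have := h.mem; rwa [d_P h hy] at this
  have key : ∀ c ∈ T, c.2 ≠ e → c ∈ cons (E.erase e) ρ := fun c h1 h2 =>
    (cons_res hc hg).2 ⟨h.tm.sub h1, h2, fun h' => h2 (a2 c.2
      (by rw [show (2, c.2) = c from Prod.ext h'.1.symm rfl]; exact h1) h'.2)⟩
  rcases d_or h hy with b | b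
  · refine Or.inl ⟨hg, hC, b, fun c hc' => ?_⟩
    obtain ⟨c1, c2⟩ := mem_erase.1 hc'
    obtain ⟨c2, c3⟩ := mem_erase.1 c2
    refine key c c3 fun h' => ?_
    rcases cons_e (h.tm.sub c3) h' with a | a | a
    exacts [c1 a, hn b (a ▸ c3), c2 a]
  · refine Or.inr ⟨hg, hC, b, fun c hc' => ?_⟩
    obtain ⟨c1, c2⟩ := mem_erase.1 hc'
    obtain ⟨c2, c3⟩ := mem_erase.1 c2
    refine key c c3 fun h' => ?_
    rcases cons_e (h.tm.sub c3) h' with a | a | a
    exacts [hn (a ▸ c3) b, c1 a, c2 a]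

end D

theorem cons_ne {c : ℕ × ℕ} (hc : c ∈ cons (E.erase e) ρ') : c.2 ≠ e := by
  rcases mem_cons.1 hc with h | ⟨_, _, h⟩
  · exact (mem_erase.1 h.2).1
  · exact (mem_erase.1 h.2.1).1

theorem disjA {w : (ℕ × ℕ → Finset ℕ) × Finset (ℕ × ℕ)} (h : Cls E ρ ρ e 1 0 (0, e) w) :
    (1, e) ∉ w.2 := fun h' =>
  cons_ne (h.2.2.2 (mem_erase.2 ⟨by simp, mem_erase.2 ⟨by simp, h'⟩⟩)) rfl

theorem disjB (hc : Cfg E ρ ρ e 1 0) (hc' : Cfg E ρ ρ' e 0 1) (ht : Term E ρ θ σ T p)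
    (h1 : Cls E ρ ρ e 1 0 (1, e) (σ, T)) (h2 : Cls E ρ ρ' e 0 1 (2, e) (σ, T)) : False := by
  refine tri ht hc.he h2.1.2.1 (h2.1.nb hc') h1.1.2.1 (h1.1.nb hc) (fun h' => cons_ne (h1.2.2.2
    (mem_erase.2 ⟨by simp, mem_erase.2 ⟨by simp, h'⟩⟩)) rfl) (fun f a1 a2 _ => ?_) fun f a1 a2 _ => ?_
  · by_contra hn
    exact ((cons_res hc' h2.1).1 (h2.2.2.2 (mem_erase.2 ⟨by simp, mem_erase.2
      ⟨by simp [hn], a1⟩⟩))).2.2 ⟨rfl, a2⟩
  · by_contra hn
    exact ((cons_res hc h1.1).1 (h1.2.2.2 (mem_erase.2 ⟨by simp, mem_erase.2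
      ⟨by simp [hn], a1⟩⟩))).2.2 ⟨rfl, a2⟩

theorem cfgD (h : IsRk ρ) (he : e ∈ E) (hE : ρ (E.erase e) = ρ E) : Cfg E ρ ρ e 1 0 := by
  refine ⟨he, Or.inr ⟨rfl, rfl⟩, h, h, ?_, by rw [rs0, hE], fun A hA => ?_, fun A _ => by
    rw [rs0, rs0]⟩
  · have := dual_single h he
    rw [rs1]; omega
  · rw [rs1, rs1, dual_del h he hE hA]

theorem one_of (h : IsRk ρ) (h0 : ρ {e} ≠ 0) : ρ {e} = 1 := by
  have := h.le_card {e}
  rw [card_singleton] at this
  omega

theorem dual_top (h : IsRk ρ) (he : e ∈ E) (h0 : ρ {e} = 1) :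
    dual ρ E (E.erase e) = dual ρ E E := by
  have a1 := dual_small h (erase_subset e E)
  have a2 := dual_small h (Subset.refl E)
  have a3 := card_erase_add_one he
  rw [sdiff_erase he, sdiff_self, bot_eq_empty, insert_empty_eq, h0] at a1
  rw [sdiff_self, bot_eq_empty, h.empty] at a2
  omega

theorem cfgK (h : IsRk ρ) (he : e ∈ E) (h0 : ρ {e} ≠ 0) : Cfg E ρ (con ρ e) e 0 1 :=
  ⟨he, Or.inl ⟨rfl, rfl⟩, h, h.isRk_con e, by rw [rs0, one_of h h0],
    by rw [rs1, dual_top h he (one_of h h0)], fun A _ => by rw [rs0, rs0],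
    fun A hA => by rw [rs1, rs1, dual_con h he hA]⟩

theorem cfgC (h : IsRk ρ) (he : e ∈ E) (hE : ρ (E.erase e) < ρ E) : Cfg E ρ ρ e 0 1 := by
  have h0 : ρ {e} = 1 := by
    have := coloop_ins h he hE (empty_subset _)
    rwa [insert_empty_eq, h.empty] at this
  refine ⟨he, Or.inl ⟨rfl, rfl⟩, h, h, by rw [rs0, h0], by rw [rs1, dual_top h he h0],
    fun A hA => ?_, fun A hA => ?_⟩
  · have a1 := coloop_ins h he hE hA
    have a2 := con_ins h h0 A
    rw [rs0, rs0]; omega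
  · have a1 := dual_small h hA
    have a2 := dual_erase h he hA
    have a3 := coloop_ins h he hE (sdiff_subset (t := A))
    have a4 := coloop_ins h he hE Subset.rfl
    rw [insert_erase he] at a4
    rw [rs1, rs1]; omega

end Pool.Agent.Lib.US.DC
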