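import Mathlib

/-! Polyhedra cut out of a fan: frames, vertices, pivots, networks (abstract layer). -/

namespace Pool.Agent.Lib.US

open Finset

/-- `Kw` walls, `Cc` constraints, `Ch` maximal cones, `Vs σ` the span of a cone, `L σ c` the
covector of a condition, `u σ k` the ray opposite to the wall `k`, `bt` a convex function. -/
structure Sys (ι X V : Type) [AddCommGroup V] [Module ℝ V] where
  Kw : Finset ι
  Cc : Finset ι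
  Ch : Finset (ι → X)
  Vs : (ι → X) → Submodule ℝ V
  L : (ι → X) → ι → V →ₗ[ℝ] ℝ
  u : (ι → X) → ι → V
  bt : (ι → X) → V →ₗ[ℝ] ℝ
  B : ℝ

namespace Sys

variable {ι X V : Type} [DecidableEq ι] [Inhabited X] [AddCommGroup V] [Module ℝ V]
  (S : Sys ι X V)

/-- all conditions -/
def Cn : Finset ι := S.Kw ∪ S.Cc

open Classical in
/-- the sheets at the wall `k` of `σ` -/
noncomputable def Nb (k : ι) (σ : ι → X) : Finset (ι → X) :=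
  S.Ch.filter fun τ => ∀ j, j ≠ k → τ j = σ j

open Classical in
/-- the cones around a face of codimension two -/
noncomputable def Nb2 (k l : ι) (σ : ι → X) : Finset (ι → X) :=
  S.Ch.filter fun τ => ∀ j, j ≠ k → j ≠ l → τ j = σ j

noncomputable def w (σ : ι → X) (k : ι) : V := ∑ τ ∈ S.Nb k σ, S.u τ k

/-- the kink of `bt` along a wall -/
noncomputable def mm (σ : ι → X) (k : ι) : ℝ :=
  ∑ τ ∈ S.Nb k σ, S.bt τ (S.u τ k) - S.bt σ (S.w σ k)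

/-- the kink per sheet -/
noncomputable def nu (σ : ι → X) (k : ι) : ℝ := S.mm σ k / (S.Nb k σ).card

/-- `y` is the basis of `Vs σ` dual to the conditions in `T` -/
structure Frame (σ : ι → X) (T : Finset ι) (y : ι → V) : Prop where
  mem : ∀ c ∈ T, y c ∈ S.Vs σ
  dual : ∀ c ∈ T, ∀ d ∈ T, S.L σ d (y c) = if d = c then 1 else 0
  span : ∀ v ∈ S.Vs σ, v = ∑ c ∈ T, S.L σ c v • y c

def IsB (σ : ι → X) (T : Finset ι) : Prop := σ ∈ S.Ch ∧ T ⊆ S.Cn ∧ ∃ y, S.Frame σ T y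

open Classical in
noncomputable def yv (σ : ι → X) (T : Finset ι) : ι → V :=
  if h : ∃ y, S.Frame σ T y then h.choose else 0

/-- thresholds (walls have threshold zero) -/
def th (θ : ι → ℝ) (c : ι) : ℝ := if c ∈ S.Kw then 0 else θ c

noncomputable def pt (θ : ι → ℝ) (σ : ι → X) (T : Finset ι) : V :=
  ∑ c ∈ T, S.th θ c • S.yv σ T c

/-- slack -/
noncomputable def sl (θ : ι → ℝ) (σ : ι → X) (T : Finset ι) (d : ι) : ℝ :=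
  S.th θ d - S.L σ d (S.pt θ σ T)

/-- vertices -/
def Vx (θ : ι → ℝ) (σ : ι → X) (T : Finset ι) : Prop :=
  S.IsB σ T ∧ ∀ d ∈ S.Cn, d ∉ T → 0 < S.sl θ σ T d

/-- generic thresholds -/
def Gen (θ : ι → ℝ) : Prop :=
  ∀ σ T, S.IsB σ T → ∀ d ∈ S.Cn, d ∉ T → S.sl θ σ T d ≠ 0

/-- no signed sum of thresholds vanishes -/
def SGen (θ : ι → ℝ) : Prop :=
  ∀ κ : ι → ℤ, (∀ c, |κ c| ≤ 1) → (∃ c ∈ S.Cc, κ c ≠ 0) → ∑ c ∈ S.Cc, (κ c : ℝ) * θ c ≠ 0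

open Classical in
/-- conditions whose slack decreases when `c` is released -/
noncomputable def cand (σ : ι → X) (T : Finset ι) (c : ι) : Finset ι :=
  S.Cn.filter fun d => d ∉ T ∧ S.L σ d (S.yv σ T c) = -1

open Classical in
/-- the entering condition -/
noncomputable def ent (θ : ι → ℝ) (σ : ι → X) (T : Finset ι) (c : ι) : ι :=
  if h : ∃ d ∈ S.cand σ T c, ∀ e ∈ S.cand σ T c, S.sl θ σ T d ≤ S.sl θ σ T e then h.choose else c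

noncomputable def len (θ : ι → ℝ) (σ : ι → X) (T : Finset ι) (c : ι) : ℝ :=
  S.sl θ σ T (S.ent θ σ T c)

noncomputable def nxt (θ : ι → ℝ) (σ : ι → X) (T : Finset ι) (c : ι) : Finset ι :=
  insert (S.ent θ σ T c) (T.erase c)

/-- the name of a vertex: the entries at tight walls are forgotten -/
def key (σ : ι → X) (T : Finset ι) : (ι → X) × Finset ι :=
  (fun j => if j ∈ T ∧ j ∈ S.Kw then default else σ j, T)

open Classical in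
noncomputable def slope (θ : ι → ℝ) (U : (ι → X) × Finset ι → ℝ) (σ : ι → X) (T : Finset ι)
    (c : ι) : ℝ :=
  if (S.cand σ T c).Nonempty then
    (U (S.key σ (S.nxt θ σ T c)) - U (S.key σ T)) / S.len θ σ T c else 0

open Classical in
noncomputable def VX (θ : ι → ℝ) : Finset ((ι → X) × Finset ι) :=
  (S.Ch ×ˢ S.Cn.powerset).filter fun v => S.Vx θ v.1 v.2

/-- vertices with `j` tight walls -/
noncomputable def VJ (θ : ι → ℝ) (j : ℕ) : Finset ((ι → X) × Finset ι) :=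
  (S.VX θ).filter fun v => (v.2 ∩ S.Kw).card = j

/-- terminals -/
noncomputable def Tm (θ : ι → ℝ) : Finset ((ι → X) × Finset ι) := S.VJ θ 0

/-- darts along edges with `j` tight walls: `j = 0` the networks, `j = 1` the wall edges -/
noncomputable def Dt (θ : ι → ℝ) (j : ℕ) : Finset (((ι → X) × Finset ι) × ι) :=
  (S.VX θ ×ˢ S.Cn).filter fun d => d.2 ∈ d.1.2 ∧ (d.1.2.erase d.2 ∩ S.Kw).card = j

open Classical in
/-- bounded darts -/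
noncomputable def Db (θ : ι → ℝ) (j : ℕ) : Finset (((ι → X) × Finset ι) × ι) :=
  (S.Dt θ j).filter fun d => (S.cand d.1.1 d.1.2 d.2).Nonempty

/-- the opposite dart -/
noncomputable def rev (θ : ι → ℝ) (d : ((ι → X) × Finset ι) × ι) : ((ι → X) × Finset ι) × ι :=
  ((d.1.1, S.nxt θ d.1.1 d.1.2 d.2), S.ent θ d.1.1 d.1.2 d.2)

open Classical in
/-- the nodes of the networks -/
noncomputable def Nd (θ : ι → ℝ) : Finset ((ι → X) × Finset ι) :=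
  (S.VJ θ 0 ∪ S.VJ θ 1).image fun v => S.key v.1 v.2

/-- the weight of a set of conditions -/
noncomputable def om (a : ι → ℝ) (T : Finset ι) : ℝ := ∏ c ∈ T ∩ S.Cc, (a c)⁻¹

/-- the partition function -/
noncomputable def Zs (θ a : ι → ℝ) : ℝ := ∑ v ∈ S.Tm θ, S.om a v.2

/-- the energy -/
noncomputable def En (θ a : ι → ℝ) (U : (ι → X) × Finset ι → ℝ) : ℝ :=
  (1 / 2) * ∑ d ∈ S.Dt θ 0,
    S.om a (d.1.2.erase d.2) * (S.len θ d.1.1 d.1.2 d.2 * S.slope θ U d.1.1 d.1.2 d.2 ^ 2)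

/-- Kirchhoff's law at the nodes on walls -/
def Kir (θ : ι → ℝ) (U : (ι → X) × Finset ι → ℝ) : Prop :=
  ∀ σ T k, S.Vx θ σ T → T ∩ S.Kw = {k} → ∑ τ ∈ S.Nb k σ, S.slope θ U τ T k = 0

/-- positive costs that differ from the thresholds by a translation along the lineality space -/
def Cost (θ b : ι → ℝ) : Prop := (∀ c ∈ S.Cc, 0 < b c) ∧ ∃ z : V, ∀ σ ∈ S.Ch,
  z ∈ S.Vs σ ∧ (∀ k ∈ S.Kw, S.L σ k z = 0) ∧ ∀ c ∈ S.Cc, b c = θ c + S.L σ c z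

/-- the speed of the functional `- ∑ p c • L c` along a dart -/
noncomputable def ph (p : ι → ℝ) (σ : ι → X) (T : Finset ι) (c : ι) : ℝ :=
  ∑ e ∈ S.Cc, p e * S.L σ e (S.yv σ T c)

def GoodP (p : ι → ℝ) : Prop :=
  (∀ c ∈ S.Cc, 0 < p c) ∧ ∀ σ T, S.IsB σ T → ∀ c ∈ T, S.ph p σ T c ≠ 0

/-- the networks connect all nodes -/
def Conn (θ : ι → ℝ) : Prop := ∀ U : (ι → X) × Finset ι → ℝ,
  (∀ d ∈ S.Db θ 0, U (S.key d.1.1 (S.nxt θ d.1.1 d.1.2 d.2)) = U (S.key d.1.1 d.1.2)) →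
    ∀ s ∈ S.Nd θ, ∀ t ∈ S.Nd θ, U s = U t

noncomputable def w2 (σ : ι → X) (k l : ι) : V :=
  ∑ τ ∈ S.Nb2 k l σ, (S.nu τ l • S.u τ k + S.nu τ k • S.u τ l)

/-- the axioms -/
structure Ax : Prop where
  disj : Disjoint S.Kw S.Cc
  lc : ∀ σ τ, ∀ c ∈ S.Cc, S.L σ c = S.L τ c
  wall : ∀ k ∈ S.Kw, ∀ σ ∈ S.Ch, ∀ τ ∈ S.Nb k σ, ∀ v ∈ S.Vs σ, S.L σ k v = 0 →
    v ∈ S.Vs τ ∧ (∀ l ∈ S.Kw, S.L τ l v = S.L σ l v) ∧ S.bt τ v = S.bt σ v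
  wall2 : ∀ k ∈ S.Kw, ∀ l ∈ S.Kw, ∀ σ ∈ S.Ch, ∀ τ ∈ S.Nb2 k l σ, ∀ v ∈ S.Vs σ, S.L σ k v = 0 →
    S.L σ l v = 0 → v ∈ S.Vs τ ∧ (∀ j ∈ S.Kw, S.L τ j v = S.L σ j v) ∧ S.bt τ v = S.bt σ v
  ray : ∀ σ ∈ S.Ch, ∀ k ∈ S.Kw,
    S.u σ k ∈ S.Vs σ ∧ ∀ l ∈ S.Kw, S.L σ l (S.u σ k) = if l = k then -1 else 0
  bal : ∀ σ ∈ S.Ch, ∀ k ∈ S.Kw, S.w σ k ∈ S.Vs σ ∧ S.L σ k (S.w σ k) = 0
  tu : ∀ σ T, S.IsB σ T → ∀ c ∈ T, ∀ d ∈ S.Cn, S.L σ d (S.yv σ T c) = 0 ∨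
    S.L σ d (S.yv σ T c) = 1 ∨ S.L σ d (S.yv σ T c) = -1
  pointed : ∀ σ ∈ S.Ch, ∀ v ∈ S.Vs σ, (∀ c ∈ S.Cc, S.L σ c v = 0) → v = 0
  nu_ge : ∀ σ ∈ S.Ch, ∀ k ∈ S.Kw, 1 ≤ S.nu σ k
  nu_le : ∀ σ ∈ S.Ch, ∀ k ∈ S.Kw, S.nu σ k ≤ S.B
  bt_le : ∀ σ T, S.IsB σ T → ∀ c ∈ T, |S.bt σ (S.yv σ T c)| ≤ S.B
  one_le : 1 ≤ S.B
  cn_le : (S.Cn.card : ℝ) ≤ S.B
  nb2_le : ∀ σ ∈ S.Ch, ∀ k l, ((S.Nb2 k l σ).card : ℝ) ≤ S.B
  hodge : ∀ σ ∈ S.Ch, ∀ k ∈ S.Kw, ∀ l ∈ S.Kw, k ≠ l → ∀ t s : (ι → X) → ℝ,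
    (∀ τ ∈ S.Nb2 k l σ, ∀ τ' ∈ S.Nb l τ, t τ' = t τ) →
    (∀ τ ∈ S.Nb2 k l σ, ∀ τ' ∈ S.Nb k τ, s τ' = s τ) →
    ∑ τ ∈ S.Nb2 k l σ, (S.nu τ l * t τ + S.nu τ k * s τ) = 0 →
    ∑ τ ∈ S.Nb2 k l σ, (2 * t τ * s τ + S.L τ k (S.w τ l) / (S.Nb l τ).card * t τ ^ 2 +
      S.L τ l (S.w τ k) / (S.Nb k τ).card * s τ ^ 2) ≤ 0
  bal2 : ∀ σ ∈ S.Ch, ∀ k ∈ S.Kw, ∀ l ∈ S.Kw, k ≠ l →
    S.w2 σ k l ∈ S.Vs σ ∧ S.L σ k (S.w2 σ k l) = 0 ∧ S.L σ l (S.w2 σ k l) = 0 ∧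
    1 ≤ ∑ τ ∈ S.Nb2 k l σ, (S.nu τ l * S.bt τ (S.u τ k) + S.nu τ k * S.bt τ (S.u τ l)) -
      S.bt σ (S.w2 σ k l)

end Sys

end Pool.Agent.Lib.US
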