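import Pool.Agent.Lib.US.Asm13b
import Pool.Agent.Lib.US.C_KAP
import Pool.Agent.Lib.US.C_PIV13
import Pool.Agent.Lib.US.C_DS
import Pool.Agent.Lib.US.C_ENC
import Pool.Agent.Lib.US.C_SIM
import Pool.Agent.Lib.US.C_PZ
import Pool.Agent.Lib.US.C_PV
import Pool.Agent.Lib.US.C_PS13
import Pool.Agent.Lib.US.C_PTOP
import Pool.Agent.Lib.US.C_PAR
import Pool.Agent.Lib.US.C_PAR2
import Pool.Agent.Lib.US.C_Z0
import Pool.Agent.Lib.US.C_RUN
import Pool.Agent.Lib.US.C_PRUN
import Pool.Agent.Lib.US.C_TOP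

/-! The approximation scheme on the open unit square. -/

namespace Pool.Agent.Lib.US

open A80

theorem all_PIV : St_PIV := piv13 all_AX kap

theorem st_all : H79.St_US :=
  st_US (run_ms all_AX gen all_CMP all_SWEEP all_CON all_REC ax1
    (sim all_AX all_PIV (ds all_AX all_PIV) enc_ok) enc_ok par par2 (z0 all_REC par))
    (prun enc_ok (ps13 (pv pz)) ptop) (z0 all_REC par) par2

end Pool.Agent.Lib.US
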