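import Pool.Agent.Lib.US.A80

/-! The pivot in explicit form. -/

namespace Pool.Agent.Lib.US.A80

open Finset

theorem piv80 (hAX : St_AX) (hK : St_KAP) : St_PIV := by
  classical
  intro m ρ h σ T c hc
  have hcd : (sys (range m) ρ).IsB σ T → cdN m ρ σ T c = (sys (range m) ρ).cand σ T c := fun hB => by
    ext d
    rw [Sys.mem_cand, cdN, mem_filter]
    refine and_congr_right fun hd => and_congr_right fun _ => ?_
    rw [hK m ρ h σ T hB c hc d hd]
    by_cases h1 : kp m σ T c d
    · rw [if_pos h1]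
      exact iff_of_false (fun h2 => h2.1 h1.1) (by norm_num)
    · rw [if_neg h1]
      by_cases h2 : kn m σ T c d <;> simp [h2]
  refine ⟨hcd, fun θ hG hV hb => ?_⟩
  have hth : ∀ d, (sys (range m) ρ).th (fun c => θ c) d = thN m ρ θ d := fun d => by
    unfold Sys.th thN
    change (if d ∈ walls (range m) ρ then _ else _) = _
    split_ifs <;> simp
  have hsl : ∀ d ∈ (sys (range m) ρ).cand σ T c,
      (slN m ρ θ σ T d : ℝ) = (sys (range m) ρ).sl (fun c => θ c) σ T d := fun d hd => by
    obtain ⟨h1, h2, -⟩ := Sys.mem_cand.1 hd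
    have h3 := hV.2 d h1 h2
    have e : (sys (range m) ρ).sl (fun c => θ c) σ T d = (thN m ρ θ d +
        ∑ c ∈ T.filter fun c => kn m σ T c d, thN m ρ θ c : ℕ) -
        (∑ c ∈ T.filter fun c => kp m σ T c d, thN m ρ θ c : ℕ) := by
      rw [Sys.sl, Sys.L_pt, hth]
      push_cast
      rw [sum_filter, sum_filter, add_sub_assoc, ← sum_sub_distrib, sub_eq_add_neg,
        ← sum_neg_distrib]
      refine congrArg _ (sum_congr rfl fun e he => ?_)
      rw [hth, hK m ρ h σ T hV.1 e he d h1]
      by_cases h4 : kp m σ T e d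
      · simp [h4, show ¬kn m σ T e d from fun h5 => h5.1 h4.1]
      · by_cases h5 : kn m σ T e d <;> simp [h4, h5]
    rw [e] at h3 ⊢
    rw [slN, Nat.cast_sub (by exact_mod_cast (sub_pos.1 h3).le)]
  obtain ⟨h1, h2⟩ := Sys.ent_spec (θ := fun c => θ c) hb
  have hm : mnN m ρ θ σ T c = {(sys (range m) ρ).ent (fun c => θ c) σ T c} := by
    ext d
    rw [mnN, hcd hV.1, mem_filter, mem_singleton]
    constructor
    · rintro ⟨a1, a2⟩
      refine (Sys.ent_eq (hAX _ _ h) hG hV hc a1 fun e he => ?_).symm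
      rw [← hsl d a1, ← hsl e he]
      exact_mod_cast a2 e he
    · rintro rfl
      refine ⟨h1, fun e he => ?_⟩
      have := h2 e he
      rw [Sys.len, ← hsl _ h1, ← hsl e he] at this
      exact_mod_cast this
  rw [nxN, lnN, hm, sum_singleton, hsl _ h1]
  exact ⟨(insert_eq _ _).symm, rfl⟩

end Pool.Agent.Lib.US.A80
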