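import Pool.Agent.Lib.US.PF80

/-! The set joined to the ground in polynomial time. -/

namespace Pool.Agent.Lib.US.A80

open Finset Pool.Agent.Lib.helper82 Pool.Agent.US.Tick72 PT
open Pool.Agent.Lib.MP_dec383_lc (UN)

namespace Z80
variable {α : Type} [Enc α] {m j i : α → ℕ} {σ : α → Cone} {c x y : α → Ix}

theorem ch_pf (hσ : PC σ) (hj : PT j) (hi : PT i) : PF fun a => ch (σ a) (j a) (i a) :=
  hσ.app (pair (add (const 3) hj) hi)

theorem rep_pt (hσ : PC σ) (hj : PT j) (hi : PT i) : PT fun a => rep (σ a) (j a) (i a) :=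
  ((ch_pf hσ hj hi).sdiff (ch_pf hσ hj (sub_pt hi (const 1)))).sInf.congr fun a => by
    simp only [rep, mem_sdiff]

theorem ends_pt (hσ : PC σ) (hc : PT c) : PT fun a => ends (σ a) (c a) := by
  have r := fun n : ℕ => pair (const n) (rep_pt hσ (const n) (snd hc))
  have r' := fun n : ℕ => pair (const n) (rep_pt hσ (const n) (succ (snd hc)))
  have q := fun n : ℕ => pair (const n) (snd hc)
  have e := fun n : ℕ => PB.eq (fst hc) (const n)
  unfold ends
  exact (e 0).ite (pair (const (5, 0)) (q 2)) ((e 1).ite (pair (q 2) (q 0)) ((e 2).ite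
    (pair (q 1) (q 2)) ((e 3).ite (pair (r' 0) (r 0)) (pair (r 1) (r' 1)))))

theorem UU_pf (hm : UN m) : PF fun a => UU (m a) :=
  ((PF.const (range 3)).prod (PF.range hm)).insert (const (5, 0))

theorem same_pb (hm : UN m) (hσ : PC σ) (hx : PT x) (hy : PT y) :
    PB fun a => same (m a) (σ a) (x a) (y a) := by
  have k := ch_pf (hσ.comp (fst' (β := ℕ))) (fst (PT.comp hx fst')) snd'
  exact (PB.eq (fst hx) (fst hy)).and ((PB.lt (fst hx) (const 2)).and
    ((PF.range (hm.add (UN.const 1))).all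
      (R := fun a i => (x a).2 ∈ ch (σ a) (x a).1 i ↔ (y a).2 ∈ ch (σ a) (x a).1 i)
      ((PF.mem (snd (PT.comp hx fst')) k).iff (PF.mem (snd (PT.comp hy fst')) k))))

theorem grow_pf {D s : α → Finset Ix} (hm : UN m) (hσ : PC σ) (hD : PF D) (hs : PF s) :
    PF fun a => grow (m a) (σ a) (D a) (s a) := by
  classical
  have p : PT fun q : (α × Ix) × Ix => q.1.1 := fst fst'
  have e : PT fun q : ((α × Ix) × Ix) × Ix => ends (σ q.1.1.1) q.2 :=
    ends_pt (hσ.comp (fst (fst fst'))) snd'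
  have k : PB fun q : (α × Ix) × Ix => q.1.2 = q.2 ∨ same (m q.1.1) (σ q.1.1) q.1.2 q.2 ∨
      ∃ d ∈ D q.1.1, ends (σ q.1.1) d = (q.1.2, q.2) ∨ ends (σ q.1.1) d = (q.2, q.1.2) :=
    (PB.eq (snd fst') snd').or ((same_pb (hm.comp p) (hσ.comp p) (snd fst') snd').or
      ((hD.comp p).any (R := fun (q : (α × Ix) × Ix) d =>
        ends (σ q.1.1) d = (q.1.2, q.2) ∨ ends (σ q.1.1) d = (q.2, q.1.2))
        ((PB.eq e (pair (snd (fst fst')) (snd fst'))).or
          (PB.eq e (pair (snd fst') (snd (fst fst')))))))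
  have k2 := (hs.comp (fst' (β := Ix))).any (R := fun (q : α × Ix) y => q.2 = y ∨
    same (m q.1) (σ q.1) q.2 y ∨
      ∃ d ∈ D q.1, ends (σ q.1) d = (q.2, y) ∨ ends (σ q.1) d = (y, q.2)) k
  unfold grow
  exact (UU_pf hm).filter k2

end Z80

open Z80 in
theorem pz80 : St_PZ := by
  classical
  intro α _ m σ hm hσ
  refine ⟨ends_pt (hσ.comp fst') snd', fun D hD => ?_⟩
  have h0 : PF fun a => fixd (m a) (σ a) := by
    unfold fixd
    exact (UU_pf hm).filter ((PB.eq (fst snd') (const 5)).or ((PB.lt (fst snd') (const 2)).and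
      (PF.mem (snd snd') (ch_pf (hσ.comp fst') (fst snd') (const 0)))))
  exact PF.iter (F := fun a => grow (m a) (σ a) (D a)) (UU_pf hm)
    (((UN.const 3).mul hm).add (UN.const 1)) h0 (fun _ _ => filter_subset _ _)
    (grow_pf (hm.comp fst') (hσ.comp fst') (hD.comp fst') (PF.ofL snd'))

end Pool.Agent.Lib.US.A80
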