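import Pool.Agent.Lib.US.Model

/-! The frame vectors of the model are signed indicators of the nodes cut off from the ground. -/

namespace Pool.Agent.Lib.US

open Finset

/-- an extensive map on the subsets of `U` is stationary after `U.card` steps -/
theorem iter_fix {α : Type} [DecidableEq α] (U : Finset α) (f : Finset α → Finset α)
    (h1 : ∀ s ⊆ U, s ⊆ f s ∧ f s ⊆ U) {s : Finset α} (hs : s ⊆ U) {n : ℕ} (hn : U.card ≤ n) :
    f (f^[n] s) = f^[n] s := by
  have key : ∀ i, f^[i] s ⊆ U ∧ (f (f^[i] s) = f^[i] s ∨ i ≤ (f^[i] s).card) := fun i => by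
    induction i with
    | zero => exact ⟨hs, Or.inr (Nat.zero_le _)⟩
    | succ i ih =>
      rw [Function.iterate_succ_apply']
      refine ⟨(h1 _ ih.1).2, ?_⟩
      by_cases h : f (f^[i] s) = f^[i] s
      · exact Or.inl (by rw [h, h])
      · have := card_lt_card (ssubset_of_subset_of_ne (h1 _ ih.1).1 (Ne.symm h))
        have := ih.2.resolve_left h
        exact Or.inr (by omega)
  obtain ⟨h2, h3 | h3⟩ := key n
  · exact h3
  · have h4 : f^[n] s = U := eq_of_subset_of_card_le h2 (hn.trans h3)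
    rw [h4]
    exact Subset.antisymm (h1 U Subset.rfl).2 (h1 U Subset.rfl).1

variable {E : Finset ℕ} {ρ : Finset ℕ → ℕ} {σ : ℕ × ℕ → Finset ℕ} {T : Finset (ℕ × ℕ)} {c : ℕ × ℕ}

/-- if `Z` is a union of levels that contains the fixed nodes, is closed along `T - c`, and the
frame vector vanishes on it, then the frame vector is a signed indicator of the complement -/
theorem yv_of_closed (h : (sys E ρ).IsB σ T) (hc : c ∈ T) (Z : ℕ × ℕ → Prop) [DecidablePred Z]
    (hz : ∀ x, Z x → (sys E ρ).yv σ T c x = 0)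
    (h1 : (fun x => if Z x then (0 : ℝ) else 1) ∈ span E σ)
    (h2 : ∀ d ∈ T, d ≠ c → (Z (ends σ d).1 ↔ Z (ends σ d).2)) :
    ¬(Z (ends σ c).1 ↔ Z (ends σ c).2) ∧ ∀ x, (sys E ρ).yv σ T c x =
      if Z x then 0 else if Z (ends σ c).1 then -1 else 1 := by
  have h3 := h.frame.span _ h1
  have h4 := h.frame.dual c hc c hc
  rw [if_pos rfl] at h4
  rw [sum_eq_single c (fun d hd hne => by
    have : (sys E ρ).L σ d (fun x => if Z x then (0 : ℝ) else 1) = 0 := by
      change cov σ d _ = 0
      rw [cov_apply, if_congr (h2 d hd hne) rfl rfl, sub_self]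
    rw [this, zero_smul]) (fun h => absurd hc h)] at h3
  change _ = cov σ c _ • _ at h3
  change cov σ c _ = _ at h4
  rw [cov_apply] at h3 h4
  have h5 : ¬(Z (ends σ c).1 ↔ Z (ends σ c).2) := fun h6 => by
    by_cases h7 : Z (ends σ c).1
    · rw [hz _ h7, hz _ (h6.1 h7)] at h4
      norm_num at h4
    · have := congrFun h3 (ends σ c).1
      rw [if_congr h6.symm rfl rfl, sub_self, zero_smul] at this
      simp [h7] at this
  refine ⟨h5, fun x => ?_⟩
  have h6 := congrFun h3 x
  by_cases h7 : Z x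
  · rw [if_pos h7, hz x h7]
  · rw [if_neg h7] at h6 ⊢
    by_cases h8 : Z (ends σ c).1
    · have h9 : ¬Z (ends σ c).2 := fun h => h5 (iff_of_true h8 h)
      rw [if_pos h8, if_neg h9, Pi.smul_apply, smul_eq_mul] at h6
      rw [if_pos h8]
      linarith
    · have h9 : Z (ends σ c).2 := by_contra fun h => h5 (iff_of_false h8 h)
      rw [if_neg h8, if_pos h9, Pi.smul_apply, smul_eq_mul] at h6
      rw [if_neg h8]
      linarith

/-- the frame vector is constant along the edges of `T - c` -/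
theorem yv_edge (h : (sys E ρ).IsB σ T) (hc : c ∈ T) {d : ℕ × ℕ} (hd : d ∈ T) (hne : d ≠ c) :
    (sys E ρ).yv σ T c (ends σ d).1 = (sys E ρ).yv σ T c (ends σ d).2 := by
  have h4 := h.frame.dual c hc d hd
  rw [if_neg hne] at h4
  change cov σ d _ = _ at h4
  rw [cov_apply] at h4
  linarith

theorem yv_span (h : (sys E ρ).IsB σ T) (hc : c ∈ T) : (sys E ρ).yv σ T c ∈ span E σ :=
  h.frame.mem c hc

end Pool.Agent.Lib.US
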