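import Pool.Agent.Lib.US.Model

/-! The greedy chain of flats. -/

namespace Pool.Agent.Lib.US

open Finset Pool.Agent.Lib.FL
open Pool.Agent.Lib.FL.H64 (IsRk cl Flat Cov)

section
variable (E : Finset ℕ) (r : Finset ℕ → ℕ) (κ : ℕ → ℝ)

/-- the elements that are not loops -/
def NL : Finset ℕ := E \ cl r E ∅

/-- the earlier elements -/
noncomputable def bef (e : ℕ) : Finset ℕ := (NL E r).filter fun f => κ f < κ e

noncomputable def lev (e : ℕ) : ℕ := r (insert e (bef E r κ e))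

noncomputable def seg (i : ℕ) : Finset ℕ := (NL E r).filter fun e => lev E r κ e ≤ i

/-- the greedy chain -/
noncomputable def grC (i : ℕ) : Finset ℕ := cl r E (seg E r κ i)

/-- the greedy basis -/
noncomputable def pins : Finset ℕ := (NL E r).filter fun e => r (bef E r κ e) < lev E r κ e

end

variable {E : Finset ℕ} {r : Finset ℕ → ℕ} {κ : ℕ → ℝ}

theorem NL_sub : NL E r ⊆ E := sdiff_subset

theorem seg_sub (i : ℕ) : seg E r κ i ⊆ E := (filter_subset _ _).trans NL_sub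

theorem rk_NL (h : IsRk r) : r (NL E r) = r E := by
  have h1 := h.union_span (A := NL E r) (cl r E ∅) fun e he =>
    h.ins_of_sub (empty_subset _) (H64.mem_cl.1 he).2
  rw [← h1, NL, sdiff_union_of_subset (H64.cl_subset _)]

theorem lev_le (h : IsRk r) {e : ℕ} (he : e ∈ NL E r) : lev E r κ e ≤ r E :=
  h.mono _ _ (insert_subset (NL_sub he) ((filter_subset _ _).trans NL_sub))

theorem rk_seg_le (h : IsRk r) (hκ : Set.InjOn κ (NL E r)) (i : ℕ) : r (seg E r κ i) ≤ i := by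
  rcases (seg E r κ i).eq_empty_or_nonempty with h0 | h0
  · rw [h0, h.empty]; exact Nat.zero_le _
  · obtain ⟨e, he, hm⟩ := exists_max_image _ κ h0
    refine (h.mono _ (insert e (bef E r κ e)) fun f hf => ?_).trans (mem_filter.1 he).2
    rcases (hm f hf).eq_or_lt with h1 | h1
    · rw [hκ (mem_filter.1 hf).1 (mem_filter.1 he).1 h1]; exact mem_insert_self _ _
    · exact mem_insert_of_mem (mem_filter.2 ⟨(mem_filter.1 hf).1, h1⟩)

theorem loop_mem (h : IsRk r) (i : ℕ) : cl r E ∅ ⊆ grC E r κ i :=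
  h.cl_min (h.flat_cl (seg_sub i)) (empty_subset _)

/-- the pin of level `i + 1` -/
theorem exists_pin (h : IsRk r) (hκ : Set.InjOn κ (NL E r)) {i : ℕ} (hi : i < r E) :
    r (seg E r κ i) = i ∧ ∃ e ∈ pins E r κ, lev E r κ e = i + 1 ∧ e ∈ grC E r κ (i + 1) ∧
      e ∉ grC E r κ i ∧ ∀ f ∈ NL E r, f ∉ seg E r κ i → κ e ≤ κ f := by
  have h1 := rk_seg_le h hκ i
  have h2 : (NL E r \ seg E r κ i).Nonempty := by
    rw [sdiff_nonempty]
    intro h3
    have := h.mono _ _ h3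
    rw [rk_NL h] at this
    omega
  obtain ⟨e, he, hm⟩ := exists_min_image _ κ h2
  obtain ⟨he1, he2⟩ := mem_sdiff.1 he
  have h3 : i < lev E r κ e := not_le.1 fun h3 => he2 (mem_filter.2 ⟨he1, h3⟩)
  have h4 : bef E r κ e ⊆ seg E r κ i := fun f hf => by_contra fun h4 =>
    absurd (hm f (mem_sdiff.2 ⟨(mem_filter.1 hf).1, h4⟩)) (not_le.2 (mem_filter.1 hf).2)
  have h5 := h.mono _ _ h4
  have h6 : lev E r κ e ≤ r (bef E r κ e) + 1 := h.ins _ _
  refine ⟨by omega, e, mem_filter.2 ⟨he1, by omega⟩, by omega,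
    H64.subset_cl (seg_sub _) (mem_filter.2 ⟨he1, by omega⟩), fun h7 => ?_,
    fun f hf hf' => hm f (mem_sdiff.2 ⟨hf, hf'⟩)⟩
  have h8 := (H64.mem_cl.1 h7).2
  have h9 : lev E r κ e ≤ r (insert e (seg E r κ i)) := h.mono _ _ (insert_subset_insert _ h4)
  omega

theorem seg_top (h : IsRk r) {i : ℕ} (hi : r E ≤ i) : seg E r κ i = NL E r :=
  filter_true_of_mem fun _ he => (lev_le h he).trans hi

theorem rk_grC (h : IsRk r) (hκ : Set.InjOn κ (NL E r)) {i : ℕ} (hi : i ≤ r E) :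
    r (grC E r κ i) = i := by
  rw [grC, h.rk_cl (seg_sub _)]
  rcases hi.eq_or_lt with h1 | h1
  · rw [seg_top h h1.ge, rk_NL h, h1]
  · exact (exists_pin h hκ h1).1

theorem grC_mono (h : IsRk r) {i j : ℕ} (hij : i ≤ j) : grC E r κ i ⊆ grC E r κ j :=
  h.cl_min (h.flat_cl (seg_sub j)) (fun _ he => H64.subset_cl (seg_sub _)
    (mem_filter.2 ⟨(mem_filter.1 he).1, (mem_filter.1 he).2.trans hij⟩))

theorem chain_grC (h : IsRk r) (hκ : Set.InjOn κ (NL E r)) : Chain E r (grC E r κ) where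
  bot := (h.cl_eq (h.flat_cl (seg_sub _)) (empty_subset _)
    ((rk_grC h hκ (Nat.zero_le _)).le.trans (Nat.zero_le _))).symm
  top := fun i hi => h.cl_eq H64.flat_top (seg_sub _) (by rw [seg_top h hi, rk_NL h])
  cov := fun i hi => ⟨h.flat_cl (seg_sub _), h.flat_cl (seg_sub _), grC_mono h (Nat.le_succ _),
    by rw [rk_grC h hκ hi, rk_grC h hκ hi.le]⟩

/-- every pin is the pin of its level -/
theorem pin_spec (h : IsRk r) (hκ : Set.InjOn κ (NL E r)) {e : ℕ} (he : e ∈ pins E r κ) :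
    ∃ i < r E, lev E r κ e = i + 1 ∧ e ∈ grC E r κ (i + 1) ∧ e ∉ grC E r κ i ∧
      (∀ f ∈ E, f ∉ grC E r κ i → f ≠ e → κ e < κ f) ∧
      ∀ f ∈ pins E r κ, lev E r κ f = i + 1 → f = e := by
  have key : ∀ i < r E, ∀ e ∈ pins E r κ, lev E r κ e = i + 1 →
      (∀ f ∈ NL E r, f ∉ seg E r κ i → κ e ≤ κ f) → ∀ f ∈ pins E r κ, lev E r κ f = i + 1 → f = e :=
    fun i _ e he h1 h2 f hf h3 => by
      obtain ⟨hf1, hf2⟩ := mem_filter.1 hf
      refine hκ hf1 (mem_filter.1 he).1 (le_antisymm (not_lt.1 fun h4 => ?_)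
        (h2 f hf1 fun h4 => by have := (mem_filter.1 h4).2; omega))
      have : lev E r κ e ≤ r (bef E r κ f) := h.mono _ _ (insert_subset
        (mem_filter.2 ⟨(mem_filter.1 he).1, h4⟩) fun g hg =>
          mem_filter.2 ⟨(mem_filter.1 hg).1, (mem_filter.1 hg).2.trans h4⟩)
      omega
  obtain ⟨he1, he2⟩ := mem_filter.1 he
  have h1 := lev_le (κ := κ) h he1
  obtain ⟨i, hi⟩ : ∃ i, lev E r κ e = i + 1 := ⟨lev E r κ e - 1, by omega⟩
  obtain ⟨-, e', h2, h3, h4, h5, h6⟩ := exists_pin h hκ (show i < r E by omega)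
  obtain rfl := key i (by omega) e' h2 h3 h6 e he hi
  refine ⟨i, by omega, hi, h4, h5, fun f hf h7 h8 => ?_, key i (by omega) e h2 h3 h6⟩
  have h9 : f ∈ NL E r := mem_sdiff.2 ⟨hf, fun h9 => h7 (loop_mem h i h9)⟩
  exact lt_of_le_of_ne (h6 f h9 fun h10 => h7 (H64.subset_cl (seg_sub _) h10))
    fun h10 => h8 (hκ h9 he1 h10.symm)

theorem card_pins (h : IsRk r) (hκ : Set.InjOn κ (NL E r)) : (pins E r κ).card = r E := by
  rw [← card_range (r E)]
  refine card_nbij (fun e => lev E r κ e - 1) (fun e he => ?_) (fun e he f hf hef => ?_)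
    fun i hi => ?_
  · obtain ⟨i, h1, h2, -⟩ := pin_spec h hκ he
    simp only [coe_range, Set.mem_Iio]
    omega
  · obtain ⟨i, -, h2, -, -, -, h3⟩ := pin_spec h hκ he
    obtain ⟨j, -, h4, -⟩ := pin_spec h hκ hf
    simp only at hef
    exact (h3 f hf (by omega)).symm
  · obtain ⟨-, e, h1, h2, -⟩ := exists_pin h hκ (mem_range.1 hi)
    exact ⟨e, h1, by simp only; omega⟩

end Pool.Agent.Lib.US
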