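import Pool.Agent.Lib.US.Tick72

/-! One step of the killed walk from integer weights and random bits. -/

namespace Pool.Agent.US.Tick72

open Finset Pool.Agent.Lib.helper82 Pool.Agent.Lib.MP_b67cc8_lc Pool.Agent.FL.Mix28

/-- weighted selection from a list; the default is taken beyond the total weight -/
def sel {τ : Type} (z : τ) : List (ℕ × τ) → ℕ → τ
  | [], _ => z
  | p :: L, y => if y < p.1 then p.2 else sel z L (y - p.1)

theorem sel_mem {τ : Type} (z : τ) : ∀ (L : List (ℕ × τ)) (y : ℕ),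
    sel z L y = z ∨ ∃ p ∈ L, 0 < p.1 ∧ sel z L y = p.2
  | [], _ => Or.inl rfl
  | p :: L, y => by
    unfold sel
    split_ifs with h
    · exact Or.inr ⟨p, List.mem_cons_self, by omega, rfl⟩
    · rcases sel_mem z L (y - p.1) with e | ⟨q, hq, e⟩
      · exact Or.inl e
      · exact Or.inr ⟨q, List.mem_cons_of_mem _ hq, e⟩

theorem sel_map {τ τ' : Type} (f : τ → τ') (z : τ) : ∀ (L : List (ℕ × τ)) (y : ℕ),
    f (sel z L y) = sel (f z) (L.map fun p => (p.1, f p.2)) y
  | [], _ => rfl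
  | p :: L, y => by
    simp only [sel, List.map_cons]
    split_ifs
    · rfl
    · exact sel_map f z L _

theorem sum_sel {τ : Type} (z : τ) (φ : τ → ℝ) : ∀ (L : List (ℕ × τ)) (B : ℕ),
    (L.map Prod.fst).sum ≤ B → ∑ y ∈ range B, φ (sel z L y) =
      (L.map fun p => (p.1 : ℝ) * φ p.2).sum + (B - ((L.map Prod.fst).sum : ℕ)) * φ z
  | [], B, _ => by simp [sel]
  | p :: L, B, h => by
    simp only [List.map_cons, List.sum_cons] at h ⊢
    obtain ⟨B', rfl⟩ := Nat.exists_eq_add_of_le (show p.1 ≤ B by omega)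
    rw [sum_range_add, sum_congr rfl fun y hy => show φ (sel z (p :: L) y) = φ p.2 by
        rw [sel, if_pos (mem_range.1 hy)],
      sum_congr rfl fun y _ => show φ (sel z (p :: L) (p.1 + y)) = φ (sel z L y) by
        rw [sel, if_neg (by omega), Nat.add_sub_cancel_left],
      sum_sel z φ L B' (by omega)]
    simp only [sum_const, card_range, nsmul_eq_mul]
    push_cast
    ring

theorem Ex_take {β b : ℕ} (h : β ≤ b) (F : ℕ → ℝ) :
    Ex b (fun x => F (ofB (x.take β))) = (∑ y ∈ range (2 ^ β), F y) / 2 ^ β := by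
  obtain ⟨c, rfl⟩ := Nat.exists_eq_add_of_le h
  rw [Ex_append, ← Ex_ofB]
  refine Ex_congr fun x hx => ?_
  rw [← Ex_const c (F (ofB x))]
  exact Ex_congr fun y _ => by rw [List.take_left' hx]

/-- selection with as many bits as the total weight has -/
def pick {τ : Type} (z : τ) (L : List (ℕ × τ)) (x : List Bool) : τ :=
  sel z L (ofB (x.take (L.map Prod.fst).sum.size))

theorem Ex_pick {τ : Type} (z : τ) (L : List (ℕ × τ)) {b : ℕ}
    (h : (L.map Prod.fst).sum.size ≤ b) (φ : τ → ℝ) :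
    (2 : ℝ) ^ (L.map Prod.fst).sum.size * Ex b (fun x => φ (pick z L x)) =
      (L.map fun p => (p.1 : ℝ) * φ p.2).sum +
        (2 ^ (L.map Prod.fst).sum.size - ((L.map Prod.fst).sum : ℕ)) * φ z := by
  unfold pick
  rw [Ex_take h fun y => φ (sel z L y), mul_div_cancel₀ _ (by positivity),
    sum_sel z φ L _ (Nat.lt_size_self _).le]
  push_cast
  rfl

theorem two_pow_size_le {n : ℕ} (h : 0 < n) : 2 ^ n.size ≤ 2 * n := by
  have a := Nat.size_pos.2 h
  obtain ⟨k, hk⟩ := Nat.exists_eq_succ_of_ne_zero a.ne'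
  have := (Nat.lt_size (m := k) (n := n)).1 (by omega)
  rw [hk, pow_succ]
  omega

variable {σ δ : Type} [DecidableEq σ]

/-- total weight at a vertex -/
def tot (D : Finset δ) (tl : δ → σ) (C : δ → ℕ) (W : σ → ℕ) (v : σ) : ℕ :=
  W v + ∑ d ∈ D.filter (tl · = v), C d

/-- the step built from a list of the darts at each vertex -/
def stepL (hd : δ → σ) (C : δ → ℕ) (W : σ → ℕ) (ds : σ → List δ) (v : σ) (x : List Bool) :
    σ × Bool :=
  pick (v, false) ((W v, (v, true)) :: (ds v).map fun d => (C d, (hd d, false))) x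

variable {Ω : Finset σ} {D : Finset δ} {tl hd : δ → σ} {rv : δ → δ} {C : δ → ℕ} {W : σ → ℕ}
  {ds : σ → List δ}

theorem sum_ds {M : Type} [AddCommMonoid M] {v : σ} (h1 : (ds v).Nodup)
    (h2 : ∀ d, d ∈ ds v ↔ d ∈ D ∧ tl d = v) (F : δ → M) :
    ((ds v).map F).sum = ∑ d ∈ D.filter (tl · = v), F d := by
  classical
  rw [← List.sum_toFinset _ h1]
  exact sum_congr (by ext d; simp [h2]) fun _ _ => rfl

theorem law_stepL (h1 : ∀ v ∈ Ω, (ds v).Nodup)
    (h2 : ∀ v ∈ Ω, ∀ d, d ∈ ds v ↔ d ∈ D ∧ tl d = v) {b : ℕ}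
    (hb : ∀ v ∈ Ω, (tot D tl C W v).size ≤ b) :
    Law Ω D tl hd (fun d => C d) (fun v => W v) (fun v => 2 ^ (tot D tl C W v).size) b
      (stepL hd C W ds) := by
  intro v hv φ
  have e : ((((W v, (v, true)) :: (ds v).map fun d => (C d, (hd d, false))).map
      Prod.fst).sum : ℕ) = tot D tl C W v := by
    simp only [List.map_cons, List.sum_cons, List.map_map, tot]
    rw [← sum_ds (h1 v hv) (h2 v hv)]
    rfl
  have := Ex_pick (v, false) ((W v, (v, true)) :: (ds v).map fun d => (C d, (hd d, false)))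
    (b := b) (e ▸ hb v hv) φ
  rw [e] at this
  refine this.trans ?_
  simp only [List.map_cons, List.sum_cons, List.map_map, tot]
  rw [← sum_ds (h1 v hv) (h2 v hv) fun d => (C d : ℝ) * φ (hd d, false)]
  push_cast
  rw [sub_sub]
  rfl

theorem net_tot (h1 : ∀ d ∈ D, tl d ∈ Ω) (h2 : ∀ d ∈ D, rv d ∈ D) (h3 : ∀ d ∈ D, rv (rv d) = d)
    (h4 : ∀ d ∈ D, tl (rv d) = hd d) (h5 : ∀ d ∈ D, C (rv d) = C d) :
    Net Ω D tl hd rv (fun d => C d) (fun v => W v) fun v => 2 ^ (tot D tl C W v).size where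
  tl_mem := h1
  rv_mem := h2
  rv_rv := h3
  tl_rv := h4
  C_rv d h := by rw [h5 d h]
  C_nn _ _ := Nat.cast_nonneg _
  W_nn _ _ := Nat.cast_nonneg _
  B_pos _ _ := by positivity
  B_ge v _ := by
    have := (Nat.lt_size_self (tot D tl C W v)).le
    unfold tot at this ⊢
    exact_mod_cast this

theorem sum_B_le (h1 : ∀ d ∈ D, tl d ∈ Ω) (h0 : ∀ v ∈ Ω, 0 < tot D tl C W v) :
    ∑ v ∈ Ω, (2 : ℝ) ^ (tot D tl C W v).size ≤
      2 * (∑ v ∈ Ω, (W v : ℝ) + ∑ d ∈ D, (C d : ℝ)) := by
  rw [← sum_fiberwise_of_maps_to (g := tl) h1, ← sum_add_distrib, mul_sum]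
  refine sum_le_sum fun v hv => ?_
  have := two_pow_size_le (h0 v hv)
  unfold tot at this ⊢
  exact_mod_cast this

omit [DecidableEq σ] in
theorem stepL_cases (v : σ) (x : List Bool) : stepL hd C W ds v x = (v, false) ∨
    (0 < W v ∧ stepL hd C W ds v x = (v, true)) ∨
      ∃ d ∈ ds v, stepL hd C W ds v x = (hd d, false) := by
  unfold stepL pick
  rcases sel_mem (v, false) ((W v, (v, true)) :: (ds v).map fun d => (C d, (hd d, false))) _ with
    e | ⟨p, hp, p0, e⟩
  · exact Or.inl e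
  · rcases List.mem_cons.1 hp with rfl | hp
    · exact Or.inr (Or.inl ⟨p0, e⟩)
    · obtain ⟨d, hd', rfl⟩ := List.mem_map.1 hp
      exact Or.inr (Or.inr ⟨d, hd', e⟩)

omit [DecidableEq σ] in
/-- simulation of a tick by a coded walk -/
theorem tick_sim {σ' : Type} (f : σ' → σ) (Q : σ' → Prop) {st : σ → List Bool → σ × Bool}
    {st' : σ' → List Bool → σ' × Bool}
    (h : ∀ v, Q v → ∀ x, Q (st' v x).1 ∧ (f (st' v x).1, (st' v x).2) = st (f v) x) (b T : ℕ)
    {s : σ'} (hs : Q s) (x : List Bool) :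
    Q (tick b st' T s x) ∧ f (tick b st' T s x) = tick b st T (f s) x := by
  have key : ∀ (t : ℕ) (p : σ' × Bool) (r : List Bool), Q p.1 → Q (rit b (tk st') t p r).1 ∧
      (f (rit b (tk st') t p r).1, (rit b (tk st') t p r).2) = rit b (tk st) t (f p.1, p.2) r := by
    intro t
    induction t with
    | zero => intro p r hp; exact ⟨hp, rfl⟩
    | succ t ih =>
      intro p r hp
      have a : Q (tk st' p (r.take b)).1 ∧ (f (tk st' p (r.take b)).1, (tk st' p (r.take b)).2) =
          tk st (f p.1, p.2) (r.take b) := by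
        unfold tk
        split_ifs
        · exact ⟨hp, rfl⟩
        · exact h _ hp _
      have := ih _ (r.drop b) a.1
      rw [a.2] at this
      exact this
  have k := key T (s, false) x hs
  unfold tick
  rw [← k.2]
  split_ifs
  · exact ⟨k.1, rfl⟩
  · exact ⟨hs, rfl⟩

omit [DecidableEq σ] in
/-- simulation of a trajectory by a coded walk -/
theorem traj_sim {σ' : Type} (f : σ' → σ) (Q : σ' → Prop) {st : ℕ → σ → List Bool → σ × Bool}
    {st' : ℕ → σ' → List Bool → σ' × Bool}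
    (h : ∀ t v, Q v → ∀ x, Q (st' t v x).1 ∧ (f (st' t v x).1, (st' t v x).2) = st t (f v) x)
    (b T : ℕ) {s : σ'} (hs : Q s) (j : ℕ) (x : List Bool) :
    Q (traj b st' T s j x) ∧ f (traj b st' T s j x) = traj b st T (f s) j x := by
  have key : ∀ (t : ℕ) (p : ℕ × σ') (r : List Bool), Q p.2 →
      Q (rit (b * T) (stage b st' T) t p r).2 ∧ f (rit (b * T) (stage b st' T) t p r).2 =
        (rit (b * T) (stage b st T) t (p.1, f p.2) r).2 := by
    intro t
    induction t with
    | zero => intro p r hp; exact ⟨hp, rfl⟩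
    | succ t ih =>
      intro p r hp
      have a := tick_sim f Q (h (p.1 + 1)) b T hp (r.take (b * T))
      have := ih (stage b st' T p (r.take (b * T))) (r.drop (b * T)) a.1
      simp only [stage] at this
      rw [a.2] at this
      exact this
  exact key j (0, s) x hs

end Pool.Agent.US.Tick72
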