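import Pool.Agent.Lib.US.Blue
import Pool.Agent.Lib.FL.Mat64
import Pool.Agent.Lib.FL.Rk5

/-! The model: product of the Bergman fans of a matroid and of its dual with a free factor.
Coordinates `(0, e)`, `(1, e)`, `(2, e)` are `a e`, `b e`, `s e`. Constraints `(0, e)`: `- s e`,
`(1, e)`: `s e - a e`, `(2, e)`: `b e - s e`. Walls `(3, i)`, `(4, j)`. -/

namespace Pool.Agent.Lib.US

open Finset Pool.Agent.Lib.FL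
open Pool.Agent.Lib.FL.H64 (IsRk cl Flat Cov)

/-- maximal chains of flats, constant from the rank on -/
structure Chain (E : Finset ℕ) (ρ : Finset ℕ → ℕ) (C : ℕ → Finset ℕ) : Prop where
  bot : C 0 = cl ρ E ∅
  top : ∀ i, ρ E ≤ i → C i = E
  cov : ∀ i < ρ E, Cov ρ E (C i) (C (i + 1))

/-- the rank functions of the two sides -/
def rs (E : Finset ℕ) (ρ : Finset ℕ → ℕ) (j : ℕ) : Finset ℕ → ℕ := if j = 0 then ρ else H64.dual ρ E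

/-- the chain of side `j` -/
def ch (σ : ℕ × ℕ → Finset ℕ) (j i : ℕ) : Finset ℕ := σ (3 + j, i)

structure IsCone (E : Finset ℕ) (ρ : Finset ℕ → ℕ) (σ : ℕ × ℕ → Finset ℕ) : Prop where
  chain : ∀ j < 2, Chain E (rs E ρ j) (ch σ j)
  junk : ∀ t i, t ≠ 3 → t ≠ 4 → σ (t, i) = ∅

theorem Chain.sub {E : Finset ℕ} {ρ : Finset ℕ → ℕ} {C : ℕ → Finset ℕ} (h : Chain E ρ C) (i : ℕ) :
    C i ⊆ E := by
  rcases lt_or_ge i (ρ E) with hi | hi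
  · exact (h.cov i hi).1.1
  · rw [h.top i hi]

theorem finite_cone (E : Finset ℕ) (ρ : Finset ℕ → ℕ) : {σ | IsCone E ρ σ}.Finite := by
  refine Set.Finite.of_finite_image (f := fun σ => fun p : Fin 2 × Fin (ρ E + rs E ρ 1 E) =>
    σ (3 + p.1, p.2)) ((Set.Finite.pi' fun _ => E.powerset.finite_toSet).subset ?_) ?_
  · rintro _ ⟨σ, hσ, rfl⟩ p
    exact mem_coe.2 (mem_powerset.2 ((hσ.chain p.1 p.1.2).sub p.2))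
  · intro σ hσ τ hτ h
    funext ⟨t, i⟩
    by_cases ht : t = 3 ∨ t = 4
    · obtain ⟨j, hj, rfl⟩ : ∃ j < 2, t = 3 + j := ⟨t - 3, by omega, by omega⟩
      by_cases hi : i < ρ E + rs E ρ 1 E
      · exact congrFun h (⟨j, hj⟩, ⟨i, hi⟩)
      · have : rs E ρ j E ≤ i := by
          interval_cases j
          · simp only [rs, if_true]; omega
          · omega
        exact ((hσ.chain j hj).top i this).trans ((hτ.chain j hj).top i this).symm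
    · rw [hσ.junk t i (by omega) (by omega), hτ.junk t i (by omega) (by omega)]

/-- the span of a cone -/
def span (E : Finset ℕ) (σ : ℕ × ℕ → Finset ℕ) : Submodule ℝ (ℕ × ℕ → ℝ) where
  carrier := {v | (∀ j < 2, ∀ i, ∀ e ∈ ch σ j (i + 1) \ ch σ j i, ∀ f ∈ ch σ j (i + 1) \ ch σ j i,
      v (j, e) = v (j, f)) ∧ (∀ j < 2, ∀ e, e ∉ E \ ch σ j 0 → v (j, e) = 0) ∧
    (∀ e, e ∉ E → v (2, e) = 0) ∧ ∀ t e, 3 ≤ t → v (t, e) = 0}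
  add_mem' := fun {a b} ha hb => ⟨fun j hj i e he f hf => by
      simp only [Pi.add_apply, ha.1 j hj i e he f hf, hb.1 j hj i e he f hf],
    fun j hj e he => by simp only [Pi.add_apply, ha.2.1 j hj e he, hb.2.1 j hj e he, add_zero],
    fun e he => by simp only [Pi.add_apply, ha.2.2.1 e he, hb.2.2.1 e he, add_zero],
    fun t e h => by simp only [Pi.add_apply, ha.2.2.2 t e h, hb.2.2.2 t e h, add_zero]⟩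
  zero_mem' := ⟨fun _ _ _ _ _ _ _ => rfl, fun _ _ _ _ => rfl, fun _ _ => rfl, fun _ _ _ => rfl⟩
  smul_mem' := fun r a ha => ⟨fun j hj i e he f hf => by
      simp only [Pi.smul_apply, ha.1 j hj i e he f hf],
    fun j hj e he => by simp only [Pi.smul_apply, ha.2.1 j hj e he, smul_zero],
    fun e he => by simp only [Pi.smul_apply, ha.2.2.1 e he, smul_zero],
    fun t e h => by simp only [Pi.smul_apply, ha.2.2.2 t e h, smul_zero]⟩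

/-- the least element of level `i` (the level between the flats `i - 1` and `i`) -/
noncomputable def rep (σ : ℕ × ℕ → Finset ℕ) (j i : ℕ) : ℕ :=
  sInf {e | e ∈ ch σ j i ∧ e ∉ ch σ j (i - 1)}

/-- the two coordinates whose difference is the condition; `(5, 0)` is the ground -/
noncomputable def ends (σ : ℕ × ℕ → Finset ℕ) (c : ℕ × ℕ) : (ℕ × ℕ) × (ℕ × ℕ) :=
  if c.1 = 0 then ((5, 0), (2, c.2)) else if c.1 = 1 then ((2, c.2), (0, c.2))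
  else if c.1 = 2 then ((1, c.2), (2, c.2))
  else if c.1 = 3 then ((0, rep σ 0 (c.2 + 1)), (0, rep σ 0 c.2))
  else ((1, rep σ 1 c.2), (1, rep σ 1 (c.2 + 1)))

noncomputable def cov (σ : ℕ × ℕ → Finset ℕ) (c : ℕ × ℕ) : (ℕ × ℕ → ℝ) →ₗ[ℝ] ℝ :=
  LinearMap.proj (R := ℝ) (φ := fun _ : ℕ × ℕ => ℝ) (ends σ c).1 -
    LinearMap.proj (R := ℝ) (φ := fun _ : ℕ × ℕ => ℝ) (ends σ c).2

/-- the ray of the flat at a wall -/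
def ray (σ : ℕ × ℕ → Finset ℕ) (k : ℕ × ℕ) (x : ℕ × ℕ) : ℝ :=
  if x.1 + 3 = k.1 ∧ x.2 ∈ σ k ∧ x.2 ∉ σ (k.1, 0) then (if k.1 = 3 then 1 else -1) else 0

def walls (E : Finset ℕ) (ρ : Finset ℕ → ℕ) : Finset (ℕ × ℕ) :=
  ({3} ×ˢ Ico 1 (rs E ρ 0 E)) ∪ ({4} ×ˢ Ico 1 (rs E ρ 1 E))

def cons (E : Finset ℕ) (ρ : Finset ℕ → ℕ) : Finset (ℕ × ℕ) :=
  ({0} ×ˢ E) ∪ ({1} ×ˢ (E \ cl (rs E ρ 0) E ∅)) ∪ ({2} ×ˢ (E \ cl (rs E ρ 1) E ∅))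

/-- the concave function of a flat -/
def gf (E : Finset ℕ) (σ : ℕ × ℕ → Finset ℕ) (k : ℕ × ℕ) : ℝ :=
  (((σ k).card : ℝ) - (σ (k.1, 0)).card) * ((E.card : ℝ) - (σ k).card)

/-- the system of a matroid -/
noncomputable def sys (E : Finset ℕ) (ρ : Finset ℕ → ℕ) :
    Sys (ℕ × ℕ) (Finset ℕ) (ℕ × ℕ → ℝ) where
  Kw := walls E ρ
  Cc := cons E ρ
  Ch := (finite_cone E ρ).toFinset
  Vs := span E
  L := cov
  u := ray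
  bt := fun σ => ∑ k ∈ walls E ρ, (-gf E σ k) • cov σ k
  B := (2 * E.card + 2) ^ 3

theorem mem_Ch {E : Finset ℕ} {ρ : Finset ℕ → ℕ} {σ : ℕ × ℕ → Finset ℕ} :
    σ ∈ (sys E ρ).Ch ↔ IsCone E ρ σ := Set.Finite.mem_toFinset _

theorem cov_apply (σ : ℕ × ℕ → Finset ℕ) (c : ℕ × ℕ) (v : ℕ × ℕ → ℝ) :
    cov σ c v = v (ends σ c).1 - v (ends σ c).2 := rfl

/-- costs that depend on the kind of the constraint only -/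
def cst (A0 A1 A2 : ℝ) (c : ℕ × ℕ) : ℝ := if c.1 = 0 then A0 else if c.1 = 1 then A1 else A2

/-- axioms about one wall, and the lineality space -/
def St_AX1 : Prop := ∀ E ρ, IsRk ρ → let S := sys E ρ
  Disjoint S.Kw S.Cc ∧ (∀ σ τ, ∀ c ∈ S.Cc, S.L σ c = S.L τ c) ∧
  (∀ k ∈ S.Kw, ∀ l ∈ S.Kw, ∀ σ ∈ S.Ch, ∀ τ ∈ S.Nb2 k l σ, ∀ v ∈ S.Vs σ, S.L σ k v = 0 →
    S.L σ l v = 0 → v ∈ S.Vs τ ∧ (∀ j ∈ S.Kw, S.L τ j v = S.L σ j v) ∧ S.bt τ v = S.bt σ v) ∧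
  (∀ σ ∈ S.Ch, ∀ k ∈ S.Kw,
    S.u σ k ∈ S.Vs σ ∧ ∀ l ∈ S.Kw, S.L σ l (S.u σ k) = if l = k then -1 else 0) ∧
  (∀ σ ∈ S.Ch, ∀ v ∈ S.Vs σ, (∀ c ∈ S.Cc, S.L σ c v = 0) → v = 0) ∧
  (S.Cn.card : ℝ) ≤ S.B ∧ (∀ σ ∈ S.Ch, ∀ k l, ((S.Nb2 k l σ).card : ℝ) ≤ S.B) ∧
  ∀ A0 A1 A2 : ℝ, 0 < A0 → 0 < A1 → 0 < A2 → S.Cost (fun _ => 0) (cst A0 A1 A2)

/-- unimodularity -/
def St_TU : Prop := ∀ E ρ, IsRk ρ → let S := sys E ρ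
  ∀ σ T, S.IsB σ T → ∀ c ∈ T, ((∀ x, S.yv σ T c x = 0 ∨ S.yv σ T c x = 1) ∨
      ∀ x, S.yv σ T c x = 0 ∨ S.yv σ T c x = -1) ∧ (∀ d, S.L σ d (S.yv σ T c) = 0 ∨
    S.L σ d (S.yv σ T c) = 1 ∨ S.L σ d (S.yv σ T c) = -1) ∧ |S.bt σ (S.yv σ T c)| ≤ S.B

/-- balancing at a wall -/
def St_BAL : Prop := ∀ E ρ, IsRk ρ → let S := sys E ρ
  ∀ σ ∈ S.Ch, ∀ k ∈ S.Kw, S.w σ k ∈ S.Vs σ ∧
    (∀ l ∈ S.Kw, S.L σ l (S.w σ k) = if l = (k.1, k.2 + 1) then -1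
      else if l = (k.1, k.2 - 1) then 1 - ((S.Nb k σ).card : ℝ) else 0) ∧
    S.mm σ k = (((σ (k.1, k.2 + 1)).card : ℝ) - (σ (k.1, k.2 - 1)).card) ^ 2 -
      ∑ τ ∈ S.Nb k σ, (((τ k).card : ℝ) - (σ (k.1, k.2 - 1)).card) ^ 2 ∧
    1 ≤ S.nu σ k ∧ S.nu σ k ≤ S.B

/-- the two axioms in codimension two, for a pair of walls -/
def Cod2 (S : Sys (ℕ × ℕ) (Finset ℕ) (ℕ × ℕ → ℝ)) (σ : ℕ × ℕ → Finset ℕ) (k l : ℕ × ℕ) : Prop :=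
  (∀ t s : (ℕ × ℕ → Finset ℕ) → ℝ,
    (∀ τ ∈ S.Nb2 k l σ, ∀ τ' ∈ S.Nb l τ, t τ' = t τ) →
    (∀ τ ∈ S.Nb2 k l σ, ∀ τ' ∈ S.Nb k τ, s τ' = s τ) →
    ∑ τ ∈ S.Nb2 k l σ, (S.nu τ l * t τ + S.nu τ k * s τ) = 0 →
    ∑ τ ∈ S.Nb2 k l σ, (2 * t τ * s τ + S.L τ k (S.w τ l) / (S.Nb l τ).card * t τ ^ 2 +
      S.L τ l (S.w τ k) / (S.Nb k τ).card * s τ ^ 2) ≤ 0) ∧
  S.w2 σ k l ∈ S.Vs σ ∧ S.L σ k (S.w2 σ k l) = 0 ∧ S.L σ l (S.w2 σ k l) = 0 ∧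
    1 ≤ ∑ τ ∈ S.Nb2 k l σ, (S.nu τ l * S.bt τ (S.u τ k) + S.nu τ k * S.bt τ (S.u τ l)) -
      S.bt σ (S.w2 σ k l)

/-- two walls that are not adjacent: the link is a complete bipartite graph -/
def St_FAR : Prop := ∀ E ρ, IsRk ρ → ∀ σ ∈ (sys E ρ).Ch, ∀ k ∈ (sys E ρ).Kw, ∀ l ∈ (sys E ρ).Kw,
  k ≠ l → l ≠ (k.1, k.2 + 1) → k ≠ (l.1, l.2 + 1) → Cod2 (sys E ρ) σ k l

/-- adjacent walls: an interval of rank three -/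
def St_ADJ : Prop := ∀ E ρ, IsRk ρ → ∀ σ ∈ (sys E ρ).Ch, ∀ k ∈ (sys E ρ).Kw,
  (k.1, k.2 + 1) ∈ (sys E ρ).Kw → Cod2 (sys E ρ) σ k (k.1, k.2 + 1)

def St_AX : Prop := ∀ E ρ, IsRk ρ → (sys E ρ).Ax

/-- at most one terminal has all constraints of kind `0` tight; the networks are connected -/
def St_UNQ : Prop := ∀ E ρ, IsRk ρ → ∀ θ, ∀ v ∈ (sys E ρ).Tm θ, ∀ v' ∈ (sys E ρ).Tm θ,
  (∀ e ∈ E, (0, e) ∈ v.2) → (∀ e ∈ E, (0, e) ∈ v'.2) → v = v'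

def St_CON : Prop := ∀ E ρ, IsRk ρ → ∀ θ, (sys E ρ).Gen θ → (sys E ρ).Conn θ

/-- one step of the recursion -/
def St_DC : Prop := ∀ E ρ, IsRk ρ → ∀ e ∈ E, ∀ A0 A1 A2 : ℝ, 0 < A0 → 0 < A1 → 0 < A2 →
  ∀ θ, (sys E ρ).SGen θ → (sys (E.erase e) ρ).SGen θ → (sys (E.erase e) (H64.con ρ e)).SGen θ →
    (sys E ρ).Zs θ (cst A0 A1 A2) =
      if ρ {e} = 0 then A2⁻¹ * A0⁻¹ * (sys (E.erase e) ρ).Zs θ (cst A0 A1 A2)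
      else if ρ (E.erase e) < ρ E then A0⁻¹ * A1⁻¹ * (sys (E.erase e) ρ).Zs θ (cst A0 A1 A2)
      else A2⁻¹ * (A0⁻¹ + A1⁻¹) * (sys (E.erase e) ρ).Zs θ (cst A0 A1 A2) +
        A2⁻¹ * A1⁻¹ * (sys (E.erase e) (H64.con ρ e)).Zs θ (cst A0 A1 A2)

/-- the partition function is the Tutte polynomial -/
def St_REC : Prop := ∀ E ρ, IsRk ρ → ∀ A0 A1 A2 : ℚ, 0 < A0 → 0 < A1 → 0 < A2 →
  ∀ θ, (sys E ρ).SGen θ → (sys E ρ).Zs θ (cst A0 A1 A2) =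
    ((A2⁻¹ ^ E.card * A1⁻¹ ^ ρ E * (A0⁻¹ + A1⁻¹) ^ (E.card - ρ E) *
      H5.tut E ρ (A2 / A0) (A1 / (A0 + A1)) : ℚ) : ℝ)

end Pool.Agent.Lib.US
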