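import Pool.Agent.Lib.US.A80

/-! Polynomial time predicates and finite sets. -/

namespace Pool.Agent.Lib.US.A80

open Finset Pool.Agent.Lib.helper82 Pool.Agent.US.Tick72
open Pool.Agent.Lib.FL.H64 (cl)
open Pool.Agent.Lib.MP_dec383_lc (UN)

variable {α β γ δ : Type} [Enc α] [Enc β] [Enc γ] [Enc δ]

/-- a predicate decided in polynomial time -/
def PB (P : α → Prop) : Prop := ∃ b : α → Bool, PT b ∧ ∀ a, b a = true ↔ P a

namespace PB
variable {P Q : α → Prop}

theorem dec (h : PB P) [DecidablePred P] : PT fun a => decide (P a) := by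
  obtain ⟨b, h1, h2⟩ := h
  exact h1.congr fun a => by rw [Bool.eq_iff_iff, h2, decide_eq_true_eq]

theorem of_dec [DecidablePred P] (h : PT fun a => decide (P a)) : PB P :=
  ⟨_, h, fun _ => decide_eq_true_iff⟩

theorem congr (h : PB P) (e : ∀ a, P a ↔ Q a) : PB Q := by
  obtain ⟨b, h1, h2⟩ := h
  exact ⟨b, h1, fun a => (h2 a).trans (e a)⟩

theorem comp (h : PB P) {g : β → α} (hg : PT g) : PB fun z => P (g z) := by
  obtain ⟨b, h1, h2⟩ := h
  exact ⟨_, PT.comp h1 hg, fun a => h2 _⟩

theorem and (h : PB P) (h' : PB Q) : PB fun a => P a ∧ Q a := by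
  obtain ⟨b, h1, h2⟩ := h
  obtain ⟨c, h3, h4⟩ := h'
  exact ⟨_, PT.and h1 h3, fun a => by rw [Bool.and_eq_true, h2, h4]⟩

theorem not (h : PB P) : PB fun a => ¬P a := by
  obtain ⟨b, h1, h2⟩ := h
  exact ⟨_, PT.not h1, fun a => by simp [← h2]⟩

theorem or (h : PB P) (h' : PB Q) : PB fun a => P a ∨ Q a :=
  (h.not.and h'.not).not.congr fun _ => by tauto

theorem imp (h : PB P) (h' : PB Q) : PB fun a => P a → Q a :=
  (h.not.or h').congr fun _ => by tauto

theorem iff (h : PB P) (h' : PB Q) : PB fun a => P a ↔ Q a :=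
  ((h.imp h').and (h'.imp h)).congr fun _ => by tauto

theorem eq {f g : α → β} (hf : PT f) (hg : PT g) : PB fun a => f a = g a := by
  classical exact of_dec (PT.eq hf hg)

theorem le {f g : α → ℕ} (hf : PT f) (hg : PT g) : PB fun a => f a ≤ g a := of_dec (PT.le hf hg)

theorem lt {f g : α → ℕ} (hf : PT f) (hg : PT g) : PB fun a => f a < g a := of_dec (PT.lt hf hg)

theorem ite (h : PB P) [DecidablePred P] {f g : α → β} (hf : PT f) (hg : PT g) :
    PT fun a => if P a then f a else g a := PT.ite h.dec hf hg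

theorem iteP (h : PB P) [DecidablePred P] {R : α → Prop} (h1 : PB Q) (h2 : PB R) :
    PB fun a => if P a then Q a else R a :=
  ((h.and h1).or (h.not.and h2)).congr fun a => by by_cases e : P a <;> simp [e]

theorem memL [Inhabited β] {x : α → β} {l : α → List β} (hx : PT x) (hl : PT l) :
    PB fun a => x a ∈ l a := by
  classical exact of_dec (PT.mem hx hl)

/-- filter of a list by a predicate -/
theorem filterL [Inhabited β] {l : α → List β} {R : α → β → Prop} [∀ a b, Decidable (R a b)]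
    (hl : PT l) (h : PB fun p : α × β => R p.1 p.2) :
    PT fun a => (l a).filter fun b => decide (R a b) :=
  PT.filter (P := fun a b => decide (R a b)) hl h.dec

end PB

theorem prd_pt [Inhabited β] [Inhabited γ] {A : α → List β} {B : α → List γ} (hA : PT A)
    (hB : PT B) : PT fun a => prd (A a) (B a) :=
  PT.flatMap (F := fun a b => (B a).map fun c => (b, c)) hA
    (PT.map (F := fun (p : α × β) c => (p.2, c)) (PT.comp hB PT.fst')
      (PT.pair (PT.snd PT.fst') PT.snd'))

theorem mem_prd {β γ : Type} {A : List β} {B : List γ} {p : β × γ} :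
    p ∈ prd A B ↔ p.1 ∈ A ∧ p.2 ∈ B := by
  obtain ⟨x, y⟩ := p
  simp [prd]

theorem CL_pt {m : α → ℕ} (hm : UN m) : PT fun a => CL (m a) := prd_pt (PT.const _) hm.range

namespace PF
variable [DecidableEq β] [DecidableEq γ] [Inhabited β] [Inhabited γ] {A B : α → Finset β}

omit [Inhabited β] in
theorem ofL {l : α → List β} (h : PT l) : PF fun a => (l a).toFinset := ⟨l, h, fun _ => rfl⟩

omit [Inhabited β] in
theorem congr (h : PF A) (e : ∀ a, A a = B a) : PF B := (funext e : A = B) ▸ h

omit [Inhabited β] in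
theorem comp (h : PF A) {g : δ → α} (hg : PT g) : PF fun z => A (g z) := by
  obtain ⟨l, h1, h2⟩ := h
  exact ⟨_, PT.comp h1 hg, fun a => h2 _⟩

omit [Inhabited β] in
theorem const (s : Finset β) : PF fun _ : α => s := ⟨_, PT.const s.toList, fun _ => s.toList_toFinset⟩

theorem range {m : α → ℕ} (h : UN m) : PF fun a => range (m a) :=
  ⟨_, h.range, fun _ => List.toFinset_range _⟩

theorem mem {x : α → β} (hx : PT x) (h : PF A) : PB fun a => x a ∈ A a := by
  obtain ⟨l, h1, h2⟩ := h
  exact (PB.memL hx h1).congr fun a => by rw [← h2, List.mem_toFinset]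

theorem filter {R : α → β → Prop} [∀ a b, Decidable (R a b)] (h : PF A)
    (hR : PB fun p : α × β => R p.1 p.2) : PF fun a => (A a).filter (R a) := by
  obtain ⟨l, h1, h2⟩ := h
  exact ⟨_, PB.filterL h1 hR, fun a => by ext; simp [← h2]⟩

omit [Inhabited β] in
theorem insert {x : α → β} (hx : PT x) (h : PF A) : PF fun a => insert (x a) (A a) := by
  obtain ⟨l, h1, h2⟩ := h
  exact ⟨_, PT.cons hx h1, fun a => by rw [List.toFinset_cons, h2]⟩

omit [Inhabited β] in
theorem single {x : α → β} (hx : PT x) : PF fun a => ({x a} : Finset β) :=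
  ⟨_, PT.cons hx (PT.const []), fun _ => by simp⟩

omit [Inhabited β] in
theorem union (h : PF A) (h' : PF B) : PF fun a => A a ∪ B a := by
  obtain ⟨l, h1, h2⟩ := h
  obtain ⟨r, h3, h4⟩ := h'
  exact ⟨_, PT.append h1 h3, fun a => by rw [List.toFinset_append, h2, h4]⟩

theorem inter (h : PF A) (h' : PF B) : PF fun a => A a ∩ B a :=
  (h.filter (R := fun a b => b ∈ B a) (mem PT.snd' (h'.comp PT.fst'))).congr fun _ =>
    filter_mem_eq_inter

theorem sdiff (h : PF A) (h' : PF B) : PF fun a => A a \ B a :=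
  (h.filter (R := fun a b => b ∉ B a) (mem PT.snd' (h'.comp PT.fst')).not).congr fun _ => by
    ext; simp

theorem erase (h : PF A) {x : α → β} (hx : PT x) : PF fun a => (A a).erase (x a) :=
  (h.sdiff (single hx)).congr fun _ => sdiff_singleton_eq_erase _ _

theorem prod {C : α → Finset γ} (h : PF A) (h' : PF C) : PF fun a => A a ×ˢ C a := by
  obtain ⟨l, h1, h2⟩ := h
  obtain ⟨r, h3, h4⟩ := h'
  exact ⟨_, prd_pt h1 h3, fun a => by ext; simp [mem_prd, ← h2, ← h4]⟩

omit [Inhabited β] in
theorem ite {P : α → Prop} [DecidablePred P] (hP : PB P) (h : PF A) (h' : PF B) :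
    PF fun a => if P a then A a else B a := by
  obtain ⟨l, h1, h2⟩ := h
  obtain ⟨r, h3, h4⟩ := h'
  exact ⟨_, hP.ite h1 h3, fun a => by by_cases e : P a <;> simp [e, h2, h4]⟩

theorem any {R : α → β → Prop} (h : PF A) (hR : PB fun p : α × β => R p.1 p.2) :
    PB fun a => ∃ b ∈ A a, R a b := by
  obtain ⟨l, h1, h2⟩ := h
  obtain ⟨b, h3, h4⟩ := hR
  exact ⟨_, PT.any (P := fun a x => b (a, x)) h1 h3, fun a => by simp [← h2, h4]⟩

theorem all {R : α → β → Prop} (h : PF A) (hR : PB fun p : α × β => R p.1 p.2) :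
    PB fun a => ∀ b ∈ A a, R a b :=
  (h.any (R := fun a b => ¬R a b) hR.not).not.congr fun _ => by simp

theorem nonempty (h : PF A) : PB fun a => (A a).Nonempty :=
  (h.any (R := fun _ _ => True) ⟨_, PT.const true, by simp⟩).congr fun _ => by
    simp [Finset.Nonempty]

theorem empty (h : PF A) : PB fun a => A a = ∅ :=
  h.nonempty.not.congr fun _ => not_nonempty_iff_eq_empty

theorem disjoint (h : PF A) (h' : PF B) : PB fun a => Disjoint (A a) (B a) :=
  (h.inter h').empty.congr fun _ => disjoint_iff_inter_eq_empty.symm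

/-- a listing without repetitions -/
theorem nodup (h : PF A) :
    ∃ l : α → List β, PT l ∧ ∀ a, (l a).Nodup ∧ (l a).toFinset = A a := by
  obtain ⟨l, h1, h2⟩ := h
  have key : ∀ (l s : List β), s.Nodup →
      (l.foldl (fun s b => if b ∈ s then s else b :: s) s).Nodup ∧
      (l.foldl (fun s b => if b ∈ s then s else b :: s) s).toFinset = l.toFinset ∪ s.toFinset := by
    intro l
    induction l with
    | nil => intro s hs; simpa using hs
    | cons b l ih =>
      intro s hs
      rw [List.foldl_cons]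
      split_ifs with e
      · refine ⟨(ih s hs).1, (ih s hs).2.trans ?_⟩
        ext x
        simp only [mem_union, List.mem_toFinset, List.mem_cons]
        constructor
        · tauto
        · rintro ((rfl | h) | h) <;> tauto
      · have := ih _ (List.nodup_cons.2 ⟨e, hs⟩)
        exact ⟨this.1, this.2.trans (by simp)⟩
  refine ⟨_, PT.foldl_add (h := fun _ (s : List β) b => if b ∈ s then s else b :: s) h1
    (PT.const []) ((PB.memL (PT.snd PT.snd') (PT.fst PT.snd')).ite (PT.fst PT.snd')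
      (PT.cons (PT.snd PT.snd') (PT.fst PT.snd'))) (fun a => 2 * sz (l a) + 1)
    (((Bd.const 2).mul h1.sz_bd).add (Bd.const 1)) fun a s b hb => ?_, fun a =>
      ⟨(key _ _ List.nodup_nil).1, by rw [(key _ _ List.nodup_nil).2, h2]; simp⟩⟩
  have := sz_le_of_mem hb
  split_ifs
  · omega
  · rw [sz_cons]; omega

theorem card (h : PF A) : UN fun a => (A a).card := by
  obtain ⟨l, h1, h2⟩ := h.nodup
  have e : (fun a => (A a).card) = fun a => (l a).length :=
    funext fun a => by rw [← (h2 a).2, List.toFinset_card_of_nodup (h2 a).1]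
  rw [e]
  exact UN.length h1

theorem sum {f : α → β → ℕ} (h : PF A) (hf : PT fun p : α × β => f p.1 p.2) :
    PT fun a => ∑ b ∈ A a, f a b := by
  obtain ⟨l, h1, h2⟩ := h.nodup
  exact (sum_pt (PT.map h1 hf)).congr fun a => by rw [← (h2 a).2, List.sum_toFinset _ (h2 a).1]

omit [Inhabited γ] in
theorem image {f : α → β → γ} (h : PF A) (hf : PT fun p : α × β => f p.1 p.2) :
    PF fun a => (A a).image (f a) := by
  obtain ⟨l, h1, h2⟩ := h
  exact ⟨_, PT.map h1 hf, fun a => by ext; simp [← h2]⟩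

theorem sInf {A : α → Finset ℕ} (h : PF A) : PT fun a => sInf {e | e ∈ A a} := by
  refine ((h.filter (R := fun a e => ∀ f ∈ A a, e ≤ f) ((h.comp PT.fst').all
    (R := fun (p : α × ℕ) f => p.2 ≤ f) (PB.le (PT.snd PT.fst') PT.snd'))).sum
      (f := fun _ e => e) PT.snd').congr fun a => ?_
  rcases (A a).eq_empty_or_nonempty with e | e
  · simp [e]
  · have h2 := Nat.sInf_mem (s := {e | e ∈ A a}) e
    exact sum_eq_single (InfSet.sInf {e | e ∈ A a}) (fun b hb hne => absurd (le_antisymm
      ((mem_filter.1 hb).2 _ h2) (Nat.sInf_le (mem_filter.1 hb).1)) hne)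
      fun hn => absurd (mem_filter.2 ⟨h2, fun f hf => Nat.sInf_le hf⟩) hn

omit [Inhabited β] in
/-- iteration of a map whose values lie in a fixed set -/
theorem iter [Inhabited β] {U : α → Finset β} {F : α → Finset β → Finset β} {n : α → ℕ}
    (hU : PF U) (hn : UN n) (hA : PF A) (hs : ∀ a s, F a s ⊆ U a)
    (hF : PF fun p : α × List β => F p.1 p.2.toFinset) : PF fun a => (F a)^[n a] (A a) := by
  obtain ⟨u, u1, u2⟩ := hU
  obtain ⟨l, l1, l2⟩ := hA
  have e : ∀ a s, ((u a).filter fun b => decide (b ∈ F a s)).toFinset = F a s := fun a s => by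
    ext b
    simp only [List.mem_toFinset, List.mem_filter, decide_eq_true_eq, and_iff_right_iff_imp]
    exact fun h => List.mem_toFinset.1 (u2 a ▸ hs a s h)
  refine ⟨_, FL.A80.PTc.un_iter hn (h := fun a (s : List β) =>
    (u a).filter fun b => decide (b ∈ F a s.toFinset)) l1
    (PB.filterL (R := fun (p : α × List β) b => b ∈ F p.1 p.2.toFinset) (PT.comp u1 PT.fst')
      (mem PT.snd' (hF.comp PT.fst'))) (l1.sz_bd.add u1.sz_bd) fun a i _ => ?_, fun a => ?_⟩
  · cases i with
    | zero => exact Nat.le_add_right _ _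
    | succ i =>
      rw [Function.iterate_succ_apply']
      exact (FL.A80.PTc.sz_filter_le _ _).trans (Nat.le_add_left _ _)
  · beta_reduce
    induction n a with
    | zero => exact l2 a
    | succ i ih => rw [Function.iterate_succ_apply', Function.iterate_succ_apply', e, ih]

end PF

section rank
variable {m : α → ℕ} {ρ : α → Finset ℕ → ℕ} {A : α → Finset ℕ}

theorem PR.comp (h : PR ρ) {g : β → α} (hg : PT g) : PR fun z => ρ (g z) :=
  UN.comp h (PT.pair (PT.comp hg PT.fst') PT.snd')

theorem PR.un (h : PR ρ) (hA : PF A) : UN fun a => ρ a (A a) := by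
  obtain ⟨l, h1, h2⟩ := hA
  exact (UN.comp h (PT.pair PT.id h1)).congr fun a => by rw [h2]

theorem PR.app (h : PR ρ) (hA : PF A) : PT fun a => ρ a (A a) := (h.un hA).pt

theorem rs_pr (hm : UN m) (h : PR ρ) {j : α → ℕ} (hj : PT j) :
    PR fun a => rs (range (m a)) (ρ a) (j a) := by
  have h1 : PF fun p : α × List ℕ => p.2.toFinset := PF.ofL PT.snd'
  have h2 : PF fun p : α × List ℕ => range (m p.1) := PF.range (hm.comp PT.fst')
  have h3 := h.comp (PT.fst' (β := List ℕ))
  exact (UN.ite (PB.eq (PT.comp hj PT.fst') (PT.const 0)).dec h (((h1.inter h2).card.add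
    (h3.un (h2.sdiff h1))).sub (h3.app h2))).congr fun a => by
      by_cases e : j a.1 = 0 <;> simp only [rs, e, if_true, if_false, FL.H64.dual]

theorem cl_pf {E : α → Finset ℕ} (h : PR ρ) (hE : PF E) (hA : PF A) :
    PF fun a => cl (ρ a) (E a) (A a) :=
  hE.filter (R := fun a e => ρ a (insert e (A a)) = ρ a (A a))
    (PB.eq ((h.comp PT.fst').app ((hA.comp PT.fst').insert PT.snd'))
      ((h.comp PT.fst').app (hA.comp PT.fst')))

theorem PF.Ico {k n : α → ℕ} (hk : PT k) (hn : UN n) : PF fun a => Ico (k a) (n a) :=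
  ((PF.range hn).filter (R := fun a i => k a ≤ i) (PB.le (PT.comp hk PT.fst') PT.snd')).congr
    fun a => by ext; simp [and_comm]

theorem walls_pf (hm : UN m) (h : PR ρ) : PF fun a => walls (range (m a)) (ρ a) :=
  ((PF.const {3}).prod (PF.Ico (PT.const 1) ((rs_pr hm h (PT.const 0)).un (PF.range hm)))).union
    ((PF.const {4}).prod (PF.Ico (PT.const 1) ((rs_pr hm h (PT.const 1)).un (PF.range hm))))

theorem walls_pb (hm : UN m) (h : PR ρ) {c : α → Ix} (hc : PT c) :
    PB fun a => c a ∈ walls (range (m a)) (ρ a) := PF.mem hc (walls_pf hm h)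

theorem cons_pf (hm : UN m) (h : PR ρ) : PF fun a => cons (range (m a)) (ρ a) :=
  (((PF.const {0}).prod (PF.range hm)).union ((PF.const {1}).prod ((PF.range hm).sdiff
    (cl_pf (rs_pr hm h (PT.const 0)) (PF.range hm) (PF.const ∅))))).union
    ((PF.const {2}).prod ((PF.range hm).sdiff
      (cl_pf (rs_pr hm h (PT.const 1)) (PF.range hm) (PF.const ∅))))

theorem PC.comp {σ : α → Cone} (h : PC σ) {g : β → α} (hg : PT g) : PC fun z => σ (g z) :=
  PF.comp h (PT.pair (PT.comp hg PT.fst') PT.snd')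

theorem PC.app {σ : α → Cone} (h : PC σ) {k : α → Ix} (hk : PT k) : PF fun a => σ a (k a) :=
  PF.comp h (PT.pair PT.id hk)

theorem PI.comp {θ : α → Ix → ℕ} (h : PI θ) {g : β → α} (hg : PT g) : PI fun z => θ (g z) :=
  PT.comp h (PT.pair (PT.comp hg PT.fst') PT.snd')

theorem PI.app {θ : α → Ix → ℕ} (h : PI θ) {k : α → Ix} (hk : PT k) : PT fun a => θ a (k a) :=
  PT.comp h (PT.pair PT.id hk)

theorem enc_pt (hm : UN m) {σ : α → Cone} {T : α → Finset Ix} (h : PC σ) (hT : PF T) :
    PT fun a => enc (m a) (σ a, T a) :=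
  PT.pair (PB.filterL (R := fun a (q : Ix × ℕ) => q.2 ∈ σ a q.1)
    (prd_pt (prd_pt (PT.const _) (hm.add (UN.const 1)).range) hm.range)
    (PF.mem (PT.snd PT.snd') ((h.comp PT.fst').app (PT.fst PT.snd'))))
    (PB.filterL (R := fun a c => c ∈ T a) (CL_pt hm) (PF.mem PT.snd' (hT.comp PT.fst')))

theorem dec_pc (hm : UN m) {v : α → Code} (hv : PT v) :
    (PC fun a => (dec (m a) (v a)).1) ∧ PF fun a => (dec (m a) (v a)).2 :=
  ⟨(PF.range (hm.comp PT.fst')).filter
    (R := fun (p : α × Ix) e => ((p.2.1, min p.2.2 (m p.1)), e) ∈ (v p.1).1)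
    (PB.memL (PT.pair (PT.pair (PT.fst (PT.snd PT.fst')) ((((hm.comp (PT.fst PT.fst')).min
      (PT.snd (PT.snd PT.fst'))).pt).congr fun _ => min_comm _ _)) PT.snd')
      (PT.fst (PT.comp hv (PT.fst PT.fst')))), PF.ofL (PT.snd hv)⟩

end rank

end Pool.Agent.Lib.US.A80
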