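import Pool.Agent.Lib.US.Law72
import Pool.Agent.Lib.US.Ann72
import Pool.Agent.Lib.FL.B_PT

/-! The killed walk and the estimator run in polynomial time. -/

namespace Pool.Agent.US.Tick72

open Finset Pool.Agent.Lib.helper82 Pool.Agent.Lib.MP_b67cc8_lc Pool.Agent.FL.Mix28
open Pool.Agent.Lib.MP_dec383_lc (UN)
open Pool.Agent.Lib.FL.A80.PTc

/-- the sample `j`: decode the environment, run the stages, read a number -/
def smp {Θ σ : Type} (a b T N : ℕ) (dec : List Bool → Θ)
    (st : Θ → ℕ → σ → List Bool → σ × Bool) (s₀ : Θ → σ) (U : Θ → ℕ → σ → ℕ) (j : ℕ)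
    (x : List Bool) : ℕ :=
  U (dec (x.take a)) j (traj b (st (dec (x.take a))) T (s₀ (dec (x.take a))) (min N j) (x.drop a))

/-- the estimator: numerator and denominator -/
def est {Θ σ : Type} (a b T N : ℕ) (dec : List Bool → Θ)
    (st : Θ → ℕ → σ → List Bool → σ × Bool) (s₀ : Θ → σ) (U V : Θ → ℕ → σ → ℕ)
    (r : List Bool) : ℕ × ℕ :=
  (rit (a + b * T * N) (pst (smp a b T N dec st s₀ U) (smp a b T N dec st s₀ V)) N (0, 1, 1) r).2

/-- the hypothesis `huv` of `ann` for a coded walk -/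
theorem smp_sim {Θ σ σ' : Type} {a b T N : ℕ} {dec : List Bool → Θ} {Gen : Θ → Prop}
    {st : Θ → ℕ → σ → List Bool → σ × Bool} {st' : Θ → ℕ → σ' → List Bool → σ' × Bool}
    {s₀ : Θ → σ} {s₀' : Θ → σ'} {U V : Θ → ℕ → σ' → ℕ} {g : Θ → ℕ → σ → ℝ} (f : Θ → σ' → σ)
    (Q : Θ → σ' → Prop)
    (h : ∀ θ, Gen θ → ∀ t v, Q θ v → ∀ x, Q θ (st' θ t v x).1 ∧
      (f θ (st' θ t v x).1, (st' θ t v x).2) = st θ t (f θ v) x)
    (h0 : ∀ θ, Gen θ → Q θ (s₀' θ) ∧ f θ (s₀' θ) = s₀ θ)
    (hg : ∀ θ, Gen θ → ∀ j < N, ∀ v, Q θ v → (U θ j v : ℝ) / V θ j v = g θ j (f θ v)) :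
    ∀ j < N, ∀ x y : List Bool, x.length = a → y.length = b * T * N → Gen (dec x) →
      (smp a b T N dec st' s₀' U j (x ++ y) : ℝ) / smp a b T N dec st' s₀' V j (x ++ y) =
        g (dec x) j (traj b (st (dec x)) T (s₀ (dec x)) j y) := fun j hj x y hx _ G => by
  have k := traj_sim (f _) (Q _) (h _ G) b T (h0 _ G).1 j y
  simp only [smp, List.take_left' hx, List.drop_left' hx, min_eq_right hj.le]
  rw [hg _ G j hj _ k.1, k.2, (h0 _ G).2]

open PT

variable {α β σ δ Θ : Type} [Enc α] [Enc β] [Enc σ] [Enc δ] [Enc Θ]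

theorem size_un {n : α → ℕ} (h : PT n) : UN fun a => (n a).size := by
  simpa only [Nat.size_eq_bits_len] using UN.length (bits h)

theorem pow_pt {c k : α → ℕ} (hc : PT c) (hk : UN k) : PT fun a => c a ^ k a :=
  (prod_pt (hk.replicate hc)).congr fun _ => List.prod_replicate _ _

theorem sum_pt {f : α → List ℕ} (hf : PT f) : PT fun a => (f a).sum :=
  (foldl_add (h := fun _ (s b : ℕ) => s + b) hf (const 0) (by fun_prop) (fun a => sz (f a) + 1)
    (hf.sz_bd.add (Bd.const 1)) fun a s b hb => by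
      have := sz_add_le s b
      have := sz_le_of_mem hb
      omega).congr fun a => List.sum_eq_foldl.symm

/-- binary search: a number is computed from the comparison with it -/
theorem search_pt {f k : α → ℕ} (hk : UN k) (hf : ∀ a, f a < 2 ^ k a)
    (hP : PT fun p : α × ℕ => decide (p.2 ≤ f p.1)) : PT f := by
  have key : ∀ (y j q : ℕ), q ≤ y → y < q + 2 ^ j → ((fun s : ℕ × ℕ =>
      (bif decide (s.1 + s.2 ≤ y) then s.1 + s.2 else s.1, s.2 / 2))^[j] (q, 2 ^ j / 2)).1 = y := by
    intro y j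
    induction j with
    | zero => intro q h1 h2; simp only [Function.iterate_zero, _root_.id]; omega
    | succ j ih =>
      intro q h1 h2
      rw [Function.iterate_succ_apply, pow_succ, Nat.mul_div_cancel _ two_pos]
      rw [pow_succ] at h2
      by_cases h : q + 2 ^ j ≤ y
      · simp only [h, decide_true, cond_true]; exact ih _ h (by omega)
      · simp only [h, decide_false, cond_false]; exact ih _ h1 (by omega)
  have h2 := pow_pt (const 2) hk
  refine (fst (un_inv hk (g := fun a => (0, 2 ^ k a / 2)) (h := fun a (s : ℕ × ℕ) =>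
    (bif decide (s.1 + s.2 ≤ f a) then s.1 + s.2 else s.1, s.2 / 2)) (pair (const 0) (div2 h2))
    (pair (cond (PT.comp hP (pair fst' (add (fst snd') (snd snd')))) (add (fst snd') (snd snd'))
      (fst snd')) (div2 (snd snd')))
    (((Bd.const 3).mul h2.sz_bd).add (Bd.const 1))
    (fun a _ s => s.1 ≤ f a ∧ s.2 ≤ 2 ^ k a) (fun a => ⟨Nat.zero_le _, Nat.div_le_self _ _⟩)
    (fun a _ s h => ⟨?_, (Nat.div_le_self _ _).trans h.2⟩) fun a _ s _ h => ?_)).congr
    fun a => key _ _ _ (Nat.zero_le _) (by simpa using hf a)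
  · by_cases h' : s.1 + s.2 ≤ f a
    · simp only [h', decide_true, cond_true]
    · simpa only [h', decide_false, cond_false] using h.1
  · have a1 := sz_nat_mono (h.1.trans (hf a).le)
    have a2 := sz_nat_mono h.2
    rw [← Prod.mk.eta (p := s), sz_prod]
    omega

theorem sub_pt {m n : α → ℕ} (hm : PT m) (hn : PT n) : PT fun a => m a - n a :=
  search_pt (size_un hm) (fun a => (Nat.sub_le _ _).trans_lt (Nat.lt_size_self _))
    ((or (eq snd' (const 0)) (le (add snd' (PT.comp hn fst')) (PT.comp hm fst'))).congr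
      fun a => by rw [Bool.eq_iff_iff]; simp; omega)

theorem div_pt {m n : α → ℕ} (hm : PT m) (hn : PT n) : PT fun a => m a / n a :=
  search_pt (size_un hm) (fun a => (Nat.div_le_self _ _).trans_lt (Nat.lt_size_self _))
    ((or (eq snd' (const 0)) (and (lt (const 0) (PT.comp hn fst'))
      (le (mul snd' (PT.comp hn fst')) (PT.comp hm fst')))).congr fun a => by
        rw [Bool.eq_iff_iff]
        rcases Nat.eq_zero_or_pos (n a.1) with h | h
        · simp [h]
        · simp only [h, decide_true, Bool.true_and, Bool.or_eq_true, decide_eq_true_eq,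
            Nat.le_div_iff_mul_le h, or_iff_right_iff_imp]
          intro e
          simp [e])

theorem mod_pt {m n : α → ℕ} (hm : PT m) (hn : PT n) : PT fun a => m a % n a :=
  (sub_pt hm (mul hn (div_pt hm hn))).congr fun _ => (Nat.mod_def _ _).symm

theorem sel_pt [Inhabited β] {z : α → β} {L : α → List (ℕ × β)} {y : α → ℕ} (hz : PT z)
    (hL : PT L) (hy : PT y) : PT fun a => sel (z a) (L a) (y a) := by
  have k1 : ∀ (L : List (ℕ × β)) (y : ℕ) (w : β), (L.foldl (fun (s : ℕ × Bool × β) p =>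
      bif s.2.1 then s else bif decide (s.1 < p.1) then (s.1, true, p.2)
        else (s.1 - p.1, s.2)) (y, true, w)).2.2 = w := by
    intro L
    induction L with
    | nil => intro y w; rfl
    | cons p L ih => intro y w; exact ih y w
  have k2 : ∀ (L : List (ℕ × β)) (y : ℕ) (w : β), (L.foldl (fun (s : ℕ × Bool × β) p =>
      bif s.2.1 then s else bif decide (s.1 < p.1) then (s.1, true, p.2)
        else (s.1 - p.1, s.2)) (y, false, w)).2.2 = sel w L y := by
    intro L
    induction L with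
    | nil => intro y w; rfl
    | cons p L ih =>
      intro y w
      rw [List.foldl_cons, sel]
      split_ifs with h
      · simp only [h, cond_false, decide_true, cond_true, k1]
      · simp only [h, cond_false, decide_false, ih]
  refine (snd (snd (foldl_add (h := fun _ (s : ℕ × Bool × β) (p : ℕ × β) =>
      bif s.2.1 then s else bif decide (s.1 < p.1) then (s.1, true, p.2) else (s.1 - p.1, s.2))
    hL (pair hy (pair (const false) hz))
    (cond (fst (snd (fst snd'))) (fst snd') (cond (lt (fst (fst snd')) (fst (snd snd')))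
      (pair (fst (fst snd')) (pair (const true) (snd (snd snd'))))
      (pair (sub_pt (fst (fst snd')) (fst (snd snd'))) (snd (fst snd')))))
    (fun a => sz (L a)) hL.sz_bd fun a s p hp => ?_))).congr fun a => k2 _ _ _
  obtain ⟨y, d, w⟩ := s
  obtain ⟨c, q⟩ := p
  have a1 := sz_le_of_mem hp
  have a2 := sz_nat_mono (Nat.sub_le y c)
  rw [sz_prod] at a1
  cases d <;> cases decide (y < c) <;> simp only [cond_true, cond_false, sz_prod, sz_bool] <;> omega

theorem pick_pt [Inhabited β] {z : α → β} {L : α → List (ℕ × β)} {x : α → List Bool} (hz : PT z)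
    (hL : PT L) (hx : PT x) : PT fun a => pick (z a) (L a) (x a) :=
  sel_pt hz hL (ofB_pt (fst (un_split (size_un (sum_pt (map hL (fst snd')))) hx)))

theorem stepL_pt [Inhabited σ] [Inhabited δ] {hd : α → δ → σ} {C : α → δ → ℕ} {W : α → σ → ℕ}
    {ds : α → σ → List δ} {v : α → σ} {x : α → List Bool}
    (h1 : PT fun p : α × δ => hd p.1 p.2) (h2 : PT fun p : α × δ => C p.1 p.2)
    (h3 : PT fun a => W a (v a)) (h4 : PT fun a => ds a (v a)) (hv : PT v) (hx : PT x) :
    PT fun a => stepL (hd a) (C a) (W a) (ds a) (v a) (x a) :=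
  pick_pt (pair hv (const false)) (cons (pair h3 (pair hv (const true)))
    (map h4 (pair h2 (pair h1 (const false))))) hx

omit [Enc δ] in
theorem stepL_sz {hd : δ → σ} {C : δ → ℕ} {W : σ → ℕ} {ds : σ → List δ} {v : σ} {B : ℕ}
    (h : ∀ d ∈ ds v, sz (hd d) ≤ sz v + B) (x : List Bool) :
    sz (stepL hd C W ds v x).1 ≤ sz v + B := by
  rcases stepL_cases (hd := hd) (C := C) (W := W) (ds := ds) v x with e | ⟨-, e⟩ | ⟨d, hd', e⟩ <;>
    rw [e]
  exacts [Nat.le_add_right _ _, Nat.le_add_right _ _, h d hd']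

omit [Enc σ] in
theorem rit_sz {h : σ → List Bool → σ} (φ : σ → ℕ) {B : ℕ} (H : ∀ s x, φ (h s x) ≤ φ s + B)
    (k t : ℕ) : ∀ s r, φ (rit k h t s r) ≤ φ s + t * B := by
  induction t with
  | zero => intro s r; exact Nat.le_add_right _ _
  | succ t ih =>
    intro s r
    have a1 := ih (h s (r.take k)) (r.drop k)
    have a2 := H s (r.take k)
    rw [add_mul]
    change φ (rit k h t (h s (r.take k)) (r.drop k)) ≤ _
    omega

theorem tk_sz {st : σ → List Bool → σ × Bool} {B : ℕ} (H : ∀ v x, sz (st v x).1 ≤ sz v + B)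
    (p : σ × Bool) (x : List Bool) : sz (tk st p x).1 ≤ sz p.1 + B := by
  unfold tk
  split_ifs
  exacts [Nat.le_add_right _ _, H _ _]

theorem tick_sz {st : σ → List Bool → σ × Bool} {B : ℕ} (H : ∀ v x, sz (st v x).1 ≤ sz v + B)
    (b T : ℕ) (s : σ) (x : List Bool) : sz (tick b st T s x) ≤ sz s + T * B := by
  unfold tick
  split_ifs
  exacts [rit_sz (fun p : σ × Bool => sz p.1) (tk_sz H) b T (s, false) x, Nat.le_add_right _ _]

variable {a b T N j B : α → ℕ} {x : α → List Bool}

theorem tick_pt {st : α → σ → List Bool → σ × Bool} {s : α → σ} (hb : UN b) (hT : UN T)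
    (hst : PT fun p : α × σ × List Bool => st p.1 p.2.1 p.2.2) (hB : Bd sz B)
    (H : ∀ a v x, sz (st a v x).1 ≤ sz v + B a) (hs : PT s) (hx : PT x) :
    PT fun a => tick (b a) (st a) (T a) (s a) (x a) := by
  have k : PT fun a => rit (b a) (tk (st a)) (T a) (s a, false) (x a) := by
    refine un_rit hb hT (pair hs (const false)) hx
      (iteEq (snd (fst snd')) (const true) (fst snd')
        (PT.comp hst (pair fst' (pair (fst (fst snd')) (snd snd')))))
      (((Bd.const 2).mul (hs.sz_bd.add ((un_bd hT).mul hB))).add (Bd.const 2))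
      (fun a i p => sz p.1 ≤ sz (s a) + i * B a) (fun a => Nat.le_add_right _ _)
      (fun a i p y h => ?_) fun a i p hi h => ?_
    · have := tk_sz (H a) p y
      rw [add_mul]
      omega
    · have := Nat.mul_le_mul_right (B a) hi
      rw [← Prod.mk.eta (p := p), sz_prod, sz_bool]
      omega
  exact iteEq (snd k) (const true) (fst k) hs

theorem traj_pt {st : α → ℕ → σ → List Bool → σ × Bool} {s : α → σ} (hb : UN b) (hT : UN T)
    (hj : UN j) (hst : PT fun p : (α × ℕ) × σ × List Bool => st p.1.1 p.1.2 p.2.1 p.2.2)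
    (hB : Bd sz B) (H : ∀ a t v x, sz (st a t v x).1 ≤ sz v + B a) (hs : PT s) (hx : PT x) :
    PT fun a => traj (b a) (st a) (T a) (s a) (j a) (x a) := by
  obtain ⟨P, hP⟩ := hB
  have k : PT fun p : α × (ℕ × σ) × List Bool =>
      tick (b p.1) (st p.1 (p.2.1.1 + 1)) (T p.1) p.2.1.2 p.2.2 :=
    tick_pt (st := fun p : α × (ℕ × σ) × List Bool => st p.1 (p.2.1.1 + 1)) (B := fun p => B p.1)
      (hb.comp fst') (hT.comp fst')
      (PT.comp hst (pair (pair (fst fst') (succ (fst (fst (snd fst'))))) snd'))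
      ⟨P, fun p => (hP _).trans (eval_mono P (by rw [← Prod.mk.eta (p := p), sz_prod]; simp; omega))⟩
      (fun p => H _ _) (snd (fst snd')) (snd snd')
  refine snd (un_rit (hb.mul hT) hj (h := fun a => stage (b a) (st a) (T a)) (pair (const 0) hs) hx
    (pair (succ (fst (fst snd'))) k)
    ((((Bd.const 2).mul (un_bd hj)).add (Bd.const 1)).add
      (hs.sz_bd.add ((un_bd hj).mul ((un_bd hT).mul ⟨P, hP⟩))))
    (fun a i p => p.1 = i ∧ sz p.2 ≤ sz (s a) + i * (T a * B a))
    (fun a => ⟨rfl, Nat.le_add_right _ _⟩) (fun a i p y h => ⟨congrArg (· + 1) h.1, ?_⟩)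
    fun a i p hi h => ?_)
  · have := tick_sz (H a (p.1 + 1)) (b a) (T a) p.2 y
    have := h.2
    rw [add_mul]
    simp only [stage]
    omega
  · have := Nat.mul_le_mul_right (T a * B a) hi
    have := sz_nat_le_self p.1
    have := h.1
    have := h.2
    rw [← Prod.mk.eta (p := p), sz_prod]
    omega

/-- the product of the samples -/
theorem pst_pt {u v : α → ℕ → List Bool → ℕ} (hb : UN b) (hN : UN N)
    (hu : PT fun p : α × ℕ × List Bool => u p.1 p.2.1 p.2.2)
    (hv : PT fun p : α × ℕ × List Bool => v p.1 p.2.1 p.2.2) (hx : PT x) :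
    PT fun a => rit (b a) (pst (u a) (v a)) (N a) (0, 1, 1) (x a) := by
  have hh : PT fun p : α × ℕ × List Bool =>
      (p.1, min (N p.1) p.2.1, p.2.2.take (b p.1)) :=
    pair fst' (pair ((hN.comp fst').min (fst snd')).pt (fst (un_split (hb.comp fst') (snd snd'))))
  obtain ⟨P, hP⟩ := (pair hu hv).sz_bd
  have hD : Bd sz fun a => P.eval (2 * sz a + 2 * N a + 3 * b a + 2) :=
    (((((Bd.const 2).mul Bd.self).add ((Bd.const 2).mul (un_bd hN))).add
      ((Bd.const 3).mul (un_bd hb))).add (Bd.const 2)).eval P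
  have hh2 : PT fun p : α × (ℕ × ℕ × ℕ) × List Bool => (p.1, p.2.1.1, p.2.2) :=
    pair fst' (pair (fst (fst snd')) (snd snd'))
  refine (un_rit hb hN (h := fun a => pst (fun j y => u a (min (N a) j) (y.take (b a)))
      fun j y => v a (min (N a) j) (y.take (b a))) (const (0, 1, 1)) hx
    (pair (succ (fst (fst snd'))) (pair (mul (fst (snd (fst snd'))) (PT.comp (PT.comp hu hh) hh2))
      (mul (snd (snd (fst snd'))) (PT.comp (PT.comp hv hh) hh2))))
    ((((Bd.const 2).mul (un_bd hN)).add (Bd.const 5)).add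
      ((Bd.const 3).mul ((un_bd hN).mul hD)))
    (fun a i s => s.1 = i ∧ sz s.2.1 ≤ 1 + i * P.eval (2 * sz a + 2 * N a + 3 * b a + 2) ∧
      sz s.2.2 ≤ 1 + i * P.eval (2 * sz a + 2 * N a + 3 * b a + 2))
    (fun a => ⟨rfl, by simpa using sz_nat_le_self 1, by simpa using sz_nat_le_self 1⟩)
    (fun a i s y h => ?_) fun a i s hi h => ?_).congr fun a => ?_
  · obtain ⟨c, p, q⟩ := s
    obtain ⟨rfl, h1, h2⟩ := h
    simp only at h1 h2
    have a1 := hP (a, min (N a) c, y.take (b a))
    have a2 := eval_mono P (show sz (a, min (N a) c, y.take (b a)) ≤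
        2 * sz a + 2 * N a + 3 * b a + 2 by
      have := sz_nat_le_self (min (N a) c)
      rw [sz_prod, sz_prod, sz_listBool, List.length_take]
      omega)
    simp only [sz_prod (u _ _ _)] at a1
    have a3 := PT.sz_mul_le p (u a (min (N a) c) (y.take (b a)))
    have a4 := PT.sz_mul_le q (v a (min (N a) c) (y.take (b a)))
    refine ⟨rfl, ?_, ?_⟩ <;> simp only [pst] <;> rw [add_mul c 1, one_mul] <;> omega
  · obtain ⟨c, p, q⟩ := s
    obtain ⟨rfl, h1, h2⟩ := h
    simp only at h1 h2 hi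
    have a1 := sz_nat_le_self c
    have := Nat.mul_le_mul_right (P.eval (2 * sz a + 2 * N a + 3 * b a + 2)) hi
    rw [sz_prod, sz_prod]
    omega
  · have key : ∀ (t : ℕ) (s : ℕ × ℕ × ℕ) (r : List Bool), s.1 + t ≤ N a →
        rit (b a) (pst (fun j y => u a (min (N a) j) (y.take (b a)))
          fun j y => v a (min (N a) j) (y.take (b a))) t s r = rit (b a) (pst (u a) (v a)) t s r := by
      intro t
      induction t with
      | zero => intro s r _; rfl
      | succ t ih =>
        intro s r h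
        have e := ih (pst (u a) (v a) s (r.take (b a))) (r.drop (b a)) (by simp only [pst]; omega)
        refine Eq.trans ?_ e
        simp only [rit, Function.iterate_succ_apply, rst, pst, List.take_take, min_self,
          min_eq_right (show s.1 ≤ N a by omega)]
    exact key _ _ _ (by simp)

variable {dec : α → List Bool → Θ} {st : α → Θ → ℕ → σ → List Bool → σ × Bool} {s₀ : α → Θ → σ}
  {U V : α → Θ → ℕ → σ → ℕ}

theorem smp_pt (ha : UN a) (hb : UN b) (hT : UN T) (hN : UN N)
    (hd : PT fun p : α × List Bool => dec p.1 p.2)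
    (hst : PT fun p : ((α × Θ) × ℕ) × σ × List Bool => st p.1.1.1 p.1.1.2 p.1.2 p.2.1 p.2.2)
    (hB : Bd sz B) (H : ∀ a θ t v x, sz (st a θ t v x).1 ≤ sz v + B a)
    (hs : PT fun p : α × Θ => s₀ p.1 p.2)
    (hU : PT fun p : ((α × Θ) × ℕ) × σ => U p.1.1.1 p.1.1.2 p.1.2 p.2) :
    PT fun p : α × ℕ × List Bool =>
      smp (a p.1) (b p.1) (T p.1) (N p.1) (dec p.1) (st p.1) (s₀ p.1) (U p.1) p.2.1 p.2.2 := by
  obtain ⟨P, hP⟩ := hB
  have h1 := un_split (ha.comp (fst' (β := ℕ × List Bool))) (snd snd')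
  have h2 : PT fun p : α × ℕ × List Bool => (p.1, dec p.1 (p.2.2.take (a p.1))) :=
    pair fst' (PT.comp hd (pair fst' (fst h1)))
  exact PT.comp hU (pair (pair h2 (fst snd')) (traj_pt
    (st := fun p : α × ℕ × List Bool => st p.1 (dec p.1 (p.2.2.take (a p.1))))
    (B := fun p => B p.1) (hb.comp fst') (hT.comp fst') ((hN.comp fst').min (fst snd'))
    (PT.comp hst (pair (pair (PT.comp h2 (fst fst')) (snd fst')) snd'))
    ⟨P, fun p => (hP _).trans (eval_mono P (by rw [← Prod.mk.eta (p := p), sz_prod]; simp; omega))⟩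
    (fun p => H _ _) (PT.comp hs h2) (snd h1)))

/-- the estimator is polynomial time -/
theorem est_pt (ha : UN a) (hb : UN b) (hT : UN T) (hN : UN N)
    (hd : PT fun p : α × List Bool => dec p.1 p.2)
    (hst : PT fun p : ((α × Θ) × ℕ) × σ × List Bool => st p.1.1.1 p.1.1.2 p.1.2 p.2.1 p.2.2)
    (hB : Bd sz B) (H : ∀ a θ t v x, sz (st a θ t v x).1 ≤ sz v + B a)
    (hs : PT fun p : α × Θ => s₀ p.1 p.2)
    (hU : PT fun p : ((α × Θ) × ℕ) × σ => U p.1.1.1 p.1.1.2 p.1.2 p.2)
    (hV : PT fun p : ((α × Θ) × ℕ) × σ => V p.1.1.1 p.1.1.2 p.1.2 p.2) (hx : PT x) :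
    PT fun p => est (a p) (b p) (T p) (N p) (dec p) (st p) (s₀ p) (U p) (V p) (x p) :=
  snd (pst_pt (ha.add ((hb.mul hT).mul hN)) hN (smp_pt ha hb hT hN hd hst hB H hs hU)
    (smp_pt ha hb hT hN hd hst hB H hs hV) hx)

end Pool.Agent.US.Tick72
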