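import Pool.Agent.Lib.US.Model

/-! Terminals of the model as points: a description without chains and frames. -/

namespace Pool.Agent.Lib.US

open Finset

/-- a feasible point whose tight conditions are rigid is a vertex -/
theorem Sys.vx_of_rigid {ι X V : Type} [DecidableEq ι] [AddCommGroup V] [Module ℝ V]
    {S : Sys ι X V} {θ : ι → ℝ} {σ : ι → X} {T : Finset ι} (hG : S.Gen θ) (hσ : σ ∈ S.Ch) {q : V}
    (hq : q ∈ S.Vs σ) (hT : T ⊆ S.Cn) (ht : ∀ c ∈ T, S.L σ c q = S.th θ c)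
    (hlt : ∀ d ∈ S.Cn, d ∉ T → S.L σ d q < S.th θ d)
    (hr : ∀ v ∈ S.Vs σ, (∀ c ∈ T, S.L σ c v = 0) → v = 0) :
    S.Vx θ σ T ∧ S.pt θ σ T = q := by
  classical
  obtain ⟨T', h1, h2⟩ := exists_min_image
    (T.powerset.filter fun A => ∀ v ∈ S.Vs σ, (∀ c ∈ A, S.L σ c v = 0) → v = 0) card
    ⟨T, mem_filter.2 ⟨mem_powerset_self _, hr⟩⟩
  obtain ⟨h3, h4⟩ := mem_filter.1 h1
  rw [mem_powerset] at h3
  have h5 : ∀ c, ∃ y, c ∈ T' → y ∈ S.Vs σ ∧ ∀ d ∈ T', S.L σ d y = if d = c then 1 else 0 := by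
    intro c
    by_cases hc : c ∈ T'
    · have h6 : ¬∀ v ∈ S.Vs σ, (∀ d ∈ T'.erase c, S.L σ d v = 0) → v = 0 := fun h => by
        have := h2 _ (mem_filter.2 ⟨mem_powerset.2 ((erase_subset c T').trans h3), h⟩)
        have := card_erase_lt_of_mem hc
        omega
      push Not at h6
      obtain ⟨v, a1, a2, a3⟩ := h6
      have a4 : S.L σ c v ≠ 0 := fun h => a3 (h4 v a1 fun d hd => by
        by_cases e : d = c
        · rw [e, h]
        · exact a2 d (mem_erase.2 ⟨e, hd⟩))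
      refine ⟨(S.L σ c v)⁻¹ • v, fun _ => ⟨Submodule.smul_mem _ _ a1, fun d hd => ?_⟩⟩
      rw [map_smul, smul_eq_mul]
      split_ifs with e
      · rw [e, inv_mul_cancel₀ a4]
      · rw [a2 d (mem_erase.2 ⟨e, hd⟩), mul_zero]
    · exact ⟨0, fun h => absurd h hc⟩
  choose y hy using h5
  have hB : S.IsB σ T' := by
    refine ⟨hσ, h3.trans hT, y, fun c hc => (hy c hc).1, fun c hc => (hy c hc).2, fun v hv => ?_⟩
    refine sub_eq_zero.1 (h4 _ (Submodule.sub_mem _ hv (Submodule.sum_mem _ fun c hc =>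
      Submodule.smul_mem _ _ (hy c hc).1)) fun d hd => ?_)
    rw [map_sub, map_sum, sum_eq_single d]
    · rw [map_smul, (hy d hd).2 d hd, if_pos rfl, smul_eq_mul, mul_one, sub_self]
    · intro c hc hne
      rw [map_smul, (hy c hc).2 d hd, if_neg hne.symm, smul_zero]
    · exact fun h => absurd hd h
  have hp : q = S.pt θ σ T' := hB.eq_pt hq fun c hc => ht c (h3 hc)
  have hE : T' = T := Subset.antisymm h3 fun d hd => by
    by_contra h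
    refine hG σ T' hB d (hT hd) h ?_
    unfold Sys.sl
    rw [← hp, ht d hd, sub_self]
  subst hE
  refine ⟨⟨hB, fun d hd h => ?_⟩, hp.symm⟩
  unfold Sys.sl
  rw [← hp]
  linarith [hlt d hd h]

namespace H78

open Pool.Agent.Lib.FL
open Pool.Agent.Lib.FL.H64 (IsRk cl Flat Cov)

variable {E : Finset ℕ} {ρ : Finset ℕ → ℕ} {a : ℕ → ℝ} {C : ℕ → Finset ℕ}

/-- the elements that are not loops -/
def nl (E : Finset ℕ) (ρ : Finset ℕ → ℕ) : Finset ℕ := E.filter fun e => ρ {e} ≠ 0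

open Classical in
/-- the loops and the elements above `t` -/
noncomputable def up (E : Finset ℕ) (ρ : Finset ℕ → ℕ) (a : ℕ → ℝ) (t : ℝ) : Finset ℕ :=
  E.filter fun f => ρ {f} = 0 ∨ t < a f

theorem mem_nl {e : ℕ} : e ∈ nl E ρ ↔ e ∈ E ∧ ρ {e} ≠ 0 := mem_filter

theorem mem_up {f : ℕ} {t : ℝ} : f ∈ up E ρ a t ↔ f ∈ E ∧ (ρ {f} = 0 ∨ t < a f) := by
  unfold up; rw [mem_filter]

/-- `a` lies in the interior of a maximal cone of the Bergman fan -/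
structure Full (E : Finset ℕ) (ρ : Finset ℕ → ℕ) (a : ℕ → ℝ) : Prop where
  zero : ∀ e, e ∉ nl E ρ → a e = 0
  ind : ∀ e ∈ nl E ρ, ρ (insert e (up E ρ a (a e))) ≠ ρ (up E ρ a (a e))
  one : ∀ e ∈ nl E ρ, ∀ f ∈ nl E ρ, a f = a e →
    ρ (insert e (insert f (up E ρ a (a e)))) ≤ ρ (up E ρ a (a e)) + 1

/-- `C` is the chain of the level sets of `a` -/
structure Lev (E : Finset ℕ) (ρ : Finset ℕ → ℕ) (C : ℕ → Finset ℕ) (a : ℕ → ℝ) : Prop where
  chain : Chain E ρ C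
  zero : ∀ e, e ∉ E \ C 0 → a e = 0
  const : ∀ i, ∀ e ∈ C (i + 1) \ C i, ∀ f ∈ C (i + 1) \ C i, a e = a f
  lt : ∀ i, ∀ e ∈ C i, e ∉ C 0 → ∀ f ∈ E, f ∉ C i → a f < a e

theorem mem_cl0 (h : IsRk ρ) {e : ℕ} : e ∈ cl ρ E ∅ ↔ e ∈ E ∧ ρ {e} = 0 := by
  rw [H64.mem_cl, h.empty]; rfl

theorem nl_eq (h : IsRk ρ) : nl E ρ = E \ cl ρ E ∅ := by
  ext e
  rw [mem_nl, mem_sdiff, mem_cl0 h]
  tauto

theorem ch_succ (h : Chain E ρ C) (i : ℕ) : C i ⊆ C (i + 1) := by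
  rcases lt_or_ge i (ρ E) with hi | hi
  · exact (h.cov i hi).2.2.1
  · rw [h.top (i + 1) (by omega)]; exact h.sub i

theorem ch_mono (h : Chain E ρ C) {i k : ℕ} (hik : i ≤ k) : C i ⊆ C k := by
  induction k, hik using Nat.le_induction with
  | base => exact Subset.rfl
  | succ k _ ih => exact ih.trans (ch_succ h k)

theorem ex_level {e m n : ℕ} (hmn : m ≤ n) (h1 : e ∈ C n) (h2 : e ∉ C m) :
    ∃ k, m ≤ k ∧ k < n ∧ e ∈ C (k + 1) ∧ e ∉ C k := by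
  induction n, hmn using Nat.le_induction with
  | base => exact absurd h1 h2
  | succ n hn ih =>
    by_cases h : e ∈ C n
    · obtain ⟨k, a1, a2, a3⟩ := ih h
      exact ⟨k, a1, by omega, a3⟩
    · exact ⟨n, hn, by omega, h1, h⟩

theorem ex_level_top (h : Chain E ρ C) {e m : ℕ} (h1 : e ∈ E) (h2 : e ∉ C m) :
    ∃ k, m ≤ k ∧ k < ρ E ∧ e ∈ C (k + 1) ∧ e ∉ C k := by
  refine ex_level ?_ (by rwa [h.top _ le_rfl]) h2
  by_contra hm
  exact h2 (by rwa [h.top m (by omega)])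

theorem Lev.up_eq (hρ : IsRk ρ) (h : Lev E ρ C a) {e i : ℕ} (h1 : e ∈ C (i + 1)) (h2 : e ∉ C i) :
    up E ρ a (a e) = C i := by
  have h0 : C 0 ⊆ C i := ch_mono h.chain (Nat.zero_le i)
  ext f
  rw [mem_up]
  constructor
  · rintro ⟨a1, a2 | a2⟩
    · exact h0 (by rw [h.chain.bot, mem_cl0 hρ]; exact ⟨a1, a2⟩)
    · by_contra a3
      by_cases a4 : f ∈ C (i + 1)
      · rw [h.const i e (mem_sdiff.2 ⟨h1, h2⟩) f (mem_sdiff.2 ⟨a4, a3⟩)] at a2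
        exact lt_irrefl _ a2
      · exact lt_asymm a2 (h.lt _ e h1 (fun a5 => h2 (h0 a5)) f a1 a4)
  · intro a1
    refine ⟨h.chain.sub i a1, ?_⟩
    by_cases a2 : f ∈ C 0
    · rw [h.chain.bot, mem_cl0 hρ] at a2
      exact Or.inl a2.2
    · exact Or.inr (h.lt i f a1 a2 e (h.chain.sub _ h1) h2)

theorem Lev.full (hρ : IsRk ρ) (h : Lev E ρ C a) : Full E ρ a := by
  have hn : nl E ρ = E \ C 0 := by rw [nl_eq hρ, h.chain.bot]
  refine ⟨fun e he => h.zero e (hn ▸ he), fun e he => ?_, fun e he f hf hef => ?_⟩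
  · rw [hn, mem_sdiff] at he
    obtain ⟨k, -, a2, a3, a4⟩ := ex_level_top h.chain he.1 he.2
    rw [h.up_eq hρ a3 a4, hρ.rk_ins_flat (h.chain.cov k a2).1 he.1 a4]
    omega
  · rw [hn, mem_sdiff] at he hf
    obtain ⟨k, -, a2, a3, a4⟩ := ex_level_top h.chain he.1 he.2
    have a5 : f ∈ C (k + 1) := by
      by_contra a5
      exact (h.lt _ e a3 he.2 f hf.1 a5).ne hef
    rw [h.up_eq hρ a3 a4, ← (h.chain.cov k a2).2.2.2]
    exact hρ.mono _ _ (insert_subset a3 (insert_subset a5 (ch_succ h.chain k)))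

open Classical in
/-- the chain of the level sets -/
noncomputable def chn (E : Finset ℕ) (ρ : Finset ℕ → ℕ) (a : ℕ → ℝ) : ℕ → Finset ℕ
  | 0 => cl ρ E ∅
  | i + 1 => E.filter fun f => f ∈ chn E ρ a i ∨ ∀ g ∈ E, g ∉ chn E ρ a i → a g ≤ a f

theorem mem_chn {i f : ℕ} : f ∈ chn E ρ a (i + 1) ↔
    f ∈ E ∧ (f ∈ chn E ρ a i ∨ ∀ g ∈ E, g ∉ chn E ρ a i → a g ≤ a f) := by
  rw [chn, mem_filter]

theorem Lev.eq_chn (h : Lev E ρ C a) (i : ℕ) : C i = chn E ρ a i := by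
  induction i with
  | zero => exact h.chain.bot
  | succ i ih =>
    have h0 : C 0 ⊆ C i := ch_mono h.chain (Nat.zero_le i)
    ext f
    rw [mem_chn, ← ih]
    constructor
    · intro a1
      refine ⟨h.chain.sub _ a1, or_iff_not_imp_left.2 fun a2 g a3 a4 => ?_⟩
      by_cases a5 : g ∈ C (i + 1)
      · exact (h.const i g (mem_sdiff.2 ⟨a5, a4⟩) f (mem_sdiff.2 ⟨a1, a2⟩)).le
      · exact (h.lt _ f a1 (fun a6 => a2 (h0 a6)) g a3 a5).le
    · rintro ⟨a1, a2 | a2⟩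
      · exact ch_succ h.chain i a2
      · by_contra a3
        have a4 : i < ρ E := by
          by_contra a4
          exact a3 (by rwa [h.chain.top _ (by omega)])
        obtain ⟨g, a5, a6⟩ := exists_mem_notMem_of_card_lt_card (h.chain.cov i a4).card_lt
        exact absurd (a2 g (h.chain.sub _ a5) a6)
          (not_le.2 (h.lt _ g a5 (fun a7 => a6 (h0 a7)) f a1 a3))

theorem Full.flat (hρ : IsRk ρ) (h : Full E ρ a) {K : Finset ℕ} (h0 : cl ρ E ∅ ⊆ K) (h1 : K ⊆ E)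
    (h2 : ∀ e ∈ K, e ∉ cl ρ E ∅ → ∀ f ∈ E, f ∉ K → a f < a e) : Flat ρ E K := by
  refine ⟨h1, fun e he h3 => ?_⟩
  by_contra h4
  have h5 : e ∈ nl E ρ := by rw [nl_eq hρ]; exact mem_sdiff.2 ⟨he, fun h => h4 (h0 h)⟩
  refine h.ind e h5 (hρ.ins_of_sub (fun f hf => mem_up.2 ⟨h1 hf, ?_⟩) h3)
  by_cases h6 : f ∈ cl ρ E ∅
  · exact Or.inl ((mem_cl0 hρ).1 h6).2
  · exact Or.inr (h2 f hf h6 e he h4)

theorem Full.flat_up (hρ : IsRk ρ) (h : Full E ρ a) (t : ℝ) : Flat ρ E (up E ρ a t) := by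
  refine h.flat hρ (fun e he => ?_) (fun e he => (mem_up.1 he).1) fun e he h1 f hf h2 => ?_
  · rw [mem_cl0 hρ] at he
    exact mem_up.2 ⟨he.1, Or.inl he.2⟩
  · rw [mem_up] at he h2
    rw [mem_cl0 hρ] at h1
    have a1 : t < a e := he.2.resolve_left fun h => h1 ⟨he.1, h⟩
    have a2 : ¬t < a f := fun h => h2 ⟨hf, Or.inr h⟩
    linarith [not_lt.1 a2]

theorem Full.lev (hρ : IsRk ρ) (h : Full E ρ a) : Lev E ρ (chn E ρ a) a := by
  have h1 : ∀ i, cl ρ E ∅ ⊆ chn E ρ a i ∧ chn E ρ a i ⊆ E ∧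
      ∀ e ∈ chn E ρ a i, e ∉ cl ρ E ∅ → ∀ f ∈ E, f ∉ chn E ρ a i → a f < a e := by
    intro i
    induction i with
    | zero => exact ⟨Subset.rfl, H64.cl_subset _, fun e a1 a2 => absurd a1 a2⟩
    | succ i ih =>
      refine ⟨fun e he => mem_chn.2 ⟨ih.2.1 (ih.1 he), Or.inl (ih.1 he)⟩,
        fun e he => (mem_chn.1 he).1, fun e a1 a2 f a3 a4 => ?_⟩
      rw [mem_chn] at a1 a4
      push Not at a4
      obtain ⟨a5, g, a6, a7, a8⟩ := a4 a3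
      rcases a1.2 with a9 | a9
      · exact ih.2.2 e a9 a2 f a3 a5
      · exact lt_of_lt_of_le a8 (a9 g a6 a7)
  have h2 : ∀ i, Flat ρ E (chn E ρ a i) := fun i => h.flat hρ (h1 i).1 (h1 i).2.1 (h1 i).2.2
  have h3 : ∀ i, chn E ρ a i ⊆ chn E ρ a (i + 1) := fun i e he =>
    mem_chn.2 ⟨(h1 i).2.1 he, Or.inl he⟩
  have h4 : ∀ i, chn E ρ a i ≠ E → ρ (chn E ρ a (i + 1)) = ρ (chn E ρ a i) + 1 := by
    intro i hi
    obtain ⟨m, a1, a2⟩ := exists_max_image (E \ chn E ρ a i) a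
      (sdiff_nonempty.2 fun h => hi (Subset.antisymm (h1 i).2.1 h))
    rw [mem_sdiff] at a1
    have a0 : ∀ f ∈ E, f ∉ chn E ρ a i → f ∈ nl E ρ := fun f b1 b2 => by
      rw [nl_eq hρ]; exact mem_sdiff.2 ⟨b1, fun h => b2 ((h1 i).1 h)⟩
    have a3 : up E ρ a (a m) = chn E ρ a i := by
      ext f
      rw [mem_up]
      constructor
      · rintro ⟨b1, b2 | b2⟩
        · exact (h1 i).1 ((mem_cl0 hρ).2 ⟨b1, b2⟩)
        · by_contra b3
          exact absurd (a2 f (mem_sdiff.2 ⟨b1, b3⟩)) (not_le.2 b2)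
      · intro b1
        refine ⟨(h1 i).2.1 b1, ?_⟩
        by_cases b2 : f ∈ cl ρ E ∅
        · exact Or.inl ((mem_cl0 hρ).1 b2).2
        · exact Or.inr ((h1 i).2.2 f b1 b2 m a1.1 a1.2)
    have a4 := hρ.rk_ins_flat (h2 i) a1.1 a1.2
    have a5 := hρ.union_span (A := insert m (chn E ρ a i)) (chn E ρ a (i + 1)) fun f hf => by
      refine le_antisymm ?_ (hρ.le_ins _ _)
      by_cases b1 : f ∈ chn E ρ a i
      · rw [insert_eq_of_mem (mem_insert_of_mem b1)]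
      · obtain ⟨b2, b3⟩ := mem_chn.1 hf
        have b4 : a f = a m := le_antisymm (a2 f (mem_sdiff.2 ⟨b2, b1⟩))
          (b3.resolve_left b1 m a1.1 a1.2)
        have := h.one m (a0 m a1.1 a1.2) f (a0 f b2 b1) b4
        rw [a3, insert_comm] at this
        rwa [a4]
    rw [union_eq_right.2 (insert_subset (mem_chn.2 ⟨a1.1, Or.inr fun g b1 b2 =>
      a2 g (mem_sdiff.2 ⟨b1, b2⟩)⟩) (h3 i))] at a5
    rw [a5, a4]
  have h5 : ∀ i, ρ (chn E ρ a i) = i ∨ (chn E ρ a i = E ∧ ρ E ≤ i) := by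
    intro i
    induction i with
    | zero => exact Or.inl (by rw [chn, hρ.rk_cl (empty_subset _), hρ.empty])
    | succ i ih =>
      by_cases hi : chn E ρ a i = E
      · refine Or.inr ⟨Subset.antisymm (h1 _).2.1 (hi.ge.trans (h3 i)), ?_⟩
        rw [hi] at ih
        omega
      · exact Or.inl (by rw [h4 i hi, ih.resolve_right fun h => hi h.1])
  refine ⟨⟨rfl, fun i hi => ?_, fun i hi => ⟨h2 i, h2 _, h3 i, h4 i fun h6 => ?_⟩⟩,
    fun e he => h.zero e (by rwa [nl_eq hρ]), fun i e he f hf => ?_, fun i => (h1 i).2.2⟩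
  · rcases h5 i with h6 | h6
    · exact hρ.flat_eq (h2 i) H64.flat_top (h1 i).2.1 (by omega)
    · exact h6.1
  · have := h5 i
    rw [h6] at this
    omega
  · rw [mem_sdiff, mem_chn] at he hf
    exact le_antisymm (hf.1.2.resolve_left hf.2 e he.1.1 he.2)
      (he.1.2.resolve_left he.2 f hf.1.1 hf.2)

/-- the least element of a level -/
noncomputable def rp (C : ℕ → Finset ℕ) (i : ℕ) : ℕ := sInf {e | e ∈ C i ∧ e ∉ C (i - 1)}

theorem rp_mem (h : Chain E ρ C) {i : ℕ} (hi : i < ρ E) :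
    rp C (i + 1) ∈ C (i + 1) ∧ rp C (i + 1) ∉ C i :=
  Nat.sInf_mem (s := {e | e ∈ C (i + 1) ∧ e ∉ C (i + 1 - 1)})
    (exists_mem_notMem_of_card_lt_card (h.cov i hi).card_lt)

theorem lt_of_rp (h : Chain E ρ C)
    (hc : ∀ i, ∀ e ∈ C (i + 1) \ C i, ∀ f ∈ C (i + 1) \ C i, a e = a f)
    (hw : ∀ i, 1 ≤ i → i < ρ E → a (rp C (i + 1)) < a (rp C i)) :
    ∀ i, ∀ e ∈ C i, e ∉ C 0 → ∀ f ∈ E, f ∉ C i → a f < a e := by
  intro i e a1 a2 f a3 a4
  obtain ⟨k, -, b2, b3, b4⟩ := ex_level (Nat.zero_le i) a1 a2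
  obtain ⟨l, c1, c2, c3, c4⟩ := ex_level_top h a3 a4
  rw [hc k e (mem_sdiff.2 ⟨b3, b4⟩) _ (mem_sdiff.2 (rp_mem h (by omega))),
    hc l f (mem_sdiff.2 ⟨c3, c4⟩) _ (mem_sdiff.2 (rp_mem h c2))]
  have : ∀ m, k + 1 ≤ m → m < ρ E → a (rp C (m + 1)) < a (rp C (k + 1)) := by
    intro m hm
    induction m, hm using Nat.le_induction with
    | base => exact hw _ (by omega)
    | succ m hm ih => exact fun h => (hw _ (by omega) h).trans (ih (by omega))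
  exact this l (by omega) c2

theorem Lev.rp_lt (h : Lev E ρ C a) {i : ℕ} (h1 : 1 ≤ i) (h2 : i < ρ E) :
    a (rp C (i + 1)) < a (rp C i) := by
  obtain ⟨k, rfl⟩ : ∃ k, i = k + 1 := ⟨i - 1, by omega⟩
  have a1 := rp_mem h.chain h2
  have a2 := rp_mem h.chain (i := k) (by omega)
  exact h.lt _ _ a2.1 (fun a3 => a2.2 (ch_mono h.chain (Nat.zero_le k) a3)) _ (h.chain.sub _ a1.1) a1.2

/-- the value of a constraint -/
def cv (c : ℕ × ℕ) (v : ℕ × ℕ → ℝ) : ℝ :=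
  if c.1 = 0 then -v (2, c.2) else if c.1 = 1 then v (2, c.2) - v (0, c.2)
  else v (1, c.2) - v (2, c.2)

/-- the vectors that are constant on the levels of `p` -/
structure Sp (E : Finset ℕ) (ρ : Finset ℕ → ℕ) (p v : ℕ × ℕ → ℝ) : Prop where
  c0 : ∀ e ∈ nl E ρ, ∀ f ∈ nl E ρ, p (0, e) = p (0, f) → v (0, e) = v (0, f)
  c1 : ∀ e ∈ nl E (H64.dual ρ E), ∀ f ∈ nl E (H64.dual ρ E), p (1, e) = p (1, f) →
    v (1, e) = v (1, f)
  z0 : ∀ e, e ∉ nl E ρ → v (0, e) = 0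
  z1 : ∀ e, e ∉ nl E (H64.dual ρ E) → v (1, e) = 0
  z2 : ∀ e, e ∉ E → v (2, e) = 0
  z3 : ∀ t e, 3 ≤ t → v (t, e) = 0

/-- terminal points -/
structure TP (E : Finset ℕ) (ρ : Finset ℕ → ℕ) (θ p : ℕ × ℕ → ℝ) : Prop where
  f0 : Full E ρ fun e => p (0, e)
  f1 : Full E (H64.dual ρ E) fun e => -p (1, e)
  z2 : ∀ e, e ∉ E → p (2, e) = 0
  z3 : ∀ t e, 3 ≤ t → p (t, e) = 0
  feas : ∀ c ∈ cons E ρ, cv c p ≤ θ c
  rig : ∀ v, Sp E ρ p v → (∀ c ∈ cons E ρ, cv c p = θ c → cv c v = 0) → v = 0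

variable {σ : ℕ × ℕ → Finset ℕ} {θ p v : ℕ × ℕ → ℝ} {c : ℕ × ℕ}

theorem mem_cons (hρ : IsRk ρ) : c ∈ cons E ρ ↔ (c.1 = 0 ∧ c.2 ∈ E) ∨ (c.1 = 1 ∧ c.2 ∈ nl E ρ) ∨
    (c.1 = 2 ∧ c.2 ∈ nl E (H64.dual ρ E)) := by
  rw [nl_eq hρ, nl_eq (hρ.isRk_dual E)]
  simp only [cons, rs, mem_union, mem_product, mem_singleton, or_assoc, if_true, one_ne_zero,
    if_false]

theorem mem_walls : c ∈ walls E ρ ↔ (c.1 = 3 ∧ 1 ≤ c.2 ∧ c.2 < ρ E) ∨
    (c.1 = 4 ∧ 1 ≤ c.2 ∧ c.2 < H64.dual ρ E E) := by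
  simp only [walls, rs, mem_union, mem_product, mem_singleton, mem_Ico, if_true, one_ne_zero,
    if_false]

theorem not_wall (hρ : IsRk ρ) (hc : c ∈ cons E ρ) : c ∉ walls E ρ := by
  rw [mem_cons hρ] at hc
  rw [mem_walls]
  omega

theorem cov_eq_cv (hρ : IsRk ρ) (hc : c ∈ cons E ρ) (h : v (5, 0) = 0) : cov σ c v = cv c v := by
  rw [mem_cons hρ] at hc
  rw [cov_apply]
  rcases hc with h1 | h1 | h1 <;> simp [ends, cv, h1.1, h]

theorem Lev.same (h : Lev E ρ C a) {e f : ℕ} (he : e ∈ E \ C 0) (hf : f ∈ E \ C 0)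
    (hef : a e = a f) : ∃ i, e ∈ C (i + 1) \ C i ∧ f ∈ C (i + 1) \ C i := by
  rw [mem_sdiff] at he hf
  obtain ⟨k, -, -, a3, a4⟩ := ex_level_top h.chain he.1 he.2
  refine ⟨k, mem_sdiff.2 ⟨a3, a4⟩, mem_sdiff.2 ⟨?_, fun a5 => ?_⟩⟩
  · by_contra a5
    exact (h.lt _ e a3 he.2 f hf.1 a5).ne hef.symm
  · exact (h.lt _ f a5 hf.2 e he.1 a4).ne hef

theorem span_iff (hρ : IsRk ρ) (h0 : Lev E ρ (ch σ 0) fun e => p (0, e))
    (h1 : Lev E (H64.dual ρ E) (ch σ 1) fun e => -p (1, e)) : v ∈ span E σ ↔ Sp E ρ p v := by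
  have n0 : nl E ρ = E \ ch σ 0 0 := by rw [nl_eq hρ, h0.chain.bot]
  have n1 : nl E (H64.dual ρ E) = E \ ch σ 1 0 := by rw [nl_eq (hρ.isRk_dual E), h1.chain.bot]
  constructor
  · rintro ⟨a1, a2, a3, a4⟩
    refine ⟨fun e he f hf h => ?_, fun e he f hf h => ?_, fun e he => a2 0 (by omega) e (n0 ▸ he),
      fun e he => a2 1 (by omega) e (n1 ▸ he), a3, a4⟩
    · obtain ⟨i, b1, b2⟩ := h0.same (n0 ▸ he) (n0 ▸ hf) h
      exact a1 0 (by omega) i e b1 f b2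
    · obtain ⟨i, b1, b2⟩ := h1.same (n1 ▸ he) (n1 ▸ hf) (congrArg Neg.neg h)
      exact a1 1 (by omega) i e b1 f b2
  · intro h
    refine ⟨fun j hj i e he f hf => ?_, fun j hj e he => ?_, h.z2, h.z3⟩
    · have b : ∀ {R : Finset ℕ → ℕ} {D : ℕ → Finset ℕ}, Chain E R D → ∀ x ∈ D (i + 1) \ D i,
          x ∈ E \ D 0 := fun hD x hx => mem_sdiff.2 ⟨hD.sub _ (mem_sdiff.1 hx).1,
            fun h' => (mem_sdiff.1 hx).2 (ch_mono hD (Nat.zero_le i) h')⟩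
      interval_cases j
      · exact h.c0 e (n0 ▸ b h0.chain e he) f (n0 ▸ b h0.chain f hf) (h0.const i e he f hf)
      · exact h.c1 e (n1 ▸ b h1.chain e he) f (n1 ▸ b h1.chain f hf)
          (neg_injective (h1.const i e he f hf))
    · interval_cases j
      · exact h.z0 e (n0 ▸ he)
      · exact h.z1 e (n1 ▸ he)

open Classical in
/-- the tight constraints -/
noncomputable def tight (E : Finset ℕ) (ρ : Finset ℕ → ℕ) (θ p : ℕ × ℕ → ℝ) : Finset (ℕ × ℕ) :=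
  (cons E ρ).filter fun c => cv c p = θ c

theorem mem_tight : c ∈ tight E ρ θ p ↔ c ∈ cons E ρ ∧ cv c p = θ c := by
  unfold tight; rw [mem_filter]

/-- the cone of a point -/
noncomputable def cone (E : Finset ℕ) (ρ : Finset ℕ → ℕ) (p : ℕ × ℕ → ℝ) (x : ℕ × ℕ) : Finset ℕ :=
  if x.1 = 3 then chn E ρ (fun e => p (0, e)) x.2
  else if x.1 = 4 then chn E (H64.dual ρ E) (fun e => -p (1, e)) x.2 else ∅

theorem th_cons (hρ : IsRk ρ) (hc : c ∈ cons E ρ) : (sys E ρ).th θ c = θ c :=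
  if_neg (not_wall hρ hc)

/-- the point of a terminal -/
theorem tp_of_tm (hρ : IsRk ρ) {T : Finset (ℕ × ℕ)} (h : (σ, T) ∈ (sys E ρ).Tm θ) :
    TP E ρ θ ((sys E ρ).pt θ σ T) ∧ T = tight E ρ θ ((sys E ρ).pt θ σ T) ∧
      σ = cone E ρ ((sys E ρ).pt θ σ T) := by
  obtain ⟨h1, h2⟩ := Sys.mem_VJ.1 h
  dsimp only at h1 h2
  rw [card_eq_zero] at h2
  have hσ : IsCone E ρ σ := mem_Ch.1 h1.1.1
  have hp : (sys E ρ).pt θ σ T ∈ span E σ := h1.1.pt_mem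
  set q := (sys E ρ).pt θ σ T with hq
  have hw : ∀ k ∈ walls E ρ, cov σ k q < 0 := fun k hk => by
    have a1 := h1.2 k (Sys.mem_Cn.2 (Or.inl hk)) fun a2 =>
      notMem_empty k (h2 ▸ mem_inter.2 ⟨a2, hk⟩)
    have a2 : (sys E ρ).th θ k = 0 := if_pos hk
    unfold Sys.sl at a1
    rw [a2] at a1
    exact sub_pos.1 a1
  have c0 : Chain E ρ (ch σ 0) := hσ.chain 0 (by omega)
  have c1 : Chain E (H64.dual ρ E) (ch σ 1) := hσ.chain 1 (by omega)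
  have l0 : Lev E ρ (ch σ 0) fun e => q (0, e) :=
    ⟨c0, hp.2.1 0 (by omega), hp.1 0 (by omega), lt_of_rp c0 (hp.1 0 (by omega)) fun i a1 a2 =>
      sub_neg.1 (hw (3, i) (mem_walls.2 (Or.inl ⟨rfl, a1, a2⟩)))⟩
  have l1 : Lev E (H64.dual ρ E) (ch σ 1) fun e => -q (1, e) := by
    have a0 : ∀ i, ∀ e ∈ ch σ 1 (i + 1) \ ch σ 1 i, ∀ f ∈ ch σ 1 (i + 1) \ ch σ 1 i,
        -q (1, e) = -q (1, f) := fun i e he f hf => by rw [hp.1 1 (by omega) i e he f hf]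
    exact ⟨c1, fun e he => neg_eq_zero.2 (hp.2.1 1 (by omega) e he), a0, lt_of_rp c1 a0
      fun i a1 a2 => neg_lt_neg (sub_neg.1 (hw (4, i) (mem_walls.2 (Or.inr ⟨rfl, a1, a2⟩))))⟩
  have h5 : q (5, 0) = 0 := hp.2.2.2 5 0 (by omega)
  have hT : T = tight E ρ θ q := by
    ext c
    rw [mem_tight]
    constructor
    · intro a1
      have a2 : c ∈ cons E ρ := (Sys.mem_Cn.1 (h1.1.2.1 a1)).resolve_left fun a2 =>
        notMem_empty c (h2 ▸ mem_inter.2 ⟨a1, a2⟩)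
      exact ⟨a2, by rw [← cov_eq_cv (σ := σ) hρ a2 h5, ← th_cons (θ := θ) hρ a2]; exact h1.1.pt_tight a1⟩
    · rintro ⟨a1, a2⟩
      by_contra a3
      have a4 := h1.2 c (Sys.mem_Cn.2 (Or.inr a1)) a3
      unfold Sys.sl at a4
      rw [th_cons hρ a1, ← a2, ← cov_eq_cv (σ := σ) hρ a1 h5] at a4
      exact lt_irrefl _ (sub_pos.1 a4)
  refine ⟨⟨l0.full hρ, l1.full (hρ.isRk_dual E), hp.2.2.1, hp.2.2.2, fun c hc => ?_,
    fun v a1 a2 => ?_⟩, hT, ?_⟩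
  · rw [← cov_eq_cv (σ := σ) hρ hc h5, ← th_cons (θ := θ) hρ hc]
    exact h1.le (Sys.mem_Cn.2 (Or.inr hc))
  · refine h1.1.frame.eq_zero ((span_iff hρ l0 l1).2 a1) fun c hc => ?_
    rw [hT, mem_tight] at hc
    exact (cov_eq_cv hρ hc.1 (a1.z3 5 0 (by omega))).trans (a2 c hc.1 hc.2)
  · funext ⟨t, i⟩
    unfold cone
    split_ifs with a1 a2
    · obtain rfl : t = 3 := a1
      exact l0.eq_chn i
    · obtain rfl : t = 4 := a2
      exact l1.eq_chn i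
    · exact hσ.junk t i a1 a2

/-- the terminal of a point -/
theorem tm_of_tp (hρ : IsRk ρ) (hG : (sys E ρ).Gen θ) (h : TP E ρ θ p) :
    (cone E ρ p, tight E ρ θ p) ∈ (sys E ρ).Tm θ ∧
      (sys E ρ).pt θ (cone E ρ p) (tight E ρ θ p) = p := by
  have l0 : Lev E ρ (ch (cone E ρ p) 0) fun e => p (0, e) := h.f0.lev hρ
  have l1 : Lev E (H64.dual ρ E) (ch (cone E ρ p) 1) fun e => -p (1, e) :=
    h.f1.lev (hρ.isRk_dual E)
  have hσ : cone E ρ p ∈ (sys E ρ).Ch := mem_Ch.2 ⟨fun j hj => by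
    interval_cases j
    · exact l0.chain
    · exact l1.chain, fun t i a1 a2 => by simp [cone, a1, a2]⟩
  have h5 : p (5, 0) = 0 := h.z3 5 0 (by omega)
  have := Sys.vx_of_rigid (T := tight E ρ θ p) hG hσ (q := p)
    ((span_iff hρ l0 l1).2 ⟨fun _ _ _ _ h => h, fun _ _ _ _ h => h, h.f0.zero,
      fun e he => neg_eq_zero.1 (h.f1.zero e he), h.z2, h.z3⟩)
    (fun c hc => Sys.mem_Cn.2 (Or.inr (mem_tight.1 hc).1))
    (fun c hc => by
      rw [mem_tight] at hc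
      rw [th_cons hρ hc.1]
      exact (cov_eq_cv hρ hc.1 h5).trans hc.2)
    (fun d hd hT => by
      rcases Sys.mem_Cn.1 hd with a1 | a1
      · have a2 : (sys E ρ).th θ d = 0 := if_pos a1
        rw [a2]
        obtain ⟨t, i⟩ := d
        rcases mem_walls.1 a1 with ⟨a3, a4, a5⟩ | ⟨a3, a4, a5⟩
        · obtain rfl : t = 3 := a3
          exact sub_neg.2 (l0.rp_lt a4 a5)
        · obtain rfl : t = 4 := a3
          exact sub_neg.2 (neg_lt_neg_iff.1 (l1.rp_lt a4 a5))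
      · rw [th_cons hρ a1]
        refine (cov_eq_cv hρ a1 h5).trans_lt (lt_of_le_of_ne (h.feas d a1) fun a2 => hT ?_)
        exact mem_tight.2 ⟨a1, a2⟩)
    (fun v a1 a2 => by
      have a3 := (span_iff hρ l0 l1).1 a1
      exact h.rig v a3 fun c b1 b2 => (cov_eq_cv hρ b1 (a3.z3 5 0 (by omega))).symm.trans
        (a2 c (mem_tight.2 ⟨b1, b2⟩)))
  refine ⟨Sys.mem_VJ.2 ⟨this.1, card_eq_zero.2 (eq_empty_of_forall_notMem fun c hc => ?_)⟩, this.2⟩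
  exact not_wall hρ (mem_tight.1 (mem_inter.1 hc).1).1 (mem_inter.1 hc).2

open Classical in
/-- the finite set of terminal points -/
noncomputable def TPs (E : Finset ℕ) (ρ : Finset ℕ → ℕ) (θ : ℕ × ℕ → ℝ) : Finset (ℕ × ℕ → ℝ) :=
  ((sys E ρ).Tm θ).image fun v => (sys E ρ).pt θ v.1 v.2

theorem mem_TPs (hρ : IsRk ρ) (hG : (sys E ρ).Gen θ) : p ∈ TPs E ρ θ ↔ TP E ρ θ p := by
  classical
  unfold TPs
  rw [mem_image]
  exact ⟨fun ⟨v, a1, a2⟩ => a2 ▸ (tp_of_tm hρ a1).1,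
    fun h => ⟨_, (tm_of_tp hρ hG h).1, (tm_of_tp hρ hG h).2⟩⟩

/-- the partition function as a sum over points -/
theorem Zs_eq (hρ : IsRk ρ) (θ A : ℕ × ℕ → ℝ) :
    (sys E ρ).Zs θ A = ∑ p ∈ TPs E ρ θ, ∏ c ∈ tight E ρ θ p, (A c)⁻¹ := by
  classical
  unfold TPs Sys.Zs
  rw [sum_image]
  · refine sum_congr rfl fun v hv => ?_
    have h := (tp_of_tm hρ (σ := v.1) (T := v.2) hv).2.1
    rw [← h, Sys.om, inter_eq_left.2]
    intro c hc
    rw [h] at hc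
    exact (mem_tight.1 hc).1
  · intro v hv w hw h
    have a1 := (tp_of_tm hρ (σ := v.1) (T := v.2) hv).2
    have a2 := (tp_of_tm hρ (σ := w.1) (T := w.2) hw).2
    dsimp only at h
    rw [h] at a1
    exact Prod.ext (a1.2.trans a2.2.symm) (a1.1.trans a2.1.symm)

end H78

end Pool.Agent.Lib.US
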