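import Pool.Agent.Lib.FL.Mix28

/-! A killed random walk on a weighted network, run for a bounded number of steps. -/

namespace Pool.Agent.US.Tick72

open Finset Pool.Agent.Lib.MP_b67cc8_lc Pool.Agent.FL.Mix28

variable {σ δ : Type} [DecidableEq σ]

/-- a network: vertices, darts with reversal, conductances, killing weights, normalisers -/
structure Net (Ω : Finset σ) (D : Finset δ) (tl hd : δ → σ) (rv : δ → δ) (C : δ → ℝ)
    (W B : σ → ℝ) : Prop where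
  tl_mem : ∀ d ∈ D, tl d ∈ Ω
  rv_mem : ∀ d ∈ D, rv d ∈ D
  rv_rv : ∀ d ∈ D, rv (rv d) = d
  tl_rv : ∀ d ∈ D, tl (rv d) = hd d
  C_rv : ∀ d ∈ D, C (rv d) = C d
  C_nn : ∀ d ∈ D, 0 ≤ C d
  W_nn : ∀ v ∈ Ω, 0 ≤ W v
  B_pos : ∀ v ∈ Ω, 0 < B v
  B_ge : ∀ v ∈ Ω, W v + ∑ d ∈ D.filter (tl · = v), C d ≤ B v

/-- the law of one step: killed, along a dart, or staying -/
def Law (Ω : Finset σ) (D : Finset δ) (tl hd : δ → σ) (C : δ → ℝ) (W B : σ → ℝ) (b : ℕ)
    (st : σ → List Bool → σ × Bool) : Prop :=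
  ∀ v ∈ Ω, ∀ φ : σ × Bool → ℝ, B v * Ex b (fun x => φ (st v x)) =
    W v * φ (v, true) + ∑ d ∈ D.filter (tl · = v), C d * φ (hd d, false) +
      (B v - W v - ∑ d ∈ D.filter (tl · = v), C d) * φ (v, false)

/-- one step, frozen after the killing -/
def tk (st : σ → List Bool → σ × Bool) (p : σ × Bool) (x : List Bool) : σ × Bool :=
  if p.2 = true then p else st p.1 x

/-- `T` steps; the killing place, or the start if the walk is still alive -/
def tick (b : ℕ) (st : σ → List Bool → σ × Bool) (T : ℕ) (s : σ) (x : List Bool) : σ :=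
  if (rit b (tk st) T (s, false) x).2 = true then (rit b (tk st) T (s, false) x).1 else s

variable {Ω : Finset σ} {D : Finset δ} {tl hd : δ → σ} {rv : δ → δ} {C : δ → ℝ} {W B : σ → ℝ}

/-- the unnormalised transition operator -/
noncomputable def Aop (D : Finset δ) (tl hd : δ → σ) (C : δ → ℝ) (W B : σ → ℝ) (G : σ → ℝ)
    (v : σ) : ℝ :=
  ∑ d ∈ D.filter (tl · = v), C d * G (hd d) + (B v - W v - ∑ d ∈ D.filter (tl · = v), C d) * G v

theorem Net.hd_mem (N : Net Ω D tl hd rv C W B) {d : δ} (hd' : d ∈ D) : hd d ∈ Ω :=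
  N.tl_rv d hd' ▸ N.tl_mem _ (N.rv_mem d hd')

theorem Net.hd_rv (N : Net Ω D tl hd rv C W B) {d : δ} (hd' : d ∈ D) : hd (rv d) = tl d := by
  rw [← N.tl_rv _ (N.rv_mem d hd'), N.rv_rv d hd']

theorem Net.sum_rv (N : Net Ω D tl hd rv C W B) (F : σ → σ → ℝ) :
    ∑ d ∈ D, C d * F (tl d) (hd d) = ∑ d ∈ D, C d * F (hd d) (tl d) :=
  sum_nbij' rv rv N.rv_mem N.rv_mem N.rv_rv N.rv_rv fun d h => by
    rw [N.C_rv d h, N.tl_rv d h, N.hd_rv h]

theorem Net.sum_fib (N : Net Ω D tl hd rv C W B) (F : σ → δ → ℝ) :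
    ∑ v ∈ Ω, ∑ d ∈ D.filter (tl · = v), F v d = ∑ d ∈ D, F (tl d) d := by
  rw [← sum_fiberwise_of_maps_to (g := tl) N.tl_mem]
  exact sum_congr rfl fun v _ => sum_congr rfl fun d h => by rw [(mem_filter.1 h).2]

theorem Net.sum_A (N : Net Ω D tl hd rv C W B) (F G : σ → ℝ) :
    ∑ v ∈ Ω, F v * Aop D tl hd C W B G v = ∑ d ∈ D, C d * (F (tl d) * G (hd d)) +
      ∑ v ∈ Ω, (B v - W v) * (F v * G v) - ∑ d ∈ D, C d * (F (tl d) * G (tl d)) := by
  rw [← N.sum_fib fun v d => C d * (F v * G (hd d)), ← N.sum_fib fun v d => C d * (F v * G v),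
    ← sum_add_distrib, ← sum_sub_distrib]
  refine sum_congr rfl fun v _ => ?_
  rw [Aop, mul_add, mul_sum, ← sum_mul _ _ (F v * G v)]
  rw [sum_congr rfl fun d _ => show F v * (C d * G (hd d)) = C d * (F v * G (hd d)) by ring]
  ring

theorem Net.sum_A_one (N : Net Ω D tl hd rv C W B) (G : σ → ℝ) :
    ∑ v ∈ Ω, Aop D tl hd C W B G v = ∑ v ∈ Ω, (B v - W v) * G v := by
  have h := N.sum_A (fun _ => 1) G
  have h2 := N.sum_rv fun _ y => G y
  simp only [one_mul] at h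
  rw [h, h2]
  ring

theorem Net.sum_A_self (N : Net Ω D tl hd rv C W B) (G : σ → ℝ) :
    ∑ v ∈ Ω, G v * Aop D tl hd C W B G v = ∑ v ∈ Ω, (B v - W v) * (G v * G v) -
      (∑ d ∈ D, C d * (G (hd d) - G (tl d)) ^ 2) / 2 := by
  have h2 := N.sum_rv fun x _ => G x * G x
  have h3 : ∑ d ∈ D, C d * (G (hd d) - G (tl d)) ^ 2 = ∑ d ∈ D, C d * (G (hd d) * G (hd d)) +
      ∑ d ∈ D, C d * (G (tl d) * G (tl d)) - 2 * ∑ d ∈ D, C d * (G (tl d) * G (hd d)) := by
    rw [mul_sum, ← sum_add_distrib, ← sum_sub_distrib]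
    exact sum_congr rfl fun d _ => by ring
  rw [N.sum_A, h3, ← h2]
  ring

theorem Net.A_mono (N : Net Ω D tl hd rv C W B) {F G : σ → ℝ} (h : ∀ v ∈ Ω, F v ≤ G v) {v : σ}
    (hv : v ∈ Ω) : Aop D tl hd C W B F v ≤ Aop D tl hd C W B G v := by
  have := N.B_ge v hv
  refine add_le_add (sum_le_sum fun d hd' => ?_)
    (mul_le_mul_of_nonneg_left (h v hv) (by linarith))
  have hd'' := (mem_filter.1 hd').1
  exact mul_le_mul_of_nonneg_left (h _ (N.hd_mem hd'')) (N.C_nn d hd'')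

omit [DecidableEq σ] in
theorem it_true (b : ℕ) (st : σ → List Bool → σ × Bool) (F : σ × Bool → ℝ) (k : ℕ) (v : σ) :
    (Kop b (tk st))^[k] F (v, true) = F (v, true) := by
  induction k with
  | zero => rfl
  | succ k ih =>
    rw [Function.iterate_succ_apply', Kop]
    simp only [tk, if_true, ih, Ex_const]

theorem it_succ {b : ℕ} {st : σ → List Bool → σ × Bool} (hL : Law Ω D tl hd C W B b st)
    (F : σ × Bool → ℝ) (k : ℕ) {v : σ} (hv : v ∈ Ω) :
    B v * (Kop b (tk st))^[k + 1] F (v, false) = W v * F (v, true) +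
      Aop D tl hd C W B (fun u => (Kop b (tk st))^[k] F (u, false)) v := by
  rw [Function.iterate_succ_apply', Kop]
  simp only [tk, Bool.false_eq_true, if_false]
  rw [hL v hv, it_true, Aop, add_assoc]

theorem A_lin (a c : ℝ) (F G : σ → ℝ) (v : σ) :
    Aop D tl hd C W B (fun u => a * F u + c * G u) v =
      a * Aop D tl hd C W B F v + c * Aop D tl hd C W B G v := by
  simp only [Aop]
  rw [sum_congr rfl fun d _ => show C d * (a * F (hd d) + c * G (hd d)) =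
    a * (C d * F (hd d)) + c * (C d * G (hd d)) by ring, sum_add_distrib, ← mul_sum, ← mul_sum]
  ring

theorem A_one (v : σ) : Aop D tl hd C W B (fun _ => 1) v = B v - W v := by
  simp only [Aop, mul_one]
  ring

/-- the analytic core -/
theorem core (N : Net Ω D tl hd rv C W B) (h : σ → ℝ) (G fl : ℕ → σ → ℝ)
    (h1 : ∀ v ∈ Ω, |h v| ≤ 1) (h0 : ∑ v ∈ Ω, W v * h v = 0)
    (G0 : ∀ v, G 0 v = 0) (f0 : ∀ v, fl 0 v = 1)
    (Gs : ∀ k, ∀ v ∈ Ω, B v * G (k + 1) v = W v * h v + Aop D tl hd C W B (G k) v)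
    (fs : ∀ k, ∀ v ∈ Ω, B v * fl (k + 1) v = Aop D tl hd C W B (fl k) v)
    {ε : ℝ} (ε0 : 0 < ε) (T : ℕ) (Z0 : 0 < ∑ v ∈ Ω, W v)
    (hP : ∀ g : σ → ℝ, ∃ c, ∑ v ∈ Ω, W v * (g v - c) ^ 2 ≤
      ε * ((∑ d ∈ D, C d * (g (hd d) - g (tl d)) ^ 2) / 2))
    (hB : ∑ v ∈ Ω, B v ≤ ε * T * ∑ v ∈ Ω, W v) :
    ∑ v ∈ Ω, W v * |G T v + fl T v * h v| ≤ 4 * ε * ∑ v ∈ Ω, W v := by
  set Z := ∑ v ∈ Ω, W v with hZ
  have hD : ∀ k, ∀ v ∈ Ω, ∀ s : ℝ, s = 1 ∨ s = -1 →
      s * G (k + 1) v + -s * G k v ≤ 1 * fl k v + -1 * fl (k + 1) v := by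
    intro k
    induction k with
    | zero =>
      intro v hv s hs
      have a1 := Gs 0 v hv
      have a2 := fs 0 v hv
      rw [show G 0 = fun u => 0 * 1 + 0 * 1 from funext fun u => by simp [G0],
        A_lin 0 0 (fun _ => 1) fun _ => 1] at a1
      rw [show fl 0 = fun _ => 1 from funext f0, A_one] at a2
      have hW := N.W_nn v hv
      have := abs_le.1 (h1 v hv)
      refine le_of_mul_le_mul_left ?_ (N.B_pos v hv)
      rw [G0, f0]
      rcases hs with rfl | rfl <;> nlinarith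
    | succ k ih =>
      intro v hv s hs
      have a := N.A_mono (F := fun u => s * G (k + 1) u + -s * G k u)
        (G := fun u => 1 * fl k u + -1 * fl (k + 1) u) (fun u hu => ih u hu s hs) hv
      rw [A_lin, A_lin] at a
      have a1 := Gs k v hv
      have a2 := Gs (k + 1) v hv
      have a3 := fs k v hv
      have a4 := fs (k + 1) v hv
      refine le_of_mul_le_mul_left ?_ (N.B_pos v hv)
      have e : B v * (s * G (k + 1 + 1) v + -s * G (k + 1) v) =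
        s * (B v * G (k + 1 + 1) v) + -s * (B v * G (k + 1) v) := by ring
      rw [e, a1, a2]
      linarith
  have hf0 : ∀ k, ∀ v ∈ Ω, 0 ≤ fl k v := by
    intro k
    induction k with
    | zero => intro v _; rw [f0]; exact zero_le_one
    | succ k ih =>
      intro v hv
      have a := N.A_mono (F := fun _ => 0 * 1 + 0 * 1) (G := fl k)
        (fun u hu => by simpa using ih u hu) hv
      rw [A_lin 0 0 (fun _ => 1) fun _ => 1, ← fs k v hv] at a
      exact nonneg_of_mul_nonneg_right (by simpa using a) (N.B_pos v hv) |> fun h => h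
  have hG1 : ∀ k, ∀ v ∈ Ω, ∀ s : ℝ, s = 1 ∨ s = -1 → s * G k v ≤ 1 - fl k v := by
    intro k
    induction k with
    | zero => intro v _ s _; rw [G0, f0]; simp
    | succ k ih => intro v hv s hs; have := ih v hv s hs; have := hD k v hv s hs; linarith
  have hdec : ∀ k, ∀ v ∈ Ω, fl (k + 1) v ≤ fl k v := fun k v hv => by
    have := hD k v hv 1 (Or.inl rfl); have := hD k v hv (-1) (Or.inr rfl); linarith
  have hBf : ∀ k, ∑ v ∈ Ω, B v * (fl k v - fl (k + 1) v) = ∑ v ∈ Ω, W v * fl k v := fun k => by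
    have a : ∑ v ∈ Ω, B v * fl (k + 1) v = ∑ v ∈ Ω, (B v - W v) * fl k v := by
      rw [← N.sum_A_one]; exact sum_congr rfl (fs k)
    simp only [mul_sub, sub_mul, sum_sub_distrib] at a ⊢
    linarith
  have hTa : ∀ k : ℕ, k * ∑ v ∈ Ω, W v * fl k v + ∑ v ∈ Ω, B v * fl k v ≤ ∑ v ∈ Ω, B v := by
    intro k
    induction k with
    | zero => simp [f0]
    | succ k ih =>
      have a := hBf k
      simp only [mul_sub, sum_sub_distrib] at a
      have c : ∑ v ∈ Ω, W v * fl (k + 1) v ≤ ∑ v ∈ Ω, W v * fl k v :=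
        sum_le_sum fun v hv => mul_le_mul_of_nonneg_left (hdec k v hv) (N.W_nn v hv)
      have := mul_le_mul_of_nonneg_left c (show (0 : ℝ) ≤ k + 1 by positivity)
      push_cast
      linarith
  set a := ∑ v ∈ Ω, W v * fl T v with ha
  have a0 : 0 ≤ a := sum_nonneg fun v hv => mul_nonneg (N.W_nn v hv) (hf0 T v hv)
  have aZ : a ≤ ε * Z := by
    have c : 0 ≤ ∑ v ∈ Ω, B v * fl T v :=
      sum_nonneg fun v hv => mul_nonneg (N.B_pos v hv).le (hf0 T v hv)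
    have hT := hTa T
    rcases Nat.eq_zero_or_pos T with rfl | T0
    · have c1 : Z ≤ ∑ v ∈ Ω, B v := sum_le_sum fun v hv => by
        have := N.B_ge v hv
        have : 0 ≤ ∑ d ∈ D.filter (tl · = v), C d :=
          sum_nonneg fun d hd' => N.C_nn d (mem_filter.1 hd').1
        linarith
      simp only [Nat.cast_zero, mul_zero, zero_mul] at hB
      linarith
    · refine le_of_mul_le_mul_left ?_ (show (0 : ℝ) < T by exact_mod_cast T0)
      linarith
  have hR : ∀ F : σ → ℝ, (∀ v ∈ Ω, |F v| ≤ 1) →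
      |∑ v ∈ Ω, F v * (B v * (G (T + 1) v - G T v))| ≤ a := fun F hF => by
    rw [ha, ← hBf T]
    refine (abs_sum_le_sum_abs _ _).trans (sum_le_sum fun v hv => ?_)
    have c1 := hD T v hv 1 (Or.inl rfl)
    have c2 := hD T v hv (-1) (Or.inr rfl)
    rw [abs_mul, abs_mul, abs_of_pos (N.B_pos v hv)]
    have c3 : |G (T + 1) v - G T v| ≤ fl T v - fl (T + 1) v := abs_le.2 ⟨by linarith, by linarith⟩
    have c4 := mul_le_mul_of_nonneg_left c3 (N.B_pos v hv).le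
    have c5 : 0 ≤ B v * |G (T + 1) v - G T v| := mul_nonneg (N.B_pos v hv).le (abs_nonneg _)
    nlinarith [hF v hv, abs_nonneg (F v)]
  have hGa : ∀ v ∈ Ω, |G T v| ≤ 1 := fun v hv => by
    have c1 := hG1 T v hv 1 (Or.inl rfl)
    have c2 := hG1 T v hv (-1) (Or.inr rfl)
    have := hf0 T v hv
    exact abs_le.2 ⟨by linarith, by linarith⟩
  have hM : |∑ v ∈ Ω, W v * G T v| ≤ a := by
    have c := hR (fun _ => 1) fun _ _ => by simp
    have e : ∑ v ∈ Ω, 1 * (B v * (G (T + 1) v - G T v)) = -∑ v ∈ Ω, W v * G T v := by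
      have e1 : ∑ v ∈ Ω, B v * G (T + 1) v = ∑ v ∈ Ω, (B v - W v) * G T v := by
        rw [sum_congr rfl (Gs T), sum_add_distrib, h0, zero_add, N.sum_A_one]
      simp only [one_mul, mul_sub, sub_mul, sum_sub_distrib] at e1 ⊢
      linarith
    rwa [e, abs_neg] at c
  obtain ⟨c, hc⟩ := hP (G T)
  set E := (∑ d ∈ D, C d * (G T (hd d) - G T (tl d)) ^ 2) / 2 with hE
  set V := ∑ v ∈ Ω, W v * (G T v - c) ^ 2 with hV
  have hEn : E ≤ ∑ v ∈ Ω, W v * (h v * (G T v - c)) + a := by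
    have c1 := (abs_le.1 (hR (G T) hGa)).1
    have e1 : ∑ v ∈ Ω, G T v * (B v * G (T + 1) v) = ∑ v ∈ Ω, W v * (h v * G T v) +
        (∑ v ∈ Ω, (B v - W v) * (G T v * G T v) - E) := by
      rw [hE, ← N.sum_A_self, ← sum_add_distrib]
      exact sum_congr rfl fun v hv => by rw [Gs T v hv]; ring
    have e2 : ∑ v ∈ Ω, G T v * (B v * (G (T + 1) v - G T v)) =
        ∑ v ∈ Ω, G T v * (B v * G (T + 1) v) - ∑ v ∈ Ω, (B v - W v) * (G T v * G T v) -
          ∑ v ∈ Ω, W v * (G T v * G T v) := by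
      rw [← sum_sub_distrib, ← sum_sub_distrib]
      exact sum_congr rfl fun v _ => by ring
    have e3 : ∑ v ∈ Ω, W v * (h v * (G T v - c)) = ∑ v ∈ Ω, W v * (h v * G T v) -
        c * ∑ v ∈ Ω, W v * h v := by
      rw [mul_sum, ← sum_sub_distrib]
      exact sum_congr rfl fun v _ => by ring
    have e4 : 0 ≤ ∑ v ∈ Ω, W v * (G T v * G T v) :=
      sum_nonneg fun v hv => mul_nonneg (N.W_nn v hv) (mul_self_nonneg _)
    rw [e3, h0]
    linarith
  have hAM : ∀ t : ℝ, ∀ F : σ → ℝ, (∀ v ∈ Ω, |F v| ≤ 1) →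
      2 * t * ∑ v ∈ Ω, W v * (F v * (G T v - c)) ≤ t ^ 2 * Z + V := fun t F hF => by
    rw [hZ, hV, mul_sum, mul_sum, ← sum_add_distrib]
    refine sum_le_sum fun v hv => ?_
    have c1 : F v ^ 2 ≤ 1 := by
      have := abs_le.1 (hF v hv)
      nlinarith
    have c2 : 2 * t * (F v * (G T v - c)) ≤ t ^ 2 + (G T v - c) ^ 2 := by
      nlinarith [sq_nonneg (t * F v - (G T v - c)), mul_le_mul_of_nonneg_left c1 (sq_nonneg t)]
    nlinarith [mul_le_mul_of_nonneg_left c2 (N.W_nn v hv)]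
  have hV3 : V ≤ 3 * ε ^ 2 * Z := by
    have c1 := hAM ε h h1
    have c2 := mul_le_mul_of_nonneg_left hEn ε0.le
    have c3 := mul_le_mul_of_nonneg_left aZ ε0.le
    nlinarith
  set m := (∑ v ∈ Ω, W v * G T v) / Z with hm
  have hVm : ∑ v ∈ Ω, W v * (G T v - m) ^ 2 ≤ V := by
    have e : ∀ y : ℝ, ∑ v ∈ Ω, W v * (G T v - y) ^ 2 = ∑ v ∈ Ω, W v * G T v ^ 2 -
        2 * y * (m * Z) + y ^ 2 * Z := fun y => by
      rw [hm, div_mul_cancel₀ _ Z0.ne', hZ, mul_sum, mul_sum, ← sum_sub_distrib, ← sum_add_distrib]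
      exact sum_congr rfl fun v _ => by ring
    rw [hV, e, e]
    nlinarith [mul_nonneg (sq_nonneg (m - c)) Z0.le]
  have hmZ : |m| * Z ≤ a := by
    rwa [hm, abs_div, abs_of_pos Z0, div_mul_cancel₀ _ Z0.ne']
  have hfin : 4 * ε * ∑ v ∈ Ω, W v * |G T v + fl T v * h v| ≤
      ∑ v ∈ Ω, W v * (G T v - m) ^ 2 + 4 * ε ^ 2 * Z + 4 * ε * (|m| * Z) + 4 * ε * a := by
    rw [ha, hZ]
    simp only [mul_sum, ← sum_add_distrib]
    refine sum_le_sum fun v hv => ?_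
    have c1 : |G T v + fl T v * h v| ≤ |G T v - m| + |m| + fl T v := by
      have d1 := abs_add_le (G T v) (fl T v * h v)
      have d2 := abs_add_le (G T v - m) m
      rw [sub_add_cancel] at d2
      rw [abs_mul, abs_of_nonneg (hf0 T v hv)] at d1
      nlinarith [h1 v hv, hf0 T v hv]
    have c2 : 4 * ε * |G T v - m| ≤ (G T v - m) ^ 2 + 4 * ε ^ 2 := by
      rw [← sq_abs (G T v - m)]
      nlinarith [sq_nonneg (|G T v - m| - 2 * ε)]
    have c3 := mul_le_mul_of_nonneg_left c1 (show 0 ≤ 4 * ε by positivity)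
    nlinarith [mul_le_mul_of_nonneg_left (c3.trans (show _ ≤ (G T v - m) ^ 2 + 4 * ε ^ 2 +
      4 * ε * |m| + 4 * ε * fl T v by linarith)) (N.W_nn v hv)]
  refine le_of_mul_le_mul_left (hfin.trans ?_) (show 0 < 4 * ε by positivity)
  have c3 := mul_le_mul_of_nonneg_left aZ ε0.le
  have c4 := mul_le_mul_of_nonneg_left hmZ ε0.le
  nlinarith [mul_pos (mul_pos ε0 ε0) Z0]

/-- one tick brings every bounded test function close to its mean, in the weighted `l1` norm -/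
theorem tick_l1 (N : Net Ω D tl hd rv C W B) {b : ℕ} {st : σ → List Bool → σ × Bool}
    (hL : Law Ω D tl hd C W B b st) {ε : ℝ} (ε0 : 0 < ε) {T n : ℕ} (hn : b * T ≤ n)
    (Z0 : 0 < ∑ v ∈ Ω, W v)
    (hP : ∀ g : σ → ℝ, ∃ c, ∑ v ∈ Ω, W v * (g v - c) ^ 2 ≤
      ε * ((∑ d ∈ D, C d * (g (hd d) - g (tl d)) ^ 2) / 2))
    (hB : ∑ v ∈ Ω, B v ≤ ε * T * ∑ v ∈ Ω, W v) (f : σ → ℝ) (f0 : ∀ v ∈ Ω, 0 ≤ f v)
    (f1 : ∀ v ∈ Ω, f v ≤ 1) :
    ∑ v ∈ Ω, W v * |Ex n (fun x => f (tick b st T v x)) - (∑ u ∈ Ω, W u * f u) / ∑ u ∈ Ω, W u| ≤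
      4 * ε * ∑ v ∈ Ω, W v := by
  set m := (∑ u ∈ Ω, W u * f u) / ∑ u ∈ Ω, W u with hm
  have m0 : 0 ≤ m := div_nonneg (sum_nonneg fun v hv => mul_nonneg (N.W_nn v hv) (f0 v hv)) Z0.le
  have m1 : m ≤ 1 := (div_le_one Z0).2 (sum_le_sum fun v hv => by
    nlinarith [N.W_nn v hv, f1 v hv])
  have key := core N (fun v => f v - m)
    (fun k v => (Kop b (tk st))^[k] (fun p => if p.2 = true then f p.1 - m else 0) (v, false))
    (fun k v => (Kop b (tk st))^[k] (fun p => if p.2 = true then 0 else 1) (v, false))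
    (fun v hv => abs_le.2 ⟨by linarith [f0 v hv], by linarith [f1 v hv]⟩)
    (by simp only [mul_sub, sum_sub_distrib, ← sum_mul]
        rw [hm, mul_div_cancel₀ _ Z0.ne', sub_self])
    (fun v => by simp) (fun v => by simp)
    (fun k v hv => by rw [it_succ hL _ k hv]; simp)
    (fun k v hv => by rw [it_succ hL _ k hv]; simp) ε0 T Z0 hP hB
  refine le_of_eq_of_le (sum_congr rfl fun v _ => ?_) key
  congr 2
  rw [← Ex_rit b _ _ T n _ hn, ← Ex_rit b _ _ T n _ hn, mul_comm, ← Ex_mul, ← Ex_add,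
    sub_eq_add_neg, ← Ex_const n (-m), ← Ex_add]
  refine Ex_congr fun r _ => ?_
  rw [tick]
  split_ifs <;> ring

omit [DecidableEq σ] in
theorem rit_inv {τ : Type} {Q : τ → Prop} {h : τ → List Bool → τ} (hc : ∀ s, Q s → ∀ x, Q (h s x))
    (k t : ℕ) : ∀ (s : τ) (r : List Bool), Q s → Q (rit k h t s r) := by
  induction t with
  | zero => intro s r hs; exact hs
  | succ t ih => intro s r hs; exact ih _ _ (hc s hs _)

omit [DecidableEq σ] in
/-- the walk stays in `Ω` and is killed in `S` only -/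
theorem tick_mem {Ω S : Set σ} {st : σ → List Bool → σ × Bool}
    (hc : ∀ v ∈ Ω, ∀ x, (st v x).1 ∈ Ω ∧ ((st v x).2 = true → (st v x).1 ∈ S)) (b T : ℕ) {s : σ}
    (hs : s ∈ Ω) (x : List Bool) : tick b st T s x ∈ Ω ∧ (s ∈ S → tick b st T s x ∈ S) := by
  have := rit_inv (Q := fun p : σ × Bool => p.1 ∈ Ω ∧ (p.2 = true → p.1 ∈ S)) (h := tk st)
    (fun p hp y => by
      unfold tk
      split_ifs
      · exact hp
      · exact hc _ hp.1 y) b T (s, false) x ⟨hs, by simp⟩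
  unfold tick
  split_ifs with h
  · exact ⟨this.1, fun _ => this.2 h⟩
  · exact ⟨hs, id⟩

/-- one stage of the trajectory -/
def stage (b : ℕ) (st : ℕ → σ → List Bool → σ × Bool) (T : ℕ) (p : ℕ × σ) (x : List Bool) :
    ℕ × σ := (p.1 + 1, tick b (st (p.1 + 1)) T p.2 x)

/-- the state after the stages `1, ..., j` -/
def traj (b : ℕ) (st : ℕ → σ → List Bool → σ × Bool) (T : ℕ) (s₀ : σ) (j : ℕ) (x : List Bool) : σ :=
  (rit (b * T) (stage b st T) j (0, s₀) x).2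

omit [DecidableEq σ] in
theorem traj_mem {Ω S : Set σ} {st : ℕ → σ → List Bool → σ × Bool}
    (hc : ∀ t, ∀ v ∈ Ω, ∀ x, (st t v x).1 ∈ Ω ∧ ((st t v x).2 = true → (st t v x).1 ∈ S))
    (b T : ℕ) {s₀ : σ} (h0 : s₀ ∈ Ω) (h1 : s₀ ∈ S) (j : ℕ) (x : List Bool) :
    traj b st T s₀ j x ∈ Ω ∧ traj b st T s₀ j x ∈ S :=
  rit_inv (Q := fun p : ℕ × σ => p.2 ∈ Ω ∧ p.2 ∈ S) (h := stage b st T)
    (fun _ hp y => ⟨(tick_mem (hc _) b T hp.1 y).1, (tick_mem (hc _) b T hp.1 y).2 hp.2⟩)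
    _ j (0, s₀) x ⟨h0, h1⟩

/-- the state after stage `j` is close to the `j`-th stationary law in total variation -/
theorem traj_tv {C : ℕ → δ → ℝ} {W B : ℕ → σ → ℝ} {N b T K : ℕ}
    {st : ℕ → σ → List Bool → σ × Bool} {ε δ₀ : ℝ} {s₀ : σ} (ε0 : 0 < ε) (hK : b * T * N ≤ K)
    (hN : ∀ t ≤ N, Net Ω D tl hd rv (C t) (W t) (B t))
    (hL : ∀ t ≤ N, Law Ω D tl hd (C t) (W t) (B t) b (st t))
    (hc : ∀ t, ∀ v ∈ Ω, ∀ x, (st t v x).1 ∈ Ω)
    (Z0 : ∀ t ≤ N, 0 < ∑ v ∈ Ω, W t v)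
    (hP : ∀ t ≤ N, ∀ g : σ → ℝ, ∃ c, ∑ v ∈ Ω, W t v * (g v - c) ^ 2 ≤
      ε * ((∑ d ∈ D, C t d * (g (hd d) - g (tl d)) ^ 2) / 2))
    (hB : ∀ t ≤ N, ∑ v ∈ Ω, B t v ≤ ε * T * ∑ v ∈ Ω, W t v)
    (hr : ∀ t < N, ∀ v ∈ Ω, W t v * ∑ u ∈ Ω, W (t + 1) u ≤ 2 * W (t + 1) v * ∑ u ∈ Ω, W t u)
    (hs : s₀ ∈ Ω) (h0 : (1 - δ₀) * ∑ v ∈ Ω, W 0 v ≤ W 0 s₀) {j : ℕ} (hj : j ≤ N) (f : σ → ℝ)
    (f0 : ∀ v ∈ Ω, 0 ≤ f v) (f1 : ∀ v ∈ Ω, f v ≤ 1) :
    |Ex K (fun x => f (traj b st T s₀ j x)) - (∑ u ∈ Ω, W j u * f u) / ∑ u ∈ Ω, W j u| ≤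
      δ₀ + 8 * ε * j := by
  have key : ∀ j ≤ N, ∀ F : ℕ × σ → ℝ, (∀ v ∈ Ω, 0 ≤ F (j, v)) → (∀ v ∈ Ω, F (j, v) ≤ 1) →
      |(Kop (b * T) (stage b st T))^[j] F (0, s₀) - (∑ u ∈ Ω, W j u * F (j, u)) / ∑ u ∈ Ω, W j u| ≤
        δ₀ + 8 * ε * j := by
    intro j
    induction j with
    | zero =>
      intro h F F0 F1
      have Z := Z0 0 h
      have e : F (0, s₀) - (∑ u ∈ Ω, W 0 u * F (0, u)) / ∑ u ∈ Ω, W 0 u =
          (∑ u ∈ Ω.erase s₀, W 0 u * (F (0, s₀) - F (0, u))) / ∑ u ∈ Ω, W 0 u := by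
        rw [sum_erase _ (by simp), eq_div_iff Z.ne', sub_mul, div_mul_cancel₀ _ Z.ne', mul_sum,
          ← sum_sub_distrib]
        exact sum_congr rfl fun u _ => by ring
      rw [Function.iterate_zero, id, e, abs_div, abs_of_pos Z, div_le_iff₀ Z]
      have c : |∑ u ∈ Ω.erase s₀, W 0 u * (F (0, s₀) - F (0, u))| ≤ ∑ u ∈ Ω.erase s₀, W 0 u :=
        (abs_sum_le_sum_abs _ _).trans (sum_le_sum fun u hu => by
          have hu' := mem_of_mem_erase hu
          have w := (hN 0 h).W_nn u hu'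
          rw [abs_mul, abs_of_nonneg w]
          refine mul_le_of_le_one_right w (abs_le.2 ⟨?_, ?_⟩) <;>
            linarith [F0 _ hs, F1 _ hs, F0 _ hu', F1 _ hu'])
      have := add_sum_erase Ω (W 0) hs
      simp only [Nat.cast_zero, mul_zero, add_zero]
      linarith
    | succ j ih =>
      intro h F F0 F1
      have hm : ∀ v ∈ Ω, ∀ x, tick b (st (j + 1)) T v x ∈ Ω := fun v hv x =>
        (tick_mem (Ω := ↑Ω) (S := ↑Ω) (fun u hu y => ⟨hc _ u hu y, fun _ => hc _ u hu y⟩)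
          b T hv x).1
      have a := ih (by omega) (Kop (b * T) (stage b st T) F)
        (fun v hv => Ex_nonneg fun x _ => F0 _ (hm v hv x))
        (fun v hv => by
          rw [← Ex_const (b * T) 1]
          exact Ex_mono fun x _ => F1 _ (hm v hv x))
      have c := tick_l1 (hN _ h) (hL _ h) ε0 (le_refl (b * T)) (Z0 _ h) (hP _ h) (hB _ h)
        (fun v => F (j + 1, v)) F0 F1
      set m := (∑ u ∈ Ω, W (j + 1) u * F (j + 1, u)) / ∑ u ∈ Ω, W (j + 1) u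
      have Zj := Z0 j (by omega)
      have Zk := Z0 _ h
      have d : |(∑ u ∈ Ω, W j u * Kop (b * T) (stage b st T) F (j, u)) / (∑ u ∈ Ω, W j u) - m| ≤
          8 * ε := by
        have e : (∑ u ∈ Ω, W j u * Kop (b * T) (stage b st T) F (j, u)) / (∑ u ∈ Ω, W j u) - m =
            (∑ u ∈ Ω, W j u * (Kop (b * T) (stage b st T) F (j, u) - m)) / ∑ u ∈ Ω, W j u := by
          rw [eq_div_iff Zj.ne', sub_mul, div_mul_cancel₀ _ Zj.ne', mul_sum, ← sum_sub_distrib]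
          exact sum_congr rfl fun u _ => by ring
        rw [e, abs_div, abs_of_pos Zj, div_le_iff₀ Zj]
        refine (abs_sum_le_sum_abs _ _).trans (le_of_mul_le_mul_right ?_ Zk)
        rw [sum_mul]
        refine (sum_le_sum (g := fun v => 2 * (∑ u ∈ Ω, W j u) * (W (j + 1) v *
          |Ex (b * T) (fun x => F (j + 1, tick b (st (j + 1)) T v x)) - m|)) fun v hv => ?_).trans ?_
        · rw [abs_mul, abs_of_nonneg ((hN j (by omega)).W_nn v hv)]
          have := mul_le_mul_of_nonneg_right (hr j (by omega) v hv)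
            (abs_nonneg (Kop (b * T) (stage b st T) F (j, v) - m))
          change _ ≤ 2 * (∑ u ∈ Ω, W j u) * (W (j + 1) v *
            |Kop (b * T) (stage b st T) F (j, v) - m|)
          linarith
        · rw [← mul_sum]
          have := mul_le_mul_of_nonneg_left c (show 0 ≤ 2 * ∑ u ∈ Ω, W j u by linarith)
          linarith
      rw [Function.iterate_succ_apply]
      have := abs_add_le ((Kop (b * T) (stage b st T))^[j] (Kop (b * T) (stage b st T) F) (0, s₀) -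
        (∑ u ∈ Ω, W j u * Kop (b * T) (stage b st T) F (j, u)) / ∑ u ∈ Ω, W j u)
        ((∑ u ∈ Ω, W j u * Kop (b * T) (stage b st T) F (j, u)) / (∑ u ∈ Ω, W j u) - m)
      rw [sub_add_sub_cancel] at this
      push_cast
      linarith
  have := key j hj (fun p => f p.2) f0 f1
  rwa [← Ex_rit (b * T) _ _ j K _ ((Nat.mul_le_mul_left _ hj).trans hK)] at this

end Pool.Agent.US.Tick72
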